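import Pool.Agent.P.MP_9699e0_gt.W.QFin
import Pool.Agent.P.MP_9699e0_gt.Fin

/-! The manifold is homotopy equivalent to the Fermat quartic, and all powers of the map are
homologically trivial. -/

set_option autoImplicit false
set_option linter.unusedSectionVars false

noncomputable section

namespace HW

open HK3 Pool.Agent.P.MP_9699e0_gt Set Filter Topology

variable {X : Type} [TopologicalSpace X]

theorem map_comp_eq (f g : C(X, X)) {n : ℕ} (c : Chn ℤ X n) :
    Finsupp.mapDomain (f.comp g).comp c =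
      Finsupp.mapDomain f.comp (Finsupp.mapDomain g.comp c) := by
  rw [← Finsupp.mapDomain_comp]
  rfl

theorem homTrivial_comp {f g : C(X, X)} (hf : HomTrivial f) (hg : HomTrivial g) :
    HomTrivial (f.comp g) := by
  refine ⟨fun c => ?_, fun n c hc => ?_⟩
  · obtain ⟨d, hd⟩ := hg.1 c
    obtain ⟨d', hd'⟩ := hf.1 (Finsupp.mapDomain g.comp c)
    exact ⟨d' + d, by rw [map_add, hd, hd', map_comp_eq, sub_add_sub_cancel]⟩
  · obtain ⟨d, hd⟩ := hg.2 n c hc
    obtain ⟨d', hd'⟩ := hf.2 n (Finsupp.mapDomain g.comp c)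
      (by rw [← sub_add_cancel (Finsupp.mapDomain g.comp c) c, ← hd, map_add, bd_bd, hc, add_zero])
    exact ⟨d' + d, by rw [map_add, hd, hd', map_comp_eq, sub_add_sub_cancel]⟩

theorem homTrivial_id : HomTrivial (ContinuousMap.id X) := by
  have h : ∀ (n : ℕ) (c : Chn ℤ X n), Finsupp.mapDomain (ContinuousMap.id X).comp c = c :=
    fun n c => Finsupp.mapDomain_id
  exact ⟨fun c => ⟨0, by rw [h, map_zero, sub_self]⟩,
    fun n c _ => ⟨0, by rw [h, map_zero, sub_self]⟩⟩

theorem homTrivial_iter {g : C(X, X)} (hg : HomTrivial g) (k : ℕ) :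
    ∀ f : C(X, X), ⇑f = g^[k] → HomTrivial f := by
  induction k with
  | zero =>
    intro f hf
    obtain rfl : f = ContinuousMap.id X := ContinuousMap.ext (congrFun hf)
    exact homTrivial_id
  | succ k ih =>
    intro f hf
    obtain rfl : f = (⟨g^[k], g.continuous.iterate k⟩ : C(X, X)).comp g :=
      ContinuousMap.ext (congrFun hf)
    exact homTrivial_comp (ih _ rfl) hg

theorem iter_val {n : ℕ} [NeZero n] {g : X → X} (h : g^[n] = id) (a b : ZMod n) (x : X) :
    g^[(a + b).val] x = g^[a.val] (g^[b.val] x) := by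
  rw [ZMod.val_add, ← Function.iterate_add_apply]
  exact Function.IsPeriodicPt.iterate_mod_apply (congrFun h x) _

theorem final' {n : ℕ} (hn : Odd n) (F : Fns n) (g : C(XX n, XX n)) (hg : IsG n g) :
    T2Space (XX n) ∧ CompactSpace (XX n) ∧ SimplyConnectedSpace (XX n) ∧
      Nonempty (ContinuousMap.HomotopyEquiv (XX n) Fermat) ∧ HomTrivial g := by
  obtain ⟨h1, h2, h3, h4, h5⟩ := final hn F g hg
  obtain ⟨z, hz⟩ := (oatM hn).exists_fund
  have h := mf_of_oat _ hz
  exact ⟨h1, h2, h3, equiv_fermat h h4, homTrivial_of h h4 h5⟩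

end HW
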