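import Pool.Agent.P.MP_9699e0_gt.W.CpA

/-! The hyperplane bundle of projective space and its class. -/

set_option autoImplicit false
set_option linter.unusedSectionVars false

noncomputable section

namespace HW

open HK3 Pool.Agent.P.MP_9699e0_gt Set Filter Topology

variable {X B : Type} [TopologicalSpace X] [TopologicalSpace B] {n : ℕ}

/-- The cover by the preimages of the standard affine pieces. -/
def etP (g : C(X, CP n)) : Et X :=
  etC (fun j => g ⁻¹' Uc j) (fun j => (isOpen_Uc j).preimage g.continuous) fun x => exists_Uc (g x)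

/-- The cocycle of the hyperplane bundle. -/
def JP (g : X → CP n) (a b : Fin (n + 1) × X) : ℂ := nl a.1 (g a.2) b.1

/-- The section given by a linear form. -/
def sP (g : X → CP n) (ν : (Fin (n + 1) → ℂ) →ₗ[ℂ] ℂ) (a : Fin (n + 1) × X) : ℂ :=
  ν (nl a.1 (g a.2))

open Classical in
/-- A cocycle that represents the hyperplane class. -/
def xx (n : ℕ) : Simp (CP n) 2 → ℤ :=
  if h : ∃ c, (etP (ContinuousMap.id (CP n))).Rep (JP id) c then h.choose else 0

/-- The affine chart at the first coordinate point. -/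
def cht (n : ℕ) (p : B × (Fin (n + 1) → ℂ)) : B × CP (n + 1) :=
  (p.1, pm (n + 1) (Fin.cons 1 p.2))

/-- The complement of the first coordinate point. -/
def Vs (B : Type) (n : ℕ) : Set (B × CP (n + 1)) := {p | Fin.tail (rp p.2) ≠ 0}

/-- The complement of the zero section. -/
def Pz (B V : Type) [Zero V] : Set (B × V) := {p | p.2 ≠ 0}

/-- The classes on a product with projective space. -/
def opt {ι : Type} (y : ι → Simp B 2 → ℤ) (n : ℕ) : Option ι → Simp (B × CP n) 2 → ℤ
  | none => pull Prod.snd (xx n)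
  | some i => pull Prod.fst (y i)

/-- Cycles that are not detected can be pushed off the first coordinate point. -/
structure Red {ι : Type} (y : ι → Simp B 2 → ℤ) (n : ℕ) : Prop where
  one : cyc ℤ univ 1 ≤ cyc ℤ (Vs B n) 1 ⊔ bdy ℤ univ 1
  two : ∀ c ∈ cyc ℤ univ 2, ev ℤ (opt y (n + 1) none) c = 0 →
    c ∈ cyc ℤ (Vs B n) 2 ⊔ bdy ℤ univ 2
  three : cyc ℤ univ 3 ≤ cyc ℤ (Vs B n) 3 ⊔ bdy ℤ univ 3
  four : ∀ c ∈ cyc ℤ univ 4, (∀ i j, ev ℤ (cup (opt y (n + 1) i) (opt y (n + 1) j)) c = 0) →
    c ∈ cyc ℤ (Vs B n) 4 ⊔ bdy ℤ univ 4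

end HW
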