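import Pool.Agent.P.MP_9699e0_gt.W.Defs
import Pool.Agent.P.MP_9699e0_gt.Hur
import Pool.Agent.P.MP_9699e0_gt.MvA
import Pool.Agent.P.MP_9699e0_gt.Sm
import Pool.Agent.P.MP_9699e0_gt.Alg

/-! General lemmas on singular chains: pull back, homotopy invariance, subspaces, universal
coefficients in low degree. -/

set_option autoImplicit false
set_option linter.unusedSectionVars false

noncomputable section

namespace HW

open HK3 Pool.Agent.P.MP_9699e0_gt Set Filter Topology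

variable {X Y : Type} [TopologicalSpace X] [TopologicalSpace Y]

namespace RGen

theorem mu {R : Type} [CommRing R] {n : ℕ} (c : Chn R X n) : c ∈ chn R (univ : Set X) n := by
  rw [chn_univ]
  trivial

theorem d4 (a : Simp X 4 → ℤ) (σ : Simp X 5) :
    cobd a σ = a (sub σ ![1, 2, 3, 4, 5]) - a (sub σ ![0, 2, 3, 4, 5]) +
      a (sub σ ![0, 1, 3, 4, 5]) - a (sub σ ![0, 1, 2, 4, 5]) + a (sub σ ![0, 1, 2, 3, 5]) -
      a (sub σ ![0, 1, 2, 3, 4]) := by
  have e0 : (0 : Fin 6).succAbove = ![1, 2, 3, 4, 5] := by decide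
  have e1 : (1 : Fin 6).succAbove = ![0, 2, 3, 4, 5] := by decide
  have e2 : (2 : Fin 6).succAbove = ![0, 1, 3, 4, 5] := by decide
  have e3 : (3 : Fin 6).succAbove = ![0, 1, 2, 4, 5] := by decide
  have e4 : (4 : Fin 6).succAbove = ![0, 1, 2, 3, 5] := by decide
  have e5 : (5 : Fin 6).succAbove = ![0, 1, 2, 3, 4] := by decide
  have p3 : (-1 : ℤ) ^ ((3 : Fin 6) : ℕ) = -1 := by decide
  have p4 : (-1 : ℤ) ^ ((4 : Fin 6) : ℕ) = 1 := by decide
  have p5 : (-1 : ℤ) ^ ((5 : Fin 6) : ℕ) = -1 := by decide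
  rw [cobd, Fin.sum_univ_six, e0, e1, e2, e3, e4, e5, p3, p4, p5]
  simp [sub_eq_add_neg]

theorem emb_val {S : Set X} (h : S.Nonempty) : Emb (Subtype.val : S → X) univ := by
  classical
  obtain ⟨x, hx⟩ := h
  refine ⟨continuous_subtype_val.continuousOn, fun y => if h : y ∈ S then ⟨y, h⟩ else ⟨x, hx⟩,
    ?_, fun y _ => dif_pos y.2⟩
  rw [Subtype.coe_image_univ, continuousOn_iff_continuous_domRestrict]
  refine continuous_id.congr fun y => ?_
  simp [domRestrict]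

theorem zero_of_empty {S : Set X} (h : ¬S.Nonempty) {n : ℕ} (c : Chn ℤ S n) : c = 0 :=
  Finsupp.ext fun σ => absurd ⟨_, (σ (stdSimplex.vertex 0)).2⟩ h

/-- A chain contraction in low degrees. -/
theorem contr (h1 : HZ X 1) : ∃ (Q : Chn ℤ X 0 →ₗ[ℤ] Chn ℤ X 1) (K : Chn ℤ X 1 →ₗ[ℤ] Chn ℤ X 2),
    ∀ c, bd ℤ X 1 (K c) = c - Q (bd ℤ X 0 c) := by
  let base : X → X := fun x => (Quotient.mk (pathSetoid X) x).out
  have hb : ∀ x, Joined (base x) x := fun x => Quotient.mk_out (s := pathSetoid X) x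
  have hj : ∀ x y, Joined x y → base x = base y := fun x y hxy => by
    have : Quotient.mk (pathSetoid X) x = Quotient.mk (pathSetoid X) y := Quotient.sound hxy
    simp only [base, this]
  let Q : Chn ℤ X 0 →ₗ[ℤ] Chn ℤ X 1 :=
    Finsupp.linearCombination ℤ fun ρ => Finsupp.single (Hur_ps (hb (vtx ρ 0)).somePath) 1
  have hQ : ∀ x, Q (Finsupp.single (Hur_cst 0 x) 1) =
      Finsupp.single (Hur_ps (hb x).somePath) 1 := by
    intro x
    simp only [Q, Finsupp.linearCombination_single, one_smul]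
    rfl
  refine ⟨Q, Hur_contr Q fun σ => h1 ⟨mu _, ?_⟩⟩
  change bd ℤ X 0 _ = 0
  rw [map_sub, Hur_bd_one, map_sub, hQ, hQ, map_sub, Hur_bd_one, Hur_bd_one, Hur_vtx_ps0,
    Hur_vtx_ps0, Hur_vtx_ps1, Hur_vtx_ps1, hj _ _ ⟨Hur_sp σ⟩]
  abel

theorem ev_lin {n : ℕ} (φ : Chn ℤ X n →ₗ[ℤ] ℤ) :
    ev ℤ (fun σ => φ (Finsupp.single σ 1)) = φ := by
  refine Finsupp.lhom_ext' fun σ => LinearMap.ext_ring ?_
  simp [ev_single]

theorem cobd_eq {n : ℕ} (a : Simp X n → ℤ) (τ : Simp X (n + 1)) :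
    cobd a τ = ev ℤ a (bd ℤ X n (Finsupp.single τ 1)) := by
  rw [ev_bd, ev_single, one_smul]

theorem algz_apply {n : ℕ} (c : Chn ℤ X n) (σ : Simp X n) : Algz n c σ = (c σ : ℚ) := by
  classical
  induction c using Finsupp.induction_linear with
  | zero => simp
  | add a b ha hb => simp [ha, hb]
  | single τ r =>
    rw [Algz_single, Finsupp.single_apply, Finsupp.single_apply]
    split_ifs <;> simp

end RGen

open RGen

theorem mem_cyc_univ {n : ℕ} {c : Chn ℤ X (n + 1)} :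
    c ∈ cyc ℤ (univ : Set X) (n + 1) ↔ bd ℤ X n c = 0 := Alg_mem_cyc

theorem bd_mem_bdy {n : ℕ} (c : Chn ℤ X (n + 1)) : bd ℤ X n c ∈ bdy ℤ (univ : Set X) n := ⟨c, mu c, rfl⟩

theorem ev_pull {M : Type} [AddCommGroup M] {n : ℕ} (f : X → Y) (a : Simp Y n → M)
    (c : Chn ℤ X n) : ev ℤ (pull f a) c = ev ℤ a (cmap ℤ f n c) := (ev_cmap a f c).symm

theorem cobd_pull {M : Type} [AddCommGroup M] {n : ℕ} {f : X → Y} (hf : Continuous f)
    (a : Simp Y n → M) : cobd (pull f a) = pull f (cobd a) :=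
  funext fun _ => cobd_smap a hf.continuousOn (subset_univ _)

theorem coc_pull {M : Type} [AddCommGroup M] {n : ℕ} {f : X → Y} (hf : Continuous f)
    {a : Simp Y n → M} (h : cobd a = 0) : cobd (pull f a) = 0 := by
  rw [cobd_pull hf, h]
  rfl

theorem cup_pull {f : X → Y} (hf : Continuous f) (a b : Simp Y 2 → ℤ) :
    cup (pull f a) (pull f b) = pull f (cup a b) := by
  funext σ
  simp only [cup, pull, smap_sub hf.continuousOn (subset_univ _)]

theorem pull_pull {M W : Type} [TopologicalSpace W] {n : ℕ} {f : X → Y} (hf : Continuous f)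
    (g : Y → W) (a : Simp W n → M) : pull f (pull g a) = pull (g ∘ f) a := by
  funext σ
  have e := cmap_comp (R := ℤ) (g := g) hf.continuousOn (mu (Finsupp.single σ 1))
  rw [cmap_single, cmap_single, cmap_single] at e
  exact congrArg a (Finsupp.single_left_injective one_ne_zero e)

theorem pull_id {M : Type} {n : ℕ} (a : Simp X n → M) : pull id a = a := by
  funext σ
  have e := cmap_id (R := ℤ) (Finsupp.single σ 1)
  rw [cmap_single] at e
  exact congrArg a (Finsupp.single_left_injective one_ne_zero e)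

theorem coh_pull {f : X → Y} (hf : Continuous f) {a b : Simp Y 2 → ℤ} (h : Coh a b) :
    Coh (pull f a) (pull f b) := by
  obtain ⟨e, rfl⟩ := h
  exact ⟨pull f e, by rw [cobd_pull hf]; rfl⟩

theorem cmap_cmap {W : Type} [TopologicalSpace W] {n : ℕ} {f : X → Y} (hf : Continuous f)
    (g : Y → W) (c : Chn ℤ X n) : cmap ℤ g n (cmap ℤ f n c) = cmap ℤ (g ∘ f) n c :=
  cmap_comp hf.continuousOn (mu c)

theorem cyc_map {n : ℕ} {f : X → Y} (hf : Continuous f) {c : Chn ℤ X n}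
    (h : c ∈ cyc ℤ univ n) : cmap ℤ f n c ∈ cyc ℤ univ n :=
  cmap_cyc hf.continuousOn (mapsTo_univ _ _) h

theorem bdy_map {n : ℕ} {f : X → Y} (hf : Continuous f) {c : Chn ℤ X n}
    (h : c ∈ bdy ℤ univ n) : cmap ℤ f n c ∈ bdy ℤ univ n :=
  cmap_bdy hf.continuousOn (mapsTo_univ _ _) h

theorem ev_bdy {M : Type} [AddCommGroup M] {n : ℕ} {a : Simp X n → M} (h : cobd a = 0)
    {S : Set X} {c : Chn ℤ X n} (hc : c ∈ bdy ℤ S n) : ev ℤ a c = 0 := by
  obtain ⟨d, -, rfl⟩ := hc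
  rw [ev_bd, h]
  simp [ev]

theorem ev_eq_of_bdy {M : Type} [AddCommGroup M] {n : ℕ} {a : Simp X n → M} (h : cobd a = 0)
    {S : Set X} {c c' : Chn ℤ X n} (hc : c - c' ∈ bdy ℤ S n) : ev ℤ a c = ev ℤ a c' := by
  rw [← sub_eq_zero, ← map_sub]
  exact ev_bdy h hc

theorem ev_coh {a b : Simp X 2 → ℤ} (h : Coh a b) {c : Chn ℤ X 2} (hc : c ∈ cyc ℤ univ 2) :
    ev ℤ a c = ev ℤ b c := by
  obtain ⟨e, rfl⟩ := h
  rw [ev_add, ← ev_bd, mem_cyc_univ.1 hc, map_zero, add_zero]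

theorem ev_sum_smul {ι : Type} (T : Finset ι) {n : ℕ} (m : ι → ℤ) (a : ι → Simp X n → ℤ)
    (c : Chn ℤ X n) : ev ℤ (∑ i ∈ T, m i • a i) c = ∑ i ∈ T, m i * ev ℤ (a i) c := by
  induction c using Finsupp.induction_linear with
  | zero => simp
  | add x y hx hy => simp only [map_add, hx, hy, mul_add, Finset.sum_add_distrib]
  | single σ r =>
    simp only [ev_single, Finset.sum_apply, Pi.smul_apply, smul_eq_mul, Finset.mul_sum]
    exact Finset.sum_congr rfl fun i _ => by ring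

theorem coc_cup {a b : Simp X 2 → ℤ} (ha : cobd a = 0) (hb : cobd b = 0) :
    cobd (cup a b) = 0 := by
  funext σ
  have e : cobd (cup a b) σ = cobd a (sub σ ![0, 1, 2, 3]) * b (sub σ ![3, 4, 5]) +
      a (sub σ ![0, 1, 2]) * cobd b (sub σ ![2, 3, 4, 5]) := by
    simp only [d4, Cup_d2, cup, Cup_c3, Matrix.cons_val]
    ring
  rw [e, ha, hb]
  simp

theorem coc_of_coh {a b : Simp X 2 → ℤ} (h : Coh a b) (hb : cobd b = 0) : cobd a = 0 := by
  obtain ⟨e, rfl⟩ := h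
  rw [cobd_add, hb, cobd_cobd, add_zero]

theorem hty_cyc {f g : C(X, Y)} (h : f.Homotopic g) {n : ℕ} {c : Chn ℤ X n}
    (hc : c ∈ cyc ℤ univ n) : cmap ℤ f n c - cmap ℤ g n c ∈ bdy ℤ univ n := by
  obtain ⟨H⟩ := h.symm
  have := htpy_cyc (fun s x => H (projIcc 0 1 zero_le_one s, x)) (S := univ) (S' := univ)
    (Continuous.continuousOn (H.continuous.comp
      ((continuous_projIcc.comp continuous_fst).prodMk continuous_snd)))
    (fun _ _ _ _ => mem_univ _) hc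
  simpa using this

theorem val_chn {S : Set X} {n : ℕ} {c : Chn ℤ X n} (hc : c ∈ chn ℤ S n) :
    ∃ c' : Chn ℤ S n, cmap ℤ Subtype.val n c' = c := by
  by_cases h : S.Nonempty
  · obtain ⟨c', -, e⟩ := (emb_val h).exists_chn (c := c) (by rwa [Subtype.coe_image_univ])
    exact ⟨c', e⟩
  · rw [not_nonempty_iff_eq_empty.1 h, chn_empty, Submodule.mem_bot] at hc
    exact ⟨0, by rw [hc, map_zero]⟩

theorem val_mem {S : Set X} {n : ℕ} (c : Chn ℤ S n) : cmap ℤ Subtype.val n c ∈ chn ℤ S n :=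
  cmap_mem continuous_subtype_val.continuousOn (fun x _ => x.2) (mu c)

theorem val_cyc {S : Set X} {n : ℕ} {c : Chn ℤ S n} :
    cmap ℤ Subtype.val n c ∈ cyc ℤ S n ↔ c ∈ cyc ℤ univ n := by
  refine ⟨fun hc => ?_, cmap_cyc continuous_subtype_val.continuousOn fun x _ => x.2⟩
  by_cases h : S.Nonempty
  · obtain _ | n := n
    · exact mu c
    · have e : cmap ℤ Subtype.val n (bd ℤ S n c) = 0 := by
        rw [← cmap_bd continuous_subtype_val.continuousOn (mu c)]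
        exact hc.2
      have := (emb_val h).mem_chn (T := ∅) (T' := ∅) (mu (bd ℤ S n c)) (fun _ _ h => h)
        (by rw [e]; exact Submodule.zero_mem _)
      rw [chn_empty, Submodule.mem_bot] at this
      exact mem_cyc_univ.2 this
  · rw [zero_of_empty h c]
    exact Submodule.zero_mem _

theorem val_bdy {S : Set X} {n : ℕ} {c : Chn ℤ S n} :
    cmap ℤ Subtype.val n c ∈ bdy ℤ S n ↔ c ∈ bdy ℤ univ n := by
  refine ⟨fun hc => ?_, cmap_bdy continuous_subtype_val.continuousOn fun x _ => x.2⟩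
  by_cases h : S.Nonempty
  · exact (emb_val h).mem_bdy (mu c) (by rwa [Subtype.coe_image_univ])
  · rw [zero_of_empty h c]
    exact Submodule.zero_mem _

theorem hz_val {S : Set X} {n : ℕ} : HZ S n ↔ cyc ℤ S n ≤ bdy ℤ S n := by
  refine ⟨fun h c hc => ?_, fun h c hc => val_bdy.1 (h (val_cyc.2 hc))⟩
  obtain ⟨c', rfl⟩ := val_chn (cyc_le S n hc)
  exact val_bdy.2 (h (val_cyc.1 hc))

theorem rcyc_bd {S : Set X} {n : ℕ} {c : Chn ℤ X (n + 1)} (h : bd ℤ X n c ∈ chn ℤ S n) :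
    bd ℤ X n c ∈ rcyc S n := by
  obtain _ | n := n
  · exact ⟨h, aug_bd c⟩
  · exact ⟨h, bd_bd n c⟩

theorem rcyc_le (S : Set X) (n : ℕ) : rcyc S n ≤ cyc ℤ S n := by
  obtain _ | n := n
  · exact inf_le_left
  · exact le_rfl

theorem rcyc_le_of_star {V : Type} [NormedAddCommGroup V] [NormedSpace ℝ V] {S : Set V} {x : V}
    (hx : x ∈ S) (h : StarConvex ℝ x S) (n : ℕ) : rcyc S n ≤ bdy ℤ S n := by
  obtain _ | n := n
  · exact fun c hc => mem_bdy_zero (h.isPathConnected hx) hc.1 hc.2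
  · exact cyc_le_of_star h n

theorem joined_of_bdy {S : Set X} {x y : X} (hx : x ∈ S) (hy : y ∈ S)
    (h : Finsupp.single (Hur_cst 0 y) (1 : ℤ) - Finsupp.single (Hur_cst 0 x) 1 ∈ bdy ℤ S 0) :
    JoinedIn S x y := by
  classical
  obtain ⟨d, hd, e⟩ := h
  let a : X → ℤ := fun z => if JoinedIn S x z then 1 else 0
  have e0 : ev ℤ (cobd (pt a)) d = ev ℤ (0 : Simp X 1 → ℤ) d := ev_congr_chn hd fun σ hσ => by
    have j : JoinedIn S (vtx σ 0) (vtx σ 1) := ⟨Hur_sp σ, fun t => hσ ⟨_, rfl⟩⟩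
    rw [cobd_pt]
    simp only [a, (show JoinedIn S x (vtx σ 1) ↔ JoinedIn S x (vtx σ 0) from
      ⟨fun h => h.trans j.symm, fun h => h.trans j⟩), sub_self, Pi.zero_apply]
  rw [← ev_bd, e, Cup_ev0, map_sub, ev_single, ev_single] at e0
  by_contra hn
  have e1 : a x = 1 := if_pos (JoinedIn.refl hx)
  have e2 : a y = 0 := if_neg hn
  change (1 : ℤ) • a y - (1 : ℤ) • a x = 0 at e0
  rw [e1, e2] at e0
  simp at e0

theorem ext_two (h1 : HZ X 1) (φ : cyc ℤ (univ : Set X) 2 →ₗ[ℤ] ℤ)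
    (hφ : ∀ c, c.1 ∈ bdy ℤ univ 2 → φ c = 0) :
    ∃ a : Simp X 2 → ℤ, cobd a = 0 ∧ ∀ c, ev ℤ a c.1 = φ c := by
  obtain ⟨Q, K, hK⟩ := contr h1
  let π : Chn ℤ X 2 →ₗ[ℤ] cyc ℤ (univ : Set X) 2 :=
    (LinearMap.id - K ∘ₗ bd ℤ X 1).codRestrict _ fun c => mem_cyc_univ.2 (by
      change bd ℤ X 1 (c - K (bd ℤ X 1 c)) = 0
      rw [map_sub, hK, bd_bd, map_zero, sub_zero, sub_self])
  have hπ : ∀ c : cyc ℤ (univ : Set X) 2, π c.1 = c := fun c => Subtype.ext (by
    change c.1 - K (bd ℤ X 1 c.1) = c.1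
    rw [mem_cyc_univ.1 c.2, map_zero, sub_zero])
  refine ⟨fun σ => (φ ∘ₗ π) (Finsupp.single σ 1), funext fun τ => ?_, fun c => ?_⟩
  · rw [cobd_eq, ev_lin]
    exact (congrArg φ (hπ ⟨_, bdy_le _ _ (bd_mem_bdy _)⟩)).trans (hφ _ (bd_mem_bdy _))
  · rw [ev_lin]
    exact congrArg φ (hπ c)

theorem cob_one (h1 : HZ X 1) {a : Simp X 1 → ℤ} (ha : cobd a = 0) :
    ∃ b : Simp X 0 → ℤ, a = cobd b := by
  obtain ⟨Q, K, hK⟩ := contr h1
  refine ⟨fun ρ => (ev ℤ a ∘ₗ Q) (Finsupp.single ρ 1), funext fun τ => ?_⟩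
  have e := ev_bdy ha (bd_mem_bdy (K (Finsupp.single τ 1)))
  rw [hK, map_sub, ev_single, one_smul, sub_eq_zero] at e
  rw [cobd_eq, ev_lin]
  exact e

theorem int_of_rat {n : ℕ} (c : Chn ℚ X n) :
    ∃ (N : ℤ) (c' : Chn ℤ X n), N ≠ 0 ∧ Algz n c' = (N : ℚ) • c := by
  induction c using Finsupp.induction_linear with
  | zero => exact ⟨1, 0, one_ne_zero, by simp⟩
  | add x y hx hy =>
    obtain ⟨N, x', hN, ex⟩ := hx
    obtain ⟨L, y', hL, ey⟩ := hy
    refine ⟨N * L, L • x' + N • y', mul_ne_zero hN hL, ?_⟩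
    rw [map_add, map_smul, map_smul, ex, ey, ← Int.cast_smul_eq_zsmul ℚ,
      ← Int.cast_smul_eq_zsmul ℚ, smul_smul, smul_smul, smul_add, Int.cast_mul, mul_comm (L : ℚ)]
  | single σ r =>
    refine ⟨r.den, Finsupp.single σ r.num, by exact_mod_cast r.den_nz, ?_⟩
    rw [Algz_single, Finsupp.smul_single, smul_eq_mul, Int.cast_natCast, Rat.den_mul_eq_num]

theorem algz_inj {n : ℕ} : Function.Injective (Algz (X := X) n) := fun a b h =>
  Finsupp.ext fun σ => by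
    have := congrArg (fun c => c σ) h
    simp only [algz_apply] at this
    exact_mod_cast this

end HW
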