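import Pool.Agent.P.MP_9699e0_gt.W.BDefs
import Pool.Agent.P.MP_9699e0_gt.W.Gen
import Pool.Agent.P.MP_9699e0_gt.It3

/-! The hyperplane class: pull back, invariance under linear maps, adapted cocycles. -/

set_option autoImplicit false
set_option linter.unusedSectionVars false

noncomputable section

namespace HW

open HK3 Pool.Agent.P.MP_9699e0_gt Set Filter Topology

variable {X Y : Type} [TopologicalSpace X] [TopologicalSpace Y]

namespace RBnA

theorem cont_nl {n : ℕ} (g : C(X, CP n)) (j : Fin (n + 1)) :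
    ContinuousOn (fun x => nl j (g x)) (g ⁻¹' Uc j) :=
  (continuousOn_nl j).comp g.continuous.continuousOn fun _ hx => hx

theorem cont_nl' {n : ℕ} (g : C(X, CP n)) :
    ContinuousOn (fun a : Fin (n + 1) × X => nl a.1 (g a.2)) {a | a.2 ∈ g ⁻¹' Uc a.1} :=
  continuousOn_prod_of_discrete_left.2 fun j => cont_nl g j

theorem cont_ev {n : ℕ} : Continuous fun p : (Fin n → ℂ) × Fin n => p.1 p.2 :=
  continuous_prod_of_discrete_right.2 fun j => continuous_apply j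

end RBnA

theorem coc_pull' {L : Et Y} {L' : Et X} {J : L.Ω → L.Ω → ℂ} (h : L.Coc J) (g : X → Y)
    {π : L'.Ω → L.Ω} (hπ : ContinuousOn π L'.dom) (hm : MapsTo π L'.dom L.dom)
    (e : ∀ a ∈ L'.dom, L.f (π a) = g (L'.f a)) : L'.Coc fun a b => J (π a) (π b) := by
  have r : ∀ a b, L'.R a b → L.R (π a) (π b) := fun a b r =>
    ⟨hm r.1, hm r.2.1, by rw [e a r.1, e b r.2.1, r.2.2]⟩
  refine ⟨?_, fun a b k => h.ne _ _ (r a b k), fun a b c k k' => h.mul _ _ _ (r a b k) (r b c k')⟩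
  exact h.cont.comp (f := fun p : L'.Ω × L'.Ω => (π p.1, π p.2))
    ((hπ.comp continuous_fst.continuousOn fun p hp => hp.1).prodMk
      (hπ.comp continuous_snd.continuousOn fun p hp => hp.2.1)) fun p hp => r _ _ hp

theorem rep_pull {L : Et Y} {L' : Et X} {J : L.Ω → L.Ω → ℂ} {g : X → Y} (hg : Continuous g)
    {π : L'.Ω → L.Ω} (hπ : ContinuousOn π L'.dom) (hm : MapsTo π L'.dom L.dom)
    (e : ∀ a ∈ L'.dom, L.f (π a) = g (L'.f a)) {c : Simp Y 2 → ℤ} (hc : L.Rep J c) :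
    L'.Rep (fun a b => J (π a) (π b)) (pull g c) := by
  obtain ⟨z, w, p, k⟩ := hc
  have r : ∀ a b, L'.R a b → L.R (π a) (π b) := fun a b r =>
    ⟨hm r.1, hm r.2.1, by rw [e a r.1, e b r.2.1, r.2.2]⟩
  have hr : ∀ {n : ℕ} (σ : Simp L'.Ω n), range σ ⊆ L'.dom → range (smap π σ) ⊆ L.dom := by
    rintro n σ hσ _ ⟨t, rfl⟩
    rw [smap_apply hπ hσ]
    exact hm (hσ ⟨t, rfl⟩)
  refine ⟨coc_pull hg z, fun γ => w (smap π γ), fun a => p (π a), fun a ha => k.ne _ (hm ha),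
    fun a b h => k.eqv _ _ (r a b h), fun γ hγ => ?_, fun γ γ' h => ?_, fun σ hσ => ?_⟩
  · have e1 := k.arg _ (hr γ hγ)
    have e2 : ∀ i, vtx (smap π γ) i = π (vtx γ i) := fun i => smap_apply hπ hγ _
    rwa [e2, e2] at e1
  · have hγ : range γ ⊆ L'.dom := by
      rintro _ ⟨t, rfl⟩
      exact (h t).1
    have hγ' : range γ' ⊆ L'.dom := by
      rintro _ ⟨t, rfl⟩
      exact (h t).2.1
    have e1 := k.chg (smap π γ) (smap π γ') fun t => by
      rw [smap_apply hπ hγ, smap_apply hπ hγ']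
      exact r _ _ (h t)
    simpa only [smap_apply hπ hγ, smap_apply hπ hγ'] using e1
  · have e1 : smap g (smap L'.f σ) = smap L.f (smap π σ) := by
      ext t
      rw [smap_apply L.loc.continuousOn (hr σ hσ), smap_apply hπ hσ, e _ (hσ ⟨t, rfl⟩),
        smap_apply hg.continuousOn (subset_univ _), smap_apply L'.loc.continuousOn hσ]
    rw [cobd_smap w hπ hσ, ← k.val _ (hr σ hσ), ← e1]
    rfl

theorem coc_JP {n : ℕ} (g : C(X, CP n)) : (etP g).Coc (JP g) := by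
  refine ⟨?_, ?_, ?_⟩
  · exact RBnA.cont_ev.comp_continuousOn
      (f := fun p : (Fin (n + 1) × X) × Fin (n + 1) × X => (nl p.1.1 (g p.1.2), p.2.1))
      (((RBnA.cont_nl' g).comp continuousOn_fst fun p hp => hp.1).prodMk
        (continuous_fst.comp continuous_snd).continuousOn)
  · rintro ⟨i, x⟩ ⟨j, y⟩ ⟨h1, h2, h3⟩
    obtain rfl : x = y := h3
    exact (nl_ne_iff h1).2 h2
  · rintro ⟨i, x⟩ ⟨j, y⟩ ⟨k, z⟩ ⟨-, h2, h3⟩ -
    obtain rfl : x = y := h3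
    exact (congrFun (nl_nl (i := i) h2) k).symm

theorem sec_sP {n : ℕ} (g : C(X, CP n)) (ν : (Fin (n + 1) → ℂ) →ₗ[ℂ] ℂ) :
    (etP g).Sec (JP g) univ (sP g ν) := by
  refine ⟨ν.continuous_of_finiteDimensional.comp_continuousOn
    ((RBnA.cont_nl' g).mono inter_subset_left), ?_⟩
  rintro ⟨i, x⟩ ⟨j, y⟩ ⟨-, h2, h3⟩ -
  obtain rfl : x = y := h3
  exact (congrArg ν (nl_nl (i := i) h2)).trans (ν.map_smul _ _)

theorem RBnA.rep_id (n : ℕ) : (etP (ContinuousMap.id (CP n))).Rep (JP id) (xx n) := by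
  have h : ∃ c, (etP (ContinuousMap.id (CP n))).Rep (JP id) c :=
    Et.exists_rep _ (coc_JP (ContinuousMap.id (CP n)))
  rw [xx, dif_pos h]
  exact h.choose_spec

theorem rep_xx {n : ℕ} (g : C(X, CP n)) : (etP g).Rep (JP g) (pull g (xx n)) :=
  rep_pull (L := etP (ContinuousMap.id (CP n))) (L' := etP g) g.continuous
    (π := fun a : Fin (n + 1) × X => (a.1, g a.2))
    (continuous_fst.prodMk (g.continuous.comp continuous_snd)).continuousOn (fun _ h => h)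
    (fun _ _ => rfl) (RBnA.rep_id n)

theorem coc_xx (n : ℕ) : cobd (xx n) = 0 := (RBnA.rep_id n).1

theorem coh_lin {n m : ℕ} (g : C(X, CP n)) (g' : C(X, CP m))
    (T : (Fin (m + 1) → ℂ) →ₗ[ℂ] (Fin (n + 1) → ℂ))
    (h : ∀ x, T (rp (g' x)) ≠ 0 ∧ g x = pm n (T (rp (g' x)))) :
    Coh (pull g (xx n)) (pull g' (xx m)) := by
  let L : Et X := etC (fun a : Fin (n + 1) × Fin (m + 1) => g ⁻¹' Uc a.1 ∩ g' ⁻¹' Uc a.2)
    (fun a => ((isOpen_Uc a.1).preimage g.continuous).inter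
      ((isOpen_Uc a.2).preimage g'.continuous))
    fun x => (exists_Uc (g x)).elim fun i hi => (exists_Uc (g' x)).elim fun j hj =>
      ⟨(i, j), hi, hj⟩
  have c1 : ContinuousOn (fun a : (Fin (n + 1) × Fin (m + 1)) × X => (a.1.1, a.2)) L.dom :=
    ((continuous_fst.comp continuous_fst).prodMk continuous_snd).continuousOn
  have c2 : ContinuousOn (fun a : (Fin (n + 1) × Fin (m + 1)) × X => (a.1.2, a.2)) L.dom :=
    ((continuous_snd.comp continuous_fst).prodMk continuous_snd).continuousOn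
  have r1 := rep_pull (L := etP g) (L' := L) continuous_id c1 (fun _ h => h.1) (fun _ _ => rfl)
    (rep_xx g)
  have r2 := rep_pull (L := etP g') (L' := L) continuous_id c2 (fun _ h => h.2) (fun _ _ => rfl)
    (rep_xx g')
  rw [pull_id] at r1 r2
  have key : ∀ x j, T (nl j (g' x)) = (rp (g' x) j)⁻¹ • T (rp (g' x)) := fun x j => T.map_smul _ _
  have hne : ∀ x i, g x ∈ Uc i → T (rp (g' x)) i ≠ 0 := fun x i hi =>
    (pm_mem_Uc (h x).1).1 ((h x).2 ▸ hi)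
  refine Et.Rep.coh (L := L)
    (coc_pull' (L' := L) (coc_JP g) id c1 (fun _ h => h.1) fun _ _ => rfl)
    (coc_pull' (L' := L) (coc_JP g') id c2 (fun _ h => h.2) fun _ _ => rfl)
    (u := fun a : (Fin (n + 1) × Fin (m + 1)) × X => T (nl a.1.2 (g' a.2)) a.1.1) ⟨?_, ?_⟩ ?_ r1 r2
  · refine continuousOn_prod_of_discrete_left.2 fun a => ?_
    exact ((continuous_apply a.1).comp T.continuous_of_finiteDimensional).comp_continuousOn
      ((RBnA.cont_nl g' a.2).mono fun _ h => h.2)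
  · rintro ⟨⟨i, j⟩, x⟩ ⟨h1, h2⟩
    show T (nl j (g' x)) i ≠ 0
    rw [key]
    exact mul_ne_zero (inv_ne_zero h2) (hne x i h1)
  · rintro ⟨⟨i, j⟩, x⟩ ⟨⟨i', j'⟩, y⟩ ⟨h1, h2, h3⟩
    obtain rfl : x = y := h3
    show nl j (g' x) j' * T (nl j' (g' x)) i' = T (nl j (g' x)) i * nl i (g x) i'
    have e1 : nl j (g' x) j' * T (nl j' (g' x)) i' = T (nl j (g' x)) i' := by
      conv_rhs => rw [nl_nl (i := j) h2.2, T.map_smul]
      rfl
    have e2 := hne x i h1.1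
    rw [e1, key, (h x).2, nl_pm (h x).1]
    simp only [Pi.smul_apply, smul_eq_mul]
    rw [mul_assoc, mul_inv_cancel_left₀ e2]

theorem xx_van {n : ℕ} (g : C(X, CP n)) (j : Fin (n + 1)) : ∃ c : Simp X 2 → ℤ, cobd c = 0 ∧
    Coh (pull g (xx n)) c ∧ (∀ σ : Simp X 2, range σ ⊆ g ⁻¹' Uc j → c σ = 0) ∧
    ∀ i, ∃ w : Simp X 1 → ℝ, (∀ σ : Simp X 2, range σ ⊆ g ⁻¹' Uc i → (c σ : ℝ) = cobd w σ) ∧
      ∀ γ : Simp X 1, range γ ⊆ g ⁻¹' (Uc i ∩ Uc j) → w γ = wd (fun x => nl i (g x) j) γ := by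
  obtain ⟨c, h1, h2, h3⟩ := It3_ad (coc_JP g) (sec_sP g (LinearMap.proj j)) (rep_xx g)
  have key : ∀ i, ∃ w : Simp X 1 → ℝ,
      (∀ σ : Simp X 2, range σ ⊆ g ⁻¹' Uc i → (c σ : ℝ) = cobd w σ) ∧
      ∀ γ : Simp X 1, range γ ⊆ g ⁻¹' (Uc i ∩ Uc j) → w γ = wd (fun x => nl i (g x) j) γ := by
    intro i
    obtain ⟨w, h4, h5⟩ := It3_side (L := etP g) h3 (B := g ⁻¹' Uc i) (m := fun x => (i, x))
      (Continuous.prodMk_right i).continuousOn (fun _ h => h) fun _ _ => rfl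
    exact ⟨w, h4, fun γ hγ => h5 γ fun x hx => ⟨(hγ hx).1, (nl_ne_iff (hγ hx).1).2 (hγ hx).2⟩⟩
  refine ⟨c, h1, h2, fun σ hσ => ?_, key⟩
  obtain ⟨w, h4, h5⟩ := key j
  have h6 := h4 σ hσ
  rw [cobd_congr (fun γ hγ => h5 γ fun x hx => ⟨hγ hx, hγ hx⟩) hσ,
    cobd_wd (g := fun x => nl j (g x) j) ⟨(continuous_apply j).comp_continuousOn
      (RBnA.cont_nl g j), fun x hx => (nl_ne_iff hx).2 hx⟩ hσ] at h6
  exact_mod_cast h6

end HW
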