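import Pool.Agent.P.MP_9699e0_gt.W.Gen

/-! The cap product: boundary formula, supports, naturality; symmetry of the cup product form. -/

set_option autoImplicit false
set_option linter.unusedSectionVars false

noncomputable section

namespace HW

open HK3 Pool.Agent.P.MP_9699e0_gt Set Filter Topology

variable {X Y : Type} [TopologicalSpace X] [TopologicalSpace Y]

namespace RCap

theorem cap_single {k j n : ℕ} (h : k + j = n) (a : Simp X k → ℤ) (σ : Simp X n) (r : ℤ) :
    cap k j n a (Finsupp.single σ r) =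
      r • Finsupp.single (sub σ (bk k j n)) (a (sub σ (fr k n))) := by
  rw [cap, if_pos h, Finsupp.linearCombination_single]

/-- The map of naturals that skips `i`. -/
def sk (i t : ℕ) : ℕ := if t < i then t else t + 1

/-- A vertex map given by a map of naturals. -/
def vm (m n : ℕ) (f : ℕ → ℕ) (t : Fin (m + 1)) : Fin (n + 1) :=
  ⟨min (f t) n, Nat.lt_succ_of_le (min_le_right _ _)⟩

theorem val_succAbove {n : ℕ} (i : Fin (n + 1)) (t : Fin n) :
    (i.succAbove t : ℕ) = sk i t := by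
  rw [Fin.succAbove, sk]
  by_cases h : (t : ℕ) < i
  · rw [if_pos (by simpa [Fin.lt_def] using h), if_pos h]
    rfl
  · rw [if_neg (by simpa [Fin.lt_def] using h), if_neg h]
    rfl

theorem vm_congr {m n : ℕ} {f g : ℕ → ℕ} (h : ∀ t, t ≤ m → f t = g t) : vm m n f = vm m n g := by
  funext t
  refine Fin.ext ?_
  simp only [vm]
  rw [h t (Nat.le_of_lt_succ t.2)]

theorem bd_cap_single (k j : ℕ) (a : Simp X k → ℤ) (σ : Simp X (k + j + 1)) :
    bd ℤ X j (cap k (j + 1) (k + j + 1) a (Finsupp.single σ 1)) =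
      (-1 : ℤ) ^ k • (cap k j (k + j) a (bd ℤ X (k + j) (Finsupp.single σ 1)) -
        cap (k + 1) j (k + j + 1) (cobd a) (Finsupp.single σ 1)) := by
  set T : (ℕ → ℕ) → (ℕ → ℕ) → Chn ℤ X j := fun v w =>
    Finsupp.single (sub σ (vm j (k + j + 1) v)) (a (sub σ (vm k (k + j + 1) w))) with hT
  have h1 : bd ℤ X j (cap k (j + 1) (k + j + 1) a (Finsupp.single σ 1)) =
      ∑ l ∈ Finset.range (j + 2), (-1 : ℤ) ^ l • T (fun t => k + sk l t) id := by
    rw [cap_single (by omega), one_smul, bd_single,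
      ← Fin.sum_univ_eq_sum_range (fun l => (-1 : ℤ) ^ l • T (fun t => k + sk l t) id)]
    refine Finset.sum_congr rfl fun l _ => ?_
    have e : bk k (j + 1) (k + j + 1) ∘ l.succAbove =
        vm j (k + j + 1) (fun t => k + sk l t) := by
      funext t
      refine Fin.ext ?_
      simp only [Function.comp, bk, vm, val_succAbove]
    rw [HK3.sub_sub, e]
    rfl
  have h2 : cap k j (k + j) a (bd ℤ X (k + j) (Finsupp.single σ 1)) =
      ∑ i ∈ Finset.range (k + j + 2), (-1 : ℤ) ^ i • T (fun t => sk i (k + t)) (sk i) := by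
    rw [bd_single, map_sum,
      ← Fin.sum_univ_eq_sum_range (fun i => (-1 : ℤ) ^ i • T (fun t => sk i (k + t)) (sk i))]
    refine Finset.sum_congr rfl fun i _ => ?_
    have e1 : i.succAbove ∘ bk k j (k + j) = vm j (k + j + 1) (fun t => sk i (k + t)) := by
      funext t
      refine Fin.ext ?_
      have := t.2
      simp only [Function.comp, bk, vm, val_succAbove, sk]
      split_ifs <;> omega
    have e2 : i.succAbove ∘ fr k (k + j) = vm k (k + j + 1) (sk i) := by
      funext t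
      refine Fin.ext ?_
      have := t.2
      simp only [Function.comp, fr, vm, val_succAbove, sk]
      split_ifs <;> omega
    rw [map_smul, cap_single rfl, one_smul, HK3.sub_sub, HK3.sub_sub, e1, e2]
  have h3 : cap (k + 1) j (k + j + 1) (cobd a) (Finsupp.single σ 1) =
      ∑ i ∈ Finset.range (k + 2), (-1 : ℤ) ^ i • T (fun t => k + 1 + t) (sk i) := by
    rw [cap_single (by omega), one_smul, cobd, Finsupp.single_finsetSum,
      ← Fin.sum_univ_eq_sum_range (fun i => (-1 : ℤ) ^ i • T (fun t => k + 1 + t) (sk i))]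
    refine Finset.sum_congr rfl fun i _ => ?_
    have e : fr (k + 1) (k + j + 1) ∘ i.succAbove = vm k (k + j + 1) (sk i) := by
      funext t
      refine Fin.ext ?_
      simp only [Function.comp, fr, vm, val_succAbove]
    rw [HK3.sub_sub, e, hT, Finsupp.smul_single]
    rfl
  have hc : ∀ v v' w w' : ℕ → ℕ, (∀ t, t ≤ j → v t = v' t) → (∀ t, t ≤ k → w t = w' t) →
      T v w = T v' w' := by
    intro v v' w w' hv hw
    simp only [hT]
    rw [vm_congr hv, vm_congr hw]
  have h4 : ∑ i ∈ Finset.range (k + 1), (-1 : ℤ) ^ i • T (fun t => sk i (k + t)) (sk i) =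
      ∑ i ∈ Finset.range (k + 1), (-1 : ℤ) ^ i • T (fun t => k + 1 + t) (sk i) := by
    refine Finset.sum_congr rfl fun i hi => ?_
    have := Finset.mem_range.1 hi
    rw [hc _ (fun t => k + 1 + t) _ (sk i) (fun t _ => ?_) fun _ _ => rfl]
    simp only [sk]
    split_ifs <;> omega
  have h5 : T (fun t => k + 1 + t) (sk (k + 1)) = T (fun t => k + sk 0 t) id := by
    refine hc _ _ _ _ (fun t _ => ?_) fun t ht => ?_
    · simp only [sk]
      split_ifs <;> omega
    · simp only [sk, id]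
      split_ifs <;> omega
  have hk : ((-1 : ℤ) ^ k) * (-1) ^ k = 1 := by
    rw [← mul_pow]
    simp
  rw [h1, h2, h3, show k + j + 2 = k + 1 + (j + 1) by omega, Finset.sum_range_add _ (k + 1), h4,
    Finset.sum_range_succ _ (k + 1), add_sub_add_left_eq_sub, Finset.sum_range_succ', h5, smul_sub,
    Finset.smul_sum, smul_smul, pow_succ, ← mul_assoc, hk, one_mul, neg_smul, one_smul, pow_zero,
    one_smul, sub_neg_eq_add]
  congr 1
  refine Finset.sum_congr rfl fun l _ => ?_
  rw [smul_smul, show k + 1 + l = k + (l + 1) by omega, pow_add _ k, ← mul_assoc, hk, one_mul]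
  congr 1
  refine hc _ _ _ _ (fun t _ => ?_) fun t ht => ?_
  · simp only [sk]
    split_ifs <;> omega
  · simp only [sk, id]
    split_ifs <;> omega

theorem hom_ext {M : Type} [AddCommGroup M] {n : ℕ} (A B : Chn ℤ X n →ₗ[ℤ] M)
    (h : ∀ σ : Simp X n, A (Finsupp.single σ 1) = B (Finsupp.single σ 1)) (c : Chn ℤ X n) :
    A c = B c :=
  ChB_ext (S := univ) A B (fun σ _ => h σ) (mem_chn_iff.2 fun _ _ => subset_univ _)

/-- The cup-one product of two 2-cochains. -/
def cupOne (a b : Simp X 2 → ℤ) (σ : Simp X 3) : ℤ :=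
  a (sub σ ![0, 2, 3]) * b (sub σ ![0, 1, 2]) - a (sub σ ![0, 1, 3]) * b (sub σ ![1, 2, 3])

theorem coc_face {a : Simp X 2 → ℤ} (ha : cobd a = 0) (σ : Simp X 4) (i j l m : Fin 5) :
    a (sub σ ![j, l, m]) = a (sub σ ![i, l, m]) - a (sub σ ![i, j, m]) + a (sub σ ![i, j, l]) := by
  have h := congrFun ha (sub σ ![i, j, l, m])
  simp only [Cup_d2, Cup_c3, Matrix.cons_val, Pi.zero_apply] at h
  linarith

theorem cobd_cupOne {a b : Simp X 2 → ℤ} (ha : cobd a = 0) (hb : cobd b = 0) :
    cup b a = cup a b + cobd (cupOne a b) := by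
  funext σ
  simp only [Pi.add_apply, Cup_d3, cupOne, cup, Cup_c3, Matrix.cons_val]
  rw [coc_face ha σ 0 1 3 4, coc_face ha σ 0 1 2 4, coc_face ha σ 0 2 3 4,
    coc_face hb σ 0 1 2 3, coc_face hb σ 0 2 3 4, coc_face hb σ 0 1 3 4, coc_face hb σ 0 1 2 4]
  ring

end RCap

open RCap

theorem cap_of_ne {k j n : ℕ} (h : k + j ≠ n) (a : Simp X k → ℤ) : cap k j n a = 0 :=
  if_neg h

theorem bd_cap (k j n : ℕ) (a : Simp X k → ℤ) (c : Chn ℤ X (n + 1)) :
    bd ℤ X j (cap k (j + 1) (n + 1) a c) =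
      (-1 : ℤ) ^ k • (cap k j n a (bd ℤ X n c) - cap (k + 1) j (n + 1) (cobd a) c) := by
  by_cases h : k + j = n
  · subst h
    exact hom_ext ((bd ℤ X j).comp (cap k (j + 1) (k + j + 1) a))
      ((-1 : ℤ) ^ k • ((cap k j (k + j) a).comp (bd ℤ X (k + j)) -
        cap (k + 1) j (k + j + 1) (cobd a))) (bd_cap_single k j a) c
  · rw [cap_of_ne h, cap_of_ne (by omega), cap_of_ne (by omega)]
    simp

theorem cap_add (k j n : ℕ) (a b : Simp X k → ℤ) :
    cap k j n (a + b) = cap k j n a + cap k j n b := by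
  by_cases h : k + j = n
  · refine LinearMap.ext (hom_ext _ _ fun σ => ?_)
    rw [LinearMap.add_apply, cap_single h, cap_single h, cap_single h, Pi.add_apply,
      Finsupp.single_add, smul_add]
  · rw [cap_of_ne h, cap_of_ne h, cap_of_ne h, add_zero]

theorem cap_smul (k j n : ℕ) (m : ℤ) (a : Simp X k → ℤ) : cap k j n (m • a) = m • cap k j n a := by
  by_cases h : k + j = n
  · refine LinearMap.ext (hom_ext _ _ fun σ => ?_)
    rw [LinearMap.smul_apply, cap_single h, cap_single h, Pi.smul_apply, one_smul, one_smul,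
      Finsupp.smul_single]
  · rw [cap_of_ne h, cap_of_ne h, smul_zero]

theorem cap_zero (k j n : ℕ) : cap k j n (0 : Simp X k → ℤ) = 0 := by
  have := cap_smul k j n 0 (0 : Simp X k → ℤ)
  rwa [zero_smul, zero_smul] at this

theorem cap_sub (k j n : ℕ) (a b : Simp X k → ℤ) :
    cap k j n (a - b) = cap k j n a - cap k j n b := by
  rw [eq_sub_iff_add_eq, ← cap_add, sub_add_cancel]

theorem cap_sum {ι : Type} (T : Finset ι) (k j n : ℕ) (m : ι → ℤ) (a : ι → Simp X k → ℤ) :
    cap k j n (∑ i ∈ T, m i • a i) = ∑ i ∈ T, m i • cap k j n (a i) := by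
  classical
  induction T using Finset.induction_on with
  | empty => rw [Finset.sum_empty, Finset.sum_empty, cap_zero]
  | insert i T hi ih => rw [Finset.sum_insert hi, Finset.sum_insert hi, cap_add, cap_smul, ih]

theorem cap_mem {k j n : ℕ} {K U : Set X} {a : Simp X k → ℤ} (ha : Van K a) {c : Chn ℤ X n}
    (hc : Ad K U c) : cap k j n a c ∈ chn ℤ U j := by
  by_cases h : k + j = n
  · obtain ⟨u, hu, v, hv, rfl⟩ := Submodule.mem_sup.1 hc
    rw [map_add]
    refine add_mem (ChB_mem _ (fun σ hσ => ?_) hu) (ChB_mem _ (fun σ hσ => ?_) hv)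
    · rw [cap_single h, one_smul]
      exact single_mem ((range_sub σ _).trans hσ) _
    · rw [cap_single h, ha _ ((range_sub σ _).trans hσ), Finsupp.single_zero, smul_zero]
      exact zero_mem _
  · rw [cap_of_ne h]
    exact zero_mem _

theorem aug_cap (n : ℕ) (a : Simp X n → ℤ) (c : Chn ℤ X n) :
    aug ℤ (cap n 0 n a c) = ev ℤ a c := by
  refine hom_ext ((aug ℤ).comp (cap n 0 n a)) _ (fun σ => ?_) c
  have e : fr n n = id := by
    funext t
    refine Fin.ext ?_
    have := t.2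
    simp only [fr, id]
    omega
  rw [LinearMap.comp_apply, cap_single (Nat.add_zero n), one_smul, aug, ev_single, ev_single, e, sub_id,
    smul_eq_mul, mul_one, one_smul]

theorem ev_cap (a b : Simp X 2 → ℤ) (c : Chn ℤ X 4) :
    ev ℤ b (cap 2 2 4 a c) = ev ℤ (cup a b) c := by
  refine hom_ext ((ev ℤ b).comp (cap 2 2 4 a)) _ (fun σ => ?_) c
  have e1 : fr 2 4 = ![0, 1, 2] := by decide
  have e2 : bk 2 2 4 = ![2, 3, 4] := by decide
  rw [LinearMap.comp_apply, cap_single rfl, one_smul, ev_single, ev_single, e1, e2, one_smul, cup,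
    smul_eq_mul]

theorem cmap_cap {f : X → Y} (hf : Continuous f) (k j n : ℕ) (a : Simp Y k → ℤ) (c : Chn ℤ X n) :
    cmap ℤ f j (cap k j n (pull f a) c) = cap k j n a (cmap ℤ f n c) := by
  by_cases h : k + j = n
  · refine hom_ext ((cmap ℤ f j).comp (cap k j n (pull f a))) ((cap k j n a).comp (cmap ℤ f n))
      (fun σ => ?_) c
    rw [LinearMap.comp_apply, LinearMap.comp_apply, cap_single h, one_smul, cmap_single,
      cmap_single, cap_single h, one_smul, pull,
      smap_sub hf.continuousOn (subset_univ _), smap_sub hf.continuousOn (subset_univ _)]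
  · rw [cap_of_ne h, cap_of_ne h]
    simp

theorem cap_cyc {a : Simp X 2 → ℤ} (ha : cobd a = 0) {z : Chn ℤ X 4} (hz : bd ℤ X 3 z = 0) :
    cap 2 2 4 a z ∈ cyc ℤ (univ : Set X) 2 := by
  refine mem_cyc_univ.2 ?_
  rw [bd_cap 2 1 3, hz, ha, cap_zero]
  simp

theorem cap_bdy {a : Simp X 2 → ℤ} (ha : cobd a = 0) {z : Chn ℤ X 4} (hz : z ∈ bdy ℤ univ 4) :
    cap 2 2 4 a z ∈ bdy ℤ (univ : Set X) 2 := by
  obtain ⟨w, -, rfl⟩ := hz
  have h := bd_cap 2 2 4 a w
  rw [ha, cap_zero, LinearMap.zero_apply, sub_zero, show (-1 : ℤ) ^ 2 = 1 by decide, one_smul] at h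
  rw [← h]
  exact bd_mem_bdy _

theorem cap_coh {a b : Simp X 2 → ℤ} (h : Coh a b) {z : Chn ℤ X 4} (hz : bd ℤ X 3 z = 0) :
    cap 2 2 4 a z - cap 2 2 4 b z ∈ bdy ℤ (univ : Set X) 2 := by
  obtain ⟨u, rfl⟩ := h
  have h := bd_cap 1 2 3 u z
  rw [hz, map_zero, zero_sub, pow_one, neg_smul, one_smul, neg_neg] at h
  rw [cap_add, LinearMap.add_apply, add_sub_cancel_left, ← h]
  exact bd_mem_bdy _

theorem tb_tc (k n : ℕ) (a : Simp X k → ℤ) (c : Chn ℤ X (n + 1)) :
    tb (tc k (n + 1) a c) =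
      (-1 : ℤ) ^ k • (tc k n a (bd ℤ X n c) - tc (k + 1) (n + 1) (cobd a) c) :=
  funext fun j => bd_cap k j n a c

theorem cup_symm {a b : Simp X 2 → ℤ} (ha : cobd a = 0) (hb : cobd b = 0) {z : Chn ℤ X 4}
    (hz : bd ℤ X 3 z = 0) : ev ℤ (cup a b) z = ev ℤ (cup b a) z := by
  rw [cobd_cupOne ha hb, ev_add, ← ev_bd, hz, map_zero, add_zero]

end HW
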