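import Pool.Agent.P.MP_9699e0_gt.W.QDefs

/-! Two finite computations: 21 generators, and twenty combinations of lines. -/

set_option autoImplicit false
set_option linter.unusedSectionVars false

noncomputable section

namespace HW

open HK3 Pool.Agent.P.MP_9699e0_gt Set Filter Topology

namespace RCert

/-- The generators. -/
def S21 : List G3 :=
  [(1, 1, 2), (0, 3, 0), (3, 1, 0), (0, 0, 3), (1, 0, 3), (0, 1, 1), (3, 3, 0), (3, 2, 2),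
   (0, 0, 2), (2, 0, 1), (0, 2, 2), (0, 2, 0), (1, 3, 1), (1, 2, 2), (1, 2, 1), (0, 2, 1),
   (2, 3, 0), (1, 0, 2), (3, 3, 2), (2, 3, 3), (2, 2, 0)]

/-- The directions. -/
def dirs : List G3 := [(1, 0, 0), (0, 1, 0), (0, 0, 1), (1, 1, 1)]

/-- The order in which the remaining elements are reached. -/
def ord : List (G3 × G3) :=
  [((0, 2, 3), (0, 0, 1)), ((1, 3, 0), (1, 0, 0)), ((1, 3, 2), (0, 1, 0)),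
   ((1, 3, 3), (0, 0, 1)), ((2, 0, 3), (1, 1, 1)), ((2, 2, 2), (1, 0, 0)),
   ((3, 0, 0), (1, 1, 1)), ((3, 0, 3), (1, 0, 0)), ((3, 1, 2), (1, 1, 1)),
   ((3, 2, 0), (0, 1, 0)), ((1, 2, 0), (1, 0, 0)), ((1, 2, 3), (0, 0, 1)),
   ((3, 0, 2), (0, 1, 0)), ((1, 1, 3), (0, 1, 0)), ((2, 0, 2), (1, 0, 0)),
   ((3, 0, 1), (0, 0, 1)), ((3, 1, 3), (1, 1, 1)), ((3, 3, 1), (1, 1, 1)),
   ((3, 3, 3), (0, 0, 1)), ((0, 1, 2), (1, 1, 1)), ((0, 3, 2), (0, 1, 0)),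
   ((0, 3, 3), (1, 0, 0)), ((2, 0, 0), (0, 0, 1)), ((2, 1, 0), (0, 1, 0)),
   ((2, 1, 2), (1, 0, 0)), ((2, 3, 2), (1, 0, 0)), ((3, 1, 1), (0, 0, 1)),
   ((3, 2, 1), (0, 1, 0)), ((3, 2, 3), (0, 1, 0)), ((0, 1, 0), (1, 1, 1)),
   ((0, 1, 3), (0, 1, 0)), ((0, 3, 1), (0, 0, 1)), ((1, 0, 1), (1, 1, 1)),
   ((1, 1, 0), (1, 0, 0)), ((1, 1, 1), (0, 1, 0)), ((2, 1, 1), (1, 0, 0)),
   ((2, 1, 3), (1, 0, 0)), ((2, 2, 1), (1, 0, 0)), ((2, 2, 3), (1, 0, 0)),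
   ((2, 3, 1), (1, 0, 0)), ((0, 0, 0), (0, 1, 0)), ((0, 0, 1), (1, 0, 0)),
   ((1, 0, 0), (1, 0, 0))]

/-- The elements reached from `K`. -/
def run : List (G3 × G3) → List G3 → List G3
  | [], K => K
  | (h, d) :: L, K =>
    run L (if d ∈ dirs ∧ h + d ∈ K ∧ h + (d + d) ∈ K ∧ h + (d + d + d) ∈ K then h :: K else K)

theorem run_ok {P : G3 → Prop}
    (hP : ∀ d ∈ dirs, ∀ h, P (h + d) → P (h + (d + d)) → P (h + (d + d + d)) → P h) :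
    ∀ (L : List (G3 × G3)) (K : List G3), (∀ x ∈ K, P x) → ∀ x ∈ run L K, P x
  | [], _, hK => hK
  | (h, d) :: L, K, hK => by
    refine run_ok hP L _ ?_
    split_ifs with c
    · intro x hx
      rcases List.mem_cons.1 hx with rfl | hx
      · exact hP d c.1 _ (hK _ c.2.1) (hK _ c.2.2.1) (hK _ c.2.2.2)
      · exact hK x hx
    · exact hK

theorem run_all : ∀ x, x ∈ run ord S21 := by
  decide +kernel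

/-- The lines. -/
def SL : List Ln :=
  [(0, 0, 3), (0, 1, 2), (0, 2, 2), (0, 3, 0), (0, 3, 1), (0, 3, 2), (1, 0, 2), (1, 0, 3),
   (1, 1, 2), (1, 1, 3), (1, 2, 0), (1, 3, 1), (1, 3, 2), (2, 0, 0), (2, 0, 1), (2, 0, 2),
   (2, 1, 0), (2, 1, 2), (2, 2, 0), (2, 3, 2)]

/-- The coefficients. -/
def VL : List (List ℤ) :=
  [[-15, -9, 21, -2, 21, 19, -1, -22, -34, -30, 26, 1, 2, -10, -9, 19, 27, -3, 23, 30],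
   [-16, -10, 22, -3, 22, 20, 0, -22, -35, -31, 27, 0, 2, -12, -10, 20, 28, -2, 24, 32],
   [-1, -1, 1, 0, 2, 1, 0, -2, -3, -2, 2, 1, 0, 0, 0, 1, 2, -1, 2, 1],
   [-1, 0, 2, 0, 1, 1, -1, -2, -3, -2, 2, 0, -1, 1, 0, 1, 2, -1, 2, 1],
   [0, 0, 0, 0, 0, 0, 0, 0, 0, 0, 0, 0, 0, 0, 0, 0, 0, 0, 0, 1],
   [-1, 0, 1, 0, 1, 1, 0, -1, -1, -1, 1, 0, 0, -1, -1, 1, 1, 0, 1, 1],
   [0, -1, 0, -1, 0, 0, 1, 1, 0, -1, 0, -1, 1, -2, 0, 1, 0, 2, -1, 2],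
   [1, 0, -1, 1, 0, 0, 0, 0, 0, 1, 0, 1, 0, 2, 0, -1, 0, -2, 1, -2],
   [-2, 0, 3, 0, 2, 2, -1, -3, -3, -3, 2, 0, 0, -1, -1, 1, 3, 0, 2, 3],
   [-1, -1, 1, -1, 1, 1, 0, -1, -2, -2, 2, 0, 0, -1, 0, 2, 1, 0, 1, 2],
   [0, -1, 1, -1, 0, 0, 0, 0, -1, -1, 0, 0, 1, -1, 0, 1, 1, 1, 0, 2],
   [-1, -1, 1, 0, 2, 1, 0, -1, -2, -1, 2, 0, 0, -1, -1, 1, 1, 0, 1, 2],
   [-1, 0, 1, 0, 1, 1, 0, -2, -2, -2, 2, 0, 0, 0, 0, 1, 1, -1, 2, 1],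
   [0, 0, 0, 0, 0, 0, 0, 0, 0, 0, 0, 0, 0, 0, 0, 0, 1, 0, 0, 0],
   [-1, 0, 2, 0, 1, 2, 0, -1, -2, -2, 1, 0, 0, -1, -1, 1, 1, 0, 1, 2],
   [-1, -1, 0, 0, 1, 0, 0, -1, -1, -1, 1, 0, 0, 0, 0, 1, 1, 0, 1, 1],
   [1, 0, 0, 0, 0, 0, 0, 0, 0, 0, 0, 0, 0, 0, 0, 0, 0, 0, 0, 0],
   [-1, 0, 1, 0, 1, 1, 0, 0, -1, -1, 1, 0, 0, -1, -1, 0, 1, 0, 1, 1],
   [-9, -4, 13, 0, 13, 13, -3, -15, -23, -18, 16, 1, 0, -3, -4, 11, 17, -5, 16, 16],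
   [-34, -22, 46, -6, 46, 42, -1, -48, -76, -67, 59, 1, 4, -24, -20, 44, 60, -4, 52, 68]]

/-- The coefficients times the intersection matrix. -/
def PL : List (List ℤ) :=
  [[0, 14, 25, 0, 28, 15, 11, 14, 25, 15, 11, 11, 14, 25, 29, 14, 0, 26, 15, 0],
   [0, 15, 26, 1, 29, 15, 11, 15, 26, 15, 12, 12, 15, 26, 30, 15, 0, 27, 15, 0],
   [0, 1, 1, 0, 1, 1, 0, 1, 2, 1, 1, 0, 1, 2, 1, 1, 0, 1, 1, 1],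
   [0, 1, 0, 0, 1, 1, 0, 0, 1, 1, 0, 1, 1, 0, 1, 1, 0, 1, 1, 0],
   [0, 0, 1, 0, 1, 0, 0, 0, 0, 0, 0, 0, 1, 0, 0, 1, 0, 1, 0, -2],
   [0, 0, 1, 0, 1, 1, 1, 1, 1, 0, 1, 0, 0, 2, 2, -1, 0, 1, 0, 1],
   [0, 0, 1, 0, 0, 0, 0, 0, 1, 1, 0, 1, 0, 0, 0, 1, 0, 0, 1, 0],
   [0, 1, 0, 0, 1, 0, 0, 0, 0, 0, 0, 0, 0, 0, 1, 0, 0, 1, 0, 0],
   [0, 1, 2, 0, 2, 1, 1, 2, 2, 1, 1, 1, 1, 2, 2, 2, 0, 1, 1, 0],
   [0, 1, 1, 1, 1, 0, 1, 0, 0, 1, 0, 0, 1, 1, 1, 0, 0, 2, 1, 0],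
   [0, 1, 0, 0, 1, 1, 1, 0, 1, 0, 1, 0, 0, 1, 1, 0, 0, 1, 0, 0],
   [0, 1, 1, 0, 1, 1, 1, 1, 2, 0, 0, 1, 0, 1, 2, 1, 1, 1, 1, 0],
   [0, 0, 1, 0, 1, 1, 0, 1, 1, 1, 0, 1, 0, 1, 1, 1, 1, 1, 0, 0],
   [0, 0, 1, 0, 1, 0, 0, 0, 0, 0, 0, 0, 1, 1, 0, 0, -2, 1, 1, 0],
   [0, 1, 1, 0, 2, 0, 0, 1, 2, 1, 1, 0, 1, 1, 2, 1, 1, 1, 1, 0],
   [1, 1, 1, 0, 0, 1, 1, 0, 0, 1, 1, 1, 0, 0, 1, 0, 0, 1, 0, 0],
   [-2, 0, 0, 0, 0, 0, 0, 1, 0, 0, 0, 0, 1, 1, 0, 0, 0, 0, 0, 0],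
   [1, 0, 1, 0, 1, 1, 1, -1, 1, 1, 0, 0, 0, 1, 1, 1, 0, 1, 0, 0],
   [0, 8, 16, 0, 16, 8, 8, 8, 16, 8, 8, 8, 8, 16, 16, 8, 0, 16, 8, 0],
   [0, 32, 56, 0, 64, 32, 24, 32, 56, 32, 24, 24, 32, 56, 64, 32, 0, 56, 32, 0]]

/-- The row of an index. -/
def row : I20 → ℕ
  | .inl (.inl a) => a.val
  | .inl (.inr (a, b)) => 2 + 8 * a.val + b.val
  | .inr a => 18 + a.val

/-- Table look up. -/
def lk (L : List (List ℤ)) (i : I20) (a : Fin 20) : ℤ := (L.getD (row i) []).getD a.val 0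

/-- The lines as a function. -/
def ln (a : Fin 20) : Ln := SL.getD a.val 0

theorem h1 : ∀ i b, ∑ a, lk VL i a * gL (ln a) (ln b) = lk PL i b := by
  decide +kernel

theorem h2 : ∀ i j, ∑ b, lk PL i b * lk VL j b = f20 i j := by
  decide +kernel

end RCert

open RCert in
theorem span21 : ∃ S : Fin 21 → G3, ∀ P : G3 → Prop, (∀ i, P (S i)) →
    (∀ d ∈ ([(1, 0, 0), (0, 1, 0), (0, 0, 1), (1, 1, 1)] : List G3), ∀ h,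
      P (h + d) → P (h + (d + d)) → P (h + (d + d + d)) → P h) → ∀ h, P h := by
  refine ⟨fun i => S21.get i, fun P h0 h1 h => run_ok h1 ord S21 (fun x hx => ?_) h (run_all h)⟩
  obtain ⟨i, rfl⟩ := List.get_of_mem hx
  exact h0 i

open RCert in
theorem exists_cert : ∃ (S : Fin 20 → Ln) (V : I20 → Fin 20 → ℤ),
    ∀ i j, ∑ a, ∑ b, V i a * V j b * gL (S a) (S b) = f20 i j := by
  refine ⟨ln, lk VL, fun i j => ?_⟩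
  rw [← h2, Finset.sum_comm]
  refine Finset.sum_congr rfl fun b _ => ?_
  rw [← h1, Finset.sum_mul]
  exact Finset.sum_congr rfl fun a _ => by ring

end HW
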