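import Pool.Agent.P.MP_9699e0_gt.W.Defs
import Pool.Agent.P.MP_9699e0_gt.NullS

/-! Topology of complex projective space. -/

set_option autoImplicit false
set_option linter.unusedSectionVars false

noncomputable section

namespace HW

open HK3 Pool.Agent.P.MP_9699e0_gt Set Filter Topology

variable {n : ℕ}

namespace RCpA

/-- The quotient map. -/
def qm (v : {v : Fin (n + 1) → ℂ // v ≠ 0}) : CP n := Projectivization.mk' ℂ v

theorem quot : IsQuotientMap (qm (n := n)) := isQuotientMap_quot_mk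

theorem pm_eq {v : Fin (n + 1) → ℂ} (hv : v ≠ 0) : pm n v = Projectivization.mk ℂ v hv :=
  dif_pos hv

theorem qm_eq (v : {v : Fin (n + 1) → ℂ // v ≠ 0}) : qm v = pm n v.1 := (pm_eq v.2).symm

end RCpA

theorem rp_ne (p : CP n) : rp p ≠ 0 := Projectivization.rep_nonzero p

theorem pm_rp (p : CP n) : pm n (rp p) = p :=
  (RCpA.pm_eq (rp_ne p)).trans (Projectivization.mk_rep p)

theorem rp_pm {v : Fin (n + 1) → ℂ} (hv : v ≠ 0) : ∃ c : ℂ, c ≠ 0 ∧ rp (pm n v) = c • v := by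
  obtain ⟨a, ha⟩ := Projectivization.exists_smul_eq_mk_rep ℂ v hv
  rw [RCpA.pm_eq hv]
  exact ⟨a, a.ne_zero, ha.symm⟩

theorem pm_smul {c : ℂ} (hc : c ≠ 0) (v : Fin (n + 1) → ℂ) : pm n (c • v) = pm n v := by
  by_cases hv : v = 0
  · rw [hv, smul_zero]
  · rw [RCpA.pm_eq hv, RCpA.pm_eq (smul_ne_zero hc hv)]
    exact (Projectivization.mk_eq_mk_iff' ℂ _ _ _ _).2 ⟨c, rfl⟩

theorem pm_eq_iff {v w : Fin (n + 1) → ℂ} (hv : v ≠ 0) (hw : w ≠ 0) :
    pm n v = pm n w ↔ ∃ c : ℂ, c ≠ 0 ∧ v = c • w := by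
  constructor
  · intro h
    rw [RCpA.pm_eq hv, RCpA.pm_eq hw] at h
    obtain ⟨a, ha⟩ := (Projectivization.mk_eq_mk_iff ℂ _ _ _ _).1 h
    exact ⟨a, a.ne_zero, ha.symm⟩
  · rintro ⟨c, hc, rfl⟩
    exact pm_smul hc w

theorem continuousOn_pm : ContinuousOn (pm n) {0}ᶜ := by
  rw [continuousOn_iff_continuous_domRestrict]
  exact RCpA.quot.continuous.congr fun v => RCpA.qm_eq v

theorem RCpA.mem_Uc {v : Fin (n + 1) → ℂ} (hv : v ≠ 0) {j : Fin (n + 1)} :
    pm n v ∈ Uc j ↔ v j ≠ 0 := by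
  obtain ⟨c, hc, e⟩ := rp_pm hv
  change rp (pm n v) j ≠ 0 ↔ _
  simp [e, hc]

theorem isOpen_Uc (j : Fin (n + 1)) : IsOpen (Uc j) := by
  rw [← RCpA.quot.isOpen_preimage]
  have e : RCpA.qm ⁻¹' Uc j = {v : {v : Fin (n + 1) → ℂ // v ≠ 0} | v.1 j ≠ 0} := by
    ext v
    rw [mem_preimage, RCpA.qm_eq, RCpA.mem_Uc v.2]
    rfl
  rw [e]
  exact isOpen_ne_fun ((continuous_apply j).comp continuous_subtype_val) continuous_const

theorem exists_Uc (p : CP n) : ∃ j, p ∈ Uc j := Function.ne_iff.1 (rp_ne p)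

theorem pm_mem_Uc {v : Fin (n + 1) → ℂ} (hv : v ≠ 0) {j : Fin (n + 1)} :
    pm n v ∈ Uc j ↔ v j ≠ 0 := RCpA.mem_Uc hv

theorem RCpA.nl_pm {v : Fin (n + 1) → ℂ} (hv : v ≠ 0) (j : Fin (n + 1)) :
    nl j (pm n v) = (v j)⁻¹ • v := by
  obtain ⟨c, hc, e⟩ := rp_pm hv
  rw [nl, e, smul_smul, Pi.smul_apply, smul_eq_mul, mul_inv_rev, inv_mul_cancel_right₀ hc]

theorem continuousOn_nl (j : Fin (n + 1)) : ContinuousOn (nl j) (Uc j) := by
  rw [RCpA.quot.continuousOn_isOpen_iff (isOpen_Uc j)]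
  have h : ContinuousOn (fun v : {v : Fin (n + 1) → ℂ // v ≠ 0} => (v.1 j)⁻¹ • v.1)
      (RCpA.qm ⁻¹' Uc j) := by
    refine ContinuousOn.smul (ContinuousOn.inv₀
      ((continuous_apply j).comp continuous_subtype_val).continuousOn fun v hv => ?_)
      continuous_subtype_val.continuousOn
    rwa [mem_preimage, RCpA.qm_eq, pm_mem_Uc v.2] at hv
  refine h.congr fun v _ => ?_
  rw [Function.comp_apply, RCpA.qm_eq, RCpA.nl_pm v.2]

theorem nl_pm {v : Fin (n + 1) → ℂ} (hv : v ≠ 0) (j : Fin (n + 1)) :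
    nl j (pm n v) = (v j)⁻¹ • v := RCpA.nl_pm hv j

theorem pm_nl {j : Fin (n + 1)} {p : CP n} (h : p ∈ Uc j) : pm n (nl j p) = p := by
  rw [nl, pm_smul (inv_ne_zero h), pm_rp]

theorem nl_self {j : Fin (n + 1)} {p : CP n} (h : p ∈ Uc j) : nl j p j = 1 :=
  inv_mul_cancel₀ h

theorem nl_ne {j : Fin (n + 1)} {p : CP n} (h : p ∈ Uc j) : nl j p ≠ 0 :=
  smul_ne_zero (inv_ne_zero h) (rp_ne p)

theorem nl_ne_iff {i j : Fin (n + 1)} {p : CP n} (h : p ∈ Uc i) : nl i p j ≠ 0 ↔ p ∈ Uc j :=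
  mul_ne_zero_iff_left (inv_ne_zero h)

theorem nl_nl {i j : Fin (n + 1)} {p : CP n} (h : p ∈ Uc j) : nl i p = nl i p j • nl j p := by
  rw [nl, nl, smul_smul, Pi.smul_apply, smul_eq_mul, mul_inv_cancel_right₀ h]

theorem contOn_rp {P Y : Type} [TopologicalSpace P] [TopologicalSpace Y] {g : P → CP n}
    {S : Set P} (hg : ContinuousOn g S) {G : P → (Fin (n + 1) → ℂ) → Y}
    {T : Set (P × (Fin (n + 1) → ℂ))} (hG : ContinuousOn (fun q : P × _ => G q.1 q.2) T)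
    (h : ∀ x ∈ S, ∀ c : ℂ, c ≠ 0 → (x, c • rp (g x)) ∈ T ∧ G x (c • rp (g x)) = G x (rp (g x))) :
    ContinuousOn (fun x => G x (rp (g x))) S := by
  intro x hx
  obtain ⟨j, hj⟩ := exists_Uc (g x)
  have h1 : ContinuousOn (fun y => G y (nl j (g y))) (S ∩ g ⁻¹' Uc j) :=
    hG.comp (f := fun y => (y, nl j (g y))) (continuousOn_id.prodMk
      ((continuousOn_nl j).comp (hg.mono inter_subset_left) fun y hy => hy.2))
      fun y hy => (h y hy.1 _ (inv_ne_zero hy.2)).1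
  have h2 : ContinuousOn (fun y => G y (rp (g y))) (S ∩ g ⁻¹' Uc j) :=
    h1.congr fun y hy => (h y hy.1 _ (inv_ne_zero hy.2)).2.symm
  exact (h2 x ⟨hx, hj⟩).mono_of_mem_nhdsWithin
    (inter_mem self_mem_nhdsWithin (hg x hx ((isOpen_Uc j).mem_nhds hj)))

namespace RCpA

/-- The square of the Euclidean norm. -/
def sq (v : Fin (n + 1) → ℂ) : ℂ := ∑ k, v k * (starRingEnd ℂ) (v k)

theorem sq_ne {v : Fin (n + 1) → ℂ} (hv : v ≠ 0) : sq v ≠ 0 := by
  obtain ⟨j, hj⟩ := Function.ne_iff.1 hv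
  simp only [sq, Complex.mul_conj]
  rw [← Complex.ofReal_sum]
  exact Complex.ofReal_ne_zero.2 (Finset.sum_pos' (fun _ _ => Complex.normSq_nonneg _)
    ⟨j, Finset.mem_univ _, Complex.normSq_pos.2 hj⟩).ne'

/-- The orthogonal projection onto a line. -/
def pj (v : Fin (n + 1) → ℂ) (i j : Fin (n + 1)) : ℂ := v i * (starRingEnd ℂ) (v j) / sq v

theorem pj_smul {c : ℂ} (hc : c ≠ 0) (v : Fin (n + 1) → ℂ) : pj (c • v) = pj v := by
  have e : sq (c • v) = c * (starRingEnd ℂ) c * sq v := by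
    simp only [sq, Finset.mul_sum, Pi.smul_apply, smul_eq_mul, map_mul]
    exact Finset.sum_congr rfl fun _ _ => by ring
  have hc' : c * (starRingEnd ℂ) c ≠ 0 := mul_ne_zero hc ((map_ne_zero _).2 hc)
  funext i j
  rw [pj, pj, e, ← mul_div_mul_left (v i * _) (sq v) hc']
  simp only [Pi.smul_apply, smul_eq_mul, map_mul]
  congr 1
  ring

theorem join (v : Fin (n + 1) → ℂ) : ∃ γ : Path v 1, ∀ t i, v i ≠ 0 → γ t i ≠ 0 := by
  have h : ∀ z : ℂ, ∃ γ : Path z 1, ∀ t, z ≠ 0 → γ t ≠ 0 := fun z => by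
    by_cases hz : z = 0
    · exact ⟨(PathConnectedSpace.joined z 1).somePath, fun _ h => absurd hz h⟩
    · obtain ⟨γ, hγ⟩ := (isPathConnected_compl_singleton_of_one_lt_rank
        (by rw [Complex.rank_real_complex]; norm_num) (0 : ℂ)).joinedIn z hz 1 one_ne_zero
      exact ⟨γ, fun t _ => hγ t⟩
  choose γ hγ using h
  exact ⟨Path.pi fun i => γ (v i), fun t i hi => hγ _ t hi⟩

theorem null_Uc (j : Fin (n + 1)) : Null (Uc j) := by
  have h0 : ∀ v : Fin (n + 1) → ℂ, v j = 1 → v ≠ 0 := fun v hv h => by simp [h] at hv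
  have e : pm n '' {v | v j = 1} = Uc j := by
    ext p
    constructor
    · rintro ⟨v, hv, rfl⟩
      exact (pm_mem_Uc (h0 v hv)).2 (by rw [show v j = 1 from hv]; exact one_ne_zero)
    · exact fun hp => ⟨nl j p, nl_self hp, pm_nl hp⟩
  rw [← e]
  refine null_star (x := 1) rfl (fun y hy a b _ _ hab => ?_)
    ⟨continuousOn_pm.mono h0, nl j, e ▸ continuousOn_nl j, fun v hv => ?_⟩ (e ▸ isOpen_Uc j)
  · have hy' : y j = 1 := hy
    simp only [mem_ofPred_eq, Pi.add_apply, Pi.smul_apply, Pi.one_apply, hy']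
    rw [← add_smul, hab, one_smul]
  · rw [nl_pm (h0 v hv), show v j = 1 from hv, inv_one, one_smul]

theorem null_union (s : Finset (Fin (n + 1))) (hs : s.Nonempty) : Null (⋃ j ∈ s, Uc j) := by
  induction hs using Finset.Nonempty.cons_induction with
  | singleton a => simpa using null_Uc a
  | cons a s ha hs ih =>
    have e0 : (⋃ j ∈ Finset.cons a s ha, Uc j) = Uc a ∪ ⋃ j ∈ s, Uc j := by
      ext p
      simp
    have h0 : ∀ v : Fin (n + 1) → ℂ, (v a ≠ 0 ∧ ∃ j ∈ s, v j ≠ 0) → v ≠ 0 :=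
      fun v hv h => hv.1 (by rw [h]; rfl)
    have e : pm n '' {v | v a ≠ 0 ∧ ∃ j ∈ s, v j ≠ 0} = Uc a ∩ ⋃ j ∈ s, Uc j := by
      ext p
      simp only [mem_inter_iff, mem_iUnion, exists_prop]
      constructor
      · rintro ⟨v, hv, rfl⟩
        simpa only [pm_mem_Uc (h0 v hv), mem_ofPred_eq] using hv
      · exact fun hp => ⟨rp p, hp, pm_rp p⟩
    rw [e0]
    refine (null_Uc a).union ih (e ▸ IsPathConnected.image' ?_ (continuousOn_pm.mono h0))
    refine ⟨1, ⟨one_ne_zero, hs.imp fun _ h => ⟨h, one_ne_zero⟩⟩, fun v hv => JoinedIn.symm ?_⟩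
    obtain ⟨γ, hγ⟩ := join v
    exact ⟨γ, fun t => ⟨hγ t a hv.1, hv.2.imp fun j h => ⟨h.1, hγ t j h.2⟩⟩⟩

end RCpA

theorem t2_CP (n : ℕ) : T2Space (CP n) := by
  refine T2Space.of_injective_continuous (f := fun p : CP n => RCpA.pj (rp p))
    (fun p q h => ?_) ?_
  · obtain ⟨j, hj⟩ := exists_Uc p
    have hj' : (starRingEnd ℂ) (rp p j) ≠ 0 := (map_ne_zero _).2 hj
    have h1 := RCpA.sq_ne (rp_ne p)
    have e : rp p = ((starRingEnd ℂ) (rp q j) / RCpA.sq (rp q) * RCpA.sq (rp p) /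
        (starRingEnd ℂ) (rp p j)) • rp q := by
      funext i
      have h2 : RCpA.pj (rp p) i j = RCpA.pj (rp q) i j := congrFun (congrFun h i) j
      rw [RCpA.pj, RCpA.pj, div_eq_iff h1] at h2
      rw [Pi.smul_apply, smul_eq_mul, div_mul_eq_mul_div, eq_div_iff hj', h2]
      ring
    rw [← pm_rp p, ← pm_rp q]
    refine (pm_eq_iff (rp_ne p) (rp_ne q)).2 ⟨_, fun h0 => rp_ne p ?_, e⟩
    rw [e, h0, zero_smul]
  · rw [← continuousOn_univ]
    refine contOn_rp (g := id) continuousOn_id (G := fun _ v => RCpA.pj v) (T := {q | q.2 ≠ 0})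
      ?_ fun x _ c hc => ⟨smul_ne_zero hc (rp_ne _), RCpA.pj_smul hc _⟩
    refine continuousOn_pi.2 fun i => continuousOn_pi.2 fun j => ?_
    refine ContinuousOn.div (by fun_prop) ?_ fun q hq => RCpA.sq_ne hq
    unfold RCpA.sq
    fun_prop

theorem compact_CP (n : ℕ) : CompactSpace (CP n) := by
  have h : IsCompact (pm n '' Metric.sphere 0 1) :=
    (isCompact_sphere _ _).image_of_continuousOn (continuousOn_pm.mono fun v hv h0 => by
      rw [mem_singleton_iff.1 h0] at hv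
      simp at hv)
  refine ⟨h.of_isClosed_subset isClosed_univ fun p _ => ?_⟩
  have h1 : ‖rp p‖ ≠ 0 := norm_ne_zero_iff.2 (rp_ne p)
  refine ⟨((‖rp p‖ : ℂ))⁻¹ • rp p, ?_, ?_⟩
  · rw [mem_sphere_zero_iff_norm, norm_smul, norm_inv, Complex.norm_real, norm_norm,
      inv_mul_cancel₀ h1]
  · rw [pm_smul (inv_ne_zero (Complex.ofReal_ne_zero.2 h1)), pm_rp]

theorem subsingleton_CP : Subsingleton (CP 0) := by
  have h : ∀ p : CP 0, pm 0 1 = p := fun p => by
    obtain ⟨j, hj⟩ := exists_Uc p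
    rw [← pm_nl hj]
    congr 1
    funext i
    rw [show i = j from Subsingleton.elim (α := Fin 1) i j, nl_self hj]
    rfl
  exact ⟨fun p q => (h p).symm.trans (h q)⟩

theorem sc_CP (n : ℕ) : SimplyConnectedSpace (CP n) := by
  have h := RCpA.null_union (n := n) Finset.univ Finset.univ_nonempty
  have e : (⋃ j ∈ (Finset.univ : Finset (Fin (n + 1))), Uc j) = univ :=
    eq_univ_of_forall fun p => by simpa using exists_Uc p
  exact Null.simplyConnected (e ▸ h)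

theorem sc_pi {ι Y : Type} [TopologicalSpace Y] [SimplyConnectedSpace Y] :
    SimplyConnectedSpace (ι → Y) := by
  refine simply_connected_iff_paths_homotopic.2 ⟨inferInstance, fun x y => ⟨fun p q => ?_⟩⟩
  rw [← Path.Homotopic.pi_proj p, ← Path.Homotopic.pi_proj q]
  congr 1
  funext i
  exact ((simply_connected_iff_paths_homotopic.1 inferInstance).2 _ _).elim _ _

end HW
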