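import Pool.Agent.P.MP_9699e0_gt.W.Help

/-! The mapping cylinder, lifting of maps up to homotopy, the Whitehead theorem. -/

set_option autoImplicit false
set_option linter.unusedSectionVars false

noncomputable section

namespace HW

open HK3 Pool.Agent.P.MP_9699e0_gt Set Filter Topology

variable {X Y : Type} [TopologicalSpace X] [TopologicalSpace Y]

namespace RCyl

open Classical in
/-- Normal form of a point of the cylinder. -/
def nf (f : X → Y) : (ℝ × X) ⊕ Y → (ℝ × X) ⊕ Y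
  | .inl p => if 1 ≤ p.1 then .inr (f p.2) else .inl p
  | .inr b => .inr b

/-- The motion along the cylinder. -/
def mv (s : ℝ) : (ℝ × X) ⊕ Y → (ℝ × X) ⊕ Y :=
  Sum.map (fun p => (p.1 + min s 1 * (1 - p.1), p.2)) id

theorem nf_mv (f : X → Y) (s : ℝ) (w : (ℝ × X) ⊕ Y) : nf f (mv s (nf f w)) = nf f (mv s w) := by
  rcases w with p | b
  · by_cases h : 1 ≤ p.1
    · have h' : 1 ≤ p.1 + min s 1 * (1 - p.1) := by nlinarith [min_le_right s 1]
      simp only [nf, mv, h, h', if_true, Sum.map_inl, Sum.map_inr, id]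
    · simp only [nf, h, if_false]
  · rfl

theorem elim_nf (f : X → Y) (w : (ℝ × X) ⊕ Y) :
    Sum.elim (fun p => f p.2) id (nf f w) = Sum.elim (fun p => f p.2) id w := by
  rcases w with p | b
  · by_cases h : 1 ≤ p.1 <;> simp only [nf, h, if_true, if_false, Sum.elim_inl, Sum.elim_inr, id]
  · rfl

theorem eq_of_nf {f : X → Y} {w : (ℝ × X) ⊕ Y} {p : ℝ × X} (hp : p.1 < 1)
    (h : nf f w = nf f (.inl p)) : w = .inl p := by
  rcases w with q | b
  · by_cases hq : 1 ≤ q.1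
    · simp [nf, hq, hp.not_ge] at h
    · simpa [nf, hq, hp.not_ge] using h
  · simp [nf, hp.not_ge] at h

theorem continuous_mv : Continuous fun p : ℝ × ((ℝ × X) ⊕ Y) => mv p.1 p.2 := by
  rw [← Homeomorph.prodSumDistrib.symm.comp_continuous_iff', continuous_sum_dom]
  constructor
  · change Continuous fun q : ℝ × ℝ × X =>
      (Sum.inl (q.2.1 + min q.1 1 * (1 - q.2.1), q.2.2) : (ℝ × X) ⊕ Y)
    fun_prop
  · change Continuous fun q : ℝ × Y => (Sum.inr q.2 : (ℝ × X) ⊕ Y)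
    fun_prop

theorem hty {f g : C(X, Y)} (H : ℝ → X → Y) (h : Continuous fun p : ℝ × X => H p.1 p.2)
    (h0 : ∀ x, H 0 x = f x) (h1 : ∀ x, H 1 x = g x) : f.Homotopic g :=
  ⟨⟨⟨fun p => H p.1 p.2, h.comp ((continuous_subtype_val.comp continuous_fst).prodMk
    continuous_snd)⟩, h0, h1⟩⟩

end RCyl

theorem exists_cyl (f : C(X, Y)) : ∃ (Z : Type) (_ : TopologicalSpace Z) (j : C(X, Z))
    (k : C(Y, Z)) (r : C(Z, Y)) (H : ℝ → Z → Z), IsEmbedding j ∧ (∀ a, r (j a) = f a) ∧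
      (∀ b, r (k b) = b) ∧ Continuous (fun p : ℝ × Z => H p.1 p.2) ∧ (∀ z, H 0 z = z) ∧
      ∀ z, H 1 z = k (r z) := by
  let q : (ℝ × X) ⊕ Y → Quotient (Setoid.ker (RCyl.nf f)) := Quotient.mk _
  have hq : IsQuotientMap q := isQuotientMap_quotient_mk'
  refine ⟨Quotient (Setoid.ker (RCyl.nf f)), inferInstance,
    ⟨fun a => q (.inl (0, a)), hq.continuous.comp (by fun_prop)⟩,
    ⟨fun b => q (.inr b), hq.continuous.comp continuous_inr⟩,
    ⟨Quotient.lift (Sum.elim (fun p => f p.2) id) fun w w' h => ?_,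
      Continuous.quotient_lift (Continuous.sumElim (by fun_prop) continuous_id) _⟩,
    fun s => Quotient.lift (fun w => q (RCyl.mv s w)) fun w w' h => Quotient.sound ?_,
    ⟨⟨le_antisymm (continuous_iff_le_induced.1 (ContinuousMap.continuous _)) fun U hU => ?_⟩,
      fun a a' h => ?_⟩, fun _ => rfl, fun _ => rfl,
    hq.continuous_lift_prod_right (hq.continuous.comp RCyl.continuous_mv), fun z => ?_,
    fun z => ?_⟩
  · rw [← RCyl.elim_nf f w, ← RCyl.elim_nf f w', show RCyl.nf f w = RCyl.nf f w' from h]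
  · change RCyl.nf f _ = RCyl.nf f _
    rw [← RCyl.nf_mv f s w, ← RCyl.nf_mv f s w', show RCyl.nf f w = RCyl.nf f w' from h]
  · refine ⟨q '' (Sum.inl '' (Iio 1 ×ˢ U)), hq.isOpen_preimage.1 ?_, ?_⟩
    · have e : q ⁻¹' (q '' (Sum.inl '' (Iio 1 ×ˢ U))) = Sum.inl '' (Iio 1 ×ˢ U) := by
        refine Subset.antisymm ?_ (subset_preimage_image _ _)
        rintro w ⟨_, ⟨p, hp, rfl⟩, e⟩
        exact ⟨p, hp, (RCyl.eq_of_nf hp.1 (Quotient.exact e.symm)).symm⟩
      rw [e]
      exact isOpenMap_inl _ (isOpen_Iio.prod hU)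
    · ext a
      constructor
      · rintro ⟨_, ⟨p, hp, rfl⟩, e⟩
        obtain rfl := Sum.inl_injective (RCyl.eq_of_nf hp.1 (Quotient.exact e.symm))
        exact hp.2
      · exact fun ha => ⟨_, ⟨(0, a), ⟨zero_lt_one' ℝ, ha⟩, rfl⟩, rfl⟩
  · exact congrArg Prod.snd
      (Sum.inl_injective (RCyl.eq_of_nf (p := (0, a')) zero_lt_one (Quotient.exact h)))
  · obtain ⟨p | b, rfl⟩ := hq.surjective z
    · change q (.inl (p.1 + min 0 1 * (1 - p.1), p.2)) = q (.inl p)
      simp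
    · rfl
  · obtain ⟨p | b, rfl⟩ := hq.surjective z
    · refine Quotient.sound ?_
      change RCyl.nf f (.inl (p.1 + min 1 1 * (1 - p.1), p.2)) = .inr (f p.2)
      simp [RCyl.nf]
    · rfl

theorem rz_cyl {Z : Type} [TopologicalSpace Z] {f : C(X, Y)} {j : C(X, Z)} {k : C(Y, Z)}
    {r : C(Z, Y)} {H : ℝ → Z → Z} (hj : IsEmbedding j) (h1 : ∀ a, r (j a) = f a)
    (h3 : Continuous fun p : ℝ × Z => H p.1 p.2) (h4 : ∀ z, H 0 z = z)
    (h5 : ∀ z, H 1 z = k (r z)) {n : ℕ} (hi : HInj f n) (hs : HSur f (n + 1)) :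
    RZ univ (range j) n := by
  intro c _ hc
  have hH : ∀ b ∈ cyc ℤ (univ : Set Z) (n + 1),
      b - cmap ℤ k (n + 1) (cmap ℤ r (n + 1) b) ∈ bdy ℤ univ (n + 1) := fun b hb => by
    have := hty_cyc (RCyl.hty (f := .id Z) (g := k.comp r) H h3 h4 h5) hb
    rwa [ContinuousMap.coe_id, cmap_id, ContinuousMap.coe_comp, ← cmap_cmap r.continuous] at this
  have hr : ∀ (m : ℕ) (a : Chn ℤ X m), cmap ℤ r m (cmap ℤ j m a) = cmap ℤ f m a := fun m a => by
    rw [cmap_cmap j.continuous, show (r : Z → Y) ∘ j = f from funext h1]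
  have hm : ∀ a : Chn ℤ X (n + 1), cmap ℤ j (n + 1) a ∈ chn ℤ (range j) (n + 1) := fun a =>
    cmap_mem (S := univ) j.continuous.continuousOn (mapsTo_range _ _)
      (by rw [chn_univ]; trivial)
  obtain ⟨c', e⟩ := val_chn hc
  have hc' : c' ∈ cyc ℤ univ n := val_cyc.1 (e ▸ mem_cyc (bdy_le _ _ (bd_mem_bdy c)) hc)
  have e' : cmap ℤ j n (cmap ℤ hj.toHomeomorph.symm n c') = bd ℤ Z n c := by
    rw [cmap_cmap hj.toHomeomorph.symm.continuous, ← e]
    congr 2
    exact funext fun x => congrArg Subtype.val (hj.toHomeomorph.apply_symm_apply x)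
  obtain ⟨a', ha', e''⟩ := hi _ (cyc_map hj.toHomeomorph.symm.continuous hc') (by
    rw [← hr, e']
    exact bdy_map r.continuous (bd_mem_bdy c))
  have hb : c - cmap ℤ j (n + 1) a' ∈ cyc ℤ univ (n + 1) := by
    rw [mem_cyc_univ, map_sub, cmap_bd j.continuous.continuousOn ha', e'', e', sub_self]
  obtain ⟨a'', h6, h7⟩ := hs _ (cyc_map r.continuous hb)
  have h8 := bdy_map k.continuous h7
  have h9 := hH _ (cyc_map j.continuous h6)
  rw [map_sub] at h8
  rw [hr] at h9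
  refine Submodule.mem_sup.2 ⟨_, sub_mem (add_mem (hH _ hb) h8) h9, _, add_mem (hm a') (hm a''), ?_⟩
  abel

theorem con_cyl [SimplyConnectedSpace X] [SimplyConnectedSpace Y] {Z : Type} [TopologicalSpace Z]
    {f : C(X, Y)} {j : C(X, Z)} {k : C(Y, Z)} {r : C(Z, Y)} {H : ℝ → Z → Z} (hj : IsEmbedding j)
    (h1 : ∀ a, r (j a) = f a) (h2 : ∀ b, r (k b) = b)
    (h3 : Continuous fun p : ℝ × Z => H p.1 p.2) (h4 : ∀ z, H 0 z = z)
    (h5 : ∀ z, H 1 z = k (r z)) {n : ℕ} (hf : Hcon f n) :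
    IsSimplyConnected (range j) ∧ ∀ m ≤ n, Con (range j) m := by
  have hZ : SimplyConnectedSpace Z := ContinuousMap.HomotopyEquiv.simplyConnectedSpace
    ⟨r, k, (RCyl.hty H h3 h4 h5).symm, RCyl.hty (fun _ b => b) continuous_snd
      (fun b => (h2 b).symm) fun _ => rfl⟩
  have hA : IsSimplyConnected (range j) :=
    hj.toHomeomorph.symm.toHomotopyEquiv.simplyConnectedSpace
  exact ⟨hA, con_of_rz hA fun m h h' => rz_cyl hj h1 h3 h4 h5 (hf m h h').1 (hf m h h').2⟩

theorem lift [SimplyConnectedSpace X] [SimplyConnectedSpace Y] (f : C(X, Y)) {n m : ℕ}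
    (hf : Hcon f n) (hm : m ≤ n) {M : Type} [TopologicalSpace M] [T2Space M] (hM : Chartd M m)
    {K : Set M} (hK : IsCompact K) (g : C(M, Y)) :
    ∃ l : C(K, X), (f.comp l).Homotopic (g.restrict K) := by
  obtain ⟨Z, _, j, k, r, H, hj, h1, h2, h3, h4, h5⟩ := exists_cyl f
  obtain ⟨g', ⟨G, L, -, -, hG, h6, rfl, -⟩, h7⟩ := help hM
    (fun i hi => (con_cyl hj h1 h2 h3 h4 h5 hf).2 i (hi.trans hm)) hK (k.comp g).continuous
  rw [univ_prod_univ, continuousOn_univ] at hG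
  have hG' : Continuous fun p : ℝ × K => G p.1 p.2 :=
    hG.comp (continuous_fst.prodMk (continuous_subtype_val.comp continuous_snd))
  refine ⟨⟨fun x => hj.toHomeomorph.symm ⟨G 1 x, h7 x x.2⟩, hj.toHomeomorph.symm.continuous.comp
    ((hG'.comp (continuous_const.prodMk continuous_id)).subtype_mk _)⟩,
    (RCyl.hty (fun s (x : K) => r (G s x)) (r.continuous.comp hG') (fun x => ?_) fun x => ?_).symm⟩
  · rw [h6]
    exact h2 _
  · exact (congrArg (fun y : range j => r y.1)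
      (hj.toHomeomorph.apply_symm_apply ⟨G 1 x, h7 x x.2⟩)).symm.trans (h1 _)

theorem whitehead [SimplyConnectedSpace X] [SimplyConnectedSpace Y] [T2Space X] [T2Space Y]
    [CompactSpace X] [CompactSpace Y] (hX : Chartd X 4) (hY : Chartd Y 4) (F : C(X, Y))
    (h : Hcon F 4) (h4 : HInj F 4) : Nonempty (ContinuousMap.HomotopyEquiv X Y) := by
  have key : ∀ {A B : Type} [TopologicalSpace A] [TopologicalSpace B] [SimplyConnectedSpace A]
      [SimplyConnectedSpace B] [T2Space B] [CompactSpace B], Chartd B 4 → ∀ f : C(A, B),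
      Hcon f 4 → ∃ g : C(B, A), (f.comp g).Homotopic (.id B) := by
    intro A B _ _ _ _ _ _ hB f hf
    obtain ⟨l, hl⟩ := lift f hf le_rfl hB isCompact_univ (.id B)
    let u : C(B, (univ : Set B)) := ⟨fun y => ⟨y, mem_univ y⟩, continuous_id.subtype_mk _⟩
    have h1 := hl.comp (.refl u)
    exact ⟨l.comp u, h1⟩
  obtain ⟨g, hg⟩ := key hY F h
  have h1 : ∀ m, ∀ a ∈ cyc ℤ (univ : Set Y) m,
      cmap ℤ F m (cmap ℤ g m a) - a ∈ bdy ℤ univ m := fun m a ha => by
    have := hty_cyc hg ha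
    rwa [ContinuousMap.coe_id, cmap_id, ContinuousMap.coe_comp, ← cmap_cmap g.continuous] at this
  obtain ⟨g', hg'⟩ := key hX g fun m hm hm' => ⟨fun a ha hb => by
    simpa using sub_mem (bdy_map F.continuous hb) (h1 m a ha), fun b hb => by
    have h2 : HInj F (m + 1) := by
      rcases hm'.eq_or_lt with e | e
      · exact e ▸ h4
      · exact (h (m + 1) (by omega) e).1
    have h3 := cyc_map F.continuous hb
    refine ⟨_, h3, h2 _ (sub_mem hb (cyc_map g.continuous h3)) ?_⟩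
    rw [map_sub]
    simpa using neg_mem (h1 _ _ h3)⟩
  have h5 : F.Homotopic g' :=
    ((ContinuousMap.Homotopic.refl F).comp hg').symm.trans
      (hg.comp (ContinuousMap.Homotopic.refl g'))
  exact ⟨⟨F, g, ((ContinuousMap.Homotopic.refl g).comp h5).trans hg', hg⟩⟩

end HW
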