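import Pool.Agent.P.MP_9699e0_gt.W.Stmt
import Pool.Agent.P.MP_9699e0_gt.LbDefs
import Pool.Agent.P.MP_9699e0_gt.Cup

/-! General definitions for the Whitehead-Milnor theorem. -/

set_option autoImplicit false
set_option linter.unusedSectionVars false

noncomputable section

namespace HW

open HK3 Pool.Agent.P.MP_9699e0_gt Set Filter Topology

/-- Real coordinate space with the sup norm. -/
abbrev Eu (n : ℕ) : Type := Fin n → ℝ

section Homotopy

variable {Z M : Type} [TopologicalSpace Z] [TopologicalSpace M] {n : ℕ}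

/-- A map that sends far points to `A`. -/
structure Rel (A : Set Z) (f : Eu n → Z) : Prop where
  cont : Continuous f
  far : ∃ R : ℝ, ∀ x, R ≤ ‖x‖ → f x ∈ A

/-- A homotopy that sends far points to `A`. -/
def Hty (A : Set Z) (f g : Eu n → Z) : Prop :=
  ∃ H : ℝ → Eu n → Z, Continuous (fun p : ℝ × Eu n => H p.1 p.2) ∧ H 0 = f ∧ H 1 = g ∧
    ∃ R : ℝ, ∀ s ∈ Icc (0 : ℝ) 1, ∀ x, R ≤ ‖x‖ → H s x ∈ A

/-- The map can be deformed into `A`. -/
def Nul (A : Set Z) (f : Eu n → Z) : Prop := ∃ g, (∀ x, g x ∈ A) ∧ Hty A f g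

/-- The `n`-th relative homotopy set is trivial. -/
def Con (A : Set Z) (n : ℕ) : Prop := ∀ f : Eu n → Z, Rel A f → Nul A f

/-- Retraction to a lower half space. -/
def cle (i : Fin n) (c : ℝ) (x : Eu n) : Eu n := Function.update x i (min (x i) c)

/-- Retraction to an upper half space. -/
def cge (i : Fin n) (c : ℝ) (x : Eu n) : Eu n := Function.update x i (max (x i) c)

/-- The class in the relative homotopy group. -/
structure IsVal (A : Set Z) {G : Type} [AddCommGroup G] (v : (Eu n → Z) → G) : Prop where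
  hty : ∀ {f g : Eu n → Z}, Hty A f g → v f = v g
  cut : ∀ {f : Eu n → Z} (i : Fin n) (c : ℝ), Rel A f → (∀ x, x i = c → f x ∈ A) →
    v f = v (f ∘ cle i c) + v (f ∘ cge i c)
  inA : ∀ {f : Eu n → Z}, Continuous f → (∀ x, f x ∈ A) → v f = 0
  nul : ∀ {f : Eu n → Z}, Rel A f → v f = 0 → Nul A f

/-- Constant on the upper half space. -/
def Lft (a : Z) (f : Eu (n + 1) → Z) : Prop := ∀ x, 0 ≤ x 0 → f x = a

/-- Constant on the lower half space. -/
def Rgt (a : Z) (f : Eu (n + 1) → Z) : Prop := ∀ x, x 0 ≤ 0 → f x = a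

open Classical in
/-- Concatenation in the first coordinate. -/
def cat (f g : Eu (n + 1) → Z) (x : Eu (n + 1)) : Z := if x 0 ≤ 0 then f x else g x

/-- Running minima of the coordinates. -/
def qu (x : Eu n) : ℕ → ℝ
  | 0 => 1
  | i + 1 => if h : i < n then min (qu x i) (max (x ⟨i, h⟩) 0) else 0

theorem qu_nonneg (x : Eu n) : ∀ i, 0 ≤ qu x i
  | 0 => zero_le_one
  | i + 1 => by
    unfold qu
    split_ifs
    · exact le_min (qu_nonneg x i) (le_max_right _ _)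
    · exact le_rfl

theorem qu_succ_le (x : Eu n) (i : ℕ) : qu x (i + 1) ≤ qu x i := by
  rw [qu]
  split_ifs
  · exact min_le_left _ _
  · exact qu_nonneg x i

/-- The retraction of coordinate space onto the simplex. -/
def qq (n : ℕ) (x : Eu n) : Dl n :=
  ⟨fun i => qu x i - qu x (i + 1), fun i => sub_nonneg.2 (qu_succ_le x i), by
    rw [Fin.sum_univ_eq_sum_range (fun i => qu x i - qu x (i + 1)), Finset.sum_range_sub']
    simp [qu]⟩

/-- The boundary of the simplex goes to `A`. -/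
def Bdy (A : Set Z) (σ : Simp Z n) : Prop := ∀ t : Dl n, (∃ i, t i = 0) → σ t ∈ A

/-- The faces of codimension two go to `A`. -/
def Sk2 (A : Set Z) (σ : Simp Z n) : Prop :=
  ∀ t : Dl n, (∃ i j, i ≠ j ∧ t i = 0 ∧ t j = 0) → σ t ∈ A

/-- Simplices with boundary in `A` can be deformed into `A`, the boundary being fixed. -/
def Cmp (A : Set Z) (n : ℕ) : Prop := ∀ σ : Simp Z n, Bdy A σ →
  ∃ H : ℝ → Dl n → Z, Continuous (fun p : ℝ × Dl n => H p.1 p.2) ∧ (∀ t, H 0 t = σ t) ∧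
    (∀ s t, (∃ i, t i = 0) → H s t = σ t) ∧ ∀ t, H 1 t ∈ A

/-- A deformation with compact support in `V`. -/
def Df (V : Set M) (f g : M → Z) : Prop :=
  ∃ (H : ℝ → M → Z) (L : Set M), IsCompact L ∧ L ⊆ V ∧
    ContinuousOn (fun p : ℝ × M => H p.1 p.2) (univ ×ˢ V) ∧ H 0 = f ∧ H 1 = g ∧
    ∀ s, ∀ x ∉ L, H s x = f x

/-- A neighbourhood of `S` goes to `A`. -/
def Nr (A : Set Z) (f : M → Z) (S : Set M) : Prop := ∀ x ∈ S, ∀ᶠ y in 𝓝 x, f y ∈ A

/-- A closed cube whose directions are the coordinates in `S`. -/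
def cell (S : Finset (Fin n)) (a : Eu n) (r : ℝ) : Set (Eu n) :=
  {x | (∀ i ∈ S, |x i - a i| ≤ r) ∧ ∀ i ∉ S, x i = a i}

/-- The boundary of the cube. -/
def cellB (S : Finset (Fin n)) (a : Eu n) (r : ℝ) : Set (Eu n) :=
  {x | x ∈ cell S a r ∧ ∃ i ∈ S, |x i - a i| = r}

/-- Locally Euclidean of dimension `m`. -/
def Chartd (M : Type) [TopologicalSpace M] (m : ℕ) : Prop :=
  ∀ x : M, ∃ e : OpenPartialHomeomorph (Eu m) M, x ∈ e.target

end Homotopy

section Homology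

variable {X Y : Type} [TopologicalSpace X] [TopologicalSpace Y]

/-- Pull back of cochains. -/
def pull {M : Type} {n : ℕ} (f : X → Y) (a : Simp Y n → M) : Simp X n → M :=
  fun σ => a (smap f σ)

/-- The relative homology of `(S, A)` vanishes in degree `k + 1`. -/
def RZ (S A : Set X) (k : ℕ) : Prop := ∀ c ∈ chn ℤ S (k + 1), bd ℤ X k c ∈ chn ℤ A k →
  c ∈ bdy ℤ S (k + 1) ⊔ chn ℤ A (k + 1)

/-- The homology of `X` vanishes in degree `k`. -/
def HZ (X : Type) [TopologicalSpace X] (k : ℕ) : Prop :=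
  cyc ℤ (univ : Set X) k ≤ bdy ℤ univ k

/-- Injective on homology. -/
def HInj (f : X → Y) (k : ℕ) : Prop :=
  ∀ a ∈ cyc ℤ (univ : Set X) k, cmap ℤ f k a ∈ bdy ℤ univ k → a ∈ bdy ℤ univ k

/-- Surjective on homology. -/
def HSur (f : X → Y) (k : ℕ) : Prop :=
  ∀ b ∈ cyc ℤ (univ : Set Y) k, ∃ a ∈ cyc ℤ (univ : Set X) k, b - cmap ℤ f k a ∈ bdy ℤ univ k

/-- The homology of the map vanishes in the degrees `2, …, n`. -/
def Hcon (f : X → Y) (n : ℕ) : Prop := ∀ k, 1 ≤ k → k + 1 ≤ n → HInj f k ∧ HSur f (k + 1)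

/-- The pair `(X, S)` has the homology of a four-cell, generated by `z`. -/
structure Sph (S : Set X) (z : Chn ℤ X 4) : Prop where
  zero : ∀ c : Chn ℤ X 0, c ∈ bdy ℤ univ 0 ⊔ chn ℤ S 0
  van : ∀ k, k ≠ 3 → RZ univ S k
  four : ∀ c : Chn ℤ X 4, bd ℤ X 3 c ∈ chn ℤ S 3 →
    ∃ m : ℤ, c - m • z ∈ bdy ℤ univ 4 ⊔ chn ℤ S 4
  free : ∀ m : ℤ, m • z ∈ bdy ℤ univ 4 ⊔ chn ℤ S 4 → m = 0

/-- A closed connected four-manifold with the fundamental cycle `z`. -/
structure Mf (X : Type) [TopologicalSpace X] (z : Chn ℤ X 4) : Prop where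
  t2 : T2Space X
  cpt : CompactSpace X
  closed : bd ℤ X 3 z = 0
  chart : ∀ x : X, ∃ e : OpenPartialHomeomorph (Eu 4) X, x ∈ e.target ∧ ∀ K, IsCompact K →
    Convex ℝ K → K.Nonempty → K ⊆ e.source → Sph (e '' K)ᶜ z
  top : ∀ c : Chn ℤ X 4, bd ℤ X 3 c = 0 → ∃ m : ℤ, c - m • z ∈ bdy ℤ univ 4
  free : ∀ m : ℤ, m • z ∈ bdy ℤ univ 4 → m = 0
  high : ∀ k, HZ X (k + 5)

/-- The cocycles `e i` identify the second homology with a free group. -/
structure Bas {ι : Type} [DecidableEq ι] (e : ι → Simp X 2 → ℤ) : Prop where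
  coc : ∀ i, cobd (e i) = 0
  det : ∀ c ∈ cyc ℤ (univ : Set X) 2, (∀ i, ev ℤ (e i) c = 0) → c ∈ bdy ℤ univ 2
  dual : ∀ j, ∃ c ∈ cyc ℤ (univ : Set X) 2, ∀ i, ev ℤ (e i) c = if i = j then 1 else 0

/-- The homology up to degree four is detected by the cocycles `x i` and their products. -/
structure Det {ι : Type} (x : ι → Simp X 2 → ℤ) : Prop where
  coc : ∀ i, cobd (x i) = 0
  conn : PathConnectedSpace X
  one : HZ X 1
  two : ∀ c ∈ cyc ℤ (univ : Set X) 2, (∀ i, ev ℤ (x i) c = 0) → c ∈ bdy ℤ univ 2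
  three : HZ X 3
  four : ∀ c ∈ cyc ℤ (univ : Set X) 4, (∀ i j, ev ℤ (cup (x i) (x j)) c = 0) → c ∈ bdy ℤ univ 4

/-- The cocycles `e i` span the second cohomology and have the Gram matrix `G` on `z`. -/
structure Frm {ι : Type} [Fintype ι] (z : Chn ℤ X 4) (e : ι → Simp X 2 → ℤ) (G : ι → ι → ℤ) :
    Prop where
  coc : ∀ i, cobd (e i) = 0
  span : ∀ a : Simp X 2 → ℤ, cobd a = 0 → ∃ m : ι → ℤ, Coh a (∑ i, m i • e i)
  gram : ∀ i j, ev ℤ (cup (e i) (e j)) z = G i j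

/-- Reduced cycles. -/
def rcyc (S : Set X) : ∀ n, Submodule ℤ (Chn ℤ X n)
  | 0 => chn ℤ S 0 ⊓ LinearMap.ker (aug ℤ)
  | n + 1 => cyc ℤ S (n + 1)

/-- The reduced homology of `S` in degree `n` is isomorphic to `M`. -/
def HIso (S : Set X) (n : ℕ) (M : Type) [AddCommGroup M] : Prop :=
  ∃ φ : rcyc S n →ₗ[ℤ] M, Function.Surjective φ ∧ ∀ c, φ c = 0 ↔ c.1 ∈ bdy ℤ S n

/-- The vertices of the front face. -/
def fr (k n : ℕ) (i : Fin (k + 1)) : Fin (n + 1) := ⟨min i n, Nat.lt_succ_of_le (min_le_right _ _)⟩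

/-- The vertices of the back face. -/
def bk (k j n : ℕ) (i : Fin (j + 1)) : Fin (n + 1) :=
  ⟨min (k + i) n, Nat.lt_succ_of_le (min_le_right _ _)⟩

/-- The cap product (zero unless `k + j = n`). -/
def cap (k j n : ℕ) (a : Simp X k → ℤ) : Chn ℤ X n →ₗ[ℤ] Chn ℤ X j :=
  if k + j = n then Finsupp.linearCombination ℤ fun σ : Simp X n =>
    Finsupp.single (sub σ (bk k j n)) (a (sub σ (fr k n))) else 0

/-- The cochain vanishes on the simplices that miss `K`. -/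
def Van {k : ℕ} (K : Set X) (a : Simp X k → ℤ) : Prop := ∀ σ : Simp X k, range σ ⊆ Kᶜ → a σ = 0

/-- Every simplex of `ζ` lies in `U` or misses `K`. -/
def Ad {n : ℕ} (K U : Set X) (ζ : Chn ℤ X n) : Prop := ζ ∈ chn ℤ U n ⊔ chn ℤ Kᶜ n

/-- The chain `τ` is carried by the simplices of `ζ`. -/
def Rf (ζ : Chn ℤ X 4) (τ : Chn ℤ X 5) : Prop :=
  ∀ S T : Set X, ζ ∈ chn ℤ S 4 ⊔ chn ℤ T 4 → τ ∈ chn ℤ S 5 ⊔ chn ℤ T 5

/-- Chains of all degrees. -/
abbrev TC (X : Type) [TopologicalSpace X] : Type := ∀ j : ℕ, Chn ℤ X j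

/-- The boundary of chains of all degrees. -/
def tb (c : TC X) : TC X := fun j => bd ℤ X j (c (j + 1))

/-- The cap product as a chain of all degrees. -/
def tc (k n : ℕ) (a : Simp X k → ℤ) (y : Chn ℤ X n) : TC X := fun j => cap k j n a y

/-- All components lie in `U`. -/
def In (U : Set X) (c : TC X) : Prop := ∀ j, c j ∈ chn ℤ U j

/-- Concentrated in degree `n - k`. -/
def Dg (k n : ℕ) (c : TC X) : Prop := ∀ j, k + j ≠ n → c j = 0

/-- A cycle in the cone of the duality map. -/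
structure CC (U K : Set X) (k : ℕ) (ζ : Chn ℤ X 4) (a : Simp X (k + 1) → ℤ) (c : TC X) :
    Prop where
  cpt : IsCompact K
  sub : K ⊆ U
  ad : Ad K U ζ
  van : Van K a
  coc : cobd a = 0
  mem : In U c
  dg : Dg k 4 c
  eq : tb c = tc (k + 1) 4 a ζ

/-- A boundary in the cone of the duality map. -/
def CB (U : Set X) (k : ℕ) (ζ : Chn ℤ X 4) (a : Simp X (k + 1) → ℤ) (c : TC X) : Prop :=
  ∃ (K : Set X) (b : Simp X k → ℤ) (d : TC X), IsCompact K ∧ K ⊆ U ∧ Ad K U ζ ∧ Van K b ∧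
    a = cobd b ∧ In U d ∧ Dg k 5 d ∧ c + (-1 : ℤ) ^ k • tc k 4 b ζ = tb d

/-- Poincare duality for the open set `U`. -/
def PD (z : Chn ℤ X 4) (U : Set X) : Prop :=
  ∀ (k : ℕ) (K : Set X) (ζ : Chn ℤ X 4) (a : Simp X (k + 1) → ℤ) (c : TC X),
    ζ - z ∈ bdy ℤ univ 4 → CC U K k ζ a c →
      ∃ τ, Rf ζ τ ∧ CB U k (ζ - bd ℤ X 4 τ) a (c + (-1 : ℤ) ^ k • tc (k + 1) 5 a τ)

/-- The complement of `U` is locally the zero set of the second coordinate. -/
def Flat (U : Set X) : Prop := ∀ q ∉ U, ∃ e : OpenPartialHomeomorph E X, q ∈ e.target ∧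
  ∀ ξ ∈ e.source, (e ξ ∈ U ↔ ξ.2 ≠ 0)

/-- The group of 2-cocycles. -/
def Z2 (X : Type) [TopologicalSpace X] : Submodule ℤ (Simp X 2 → ℤ) where
  carrier := {a | cobd a = 0}
  add_mem' := fun {a b} ha hb => by
    rw [mem_ofPred_eq] at ha hb ⊢
    rw [cobd_add, ha, hb, add_zero]
  zero_mem' := by
    have := cobd_zsmul (X := X) (n := 2) 0 (0 : Simp X 2 → ℤ)
    simpa using this
  smul_mem' := fun m a ha => by
    rw [mem_ofPred_eq] at ha ⊢
    rw [cobd_zsmul, ha, smul_zero]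

/-- The cup product form on 2-cocycles. -/
def BZ (z : Chn ℤ X 4) : Z2 X →ₗ[ℤ] Z2 X →ₗ[ℤ] ℤ :=
  AddMonoidHom.toIntLinearMap (AddMonoidHom.mk' (fun a => AddMonoidHom.toIntLinearMap
    (AddMonoidHom.mk' (fun b : Z2 X => ev ℤ (cup a.1 b.1) z)
      fun b b' => ev_cup_add_right a.1 b.1 b'.1 z))
    fun a a' => LinearMap.ext fun b => ev_cup_add_left a.1 a'.1 b.1 z)

theorem BZ_apply (z : Chn ℤ X 4) (a b : Z2 X) : BZ z a b = ev ℤ (cup a.1 b.1) z := rfl

/-- The etale cover of an open cover. -/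
def etC {ι : Type} [TopologicalSpace ι] [DiscreteTopology ι] (O : ι → Set X)
    (ho : ∀ i, IsOpen (O i)) (hc : ∀ x, ∃ i, x ∈ O i) : Et X where
  Ω := ι × X
  dom := {p | p.2 ∈ O p.1}
  f := Prod.snd
  opn := by
    have e : {p : ι × X | p.2 ∈ O p.1} = ⋃ i, {i} ×ˢ O i := by
      ext ⟨i, x⟩
      simp
    rw [e]
    exact isOpen_iUnion fun i => (isOpen_discrete _).prod (ho i)
  loc := by
    refine IsLocalHomeomorph.isLocalHomeomorphOn ?_ |>.mono (subset_univ _)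
    refine isLocalHomeomorph_iff_isOpenEmbedding_restrict.2 fun x => ?_
    refine ⟨{x.1} ×ˢ univ, prod_mem_nhds ((isOpen_discrete _).mem_nhds rfl) univ_mem, ?_⟩
    refine IsOpenEmbedding.of_continuous_injective_isOpenMap
      (continuous_snd.comp continuous_subtype_val) ?_ ?_
    · rintro ⟨⟨a, b⟩, ha, hb⟩ ⟨⟨a', b'⟩, ha', hb'⟩ h
      have h1 : b = b' := h
      have h2 : a = a' := (show a = x.1 from ha).trans (show a' = x.1 from ha').symm
      subst h1 h2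
      rfl
    · exact isOpenMap_snd.comp ((isOpen_discrete _).prod isOpen_univ).isOpenMap_subtype_val
  surj := fun x => (hc x).elim fun i h => ⟨(i, x), h, rfl⟩

end Homology

/-- A possibly degenerate even form whose quotient by the radical is unimodular of rank at
most `k`. -/
structure Lat {M : Type} [AddCommGroup M] (B : M →ₗ[ℤ] M →ₗ[ℤ] ℤ) (k : ℕ) : Prop where
  symm : ∀ x y, B x y = B y x
  fin : ∃ (s : ℕ) (g : Fin s → M), ∀ x, ∃ m : Fin s → ℤ, B (x - ∑ i, m i • g i) = 0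
  uni : ∀ φ : M →ₗ[ℤ] ℤ, (∀ x, B x = 0 → φ x = 0) → ∃ a, φ = B a
  even : ∀ x, Even (B x x)
  rank : ∀ x : Fin (k + 1) → M, ∃ m : Fin (k + 1) → ℤ, m ≠ 0 ∧ B (∑ i, m i • x i) = 0

/-- Index set of twenty classes. -/
abbrev I20 : Type := (Fin 2 ⊕ (Fin 2 × Fin 8)) ⊕ Fin 2

/-- One hyperbolic plane, two copies of the negative `E₈` and two vectors of square `-8`. -/
def f20 : I20 → I20 → ℤ
  | .inl (.inl a), .inl (.inl b) => if a ≠ b then 1 else 0
  | .inl (.inr a), .inl (.inr b) => if a.1 = b.1 then -CartanMatrix.E₈ a.2 b.2 else 0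
  | .inr a, .inr b => if a = b then -8 else 0
  | _, _ => 0

/-- The point with the homogeneous coordinates `v`. -/
def pm (n : ℕ) (v : Fin (n + 1) → ℂ) : CP n :=
  if h : v ≠ 0 then Projectivization.mk ℂ v h
  else Projectivization.mk ℂ (fun _ => 1) fun h => one_ne_zero (congrFun h 0)

/-- A choice of homogeneous coordinates. -/
abbrev rp {n : ℕ} (p : CP n) : Fin (n + 1) → ℂ := Projectivization.rep p

/-- The standard affine pieces. -/
def Uc {n : ℕ} (j : Fin (n + 1)) : Set (CP n) := {p | rp p j ≠ 0}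

/-- The coordinates normalised at `j`. -/
def nl {n : ℕ} (j : Fin (n + 1)) (p : CP n) : Fin (n + 1) → ℂ := (rp p j)⁻¹ • rp p

end HW
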