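import Pool.Agent.P.MP_9699e0_gt.W.Defs
import Pool.Agent.P.MP_9699e0_gt.ChB

/-! Homotopy extension for simplices and the Eilenberg deformation of singular simplices. -/

set_option autoImplicit false
set_option linter.unusedSectionVars false

noncomputable section

namespace HW

open HK3 Pool.Agent.P.MP_9699e0_gt Set Filter Topology

variable {Z : Type} [TopologicalSpace Z] {A : Set Z} {n : ℕ}

namespace REil

variable {k : ℕ}

/-- The inclusion of a face. -/
abbrev fc (i : Fin (k + 2)) : Dl k → Dl (k + 1) := stdSimplex.map i.succAbove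

theorem fc_self (i : Fin (k + 2)) (t : Dl k) : fc i t i = 0 := by
  rw [stdSimplex.map_coe, FunOnFinite.linearMap_apply_apply]
  exact Finset.sum_eq_zero fun j hj =>
    absurd (Finset.mem_filter.1 hj).2 (Fin.succAbove_ne i j)

theorem fc_succ (i : Fin (k + 2)) (t : Dl k) (j : Fin (k + 1)) :
    fc i t (i.succAbove j) = t j := by
  rw [stdSimplex.map_coe, FunOnFinite.linearMap_apply_apply]
  have : Finset.univ.filter (fun x => i.succAbove x = i.succAbove j) = {j} := by
    ext x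
    simp
  rw [this, Finset.sum_singleton]

theorem fc_inj (i : Fin (k + 2)) : Function.Injective (fc i) := fun t u h =>
  stdSimplex.ext (funext fun j => by rw [← fc_succ i t j, h, fc_succ])

theorem exists_fc {i : Fin (k + 2)} {t : Dl (k + 1)} (h : t i = 0) : ∃ u, fc i u = t := by
  have h1 := stdSimplex.sum_eq_one t
  rw [Fin.sum_univ_succAbove _ i, h, zero_add] at h1
  refine ⟨⟨fun j => t (i.succAbove j), fun j => stdSimplex.zero_le t _, h1⟩,
    stdSimplex.ext (funext fun j => ?_)⟩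
  rcases Fin.eq_self_or_eq_succAbove i j with rfl | ⟨j, rfl⟩
  · rw [fc_self, h]
  · rw [fc_succ]
    rfl

theorem fc_fc (i : Fin (k + 3)) (a : Fin (k + 2)) (w : Dl k) :
    fc (i.succAbove a) (fc (a.predAbove i) w) = fc i (fc a w) := by
  refine (stdSimplex.map_comp_apply _ _ _).trans
    (Eq.trans ?_ (stdSimplex.map_comp_apply _ _ _).symm)
  exact congrArg (fun v => stdSimplex.map v w)
    (funext fun j => Fin.succAbove_succAbove_succAbove_predAbove i a j)

theorem fc_emb (i : Fin (k + 2)) : IsClosedEmbedding (fc i) :=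
  (stdSimplex.continuous_map _).isClosedEmbedding (fc_inj i)

/-- The smallest coordinate. -/
def mn (t : Dl k) : ℝ := Finset.univ.inf' Finset.univ_nonempty t

theorem mn_le (t : Dl k) (i : Fin (k + 1)) : mn t ≤ t i := Finset.inf'_le _ (Finset.mem_univ i)

theorem mn_eq (t : Dl k) : ∃ i, mn t = t i :=
  (Finset.exists_mem_eq_inf' Finset.univ_nonempty t).imp fun _ h => h.2

theorem mn_nonneg (t : Dl k) : 0 ≤ mn t := by
  obtain ⟨i, hi⟩ := mn_eq t
  exact hi ▸ stdSimplex.zero_le t i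

theorem cont_coord (i : Fin (k + 1)) : Continuous fun t : Dl k => t i :=
  (continuous_apply i).comp continuous_subtype_val

theorem cont_mn : Continuous (mn : Dl k → ℝ) :=
  Continuous.finset_inf'_apply Finset.univ_nonempty fun i _ => cont_coord i

/-- The factor of the radial projection. -/
def lam (s : ℝ) (t : Dl k) : ℝ :=
  (1 + max s 0) / max 1 ((1 + max s 0) * (1 - (k + 1) * mn t))

theorem den_pos (x : ℝ) : 0 < max 1 x := lt_max_of_lt_left one_pos

theorem lam_nonneg (s : ℝ) (t : Dl k) : 0 ≤ lam s t :=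
  div_nonneg (by positivity) (den_pos _).le

theorem lam_mul (s : ℝ) (t : Dl k) : lam s t * (1 - (k + 1) * mn t) ≤ 1 := by
  rw [lam, div_mul_eq_mul_div, div_le_one (den_pos _)]
  exact le_max_right _ _

theorem cont_lam : Continuous fun p : ℝ × Dl k => lam p.1 p.2 := by
  have := cont_mn (k := k)
  exact Continuous.div (by fun_prop) (by fun_prop) fun p => (den_pos _).ne'

/-- The radial projection. -/
def rd (s : ℝ) (t : Dl k) : Dl k :=
  ⟨fun i => (1 - lam s t * (1 - (k + 1) * t i)) / (k + 1), fun i => by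
    refine div_nonneg (sub_nonneg.2 (le_trans ?_ (lam_mul s t))) (by positivity)
    refine mul_le_mul_of_nonneg_left ?_ (lam_nonneg s t)
    have := mn_le t i
    gcongr, by
    rw [← Finset.sum_div, Finset.sum_sub_distrib, ← Finset.mul_sum, Finset.sum_sub_distrib,
      ← Finset.mul_sum, stdSimplex.sum_eq_one]
    simp
    positivity⟩

theorem rd_apply (s : ℝ) (t : Dl k) (i : Fin (k + 1)) :
    rd s t i = (1 - lam s t * (1 - (k + 1) * t i)) / (k + 1) := rfl

theorem cont_rd : Continuous fun p : ℝ × Dl k => rd p.1 p.2 := by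
  refine Continuous.subtype_mk (continuous_pi fun i => ?_) _
  have h1 := cont_lam (k := k)
  have h2 := (cont_coord i).comp (continuous_snd (X := ℝ))
  exact (continuous_const.sub (h1.mul (continuous_const.sub
    (continuous_const.mul h2)))).div_const _

theorem rd_of_one {s : ℝ} {t : Dl k} (h : lam s t = 1) : rd s t = t :=
  stdSimplex.ext (funext fun i => by
    rw [rd_apply, h]
    field_simp
    ring)

theorem lam_zero (t : Dl k) : lam 0 t = 1 := by
  have h1 := mn_nonneg t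
  have h2 : (0 : ℝ) ≤ (k + 1) * mn t := by positivity
  rw [lam, max_self, add_zero, one_mul, max_eq_left (by linarith), div_one]

theorem lam_bdy (s : ℝ) {t : Dl k} {i : Fin (k + 1)} (h : t i = 0) : lam s t = 1 := by
  have h1 : mn t = 0 := le_antisymm (h ▸ mn_le t i) (mn_nonneg t)
  have h2 := le_max_right s 0
  rw [lam, h1, mul_zero, sub_zero, mul_one, max_eq_right (a := 1) (by linarith),
    div_self (by linarith)]

theorem rd_cases (s : ℝ) (t : Dl k) : 1 + max s 0 - lam s t = 0 ∨ ∃ i, rd s t i = 0 := by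
  rcases le_total ((1 + max s 0) * (1 - (k + 1) * mn t)) 1 with h | h
  · left
    rw [lam, max_eq_left h, div_one, sub_self]
  · right
    obtain ⟨i, hi⟩ := mn_eq t
    refine ⟨i, ?_⟩
    rw [rd_apply, ← hi, lam, max_eq_right h, div_mul_eq_mul_div, div_self (by linarith), sub_self,
      zero_div]

theorem hep' (σ : Simp Z (k + 1)) (g : Fin (k + 2) → ℝ → Dl k → Z)
    (hg : ∀ i, Continuous fun p : ℝ × Dl k => g i p.1 p.2)
    (h0 : ∀ i t, g i 0 t = σ (fc i t))
    (hc : ∀ i j s t u, 0 ≤ s → fc i t = fc j u → g i s t = g j s u) :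
    ∃ H : ℝ → Dl (k + 1) → Z, Continuous (fun p : ℝ × Dl (k + 1) => H p.1 p.2) ∧
      (∀ t, H 0 t = σ t) ∧ ∀ i s t, 0 ≤ s → H s (fc i t) = g i s t := by
  classical
  let Φ : ℝ × Dl (k + 1) → Z := fun p =>
    if h : ∃ q : Fin (k + 2) × Dl k, fc q.1 q.2 = p.2 then g h.choose.1 (max p.1 0) h.choose.2
    else σ p.2
  have hΦ : ∀ i s t, Φ (s, fc i t) = g i (max s 0) t := fun i s t => by
    have h : ∃ q : Fin (k + 2) × Dl k, fc q.1 q.2 = fc i t := ⟨(i, t), rfl⟩
    exact (dif_pos h).trans (hc _ _ _ _ _ (le_max_right _ _) h.choose_spec)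
  have hΦ0 : ∀ t, Φ (0, t) = σ t := fun t => by
    by_cases h : ∃ q : Fin (k + 2) × Dl k, fc q.1 q.2 = t
    · obtain ⟨q, rfl⟩ := h
      rw [hΦ, max_self, h0]
    · exact dif_neg h
  have c1 : ∀ i, ContinuousOn Φ (Prod.map id (fc i) '' univ) := fun i => by
    rw [(IsInducing.id.prodMap (fc_emb i).isInducing).continuousOn_image_iff]
    have : Φ ∘ Prod.map id (fc i) = fun p => g i (max p.1 0) p.2 := funext fun p => hΦ i p.1 p.2
    rw [this]
    exact ((hg i).comp (f := fun p : ℝ × Dl k => (max p.1 0, p.2)) (by fun_prop)).continuousOn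
  have c2 : ∀ i : Fin (k + 2), IsClosed (Prod.map (id : ℝ → ℝ) (fc i) '' univ) := fun i => by
    rw [image_univ, range_prodMap]
    exact (range_id ▸ isClosed_univ).prod (fc_emb i).isClosed_range
  have c3 : ContinuousOn Φ {p | p.1 = 0} :=
    (σ.continuous.comp continuous_snd).continuousOn.congr fun p hp => by
      obtain ⟨s, t⟩ := p
      obtain rfl : s = 0 := hp
      exact hΦ0 t
  have c4 := c3.union_of_isClosed ((locallyFinite_of_finite _).continuousOn_iUnion c2 c1)
    (isClosed_eq continuous_fst continuous_const) (isClosed_iUnion_of_finite c2)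
  refine ⟨fun s t => Φ (1 + max s 0 - lam s t, rd s t), ?_, fun t => ?_, fun i s t hs => ?_⟩
  · refine c4.comp_continuous (f := fun p : ℝ × Dl (k + 1) =>
      (1 + max p.1 0 - lam p.1 p.2, rd p.1 p.2))
      ((Continuous.sub (by fun_prop) cont_lam).prodMk cont_rd) fun p => ?_
    rcases rd_cases p.1 p.2 with h | ⟨i, h⟩
    · exact Or.inl h
    · obtain ⟨u, hu⟩ := exists_fc h
      exact Or.inr (mem_iUnion.2 ⟨i, (_, u), mem_univ _, Prod.ext rfl hu⟩)
  · simp only [rd_of_one (lam_zero t), lam_zero, max_self, add_zero, sub_self, hΦ0]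
  · have h := lam_bdy s (fc_self i t)
    simp only [rd_of_one h, h, hΦ, add_sub_cancel_left, max_eq_left hs]

/-- The number of nonzero coordinates. -/
def nz (t : Dl k) : ℕ := ∑ i, if t i = 0 then 0 else 1

theorem nz_fc (i : Fin (k + 2)) (t : Dl k) : nz (fc i t) = nz t := by
  rw [nz, Fin.sum_univ_succAbove _ i, if_pos (fc_self i t), zero_add]
  simp only [fc_succ, nz]

theorem sum_ite_le {m : ℕ} (P : Fin m → Prop) [DecidablePred P] :
    ∑ i, (if P i then 0 else 1) ≤ m :=
  (Finset.sum_le_card_nsmul _ _ 1 fun i _ => by split_ifs <;> simp).trans (by simp)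

theorem nz_le (t : Dl k) : nz t ≤ k + 1 := sum_ite_le _

theorem nz_le_of_zero {t : Dl k} {i : Fin (k + 1)} (h : t i = 0) : nz t ≤ k := by
  rw [nz, Fin.sum_univ_succAbove _ i, if_pos h, zero_add]
  exact sum_ite_le _

theorem exists_zero {t : Dl k} (h : nz t ≤ k) : ∃ i, t i = 0 := by
  by_contra h1
  push Not at h1
  simp [nz, h1] at h

/-- The points with at most `n` nonzero coordinates go to `A`. -/
def Good (A : Set Z) (n : ℕ) (f : Dl k → Z) : Prop := ∀ t, nz t ≤ n → f t ∈ A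

theorem cmp (h : ∀ k < n, Cmp A k) (τ : Simp Z k)
    (hτ : ∀ t : Dl k, (∃ i, t i = 0) → nz t ≤ n → τ t ∈ A) :
    ∃ K : ℝ → Dl k → Z, Continuous (fun p : ℝ × Dl k => K p.1 p.2) ∧ (∀ t, K 0 t = τ t) ∧
      (∀ s t, (∃ i, t i = 0) → K s t = τ t) ∧ Good A n (K 1) := by
  rcases lt_or_ge k n with hk | hk
  · obtain ⟨K, h1, h2, h3, h4⟩ := h k hk τ fun t ht => hτ t ht ((nz_le t).trans hk)
    exact ⟨K, h1, h2, h3, fun t _ => h4 t⟩
  · exact ⟨fun _ t => τ t, τ.continuous.comp continuous_snd, fun _ => rfl, fun _ _ _ => rfl,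
      fun t ht => hτ t (exists_zero (ht.trans hk)) ht⟩

/-- A deformation of `σ` that ends at the time `T`. -/
structure One (A : Set Z) (n : ℕ) (T : ℝ) (σ : Simp Z k) (H : ℝ → Dl k → Z) : Prop where
  cont : Continuous fun p : ℝ × Dl k => H p.1 p.2
  zero : ∀ t, H 0 t = σ t
  const : Good A n σ → ∀ s t, H s t = σ t
  stat : ∀ s, T ≤ s → ∀ t, H s t = H T t
  good : Good A n (H T)

theorem One.of_good {T : ℝ} {σ : Simp Z k} (h : Good A n σ) : One A n T σ fun _ t => σ t :=
  ⟨σ.continuous.comp continuous_snd, fun _ => rfl, fun _ _ _ => rfl, fun _ _ _ => rfl, h⟩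

/-- The deformations of two faces agree on the intersection. -/
def HC (D : Simp Z k → ℝ → Dl k → Z) : Prop :=
  ∀ (σ : Simp Z (k + 1)) (i j : Fin (k + 2)) s t u, 0 ≤ s → fc i t = fc j u →
    D (sub σ i.succAbove) s t = D (sub σ j.succAbove) s u

/-- The deformations are compatible with faces. -/
def Cp (D : Simp Z k → ℝ → Dl k → Z) (D' : Simp Z (k + 1) → ℝ → Dl (k + 1) → Z) : Prop :=
  ∀ σ (i : Fin (k + 2)) s t, 0 ≤ s → D' σ s (fc i t) = D (sub σ i.succAbove) s t

theorem Cp.hc {D : Simp Z k → ℝ → Dl k → Z} {D' : Simp Z (k + 1) → ℝ → Dl (k + 1) → Z}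
    (h : Cp D D') : HC D' := by
  intro σ i j s t u hs e
  rcases Fin.eq_self_or_eq_succAbove i j with rfl | ⟨a, rfl⟩
  · rw [fc_inj _ e]
  · have h1 : t a = 0 := by rw [← fc_succ i t a, e, fc_self]
    obtain ⟨w, rfl⟩ := exists_fc h1
    obtain rfl := fc_inj _ ((fc_fc i a w).trans e)
    rw [h _ _ _ _ hs, h _ _ _ _ hs, HK3.sub_sub, HK3.sub_sub]
    exact congrArg (fun v => D (sub σ v) s w)
      (funext fun j => (Fin.succAbove_succAbove_succAbove_predAbove i a j).symm)

theorem base (h : ∀ k < n, Cmp A k) :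
    ∃ D : Simp Z 0 → ℝ → Dl 0 → Z, (∀ σ, One A n 1 σ (D σ)) ∧ HC D := by
  have h0 : ∀ (t : Dl 0) i, t i = 1 := fun t i =>
    stdSimplex.eq_one_of_unique (X := Fin 1) t i
  have h1 : ∀ σ : Simp Z 0, ∃ H, One A n 1 σ H := fun σ => by
    by_cases hσ : Good A n σ
    · exact ⟨_, .of_good hσ⟩
    obtain ⟨K, k1, k2, -, k4⟩ := cmp h σ fun t ⟨i, hi⟩ =>
      absurd ((h0 t i).symm.trans hi) one_ne_zero
    refine ⟨fun s => K (min s 1), k1.comp (f := fun p : ℝ × Dl 0 => (min p.1 1, p.2))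
      (by fun_prop), fun t => ?_, fun h => absurd h hσ, fun s hs t => ?_, ?_⟩
    · rw [min_eq_left zero_le_one, k2]
    · rw [min_eq_right hs, min_self]
    · rwa [min_self]
  choose D hD using h1
  refine ⟨D, hD, fun σ i j s t u _ e => ?_⟩
  rcases Fin.eq_self_or_eq_succAbove i j with rfl | ⟨a, rfl⟩
  · rw [fc_inj _ e]
  · have h1 : t a = 0 := by rw [← fc_succ i t a, e, fc_self]
    exact absurd ((h0 t a).symm.trans h1) one_ne_zero

theorem step (h : ∀ k < n, Cmp A k) {T : ℝ} (hT : 0 ≤ T) {D : Simp Z k → ℝ → Dl k → Z}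
    (hD : ∀ σ, One A n T σ (D σ)) (hc : HC D) :
    ∃ D' : Simp Z (k + 1) → ℝ → Dl (k + 1) → Z, (∀ σ, One A n (T + 1) σ (D' σ)) ∧ Cp D D' := by
  have h1 : ∀ σ : Simp Z (k + 1), ∃ H, One A n (T + 1) σ H ∧
      ∀ (i : Fin (k + 2)) s t, 0 ≤ s → H s (fc i t) = D (sub σ i.succAbove) s t := fun σ => by
    by_cases hσ : Good A n σ
    · exact ⟨_, .of_good hσ, fun i s t _ =>
        ((hD (sub σ i.succAbove)).const
          (fun u hu => hσ (fc i u) ((nz_fc i u).trans_le hu)) s t).symm⟩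
    obtain ⟨H, e1, e2, e3⟩ := hep' σ (fun i => D (sub σ i.succAbove)) (fun i => (hD _).cont)
      (fun i t => (hD _).zero t) (hc σ)
    obtain ⟨K, k1, k2, k3, k4⟩ := cmp h
      ⟨H T, e1.comp (f := fun t : Dl (k + 1) => (T, t)) (by fun_prop)⟩ fun t ⟨i, hi⟩ ht => by
        obtain ⟨u, rfl⟩ := exists_fc hi
        change H T (fc i u) ∈ A
        rw [e3 i T u hT]
        exact (hD _).good u ((nz_fc i u).symm.trans_le ht)
    refine ⟨fun s t => if s ≤ T then H s t else K (min (s - T) 1) t, ⟨?_, fun t => ?_,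
      fun h => absurd h hσ, fun s hs t => ?_, fun t ht => ?_⟩, fun i s t hs => ?_⟩
    · refine Continuous.if_le e1 (k1.comp
        (f := fun p : ℝ × Dl (k + 1) => (min (p.1 - T) 1, p.2)) (by fun_prop)) continuous_fst
        continuous_const fun p hp => ?_
      rw [hp, sub_self, min_eq_left zero_le_one, k2]
      rfl
    · rw [if_pos hT, e2]
    · rw [if_neg (by linarith), if_neg (by linarith), min_eq_right (by linarith),
        min_eq_right (by linarith)]
    · rw [if_neg (by linarith), min_eq_right (by linarith)]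
      exact k4 t ht
    · beta_reduce
      split_ifs with hs'
      · exact e3 i s t hs
      · rw [k3 _ _ ⟨i, fc_self i t⟩, (hD _).stat s (not_le.1 hs').le]
        exact e3 i T t hT
  choose D' h2 h3 using h1
  exact ⟨D', h2, h3⟩

theorem level (h : ∀ k < n, Cmp A k) (k : ℕ) :
    ∃ (T : ℝ) (D : Simp Z k → ℝ → Dl k → Z), 0 ≤ T ∧ (∀ σ, One A n T σ (D σ)) ∧ HC D := by
  induction k with
  | zero => exact (base h).elim fun D hD => ⟨1, D, zero_le_one, hD⟩
  | succ k ih =>
    obtain ⟨T, D, hT, hD, hc⟩ := ih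
    obtain ⟨D', h1, h2⟩ := step h hT hD hc
    exact ⟨T + 1, D', by linarith, h1, h2.hc⟩

end REil

theorem hep (σ : Simp Z (n + 1)) (g : Fin (n + 2) → ℝ → Dl n → Z)
    (hg : ∀ i, Continuous fun p : ℝ × Dl n => g i p.1 p.2)
    (h0 : ∀ i t, g i 0 t = σ (stdSimplex.map i.succAbove t))
    (hc : ∀ i j s t u, stdSimplex.map i.succAbove t = stdSimplex.map j.succAbove u →
      g i s t = g j s u) :
    ∃ H : ℝ → Dl (n + 1) → Z, Continuous (fun p : ℝ × Dl (n + 1) => H p.1 p.2) ∧
      (∀ t, H 0 t = σ t) ∧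
      ∀ i, ∀ s ∈ Icc (0 : ℝ) 1, ∀ t, H s (stdSimplex.map i.succAbove t) = g i s t := by
  obtain ⟨H, h1, h2, h3⟩ := REil.hep' σ g hg h0 fun i j s t u _ => hc i j s t u
  exact ⟨H, h1, h2, fun i s hs t => h3 i s t hs.1⟩

theorem exists_eil (h : ∀ k < n, Cmp A k) :
    ∃ (e : Simp Z n → Simp Z n) (e' : Simp Z (n + 1) → Simp Z (n + 1)),
      (∀ σ (i : Fin (n + 2)), sub (e' σ) i.succAbove = e (sub σ i.succAbove)) ∧
      (∀ σ, Bdy A σ → e σ = σ) ∧ ∀ σ, Sk2 A (e' σ) := by
  obtain ⟨T, D, hT, hD, hc⟩ := REil.level h n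
  obtain ⟨D', h1, h2⟩ := REil.step h hT hD hc
  refine ⟨fun σ => ⟨D σ (T + 1), (hD σ).cont.comp (f := fun t : Dl n => (T + 1, t)) (by fun_prop)⟩,
    fun σ => ⟨D' σ (T + 1), (h1 σ).cont.comp (f := fun t : Dl (n + 1) => (T + 1, t))
      (by fun_prop)⟩, fun σ i => ContinuousMap.ext fun t => h2 σ i _ t (by linarith),
    fun σ hσ => ContinuousMap.ext fun t =>
      (hD σ).const (fun u hu => hσ u (REil.exists_zero hu)) _ t, ?_⟩
  rintro σ t ⟨i, j, hij, hi, hj⟩
  refine (h1 σ).good t ?_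
  obtain ⟨u, rfl⟩ := REil.exists_fc hi
  obtain ⟨a, rfl⟩ := Fin.exists_succAbove_eq hij.symm
  rw [REil.fc_succ] at hj
  rw [REil.nz_fc]
  exact REil.nz_le_of_zero hj

end HW
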