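import Pool.Agent.P.MP_9699e0_gt.W.Hure

/-! Deformations with compact support; deformation near one cube. -/

set_option autoImplicit false
set_option linter.unusedSectionVars false

noncomputable section

namespace HW

open HK3 Pool.Agent.P.MP_9699e0_gt Set Filter Topology

variable {Z : Type} [TopologicalSpace Z] {A : Set Z} {n : ℕ}

namespace RHand

open Classical in
theorem glue {α : Type} [TopologicalSpace α] {s K K' : Set α} {f g : α → Z} (hK : IsClosed K)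
    (hK' : IsClosed K') (hc : ∀ x, x ∉ K → x ∈ K') (hf : ContinuousOn f (s ∩ K))
    (hg : ContinuousOn g (s ∩ K')) (h : ∀ x ∈ s, x ∈ K → x ∈ K' → f x = g x) :
    ContinuousOn (fun x => if x ∈ K then f x else g x) s := by
  have h1 : closure {a | a ∈ K} ⊆ K := closure_minimal (fun _ h => h) hK
  have h2 : closure {a | ¬a ∈ K} ⊆ K' := closure_minimal hc hK'
  refine ContinuousOn.if ?_ (hf.mono (inter_subset_inter_right _ h1))
    (hg.mono (inter_subset_inter_right _ h2))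
  rintro x ⟨hx, hx'⟩
  rw [frontier_eq_closure_inter_closure] at hx'
  exact h x hx (h1 hx'.1) (h2 hx'.2)

theorem cut {a b : ℝ} (h : a < b) : ∃ φ : ℝ → ℝ, Continuous φ ∧ (∀ t, 0 ≤ φ t ∧ φ t ≤ 1) ∧
    (∀ t, t ≤ a → φ t = 1) ∧ ∀ t, b ≤ t → φ t = 0 := by
  have h0 : 0 < b - a := sub_pos.2 h
  refine ⟨fun t => max 0 (min 1 ((b - t) / (b - a))), by fun_prop, fun t => ⟨le_max_left _ _,
    max_le zero_le_one (min_le_left _ _)⟩, fun t ht => ?_, fun t ht => ?_⟩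
  · have : 1 ≤ (b - t) / (b - a) := (one_le_div h0).2 (by linarith)
    simp only [min_eq_left this, max_eq_right zero_le_one]
  · have : (b - t) / (b - a) ≤ 0 := div_nonpos_of_nonpos_of_nonneg (by linarith) h0.le
    exact max_eq_left ((min_le_right _ _).trans this)

end RHand

theorem Df.refl {M : Type} [TopologicalSpace M] {V : Set M} {f : M → Z} (hf : ContinuousOn f V) :
    Df V f f :=
  ⟨fun _ => f, ∅, isCompact_empty, empty_subset _,
    hf.comp continuous_snd.continuousOn fun _ h => h.2, rfl, rfl, fun _ _ _ => rfl⟩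

theorem Df.trans {M : Type} [TopologicalSpace M] {V : Set M} {f g k : M → Z} (h : Df V f g)
    (h' : Df V g k) : Df V f k := by
  classical
  obtain ⟨H, L, hL, hLV, hH, h0, h1, hx⟩ := h
  obtain ⟨H', L', hL', hLV', hH', h0', h1', hx'⟩ := h'
  refine ⟨fun s x => if (s, x) ∈ {p : ℝ × M | p.1 ≤ 1 / 2} then H (2 * s) x else H' (2 * s - 1) x,
    L ∪ L', hL.union hL', union_subset hLV hLV', ?_, ?_, ?_, ?_⟩
  · refine RHand.glue (K' := {p : ℝ × M | 1 / 2 ≤ p.1})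
      (isClosed_le continuous_fst continuous_const) (isClosed_le continuous_const continuous_fst)
      (fun x hx => (le_total x.1 (1 / 2)).resolve_left hx) ?_ ?_ ?_
    · exact hH.comp (f := fun p : ℝ × M => (2 * p.1, p.2)) (by fun_prop)
        fun p hp => ⟨mem_univ _, hp.1.2⟩
    · exact hH'.comp (f := fun p : ℝ × M => (2 * p.1 - 1, p.2)) (by fun_prop)
        fun p hp => ⟨mem_univ _, hp.1.2⟩
    · intro p _ ha hb
      have e : p.1 = 1 / 2 := le_antisymm ha hb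
      rw [e]
      norm_num [h1, h0']
  · funext x
    norm_num [h0]
  · funext x
    norm_num [h1']
  · intro s x hxL
    rw [mem_union, not_or] at hxL
    dsimp only
    split_ifs
    · exact hx _ x hxL.1
    · rw [hx' _ x hxL.2, ← h1, hx _ x hxL.1]

theorem Df.cont {M : Type} [TopologicalSpace M] {V : Set M} {f g : M → Z} (h : Df V f g) :
    ContinuousOn g V := by
  obtain ⟨H, L, -, -, hH, -, h1, -⟩ := h
  rw [← h1]
  exact hH.comp (f := fun x : M => ((1 : ℝ), x)) (by fun_prop) fun x hx => ⟨mem_univ _, hx⟩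

namespace RHand

theorem radii {k : ℕ} {W O : Set (Eu n)} (hW : IsOpen W) (hO : IsOpen O) {J : Eu k → Eu n}
    (cJ : Continuous J) {r : ℝ} (hr : 0 < r) (h1 : ∀ u, ‖u‖ < r → J u ∈ W)
    (h2 : ∀ u, ‖u‖ = r → J u ∈ O) :
    ∃ r₁ r₂ η : ℝ, 0 < r₁ ∧ r₁ < r₂ ∧ 0 < η ∧ (∀ u, r₁ ≤ ‖u‖ → ‖u‖ ≤ r → J u ∈ O) ∧
      (∀ u x, ‖u‖ ≤ r₂ → ‖x - J u‖ ≤ 3 * η → x ∈ W) ∧
      ∀ u x, r₁ ≤ ‖u‖ → ‖u‖ ≤ r₂ → ‖x - J u‖ ≤ 3 * η → x ∈ O := by
  have hC : IsCompact (Metric.closedBall (0 : Eu k) r \ J ⁻¹' O) :=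
    (isCompact_closedBall _ _).diff (hO.preimage cJ)
  obtain ⟨ε, hε, hε'⟩ := hC.exists_forall_le' (f := fun u => r - ‖u‖) (a := 0) (by fun_prop)
    (fun u hu => by
      have h3 : ‖u‖ ≤ r := mem_closedBall_zero_iff.1 hu.1
      exact sub_pos.2 (lt_of_le_of_ne h3 fun e => hu.2 (h2 u e)))
  set r₁ := max (r - ε / 2) (r / 2) with hr₁
  have a1 : r - ε / 2 ≤ r₁ := le_max_left _ _
  have a2 : r / 2 ≤ r₁ := le_max_right _ _
  have a3 : r₁ < r := max_lt (by linarith) (by linarith)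
  have a4 : ∀ u, r₁ ≤ ‖u‖ → ‖u‖ ≤ r → J u ∈ O := by
    intro u hu hu'
    by_contra hn
    have := hε' u ⟨mem_closedBall_zero_iff.2 hu', hn⟩
    linarith
  have c1 : IsCompact (J '' Metric.closedBall (0 : Eu k) ((r₁ + r) / 2)) :=
    (isCompact_closedBall _ _).image cJ
  have c2 : IsCompact (J '' (Metric.closedBall (0 : Eu k) ((r₁ + r) / 2) \ Metric.ball 0 r₁)) :=
    ((isCompact_closedBall _ _).diff Metric.isOpen_ball).image cJ
  obtain ⟨δ₁, d1, e1⟩ := c1.exists_cthickening_subset_open hW (by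
    rintro _ ⟨u, hu, rfl⟩
    have := mem_closedBall_zero_iff.1 hu
    exact h1 u (by linarith))
  obtain ⟨δ₂, d2, e2⟩ := c2.exists_cthickening_subset_open hO (by
    rintro _ ⟨u, hu, rfl⟩
    have := mem_closedBall_zero_iff.1 hu.1
    exact a4 u (not_lt.1 fun h => hu.2 (mem_ball_zero_iff.2 h)) (by linarith))
  have m1 := min_le_left δ₁ δ₂
  have m2 := min_le_right δ₁ δ₂
  have m3 := lt_min d1 d2
  refine ⟨r₁, (r₁ + r) / 2, min δ₁ δ₂ / 3, by linarith, by linarith, by linarith, a4, ?_, ?_⟩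
  · intro u x hu hx
    refine e1 (Metric.mem_cthickening_of_dist_le x (J u) _ _
      ⟨u, mem_closedBall_zero_iff.2 hu, rfl⟩ ?_)
    rw [dist_eq_norm]
    linarith
  · intro u x hu' hu hx
    refine e2 (Metric.mem_cthickening_of_dist_le x (J u) _ _
      ⟨u, ⟨mem_closedBall_zero_iff.2 hu, fun h => not_lt.2 hu' (mem_ball_zero_iff.1 h)⟩, rfl⟩ ?_)
    rw [dist_eq_norm]
    linarith

theorem disc {k : ℕ} (hc : Con A k) {V : Set (Eu n)} {f : Eu n → Z} (hf : ContinuousOn f V)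
    {J : Eu k → Eu n} (cJ : Continuous J) {r : ℝ} (hr : 0 < r) (h0 : ∀ u, ‖u‖ ≤ r → J u ∈ V)
    (h2 : ∀ u, ‖u‖ = r → f (J u) ∈ A) :
    ∃ G : ℝ → Eu k → Z, Continuous (fun p : ℝ × Eu k => G p.1 p.2) ∧
      (∀ u, ‖u‖ ≤ r → G 0 u = f (J u)) ∧ (∀ s u, ‖u‖ = r → G s u = f (J u)) ∧ ∀ u, G 1 u ∈ A := by
  have hm : ∀ u : Eu k, 0 < max 1 ‖u‖ := fun u => lt_max_of_lt_left one_pos
  have hn : ∀ u : Eu k, ‖(r / max 1 ‖u‖) • u‖ = r * (‖u‖ / max 1 ‖u‖) := fun u => by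
    rw [norm_smul, Real.norm_of_nonneg (div_pos hr (hm u)).le]
    ring
  have cρ : Continuous fun u : Eu k => (r / max 1 ‖u‖) • u :=
    (continuous_const.div (by fun_prop) fun u => (hm u).ne').smul continuous_id
  have cg : Continuous fun u : Eu k => f (J ((r / max 1 ‖u‖) • u)) := by
    refine hf.comp_continuous (cJ.comp cρ) fun u => h0 _ ?_
    rw [hn]
    exact mul_le_of_le_one_right hr.le ((div_le_one (hm u)).2 (le_max_right _ _))
  have hA : ∀ u : Eu k, 1 ≤ ‖u‖ → f (J ((r / max 1 ‖u‖) • u)) ∈ A := fun u hu => by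
    refine h2 _ ?_
    rw [hn, max_eq_right hu, div_self (by linarith), mul_one]
  obtain ⟨G, cG, G0, Gs, G1⟩ := (hc _ ⟨cg, 1, hA⟩).compress hA
  have hs : ∀ u : Eu k, ‖r⁻¹ • u‖ = ‖u‖ / r := fun u => by
    rw [norm_smul, Real.norm_of_nonneg (inv_pos.2 hr).le]
    ring
  have he : ∀ u : Eu k, ‖u‖ ≤ r → (r / max 1 ‖r⁻¹ • u‖) • r⁻¹ • u = u := fun u hu => by
    rw [hs, max_eq_left ((div_le_one hr).2 hu), div_one, smul_smul, mul_inv_cancel₀ hr.ne',
      one_smul]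
  refine ⟨fun s u => G s (r⁻¹ • u),
    cG.comp (f := fun p : ℝ × Eu k => (p.1, r⁻¹ • p.2)) (by fun_prop), fun u hu => ?_,
    fun s u hu => ?_, fun u => G1 _⟩
  · simp only [G0, he u hu]
  · dsimp only
    rw [Gs s _ (by rw [hs, hu, div_self hr.ne']), he u hu.le]

theorem core {k : ℕ} (hc : Con A k) {V W : Set (Eu n)} (hV : IsOpen V) (hW : IsOpen W)
    (hWV : W ⊆ V) {f : Eu n → Z} (hf : ContinuousOn f V) {p : Eu n → Eu k} {J : Eu k → Eu n}
    (cp : Continuous p) (cJ : Continuous J)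
    (hp : ∀ u x (t : ℝ), p (J u + t • (x - J (p x))) = u) {r : ℝ} (hr : 0 < r)
    (h0 : ∀ u, ‖u‖ ≤ r → J u ∈ V) (h1 : ∀ u, ‖u‖ < r → J u ∈ W)
    (h2 : ∀ u, ‖u‖ = r → ∀ᶠ y in 𝓝 (J u), f y ∈ A) :
    ∃ g T, IsClosed T ∧ T ⊆ W ∧ Df V f g ∧ (∀ x ∉ T, g x = f x) ∧
      ∀ u, ‖u‖ ≤ r → ∀ᶠ y in 𝓝 (J u), g y ∈ A := by
  classical
  have hO : IsOpen (interior (f ⁻¹' A) ∩ V) := isOpen_interior.inter hV
  obtain ⟨r₁, r₂, η, p1, p2, p3, q1, q2, q3⟩ := radii hW hO cJ hr h1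
    fun u hu => ⟨mem_interior_iff_mem_nhds.2 (h2 u hu), h0 u hu.le⟩
  have hA : ∀ x ∈ interior (f ⁻¹' A) ∩ V, f x ∈ A := fun x hx =>
    interior_subset (s := f ⁻¹' A) hx.1
  have hJ : ∀ u, ‖J u - J u‖ ≤ 3 * η := fun u => by
    rw [sub_self, norm_zero]
    linarith
  obtain ⟨G, cG, G0, Gs, G1⟩ := disc hc hf cJ p1
    (fun u hu => hWV (q2 u _ (by linarith) (hJ u)))
    fun u hu => hA _ (q3 u _ hu.ge (by linarith) (hJ u))
  obtain ⟨c, cc, c0, c1, c2⟩ := cut (zero_lt_one' ℝ)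
  obtain ⟨α, cα, α0, α1, α2⟩ := cut p2
  obtain ⟨β, cβ, β0, β1, β2⟩ := cut (show 2 * η < 3 * η by linarith)
  obtain ⟨γ, cγ, γ0, γ1, γ2⟩ := cut (show η < 2 * η by linarith)
  obtain ⟨q, hq⟩ : ∃ q : Eu n → ℝ, q = fun x => ‖x - J (p x)‖ := ⟨_, rfl⟩
  have cq : Continuous q := by
    rw [hq]
    fun_prop
  obtain ⟨μ, hμ⟩ : ∃ μ : ℝ → Eu n → ℝ, μ = fun s x => 1 - (1 - c s) * (α ‖p x‖ * β (q x)) :=
    ⟨_, rfl⟩
  have μ0 : ∀ s x, 0 ≤ μ s x ∧ μ s x ≤ 1 := fun s x => by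
    have a1 := mul_nonneg (α0 ‖p x‖).1 (β0 (q x)).1
    have a2 := mul_le_one₀ (α0 ‖p x‖).2 (β0 (q x)).1 (β0 (q x)).2
    have a3 := mul_nonneg (sub_nonneg.2 (c0 s).2) a1
    have a4 := mul_le_one₀ (sub_le_self 1 (c0 s).1) a1 a2
    rw [hμ]
    constructor <;> dsimp only <;> linarith
  obtain ⟨Φ, hΦ⟩ : ∃ Φ : ℝ → Eu n → Eu n, Φ = fun s x => J (p x) + μ s x • (x - J (p x)) :=
    ⟨_, rfl⟩
  have cΦ : Continuous fun z : ℝ × Eu n => Φ z.1 z.2 := by
    rw [hΦ, hμ]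
    fun_prop
  have Φq : ∀ s x, ‖Φ s x - J (p x)‖ ≤ q x := fun s x => by
    rw [hΦ, hq]
    dsimp only
    rw [add_sub_cancel_left, norm_smul, Real.norm_of_nonneg (μ0 s x).1]
    exact mul_le_of_le_one_left (norm_nonneg _) (μ0 s x).2
  have Φ1 : ∀ s x, μ s x = 1 → Φ s x = x := fun s x h => by
    rw [hΦ]
    simp only [h, one_smul, add_sub_cancel]
  obtain ⟨T, hT⟩ : ∃ T : Set (Eu n), T = {x | ‖p x‖ ≤ r₂ ∧ q x ≤ 3 * η} := ⟨_, rfl⟩
  obtain ⟨K, hK⟩ : ∃ K : Set (Eu n), K = {x | ‖p x‖ ≤ r₁ ∧ q x ≤ 2 * η} := ⟨_, rfl⟩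
  have mT : ∀ x, x ∈ T ↔ ‖p x‖ ≤ r₂ ∧ q x ≤ 3 * η := fun x => by rw [hT]; rfl
  have mK : ∀ x, x ∈ K ↔ ‖p x‖ ≤ r₁ ∧ q x ≤ 2 * η := fun x => by rw [hK]; rfl
  have clT : IsClosed T := hT ▸
    (isClosed_le cp.norm continuous_const).inter (isClosed_le cq continuous_const)
  have clK : IsClosed K := hK ▸
    (isClosed_le cp.norm continuous_const).inter (isClosed_le cq continuous_const)
  have KT : K ⊆ T := fun x hx =>
    (mT x).2 ⟨by linarith [((mK x).1 hx).1], by linarith [((mK x).1 hx).2]⟩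
  have TW : T ⊆ W := fun x hx => q2 (p x) x ((mT x).1 hx).1 (by simpa [hq] using ((mT x).1 hx).2)
  have cT : IsCompact T := by
    have h3 : IsCompact ((fun z : Eu k × Eu n => J z.1 + z.2) ''
        (Metric.closedBall 0 r₂ ×ˢ Metric.closedBall 0 (3 * η))) :=
      ((isCompact_closedBall _ _).prod (isCompact_closedBall _ _)).image (by fun_prop)
    refine h3.of_isClosed_subset clT fun x hx => ⟨(p x, x - J (p x)), ⟨?_, ?_⟩, by simp⟩
    · exact mem_closedBall_zero_iff.2 ((mT x).1 hx).1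
    · exact mem_closedBall_zero_iff.2 (by simpa [hq] using ((mT x).1 hx).2)
  have Φoff : ∀ s, ∀ x ∉ T, Φ s x = x := fun s x hx => by
    refine Φ1 s x ?_
    rw [mT, not_and_or, not_le, not_le] at hx
    rw [hμ]
    rcases hx with h | h
    · simp [α2 _ h.le]
    · simp [β2 _ h.le]
  have ΦV : ∀ s, ∀ x ∈ V, Φ s x ∈ V := fun s x hx => by
    by_cases h : x ∈ T
    · exact hWV (q2 (p x) _ ((mT x).1 h).1 ((Φq s x).trans ((mT x).1 h).2))
    · rwa [Φoff s x h]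
  have ΦK : ∀ x ∈ K, Φ 1 x = J (p x) := fun x hx => by
    rw [hΦ, hμ]
    simp [c2 1 le_rfl, α1 _ ((mK x).1 hx).1, β1 _ ((mK x).1 hx).2]
  have D1 : Df V f fun x => f (Φ 1 x) := by
    refine ⟨fun s x => f (Φ s x), T, cT, TW.trans hWV,
      hf.comp cΦ.continuousOn fun z hz => ΦV _ _ hz.2, ?_, rfl, fun s x hx => ?_⟩
    · funext x
      dsimp only
      rw [Φ1 0 x (by rw [hμ]; simp [c1 0 le_rfl])]
    · simp only [Φoff s x hx]
  have D2 : Df V (fun x => f (Φ 1 x))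
      fun x => if x ∈ K then G (γ (q x)) (p x) else f (Φ 1 x) := by
    refine ⟨fun s x => if (s, x) ∈ (Prod.snd ⁻¹' K : Set (ℝ × Eu n)) then G (s * γ (q x)) (p x)
      else f (Φ 1 x), T, cT, TW.trans hWV, ?_, ?_, ?_, fun s x hx => ?_⟩
    · refine glue (K' := {z : ℝ × Eu n | r₁ ≤ ‖p z.2‖} ∪ {z | 2 * η ≤ q z.2})
        (clK.preimage continuous_snd)
        ((isClosed_le continuous_const (by fun_prop)).union
          (isClosed_le continuous_const (by fun_prop))) (fun z hz => ?_) ?_ ?_ ?_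
      · rw [mem_preimage, mK, not_and_or, not_le, not_le] at hz
        exact hz.imp le_of_lt le_of_lt
      · exact (cG.comp (f := fun z : ℝ × Eu n => (z.1 * γ (q z.2), p z.2))
          (by fun_prop)).continuousOn
      · exact D1.cont.comp continuous_snd.continuousOn fun z hz => hz.1.2
      · intro z _ hz hz'
        have hz1 := ((mK _).1 hz).1
        rw [ΦK _ hz]
        rcases hz' with h | h
        · exact Gs _ _ (le_antisymm hz1 h)
        · rw [γ2 _ h, mul_zero, G0 _ hz1]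
    · funext x
      dsimp only
      split_ifs with h
      · rw [zero_mul, G0 _ ((mK _).1 h).1, ΦK x h]
      · rfl
    · funext x
      simp only [mem_preimage, one_mul]
    · exact if_neg fun h => hx (KT h)
  have fin : ∀ y, (y ∈ interior (f ⁻¹' A) ∩ V ∨ y ∈ T) → q y ≤ η →
      (if y ∈ K then G (γ (q y)) (p y) else f (Φ 1 y)) ∈ A := by
    intro y hy hy'
    split_ifs with h
    · rw [γ1 _ hy']
      exact G1 _
    · refine hA _ ?_
      by_cases h' : y ∈ T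
      · refine q3 (p y) _ ?_ ((mT y).1 h').1 ((Φq 1 y).trans ((mT y).1 h').2)
        by_contra hn
        exact h ((mK y).2 ⟨(not_le.1 hn).le, by linarith⟩)
      · rw [Φoff 1 y h']
        exact hy.resolve_right h'
  refine ⟨_, T, clT, TW, D1.trans D2, fun x hx => ?_, fun u hu => ?_⟩
  · rw [if_neg fun h => hx (KT h), Φoff 1 x hx]
  · have e1 : p (J u) = u := by simpa using hp u (J u) 0
    have e2 : ∀ᶠ y in 𝓝 (J u), q y < η :=
      cq.continuousAt.eventually_lt continuousAt_const (by simpa [hq, e1] using p3)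
    by_cases h : ‖u‖ < r₂
    · have e3 : ∀ᶠ y in 𝓝 (J u), ‖p y‖ < r₂ :=
        cp.norm.continuousAt.eventually_lt continuousAt_const (by rwa [e1])
      filter_upwards [e2, e3] with y a b
      exact fin y (Or.inr ((mT y).2 ⟨b.le, by linarith⟩)) a.le
    · filter_upwards [e2, hO.mem_nhds (q1 u (by linarith [not_lt.1 h]) hu)] with y a b
      exact fin y (Or.inl b) a.le

end RHand

theorem handle {S : Finset (Fin n)} (hc : Con A S.card) {V B : Set (Eu n)} (hV : IsOpen V)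
    (hB : IsOpen (V \ B)) {f : Eu n → Z} (hf : ContinuousOn f V) {a : Eu n} {r : ℝ} (hr : 0 < r)
    (hs : cell S a r ⊆ V) (hb : cell S a r ∩ B ⊆ cellB S a r) (h1 : Nr A f (B ∩ V))
    (h2 : Nr A f (cellB S a r)) : ∃ g, Df V f g ∧ Nr A g (B ∩ V ∪ cell S a r) := by
  obtain ⟨p, hp⟩ : ∃ p : Eu n → Eu S.card,
    p = fun x i => x (S.equivFin.symm i) - a (S.equivFin.symm i) := ⟨_, rfl⟩
  obtain ⟨J, hJ⟩ : ∃ J : Eu S.card → Eu n,
    J = fun u t => if h : t ∈ S then a t + u (S.equivFin ⟨t, h⟩) else a t := ⟨_, rfl⟩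
  have J1 : ∀ u t (h : t ∈ S), J u t - a t = u (S.equivFin ⟨t, h⟩) := fun u t h => by
    simp [hJ, h]
  have J2 : ∀ u, ∀ t ∉ S, J u t = a t := fun u t h => by simp [hJ, h]
  have cp : Continuous p := by
    rw [hp]
    fun_prop
  have cJ : Continuous J := by
    rw [hJ]
    refine continuous_pi fun t => ?_
    split_ifs <;> fun_prop
  have m1 : ∀ u, ‖u‖ ≤ r → J u ∈ cell S a r := fun u hu =>
    ⟨fun t h => by rw [J1 u t h]; exact (norm_le_pi_norm u _).trans hu, J2 u⟩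
  obtain ⟨g, T, clT, TW, D, off, nr⟩ := RHand.core hc hV hB sdiff_subset hf cp cJ
    (fun u x t => by
      funext i
      simp [hp, hJ]) hr (fun u hu => hs (m1 u hu))
    (fun u hu => ⟨hs (m1 u hu.le), fun h => by
      obtain ⟨-, t, ht, e⟩ := hb ⟨m1 u hu.le, h⟩
      rw [J1 u t ht] at e
      exact (((norm_le_pi_norm u _).trans_lt hu).ne e)⟩)
    fun u hu => h2 _ ⟨m1 u hu.le, by
      by_contra hn
      refine ((pi_norm_lt_iff hr).2 fun i => ?_).ne hu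
      refine lt_of_le_of_ne ((norm_le_pi_norm u _).trans hu.le) fun e => hn ?_
      refine ⟨S.equivFin.symm i, (S.equivFin.symm i).2, ?_⟩
      rw [J1 u _ (S.equivFin.symm i).2]
      simpa using e⟩
  refine ⟨g, D, ?_⟩
  rintro x (hx | hx)
  · filter_upwards [h1 x hx, clT.isOpen_compl.mem_nhds fun h => (TW h).2 hx.1] with y hy hy'
    rwa [off y hy']
  · have e : J (p x) = x := by
      funext t
      by_cases h : t ∈ S
      · simp [hp, hJ, h]
      · rw [J2 _ t h, hx.2 t h]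
    rw [← e]
    refine nr _ ((pi_norm_le_iff_of_nonneg hr.le).2 fun i => ?_)
    rw [hp]
    exact hx.1 _ (S.equivFin.symm i).2

end HW
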