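import Pool.Agent.P.MP_9699e0_gt.W.ValA

/-! Signs of reflections and permutations; the homotopy addition theorem for cubes. -/

set_option autoImplicit false
set_option linter.unusedSectionVars false

noncomputable section

namespace HW

open HK3 Pool.Agent.P.MP_9699e0_gt Set Filter Topology

variable {Z : Type} [TopologicalSpace Z] {A : Set Z} {n : ℕ}

namespace RHat

theorem exists_coord {R : ℝ} (hR : 0 < R) {x : Eu n} (h : R ≤ ‖x‖) : ∃ k, R ≤ |x k| := by
  by_contra hc
  push Not at hc
  exact absurd h (not_le.2 ((pi_norm_lt_iff hR).2 fun k => by simpa using hc k))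

theorem far_coord {f : Eu n → Z} (hf : Rel A f) :
    ∃ R : ℝ, 0 < R ∧ ∀ (x : Eu n) (k : Fin n), R ≤ |x k| → f x ∈ A := by
  obtain ⟨R, hR⟩ := hf.far
  refine ⟨|R| + 1, by positivity, fun x k hk => hR x ?_⟩
  have h1 : |x k| ≤ ‖x‖ := by simpa using norm_le_pi_norm x k
  linarith [le_abs_self R]

theorem rel_perm {f : Eu n → Z} (hf : Rel A f) (π : Equiv.Perm (Fin n)) :
    Rel A fun x => f (x ∘ π) := by
  obtain ⟨R, h0, hR⟩ := far_coord hf
  refine ⟨hf.cont.comp (continuous_pi fun k => continuous_apply (π k)), R, fun x hx => ?_⟩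
  obtain ⟨k, hk⟩ := exists_coord h0 hx
  exact hR _ (π.symm k) (by simpa using hk)

theorem cont_upd (i : Fin n) {φ : ℝ → ℝ} (hφ : Continuous φ) :
    Continuous fun x : Eu n => Function.update x i (φ (x i)) :=
  continuous_id.update i (hφ.comp (continuous_apply i))

theorem rel_refl {f : Eu n → Z} (hf : Rel A f) (i : Fin n) (c : ℝ) :
    Rel A fun x => f (Function.update x i (c - x i)) := by
  obtain ⟨R, h0, hR⟩ := far_coord hf
  refine ⟨hf.cont.comp (cont_upd i (φ := fun t => c - t) (by fun_prop)), R + |c|, fun x hx => ?_⟩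
  obtain ⟨k, hk⟩ := exists_coord (by positivity) hx
  refine hR _ k ?_
  by_cases e : k = i
  · subst e
    rw [Function.update_self]
    have := abs_sub_abs_le_abs_sub (x k) c
    rw [abs_sub_comm]
    linarith
  · rw [Function.update_of_ne e]
    linarith [abs_nonneg c]

variable {G : Type} [AddCommGroup G] {v : (Eu n → Z) → G}

theorem val_shift (hv : IsVal A v) {f : Eu n → Z} (hf : Rel A f) (i : Fin n) (c : ℝ) :
    v (fun x => f (Function.update x i (x i + c))) = v f := by
  rw [hv.hty (hf.shift (Pi.single i c))]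
  congr 1
  funext x
  congr 1
  funext k
  by_cases e : k = i
  · subst e
    simp
  · simp [e]

theorem val_refl_far (hv : IsVal A v) {f : Eu n → Z} (hf : Rel A f) (i : Fin n) :
    ∃ c : ℝ, v (fun x => f (Function.update x i (c - x i))) = -v f := by
  obtain ⟨R, h0, hR⟩ := far_coord hf
  refine ⟨2 * R, ?_⟩
  have hg := rel_refl hf i (2 * R)
  have hH : Hty A (f ∘ fun x : Eu n => Function.update x i (R - |x i - R| - 0 * (2 * R)))
      (f ∘ fun x : Eu n => Function.update x i (R - |x i - R| - 1 * (2 * R))) := by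
    refine Hty.of_maps hf.cont
      (fun s (x : Eu n) => Function.update x i (R - |x i - R| - s * (2 * R))) ?_
      ⟨3 * R, fun s hs x hx => ?_⟩
    · exact continuous_snd.update i (by fun_prop)
    · obtain ⟨k, hk⟩ := exists_coord (by positivity) hx
      refine hR _ k ?_
      by_cases e : k = i
      · subst e
        rw [Function.update_self]
        have h1 := abs_sub_abs_le_abs_sub (x k) R
        rw [abs_of_pos h0] at h1
        have h2 : 0 ≤ s * (2 * R) := mul_nonneg hs.1 (by positivity)
        exact le_abs.2 (Or.inr (by linarith))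
      · rw [Function.update_of_ne e]
        linarith
  have e0 := hv.hty hH
  rw [hv.inA hH.right.cont (fun x => hR _ i (by
    simp only [Function.update_self]
    exact le_abs.2 (Or.inr (by linarith [abs_nonneg (x i - R)])))),
    hv.cut i R hH.left (fun x hx => hR _ i (by simp [hx, abs_of_pos h0]))] at e0
  have e1 := hv.cut i R hf (fun x hx => hR _ i (by simp [hx, abs_of_pos h0]))
  rw [hv.inA (hf.cont.comp (continuous_cge i R)) (fun x => hR _ i (by
    simp only [cge, Function.update_self]
    exact le_abs.2 (Or.inl (le_max_right _ _)))), add_zero] at e1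
  have e2 := hv.cut i R hg (fun x hx => hR _ i (by
    rw [Function.update_self, hx]
    exact le_abs.2 (Or.inl (by linarith))))
  rw [hv.inA (hg.cont.comp (continuous_cle i R)) (fun x => hR _ i (by
    simp only [cle, Function.update_self]
    exact le_abs.2 (Or.inl (by linarith [min_le_right (x i) R])))), zero_add] at e2
  rw [e1, e2, eq_neg_iff_add_eq_zero, add_comm, ← e0]
  congr 2
  · funext x
    simp only [Function.comp, cle, Function.update_self, Function.update_idem]
    congr 2
    rw [abs_of_nonpos (by linarith [min_le_right (x i) R])]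
    ring
  · funext x
    simp only [Function.comp, cge, Function.update_self, Function.update_idem]
    congr 2
    rw [abs_of_nonneg (by linarith [le_max_right (x i) R])]
    ring

theorem val_refl (hv : IsVal A v) {f : Eu n → Z} (hf : Rel A f) (i : Fin n) (c : ℝ) :
    v (fun x => f (Function.update x i (c - x i))) = -v f := by
  obtain ⟨d, hd⟩ := val_refl_far hv hf i
  rw [← hd, ← val_shift hv (rel_refl hf i d) i (d - c)]
  congr 1
  funext x
  simp only [Function.update_self, Function.update_idem]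
  congr 2
  ring

/-- Both numbers lie on the same side of the unit interval. -/
def Side (a b : ℝ) : Prop := (a ≤ 0 ∧ b ≤ 0) ∨ (1 ≤ a ∧ 1 ≤ b)

theorem lin {F : Eu (n + 1) → Z} (hF : Continuous F)
    (h : ∀ x i j, i ≠ j → x i ∉ Ioo (0 : ℝ) 1 → x j ∉ Ioo (0 : ℝ) 1 → F x ∈ A)
    {P Q : Eu n → Eu (n + 1)} (hP : Continuous P) (hQ : Continuous Q)
    (hs : ∀ y k, 2 ≤ |y k| → ∃ i j, i ≠ j ∧ Side (P y i) (Q y i) ∧ Side (P y j) (Q y j)) :
    Hty A (fun y => F (P y)) fun y => F (Q y) := by
  have key : ∀ s ∈ Icc (0 : ℝ) 1, ∀ a b, Side a b → (1 - s) * a + s * b ∉ Ioo (0 : ℝ) 1 := by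
    rintro s ⟨h0, h1⟩ a b (⟨ha, hb⟩ | ⟨ha, hb⟩) ⟨h2, h3⟩
    · nlinarith
    · nlinarith
  have := Hty.of_maps (A := A) hF (fun s y => (1 - s) • P y + s • Q y) (by fun_prop)
    ⟨2, fun s hs' y hy => by
      obtain ⟨k, hk⟩ := exists_coord two_pos hy
      obtain ⟨i, j, hij, hi, hj⟩ := hs y k hk
      exact h _ i j hij (by simpa using key s hs' _ _ hi) (by simpa using key s hs' _ _ hj)⟩
  simpa [Function.comp_def] using this

/-- Clamping to the unit interval. -/
def cl (t : ℝ) : ℝ := min (max t 0) 1

/-- Distance to the unit interval. -/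
def ex (t : ℝ) : ℝ := max (t - 1) 0 + max (-t) 0

theorem ex_nonneg (t : ℝ) : 0 ≤ ex t := add_nonneg (le_max_right _ _) (le_max_right _ _)

theorem le_ex (t : ℝ) : |t| - 1 ≤ ex t := by
  unfold ex
  have h1 := le_max_left (t - 1) 0
  have h2 := le_max_left (-t) 0
  have h3 := le_max_right (t - 1) 0
  have h4 := le_max_right (-t) 0
  rcases abs_cases t with h | h <;> linarith [h.1]

theorem ex_eq {t : ℝ} (h0 : 0 ≤ t) (h1 : t ≤ 1) : ex t = 0 := by
  unfold ex
  rw [max_eq_right (by linarith), max_eq_right (by linarith), add_zero]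

theorem ex_cl (t : ℝ) : ex (cl t) = 0 :=
  ex_eq (le_min (le_max_right _ _) zero_le_one) (min_le_right _ _)

theorem side_self {t : ℝ} (h : ex t ≠ 0) : Side t t := by
  by_contra hc
  simp only [Side, and_self, not_or, not_le] at hc
  exact h (ex_eq hc.1.le hc.2.le)

theorem side_far {t : ℝ} (h : 2 ≤ |t|) : Side t t :=
  side_self (by linarith [le_ex t] : 0 < ex t).ne'

theorem side_cl {t : ℝ} (h : 2 ≤ |t|) : Side (cl t) t := by
  unfold cl
  rcases le_abs.1 h with h | h
  · exact Or.inr ⟨le_min (le_max_of_le_left (by linarith)) le_rfl, by linarith⟩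
  · exact Or.inl ⟨min_le_of_left_le (max_le (by linarith) le_rfl), by linarith⟩

/-- Clamping of the first `k` coordinates. -/
def ck (k : ℕ) (y : Eu n) : Eu n := fun j => if (j : ℕ) < k then cl (y j) else y j

/-- The graph of the tent function. -/
def gr (p : Eu n) : Eu (n + 1) := Fin.cons (1 - ∑ j, ex (p j)) p

theorem continuous_ck (k : ℕ) : Continuous (ck k : Eu n → Eu n) :=
  continuous_pi fun j => by
    unfold ck cl
    split_ifs <;> fun_prop

theorem continuous_cons {a : Eu n → ℝ} {p : Eu n → Eu n} (ha : Continuous a)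
    (hp : Continuous p) : Continuous fun y => (Fin.cons (a y) (p y) : Eu (n + 1)) :=
  continuous_pi fun j => by
    refine Fin.cases ?_ (fun j => ?_) j
    · simpa using ha
    · exact (continuous_apply j).comp hp

theorem continuous_gr : Continuous (gr : Eu n → Eu (n + 1)) :=
  continuous_cons (by unfold ex; fun_prop) continuous_id

theorem gr_zero_le (p : Eu n) (k : Fin n) : gr p 0 ≤ 2 - |p k| := by
  have := Finset.single_le_sum (f := fun j => ex (p j)) (fun j _ => ex_nonneg _)
    (Finset.mem_univ k)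
  simp only [gr, Fin.cons_zero]
  linarith [le_ex (p k)]

theorem gr_cases (p : Eu n) : gr p 0 = 1 ∨ ∃ j, ex (p j) ≠ 0 := by
  by_cases e : ∀ j, ex (p j) = 0
  · left
    simp [gr, e]
  · exact Or.inr (not_forall.1 e)

theorem not_mem_of_side {a : ℝ} (h : Side a a) : a ∉ Ioo (0 : ℝ) 1 := by
  rintro ⟨h1, h2⟩
  rcases h with h | h <;> linarith [h.1]

theorem gr_mem {F : Eu (n + 1) → Z}
    (h : ∀ x i j, i ≠ j → x i ∉ Ioo (0 : ℝ) 1 → x j ∉ Ioo (0 : ℝ) 1 → F x ∈ A)
    (p : Eu n) (k : Fin n) (hk : p k = 0 ∨ p k = 1) : F (gr p) ∈ A := by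
  have h1 : gr p k.succ ∉ Ioo (0 : ℝ) 1 := by
    rcases hk with e | e <;> simp [gr, e]
  rcases gr_cases p with e | ⟨j, e⟩
  · exact h _ 0 k.succ (Fin.succ_ne_zero k).symm (by simp [e]) h1
  · refine h _ j.succ k.succ (fun hj => e ?_) (not_mem_of_side (side_self e)) h1
    rw [Fin.succ_injective _ hj]
    rcases hk with e | e <;> rw [e] <;> exact ex_eq (by norm_num) (by norm_num)

/-- A side piece is homotopic to a face. -/
theorem piece {F : Eu (n + 1) → Z} (hF : Continuous F)
    (h : ∀ x i j, i ≠ j → x i ∉ Ioo (0 : ℝ) 1 → x j ∉ Ioo (0 : ℝ) 1 → F x ∈ A) (k : Fin n)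
    {φ ψ : ℝ → ℝ} (hφ : Continuous φ) (hψ : Continuous ψ) {c : ℝ} (h1 : ∀ t, Side (φ t) c)
    (h2 : ∀ t, 2 ≤ |t| → (2 ≤ |φ t| ∧ ψ t ≤ 0) ∨ (ex (φ t) = 0 ∧ 1 ≤ ψ t)) :
    Hty A (fun y => F (gr (ck k (Function.update y k (φ (y k))))))
      fun y => F (Fin.cons (ψ (y k)) (Function.update y k c)) := by
  refine lin hF h (continuous_gr.comp ((continuous_ck k).comp (cont_upd k hφ)))
    (continuous_cons (hψ.comp (continuous_apply k)) (continuous_id.update k continuous_const))
    fun y j hj => ?_
  have hk : ck k (Function.update y k (φ (y k))) k = φ (y k) := by simp [ck]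
  have s1 : Side (gr (ck k (Function.update y k (φ (y k)))) k.succ)
      ((Fin.cons (ψ (y k)) (Function.update y k c) : Eu (n + 1)) k.succ) := by
    simpa [gr, hk] using h1 _
  by_cases e : j = k
  · subst e
    rcases h2 _ hj with ⟨a, b⟩ | ⟨a, b⟩
    · refine ⟨0, j.succ, (Fin.succ_ne_zero j).symm, Or.inl ⟨?_, by simpa using b⟩, s1⟩
      have := gr_zero_le (ck j (Function.update y j (φ (y j)))) j
      rw [hk] at this
      linarith
    · rcases gr_cases (ck j (Function.update y j (φ (y j)))) with e | ⟨l, e⟩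
      · exact ⟨0, j.succ, (Fin.succ_ne_zero j).symm, Or.inr ⟨e.ge, by simpa using b⟩, s1⟩
      · have hl : l ≠ j := fun hl => e (by rw [hl, hk, a])
        refine ⟨l.succ, j.succ, fun hh => hl (Fin.succ_injective _ hh), ?_, s1⟩
        simp only [gr, Fin.cons_succ, ck, Function.update_of_ne hl] at e ⊢
        split_ifs at e ⊢
        · exact absurd (ex_cl _) e
        · exact side_self e
  · refine ⟨j.succ, k.succ, fun hh => e (Fin.succ_injective _ hh), ?_, s1⟩
    simp only [gr, Fin.cons_succ, ck, Function.update_of_ne e]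
    split_ifs
    exacts [side_cl hj, side_far hj]

theorem rel_face {F : Eu (n + 1) → Z} (hF : Continuous F)
    (h : ∀ x i j, i ≠ j → x i ∉ Ioo (0 : ℝ) 1 → x j ∉ Ioo (0 : ℝ) 1 → F x ∈ A) (i : Fin (n + 1))
    {c : ℝ} (hc : c ∉ Ioo (0 : ℝ) 1) : Rel A fun y => F (i.insertNth c y) := by
  refine ⟨hF.comp (continuous_const.finInsertNth i continuous_id), 2, fun y hy => ?_⟩
  obtain ⟨k, hk⟩ := exists_coord two_pos hy
  exact h _ i (i.succAbove k) (Fin.succAbove_ne i k).symm (by simpa using hc)
    (by simpa using not_mem_of_side (side_far hk))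

theorem exists_cycle (k : Fin n) : ∃ π : Equiv.Perm (Fin n),
    ((Equiv.Perm.sign π : ℤˣ) : ℤ) = (-1) ^ (k : ℕ) ∧ ∀ (y : Eu n) (a c : ℝ),
      (Fin.cons a (Function.update y k c) : Eu (n + 1)) =
        k.succ.insertNth c (Function.update y k a ∘ π) := by
  obtain _ | m := n
  · exact k.elim0
  refine ⟨k.cycleRange.symm, ?_, fun y a c => ?_⟩
  · rw [Equiv.Perm.sign_symm, Fin.sign_cycleRange]
    simp
  · rw [Fin.eq_insertNth_iff]
    refine ⟨by simp, funext fun j => ?_⟩
    refine Fin.cases ?_ (fun j => ?_) j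
    · simp [Fin.removeNth]
    · simp [Fin.removeNth, Fin.succAbove_ne]

end RHat

open RHat

variable {G : Type} [AddCommGroup G] {v : (Eu n → Z) → G}

theorem IsVal.refl (hv : IsVal A v) {f : Eu n → Z} (hf : Rel A f) (i : Fin n) :
    v (fun x => f (Function.update x i (-x i))) = -v f := by
  simpa using val_refl hv hf i 0

theorem IsVal.perm (hv : IsVal A v) {f : Eu n → Z} (hf : Rel A f) (π : Equiv.Perm (Fin n)) :
    v (fun x => f (x ∘ π)) = ((Equiv.Perm.sign π : ℤˣ) : ℤ) • v f := by
  induction π using Equiv.Perm.swap_induction_on with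
  | one => simp
  | swap_mul σ i j hij ih =>
    have hr := (rel_perm hf σ).rot hij
    have e := hv.refl hr.right j
    rw [← hv.hty hr, ih] at e
    rw [Equiv.Perm.sign_mul, Equiv.Perm.sign_swap hij, neg_one_mul, Units.val_neg, neg_smul, ← e]
    congr 1
    funext x
    congr 1
    funext k
    simp only [Function.comp, Equiv.Perm.mul_apply, Function.update_self, neg_neg,
      Function.update_of_ne hij]
    generalize σ k = l
    by_cases e1 : l = j
    · subst e1
      simp
    · by_cases e2 : l = i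
      · subst e2
        simp [e1]
      · simp [e1, e2, Equiv.swap_apply_of_ne_of_ne]

theorem IsVal.hat (hv : IsVal A v) {F : Eu (n + 1) → Z} (hF : Continuous F)
    (h : ∀ x i j, i ≠ j → x i ∉ Ioo (0 : ℝ) 1 → x j ∉ Ioo (0 : ℝ) 1 → F x ∈ A) :
    ∑ i : Fin (n + 1), (-1 : ℤ) ^ (i : ℕ) •
      (v (fun y => F (i.insertNth 1 y)) - v (fun y => F (i.insertNth 0 y))) = 0 := by
  set g : ℕ → Eu n → Z := fun k y => F (gr (ck k y)) with hg
  have H0 : Hty A (g 0) fun y => F (Fin.cons 0 y) := by
    refine lin hF h (continuous_gr.comp (continuous_ck 0))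
      (continuous_cons continuous_const continuous_id) fun y k hk => ?_
    have e : ck 0 y = y := by funext j; simp [ck]
    rw [e]
    exact ⟨0, k.succ, (Fin.succ_ne_zero k).symm,
      Or.inl ⟨by linarith [gr_zero_le y k], by simp⟩, by simpa [gr] using side_far hk⟩
  have H1 : Hty A (g n) fun y => F (Fin.cons 1 y) := by
    refine lin hF h (continuous_gr.comp (continuous_ck n))
      (continuous_cons continuous_const continuous_id) fun y k hk => ?_
    exact ⟨0, k.succ, (Fin.succ_ne_zero k).symm, Or.inr ⟨by simp [gr, ck, ex_cl], by simp⟩,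
      by simpa [gr, ck] using side_cl hk⟩
  have step : ∀ k : Fin n, Rel A (g k) → Rel A (g (k + 1)) ∧ v (g k) - v (g (k + 1)) =
      (-1 : ℤ) ^ (k.succ : ℕ) •
        (v (fun y => F (k.succ.insertNth 1 y)) - v (fun y => F (k.succ.insertNth 0 y))) := by
    intro k hk
    have m1 : ∀ y : Eu n, y k = 1 → g k y ∈ A := fun y hy =>
      gr_mem h _ k (Or.inr (by simp [ck, hy]))
    have m0 : ∀ y : Eu n, y k = 0 → (g k ∘ cle k 1) y ∈ A := fun y hy =>
      gr_mem h _ k (Or.inl (by simp [ck, cle, hy]))
    have em : (g k ∘ cle k 1) ∘ cge k 0 = g (k + 1) := by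
      funext y
      simp only [hg, Function.comp, cle, cge, Function.update_self, Function.update_idem]
      congr 2
      funext j
      by_cases e : j = k
      · subst e
        simp [ck, cl]
      · have e' : (j : ℕ) ≠ k := fun hh => e (Fin.ext hh)
        simp only [ck, Function.update_of_ne e]
        congr 1
        exact propext (by omega)
    refine ⟨em ▸ (hk.comp_cle m1).comp_cge m0, ?_⟩
    obtain ⟨π, hπ, eπ⟩ := exists_cycle k
    have r1 := rel_face hF h k.succ (c := 1) (by simp)
    have r0 := rel_face hF h k.succ (c := 0) (by simp)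
    have eu : v (g k ∘ cge k 1) = -((-1 : ℤ) ^ (k : ℕ) • v fun y => F (k.succ.insertNth 1 y)) := by
      rw [← hπ, ← hv.perm r1 π, ← val_refl hv (rel_perm r1 π) k 2]
      simp only [← eπ]
      refine hv.hty (piece hF h k (φ := fun t => max t 1) (ψ := fun t => 2 - t) (by fun_prop)
        (by fun_prop) (fun t => Or.inr ⟨le_max_right _ _, le_rfl⟩) fun t ht => ?_)
      rcases le_abs.1 ht with ht | ht
      · exact Or.inl ⟨le_abs.2 (Or.inl (le_max_of_le_left ht)), by linarith⟩
      · refine Or.inr ⟨?_, by linarith⟩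
        rw [max_eq_right (by linarith)]
        exact ex_eq zero_le_one le_rfl
    have el : v ((g k ∘ cle k 1) ∘ cle k 0) =
        (-1 : ℤ) ^ (k : ℕ) • v fun y => F (k.succ.insertNth 0 y) := by
      rw [← hπ, ← hv.perm r0 π, ← val_shift hv (rel_perm r0 π) k 1]
      simp only [← eπ]
      have e : (g k ∘ cle k 1) ∘ cle k 0 =
          fun y => F (gr (ck k (Function.update y k (min (min (y k) 0) 1)))) := by
        funext y
        simp only [hg, Function.comp, cle, Function.update_self, Function.update_idem]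
      rw [e]
      refine hv.hty (piece hF h k (φ := fun t => min (min t 0) 1) (ψ := fun t => t + 1)
        (by fun_prop) (by fun_prop)
        (fun t => Or.inl ⟨min_le_of_left_le (min_le_right _ _), le_rfl⟩) fun t ht => ?_)
      rcases le_abs.1 ht with ht | ht
      · refine Or.inr ⟨?_, by linarith⟩
        rw [min_eq_right (by linarith : (0 : ℝ) ≤ t), min_eq_left zero_le_one]
        exact ex_eq le_rfl zero_le_one
      · refine Or.inl ⟨le_abs.2 (Or.inr ?_), by linarith⟩
        linarith [min_le_left (min t 0) 1, min_le_left t 0]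
    rw [hv.cut k 1 hk m1, hv.cut k 0 (hk.comp_cle m1) m0, em, eu, el, Fin.val_succ, pow_succ,
      mul_neg_one, neg_smul, smul_sub]
    abel
  have rel : ∀ k, k ≤ n → Rel A (g k) := by
    intro k
    induction k with
    | zero => exact fun _ => H0.left
    | succ k ih => exact fun hk => (step ⟨k, hk⟩ (ih (by omega))).1
  rw [Fin.sum_univ_succ, ← Finset.sum_congr rfl fun k _ => (step k (rel k k.2.le)).2,
    Fin.sum_univ_eq_sum_range (fun k => v (g k) - v (g (k + 1))), Finset.sum_range_sub',
    hv.hty H0, hv.hty H1]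
  simp

end HW
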