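import Pool.Agent.P.MP_9699e0_gt.W.Hand

/-! Deformation of a map on a compact part of a manifold into a subspace. -/

set_option autoImplicit false
set_option linter.unusedSectionVars false

noncomputable section

namespace HW

open HK3 Pool.Agent.P.MP_9699e0_gt Set Filter Topology

variable {Z : Type} [TopologicalSpace Z] {A : Set Z} {n : ℕ}

namespace RHelp

theorem one (t : ℝ) : Even (⌊t / 2⌋ + ⌈t / 2⌉) ∧ t = (⌊t / 2⌋ + ⌈t / 2⌉ : ℤ) ∨
    Odd (⌊t / 2⌋ + ⌈t / 2⌉) ∧ |t - (⌊t / 2⌋ + ⌈t / 2⌉ : ℤ)| < 1 := by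
  have h1 := Int.floor_le (t / 2)
  have h2 := Int.lt_floor_add_one (t / 2)
  rcases h1.eq_or_lt with h | h
  · have h3 : ⌈t / 2⌉ = ⌊t / 2⌋ := Int.ceil_eq_iff.2 ⟨by linarith, h.ge⟩
    rw [h3]
    exact Or.inl ⟨⟨_, rfl⟩, by push_cast; linarith⟩
  · have h3 : ⌈t / 2⌉ = ⌊t / 2⌋ + 1 := Int.ceil_eq_iff.2 ⟨by push_cast; linarith, by
      push_cast; linarith⟩
    rw [h3]
    exact Or.inr ⟨⟨⌊t / 2⌋, by ring⟩, abs_lt.2 ⟨by push_cast; linarith, by push_cast; linarith⟩⟩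

theorem two {c d : ℤ} {t : ℝ} (hc : Even c ∧ t = c ∨ Odd c ∧ |t - c| ≤ 1)
    (hd : Even d ∧ t = d ∨ Odd d ∧ |t - d| < 1) :
    d = c ∨ Odd c ∧ Even d ∧ |t - c| = 1 ∧ t = d := by
  rcases hc with ⟨h1, h2⟩ | ⟨h1, h2⟩ <;> rcases hd with ⟨h3, h4⟩ | ⟨h3, h4⟩
  · exact Or.inl (Int.cast_injective (h4.symm.trans h2))
  · rw [h2] at h4
    have h5 : |c - d| < 1 := by exact_mod_cast h4
    exact Or.inl (by rw [abs_lt] at h5; omega)
  · refine Or.inr ⟨h1, h3, ?_, h4⟩
    rw [h4] at h2 ⊢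
    have h5 : |d - c| ≤ 1 := by exact_mod_cast h2
    have h6 : |d - c| = 1 := by
      obtain ⟨u, hu⟩ := h1
      obtain ⟨v, hv⟩ := h3
      rw [abs_le] at h5
      rw [abs_eq zero_le_one]
      omega
    exact_mod_cast h6
  · obtain ⟨u, hu⟩ := h1
    obtain ⟨v, hv⟩ := h3
    rw [abs_le] at h2
    rw [abs_lt] at h4
    have h5 : ((c - d : ℤ) : ℝ) < 2 := by push_cast; linarith
    have h6 : ((d - c : ℤ) : ℝ) < 2 := by push_cast; linarith
    have h7 : c - d < 2 := by exact_mod_cast h5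
    have h8 : d - c < 2 := by exact_mod_cast h6
    exact Or.inl (by omega)

/-- the directions of a cell of the grid -/
def dir (c : Fin n → ℤ) : Finset (Fin n) := Finset.univ.filter fun i => Odd (c i)

/-- the centre of a cell of the grid -/
def ctr (δ : ℝ) (c : Fin n → ℤ) : Eu n := fun i => δ * c i

/-- a cell of the grid -/
def ce (δ : ℝ) (c : Fin n → ℤ) : Set (Eu n) := cell (dir c) (ctr δ c) δ

/-- its boundary -/
def cb (δ : ℝ) (c : Fin n → ℤ) : Set (Eu n) := cellB (dir c) (ctr δ c) δ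

/-- the smallest cell that contains `x` -/
def ty (δ : ℝ) (x : Eu n) : Fin n → ℤ := fun i => ⌊x i / δ / 2⌋ + ⌈x i / δ / 2⌉

variable {δ : ℝ} {c : Fin n → ℤ} {x : Eu n}

theorem mem_dir {i : Fin n} : i ∈ dir c ↔ Odd (c i) := by simp [dir]

theorem scale (hδ : 0 < δ) (t u : ℝ) : |t - δ * u| = δ * |t / δ - u| := by
  rw [← abs_of_pos hδ, ← abs_mul, abs_of_pos hδ, mul_sub, mul_div_cancel₀ _ hδ.ne']

theorem mem_ce (hδ : 0 < δ) : x ∈ ce δ c ↔
    ∀ i, Even (c i) ∧ x i / δ = c i ∨ Odd (c i) ∧ |x i / δ - c i| ≤ 1 := by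
  have e : ∀ i, x i = δ * c i ↔ x i / δ = c i := fun i => by rw [div_eq_iff hδ.ne', mul_comm]
  simp only [ce, cell, ctr, mem_ofPred_eq, mem_dir, scale hδ, mul_le_iff_le_one_right hδ, e,
    Int.not_odd_iff_even]
  constructor
  · exact fun h i => (Int.even_or_odd (c i)).imp (fun k => ⟨k, h.2 i k⟩) fun k => ⟨k, h.1 i k⟩
  · exact fun h => ⟨fun i k => ((h i).resolve_left fun l => Int.not_odd_iff_even.2 l.1 k).2,
      fun i k => ((h i).resolve_right fun l => Int.not_odd_iff_even.2 k l.1).2⟩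

theorem mem_cb (hδ : 0 < δ) : x ∈ cb δ c ↔
    x ∈ ce δ c ∧ ∃ i, Odd (c i) ∧ |x i / δ - c i| = 1 := by
  simp only [cb, ce, cellB, ctr, mem_ofPred_eq, mem_dir, scale hδ, mul_eq_left₀ hδ.ne']

theorem mem_ty (hδ : 0 < δ) (x : Eu n) : x ∈ ce δ (ty δ x) :=
  (mem_ce hδ).2 fun i => (one (x i / δ)).imp_right fun h => ⟨h.1, h.2.le⟩

theorem ty_eq (hδ : 0 < δ) (h : x ∈ ce δ c) (h' : x ∉ cb δ c) : ty δ x = c :=
  funext fun i => (two ((mem_ce hδ).1 h i) (one _)).resolve_right fun k =>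
    h' ((mem_cb hδ).2 ⟨h, i, k.1, k.2.2.1⟩)

theorem ty_sub (hδ : 0 < δ) (h : x ∈ ce δ c) : ce δ (ty δ x) ⊆ ce δ c := by
  intro y hy
  refine (mem_ce hδ).2 fun i => ?_
  have h1 := (mem_ce hδ).1 hy i
  rcases two ((mem_ce hδ).1 h i) (one _) with k | k
  · exact k ▸ h1
  · have h2 := (h1.resolve_right fun l => Int.not_odd_iff_even.2 k.2.1 l.1).2
    exact Or.inr ⟨k.1, by rw [h2.trans k.2.2.2.symm]; exact k.2.2.1.le⟩

theorem ty_lt (hδ : 0 < δ) (h : x ∈ cb δ c) : (dir (ty δ x)).card < (dir c).card := by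
  obtain ⟨h1, i, h2, h3⟩ := (mem_cb hδ).1 h
  have key : ∀ j, j ∈ dir (ty δ x) → ty δ x j = c j := fun j hj =>
    (two ((mem_ce hδ).1 h1 j) (one _)).resolve_right fun k =>
      Int.not_odd_iff_even.2 k.2.1 (mem_dir.1 hj)
  refine Finset.card_lt_card ⟨fun j hj => mem_dir.2 (key j hj ▸ mem_dir.1 hj), fun k => ?_⟩
  have h4 := k (mem_dir.2 h2)
  have h5 := ((one (x i / δ)).resolve_left fun l => Int.not_odd_iff_even.2 l.1 (mem_dir.1 h4)).2
  exact h5.ne ((congrArg (fun m : ℤ => |x i / δ - m|) (key i h4)).trans h3)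

theorem ce_ball (hδ : 0 < δ) (h : x ∈ ce δ c) : dist x (ctr δ c) ≤ δ := by
  refine (dist_pi_le_iff hδ.le).2 fun i => ?_
  by_cases k : i ∈ dir c
  · exact h.1 i k
  · rw [h.2 i k, dist_self]
    exact hδ.le

theorem ce_dist (hδ : 0 < δ) (h : x ∈ ce δ c) {y : Eu n} (h' : y ∈ ce δ c) : dist x y ≤ 2 * δ := by
  linarith [dist_triangle_right x y (ctr δ c), ce_ball hδ h, ce_ball hδ h']

theorem ce_closed (δ : ℝ) (c : Fin n → ℤ) : IsClosed (ce δ c) := by
  simp only [ce, cell, ofPred_and, ofPred_forall]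
  exact (isClosed_iInter fun i => isClosed_iInter fun _ =>
    isClosed_le (by fun_prop) continuous_const).inter
    (isClosed_iInter fun i => isClosed_iInter fun _ => isClosed_eq (by fun_prop) continuous_const)

theorem ce_finite (hδ : 0 < δ) {N : Set (Eu n)} (hN : IsCompact N) :
    {c : Fin n → ℤ | ce δ c ⊆ N}.Finite := by
  obtain ⟨R, hR⟩ := hN.isBounded.exists_norm_le
  refine (finite_Icc (fun _ : Fin n => -⌈R / δ⌉) fun _ => ⌈R / δ⌉).subset fun c hc => ?_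
  have h1 : ctr δ c ∈ ce δ c := ⟨fun i _ => by rw [sub_self, abs_zero]; exact hδ.le, fun _ _ => rfl⟩
  have h2 : ∀ i, |c i| ≤ ⌈R / δ⌉ := fun i => by
    have h3 : |δ * c i| ≤ R := (norm_le_pi_norm (ctr δ c) i).trans (hR _ (hc h1))
    rw [abs_mul, abs_of_pos hδ, ← le_div_iff₀' hδ] at h3
    exact_mod_cast h3.trans (Int.le_ceil _)
  exact ⟨fun i => (abs_le.1 (h2 i)).1, fun i => (abs_le.1 (h2 i)).2⟩

theorem cells (hc : ∀ k ≤ n, Con A k) (hδ : 0 < δ) {V B : Set (Eu n)} (hV : IsOpen V)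
    (hB : IsOpen (V \ B)) {f : Eu n → Z} (hf : ContinuousOn f V) (h : Nr A f (B ∩ V))
    (G : Finset (Fin n → ℤ)) (h₁ : ∀ c ∈ G, ce δ c ⊆ V) (h₂ : ∀ c ∈ G, ∀ x ∈ ce δ c, ty δ x ∈ G)
    (h₃ : ∀ c ∈ G, ce δ c ⊆ B ∨ ce δ c ∩ B ⊆ cb δ c) :
    ∃ g, Df V f g ∧ Nr A g ((B ∪ ⋃ c ∈ G, ce δ c) ∩ V) := by
  induction G using Finset.induction_on_max_value fun c => (dir c).card with
  | empty => exact ⟨f, Df.refl hf, by simpa using h⟩
  | insert a G ha hm ih =>
    have k₂ : ∀ c ∈ G, ∀ x ∈ ce δ c, ty δ x ∈ G := fun c hc x hx =>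
      (Finset.mem_insert.1 (h₂ c (Finset.mem_insert_of_mem hc) x hx)).resolve_left fun e => by
        by_cases k : x ∈ cb δ c
        · exact (ty_lt hδ k).not_ge (e ▸ hm c hc)
        · exact ha (e ▸ (ty_eq hδ hx k).symm ▸ hc)
    obtain ⟨g, hg, hn⟩ := ih (fun c hc => h₁ c (Finset.mem_insert_of_mem hc)) k₂
      fun c hc => h₃ c (Finset.mem_insert_of_mem hc)
    have k₁ := h₁ a (Finset.mem_insert_self a G)
    rw [Finset.set_biUnion_insert]
    rcases h₃ a (Finset.mem_insert_self a G) with k | k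
    · exact ⟨g, hg, by rwa [← union_assoc, union_eq_self_of_subset_right k]⟩
    obtain ⟨g', hg', hn'⟩ := handle (S := dir a) (a := ctr δ a) (B := B ∪ ⋃ c ∈ G, ce δ c)
      (hc _ ((Finset.card_le_univ _).trans (Fintype.card_fin n).le)) hV
      (by
        rw [← sdiff_sdiff]
        exact hB.sdiff (isClosed_biUnion_finset fun c _ => ce_closed δ c))
      hg.cont hδ k₁
      (by
        rintro x ⟨hx, hx' | hx'⟩
        · exact k ⟨hx, hx'⟩
        · obtain ⟨c, hc, hxc⟩ := mem_iUnion₂.1 hx'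
          by_contra l
          exact ha (ty_eq hδ hx l ▸ k₂ c hc x hxc))
      hn fun x hx => hn x ⟨Or.inr (mem_iUnion₂.2 ⟨ty δ x, (Finset.mem_insert.1
        (h₂ a (Finset.mem_insert_self a G) x hx.1)).resolve_left fun e =>
          (ty_lt hδ hx).ne (by rw [e]), mem_ty hδ x⟩), k₁ hx.1⟩
    refine ⟨g', hg.trans hg', fun x hx => hn' x ?_⟩
    rcases hx with ⟨l | l | l, hx⟩
    · exact Or.inl ⟨Or.inl l, hx⟩
    · exact Or.inr l
    · exact Or.inl ⟨Or.inr l, hx⟩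

end RHelp

theorem help_eu (hc : ∀ k ≤ n, Con A k) {V K C : Set (Eu n)} (hV : IsOpen V) (hK : IsCompact K)
    (hKV : K ⊆ V) (hC : IsOpen (V \ C)) {f : Eu n → Z} (hf : ContinuousOn f V)
    (h : Nr A f (C ∩ V)) : ∃ g, Df V f g ∧ Nr A g (C ∩ V ∪ K) := by
  obtain ⟨ε, hε, hN⟩ := hK.exists_cthickening_subset_open hV hKV
  have hN' : IsCompact (Metric.cthickening ε K \ (V \ C)) := hK.cthickening.diff hC
  obtain ⟨η, hη, hO⟩ := hN'.exists_cthickening_subset_open (t := interior (f ⁻¹' A))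
    isOpen_interior fun x hx => mem_interior_iff_mem_nhds.2
      (h x ⟨by_contra fun k => hx.2 ⟨hN hx.1, k⟩, hN hx.1⟩)
  have hδ : 0 < min ε η / 2 := by positivity
  have d1 : 2 * (min ε η / 2) ≤ ε := by linarith [min_le_left ε η]
  have d2 : 2 * (min ε η / 2) ≤ η := by linarith [min_le_right ε η]
  generalize min ε η / 2 = δ at hδ d1 d2
  obtain ⟨F, hF⟩ := (RHelp.ce_finite hδ (hK.cthickening (r := ε))).exists_finset
  have hF' : ∀ c ∈ F, RHelp.ce δ c ⊆ Metric.cthickening ε K := fun c hc => (hF c).1 hc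
  classical
  obtain ⟨g, hg, hn⟩ := RHelp.cells hc hδ hV
    (B := C ∪ ⋃ c ∈ F.filter fun c => (RHelp.ce δ c ∩ C).Nonempty, RHelp.ce δ c)
    (by
      rw [← sdiff_sdiff]
      exact hC.sdiff (isClosed_biUnion_finset fun c _ => RHelp.ce_closed δ c))
    hf
    (by
      rintro x ⟨hx | hx, hx'⟩
      · exact h x ⟨hx, hx'⟩
      · obtain ⟨c, hc, hxc⟩ := mem_iUnion₂.1 hx
        obtain ⟨k, y, hy, hy'⟩ := Finset.mem_filter.1 hc
        exact mem_interior_iff_mem_nhds.1 (hO (Metric.mem_cthickening_of_dist_le x y η _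
          ⟨hF' c k hy, fun l => l.2 hy'⟩ ((RHelp.ce_dist hδ hxc hy).trans d2))))
    F (fun c k => (hF' c k).trans hN)
    (fun c k x hx => (hF _).2 ((RHelp.ty_sub hδ hx).trans (hF' c k)))
    fun c k => by
      refine or_iff_not_imp_right.2 fun l => ?_
      obtain ⟨x, ⟨hx, hx'⟩, hb⟩ := not_subset.1 l
      rcases hx' with hx' | hx'
      · exact fun y hy => Or.inr (mem_iUnion₂.2 ⟨c, Finset.mem_filter.2 ⟨k, x, hx, hx'⟩, hy⟩)
      · obtain ⟨c', hc', hxc⟩ := mem_iUnion₂.1 hx'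
        exact fun y hy => Or.inr (mem_iUnion₂.2
          ⟨c', hc', RHelp.ty_sub hδ hxc ((RHelp.ty_eq hδ hx hb).symm ▸ hy)⟩)
  refine ⟨g, hg, fun x hx => hn x ?_⟩
  rcases hx with hx | hx
  · exact ⟨Or.inl (Or.inl hx.1), hx.2⟩
  · exact ⟨Or.inr (mem_iUnion₂.2 ⟨RHelp.ty δ x, (hF _).2 fun y hy =>
      Metric.mem_cthickening_of_dist_le y x ε K hx
        ((RHelp.ce_dist hδ hy (RHelp.mem_ty hδ x)).trans d1), RHelp.mem_ty hδ x⟩), hKV hx⟩

namespace RHelp

theorem chart {M : Type} [TopologicalSpace M] [T2Space M] (hc : ∀ k ≤ n, Con A k)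
    (e : OpenPartialHomeomorph (Eu n) M) {K : Set (Eu n)} (hK : IsCompact K)
    (hKe : K ⊆ e.source) {f : M → Z} (hf : Continuous f) {C : Set M} (hC : IsClosed C)
    (h : Nr A f C) : ∃ g, Df univ f g ∧ Nr A g (C ∪ e '' K) := by
  classical
  obtain ⟨g, ⟨H, L, hL, hLe, hH, h0, h1, hs⟩, hn⟩ := help_eu hc (C := e ⁻¹' C) (f := f ∘ e)
    e.open_source hK hKe (e.continuousOn.isOpen_inter_preimage e.open_source hC.isOpen_compl)
    (hf.comp_continuousOn e.continuousOn) fun x hx => (e.continuousAt hx.2).eventually (h _ hx.1)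
  have hL' : IsCompact (e '' L) := hL.image_of_continuousOn (e.continuousOn.mono hLe)
  have off : ∀ s, ∀ y ∉ e '' L, (if y ∈ e.target then H s (e.symm y) else f y) = f y := by
    intro s y hy
    split_ifs with k
    · rw [hs s _ fun l => hy ⟨_, l, e.right_inv k⟩, Function.comp_apply, e.right_inv k]
    · rfl
  have out : ∀ y ∉ e.target, ∀ᶠ z in 𝓝 y, z ∉ e '' L := fun y hy =>
    hL'.isClosed.isOpen_compl.mem_nhds fun ⟨x, hx, l⟩ => hy (l ▸ e.map_source (hLe hx))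
  refine ⟨fun y => if y ∈ e.target then H 1 (e.symm y) else f y,
    ⟨fun s y => if y ∈ e.target then H s (e.symm y) else f y, e '' L, hL', subset_univ _,
      fun p _ => ContinuousAt.continuousWithinAt ?_, funext fun y => ?_, rfl, off⟩, fun y hy => ?_⟩
  · by_cases k : p.2 ∈ e.target
    · have a1 : ContinuousAt (fun q : ℝ × M => (q.1, e.symm q.2)) p :=
        continuousAt_fst.prodMk ((e.continuousAt_symm k).comp continuousAt_snd)
      have a2 := (hH.continuousAt ((isOpen_univ.prod e.open_source).mem_nhds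
        (show (p.1, e.symm p.2) ∈ _ from ⟨trivial, e.map_target k⟩))).comp_of_eq a1 rfl
      refine a2.congr ?_
      filter_upwards [continuousAt_snd.eventually (e.open_target.mem_nhds k)] with q hq
      exact (if_pos hq).symm
    · refine (hf.comp continuous_snd).continuousAt.congr ?_
      filter_upwards [continuousAt_snd.eventually (out _ k)] with q hq
      exact (off _ _ hq).symm
  · beta_reduce
    split_ifs with k
    · rw [h0, Function.comp_apply, e.right_inv k]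
    · rfl
  · by_cases k : y ∈ e.target
    · have a1 : e.symm y ∈ e ⁻¹' C ∩ e.source ∪ K := by
        rcases hy with hy | ⟨x, hx, rfl⟩
        · exact Or.inl ⟨by rwa [mem_preimage, e.right_inv k], e.map_target k⟩
        · exact Or.inr (by rwa [e.left_inv (hKe hx)])
      filter_upwards [(e.continuousAt_symm k).eventually (hn _ a1), e.open_target.mem_nhds k]
        with z a2 a3
      rwa [if_pos a3, h1]
    · have a1 : y ∈ C := hy.resolve_right fun ⟨x, hx, l⟩ => k (l ▸ e.map_source (hKe hx))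
      filter_upwards [h y a1, out y k] with z a2 a3
      rwa [off 1 z a3]

end RHelp

theorem help {M : Type} [TopologicalSpace M] [T2Space M] (hM : Chartd M n)
    (hc : ∀ k ≤ n, Con A k) {K : Set M} (hK : IsCompact K) {f : M → Z} (hf : Continuous f) :
    ∃ g, Df univ f g ∧ ∀ x ∈ K, g x ∈ A := by
  have key : ∀ (g : M → Z) (C : Set M), Continuous g → IsClosed C → Nr A g C →
      ∃ g' C', Df univ g g' ∧ IsClosed C' ∧ C ⊆ C' ∧ K ⊆ C' ∧ Nr A g' C' := by
    refine hK.induction_on (p := fun S => ∀ (g : M → Z) (C : Set M), Continuous g → IsClosed C →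
      Nr A g C → ∃ g' C', Df univ g g' ∧ IsClosed C' ∧ C ⊆ C' ∧ S ⊆ C' ∧ Nr A g' C')
      (fun g C a b c => ⟨g, C, Df.refl a.continuousOn, b, subset_rfl, empty_subset _, c⟩)
      (fun S T hST h g C a b c => ?_) (fun S T hS hT g C a b c => ?_) fun x _ => ?_
    · obtain ⟨g', C', a1, a2, a3, a4, a5⟩ := h g C a b c
      exact ⟨g', C', a1, a2, a3, hST.trans a4, a5⟩
    · obtain ⟨g', C', a1, a2, a3, a4, a5⟩ := hS g C a b c
      obtain ⟨g'', C'', b1, b2, b3, b4, b5⟩ := hT g' C' (continuousOn_univ.1 a1.cont) a2 a5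
      exact ⟨g'', C'', a1.trans b1, b2, a3.trans b3, union_subset (a4.trans b3) b4, b5⟩
    · obtain ⟨e, he⟩ := hM x
      obtain ⟨T, a1, a2, a3⟩ := local_compact_nhds (e.open_source.mem_nhds (e.map_target he))
      have a4 := e.image_mem_nhds (e.map_target he) a1
      rw [e.right_inv he] at a4
      refine ⟨e '' T, mem_nhdsWithin_of_mem_nhds a4, fun g C a b c => ?_⟩
      obtain ⟨g', b1, b2⟩ := RHelp.chart hc e a3 a2 a b c
      exact ⟨g', _, b1, b.union (a3.image_of_continuousOn (e.continuousOn.mono a2)).isClosed,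
        subset_union_left, subset_union_right, b2⟩
  obtain ⟨g, C, a1, -, -, a2, a3⟩ := key f ∅ hf isClosed_empty fun _ h => h.elim
  exact ⟨g, a1, fun x hx => (a3 x (a2 hx)).self_of_nhds⟩

end HW
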