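import Pool.Agent.P.MP_9699e0_gt.W.ValA

/-! The relative homotopy group as an abelian group. -/

set_option autoImplicit false
set_option linter.unusedSectionVars false

noncomputable section

namespace HW

open HK3 Pool.Agent.P.MP_9699e0_gt Set Filter Topology

variable {Z : Type} [TopologicalSpace Z] {A : Set Z} {n : ℕ}

namespace RValB

open Function (update)

variable {a : Z}

theorem cle_of_le {i : Fin n} {c : ℝ} {x : Eu n} (h : x i ≤ c) : cle i c x = x := by
  rw [cle, min_eq_left h, Function.update_eq_self]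

theorem cge_of_le {i : Fin n} {c : ℝ} {x : Eu n} (h : c ≤ x i) : cge i c x = x := by
  rw [cge, max_eq_left h, Function.update_eq_self]

theorem cle_self (i : Fin n) (c : ℝ) (x : Eu n) : cle i c x i = min (x i) c :=
  Function.update_self ..

theorem cge_self (i : Fin n) (c : ℝ) (x : Eu n) : cge i c x i = max (x i) c :=
  Function.update_self ..

theorem norm_upd (x : Eu n) (i : Fin n) {t d : ℝ} (hd : 0 ≤ d) (h : |x i| ≤ |t| + d) :
    ‖x‖ ≤ ‖update x i t‖ + d := by
  refine (pi_norm_le_iff_of_nonneg (by positivity)).2 fun j => ?_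
  have h1 := norm_le_pi_norm (update x i t) j
  by_cases k : j = i
  · subst k
    rw [Function.update_self, Real.norm_eq_abs] at h1
    rw [Real.norm_eq_abs]
    linarith
  · rw [Function.update_of_ne k] at h1
    linarith

theorem half {H : ℝ → Eu n → Z} (hH : Continuous fun p : ℝ × Eu n => H p.1 p.2) {R : ℝ}
    (hR : ∀ s ∈ Icc (0 : ℝ) 1, ∀ x, R ≤ ‖x‖ → H s x ∈ A) {i : Fin n} {c : ℝ}
    (hc : ∀ s ∈ Icc (0 : ℝ) 1, ∀ x, x i = c → H s x ∈ A) :
    Hty A (H 0 ∘ cle i c) (H 1 ∘ cle i c) ∧ Hty A (H 0 ∘ cge i c) (H 1 ∘ cge i c) := by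
  refine ⟨⟨fun s x => H s (cle i c x),
    hH.comp (continuous_fst.prodMk ((continuous_cle i c).comp continuous_snd)), rfl, rfl, R,
      fun s hs x hx => ?_⟩, ⟨fun s x => H s (cge i c x),
    hH.comp (continuous_fst.prodMk ((continuous_cge i c).comp continuous_snd)), rfl, rfl, R,
      fun s hs x hx => ?_⟩⟩ <;> rcases le_total (x i) c with h | h
  · exact hR s hs _ (by rwa [cle_of_le h])
  · exact hc s hs _ ((cle_self i c x).trans (min_eq_right h))
  · exact hc s hs _ ((cge_self i c x).trans (max_eq_right h))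
  · exact hR s hs _ (by rwa [cge_of_le h])

theorem norm0 (hA : IsPathConnected A) (ha : a ∈ A) {h : Eu (n + 1) → Z} (hh : Rel A h)
    (h0 : ∀ x, x 0 = 0 → h x ∈ A) : ∃ k, Hty A h k ∧ Hty A (h ∘ cle 0 0) (k ∘ cle 0 0) ∧
      Hty A (h ∘ cge 0 0) (k ∘ cge 0 0) ∧ (∀ x, x 0 = 0 → k x = a) ∧
      ∀ x, x 0 ≤ -1 → k x = h (update x 0 (x 0 + 1)) := by
  obtain ⟨K, hK, K0, K1, -⟩ := hty_const (Z := A) (A := univ)
    (pathConnectedSpace_iff_univ.1 (isPathConnected_iff_pathConnectedSpace.1 hA)) (a := ⟨a, ha⟩)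
    trivial (f := fun x : Eu (n + 1) => ⟨h (update x 0 0), h0 _ (Function.update_self ..)⟩)
    ((hh.cont.comp (continuous_id.update 0 continuous_const)).subtype_mk _) fun _ => trivial
  obtain ⟨R, hR⟩ := hh.far
  let H : ℝ → Eu (n + 1) → Z := fun s x => if s ≤ |x 0| then
    h (update x 0 (max (x 0 - s) 0 + min (x 0 + s) 0)) else K (s - |x 0|) x
  have hH : Continuous fun p : ℝ × Eu (n + 1) => H p.1 p.2 := by
    refine Continuous.if_le (hh.cont.comp (continuous_snd.update 0 (by fun_prop)))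
      (continuous_subtype_val.comp (hK.comp (f := fun p : ℝ × Eu (n + 1) => (p.1 - |p.2 0|, p.2))
        (by fun_prop))) continuous_fst (by fun_prop) fun p hp => ?_
    rw [hp, sub_self, K0, max_eq_right (sub_nonpos.2 (le_abs_self _)),
      min_eq_right (by linarith [neg_abs_le (p.2 0)]), add_zero]
  have H0 : H 0 = h := funext fun x => (if_pos (abs_nonneg _)).trans (by
    rw [sub_zero, add_zero, max_add_min, add_zero, Function.update_eq_self])
  have far : ∀ s ∈ Icc (0 : ℝ) 1, ∀ x, R + 1 ≤ ‖x‖ → H s x ∈ A := by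
    intro s hs x hx
    by_cases k : s ≤ |x 0|
    · refine mem_of_eq_of_mem (if_pos k) (hR _ ?_)
      have h1 := norm_upd x 0 (t := max (x 0 - s) 0 + min (x 0 + s) 0) hs.1 (by
        rcases le_abs'.1 k with l | l
        · rw [max_eq_right (by linarith [hs.1]), min_eq_left (by linarith), zero_add,
            abs_of_nonpos (by linarith [hs.1]), abs_of_nonpos (by linarith)]
          linarith
        · rw [max_eq_left (by linarith), min_eq_right (by linarith [hs.1]), add_zero,
            abs_of_nonneg (by linarith [hs.1]), abs_of_nonneg (by linarith)]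
          linarith)
      linarith [hs.2]
    · exact mem_of_eq_of_mem (if_neg k) (K _ x).2
  have hh' := half hH far (i := 0) (c := 0) fun s hs x hx => by
    by_cases k : s ≤ |x 0|
    · refine mem_of_eq_of_mem (if_pos k) (h0 _ ?_)
      rw [Function.update_self, hx, max_eq_right (by linarith [hs.1]),
        min_eq_right (by linarith [hs.1]), add_zero]
    · exact mem_of_eq_of_mem (if_neg k) (K _ x).2
  rw [H0] at hh'
  refine ⟨H 1, ⟨H, hH, H0, rfl, R + 1, far⟩, hh'.1, hh'.2, fun x hx => ?_, fun x hx => ?_⟩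
  · refine (if_neg (by rw [hx, abs_zero]; norm_num)).trans ?_
    rw [hx, abs_zero, sub_zero, K1]
  · refine (if_pos (le_abs'.2 (Or.inl hx))).trans ?_
    rw [max_eq_right (by linarith), min_eq_left (by linarith), zero_add]

theorem cat_cle {f g : Eu (n + 1) → Z} (hf : Lft a f) : cat f g ∘ cle 0 0 = f := by
  funext x
  refine (if_pos ((cle_self 0 0 x).trans_le (min_le_right _ _))).trans ?_
  rcases le_total (x 0) 0 with h | h
  · rw [cle_of_le h]
  · rw [hf x h, hf _ ((cle_self 0 0 x).trans (min_eq_right h)).ge]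

theorem cat_cge {f g : Eu (n + 1) → Z} (hf : Lft a f) (hg : Rgt a g) :
    cat f g ∘ cge 0 0 = g := by
  funext x
  rcases le_or_gt (x 0) 0 with h | h
  · have h1 := (cge_self 0 0 x).trans (max_eq_right h)
    exact (if_pos h1.le).trans ((hf _ h1.ge).trans (hg x h).symm)
  · rw [Function.comp_apply, cge_of_le h.le]
    exact if_neg h.not_ge

/-- rotation by a right angle -/
def rot (i j : Fin n) (x : Eu n) : Eu n := update (update x i (-x j)) j (x i)

theorem rot_a {i j : Fin n} (h : i ≠ j) (m : ℝ → ℝ) (x : Eu n) :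
    rot i j (update x i (m (x i))) = update (rot i j x) j (m (rot i j x j)) := by
  simp [rot, h.symm]

theorem rot_b {i j : Fin n} (h : i ≠ j) (m : ℝ → ℝ) (x : Eu n) :
    rot i j (update x j (m (x j))) = update (rot i j x) i (-m (-rot i j x i)) := by
  funext k
  by_cases k1 : k = j
  · simp [rot, k1, h, h.symm]
  · by_cases k2 : k = i
    · simp [rot, k2, h]
    · simp [rot, k1, k2]

theorem shift_upd (i : Fin n) (c t : ℝ) (x : Eu n) :
    update x i t + Pi.single i c = update (x + Pi.single i c) i (t + c) := by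
  funext k
  by_cases k1 : k = i
  · simp [k1]
  · simp [k1]

/-- classes of maps with the operation induced by concatenation -/
structure Pre (A : Set Z) (a : Z) {G : Type} (v : (Eu (n + 2) → Z) → G) (ad : G → G → G) :
    Prop where
  conn : IsPathConnected A
  mem : a ∈ A
  hty : ∀ {f g}, Hty A f g → v f = v g
  exa : ∀ {f g}, Rel A f → Rel A g → v f = v g → Hty A f g
  lft : ∀ p, ∃ f, Rel A f ∧ Lft a f ∧ v f = p
  rgt : ∀ p, ∃ f, Rel A f ∧ Rgt a f ∧ v f = p
  cat : ∀ {f g}, Rel A f → Rel A g → Lft a f → Rgt a g → v (cat f g) = ad (v f) (v g)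

theorem exists_pre (hA : IsSimplyConnected A) (ha : a ∈ A) (n : ℕ) :
    ∃ (G : Type) (v : (Eu (n + 2) → Z) → G) (ad : G → G → G), Pre A a v ad := by
  classical
  let S : Setoid {f : Eu (n + 2) → Z // Rel A f} :=
    ⟨fun f g => Hty A f.1 g.1, fun f => Hty.refl f.2, Hty.symm, Hty.trans⟩
  let v : (Eu (n + 2) → Z) → Quotient S := fun f => if h : Rel A f then Quotient.mk S ⟨f, h⟩
    else Quotient.mk S ⟨fun _ => a, continuous_const, 0, fun _ _ => ha⟩
  have hv : ∀ {f} (h : Rel A f), v f = Quotient.mk S ⟨f, h⟩ := fun h => dif_pos h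
  have h1 : ∀ {f g}, Hty A f g → v f = v g := fun h =>
    (hv h.left).trans ((Quotient.sound h).trans (hv h.right).symm)
  have h2 : ∀ {f g}, Rel A f → Rel A g → v f = v g → Hty A f g := fun hf hg h =>
    Quotient.exact ((hv hf).symm.trans (h.trans (hv hg)))
  have h3 : ∀ p, ∃ f, Rel A f ∧ Lft a f ∧ v f = p := fun p => by
    obtain ⟨⟨f, hf⟩, rfl⟩ := Quotient.exists_rep p
    obtain ⟨g, k1, k2⟩ := hf.exists_lft hA.isPathConnected ha
    exact ⟨g, k1.right, k2, (h1 k1).symm.trans (hv hf)⟩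
  have h4 : ∀ p, ∃ f, Rel A f ∧ Rgt a f ∧ v f = p := fun p => by
    obtain ⟨⟨f, hf⟩, rfl⟩ := Quotient.exists_rep p
    obtain ⟨g, k1, k2⟩ := hf.exists_rgt hA.isPathConnected ha
    exact ⟨g, k1.right, k2, (h1 k1).symm.trans (hv hf)⟩
  choose L L1 L2 L3 using id h3
  choose R R1 R2 R3 using id h4
  exact ⟨_, v, fun p q => v (cat (L p) (R q)), hA.isPathConnected, ha, h1, h2, h3, h4,
    fun hf hg k1 k2 => h1 (Hty.concat hA ha (h2 hf (L1 _) (L3 _).symm) (h2 hg (R1 _) (R3 _).symm)
      k1 (L2 _) k2 (R2 _))⟩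

/-- the cut formula -/
def Cut (A : Set Z) {G : Type} (v : (Eu n → Z) → G) (ad : G → G → G) (i : Fin n) (c : ℝ) : Prop :=
  ∀ h, Rel A h → (∀ x, x i = c → h x ∈ A) → v h = ad (v (h ∘ cle i c)) (v (h ∘ cge i c))

namespace Pre

variable {G : Type} {v : (Eu (n + 2) → Z) → G} {ad : G → G → G} (P : Pre A a v ad)
include P

theorem cut0 : Cut A v ad 0 0 := by
  intro h hh h0
  obtain ⟨k, k1, k2, k3, k4, -⟩ := norm0 P.conn P.mem hh h0
  have e : k = HW.cat (k ∘ cle 0 0) (k ∘ cge 0 0) := funext fun x => by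
    by_cases l : x 0 ≤ 0
    · exact ((if_pos l).trans (congrArg k (cle_of_le l))).symm
    · exact ((if_neg l).trans (congrArg k (cge_of_le (not_le.1 l).le))).symm
  rw [P.hty k1, P.hty k2, P.hty k3, ← P.cat k2.right k3.right
    (fun x hx => k4 _ ((cle_self 0 0 x).trans (min_eq_right hx)))
    (fun x hx => k4 _ ((cge_self 0 0 x).trans (max_eq_right hx))), ← e]

theorem cut_a {bd : G → G → G} {i j : Fin (n + 2)} (hij : i ≠ j) (hc : Cut A v bd i 0) :
    Cut A v bd j 0 := by
  intro h hh h0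
  have k1 := hh.rot hij
  rw [P.hty k1, hc _ k1.right fun x hx => h0 _ ((Function.update_self ..).trans hx),
    P.hty ((hh.comp_cle h0).rot hij), P.hty ((hh.comp_cge h0).rot hij)]
  congr 2
  · exact funext fun x => congrArg h (rot_a hij (min · 0) x)
  · exact funext fun x => congrArg h (rot_a hij (max · 0) x)

theorem cut_b {i j : Fin (n + 2)} (hij : i ≠ j) (hc : Cut A v ad j 0) :
    Cut A v (fun p q => ad q p) i 0 := by
  intro h hh h0
  have k1 := hh.rot hij
  rw [P.hty k1, hc _ k1.right fun x hx => h0 _ (by simp [hij, hx]),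
    P.hty ((hh.comp_cle h0).rot hij), P.hty ((hh.comp_cge h0).rot hij)]
  beta_reduce
  congr 2
  · refine funext fun x => congrArg h ((rot_b hij (min · 0) x).trans ?_)
    rw [← max_neg_neg, neg_neg, neg_zero]
    rfl
  · refine funext fun x => congrArg h ((rot_b hij (max · 0) x).trans ?_)
    rw [← min_neg_neg, neg_neg, neg_zero]
    rfl

theorem cut (i : Fin (n + 2)) (c : ℝ) : Cut A v ad i c := by
  have hc : Cut A v ad i 0 := by
    by_cases k : 0 = i
    · exact k ▸ P.cut0
    · exact P.cut_a k P.cut0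
  intro h hh h0
  have k1 := hh.shift (Pi.single i c)
  rw [P.hty k1, hc _ k1.right fun x hx => h0 _ (by simp [hx]),
    P.hty ((hh.comp_cle h0).shift (Pi.single i c)), P.hty ((hh.comp_cge h0).shift (Pi.single i c))]
  congr 2
  · refine funext fun x => congrArg h ((shift_upd i c _ x).trans ?_)
    rw [← min_add_add_right, zero_add, cle, Pi.add_apply, Pi.single_eq_same]
  · refine funext fun x => congrArg h ((shift_upd i c _ x).trans ?_)
    rw [← max_add_add_right, zero_add, cge, Pi.add_apply, Pi.single_eq_same]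

theorem comm (p q : G) : ad p q = ad q p := by
  obtain ⟨f, f1, f2, rfl⟩ := P.lft p
  obtain ⟨g, g1, g2, rfl⟩ := P.rgt q
  have h := P.cut_b (i := 0) (j := 1) Fin.zero_ne_one (P.cut 1 0) _ (f1.concat g1 f2 g2)
    fun x hx => mem_of_eq_of_mem ((if_pos hx.le).trans (f2 x hx.ge)) P.mem
  rwa [cat_cle f2, cat_cge f2 g2, P.cat f1 g1 f2 g2] at h

theorem inA {f : Eu (n + 2) → Z} (hf : Continuous f) (h : ∀ x, f x ∈ A) : v f = v fun _ => a :=
  P.hty (hty_const P.conn P.mem hf h)

theorem zero (p : G) : ad (v fun _ => a) p = p := by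
  obtain ⟨g, g1, g2, rfl⟩ := P.rgt p
  rw [← P.cat ⟨continuous_const, 0, fun _ _ => P.mem⟩ g1 (fun _ _ => rfl) g2]
  refine congrArg v (funext fun x => ?_)
  by_cases l : x 0 ≤ 0
  · exact (if_pos l).trans (g2 x l).symm
  · exact if_neg l

theorem neg (p : G) : ∃ q, ad q p = v fun _ => a := by
  obtain ⟨f, f1, f2, rfl⟩ := P.lft p
  obtain ⟨R, hR⟩ := f1.far
  have g1 : Rel A fun x => f (update x 0 (-x 0)) :=
    ⟨f1.cont.comp (continuous_id.update 0 (by fun_prop)), R, fun x hx => hR _ (by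
      linarith [norm_upd x 0 (t := -x 0) le_rfl (by rw [abs_neg, add_zero])])⟩
  have k : ∀ (x : Eu (n + 2)) (t : ℝ), 0 ≤ t → |-|x 0| - t| = |x 0| + t := fun x t ht => by
    rw [abs_of_nonpos (by linarith [abs_nonneg (x 0)])]
    ring
  have h := Hty.of_maps (A := A) f1.cont (fun s x => update x 0 (-|x 0| - s * |R|))
    (continuous_snd.update 0 (by fun_prop)) ⟨R, fun s hs x hx => hR _ (by
      have h1 := mul_nonneg hs.1 (abs_nonneg R)
      linarith [norm_upd x 0 (t := -|x 0| - s * |R|) le_rfl (by rw [k x _ h1]; linarith)])⟩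
  refine ⟨v fun x => f (update x 0 (-x 0)), ?_⟩
  rw [P.comm, ← P.cat f1 g1 f2 fun x hx => f2 _ (by rw [Function.update_self]; linarith),
    ← P.inA h.right.cont fun x => hR _ ?_, ← P.hty h]
  · refine congrArg v (funext fun x => ?_)
    by_cases l : x 0 ≤ 0
    · refine (if_pos l).trans (congrArg f ?_)
      simp [abs_of_nonpos l]
    · refine (if_neg l).trans (congrArg f ?_)
      simp [abs_of_pos (not_le.1 l)]
  · refine le_trans ?_ (norm_le_pi_norm _ 0)
    beta_reduce
    rw [Function.update_self, Real.norm_eq_abs, one_mul, k x _ (abs_nonneg R)]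
    linarith [abs_nonneg (x 0), le_abs_self R]

theorem mid (q : G) : ∃ (g : Eu (n + 2) → Z) (c : ℝ), 0 < c ∧ Rel A g ∧ Lft a g ∧
    (∀ x, x 0 ≤ -c → g x = a) ∧ v g = q := by
  obtain ⟨g, g1, g2, rfl⟩ := P.rgt q
  obtain ⟨R, hR⟩ := g1.far
  have k1 := g1.shift (Pi.single 0 |R|)
  have k2 : ∀ x : Eu (n + 2), 0 ≤ x 0 → g (x + Pi.single 0 |R|) ∈ A := fun x hx => hR _ (by
    refine le_trans ?_ ((le_abs_self _).trans (norm_le_pi_norm (x + Pi.single 0 |R|) 0))
    rw [Pi.add_apply, Pi.single_eq_same]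
    linarith [le_abs_self R])
  obtain ⟨k, -, k3, -, k4, k5⟩ := norm0 P.conn P.mem k1.right fun x hx => k2 x hx.ge
  refine ⟨k ∘ cle 0 0, |R| + 1, by positivity, k3.right,
    fun x hx => k4 _ ((cle_self 0 0 x).trans (min_eq_right hx)), fun x hx => ?_, ?_⟩
  · have := abs_nonneg R
    rw [Function.comp_apply, cle_of_le (by linarith), k5 x (by linarith)]
    refine g2 _ ?_
    rw [Pi.add_apply, Pi.single_eq_same, Function.update_self]
    linarith
  · rw [← P.hty k3, P.hty k1, P.cut0 _ k1.right fun x hx => k2 x hx.ge, P.comm,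
      P.inA (k1.right.cont.comp (continuous_cge 0 0))
        fun x => k2 _ ((le_max_right _ _).trans (cge_self 0 0 x).ge), P.zero]

theorem assoc (p q r : G) : ad (ad p q) r = ad p (ad q r) := by
  obtain ⟨f, f1, f2, rfl⟩ := P.lft p
  obtain ⟨g, c, hc, g1, g2, g3, rfl⟩ := P.mid q
  obtain ⟨k, k1, k2, rfl⟩ := P.rgt r
  have a1 := g1.shift (-Pi.single 0 c)
  have a2 : Rgt a fun x => g (x + -Pi.single 0 c) := fun x hx => g3 _ (by simpa using hx)
  have a3 := (f1.concat a1.right f2 a2).shift (Pi.single 0 c)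
  obtain ⟨u, hu, u1, u2⟩ : ∃ u, Hty A (HW.cat f fun x => g (x + -Pi.single 0 c)) u ∧
      (∀ x, x 0 ≤ -c → u x = f (x + Pi.single 0 c)) ∧ ∀ x, -c < x 0 → u x = g x :=
    ⟨_, a3, fun x hx => if_pos (by simpa using (le_neg_iff_add_nonpos_right.1 hx)),
      fun x hx => (if_neg (by simpa using (neg_lt_iff_pos_add.1 hx))).trans
        (congrArg g (add_neg_cancel_right ..))⟩
  have u3 : Lft a u := fun x hx => (u2 x (by linarith)).trans (g2 x hx)
  have u4 : ∀ x, x 0 = -c → HW.cat u k x = a := fun x hx =>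
    (if_pos (by linarith)).trans ((u1 x hx.le).trans (f2 _ (by simp [hx])))
  have h := P.cut 0 (-c) _ (hu.right.concat k1 u3 k2) fun x hx => (u4 x hx).symm ▸ P.mem
  have e1 : HW.cat u k ∘ cle 0 (-c) = fun x => f (x + Pi.single 0 c) := funext fun x => by
    rcases le_total (x 0) (-c) with l | l
    · rw [Function.comp_apply, cle_of_le l]
      exact (if_pos (by linarith)).trans (u1 x l)
    · exact (u4 _ ((cle_self 0 _ x).trans (min_eq_right l))).trans
        (f2 _ (by simpa using (neg_le_iff_add_nonneg.1 l))).symm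
  have e2 : HW.cat u k ∘ cge 0 (-c) = HW.cat g k := funext fun x => by
    rcases le_or_gt (x 0) (-c) with l | l
    · exact (u4 _ ((cge_self 0 _ x).trans (max_eq_right l))).trans
        ((if_pos (by linarith)).trans (g3 x l)).symm
    · rw [Function.comp_apply, cge_of_le l.le, HW.cat, HW.cat, u2 x l]
  rwa [e1, e2, P.cat hu.right k1 u3 k2, P.cat g1 k1 g2 k2, ← P.hty hu, ← P.hty (f1.shift _),
    P.cat f1 a1.right f2 a2, ← P.hty a1] at h

end Pre

end RValB

theorem exists_val (hA : IsSimplyConnected A) (n : ℕ) :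
    ∃ (G : Type) (_ : AddCommGroup G) (v : (Eu (n + 2) → Z) → G), IsVal A v := by
  obtain ⟨a, ha⟩ := hA.isPathConnected.nonempty
  obtain ⟨G, v, ad, P⟩ := RValB.exists_pre hA ha n
  choose ng hng using P.neg
  let _ : Add G := ⟨ad⟩
  let _ : Neg G := ⟨ng⟩
  let _ : Zero G := ⟨v fun _ => a⟩
  let inst : AddCommGroup G :=
    { AddGroup.ofLeftAxioms P.assoc P.zero hng with add_comm := P.comm }
  exact ⟨G, inst, v, P.hty, fun i c => P.cut i c _, P.inA, fun hf h =>
    ⟨_, fun _ => ha, P.exa hf ⟨continuous_const, 0, fun _ _ => ha⟩ h⟩⟩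

end HW
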