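import Pool.Agent.P.MP_9699e0_gt.W.Qsx
import Pool.Agent.P.MP_9699e0_gt.W.Eil
import Pool.Agent.P.MP_9699e0_gt.W.ValB
import Pool.Agent.P.MP_9699e0_gt.W.Gen

/-! The relative Hurewicz theorem (injectivity) and compression. -/

set_option autoImplicit false
set_option linter.unusedSectionVars false

noncomputable section

namespace HW

open HK3 Pool.Agent.P.MP_9699e0_gt Set Filter Topology

variable {Z : Type} [TopologicalSpace Z] {A : Set Z} {n : ℕ}

namespace RHure

theorem face_zero (i : Fin (n + 2)) (u : Dl n) :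
    (stdSimplex.map i.succAbove u : Dl (n + 1)) i = 0 := by
  rw [stdSimplex.map_coe, FunOnFinite.linearMap_apply_apply]
  refine Finset.sum_eq_zero fun j hj => ?_
  exact absurd (Finset.mem_filter.1 hj).2 (Fin.succAbove_ne i j)

theorem unit_far {f : Eu n → Z} (h : Nul A f) (h1 : ∀ x, 1 ≤ ‖x‖ → f x ∈ A) :
    ∃ H : ℝ → Eu n → Z, Continuous (fun p : ℝ × Eu n => H p.1 p.2) ∧ H 0 = f ∧
      (∀ x, H 1 x ∈ A) ∧ ∀ s ∈ Icc (0 : ℝ) 1, ∀ x, 1 ≤ ‖x‖ → H s x ∈ A := by
  obtain ⟨g, hg, H, hH, h0, h1', R₀, hR₀⟩ := h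
  obtain ⟨R, hR1, hR⟩ : ∃ R : ℝ, 1 ≤ R ∧ ∀ s ∈ Icc (0 : ℝ) 1, ∀ x, R ≤ ‖x‖ → H s x ∈ A :=
    ⟨max R₀ 1, le_max_right _ _, fun s hs x hx => hR₀ s hs x ((le_max_left _ _).trans hx)⟩
  refine ⟨fun s x => H (max 0 (2 * s - 1)) ((1 + min 1 (2 * s) * (R - 1)) • x), ?_, ?_, ?_, ?_⟩
  · exact hH.comp (f := fun p : ℝ × Eu n =>
      (max 0 (2 * p.1 - 1), (1 + min 1 (2 * p.1) * (R - 1)) • p.2)) (by fun_prop)
  · funext x
    norm_num [h0]
  · intro x
    have e : max (0 : ℝ) (2 * 1 - 1) = 1 := by norm_num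
    simp only [e, h1']
    exact hg _
  · intro s hs x hx
    by_cases h2 : 2 * s ≤ 1
    · have e : max (0 : ℝ) (2 * s - 1) = 0 := max_eq_left (by linarith)
      simp only [e, h0, min_eq_right h2]
      refine h1 _ ?_
      have h3 : 0 ≤ 2 * s * (R - 1) := mul_nonneg (by linarith [hs.1]) (by linarith)
      rw [norm_smul, Real.norm_of_nonneg (by linarith)]
      nlinarith
    · have h3 : 1 ≤ 2 * s := by linarith
      simp only [min_eq_left h3]
      refine hR _ ⟨le_max_left _ _, max_le zero_le_one (by linarith [hs.2])⟩ _ ?_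
      rw [norm_smul, Real.norm_of_nonneg (by linarith)]
      nlinarith

/-- The radial factor. -/
def lam (s r : ℝ) : ℝ := (1 + |s|) / max 1 ((1 + |s|) * min 1 r)

theorem lam_cont : Continuous fun p : ℝ × ℝ => lam p.1 p.2 := by
  unfold lam
  refine Continuous.div (by fun_prop) (by fun_prop) fun p => ?_
  exact (lt_of_lt_of_le one_pos (le_max_left _ _)).ne'

theorem lam_zero (r : ℝ) : lam 0 r = 1 := by
  simp [lam]

theorem lam_far (s : ℝ) {r : ℝ} (h : 1 ≤ r) : lam s r = 1 := by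
  have h1 := abs_nonneg s
  unfold lam
  rw [min_eq_left h, mul_one, max_eq_right (by linarith), div_self (by linarith)]

theorem lam_near {r : ℝ} (h : 2 * r ≤ 1) : lam 1 r = 2 := by
  unfold lam
  rw [min_eq_right (by linarith), abs_one, max_eq_left (by linarith)]
  norm_num

theorem lam_mid {r : ℝ} (h : 1 ≤ 2 * r) (h' : r ≤ 1) : lam 1 r = 1 / r := by
  unfold lam
  rw [min_eq_right h', abs_one, max_eq_right (by linarith)]
  have : r ≠ 0 := (show 0 < r by linarith).ne'
  field_simp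

theorem norm_one (x : Eu 1) : ‖x‖ = |x 0| := by
  have e : x = fun _ => x 0 := funext fun i => by rw [Subsingleton.elim i 0]
  rw [e, pi_norm_const, Real.norm_eq_abs]

end RHure

theorem hur (hA : IsSimplyConnected A) (hc : ∀ k < n + 2, Con A k) {f : Eu (n + 2) → Z}
    (hf : Continuous f) {R : ℝ} (hR : ∀ x, R ≤ ‖x‖ → f x ∈ A)
    (h : ∀ c : Chn ℤ (Eu (n + 2)) (n + 2),
      bd ℤ _ (n + 1) c ∈ chn ℤ {x : Eu (n + 2) | R ≤ ‖x‖} (n + 1) →
        cmap ℤ f (n + 2) c ∈ bdy ℤ univ (n + 2) ⊔ chn ℤ A (n + 2)) : Nul A f := by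
  obtain ⟨G, _, v, hv⟩ := exists_val hA n
  obtain ⟨θ, hθ, hθ'⟩ := exists_theta (n + 2) R
  obtain ⟨e, e', h1, h2, h3⟩ := exists_eil (A := A) (n := n + 2) fun k hk => (hc k hk).cmp
  let a : Simp Z (n + 2) → G := fun σ => v (e σ ∘ qq (n + 2))
  have hcob : cobd a = 0 := by
    funext τ
    have := hv.hat_simp (h3 τ)
    simp only [h1] at this
    exact this
  have hA0 : ∀ c ∈ chn ℤ A (n + 2), ev ℤ a c = 0 := by
    intro c hc'
    refine ChB_ext (ev ℤ a) 0 (fun σ hσ => ?_) hc'
    have hb : Bdy A σ := fun t _ => hσ (mem_range_self t)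
    rw [ev_single, one_smul, LinearMap.zero_apply]
    change v (e σ ∘ qq (n + 2)) = 0
    rw [h2 σ hb]
    exact hv.inA (σ.continuous.comp (continuous_qq _)) fun x => hσ (mem_range_self _)
  have hθc : bd ℤ _ (n + 1) (Finsupp.single θ 1) ∈ chn ℤ {x : Eu (n + 2) | R ≤ ‖x‖} (n + 1) := by
    rw [bd_single]
    refine Submodule.sum_mem _ fun i _ => Submodule.smul_mem _ _ (single_mem ?_ 1)
    rintro _ ⟨u, rfl⟩
    exact hθ _ ⟨i, RHure.face_zero i u⟩
  have h4 : ev ℤ a (cmap ℤ f (n + 2) (Finsupp.single θ 1)) = 0 := by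
    obtain ⟨b, hb, c, hc', hbc⟩ := Submodule.mem_sup.1 (h _ hθc)
    rw [← hbc, map_add, ev_bdy hcob hb, hA0 c hc', add_zero]
  have h5 : ⇑(smap f θ) = f ∘ θ :=
    funext fun t => smap_apply hf.continuousOn (subset_univ _) t
  have h6 : Bdy A (smap f θ) := fun t ht => by
    rw [h5]
    exact hR _ (hθ t ht)
  rw [cmap_single, ev_single, one_smul] at h4
  change v (e (smap f θ) ∘ qq (n + 2)) = 0 at h4
  rw [h2 _ h6, h5] at h4
  exact hv.nul ⟨hf, R, hR⟩ ((hv.hty (hθ' Z A f hf hR)).trans h4)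

theorem Nul.compress {f : Eu n → Z} (h : Nul A f) (h1 : ∀ x, 1 ≤ ‖x‖ → f x ∈ A) :
    ∃ G : ℝ → Eu n → Z, Continuous (fun p : ℝ × Eu n => G p.1 p.2) ∧ G 0 = f ∧
      (∀ s x, 1 ≤ ‖x‖ → G s x = f x) ∧ ∀ x, G 1 x ∈ A := by
  obtain ⟨H, hH, h0, h2, h3⟩ := RHure.unit_far h h1
  refine ⟨fun s x => H (RHure.lam s ‖x‖ - 1) (RHure.lam s ‖x‖ • x), ?_, ?_, ?_, ?_⟩
  · have hl : Continuous fun p : ℝ × Eu n => RHure.lam p.1 ‖p.2‖ :=
      RHure.lam_cont.comp (f := fun p : ℝ × Eu n => (p.1, ‖p.2‖)) (by fun_prop)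
    exact hH.comp (f := fun p : ℝ × Eu n =>
      (RHure.lam p.1 ‖p.2‖ - 1, RHure.lam p.1 ‖p.2‖ • p.2))
      ((hl.sub continuous_const).prodMk (hl.smul continuous_snd))
  · funext x
    simp only [RHure.lam_zero, sub_self, one_smul, h0]
  · intro s x hx
    simp only [RHure.lam_far s hx, sub_self, one_smul, h0]
  · intro x
    by_cases hx : 1 ≤ ‖x‖
    · simp only [RHure.lam_far 1 hx, sub_self, one_smul, h0]
      exact h1 x hx
    · by_cases hx' : 2 * ‖x‖ ≤ 1
      · have e : (2 : ℝ) - 1 = 1 := by norm_num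
        simp only [RHure.lam_near hx', e]
        exact h2 _
      · have h4 : 0 < ‖x‖ := by linarith
        simp only [RHure.lam_mid (not_le.1 hx').le (not_le.1 hx).le]
        refine h3 _ ⟨?_, ?_⟩ _ ?_
        · rw [sub_nonneg, le_div_iff₀ h4]
          linarith
        · rw [sub_le_iff_le_add, div_le_iff₀ h4]
          linarith
        · rw [norm_smul, Real.norm_of_nonneg (by positivity), one_div_mul_cancel h4.ne']

theorem con_zero [PathConnectedSpace Z] (hA : A.Nonempty) : Con A 0 := by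
  intro f _
  obtain ⟨a, ha⟩ := hA
  let γ := PathConnectedSpace.somePath (f 0) a
  refine ⟨fun _ => a, fun _ => ha, fun s _ => γ.extend s,
    γ.continuous_extend.comp continuous_fst, ?_, ?_, 1, fun s _ x hx => ?_⟩
  · funext x
    rw [Subsingleton.elim x 0]
    exact γ.extend_zero
  · funext x
    exact γ.extend_one
  · rw [Subsingleton.elim x 0, norm_zero] at hx
    exact absurd hx (by norm_num)

theorem con_one [SimplyConnectedSpace Z] (hA : IsPathConnected A) : Con A 1 := by
  rintro f ⟨hf, R₀, hR₀⟩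
  obtain ⟨R, hR1, hR⟩ : ∃ R : ℝ, 0 < R ∧ ∀ x, R ≤ ‖x‖ → f x ∈ A :=
    ⟨max R₀ 1, lt_of_lt_of_le one_pos (le_max_right _ _),
      fun x hx => hR₀ x ((le_max_left _ _).trans hx)⟩
  have ha : f (fun _ => -R) ∈ A := hR _ (by rw [RHure.norm_one, abs_neg, abs_of_pos hR1])
  have hb : f (fun _ => R) ∈ A := hR _ (by rw [RHure.norm_one, abs_of_pos hR1])
  let p : Path (f fun _ => -R) (f fun _ => R) :=
    { toFun := fun t => f fun _ => -R + 2 * R * t
      continuous_toFun := hf.comp (by fun_prop)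
      source' := by simp
      target' := by
        congr 1
        funext i
        simp only [Icc.coe_one]
        ring }
  obtain ⟨q, hq⟩ := hA.joinedIn _ ha _ hb
  obtain ⟨F⟩ := SimplyConnectedSpace.paths_homotopic p q
  let c : Eu 1 → unitInterval := fun x => projIcc 0 1 zero_le_one ((x 0 + R) / (2 * R))
  have hc : Continuous c := continuous_projIcc.comp (by fun_prop)
  have hc0 : ∀ x : Eu 1, x 0 ≤ -R → c x = 0 := fun x hx =>
    projIcc_of_le_left _ (div_nonpos_of_nonpos_of_nonneg (by linarith) (by linarith))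
  have hc1 : ∀ x : Eu 1, R ≤ x 0 → c x = 1 := fun x hx =>
    projIcc_of_right_le _ (by rw [le_div_iff₀ (by linarith)]; linarith)
  have h1 : Hty A f fun x => p (c x) := by
    have := Hty.of_maps (A := A) hf
      (fun s (x : Eu 1) => fun _ : Fin 1 => (1 - s) * x 0 + s * (-R + 2 * R * (c x : ℝ)))
      (by fun_prop) ⟨R, fun s hs x hx => hR _ ?_⟩
    · convert this using 1
      · funext x
        simp only [Function.comp_apply, sub_zero, one_mul, zero_mul, add_zero]
        congr 1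
        funext i
        rw [Subsingleton.elim i 0]
      · funext x
        simp only [Function.comp_apply, sub_self, zero_mul, one_mul, zero_add]
        rfl
    · rw [RHure.norm_one] at hx ⊢
      rcases le_abs.1 hx with h2 | h2
      · refine le_abs.2 (Or.inl ?_)
        simp only [hc1 x h2, Icc.coe_one]
        nlinarith [hs.1, hs.2]
      · refine le_abs.2 (Or.inr ?_)
        simp only [hc0 x (by linarith), Icc.coe_zero]
        nlinarith [hs.1, hs.2]
  refine ⟨fun x => q (c x), fun x => hq _, h1.trans ⟨fun s x => F (projIcc 0 1 zero_le_one s, c x),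
    F.continuous.comp ((continuous_projIcc.comp continuous_fst).prodMk (hc.comp continuous_snd)),
    ?_, ?_, R, fun s _ x hx => ?_⟩⟩
  · funext x
    simp only [projIcc_left]
    exact F.map_zero_left _
  · funext x
    simp only [projIcc_right]
    exact F.map_one_left _
  · rw [RHure.norm_one] at hx
    rcases le_abs.1 hx with h2 | h2
    · simp only [hc1 x h2, F.target]
      exact hb
    · simp only [hc0 x (by linarith), F.source]
      exact ha

theorem con_of_rz [SimplyConnectedSpace Z] (hA : IsSimplyConnected A)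
    (h : ∀ k, 1 ≤ k → k + 1 ≤ n → RZ univ A k) : ∀ k ≤ n, Con A k := by
  intro k
  induction k using Nat.strong_induction_on with
  | _ k ih =>
    intro hk
    match k, ih, hk with
    | 0, _, _ => exact con_zero hA.nonempty
    | 1, _, _ => exact con_one hA.isPathConnected
    | j + 2, ih, hk =>
      rintro f ⟨hf, R, hR⟩
      refine hur hA (fun i hi => ih i hi (by omega)) hf hR fun c hc => ?_
      have hu : c ∈ chn ℤ (univ : Set (Eu (j + 2))) (j + 2) := by rw [chn_univ]; trivial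
      refine h (j + 1) (by omega) hk _ (by rw [chn_univ]; trivial) ?_
      rw [cmap_bd hf.continuousOn hu]
      exact cmap_mem hf.continuousOn (fun x hx => hR x hx) hc

end HW
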