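import Pool.Agent.P.MP_9699e0_gt.W.Defs

/-! The bound of Hermite for indefinite integral forms. -/

set_option autoImplicit false
set_option linter.unusedSectionVars false

noncomputable section

namespace HW

open HK3 Pool.Agent.P.MP_9699e0_gt Set Filter Topology

namespace RLatA

open Matrix Module

/-- A vector with a Bezout relation is the first column of a unimodular matrix. -/
lemma exists_unimodular_col {n : ℕ} (x c : Fin (n + 1) → ℤ) (hc : c ⬝ᵥ x = 1) :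
    ∃ P : Matrix (Fin (n + 1)) (Fin (n + 1)) ℤ, IsUnit P.det ∧ ∀ i, P i 0 = x i := by
  classical
  let φ : (Fin (n + 1) → ℤ) →ₗ[ℤ] ℤ :=
    { toFun := fun y => c ⬝ᵥ y
      map_add' := fun y z => by simp [dotProduct_add]
      map_smul' := fun r y => dotProduct_smul r c y }
  have hφ : ∀ y, φ y = c ⬝ᵥ y := fun _ => rfl
  obtain ⟨m, b⟩ := Submodule.basisOfPid (Pi.basisFun ℤ (Fin (n + 1))) (LinearMap.ker φ)
  have hli : ∀ (r : ℤ), ∀ y ∈ LinearMap.ker φ, r • x + y = 0 → r = 0 := by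
    intro r y hy h
    have h1 : φ (r • x + y) = 0 := by rw [h, map_zero]
    rw [map_add, map_smul, LinearMap.mem_ker.mp hy, hφ, hc] at h1
    simpa using h1
  have hsp : ∀ z : Fin (n + 1) → ℤ, ∃ r : ℤ, z + r • x ∈ LinearMap.ker φ := by
    intro z
    refine ⟨-φ z, ?_⟩
    rw [LinearMap.mem_ker, map_add, map_smul, hφ x, hc]
    simp
  let B : Basis (Fin (m + 1)) ℤ (Fin (n + 1) → ℤ) := Basis.mkFinCons x b hli hsp
  have hm : m = n := by
    have h1 := Module.finrank_eq_card_basis B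
    simp at h1
    omega
  subst hm
  refine ⟨(Pi.basisFun ℤ (Fin (m + 1))).toMatrix B, ?_, ?_⟩
  · exact (Pi.basisFun ℤ (Fin (m + 1))).isUnit_det B
  · intro i
    simp [Basis.toMatrix_apply, B]

lemma form_transform {n : ℕ} (G P : Matrix (Fin n) (Fin n) ℤ) (y : Fin n → ℤ) :
    y ⬝ᵥ (Pᵀ * G * P) *ᵥ y = (P *ᵥ y) ⬝ᵥ G *ᵥ (P *ᵥ y) := by
  rw [← Matrix.mulVec_mulVec, ← Matrix.mulVec_mulVec, Matrix.dotProduct_mulVec, Matrix.vecMul_transpose]

lemma near (a ρ : ℤ) (ha : a ≠ 0) : ∃ t : ℤ, 2 * |a * t + ρ| ≤ |a| := by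
  have key : ∀ a : ℤ, 0 < a → ∃ t : ℤ, 2 * |a * t + ρ| ≤ a := fun a ha => by
    refine ⟨-((2 * ρ + a) / (2 * a)), ?_⟩
    have h1 := Int.emod_nonneg (2 * ρ + a) (show (2 * a) ≠ 0 by omega)
    have h2 := Int.emod_lt_of_pos (2 * ρ + a) (show 0 < 2 * a by omega)
    have h3 := Int.mul_ediv_add_emod (2 * ρ + a) (2 * a)
    set q := (2 * ρ + a) / (2 * a)
    set r := (2 * ρ + a) % (2 * a)
    have h4 : 2 * (a * -q + ρ) = r - a := by linarith
    rcases abs_cases (a * -q + ρ) with h | h <;> omega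
  rcases lt_or_gt_of_ne ha with h | h
  · obtain ⟨t, ht⟩ := key (-a) (by omega)
    exact ⟨-t, by rwa [abs_of_neg h, mul_neg, ← neg_mul]⟩
  · rw [abs_of_pos h]
    exact key a h

/-- The reduction step when the first basis vector is a minimal vector. -/
lemma step_zero {n : ℕ} (G : Matrix (Fin (n + 1)) (Fin (n + 1)) ℤ) (hG : G.IsSymm) (a : ℤ)
    (ha : a ≠ 0) (h0 : G 0 0 = a)
    (hmin : ∀ x : Fin (n + 1) → ℤ, x ≠ 0 → |a| ≤ |x ⬝ᵥ G *ᵥ x|) :
    ∃ G' : Matrix (Fin n) (Fin n) ℤ, G'.IsSymm ∧ a * G'.det = a ^ n * G.det ∧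
      ∀ y : Fin n → ℤ, y ≠ 0 → 3 * a ^ 2 ≤ 4 * |y ⬝ᵥ G' *ᵥ y| := by
  classical
  have hs : ∀ i j, G j i = G i j := fun i j => hG.apply i j
  let G' : Matrix (Fin n) (Fin n) ℤ :=
    Matrix.of fun i j => a * G i.succ j.succ - G 0 i.succ * G 0 j.succ
  refine ⟨G', ?_, ?_, ?_⟩
  · ext i j
    simp only [G', Matrix.transpose_apply, Matrix.of_apply]
    rw [hs i.succ j.succ]; ring
  · let E : Matrix (Fin (n + 1)) (Fin (n + 1)) ℤ :=
      Matrix.of fun i j =>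
        Fin.cases (Fin.cases 1 (fun j' => - G 0 j'.succ) j)
          (fun i' => Fin.cases 0 (fun j' => if i' = j' then a else 0) j) i
    have hE : E.det = a ^ n := by
      rw [Matrix.det_succ_column_zero, Fin.sum_univ_succ]
      have h1 : (E.submatrix (Fin.succAbove 0) Fin.succ) = Matrix.diagonal (fun _ => a) := by
        ext i j
        simp [E, Matrix.diagonal_apply]
      rw [h1]
      simp [E]
    have hGE0 : (G * E) 0 0 = a := by
      simp [Matrix.mul_apply, Fin.sum_univ_succ, E, h0]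
    have hGE1 : ∀ j : Fin n, (G * E) 0 j.succ = 0 := by
      intro j
      simp [Matrix.mul_apply, Fin.sum_univ_succ, E, h0]
      ring
    have hGE2 : ((G * E).submatrix Fin.succ (Fin.succAbove 0)) = G' := by
      ext i j
      simp [Matrix.mul_apply, Fin.sum_univ_succ, E, G', hs 0 i.succ]
      ring
    have h2 : (G * E).det = a * G'.det := by
      rw [Matrix.det_succ_row_zero, Fin.sum_univ_succ, hGE2, hGE0]
      simp [hGE1]
    rw [← h2, Matrix.det_mul, hE]; ring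
  · intro y hy
    set ρ : ℤ := ∑ i, G 0 i.succ * y i with hρ
    obtain ⟨t, ht⟩ := near a ρ ha
    have hx : (Fin.cons t y : Fin (n + 1) → ℤ) ≠ 0 := by
      intro h
      apply hy
      ext i
      have := congrFun h i.succ
      simpa using this
    have h1 := hmin _ hx
    set H : ℤ := ∑ i, y i * ∑ j, G i.succ j.succ * y j with hH
    have h2 : (Fin.cons t y : Fin (n + 1) → ℤ) ⬝ᵥ G *ᵥ (Fin.cons t y) =
        a * t ^ 2 + 2 * t * ρ + H := by
      simp only [dotProduct, Matrix.mulVec, Fin.sum_univ_succ, Fin.cons_zero, Fin.cons_succ, h0]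
      have h3 : ∑ i : Fin n, y i * (G i.succ 0 * t + ∑ j, G i.succ j.succ * y j) = t * ρ + H := by
        rw [hρ, hH, Finset.mul_sum, ← Finset.sum_add_distrib]
        refine Finset.sum_congr rfl fun i _ => ?_
        rw [hs 0 i.succ]; ring
      rw [h3, ← hρ]; ring
    have h3 : y ⬝ᵥ G' *ᵥ y = a * H - ρ ^ 2 := by
      simp only [dotProduct, Matrix.mulVec, G', Matrix.of_apply]
      rw [hH, sq, hρ, Finset.sum_mul_sum, Finset.mul_sum, ← Finset.sum_sub_distrib]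
      refine Finset.sum_congr rfl fun i _ => ?_
      rw [Finset.mul_sum, Finset.mul_sum, Finset.mul_sum, ← Finset.sum_sub_distrib]
      refine Finset.sum_congr rfl fun j _ => ?_
      ring
    rw [h2] at h1
    have h4 : a * (a * t ^ 2 + 2 * t * ρ + H) = (a * H - ρ ^ 2) + (a * t + ρ) ^ 2 := by ring
    have h5 := abs_add_le (a * H - ρ ^ 2) ((a * t + ρ) ^ 2)
    rw [← h4, abs_mul, abs_pow] at h5
    have h6 := mul_le_mul_of_nonneg_left h1 (abs_nonneg a)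
    have h7 := pow_le_pow_left₀ (by positivity) ht 2
    rw [h3, ← sq_abs a]
    nlinarith

/-- The reduction step. -/
lemma step {n : ℕ} (G : Matrix (Fin (n + 1)) (Fin (n + 1)) ℤ) (hG : G.IsSymm)
    (hpos : ∀ x : Fin (n + 1) → ℤ, x ≠ 0 → x ⬝ᵥ G *ᵥ x ≠ 0) :
    ∃ a : ℤ, (∃ x : Fin (n + 1) → ℤ, x ≠ 0 ∧ x ⬝ᵥ G *ᵥ x = a) ∧
      ∃ G' : Matrix (Fin n) (Fin n) ℤ, G'.IsSymm ∧ a * G'.det = a ^ n * G.det ∧
        ∀ y : Fin n → ℤ, y ≠ 0 → 3 * a ^ 2 ≤ 4 * |y ⬝ᵥ G' *ᵥ y| := by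
  classical
  obtain ⟨b, ⟨x, hx, hxb⟩, hmin⟩ := Int.exists_least_of_bdd
    (P := fun z => ∃ x : Fin (n + 1) → ℤ, x ≠ 0 ∧ |x ⬝ᵥ G *ᵥ x| = z)
    ⟨0, by rintro z ⟨x, -, rfl⟩; exact abs_nonneg _⟩
    ⟨_, fun _ => 1, by intro h; simpa using congrFun h 0, rfl⟩
  obtain ⟨a, hxa⟩ : ∃ a, x ⬝ᵥ G *ᵥ x = a := ⟨_, rfl⟩
  have hmin' : ∀ y : Fin (n + 1) → ℤ, y ≠ 0 → |a| ≤ |y ⬝ᵥ G *ᵥ y| := fun y hy => by
    rw [← hxa, hxb]
    exact hmin _ ⟨y, hy, rfl⟩
  have ha : a ≠ 0 := hxa ▸ hpos x hx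
  refine ⟨a, ⟨x, hx, hxa⟩, ?_⟩
  obtain ⟨c, hc⟩ : ∃ c : Fin (n + 1) → ℤ, c ⬝ᵥ x = 1 := by
    obtain ⟨c, hc⟩ := Finset.gcd_eq_sum_mul (Finset.univ : Finset (Fin (n + 1))) x
    set g := (Finset.univ : Finset (Fin (n + 1))).gcd x with hg
    have hdvd : ∀ i, g ∣ x i := fun i => Finset.gcd_dvd (Finset.mem_univ i)
    choose x' hx' using hdvd
    have hxx : x = g • x' := by ext i; simp [hx' i]
    have hx'0 : x' ≠ 0 := by
      intro h; apply hx; rw [hxx, h]; simp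
    have hg0 : g ≠ 0 := by
      intro h; apply hx; rw [hxx, h]; simp
    have h1 := hmin' x' hx'0
    have h2 : x ⬝ᵥ G *ᵥ x = g ^ 2 * (x' ⬝ᵥ G *ᵥ x') := by
      conv_lhs => rw [hxx]
      rw [Matrix.mulVec_smul, dotProduct_smul, smul_dotProduct]
      simp; ring
    have h3 : g ^ 2 ≤ 1 := by
      by_contra h
      push Not at h
      rw [← hxa, h2, abs_mul, abs_of_nonneg (sq_nonneg g)] at h1
      have := abs_pos.2 (hpos x' hx'0)
      nlinarith
    have h4 : g ^ 2 = 1 := by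
      have : 0 < g ^ 2 := by positivity
      omega
    refine ⟨g • c, ?_⟩
    rw [smul_dotProduct, dotProduct_comm]
    simp only [dotProduct, smul_eq_mul]
    rw [← hc, ← sq, h4]
  obtain ⟨P, hP, hP0⟩ := exists_unimodular_col x c hc
  have hinj : ∀ y : Fin (n + 1) → ℤ, y ≠ 0 → P *ᵥ y ≠ 0 := by
    intro y hy h
    exact hy (Matrix.eq_zero_of_mulVec_eq_zero hP.ne_zero h)
  have hsym : (Pᵀ * G * P).IsSymm := by
    unfold Matrix.IsSymm
    rw [Matrix.transpose_mul, Matrix.transpose_mul, Matrix.transpose_transpose, hG.eq,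
      Matrix.mul_assoc]
  have h00 : (Pᵀ * G * P) 0 0 = a := by
    have h1 := form_transform G P (Pi.single 0 1)
    have h2 : P *ᵥ (Pi.single 0 1) = x := by
      ext i; simp [hP0]
    rw [h2, hxa] at h1
    simpa using h1
  obtain ⟨G', h1, h2, h3⟩ := step_zero (Pᵀ * G * P) hsym a ha h00
    (fun y hy => by rw [form_transform]; exact hmin' _ (hinj y hy))
  refine ⟨G', h1, ?_, h3⟩
  rw [h2, Matrix.det_mul, Matrix.det_mul, Matrix.det_transpose]
  have h4 : P.det * P.det = 1 := by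
    rcases Int.isUnit_iff.mp hP with h | h <;> simp [h]
  congr 1
  linear_combination G.det * h4

end RLatA

open Matrix in
theorem herm (n : ℕ) (G : Matrix (Fin n) (Fin n) ℤ) (m : ℚ) (hG : G.IsSymm) (hm : 0 < m)
    (h : ∀ x : Fin n → ℤ, x ≠ 0 → m ≤ ((|x ⬝ᵥ G *ᵥ x| : ℤ) : ℚ)) :
    (3 / 4 : ℚ) ^ (n.choose 2) * m ^ n ≤ ((|G.det| : ℤ) : ℚ) := by
  induction n generalizing m with
  | zero => simp
  | succ n ih =>
    obtain ⟨a, ⟨x, hx, hxa⟩, G', hG', hdet, hG'min⟩ := RLatA.step G hG (fun x hx h0 => by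
      have := h x hx
      rw [h0] at this
      exact absurd (hm.trans_le this) (by simp))
    obtain ⟨b, hb⟩ : ∃ b : ℚ, b = ((|a| : ℤ) : ℚ) := ⟨_, rfl⟩
    have hma : m ≤ b := hb ▸ hxa ▸ h x hx
    have ha : 0 < b := lt_of_lt_of_le hm hma
    have h1 := ih G' (3 / 4 * b ^ 2) hG' (by positivity) (fun y hy => by
      have hs4 := hG'min y hy
      rw [← sq_abs a] at hs4
      have hs5 : 3 * b ^ 2 ≤ 4 * ((|y ⬝ᵥ G' *ᵥ y| : ℤ) : ℚ) := by
        rw [hb]
        exact_mod_cast hs4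
      linarith)
    have hdet' : b * ((|G'.det| : ℤ) : ℚ) = b ^ n * ((|G.det| : ℤ) : ℚ) := by
      have := congrArg abs hdet
      rw [abs_mul, abs_mul, abs_pow] at this
      rw [hb]
      exact_mod_cast this
    have h2 : (n + 1).choose 2 = n.choose 2 + n := by
      rw [Nat.choose_succ_succ' n 1]; simp [add_comm]
    have h3 : b ^ n * ((3 / 4 : ℚ) ^ ((n + 1).choose 2) * b ^ (n + 1)) ≤
        b ^ n * ((|G.det| : ℤ) : ℚ) := by
      rw [← hdet', h2]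
      calc b ^ n * ((3 / 4 : ℚ) ^ (n.choose 2 + n) * b ^ (n + 1))
          = b * ((3 / 4 : ℚ) ^ (n.choose 2) * (3 / 4 * b ^ 2) ^ n) := by
            rw [mul_pow, ← pow_mul, pow_add]; ring
        _ ≤ b * ((|G'.det| : ℤ) : ℚ) := by gcongr
    have h4 := le_of_mul_le_mul_left h3 (by positivity)
    calc (3 / 4 : ℚ) ^ ((n + 1).choose 2) * m ^ (n + 1)
        ≤ (3 / 4 : ℚ) ^ ((n + 1).choose 2) * b ^ (n + 1) := by gcongr
      _ ≤ _ := h4

open Matrix in
theorem iso_mat {n : ℕ} (h1 : 1 ≤ n) (h4 : n ≤ 4) (G : Matrix (Fin n) (Fin n) ℤ) (hG : G.IsSymm)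
    (he : ∀ x : Fin n → ℤ, Even (x ⬝ᵥ G *ᵥ x)) (hd : IsUnit G.det) :
    ∃ x : Fin n → ℤ, x ≠ 0 ∧ x ⬝ᵥ G *ᵥ x = 0 := by
  by_contra hcon
  push Not at hcon
  have h := herm n G 2 hG two_pos fun x hx => by
    have h2 := hcon x hx
    obtain ⟨k, hk⟩ := he x
    have h3 : 2 ≤ |x ⬝ᵥ G *ᵥ x| := by
      rcases abs_cases (x ⬝ᵥ G *ᵥ x) with h | h <;> omega
    exact_mod_cast h3
  rw [Int.isUnit_iff_abs_eq.1 hd] at h
  interval_cases n <;> norm_num [Nat.choose] at h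

end HW
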