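import Pool.Agent.P.MP_9699e0_gt.W.LatA
import Pool.Agent.P.MP_9699e0_gt.Alg

/-! Splitting off unimodular sublattices; the K3 lattice from twenty classes. -/

set_option autoImplicit false
set_option linter.unusedSectionVars false

noncomputable section

namespace HW

open HK3 Pool.Agent.P.MP_9699e0_gt Set Filter Topology



namespace RLatB

variable {M : Type} [AddCommGroup M] {B : M →ₗ[ℤ] M →ₗ[ℤ] ℤ} {k : ℕ}

/-- A basis modulo the radical together with its dual basis. -/
theorem basis (h : Lat B k) : ∃ (n : ℕ) (g a : Fin n → M), n ≤ k ∧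
    (∀ x, ∃ m : Fin n → ℤ, B x = B (∑ i, m i • g i)) ∧
      ∀ i j, B (a i) (g j) = if i = j then 1 else 0 := by
  obtain ⟨s, g0, hg0⟩ := h.fin
  have hs : Function.Surjective B.rangeRestrict := B.surjective_rangeRestrict
  have hz : ∀ x, B.rangeRestrict x = 0 ↔ B x = 0 := fun x => Subtype.ext_iff
  have hf : Module.Finite ℤ (LinearMap.range B) := by
    refine Module.Finite.of_surjective
      (B.rangeRestrict ∘ₗ Fintype.linearCombination ℤ g0) fun y => ?_
    obtain ⟨x, rfl⟩ := hs y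
    obtain ⟨m, hm⟩ := hg0 x
    refine ⟨m, Subtype.ext ?_⟩
    rw [map_sub, sub_eq_zero] at hm
    exact hm.symm
  have hfree : Module.Free ℤ (LinearMap.range B) := Module.free_of_finite_type_torsion_free'
  let b := Module.finBasis ℤ (LinearMap.range B)
  choose g hg using fun i => hs (b i)
  choose a ha using fun j => h.uni (b.coord j ∘ₗ B.rangeRestrict) fun x hx => by
    rw [LinearMap.comp_apply, (hz x).2 hx, map_zero]
  refine ⟨_, g, a, ?_, fun x => ⟨b.repr (B.rangeRestrict x), ?_⟩, fun i j => ?_⟩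
  · by_contra hn
    have hn' : k + 1 ≤ Module.finrank ℤ (LinearMap.range B) := by omega
    obtain ⟨m, hm, h0⟩ := h.rank fun i => g (Fin.castLE hn' i)
    rw [← hz, map_sum] at h0
    simp only [map_smul, hg] at h0
    exact hm (funext (Fintype.linearIndependent_iff.1
      (b.linearIndependent.comp _ (Fin.castLE_injective hn')) m h0))
  · have h1 : B.rangeRestrict (∑ i, b.repr (B.rangeRestrict x) i • g i) = B.rangeRestrict x := by
      rw [map_sum]
      simp only [map_smul, hg]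
      exact b.sum_repr _
    exact (Subtype.ext_iff.1 h1).symm
  · rw [← ha, LinearMap.comp_apply, hg, Module.Basis.coord_apply, b.repr_self,
      Finsupp.single_apply]
    simp only [eq_comm]

theorem pair {ι κ : Type} [Fintype ι] [Fintype κ] (m : ι → ℤ) (g : ι → M) (m' : κ → ℤ)
    (g' : κ → M) :
    B (∑ i, m i • g i) (∑ j, m' j • g' j) = ∑ i, m i * ∑ j, B (g i) (g' j) * m' j := by
  simp only [map_sum, map_smul, LinearMap.sum_apply, LinearMap.smul_apply, smul_eq_mul,
    Finset.mul_sum]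
  rw [Finset.sum_comm]
  exact Finset.sum_congr rfl fun i _ => Finset.sum_congr rfl fun j _ => by ring

/-- The orthogonal complement. -/
def perp {ι : Type} (B : M →ₗ[ℤ] M →ₗ[ℤ] ℤ) (v : ι → M) : Submodule ℤ M :=
  ⨅ i, LinearMap.ker (B.flip (v i))

theorem mem_perp {ι : Type} (v : ι → M) (x : M) : x ∈ perp B v ↔ ∀ i, B x (v i) = 0 := by
  simp [perp]

/-- The inverse of the Gram matrix of the first eighteen vectors. -/
def Q18 : Fin 2 ⊕ (Fin 2 × Fin 8) → Fin 2 ⊕ (Fin 2 × Fin 8) → ℤ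
  | .inl a, .inl b => if a ≠ b then 1 else 0
  | .inr a, .inr b => if a.1 = b.1 then -AlgE a.2 b.2 else 0
  | _, _ => 0

theorem Q18_mul : ∀ i j, ∑ l, f20 (.inl i) (.inl l) * Q18 l j = if i = j then 1 else 0 := by
  decide +kernel

theorem gram2 (hs : ∀ x y, B x y = B y x) {x y : M} (hx : B x x = 0) (hy : B y y = 0)
    (hxy : B x y = 1) (i j : Fin 2) : B (![x, y] i) (![x, y] j) = if i ≠ j then 1 else 0 := by
  fin_cases i <;> fin_cases j <;> simp [hx, hy, hxy, hs y x]

end RLatB

open RLatB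

variable {M : Type} [AddCommGroup M] {B : M →ₗ[ℤ] M →ₗ[ℤ] ℤ} {k : ℕ}

theorem Lat.plane (h : Lat B k) (hk : k ≤ 4) (h0 : B ≠ 0) :
    ∃ x y, B x x = 0 ∧ B y y = 0 ∧ B x y = 1 := by
  obtain ⟨n, g, a, hn, hg, ha⟩ := basis h
  have h1 : 1 ≤ n := by
    by_contra h1
    obtain rfl : n = 0 := by omega
    refine h0 (LinearMap.ext fun x => ?_)
    obtain ⟨m, hm⟩ := hg x
    simpa using hm
  choose c hc using fun j => hg (a j)
  have hd : IsUnit (Matrix.of fun i j => B (g i) (g j)).det := by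
    refine Matrix.isUnit_det_of_left_inverse (B := Matrix.of c) ?_
    ext i j
    rw [Matrix.mul_apply, Matrix.one_apply, ← ha, hc]
    simp
  have hq : ∀ x : Fin n → ℤ, x ⬝ᵥ (Matrix.of fun i j => B (g i) (g j)).mulVec x =
      B (∑ i, x i • g i) (∑ i, x i • g i) := fun x => by
    rw [pair]
    rfl
  obtain ⟨x, hx, hx0⟩ := iso_mat h1 (hn.trans hk) (Matrix.of fun i j => B (g i) (g j))
    (Matrix.IsSymm.ext fun i j => h.symm _ _) (fun x => by rw [hq]; exact h.even _) hd
  obtain ⟨u, hu⟩ := Finset.gcd_eq_sum_mul Finset.univ x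
  choose x' hx' using fun i => Finset.gcd_dvd (f := x) (Finset.mem_univ i)
  have hd0 : Finset.univ.gcd x ≠ 0 := fun e =>
    hx (funext fun i => by rw [hx' i, e, zero_mul]; rfl)
  generalize Finset.univ.gcd x = d at hu hx' hd0
  have h2 : ∑ i, x' i * u i = 1 := by
    refine mul_left_cancel₀ hd0 ?_
    rw [mul_one, Finset.mul_sum]
    refine Eq.trans (Finset.sum_congr rfl fun i _ => ?_) hu.symm
    rw [hx' i, mul_assoc]
  have h3 : ∑ i, x i • g i = d • ∑ i, x' i • g i := by
    rw [Finset.smul_sum]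
    exact Finset.sum_congr rfl fun i _ => by rw [hx' i, mul_smul]
  rw [hq, h3] at hx0
  have h4 : B (∑ i, u i • a i) (∑ i, x' i • g i) = 1 := by
    rw [pair, ← h2]
    refine Finset.sum_congr rfl fun i _ => ?_
    simp [ha, mul_comm]
  generalize ∑ i, x' i • g i = X at hx0 h4
  generalize ∑ i, u i • a i = Y at h4
  have h5 : B X X = 0 := by simpa [hd0] using hx0
  obtain ⟨t, ht⟩ := h.even Y
  refine ⟨X, Y - t • X, h5, ?_, ?_⟩
  · simp [h5, h4, h.symm X Y, ht]
  · simp [h5, h4, h.symm X Y]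

theorem Lat.compl {ι : Type} [Fintype ι] [DecidableEq ι] (h : Lat B (k + Fintype.card ι))
    (v : ι → M) (Q : ι → ι → ℤ) (hQ : ∀ i j, ∑ l, B (v i) (v l) * Q l j = if i = j then 1 else 0)
    (N : Submodule ℤ M) (hN : ∀ x, x ∈ N ↔ ∀ i, B x (v i) = 0) :
    Lat (B.compl₁₂ N.subtype N.subtype) k ∧
      ∀ x, ∃ m : ι → ℤ, x - ∑ i, m i • v i ∈ N := by
  let P : M →ₗ[ℤ] M :=
    LinearMap.id - ∑ j, (∑ i, Q j i • B.flip (v i)).smulRight (v j)
  have hP : ∀ x, P x = x - ∑ j, (∑ i, Q j i * B x (v i)) • v j := fun x => by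
    simp [P]
  have hPN : ∀ x, P x ∈ N := fun x => (hN _).2 fun l => by
    rw [hP, map_sub, LinearMap.sub_apply, sub_eq_zero]
    simp only [map_sum, map_smul, LinearMap.sum_apply, LinearMap.smul_apply, smul_eq_mul,
      Finset.sum_mul]
    rw [Finset.sum_comm]
    have : ∀ i, ∑ j, Q j i * B x (v i) * B (v j) (v l) = if l = i then B x (v i) else 0 := by
      intro i
      rw [← boole_mul, ← hQ, Finset.sum_mul]
      exact Finset.sum_congr rfl fun j _ => by rw [h.symm (v j)]; ring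
    simp [this]
  let p : M →ₗ[ℤ] N := P.codRestrict N hPN
  have hp : ∀ x : N, p x = x := fun x => Subtype.ext (by
    show P x = x
    rw [hP]
    simp [(hN _).1 x.2])
  have hB : ∀ (x : M) (y : N), B (p x) y = B x y := fun x y => by
    show B (P x) y = B x y
    have : ∀ j, B (v j) y = 0 := fun j => by rw [h.symm, (hN _).1 y.2]
    rw [hP]
    simp [this]
  have hz : ∀ x, B x = 0 → B.compl₁₂ N.subtype N.subtype (p x) = 0 := fun x hx =>
    LinearMap.ext fun y => by
      show B (p x) y = 0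
      rw [hB, hx, LinearMap.zero_apply]
  refine ⟨⟨fun x y => h.symm _ _, ?_, fun φ hφ => ?_, fun x => h.even _, fun x => ?_⟩,
    fun x => ⟨_, hP x ▸ hPN x⟩⟩
  · obtain ⟨s, g, hg⟩ := h.fin
    refine ⟨s, fun i => p (g i), fun x => ?_⟩
    obtain ⟨m, hm⟩ := hg x
    have := hz _ hm
    rw [map_sub, hp, map_sum] at this
    simp only [map_smul] at this
    exact ⟨m, this⟩
  · obtain ⟨a, ha⟩ := h.uni (φ ∘ₗ p) fun x hx => hφ _ (hz x hx)
    refine ⟨p a, LinearMap.ext fun y => ?_⟩
    show φ y = B (p a) y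
    rw [hB, ← ha, LinearMap.comp_apply, hp]
  · let e : Fin (k + 1) ⊕ ι ≃ Fin (k + Fintype.card ι + 1) :=
      Fintype.equivFinOfCardEq (by simp; omega)
    obtain ⟨m, hm, h0⟩ := h.rank fun i => Sum.elim (fun a => (x a : M)) v (e.symm i)
    rw [← e.sum_comp, Fintype.sum_sum_type] at h0
    simp only [Equiv.symm_apply_apply, Sum.elim_inl, Sum.elim_inr] at h0
    have h1 : ∀ l, ∑ j, m (e (.inr j)) * B (v j) (v l) = 0 := fun l => by
      have := LinearMap.congr_fun h0 (v l)
      simpa [fun a => (hN _).1 (x a).2 l] using this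
    have h2 : ∀ i, m (e (.inr i)) = 0 := fun i => by
      have h3 : ∑ l, (∑ j, m (e (.inr j)) * B (v j) (v l)) * Q l i = 0 := by simp [h1]
      simp only [Finset.sum_mul] at h3
      rw [Finset.sum_comm] at h3
      simp only [mul_assoc, ← Finset.mul_sum, hQ] at h3
      simpa using h3
    refine ⟨fun a => m (e (.inl a)), fun h3 => hm (funext fun i => ?_), LinearMap.ext fun y => ?_⟩
    · obtain ⟨a | a, rfl⟩ := e.surjective i
      · exact congrFun h3 a
      · exact h2 a
    · have := LinearMap.congr_fun h0 y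
      simpa [h2] using this

theorem lattice (h : Lat B 22) (v : I20 → M) (hv : ∀ i j, B (v i) (v j) = f20 i j) :
    ∃ e : K3Index → M, ∀ i j, B (e i) (e j) = k3Form i j := by
  obtain ⟨h1, -⟩ := Lat.compl (k := 4) (ι := Fin 2 ⊕ (Fin 2 × Fin 8)) (by simpa using h)
    (fun i => v (.inl i)) Q18 (fun i j => by simp only [hv]; exact Q18_mul i j) _
    (mem_perp fun i => v (.inl i))
  set N := perp B fun i => v (.inl i)
  let u : Fin 2 → N := fun a => ⟨v (.inr a), (mem_perp _ _).2 fun i => by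
    rw [hv]
    rcases i with i | i <;> rfl⟩
  set B1 := B.compl₁₂ N.subtype N.subtype
  have hu : ∀ a b, B1 (u a) (u b) = if a = b then -8 else 0 := fun a b => hv (.inr a) (.inr b)
  obtain ⟨x, y, hx, hy, hxy⟩ := h1.plane le_rfl fun e => by simpa [e] using hu 0 0
  have hw := gram2 h1.symm hx hy hxy
  obtain ⟨h2, h3⟩ := Lat.compl (k := 2) (ι := Fin 2) (by simpa using h1) ![x, y]
    (fun i j => if i ≠ j then 1 else 0) (fun i j => by simp only [hw]; revert i j; decide) _
    (mem_perp ![x, y])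
  set N' := perp B1 ![x, y]
  obtain ⟨x', y', hx', hy', hxy'⟩ := h2.plane (by norm_num) fun e => by
    choose m hm using fun a => h3 (u a)
    have h4 : ∀ a b, B1 (u a) (u b) = m a 0 * m b 1 + m a 1 * m b 0 := fun a b => by
      have h5 : B1 (u a - ∑ i, m a i • ![x, y] i) (u b - ∑ i, m b i • ![x, y] i) = 0 :=
        LinearMap.congr_fun₂ e ⟨_, hm a⟩ ⟨_, hm b⟩
      have h6 := fun a => (mem_perp _ _).1 (hm a)
      have a0 := h6 a 0
      have a1 := h6 a 1
      have b0 := h6 b 0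
      have b1 := h6 b 1
      simp [hx, hy, hxy, h1.symm y x, h1.symm x (u b), h1.symm y (u b), sub_eq_zero]
        at h5 a0 a1 b0 b1
      rw [a0, a1, b0, b1] at h5
      linear_combination h5
    have e0 := h4 0 0
    have e1 := h4 1 1
    have e2 := h4 0 1
    simp [hu] at e0 e1 e2
    have e3 : (m 0 0 * m 1 1) ^ 2 = -16 := by
      have f0 : m 0 0 * m 0 1 = -4 := by linarith
      have f1 : m 1 0 * m 1 1 = -4 := by linarith
      linear_combination (m 0 0 * m 1 1) * e2.symm - (m 1 0 * m 1 1) * f0 + 4 * f1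
    nlinarith [sq_nonneg (m 0 0 * m 1 1)]
  have hw' := gram2 h2.symm hx' hy' hxy'
  let w : Fin 2 → M := fun i => (![x, y] i : N)
  let w' : Fin 2 → M := fun i => ((![x', y'] i : N') : N)
  have g1 : ∀ i j, B (w i) (w j) = if i ≠ j then 1 else 0 := hw
  have g2 : ∀ i j, B (w' i) (w' j) = if i ≠ j then 1 else 0 := hw'
  have g3 : ∀ i j, B (w i) (v (.inl j)) = 0 := fun i => (mem_perp _ _).1 (![x, y] i).2
  have g4 : ∀ i j, B (w' i) (v (.inl j)) = 0 := fun i => (mem_perp _ _).1 (![x', y'] i).1.2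
  have g5 : ∀ i j, B (w' i) (w j) = 0 := fun i =>
    (mem_perp (B := B1) ![x, y] _).1 (![x', y'] i).2
  have g6 : ∀ i j, B (v (.inl j)) (w i) = 0 := fun i j => by rw [h.symm, g3]
  have g7 : ∀ i j, B (v (.inl j)) (w' i) = 0 := fun i j => by rw [h.symm, g4]
  have g8 : ∀ i j, B (w j) (w' i) = 0 := fun i j => by rw [h.symm, g5]
  refine ⟨Sum.elim (fun a => ![fun i => v (.inl (.inl i)), w, w'] a.1 a.2)
    fun a => v (.inl (.inr a)), ?_⟩
  clear_value w w'
  rintro (⟨a, i⟩ | a) (⟨b, j⟩ | b)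
  · fin_cases a <;> fin_cases b <;> simp [k3Form, f20, hv, g1, g2, g3, g4, g5, g6, g7, g8]
  · fin_cases a <;> simp [k3Form, f20, hv, g3, g4]
  · fin_cases b <;> simp [k3Form, f20, hv, g6, g7]
  · simp [k3Form, f20, hv]

end HW
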