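import Pool.Agent.P.MP_9699e0_gt.W.Uct
import Pool.Agent.P.MP_9699e0_gt.Pu

/-! Relative Mayer-Vietoris; local homology along a flat subset of codimension two. -/

set_option autoImplicit false
set_option linter.unusedSectionVars false

noncomputable section

namespace HW

open HK3 Pool.Agent.P.MP_9699e0_gt Set Filter Topology

variable {X Y : Type} [TopologicalSpace X] [TopologicalSpace Y]

namespace RLfA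

theorem mem_inter {S T : Set X} {n : ℕ} {c : Chn ℤ X n} (h : c ∈ chn ℤ S n ∧ c ∈ chn ℤ T n) :
    c ∈ chn ℤ (S ∩ T) n := by
  rw [chn_inter]
  exact h

variable {V₁ V₂ : Set ℂ}

theorem exists_rad (h3 : IsOpen V₂) (h5 : (0 : ℂ) ∈ V₂) :
    ∃ r : ℝ, 0 < r ∧ ∀ z : ℂ, ‖z‖ = r → z ∈ V₂ := by
  obtain ⟨r, hr, h⟩ := Metric.nhds_basis_closedBall.mem_iff.1 (h3.mem_nhds h5)
  exact ⟨r, hr, fun z hz => h (mem_closedBall_zero_iff.2 hz.le)⟩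

theorem push (h1 : Convex ℝ V₁) (h2 : Convex ℝ V₂) (h3 : IsOpen V₂) (h4 : V₁.Nonempty)
    (h5 : (0 : ℂ) ∈ V₂) {n : ℕ} {d : Chn ℤ E n}
    (hd : d ∈ cyc ℤ (V₁ ×ˢ V₂ ∩ {ξ : E | ξ.2 ≠ 0}) n) (hb : d ∈ bdy ℤ {ξ : E | ξ.2 ≠ 0} n) :
    d ∈ bdy ℤ (V₁ ×ˢ V₂ ∩ {ξ : E | ξ.2 ≠ 0}) n := by
  obtain ⟨a, ha⟩ := h4
  obtain ⟨r, hr, hV⟩ := exists_rad h3 h5
  let g : E → E := fun ξ => (a, (r / ‖ξ.2‖) • ξ.2)
  have gc : ContinuousOn g {ξ : E | ξ.2 ≠ 0} :=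
    continuousOn_const.prodMk ((continuousOn_const.div continuous_snd.norm.continuousOn
      fun ξ hξ => norm_ne_zero_iff.2 hξ).smul continuousOn_snd)
  have gm : MapsTo g {ξ : E | ξ.2 ≠ 0} (V₁ ×ˢ V₂ ∩ {ξ : E | ξ.2 ≠ 0}) := fun ξ hξ => by
    have h6 : 0 < ‖ξ.2‖ := norm_pos_iff.2 hξ
    refine ⟨⟨ha, hV _ ?_⟩, smul_ne_zero (div_pos hr h6).ne' hξ⟩
    rw [norm_smul, Real.norm_of_nonneg (div_pos hr h6).le, div_mul_cancel₀ _ h6.ne']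
  have h6 := htpy_cyc (R := ℤ) (fun s ξ => (1 - s) • ξ + s • g ξ)
    (S := V₁ ×ˢ V₂ ∩ {ξ : E | ξ.2 ≠ 0}) (S' := V₁ ×ˢ V₂ ∩ {ξ : E | ξ.2 ≠ 0})
    (((continuousOn_const.sub continuousOn_fst).smul continuousOn_snd).add
      (continuousOn_fst.smul (gc.comp continuousOn_snd fun p hp => hp.2.2)))
    (fun s hs ξ hξ => by
      refine ⟨(h1.prod h2) hξ.1 (gm hξ.2).1 (sub_nonneg.2 hs.2) hs.1 (sub_add_cancel _ _), ?_⟩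
      have h7 : 0 < r / ‖ξ.2‖ := div_pos hr (norm_pos_iff.2 hξ.2)
      have h8 : 0 < 1 - s + s * (r / ‖ξ.2‖) := by
        rcases eq_or_lt_of_le hs.1 with h | h
        · rw [← h]
          norm_num
        · linarith [mul_pos h h7, hs.2]
      change (1 - s) • ξ.2 + s • (r / ‖ξ.2‖) • ξ.2 ≠ 0
      rw [smul_smul, ← add_smul]
      exact smul_ne_zero h8.ne' hξ.2) hd
  simp only [sub_self, zero_smul, one_smul, zero_add, sub_zero, add_zero] at h6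
  have h7 := sub_mem (cmap_bdy gc gm hb) h6
  have h8 : cmap ℤ (fun ξ : E => ξ) n d = d := cmap_id d
  rwa [h8, sub_sub_cancel] at h7

theorem cases_box (V₁ V₂ : Set ℂ) :
    V₁ ×ˢ V₂ ∩ {ξ : E | ξ.2 ≠ 0} = V₁ ×ˢ V₂ ∨ V₁.Nonempty ∧ (0 : ℂ) ∈ V₂ := by
  by_cases h : V₁.Nonempty ∧ (0 : ℂ) ∈ V₂
  · exact Or.inr h
  · exact Or.inl (inter_eq_left.2 fun ξ hξ h0 => h ⟨⟨_, hξ.1⟩, h0 ▸ hξ.2⟩)

theorem star (h1 : Convex ℝ V₁) (h2 : Convex ℝ V₂) (h4 : V₁.Nonempty) (h5 : (0 : ℂ) ∈ V₂)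
    (n : ℕ) : cyc ℤ (V₁ ×ˢ V₂) (n + 1) ≤ bdy ℤ (V₁ ×ˢ V₂) (n + 1) :=
  h4.elim fun a ha => cyc_le_of_star (x := (a, 0)) ((h1.prod h2).starConvex ⟨ha, h5⟩) n

theorem rel (h1 : Convex ℝ V₁) (h2 : Convex ℝ V₂) (h3 : IsOpen V₂) {n : ℕ}
    {c : Chn ℤ E (n + 1)} (hc : c ∈ chn ℤ (V₁ ×ˢ V₂) (n + 1))
    (hb : bd ℤ E n c ∈ bdy ℤ {ξ : E | ξ.2 ≠ 0} n) :
    c ∈ bdy ℤ (V₁ ×ˢ V₂) (n + 1) ⊔ chn ℤ (V₁ ×ˢ V₂ ∩ {ξ : E | ξ.2 ≠ 0}) (n + 1) := by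
  rcases cases_box V₁ V₂ with h | ⟨h4, h5⟩
  · rw [h]
    exact Submodule.mem_sup_right hc
  obtain ⟨e, he, h6⟩ := push h1 h2 h3 h4 h5 (mem_cyc (bdy_le _ _ hb)
    (RLfA.mem_inter ⟨bd_mem hc, cyc_le _ _ (bdy_le _ _ hb)⟩)) hb
  rw [← sub_add_cancel c e]
  refine Submodule.add_mem_sup (star h1 h2 h4 h5 n
    ⟨sub_mem hc (chn_mono inter_subset_left _ he), ?_⟩) he
  exact LinearMap.mem_ker.2 (by rw [map_sub, h6, sub_self])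

theorem conn : IsPathConnected {ξ : E | ξ.2 ≠ 0} := by
  have h : {ξ : E | ξ.2 ≠ 0} = univ ×ˢ {0}ᶜ := by
    ext ξ
    simp
  rw [h]
  exact isPathConnected_univ.prod (isPathConnected_compl_singleton_of_one_lt_rank
    (by rw [Complex.rank_real_complex]; norm_num) 0)

end RLfA

theorem rel_mv {O₁ O₂ U : Set X} (h1 : IsOpen O₁) (h2 : IsOpen O₂) (hU : IsOpen U) {n : ℕ}
    (h : ∀ g ∈ chn ℤ (O₁ ∩ O₂) n, (∃ y ∈ chn ℤ U n, g - y ∈ bdy ℤ univ n) →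
      g ∈ bdy ℤ (O₁ ∩ O₂) n ⊔ chn ℤ (O₁ ∩ O₂ ∩ U) n)
    {c : Chn ℤ X (n + 1)} (hc : c ∈ chn ℤ (O₁ ∪ O₂) (n + 1))
    (hb : bd ℤ X n c ∈ chn ℤ U n) : ∃ c₁ ∈ chn ℤ O₁ (n + 1), ∃ c₂ ∈ chn ℤ O₂ (n + 1),
      bd ℤ X n c₁ ∈ chn ℤ U n ∧ bd ℤ X n c₂ ∈ chn ℤ U n ∧
      c - c₁ - c₂ ∈ bdy ℤ (O₁ ∪ O₂) (n + 1) ⊔ chn ℤ ((O₁ ∪ O₂) ∩ U) (n + 1) := by
  have hb' : bd ℤ X n c ∈ cyc ℤ ((O₁ ∪ O₂) ∩ U) n :=
    mem_cyc (bdy_le _ _ (bd_mem_bdy c)) (RLfA.mem_inter ⟨bd_mem hc, hb⟩)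
  obtain ⟨y₁, hy₁, y₂, hy₂, e, he, e1⟩ := mv_split h1 h2 inter_subset_left hb'
  have e2 : bd ℤ X n (c - e) = y₁ + y₂ := by
    rw [map_sub, e1]
    abel
  obtain ⟨a, ha, b, hb₂, f, hf, e3⟩ := mv_rel h1 h2 Subset.rfl
    (sub_mem hc (chn_mono inter_subset_left _ he))
    (e2 ▸ Submodule.add_mem_sup (chn_mono inter_subset_right _ hy₁)
      (chn_mono inter_subset_right _ hy₂))
  have e4 : bd ℤ X n a - y₁ = y₂ - bd ℤ X n b := by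
    have := bd_bd n f
    rw [e3, map_sub, map_sub, e2] at this
    linear_combination (norm := module) -this
  have ha' := chn_mono inter_subset_right _ ha
  have hb₃ := chn_mono inter_subset_right _ hb₂
  have u1 : y₁ ∈ chn ℤ U n := chn_mono (inter_subset_left.trans inter_subset_right) _ hy₁
  have u2 : y₂ ∈ chn ℤ U n := chn_mono (inter_subset_left.trans inter_subset_right) _ hy₂
  obtain ⟨_, ⟨u, hu, rfl⟩, v, hv, e5⟩ := Submodule.mem_sup.1 (h (bd ℤ X n a - y₁)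
    (RLfA.mem_inter ⟨sub_mem (bd_mem ha') (chn_mono inter_subset_right _ hy₁),
      e4 ▸ sub_mem (chn_mono inter_subset_right _ hy₂) (bd_mem hb₃)⟩)
    ⟨-y₁, neg_mem u1, by rw [sub_neg_eq_add, sub_add_cancel]; exact bd_mem_bdy a⟩)
  have u3 : v ∈ chn ℤ U n := chn_mono inter_subset_right _ hv
  refine ⟨a - u, sub_mem ha' (chn_mono inter_subset_left _ hu), b + u,
    add_mem hb₃ (chn_mono inter_subset_right _ hu), ?_, ?_, ?_⟩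
  · have : bd ℤ X n (a - u) = y₁ + v := by
      rw [map_sub]
      linear_combination (norm := module) -e5
    exact this ▸ add_mem u1 u3
  · have : bd ℤ X n (b + u) = y₂ - v := by
      rw [map_add]
      linear_combination (norm := module) e5 + e4
    exact this ▸ sub_mem u2 u3
  · have : c - (a - u) - (b + u) = bd ℤ X (n + 1) f + e := by
      rw [e3]
      abel
    exact this ▸ Submodule.add_mem_sup ⟨f, hf, rfl⟩ he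

variable {V₁ V₂ : Set ℂ}

theorem box_zero (h1 : Convex ℝ V₁) (h2 : Convex ℝ V₂) (h3 : IsOpen V₂) :
    chn ℤ (V₁ ×ˢ V₂) 0 ≤ bdy ℤ (V₁ ×ˢ V₂) 0 ⊔ chn ℤ (V₁ ×ˢ V₂ ∩ {ξ : E | ξ.2 ≠ 0}) 0 := by
  rcases RLfA.cases_box V₁ V₂ with h | ⟨⟨a, ha⟩, h5⟩
  · rw [h]
    exact le_sup_right
  intro c hc
  obtain ⟨r, hr, hV⟩ := RLfA.exists_rad h3 h5
  have h6 : Finsupp.single (Hur_cst 0 ((a, r) : E)) (aug ℤ c) ∈
      chn ℤ (V₁ ×ˢ V₂ ∩ {ξ : E | ξ.2 ≠ 0}) 0 := by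
    refine single_mem ?_ _
    rintro _ ⟨t, rfl⟩
    exact ⟨⟨ha, hV _ (Complex.norm_of_nonneg hr.le)⟩, Complex.ofReal_ne_zero.2 hr.ne'⟩
  rw [← sub_add_cancel c (Finsupp.single (Hur_cst 0 ((a, r) : E)) (aug ℤ c))]
  refine Submodule.add_mem_sup (mem_bdy_zero ((h1.prod h2).isPathConnected ⟨(a, 0), ha, h5⟩)
    (sub_mem hc (chn_mono inter_subset_left _ h6)) ?_) h6
  rw [map_sub, sub_eq_zero, aug, ev_single, smul_eq_mul, mul_one]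

theorem box_one (h1 : Convex ℝ V₁) (h2 : Convex ℝ V₂) (h3 : IsOpen V₂) :
    RZ (V₁ ×ˢ V₂) (V₁ ×ˢ V₂ ∩ {ξ : E | ξ.2 ≠ 0}) 0 := fun c hc hb =>
  RLfA.rel h1 h2 h3 hc (mem_bdy_zero RLfA.conn (chn_mono inter_subset_right _ hb) (aug_bd c))

theorem box_two (h1 : Convex ℝ V₁) (h2 : Convex ℝ V₂) (h3 : IsOpen V₂) {c : Chn ℤ E 2}
    (hc : c ∈ chn ℤ (V₁ ×ˢ V₂) 2) (hb : bd ℤ E 1 c ∈ chn ℤ {ξ : E | ξ.2 ≠ 0} 1)
    (h0 : ev ℤ (wd Prod.snd) (bd ℤ E 1 c) = 0) :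
    c ∈ bdy ℤ (V₁ ×ˢ V₂) 2 ⊔ chn ℤ (V₁ ×ˢ V₂ ∩ {ξ : E | ξ.2 ≠ 0}) 2 :=
  RLfA.rel h1 h2 h3 hc (one_snd ⟨hb, LinearMap.mem_ker.2 (bd_bd 0 c)⟩ h0)

theorem box_ex (h1 : Convex ℝ V₁) (h2 : Convex ℝ V₂) (h3 : IsOpen V₂) (h4 : V₁.Nonempty)
    (h5 : (0 : ℂ) ∈ V₂) : ∃ μ ∈ chn ℤ (V₁ ×ˢ V₂) 2, bd ℤ E 1 μ ∈ chn ℤ {ξ : E | ξ.2 ≠ 0} 1 ∧
      ev ℤ (wd Prod.snd) (bd ℤ E 1 μ) = 1 := by
  obtain ⟨r, hr, hV⟩ := RLfA.exists_rad h3 h5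
  obtain ⟨a, ha⟩ := id h4
  have hn : ∀ t, ‖(r : ℂ) * ex t‖ = r := fun t => by
    rw [norm_mul, norm_ex, mul_one, Complex.norm_of_nonneg hr.le]
  have h0 : ∀ t, (r : ℂ) * ex t ≠ 0 := fun t =>
    mul_ne_zero (Complex.ofReal_ne_zero.2 hr.ne') (ex_ne t)
  obtain ⟨c, hc, hw⟩ := exists_loop (R := ℤ) (fun t => ((a, r * ex t) : E))
    (continuous_const.prodMk (continuous_const.mul continuous_ex)).continuousOn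
    (by rw [ex_zero, show ex 1 = 1 by simpa using ex_int 1])
  obtain ⟨μ, hμ, rfl⟩ := RLfA.star h1 h2 h4 h5 0 (cyc_mono (by
    rintro _ ⟨t, -, rfl⟩
    exact ⟨ha, hV _ (hn t)⟩) 1 hc)
  refine ⟨μ, hμ, chn_mono ?_ 1 (cyc_le _ _ hc), ?_⟩
  · rintro _ ⟨t, -, rfl⟩
    exact h0 t
  · rw [hw Prod.snd id continuousOn_id fun t _ => ⟨h0 t, by rw [hn]; rfl⟩]
    simp

theorem wd_int {g : X → ℂ} {S : Set X} (hg : NZ g S) {c : Chn ℤ X 1} (hc : c ∈ cyc ℤ S 1) :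
    ∃ m : ℤ, ev ℤ (wd g) c = m := by
  choose a ha using fun x => exists_ex (g x)
  have h1 : ev ℤ (cobd (pt a)) c = 0 := by rw [← ev_bd, LinearMap.mem_ker.1 hc.2, map_zero]
  have h2 : (ev ℤ (wd g) - ev ℤ (cobd (pt a))) c ∈ Submodule.span ℤ {(1 : ℝ)} := by
    refine ChB_mem _ (fun σ hσ => ?_) hc.1
    have h0 : ∀ t, (g ∘ σ) t ≠ 0 := fun t => hg.2 _ (hσ ⟨t, rfl⟩)
    obtain ⟨θ, hθ, e⟩ := exists_arg (γ := g ∘ σ)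
      (hg.1.comp_continuous σ.continuous fun t => hσ ⟨t, rfl⟩) h0
    have h3 : ∀ t, ∃ m : ℤ, θ t = a (σ t) + m := fun t => ex_eq_iff.1
      (mul_left_cancel₀ (Complex.ofReal_ne_zero.2 (norm_ne_zero_iff.2 (h0 t)))
        ((e t).symm.trans (ha (σ t))))
    obtain ⟨m₁, e1⟩ := h3 (stdSimplex.vertex 1)
    obtain ⟨m₀, e0⟩ := h3 (stdSimplex.vertex 0)
    refine Submodule.mem_span_singleton.2 ⟨m₁ - m₀, ?_⟩
    rw [LinearMap.sub_apply, ev_single, ev_single, one_smul, one_smul, cobd_pt, wd,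
      wp_eq h0 hθ e, e1, e0, vtx, vtx]
    simp only [zsmul_eq_mul, Int.cast_sub, mul_one]
    ring
  obtain ⟨m, hm⟩ := Submodule.mem_span_singleton.1 h2
  rw [LinearMap.sub_apply, h1, sub_zero] at hm
  exact ⟨m, by rw [← hm]; simp⟩

end HW
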