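import Pool.Agent.P.MP_9699e0_gt.W.LfA

/-! The relative homology of a pair whose complement is locally flat of real codimension two,
by induction over the boxes of adapted charts. -/

set_option autoImplicit false
set_option linter.unusedSectionVars false

noncomputable section

namespace HW

open HK3 Pool.Agent.P.MP_9699e0_gt Set Filter Topology

variable {X Y : Type} [TopologicalSpace X] [TopologicalSpace Y]

namespace RLfB

/-- The chart is adapted to `U`. -/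
def Adp (U : Set X) (e : OpenPartialHomeomorph E X) : Prop :=
  ∀ ξ ∈ e.source, (e ξ ∈ U ↔ ξ.2 ≠ 0)

/-- The image of a convex open box of the chart. -/
def Box (e : OpenPartialHomeomorph E X) (B : Set X) : Prop :=
  ∃ V₁ V₂ : Set ℂ, Convex ℝ V₁ ∧ Convex ℝ V₂ ∧ IsOpen V₁ ∧ IsOpen V₂ ∧ V₁ ×ˢ V₂ ⊆ e.source ∧
    B = e '' (V₁ ×ˢ V₂)

/-- Relative 2-cycles. -/
def Rc (U O : Set X) : Submodule ℤ (Chn ℤ X 2) :=
  chn ℤ O 2 ⊓ (chn ℤ U 1).comap (bd ℤ X 1)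

/-- Trivial relative 2-cycles. -/
def Tr (U : Set X) : Submodule ℤ (Chn ℤ X 2) := bdy ℤ univ 2 ⊔ chn ℤ U 2

variable {U : Set X} {e : OpenPartialHomeomorph E X}

theorem Box.opn {B : Set X} (h : Box e B) : IsOpen B := by
  obtain ⟨V₁, V₂, -, -, h1, h2, h3, rfl⟩ := h
  exact e.isOpen_image_of_subset_source (h1.prod h2) h3

theorem Box.inter {B B' : Set X} (h : Box e B) (h' : Box e B') : Box e (B ∩ B') := by
  obtain ⟨V₁, V₂, a1, a2, a3, a4, a5, rfl⟩ := h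
  obtain ⟨W₁, W₂, b1, b2, b3, b4, b5, rfl⟩ := h'
  refine ⟨V₁ ∩ W₁, V₂ ∩ W₂, a1.inter b1, a2.inter b2, a3.inter b3, a4.inter b4, ?_, ?_⟩
  · rw [← prod_inter_prod]
    exact inter_subset_left.trans a5
  · rw [← prod_inter_prod, e.injOn.image_inter a5 b5]

theorem small {O : Set X} (hO : IsOpen O) {x : X} (hx : x ∈ e.target) (h : x ∈ O) :
    ∃ B, Box e B ∧ x ∈ B ∧ B ⊆ O := by
  have h1 : e.symm x ∈ e.source ∩ e ⁻¹' O :=
    ⟨e.map_target hx, by rw [mem_preimage, e.right_inv hx]; exact h⟩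
  obtain ⟨r, hr, hs⟩ := Metric.isOpen_iff.1 (e.isOpen_inter_preimage hO) _ h1
  have h2 : Metric.ball (e.symm x).1 r ×ˢ Metric.ball (e.symm x).2 r = Metric.ball (e.symm x) r :=
    ball_prod_same _ _ _
  refine ⟨e '' (Metric.ball (e.symm x).1 r ×ˢ Metric.ball (e.symm x).2 r),
    ⟨_, _, convex_ball _ _, convex_ball _ _, Metric.isOpen_ball, Metric.isOpen_ball, ?_, rfl⟩,
    ⟨e.symm x, ⟨Metric.mem_ball_self hr, Metric.mem_ball_self hr⟩, e.right_inv hx⟩, ?_⟩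
  · rw [h2]
    exact hs.trans inter_subset_left
  · rw [h2]
    rintro _ ⟨ξ, hξ, rfl⟩
    exact (hs hξ).2

theorem Box.sub {B : Set X} (h : Box e B) : B ⊆ e.target := by
  obtain ⟨V₁, V₂, -, -, -, -, h3, rfl⟩ := h
  rintro _ ⟨ξ, hξ, rfl⟩
  exact e.map_source (h3 hξ)

theorem ex_box (h : Flat U) {q : X} (hq : q ∉ U) :
    ∃ (e : OpenPartialHomeomorph E X) (B : Set X), Adp U e ∧ Box e B ∧ q ∈ B := by
  obtain ⟨e, h1, h2⟩ := h q hq
  obtain ⟨B, h3, h4, -⟩ := small isOpen_univ h1 (mem_univ q)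
  exact ⟨e, B, h2, h3, h4⟩

theorem ind (hU : IsOpen U) (h : Flat U) (P : Set X → Prop)
    (hA : ∀ B, B ⊆ U → P B) (hB : ∀ e B, Adp U e → Box e B → P B)
    (hu : ∀ U V, IsOpen U → IsOpen V → P U → P V → P (U ∩ V) → P (U ∪ V))
    (hd : ∀ U, IsOpen U → (∀ K, IsCompact K → K ⊆ U → ∃ U', K ⊆ U' ∧ U' ⊆ U ∧ P U') → P U)
    {O : Set X} (hO : IsOpen O) : P O := by
  refine open_ind P (κ := Option {e : OpenPartialHomeomorph E X // Adp U e})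
    (fun k => k.elim {B | IsOpen B ∧ B ⊆ U} fun e => {B | Box e.1 B}) ?_ ?_ ?_
    (hA _ (empty_subset _)) hu hd hO ?_
  · rintro (_ | e) B hB'
    · exact ⟨hB'.1, hA B hB'.2⟩
    · exact ⟨Box.opn hB', hB e.1 B e.2 hB'⟩
  · rintro (_ | e) B hB' B' hB''
    · exact ⟨hB'.1.inter hB''.1, inter_subset_left.trans hB'.2⟩
    · exact Box.inter hB' hB''
  · rintro (_ | e) B hB' O hO x hx
    · exact ⟨B ∩ O, ⟨hB'.1.inter hO, inter_subset_left.trans hB'.2⟩, hx, inter_subset_right⟩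
    · exact small hO (Box.sub hB' hx.1) hx.2
  · intro x _
    by_cases hx : x ∈ U
    · exact ⟨none, U, ⟨hU, Subset.rfl⟩, hx⟩
    · obtain ⟨e, B, h1, h2, h3⟩ := ex_box h hx
      exact ⟨some ⟨e, h1⟩, B, h2, h3⟩

theorem emb {V : Set E} (hV : V ⊆ e.source) : Emb e V :=
  ⟨e.continuousOn.mono hV, e.symm,
    e.continuousOn_symm.mono (by
      rintro _ ⟨ξ, hξ, rfl⟩
      exact e.map_source (hV hξ)), fun _ hξ => e.left_inv (hV hξ)⟩

theorem push (he : Adp U e) {V : Set E} (hV : V ⊆ e.source) {n : ℕ} {c : Chn ℤ E n}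
    (hc : c ∈ bdy ℤ V n ⊔ chn ℤ (V ∩ {ξ : E | ξ.2 ≠ 0}) n) :
    cmap ℤ e n c ∈ bdy ℤ (e '' V) n ⊔ chn ℤ (e '' V ∩ U) n := by
  obtain ⟨a, ha, b, hb, rfl⟩ := Submodule.mem_sup.1 hc
  rw [map_add]
  refine Submodule.add_mem_sup (cmap_bdy (emb hV).1 (mapsTo_image _ _) ha)
    (cmap_mem ((emb hV).1.mono inter_subset_left) ?_ hb)
  exact fun ξ hξ => ⟨mem_image_of_mem _ hξ.1, (he ξ (hV hξ.1)).2 hξ.2⟩

theorem lift (he : Adp U e) {V : Set E} (hV : V ⊆ e.source) {n : ℕ} {c : Chn ℤ X (n + 1)}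
    (hc : c ∈ chn ℤ (e '' V) (n + 1)) (hb : bd ℤ X n c ∈ chn ℤ U n) :
    ∃ c' ∈ chn ℤ V (n + 1), bd ℤ E n c' ∈ chn ℤ {ξ : E | ξ.2 ≠ 0} n ∧ cmap ℤ e (n + 1) c' = c := by
  obtain ⟨c', h1, rfl⟩ := (emb hV).exists_chn hc
  refine ⟨c', h1, ?_, rfl⟩
  rw [cmap_bd (emb hV).1 h1] at hb
  exact (emb hV).mem_chn (bd_mem h1) (fun ξ hξ h => (he ξ (hV hξ)).1 h) hb

theorem sup_le' {O O' : Set X} (h : O ⊆ O') (n : ℕ) :
    bdy ℤ O n ⊔ chn ℤ (O ∩ U) n ≤ bdy ℤ O' n ⊔ chn ℤ (O' ∩ U) n :=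
  sup_le_sup (bdy_mono h n) (chn_mono (inter_subset_inter_left _ h) n)

theorem mem_inter' {A B : Set X} {n : ℕ} {c : Chn ℤ X n} (h : c ∈ chn ℤ A n)
    (h' : c ∈ chn ℤ B n) : c ∈ chn ℤ (A ∩ B) n := by
  rw [chn_inter]
  exact ⟨h, h'⟩

theorem sup_tr (O : Set X) : bdy ℤ O 2 ⊔ chn ℤ (O ∩ U) 2 ≤ Tr U :=
  sup_le_sup (bdy_mono (subset_univ _) 2) (chn_mono inter_subset_right 2)

theorem key (he : Adp U e) {B B' : Set X} (h : Box e B) (h' : Box e B') (hs : B' ⊆ B) {q : X}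
    (hq : q ∈ B') (hU : q ∉ U) :
    ∃ μ ∈ Rc U B', Rc U B ≤ Submodule.span ℤ {μ} ⊔ Tr U := by
  obtain ⟨V₁, V₂, a1, a2, -, a4, a5, rfl⟩ := h
  obtain ⟨W₁, W₂, b1, b2, -, b4, b5, rfl⟩ := h'
  obtain ⟨ξ, hξ, rfl⟩ := hq
  have h0 : ξ.2 = 0 := by
    by_contra h
    exact hU ((he ξ (b5 hξ)).2 h)
  have hW : W₁ ×ˢ W₂ ⊆ V₁ ×ˢ V₂ := fun η hη => by
    obtain ⟨η', h1, h2⟩ := hs (mem_image_of_mem _ hη)
    rwa [← e.injOn (a5 h1) (b5 hη) h2]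
  obtain ⟨μ, m1, m2, m3⟩ := box_ex b1 b2 b4 ⟨ξ.1, hξ.1⟩ (h0 ▸ hξ.2)
  refine ⟨cmap ℤ e 2 μ, ⟨cmap_mem (emb b5).1 (mapsTo_image _ _) m1, ?_⟩, ?_⟩
  · change bd ℤ X 1 (cmap ℤ e 2 μ) ∈ chn ℤ U 1
    rw [cmap_bd (emb b5).1 m1]
    exact cmap_mem ((emb b5).1.mono inter_subset_left)
      (fun η hη => (he η (b5 hη.1)).2 hη.2) (mem_inter' (bd_mem m1) m2)
  · rintro c ⟨c1, c2⟩
    obtain ⟨c', d1, d2, rfl⟩ := lift he a5 c1 c2
    obtain ⟨m, hm⟩ := wd_int (g := (Prod.snd : E → ℂ)) (S := {ξ : E | ξ.2 ≠ 0})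
      ⟨continuous_snd.continuousOn, fun _ h => h⟩ (c := bd ℤ E 1 c') ⟨d2, bd_bd 0 c'⟩
    have h3 := box_two a1 a2 a4 (c := c' - m • μ)
      (sub_mem d1 (Submodule.smul_mem _ m (chn_mono hW 2 m1)))
      (by
        rw [map_sub, map_smul]
        exact sub_mem d2 (Submodule.smul_mem _ m m2))
      (by rw [map_sub, map_smul, map_sub, map_smul, hm, m3, zsmul_one, sub_self])
    have h4 := sup_tr _ (push he a5 h3)
    rw [map_sub, map_smul] at h4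
    have e1 : cmap ℤ e 2 c' = m • cmap ℤ e 2 μ + (cmap ℤ e 2 c' - m • cmap ℤ e 2 μ) := by abel
    rw [e1]
    exact Submodule.add_mem_sup (Submodule.smul_mem _ m (Submodule.mem_span_singleton_self _)) h4

theorem rc_mono {O O' : Set X} (h : O ⊆ O') : Rc U O ≤ Rc U O' :=
  inf_le_inf_right _ (chn_mono h 2)

theorem two_box (he : Adp U e) {B B' : Set X} (h : Box e B) (h' : IsOpen B') {q : X}
    (hq : q ∈ B) (hq' : q ∈ B') (hU : q ∉ U) : Rc U B ⊔ Tr U ≤ Rc U B' ⊔ Tr U := by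
  obtain ⟨C, h1, h2, h3⟩ := small (h.opn.inter h') (h.sub hq) ⟨hq, hq'⟩
  obtain ⟨μ, m1, m2⟩ := key he h h1 (h3.trans inter_subset_left) h2 hU
  refine sup_le (m2.trans (sup_le_sup_right ?_ _)) le_sup_right
  rw [Submodule.span_singleton_le_iff_mem]
  exact rc_mono (h3.trans inter_subset_right) m1

theorem all_box (h : Flat U) (hc : IsPreconnected Uᶜ) {p q : X} (hp : p ∉ U) (hq : q ∉ U) :
    ∀ (e e' : OpenPartialHomeomorph E X) (B B' : Set X), Adp U e → Adp U e' → Box e B →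
      Box e' B' → p ∈ B → q ∈ B' → Rc U B ⊔ Tr U ≤ Rc U B' ⊔ Tr U := by
  refine hc.induction₂' (fun p q => ∀ (e e' : OpenPartialHomeomorph E X) (B B' : Set X),
    Adp U e → Adp U e' → Box e B → Box e' B' → p ∈ B → q ∈ B' →
      Rc U B ⊔ Tr U ≤ Rc U B' ⊔ Tr U) ?_ ?_ hp hq
  · intro x hx
    obtain ⟨f, C, f1, f2, f3⟩ := ex_box h hx
    filter_upwards [mem_nhdsWithin_of_mem_nhds (f2.opn.mem_nhds f3), self_mem_nhdsWithin]
      with y y1 y2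
    exact ⟨fun e e' B B' a1 _ a3 a4 a5 a6 =>
      (two_box a1 a3 f2.opn a5 f3 hx).trans (two_box f1 f2 a4.opn y1 a6 y2),
      fun e e' B B' a1 _ a3 a4 a5 a6 =>
      (two_box a1 a3 f2.opn a5 y1 y2).trans (two_box f1 f2 a4.opn f3 a6 hx)⟩
  · intro x y z _ hy _ h1 h2 e e' B B' a1 a2 a3 a4 a5 a6
    obtain ⟨f, C, f1, f2, f3⟩ := ex_box h hy
    exact (h1 e f B C a1 f1 a3 f2 a5 f3).trans (h2 f e' C B' f1 a2 f2 a4 f3 a6)

end RLfB

theorem lf_one {U : Set X} (hU : IsOpen U) (h : Flat U) {O : Set X} (hO : IsOpen O) :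
    chn ℤ O 0 ≤ bdy ℤ O 0 ⊔ chn ℤ (O ∩ U) 0 ∧ RZ O (O ∩ U) 0 := by
  refine RLfB.ind hU h
    (fun O => chn ℤ O 0 ≤ bdy ℤ O 0 ⊔ chn ℤ (O ∩ U) 0 ∧ RZ O (O ∩ U) 0) ?_ ?_ ?_ ?_ hO
  · intro B hB
    rw [inter_eq_left.2 hB]
    exact ⟨le_sup_right, fun c hc _ => Submodule.mem_sup_right hc⟩
  · rintro e B he ⟨V₁, V₂, a1, a2, -, a4, a5, rfl⟩
    refine ⟨fun c hc => ?_, fun c hc hb => ?_⟩
    · obtain ⟨c', h1, rfl⟩ := (RLfB.emb a5).exists_chn hc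
      exact RLfB.push he a5 (box_zero a1 a2 a4 h1)
    · obtain ⟨c', d1, d2, rfl⟩ := RLfB.lift he a5 hc (chn_mono inter_subset_right 0 hb)
      exact RLfB.push he a5 (box_one a1 a2 a4 c' d1 (RLfB.mem_inter' (bd_mem d1) d2))
  · intro O₁ O₂ h1 h2 p1 p2 p3
    refine ⟨fun c hc => ?_, fun c hc hb => ?_⟩
    · obtain ⟨a, ha, b, hb, h3⟩ := (MvA_core h1 h2 Subset.rfl).1 c hc
      have e1 : c = a + b + (c - a - b) := by abel
      rw [e1]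
      exact add_mem (add_mem
        (RLfB.sup_le' subset_union_left 0 (p1.1 (chn_mono inter_subset_right 0 ha)))
        (RLfB.sup_le' subset_union_right 0 (p2.1 (chn_mono inter_subset_right 0 hb))))
        (Submodule.mem_sup_left h3)
    · obtain ⟨a, ha, b, hb, h3, h4, h5⟩ := rel_mv h1 h2 hU (n := 0) (fun g hg _ => p3.1 hg) hc
        (chn_mono inter_subset_right 0 hb)
      have e1 : c = a + b + (c - a - b) := by abel
      rw [e1]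
      exact add_mem (add_mem
        (RLfB.sup_le' subset_union_left 1 (p1.2 a ha (RLfB.mem_inter' (bd_mem ha) h3)))
        (RLfB.sup_le' subset_union_right 1 (p2.2 b hb (RLfB.mem_inter' (bd_mem hb) h4)))) h5
  · intro O _ hK
    refine ⟨fun c hc => ?_, fun c hc hb => ?_⟩
    · obtain ⟨K, k1, k2, k3⟩ := exists_compact hc
      obtain ⟨O', o1, o2, o3⟩ := hK K k1 k2
      exact RLfB.sup_le' o2 0 (o3.1 (chn_mono o1 0 k3))
    · obtain ⟨K, k1, k2, k3⟩ := exists_compact hc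
      obtain ⟨O', o1, o2, o3⟩ := hK K k1 k2
      exact RLfB.sup_le' o2 1 (o3.2 c (chn_mono o1 1 k3)
        (RLfB.mem_inter' (bd_mem (chn_mono o1 1 k3)) (chn_mono inter_subset_right 0 hb)))

theorem lf_conn {U : Set X} (hU : IsOpen U) (h : Flat U) {O : Set X} (hO : IsOpen O)
    (hc : IsPathConnected O) : IsPathConnected (O ∩ U) := by
  obtain ⟨h0, h1⟩ := lf_one hU h hO
  have hs : ∀ {S : Set X} {x : X}, x ∈ S → Finsupp.single (Hur_cst 0 x) (1 : ℤ) ∈ chn ℤ S 0 :=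
    fun hx => single_mem (by
      rintro _ ⟨t, rfl⟩
      exact hx) 1
  refine isPathConnected_iff.2 ⟨?_, fun x hx y hy => ?_⟩
  · obtain ⟨x, hx⟩ := hc.nonempty
    by_contra hn
    have h2 := h0 (hs hx)
    rw [not_nonempty_iff_eq_empty.1 hn, chn_empty, sup_bot_eq] at h2
    obtain ⟨u, -, hu⟩ := h2
    have h3 := aug_bd u
    rw [hu, aug, ev_single] at h3
    simp at h3
  · obtain ⟨γ, hγ⟩ := hc.joinedIn x hx.1 y hy.1
    have h2 : bd ℤ X 0 (Finsupp.single (Hur_ps γ) 1) =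
        Finsupp.single (Hur_cst 0 y) 1 - Finsupp.single (Hur_cst 0 x) 1 := by
      rw [Hur_bd_one, Hur_vtx_ps0, Hur_vtx_ps1]
    have h3 : range (Hur_ps γ) ⊆ O := by
      rintro _ ⟨t, rfl⟩
      obtain ⟨s, hs⟩ : γ.extend (t 1) ∈ range γ := γ.extend_range ▸ mem_range_self _
      change γ.extend (t 1) ∈ O
      rw [← hs]
      exact hγ s
    obtain ⟨_, ⟨u, -, rfl⟩, v, hv, e1⟩ := Submodule.mem_sup.1
      (h1 _ (single_mem h3 1) (h2 ▸ sub_mem (hs hy) (hs hx)))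
    refine joined_of_bdy hx hy ⟨v, hv, ?_⟩
    rw [← h2, ← e1, map_add, bd_bd]
    exact (zero_add _).symm

theorem lf_cyc {U : Set X} (hU : IsOpen U) (h : Flat U) (hc : IsPreconnected Uᶜ) :
    ∃ μ : Chn ℤ X 2, ∀ c : Chn ℤ X 2, bd ℤ X 1 c ∈ chn ℤ U 1 →
      ∃ m : ℤ, c - m • μ ∈ bdy ℤ univ 2 ⊔ chn ℤ U 2 := by
  obtain ⟨μ, hμ⟩ : ∃ μ : Chn ℤ X 2, ∀ e B, RLfB.Adp U e → RLfB.Box e B → (∃ p ∈ B, p ∉ U) →
      RLfB.Rc U B ≤ Submodule.span ℤ {μ} ⊔ RLfB.Tr U := by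
    by_cases hq : ∃ q, q ∉ U
    · obtain ⟨q, hq⟩ := hq
      obtain ⟨f, C, f1, f2, f3⟩ := RLfB.ex_box h hq
      obtain ⟨μ, -, m2⟩ := RLfB.key f1 f2 f2 Subset.rfl f3 hq
      refine ⟨μ, fun e B a1 a2 ⟨p, a3, a4⟩ => ?_⟩
      exact le_sup_left.trans ((RLfB.all_box h hc a4 hq e f B C a1 f1 a2 f2 a3 f3).trans
        (sup_le m2 le_sup_right))
    · exact ⟨0, fun e B _ _ ⟨p, _, a4⟩ => absurd ⟨p, a4⟩ hq⟩
  have hA : ∀ B, B ⊆ U → RLfB.Rc U B ≤ Submodule.span ℤ {μ} ⊔ RLfB.Tr U := fun B hB c hc =>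
    Submodule.mem_sup_right (Submodule.mem_sup_right (chn_mono hB 2 hc.1))
  have H : RLfB.Rc U univ ≤ Submodule.span ℤ {μ} ⊔ RLfB.Tr U := by
    refine RLfB.ind hU h (fun O => RLfB.Rc U O ≤ Submodule.span ℤ {μ} ⊔ RLfB.Tr U) hA ?_ ?_ ?_
      isOpen_univ
    · intro e B a1 a2
      by_cases hB : B ⊆ U
      · exact hA B hB
      · exact hμ e B a1 a2 (not_subset.1 hB)
    · rintro O₁ O₂ h1 h2 p1 p2 - c ⟨c1, c2⟩
      obtain ⟨a, ha, b, hb, h3, h4, h5⟩ := rel_mv h1 h2 hU (n := 1) (by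
        rintro g hg ⟨y, hy, u, -, hu⟩
        refine (lf_one hU h (h1.inter h2)).2 g hg (RLfB.mem_inter' (bd_mem hg) ?_)
        have e1 : bd ℤ X 0 g = bd ℤ X 0 y := by
          rw [← sub_eq_zero, ← map_sub, ← hu, bd_bd]
        rw [e1]
        exact bd_mem hy) c1 c2
      have e1 : c = a + b + (c - a - b) := by abel
      rw [e1]
      exact add_mem (add_mem (p1 ⟨ha, h3⟩) (p2 ⟨hb, h4⟩))
        (Submodule.mem_sup_right (RLfB.sup_tr _ h5))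
    · rintro O - hK c ⟨c1, c2⟩
      obtain ⟨K, k1, k2, k3⟩ := exists_compact c1
      obtain ⟨O', o1, -, o3⟩ := hK K k1 k2
      exact o3 ⟨chn_mono o1 2 k3, c2⟩
  refine ⟨μ, fun c hb => ?_⟩
  have h1 : c ∈ chn ℤ (univ : Set X) 2 := by
    rw [chn_univ]
    trivial
  obtain ⟨a, ha, b, hb', rfl⟩ := Submodule.mem_sup.1 (H ⟨h1, hb⟩)
  obtain ⟨m, rfl⟩ := Submodule.mem_span_singleton.1 ha
  exact ⟨m, by rwa [add_sub_cancel_left]⟩

end HW
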