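import Pool.Agent.P.MP_9699e0_gt.W.QA

/-! The pencil of planes through a line of the quartic. -/

set_option autoImplicit false
set_option linter.unusedSectionVars false

noncomputable section

namespace HW

open HK3 Pool.Agent.P.MP_9699e0_gt Set Filter Topology

namespace RLnA

theorem w_four (a : Fin 4) : (zt * iz a) ^ 4 = -1 := by
  rw [mul_pow, zt_four, iz_four, mul_one]

theorem w_ne (a : Fin 4) : zt * iz a ≠ 0 := mul_ne_zero zt_ne (iz_ne a)

theorem ix_surj : ∀ (f : Fin 3) (i : Fin 4), ∃ k, ix f k = i := by decide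

theorem cub_of {a : Fin 4} {x y : ℂ} (h : x - zt * iz a * y = 0) : cub a x y = 4 * x ^ 3 := by
  rw [cub, ← sub_eq_zero.1 h]
  ring

theorem cube_of {a : Fin 4} {x y : ℂ} (h : x - zt * iz a * y = 0) :
    y ^ 3 = -(zt * iz a * x ^ 3) := by
  rw [sub_eq_zero.1 h]
  linear_combination y ^ 3 * w_four a

end RLnA

theorem cub_mul (a : Fin 4) (x y : ℂ) : (x - zt * iz a * y) * cub a x y = x ^ 4 + y ^ 4 := by
  rw [cub]
  linear_combination -y ^ 4 * RLnA.w_four a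

theorem sum_ix (f : Fin 3) (g : Fin 4 → ℂ) :
    ∑ i, g i = g (ix f 0) + g (ix f 1) + (g (ix f 2) + g (ix f 3)) := by
  rw [Fin.sum_univ_four]
  fin_cases f
  · exact add_assoc _ _ _
  · show _ = g 0 + g 2 + (g 1 + g 3)
    ring
  · show _ = g 0 + g 3 + (g 1 + g 2)
    ring

theorem lam_apply (l : Ln) (v : C4) : lam l v = v (ix l.1 0) - zt * iz l.2.1 * v (ix l.1 1) :=
  rfl

theorem mu_apply (l : Ln) (v : C4) : mu l v = v (ix l.1 2) - zt * iz l.2.2 * v (ix l.1 3) :=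
  rfl

theorem mem_Zl {l : Ln} {v : C4} : v ∈ Zl l ↔ lam l v = 0 ∧ mu l v = 0 := Iff.rfl

theorem quartic_eq (l : Ln) (v : C4) : ∑ i, v i ^ 4 =
    lam l v * cub l.2.1 (v (ix l.1 0)) (v (ix l.1 1)) +
      mu l v * cub l.2.2 (v (ix l.1 2)) (v (ix l.1 3)) := by
  rw [sum_ix l.1 fun i => v i ^ 4, lam_apply, mu_apply, cub_mul, cub_mul]

theorem zl_cn {l : Ln} {v : C4} (h : v ∈ Zl l) (h0 : v ≠ 0) : v ∈ Cn :=
  ⟨h0, by rw [quartic_eq l, (mem_Zl.1 h).1, (mem_Zl.1 h).2, zero_mul, zero_mul, add_zero]⟩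

theorem tan_iff {l : Ln} {p : C4} (h : p ∈ Zl l) (v : C4) :
    Tan p v ↔ p (ix l.1 0) ^ 3 * lam l v + p (ix l.1 2) ^ 3 * mu l v = 0 := by
  rw [Tan, sum_ix l.1 fun i => p i ^ 3 * v i, RLnA.cube_of ((lam_apply l p).symm.trans h.1),
    RLnA.cube_of ((mu_apply l p).symm.trans h.2), lam_apply, mu_apply]
  constructor <;> intro e <;> linear_combination e

namespace RLnA

/-- The two linear forms. -/
def F₁ (l : Ln) (v : C4) : Fin 2 → ℂ := ![lam l v, mu l v]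

/-- The two cubic forms. -/
def F₂ (l : Ln) (v : C4) : Fin 2 → ℂ :=
  ![-cub l.2.2 (v (ix l.1 2)) (v (ix l.1 3)), cub l.2.1 (v (ix l.1 0)) (v (ix l.1 1))]

open Classical in
/-- The pencil on the cone. -/
def G (l : Ln) (v : C4) : CP 1 := if v ∈ Zl l then pm 1 (F₂ l v) else pm 1 (F₁ l v)

variable {l : Ln} {v : C4}

theorem F₁_ne : F₁ l v ≠ 0 ↔ v ∉ Zl l := by
  rw [mem_Zl, not_iff_not, funext_iff, Fin.forall_fin_two]
  rfl

theorem F₁_smul (c : ℂ) : F₁ l (c • v) = c • F₁ l v := by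
  funext i
  fin_cases i <;> simp [F₁]

theorem F₂_smul (c : ℂ) : F₂ l (c • v) = c ^ 3 • F₂ l v := by
  funext i
  fin_cases i <;> simp [F₂, cub] <;> ring

theorem F₁_cont : Continuous (F₁ l) := by
  refine continuous_pi fun i => ?_
  fin_cases i
  · show Continuous fun v : C4 => v (ix l.1 0) - zt * iz l.2.1 * v (ix l.1 1)
    fun_prop
  · show Continuous fun v : C4 => v (ix l.1 2) - zt * iz l.2.2 * v (ix l.1 3)
    fun_prop

theorem F₂_cont : Continuous (F₂ l) := by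
  refine continuous_pi fun i => ?_
  fin_cases i
  · show Continuous fun v : C4 => -cub l.2.2 (v (ix l.1 2)) (v (ix l.1 3))
    unfold cub
    fun_prop
  · show Continuous fun v : C4 => cub l.2.1 (v (ix l.1 0)) (v (ix l.1 1))
    unfold cub
    fun_prop

theorem F₂_zl (h : v ∈ Zl l) : F₂ l v 0 = -(4 * v (ix l.1 2) ^ 3) ∧
    F₂ l v 1 = 4 * v (ix l.1 0) ^ 3 :=
  ⟨congrArg Neg.neg (cub_of (mem_Zl.1 h).2), cub_of (mem_Zl.1 h).1⟩

theorem F₂_ne (h : v ∈ Zl l) (h0 : v ≠ 0) : F₂ l v ≠ 0 := by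
  intro e
  obtain ⟨e2, e0⟩ := F₂_zl h
  rw [e] at e0 e2
  have a0 : v (ix l.1 0) = 0 := by simpa using e0
  have a2 : v (ix l.1 2) = 0 := by simpa using e2
  obtain ⟨e1, e3⟩ := mem_Zl.1 h
  rw [lam_apply, a0, zero_sub, neg_eq_zero] at e1
  rw [mu_apply, a2, zero_sub, neg_eq_zero] at e3
  refine h0 (funext fun i => ?_)
  obtain ⟨k, rfl⟩ := ix_surj l.1 i
  fin_cases k
  exacts [a0, (mul_eq_zero.1 e1).resolve_left (w_ne _), a2,
    (mul_eq_zero.1 e3).resolve_left (w_ne _)]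

theorem G_eq (hv : v ∈ Cn) (h : F₂ l v ≠ 0) : G l v = pm 1 (F₂ l v) := by
  rw [G]
  split_ifs with h1
  · rfl
  have e := (quartic_eq l v).symm.trans hv.2
  have key : ∃ c : ℂ, F₁ l v = c • F₂ l v := by
    obtain ⟨i, hi⟩ := Function.ne_iff.1 h
    refine ⟨F₁ l v i / F₂ l v i, funext fun j => ?_⟩
    rw [Pi.smul_apply, smul_eq_mul, div_mul_eq_mul_div, eq_div_iff hi]
    fin_cases i <;> fin_cases j
    · rfl
    · show mu l v * -cub _ _ _ = lam l v * cub _ _ _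
      linear_combination -e
    · show lam l v * cub _ _ _ = mu l v * -cub _ _ _
      linear_combination e
    · rfl
  obtain ⟨c, hc⟩ := key
  refine (pm_eq_iff (F₁_ne.2 h1) h).2 ⟨c, ?_, hc⟩
  rintro rfl
  exact F₁_ne.2 h1 (hc.trans (zero_smul _ _))

theorem G_smul {c : ℂ} (hc : c ≠ 0) : G l (c • v) = G l v := by
  rw [G, G, F₁_smul, F₂_smul, pm_smul hc, pm_smul (pow_ne_zero 3 hc)]
  by_cases h : v ∈ Zl l
  · rw [if_pos h, if_pos (((Zl l).smul_mem_iff hc).2 h)]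
  · rw [if_neg h, if_neg fun e => h (((Zl l).smul_mem_iff hc).1 e)]

theorem pm_at {F : C4 → Fin 2 → ℂ} (hF : Continuous F) (h : F v ≠ 0) :
    ContinuousAt (fun w => pm 1 (F w)) v :=
  (continuousOn_pm.continuousAt (isOpen_compl_singleton.mem_nhds h)).comp hF.continuousAt

theorem G_cont : ContinuousOn (G l) Cn := by
  intro v hv
  by_cases h : v ∈ Zl l
  · have h2 := F₂_ne h hv.1
    refine (pm_at F₂_cont h2).continuousWithinAt.congr_of_eventuallyEq ?_ (G_eq hv h2)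
    filter_upwards [self_mem_nhdsWithin,
      mem_nhdsWithin_of_mem_nhds (F₂_cont.continuousAt.eventually_ne h2)] with w hw hw2
    exact G_eq hw hw2
  · have h1 := F₁_ne.2 h
    refine ((pm_at F₁_cont h1).congr ?_).continuousWithinAt
    filter_upwards [F₁_cont.continuousAt.eventually_ne h1] with w hw
    exact (if_neg (F₁_ne.1 hw)).symm

theorem G_rq : Continuous fun p : Fermat => G l (rq p) := by
  rw [← continuousOn_univ]
  exact contOn_rp (g := inc) inc.continuous.continuousOn (G := fun _ v => G l v)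
    (T := univ ×ˢ Cn) (G_cont.comp continuousOn_snd fun _ hq => hq.2)
    fun p _ c hc => ⟨⟨trivial, Cn_smul hc (rq_mem p)⟩, G_smul hc⟩

end RLnA

theorem exists_pencil (l : Ln) : ∃ ϑ : C(Fermat, CP 1), ∀ p,
    rp (ϑ p) 0 * mu l (rq p) = rp (ϑ p) 1 * lam l (rq p) ∧
      (rq p ∈ Zl l → (ϑ p ∈ Uc 0 → rq p (ix l.1 2) ≠ 0) ∧ (ϑ p ∈ Uc 1 → rq p (ix l.1 0) ≠ 0)) := by
  refine ⟨⟨_, RLnA.G_rq (l := l)⟩, fun p => ⟨?_, fun h => ?_⟩⟩
  · by_cases h : rq p ∈ Zl l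
    · rw [(mem_Zl.1 h).1, (mem_Zl.1 h).2, mul_zero, mul_zero]
    · obtain ⟨c, -, e⟩ := rp_pm (RLnA.F₁_ne.2 h)
      have e' : RLnA.G l (rq p) = pm 1 (RLnA.F₁ l (rq p)) := if_neg h
      rw [ContinuousMap.coe_mk, e', e]
      show c * lam l (rq p) * mu l (rq p) = c * mu l (rq p) * lam l (rq p)
      ring
  · have h2 := RLnA.F₂_ne h (rq_mem p).1
    have e' : RLnA.G l (rq p) = pm 1 (RLnA.F₂ l (rq p)) := if_pos h
    rw [ContinuousMap.coe_mk, e', pm_mem_Uc h2, pm_mem_Uc h2, (RLnA.F₂_zl h).1, (RLnA.F₂_zl h).2]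
    constructor <;> intro e e0 <;> simp [e0] at e

end HW
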