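import Pool.Agent.P.MP_9699e0_gt.W.LnA
import Pool.Agent.P.MP_9699e0_gt.W.BnA

/-! Line bundles of hyperplane sections and of lines on the quartic. -/

set_option autoImplicit false
set_option linter.unusedSectionVars false

noncomputable section

namespace HW

open HK3 Pool.Agent.P.MP_9699e0_gt Set Filter Topology

namespace RLnB

theorem coc_div {X : Type} [TopologicalSpace X] {L : Et X} {J J' : L.Ω → L.Ω → ℂ} (h : L.Coc J)
    (h' : L.Coc J') : L.Coc fun a b => J a b / J' a b :=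
  ⟨h.cont.div h'.cont fun p hp => h'.ne _ _ hp, fun a b e => div_ne_zero (h.ne a b e) (h'.ne a b e),
    fun a b c e e' => by rw [div_mul_div_comm, h.mul a b c e e', h'.mul a b c e e']⟩

theorem nq_zero {ν : C4 →ₗ[ℂ] ℂ} {i : Fin 4} {x : Fermat} (hx : x ∈ UQ i) (h : ν (nq i x) = 0) :
    ν (rq x) = 0 := by
  rw [nq_eq, map_smul, smul_eq_mul] at h
  exact (mul_eq_zero.1 h).resolve_left (inv_ne_zero (mem_UQ.1 hx))

theorem sq_zero (ϑ : C(Fermat, CP 1)) (A : OAt Fermat) (z : Chn ℤ Fermat 4) (hz : A.Fund z) :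
    ev ℤ (cup (pull ϑ (xx 1)) (pull ϑ (xx 1))) z = 0 := by
  have := t2_Q
  refine (A.inter_zero hz (coc_JP ϑ) (coc_JP ϑ) (sec_sP ϑ (LinearMap.proj 0))
    (sec_sP ϑ (LinearMap.proj 1)) ?_ (rep_xx ϑ) (rep_xx ϑ)).1
  rintro ⟨i, x⟩ hu ⟨j, y⟩ hu' e h h'
  obtain rfl : x = y := e
  have a1 : ϑ x ∉ Uc 0 := fun k => (nl_ne_iff (i := i) hu).2 k h
  have a2 : ϑ x ∉ Uc 1 := fun k => (nl_ne_iff (i := j) hu').2 k h'
  obtain ⟨k, hk⟩ := exists_Uc (ϑ x)
  fin_cases k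
  exacts [a1 hk, a2 hk]

/-- The cover adapted to the coordinates and the pencil. -/
def et (ϑ : C(Fermat, CP 1)) : Et Fermat :=
  etC (fun a : Fin 4 × Fin 2 => UQ a.1 ∩ ϑ ⁻¹' Uc a.2)
    (fun a => (isOpen_UQ a.1).inter ((isOpen_Uc a.2).preimage ϑ.continuous)) fun x =>
      (exists_UQ x).elim fun i hi => (exists_Uc (ϑ x)).elim fun j hj => ⟨(i, j), hi, hj⟩

end RLnB

theorem Dv.coc {Z : Submodule ℂ C4} {c : Simp Fermat 2 → ℤ} (h : Dv Z c) : cobd c = 0 := by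
  obtain ⟨L, J, s, -, -, h, -⟩ := h
  exact h.1

theorem dv_H (ν : C4 →ₗ[ℂ] ℂ) : Dv (LinearMap.ker ν) cH := by
  refine ⟨etP inc, JP inc, sP inc ν, coc_JP inc, sec_sP inc ν, rep_xx inc,
    fun u hu h => RLnB.nq_zero (i := u.1) hu h, fun p hp => ?_⟩
  obtain ⟨i, hi⟩ := exists_UQ p
  refine ⟨fun x => (i, x), i, ν, hi, ?_, hp, fun v _ h => h⟩
  filter_upwards [(isOpen_UQ i).mem_nhds hi] with x hx
  exact ⟨(Continuous.prodMk_right i).continuousAt, hx, rfl, rfl⟩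

open RLnB in
theorem exists_dv_line (l : Ln) : ∃ c cF : Simp Fermat 2 → ℤ, Dv (Zl l) c ∧ cobd cF = 0 ∧
    Coh cH (c + cF) ∧ ∀ (A : OAt Fermat) (z : Chn ℤ Fermat 4), A.Fund z →
      ev ℤ (cup cF cF) z = 0 := by
  obtain ⟨ϑ, hϑ⟩ := exists_pencil l
  let ν : Fin 2 → C4 →ₗ[ℂ] ℂ := ![lam l, mu l]
  have hν : ∀ x j j', ν j (rq x) * rp (ϑ x) j' = ν j' (rq x) * rp (ϑ x) j := fun x j j' => by
    have := (hϑ x).1
    fin_cases j <;> fin_cases j'
    · rfl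
    · change lam l (rq x) * rp (ϑ x) 1 = mu l (rq x) * rp (ϑ x) 0
      linear_combination -this
    · change mu l (rq x) * rp (ϑ x) 0 = lam l (rq x) * rp (ϑ x) 1
      linear_combination this
    · rfl
  let π : (Fin 4 × Fin 2) × Fermat → Fin 4 × Fermat := fun a => (a.1.1, a.2)
  let π' : (Fin 4 × Fin 2) × Fermat → Fin 2 × Fermat := fun a => (a.1.2, a.2)
  have c1 : Continuous π := by fun_prop
  have c2 : Continuous π' := by fun_prop
  have hH : (et ϑ).Coc fun a b => JP inc (π a) (π b) :=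
    coc_pull' (L' := et ϑ) (coc_JP inc) id c1.continuousOn (fun a h => h.1) fun _ _ => rfl
  have hF : (et ϑ).Coc fun a b => JP ϑ (π' a) (π' b) :=
    coc_pull' (L' := et ϑ) (coc_JP ϑ) id c2.continuousOn (fun a h => h.2) fun _ _ => rfl
  have rH : (et ϑ).Rep (fun a b => JP inc (π a) (π b)) (pull id cH) :=
    rep_pull (L := etP inc) (L' := et ϑ) (π := π) continuous_id c1.continuousOn (fun a h => h.1)
      (fun _ _ => rfl) (rep_xx inc)
  have rF : (et ϑ).Rep (fun a b => JP ϑ (π' a) (π' b)) (pull id (pull ϑ (xx 1))) :=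
    rep_pull (L := etP ϑ) (L' := et ϑ) (π := π') continuous_id c2.continuousOn (fun a h => h.2)
      (fun _ _ => rfl) (rep_xx ϑ)
  rw [pull_id] at rH rF
  have hJ := coc_div hH hF
  obtain ⟨c, hc⟩ := (et ϑ).exists_rep hJ
  let s : (Fin 4 × Fin 2) × Fermat → ℂ := fun a => ν a.1.2 (nq a.1.1 a.2)
  have s1 : ContinuousOn s {a | a.2 ∈ UQ a.1.1} := continuousOn_prod_of_discrete_left.2 fun a =>
    (ν a.2).continuous_of_finiteDimensional.comp_continuousOn (continuousOn_nq a.1)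
  have s2 : ∀ a b : (Fin 4 × Fin 2) × Fermat, (et ϑ).R a b →
      s a = JP inc (π a) (π b) / JP ϑ (π' a) (π' b) * s b := by
    rintro ⟨⟨i, j⟩, x⟩ ⟨⟨i', j'⟩, y⟩ ⟨⟨a1, a2⟩, ⟨a3, a4⟩, e⟩
    obtain rfl : x = y := e
    have b1 : rq x i ≠ 0 := mem_UQ.1 a1
    have b2 : rp (ϑ x) j ≠ 0 := a2
    have b3 : rq x i' ≠ 0 := mem_UQ.1 a3
    have b4 : rp (ϑ x) j' ≠ 0 := a4
    change ν j (nq i x) = (rq x i)⁻¹ * rq x i' / ((rp (ϑ x) j)⁻¹ * rp (ϑ x) j') * ν j' (nq i' x)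
    rw [nq_eq, nq_eq, map_smul, map_smul, smul_eq_mul, smul_eq_mul]
    field_simp
    linear_combination hν x j j'
  refine ⟨c, pull ϑ (xx 1), ⟨et ϑ, _, s, hJ, ⟨s1.mono fun a h => h.1.1, fun a b h _ => s2 a b h⟩,
    hc, ?_, fun p hp => ?_⟩, rF.1, Et.Rep.coh hH (hJ.mul' hF) (u := fun _ => 1)
      ⟨continuousOn_const, fun _ _ => one_ne_zero⟩ (fun a b h => ?_) rH (hc.mul hJ hF rF),
    sq_zero ϑ⟩
  · rintro ⟨⟨i, j⟩, x⟩ ⟨a1, a2⟩ h
    have b1 : ν j (rq x) = 0 := nq_zero a1 h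
    have b2 : ∀ j', ν j' (rq x) = 0 := fun j' => by
      have := hν x j j'
      rw [b1, zero_mul] at this
      exact (mul_eq_zero.1 this.symm).resolve_right a2
    exact mem_Zl.2 ⟨b2 0, b2 1⟩
  · obtain ⟨i, hi⟩ := exists_UQ p
    obtain ⟨j, hj⟩ := exists_Uc (ϑ p)
    refine ⟨fun x => ((i, j), x), i, ν j, hi, ?_, ?_, fun v h1 h2 => ?_⟩
    · filter_upwards [(isOpen_UQ i).mem_nhds hi,
        ((isOpen_Uc j).preimage ϑ.continuous).mem_nhds hj] with x hx hx'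
      exact ⟨(Continuous.prodMk_right (i, j)).continuousAt, ⟨hx, hx'⟩, rfl, rfl⟩
    · fin_cases j
      exacts [(mem_Zl.1 hp).1, (mem_Zl.1 hp).2]
    · rw [tan_iff hp] at h1
      fin_cases j
      · have h3 : lam l v = 0 := h2
        rw [h3, mul_zero, zero_add] at h1
        exact mem_Zl.2 ⟨h3, (mul_eq_zero.1 h1).resolve_left (pow_ne_zero _ (((hϑ p).2 hp).1 hj))⟩
      · have h3 : mu l v = 0 := h2
        rw [h3, mul_zero, add_zero] at h1
        exact mem_Zl.2 ⟨(mul_eq_zero.1 h1).resolve_left (pow_ne_zero _ (((hϑ p).2 hp).2 hj)), h3⟩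
  · rw [mul_one, one_mul, div_mul_cancel₀ _ (hF.ne a b h)]

end HW
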