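import Pool.Agent.P.MP_9699e0_gt.W.QA
import Pool.Agent.P.MP_9699e0_gt.It3
import Pool.Agent.P.MP_9699e0_gt.Det

/-! Intersection numbers of transversal divisors on the quartic. -/

set_option autoImplicit false
set_option linter.unusedSectionVars false

noncomputable section

namespace HW

open HK3 Pool.Agent.P.MP_9699e0_gt Set Filter Topology

variable {A : OAt Fermat} {z : Chn ℤ Fermat 4}

namespace RLnC

theorem tan_smul (c : ℂ) {p v : C4} (h : Tan p v) : Tan (c • p) v := by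
  unfold Tan at h ⊢
  simp only [Pi.smul_apply, smul_eq_mul, mul_pow, mul_assoc]
  rw [← Finset.mul_sum, h, mul_zero]

theorem tan_deriv {σ : E → C4} {D : E →L[ℂ] C4} {a : E} (h : HasFDerivAt σ D a)
    (hc : ∀ᶠ ξ in 𝓝 a, σ ξ ∈ Cn) (ξ : E) : Tan (σ a) (D ξ) := by
  have h1 : HasFDerivAt (fun x => ∑ i, σ x i ^ 4)
      (∑ i, ((4 : ℕ) • σ a i ^ (4 - 1)) • (ContinuousLinearMap.proj i).comp D) a :=
    HasFDerivAt.fun_sum fun i _ => (hasFDerivAt_pi'.1 h i).pow 4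
  have h2 : HasFDerivAt (fun x => ∑ i, σ x i ^ 4) (0 : E →L[ℂ] ℂ) a :=
    (hasFDerivAt_const (0 : ℂ) a).congr_of_eventuallyEq (hc.mono fun x hx => hx.2)
  have h3 := congrArg (fun F : E →L[ℂ] ℂ => F ξ) (h1.unique h2)
  simp only [Fin.sum_univ_four, add_apply, smul_apply,
    ContinuousLinearMap.comp_apply, ContinuousLinearMap.proj_apply, smul_eq_mul, nsmul_eq_mul,
    zero_apply, Nat.cast_ofNat] at h3
  unfold Tan
  rw [Fin.sum_univ_four]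
  linear_combination h3 / 4

theorem side {L : Et Fermat} {s : L.Ω → ℂ} {Z : Submodule ℂ C4} {k : A.κ} {a : E} {σ : E → C4}
    {D : E →L[ℂ] C4} (ha : a ∈ A.W k) (hσ : HasFDerivAt σ D a)
    (he : ∀ᶠ ξ in 𝓝 a, σ ξ ∈ Cn ∧ A.f k ξ = qm (σ ξ))
    (h : ∀ p, rq p ∈ Z → ∃ (m : Fermat → L.Ω) (i : Fin 4) (ν : C4 →ₗ[ℂ] ℂ), p ∈ UQ i ∧
      (∀ᶠ x in 𝓝 p, ContinuousAt m x ∧ m x ∈ L.dom ∧ L.f (m x) = x ∧ s (m x) = ν (nq i x)) ∧
      ν (rq p) = 0 ∧ ∀ v, Tan (rq p) v → ν v = 0 → v ∈ Z) (hZ : σ a ∈ Z) :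
    ∃ (l : E → L.Ω) (D₁ : E →L[ℂ] ℂ),
      (∀ᶠ ξ in 𝓝 a, ContinuousAt l ξ ∧ l ξ ∈ L.dom ∧ L.f (l ξ) = A.f k ξ) ∧ s (l a) = 0 ∧
      HasFDerivAt (fun ξ => s (l ξ)) D₁ a ∧ ∀ ξ, D₁ ξ = 0 → D ξ ∈ Z := by
  obtain ⟨h1, h2⟩ := he.self_of_nhds
  obtain ⟨c, hc, e⟩ := rq_qm h1
  obtain ⟨m, i, ν, hi, hm, h0, ht⟩ := h (A.f k a) (by rw [h2, e]; exact Z.smul_mem c hZ)
  rw [h2] at hi h0 ht
  rw [qm_mem_UQ h1] at hi
  rw [e, map_smul, smul_eq_zero_iff_right hc] at h0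
  have hW : ∀ᶠ ξ in 𝓝 a, ξ ∈ A.W k := (A.opn k).mem_nhds ha
  have hf : ∀ᶠ ξ in 𝓝 a, ContinuousAt (A.f k) ξ :=
    hW.mono fun ξ hξ => (A.loc k).continuousOn.continuousAt ((A.opn k).mem_nhds hξ)
  have hm' := hf.self_of_nhds.eventually hm
  have ev : ∀ᶠ ξ in 𝓝 a, s (m (A.f k ξ)) = (σ ξ i)⁻¹ * ν (σ ξ) := by
    filter_upwards [hm', he] with ξ x1 x2
    rw [x1.2.2.2, x2.2, nq_qm x2.1, map_smul, smul_eq_mul]
  have d1 : HasFDerivAt (fun ξ => ν (σ ξ)) ((LinearMap.toContinuousLinearMap ν).comp D) a :=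
    (LinearMap.toContinuousLinearMap ν).hasFDerivAt.comp a hσ
  have d2 := ((hasFDerivAt_pi'.1 hσ i).differentiableAt.inv hi).hasFDerivAt
  have d3 := d2.mul d1
  refine ⟨fun ξ => m (A.f k ξ), _, ?_, ?_, d3.congr_of_eventuallyEq ev, fun ξ hξ => ?_⟩
  · filter_upwards [hm', hf] with ξ x1 x2
    exact ⟨x1.1.comp x2, x1.2.1, x1.2.2.1⟩
  · rw [ev.self_of_nhds, h0, mul_zero]
  · refine ht _ (e ▸ tan_smul c (tan_deriv hσ (he.mono fun _ x => x.1) ξ)) ?_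
    simpa [h0, hi] using hξ

end RLnC

open RLnC

variable {Z Z' : Submodule ℂ C4} {c c' : Simp Fermat 2 → ℤ}

theorem meet_dv (hA : Hol A) (hz : A.Fund z) (h : Dv Z c) (h' : Dv Z' c') {ι : Type}
    (T : Finset ι) (v : ι → C4) (hv : ∀ j ∈ T, v j ∈ Cn ∧ v j ∈ Z ∧ v j ∈ Z')
    (hi : InjOn (fun j => qm (v j)) T)
    (ha : ∀ w ∈ Cn, w ∈ Z → w ∈ Z' → ∃ j ∈ T, qm w = qm (v j))
    (ht : ∀ j ∈ T, ∀ w, Tan (v j) w → w ∈ Z → w ∈ Z' → ∃ t : ℂ, w = t • v j) :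
    Meet z c c' T.card := by
  have := t2_Q
  obtain ⟨L, J, s, hJ, hs, hc, h0, hl⟩ := h
  obtain ⟨L', J', s', hJ', hs', hc', h0', hl'⟩ := h'
  choose k a hak hf using fun j => A.surj (qm (v j))
  have key := A.inter hz hJ hJ' hs hs' T k a (fun _ => 1) (by simpa only [hf] using hi)
    (fun u hu u' hu' e x x' => by
      obtain ⟨j, hj, e'⟩ := ha _ (rq_mem (L.f u)) (h0 u hu x) (e ▸ h0' u' hu' x')
      exact ⟨j, hj, by rw [hf, ← e', qm_rq]⟩) (fun j hj => ?_) hc hc'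
  · simpa using key
  obtain ⟨σ, D, hσ, he, hD⟩ := hA (k j) (a j) (hak j)
  obtain ⟨h1, h2⟩ := he.self_of_nhds
  obtain ⟨t, ht0, e⟩ := (qm_eq_iff h1 (hv j hj).1).1 (h2.symm.trans (hf j))
  obtain ⟨l, D₁, x1, x2, x3, x4⟩ := side (hak j) hσ he hl (e ▸ Z.smul_mem t (hv j hj).2.1)
  obtain ⟨l', D₂, y1, y2, y3, y4⟩ := side (hak j) hσ he hl' (e ▸ Z'.smul_mem t (hv j hj).2.2)
  refine ⟨hak j, l, l', (D₁.prod D₂).restrictScalars ℝ, ?_, x2, y2,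
    (x3.prodMk y3).restrictScalars ℝ, Or.inl ⟨rfl, det_cplx _ ?_⟩⟩
  · filter_upwards [x1, y1] with ξ p q
    exact ⟨p.1, q.1, p.2.1, q.2.1, p.2.2, q.2.2⟩
  · refine (injective_iff_map_eq_zero _).2 fun ξ hξ => ?_
    have e' : v j = t⁻¹ • σ (a j) := by rw [e, inv_smul_smul₀ ht0]
    obtain ⟨r, hr⟩ := ht j hj (D ξ) (e' ▸ tan_smul _ (tan_deriv hσ (he.mono fun _ x => x.1) ξ))
      (x4 ξ (congrArg Prod.fst hξ)) (y4 ξ (congrArg Prod.snd hξ))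
    exact hD ξ (r * t⁻¹) (by rw [hr, e', smul_smul])

theorem meet_zero (hA : Hol A) (hz : A.Fund z) (h : Dv Z c) (h' : Dv Z' c')
    (h0 : ∀ w ∈ Z, w ∈ Z' → w = 0) : Meet z c c' 0 :=
  meet_dv hA hz h h' (∅ : Finset Empty) Empty.elim (fun j => j.elim) (fun j => j.elim)
    (fun w hw x x' => (hw.1 (h0 w x x')).elim) fun j => j.elim

theorem meet_one (hA : Hol A) (hz : A.Fund z) (h : Dv Z c) (h' : Dv Z' c') {v : C4} (hv : v ∈ Cn)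
    (h1 : ∀ w, w ∈ Z ∧ w ∈ Z' ↔ ∃ t : ℂ, w = t • v) : Meet z c c' 1 :=
  meet_dv hA hz h h' ({()} : Finset Unit) (fun _ => v)
    (fun _ _ => ⟨hv, (h1 v).2 ⟨1, (one_smul _ _).symm⟩⟩) (fun _ _ _ _ _ => rfl)
    (fun w hw x x' => by
      obtain ⟨t, rfl⟩ := (h1 w).1 ⟨x, x'⟩
      exact ⟨(), Finset.mem_singleton_self _, qm_smul (fun e => hw.1 (by rw [e, zero_smul])) hv⟩)
    fun _ _ w _ x x' => (h1 w).1 ⟨x, x'⟩

end HW
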