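import Pool.Agent.P.MP_9699e0_gt.W.LnA

/-! Incidences of the 48 lines on the Fermat quartic. -/

set_option autoImplicit false
set_option linter.unusedSectionVars false

noncomputable section

namespace HW

open HK3 Pool.Agent.P.MP_9699e0_gt Set Filter Topology



namespace RLnD

theorem mem_iff (f : Fin 3) (a b : Fin 4) (w : C4) : w ∈ Zl (f, a, b) ↔
    w (ix f 0) = zt * iz a * w (ix f 1) ∧ w (ix f 2) = zt * iz b * w (ix f 3) := by
  rw [mem_Zl, lam_apply, mu_apply, sub_eq_zero, sub_eq_zero]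

theorem mem0 (a b : Fin 4) (w : C4) : w ∈ Zl (0, a, b) ↔
    w 0 = zt * iz a * w 1 ∧ w 2 = zt * iz b * w 3 := mem_iff 0 a b w

theorem mem1 (a b : Fin 4) (w : C4) : w ∈ Zl (1, a, b) ↔
    w 0 = zt * iz a * w 2 ∧ w 1 = zt * iz b * w 3 := mem_iff 1 a b w

theorem mem2 (a b : Fin 4) (w : C4) : w ∈ Zl (2, a, b) ↔
    w 0 = zt * iz a * w 3 ∧ w 1 = zt * iz b * w 2 := mem_iff 2 a b w

/-- The inverse of the permutation `ix f`. -/
def jx : Fin 3 → Fin 4 → Fin 4 := ![![0, 1, 2, 3], ![0, 2, 1, 3], ![0, 2, 3, 1]]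

theorem jx_ix : ∀ f i, jx f (ix f i) = i := by decide

theorem ix_jx : ∀ f i, ix f (jx f i) = i := by decide

theorem eq_iff (f : Fin 3) (w u : C4) (t : ℂ) : w = t • (fun i => u (jx f i)) ↔
    w (ix f 0) = t * u 0 ∧ w (ix f 1) = t * u 1 ∧ w (ix f 2) = t * u 2 ∧ w (ix f 3) = t * u 3 := by
  constructor
  · rintro rfl
    simp only [Pi.smul_apply, smul_eq_mul, jx_ix, and_self]
  · rintro ⟨h0, h1, h2, h3⟩
    have h : ∀ i, w (ix f i) = t * u i := by
      intro i
      fin_cases i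
      exacts [h0, h1, h2, h3]
    funext i
    have := h (jx f i)
    rwa [ix_jx] at this

theorem ne_zero (f : Fin 3) {u : C4} {i : Fin 4} (h : u i = 1) :
    (fun i => u (jx f i) : C4) ≠ 0 := fun e => by
  have := congrFun e (ix f i)
  rw [jx_ix, h] at this
  exact one_ne_zero this

theorem cancel {a c : Fin 4} (h : a ≠ c) {x : ℂ} (e : iz a * x = iz c * x) : x = 0 := by
  by_contra hx
  exact h (iz_inj (mul_right_cancel₀ hx e))

theorem cancel' {a c : Fin 4} (h : a ≠ c) {x : ℂ} (e : zt * iz a * x = zt * iz c * x) : x = 0 :=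
  cancel h (mul_left_cancel₀ zt_ne (by linear_combination e))

/-- Both assertions for one pair of lines. -/
def Inc (l m : Ln) : Prop :=
  (l ≠ m → mt l m = true →
    ∃ v : C4, v ≠ 0 ∧ ∀ w, w ∈ Zl l ∧ w ∈ Zl m ↔ ∃ t : ℂ, w = t • v) ∧
  (mt l m = false → ∀ w ∈ Zl l, w ∈ Zl m → w = 0)

theorem symm : ∀ l m : Ln, mt l m = mt m l := by
  rintro ⟨f, a, b⟩ ⟨g, c, d⟩
  fin_cases f <;> fin_cases g <;> simp [mt, eq_comm, add_comm]

theorem Inc.symm {l m : Ln} (h : Inc l m) : Inc m l := by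
  refine ⟨fun h1 h2 => ?_, fun h1 w h2 h3 => h.2 ((RLnD.symm l m).trans h1) w h3 h2⟩
  obtain ⟨v, hv, e⟩ := h.1 h1.symm ((RLnD.symm l m).trans h2)
  exact ⟨v, hv, fun w => and_comm.trans (e w)⟩

theorem inc_of {l m : Ln} {i j : Fin 4} (v : C4) (hv : v 3 = 1) (hm : mt l m = true ↔ i = j)
    (h : ∀ w, w ∈ Zl l ∧ w ∈ Zl m ↔ w = w 3 • v ∧ iz i * w 3 = iz j * w 3) : Inc l m := by
  refine ⟨fun _ h1 => ⟨v, fun e => ?_, fun w => ?_⟩, fun h1 w h2 h3 => ?_⟩
  · rw [e] at hv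
    exact zero_ne_one hv
  · rw [h, hm.1 h1]
    constructor
    · exact fun e => ⟨_, e.1⟩
    · rintro ⟨t, rfl⟩
      simp [hv]
  · obtain ⟨e1, e2⟩ := (h w).1 ⟨h2, h3⟩
    have hij : i ≠ j := fun e => by simp [hm.2 e] at h1
    rw [e1, cancel hij e2, zero_smul]

theorem vec_iff (w : C4) (x y z : ℂ) : w = w 3 • ![x, y, z, 1] ↔
    w 0 = w 3 * x ∧ w 1 = w 3 * y ∧ w 2 = w 3 * z := by
  constructor
  · intro e
    exact ⟨congrFun e 0, congrFun e 1, congrFun e 2⟩
  · rintro ⟨h0, h1, h2⟩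
    funext i
    fin_cases i
    exacts [h0, h1, h2, (mul_one _).symm]

theorem inc01 (a b c d : Fin 4) : Inc (0, a, b) (1, c, d) := by
  refine inc_of (i := a + d) (j := b + c) ![zt * iz a * (zt * iz d), zt * iz d, zt * iz b, 1] rfl
    (by simp [mt]) fun w => ?_
  rw [mem0, mem1, vec_iff, iz_add, iz_add]
  constructor
  · rintro ⟨⟨h1, h2⟩, h3, h4⟩
    refine ⟨⟨by linear_combination h1 + zt * iz a * h4, by linear_combination h4,
      by linear_combination h2⟩, mul_left_cancel₀ (mul_ne_zero zt_ne zt_ne) ?_⟩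
    linear_combination h3 - h1 - zt * iz a * h4 + zt * iz c * h2
  · rintro ⟨⟨h1, h2, h3⟩, h4⟩
    exact ⟨⟨by linear_combination h1 - zt * iz a * h2, by linear_combination h3⟩,
      by linear_combination h1 - zt * iz c * h3 + zt * zt * h4, by linear_combination h2⟩

theorem inc02 (a b c d : Fin 4) : Inc (0, a, b) (2, c, d) := by
  refine inc_of (i := a + b + d + 1) (j := c)
    ![zt * iz c, zt * iz d * (zt * iz b), zt * iz b, 1] rfl (by simp [mt]) fun w => ?_
  rw [mem0, mem2, vec_iff, iz_add, iz_add, iz_add, iz_one, ← zt_sq]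
  constructor
  · rintro ⟨⟨h1, h2⟩, h3, h4⟩
    refine ⟨⟨by linear_combination h3, by linear_combination h4 + zt * iz d * h2,
      by linear_combination h2⟩, mul_left_cancel₀ zt_ne ?_⟩
    linear_combination h3 - h1 - zt * iz a * h4 - zt * iz a * zt * iz d * h2
  · rintro ⟨⟨h1, h2, h3⟩, h4⟩
    exact ⟨⟨by linear_combination h1 - zt * iz a * h2 - zt * h4, by linear_combination h3⟩,
      by linear_combination h1, by linear_combination h2 - zt * iz d * h3⟩

theorem inc12 (a b c d : Fin 4) : Inc (1, a, b) (2, c, d) := by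
  refine inc_of (i := a + b) (j := c + d)
    ![zt * iz c, zt * iz b, iz (-a) * iz c, 1] rfl (by simp [mt]) fun w => ?_
  have ha := iz_neg a
  rw [mem1, mem2, vec_iff, iz_add, iz_add]
  constructor
  · rintro ⟨⟨h1, h2⟩, h3, h4⟩
    have h5 : iz a * w 2 = iz c * w 3 := mul_left_cancel₀ zt_ne (by linear_combination h3 - h1)
    have h6 : iz b * w 3 = iz d * w 2 := mul_left_cancel₀ zt_ne (by linear_combination h4 - h2)
    exact ⟨⟨by linear_combination h3, by linear_combination h2,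
      by linear_combination iz (-a) * h5 - w 2 * ha⟩,
      by linear_combination iz a * h6 + iz d * h5⟩
  · rintro ⟨⟨h1, h2, h3⟩, h4⟩
    exact ⟨⟨by linear_combination h1 - zt * iz a * h3 - zt * iz c * w 3 * ha,
      by linear_combination h2⟩, by linear_combination h1,
      by linear_combination h2 - zt * iz d * h3 + zt * iz (-a) * h4 - zt * iz b * w 3 * ha⟩

theorem inc_same (f : Fin 3) (a b c d : Fin 4) : Inc (f, a, b) (f, c, d) := by
  have hm : mt (f, a, b) (f, c, d) = true ↔ a = c ∨ b = d := by simp [mt]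
  refine ⟨fun h1 h2 => ?_, fun h1 w h2 h3 => ?_⟩
  · rcases hm.1 h2 with rfl | rfl
    · have hbd : b ≠ d := fun e => h1 (by rw [e])
      refine ⟨fun i => ![zt * iz a, 1, 0, 0] (jx f i), ne_zero f (i := 1) rfl, fun w => ?_⟩
      simp only [mem_iff, eq_iff]
      constructor
      · rintro ⟨⟨e1, e2⟩, -, e3⟩
        have e4 := cancel' hbd (e2.symm.trans e3)
        refine ⟨w (ix f 1), ?_, ?_, ?_, ?_⟩
        · rw [e1]; exact mul_comm _ _
        · exact (mul_one _).symm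
        · rw [e2, e4]; simp
        · rw [e4]; simp
      · rintro ⟨t, e0, e1, e2, e3⟩
        rw [e0, e1, e2, e3]
        simp [mul_comm]
    · have hac : a ≠ c := fun e => h1 (by rw [e])
      refine ⟨fun i => ![0, 0, zt * iz b, 1] (jx f i), ne_zero f (i := 3) rfl, fun w => ?_⟩
      simp only [mem_iff, eq_iff]
      constructor
      · rintro ⟨⟨e1, e2⟩, e3, -⟩
        have e4 := cancel' hac (e1.symm.trans e3)
        refine ⟨w (ix f 3), ?_, ?_, ?_, ?_⟩
        · rw [e1, e4]; simp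
        · rw [e4]; simp
        · rw [e2]; exact mul_comm _ _
        · exact (mul_one _).symm
      · rintro ⟨t, e0, e1, e2, e3⟩
        rw [e0, e1, e2, e3]
        simp [mul_comm]
  · have hac : a ≠ c := fun e => by simp [hm.2 (Or.inl e)] at h1
    have hbd : b ≠ d := fun e => by simp [hm.2 (Or.inr e)] at h1
    rw [mem_iff] at h2 h3
    have e1 := cancel' hac (h2.1.symm.trans h3.1)
    have e3 := cancel' hbd (h2.2.symm.trans h3.2)
    have := (eq_iff f w 0 0).2 ⟨by rw [h2.1, e1]; simp, by rw [e1]; simp, by rw [h2.2, e3]; simp,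
      by rw [e3]; simp⟩
    rw [this, zero_smul]

theorem inc_all : ∀ l m : Ln, Inc l m := by
  rintro ⟨f, a, b⟩ ⟨g, c, d⟩
  fin_cases f <;> fin_cases g
  exacts [inc_same 0 a b c d, inc01 a b c d, inc02 a b c d, (inc01 c d a b).symm,
    inc_same 1 a b c d, inc12 a b c d, (inc02 c d a b).symm, (inc12 c d a b).symm,
    inc_same 2 a b c d]

end RLnD

theorem mt_symm (l m : Ln) : mt l m = mt m l := RLnD.symm l m

theorem zl_meet {l m : Ln} (h : l ≠ m) (h1 : mt l m = true) :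
    ∃ v : C4, v ≠ 0 ∧ ∀ w, w ∈ Zl l ∧ w ∈ Zl m ↔ ∃ t : ℂ, w = t • v := (RLnD.inc_all l m).1 h h1

theorem zl_disj {l m : Ln} (h1 : mt l m = false) : ∀ w ∈ Zl l, w ∈ Zl m → w = 0 :=
  (RLnD.inc_all l m).2 h1

theorem zl_hyp (l : Ln) : ∃ (ν : C4 →ₗ[ℂ] ℂ) (v : C4), v ≠ 0 ∧
    ∀ w, w ∈ LinearMap.ker ν ∧ w ∈ Zl l ↔ ∃ t : ℂ, w = t • v := by
  obtain ⟨f, a, b⟩ := l
  refine ⟨LinearMap.proj (ix f 1), fun i => ![0, 0, zt * iz b, 1] (RLnD.jx f i),
    RLnD.ne_zero f (i := 3) rfl, fun w => ?_⟩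
  simp only [RLnD.mem_iff, RLnD.eq_iff, LinearMap.mem_ker, LinearMap.proj_apply]
  constructor
  · rintro ⟨e4, e1, e2⟩
    refine ⟨w (ix f 3), ?_, ?_, ?_, ?_⟩
    · rw [e1, e4]; simp
    · rw [e4]; simp
    · rw [e2]; exact mul_comm _ _
    · exact (mul_one _).symm
  · rintro ⟨t, e0, e1, e2, e3⟩
    rw [e0, e1, e2, e3]
    simp [mul_comm]

end HW
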