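import Pool.Agent.P.MP_9699e0_gt.W.QA
import Pool.Agent.P.MP_9699e0_gt.W.BnA

/-! Monomial symmetries of the Fermat quartic. -/

set_option autoImplicit false
set_option linter.unusedSectionVars false

noncomputable section

namespace HW

open HK3 Pool.Agent.P.MP_9699e0_gt Set Filter Topology

namespace RQB

theorem ne {u : C4} (hu : ∀ i, u i ^ 4 = 1) (i : Fin 4) : u i ≠ 0 := fun h => by
  have := hu i
  rw [h] at this
  norm_num at this

theorem four (h : G3) (i : Fin 4) : (![iz h.1, iz h.2.1, iz h.2.2, 1] : C4) i ^ 4 = 1 := by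
  fin_cases i <;> simp [iz_four]

theorem one (i : Fin 4) : (1 : C4) i ^ 4 = 1 := by simp

theorem vec (h : G3) (v : C4) :
    (fun i => (![iz h.1, iz h.2.1, iz h.2.2, 1] : C4) i * v ((1 : Equiv.Perm (Fin 4)) i)) =
      ![iz h.1 * v 0, iz h.2.1 * v 1, iz h.2.2 * v 2, v 3] := by
  funext i
  fin_cases i <;> simp

end RQB

variable {π : Equiv.Perm (Fin 4)} {u v : C4}

theorem ac_mem (π : Equiv.Perm (Fin 4)) (hu : ∀ i, u i ^ 4 = 1) (hv : v ∈ Cn) :
    (fun i => u i * v (π i)) ∈ Cn := by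
  refine ⟨fun h => hv.1 (funext fun i => ?_), ?_⟩
  · have := congrFun h (π.symm i)
    rw [π.apply_symm_apply] at this
    exact (mul_eq_zero.1 this).resolve_left (RQB.ne hu _)
  · simp only [mul_pow, hu, one_mul]
    exact (Equiv.sum_comp π fun i => v i ^ 4).trans hv.2

theorem ac_qm (π : Equiv.Perm (Fin 4)) (hu : ∀ i, u i ^ 4 = 1) (hv : v ∈ Cn) :
    ac π u (qm v) = qm fun i => u i * v (π i) := by
  obtain ⟨c, hc, e⟩ := rq_qm hv
  rw [ac, e, ← qm_smul hc (ac_mem π hu hv)]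
  congr 1
  funext i
  simp only [Pi.smul_apply, smul_eq_mul]
  ring

theorem continuous_ac (π : Equiv.Perm (Fin 4)) (hu : ∀ i, u i ^ 4 = 1) : Continuous (ac π u) := by
  refine continuous_iff_continuousAt.2 fun p => ?_
  obtain ⟨j, hj⟩ := exists_UQ p
  have h : ContinuousOn (fun q => qm fun i => u i * nq j q (π i)) (UQ j) :=
    continuousOn_qm.comp (continuousOn_pi.2 fun i =>
      continuousOn_const.mul (continuousOn_pi.1 (continuousOn_nq j) _))
      fun q hq => ac_mem π hu (nq_mem hq)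
  refine (h.congr fun q hq => ?_).continuousAt ((isOpen_UQ j).mem_nhds hj)
  rw [← ac_qm π hu (nq_mem hq), qm_nq hq]

theorem coc_cH : cobd cH = 0 := by
  rw [cH, cobd_pull inc.continuous, coc_xx]
  rfl

theorem coh_ac (π : Equiv.Perm (Fin 4)) (hu : ∀ i, u i ^ 4 = 1) : Coh (pull (ac π u) cH) cH := by
  rw [cH, pull_pull (continuous_ac π hu)]
  refine coh_lin (inc.comp ⟨ac π u, continuous_ac π hu⟩) inc
    (LinearMap.pi fun i => u i • LinearMap.proj (π i)) fun p => ?_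
  have e : (LinearMap.pi fun i => u i • LinearMap.proj (π i) : C4 →ₗ[ℂ] C4) (rp (inc p)) =
      fun i => u i * rq p (π i) := funext fun i => by simp [rq]
  rw [e]
  exact ⟨(ac_mem π hu (rq_mem p)).1, inc_qm (ac_mem π hu (rq_mem p))⟩

theorem continuous_dq (h : G3) : Continuous (dq h) := by
  exact continuous_ac _ (RQB.four h)

theorem continuous_sw (i j : Fin 4) : Continuous (sw i j) := by
  exact continuous_ac _ RQB.one

theorem coh_dq (h : G3) : Coh (pull (dq h) cH) cH := by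
  exact coh_ac _ (RQB.four h)

theorem coh_sw (i j : Fin 4) : Coh (pull (sw i j) cH) cH := by
  exact coh_ac _ RQB.one

theorem dq_mem (h : G3) (hv : v ∈ Cn) :
    (![iz h.1 * v 0, iz h.2.1 * v 1, iz h.2.2 * v 2, v 3] : C4) ∈ Cn := by
  exact RQB.vec h v ▸ ac_mem 1 (RQB.four h) hv

theorem dq_qm (h : G3) (hv : v ∈ Cn) :
    dq h (qm v) = qm ![iz h.1 * v 0, iz h.2.1 * v 1, iz h.2.2 * v 2, v 3] := by
  rw [dq, ac_qm 1 (RQB.four h) hv, RQB.vec]

theorem dq_add (h h' : G3) : dq (h + h') = dq h ∘ dq h' := by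
  funext p
  rw [Function.comp_apply, ← qm_rq p, dq_qm _ (rq_mem p), dq_qm _ (rq_mem p),
    dq_qm _ (dq_mem _ (rq_mem p))]
  simp [iz_add, mul_assoc]

theorem dq_zero : dq 0 = id := by
  funext p
  rw [id, ← qm_rq p, dq_qm _ (rq_mem p)]
  congr 1
  funext i
  fin_cases i <;> simp [iz_zero]

theorem dq_mem_UQ (h : G3) {p : Fermat} {k : Fin 4} : dq h p ∈ UQ k ↔ p ∈ UQ k := by
  rw [dq, ac, qm_mem_UQ (ac_mem 1 (RQB.four h) (rq_mem p)), mem_UQ,
    mul_ne_zero_iff_left (RQB.ne (RQB.four h) k)]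
  rfl

theorem sw_sw (i j : Fin 4) : sw i j ∘ sw i j = id := by
  funext p
  rw [Function.comp_apply, id, ← qm_rq p, sw, ac_qm _ RQB.one (rq_mem p),
    ac_qm _ RQB.one (ac_mem _ RQB.one (rq_mem p))]
  simp

theorem sw_mem_UQ (i j : Fin 4) {p : Fermat} {k : Fin 4} :
    sw i j p ∈ UQ k ↔ p ∈ UQ (Equiv.swap i j k) := by
  rw [sw, ac, qm_mem_UQ (ac_mem _ RQB.one (rq_mem p)), mem_UQ, Pi.one_apply, one_mul]

theorem sw_dq (k : Fin 4) : sw 0 3 ∘ dq (k, 0, 0) ∘ sw 0 3 = dq (-k, -k, -k) := by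
  funext p
  have h := ac_mem (Equiv.swap 0 3) RQB.one (rq_mem p)
  rw [Function.comp_apply, Function.comp_apply, ← qm_rq p, dq_qm _ (rq_mem p), sw,
    ac_qm _ RQB.one (rq_mem p), dq_qm _ h, ac_qm _ RQB.one (dq_mem _ h),
    ← qm_smul (iz_ne k) (dq_mem (-k, -k, -k) (rq_mem p))]
  have e : iz k * iz (-k) = 1 := by rw [mul_comm, iz_neg]
  congr 1
  funext i
  fin_cases i <;> simp [Equiv.swap_apply_def, iz_zero, ← mul_assoc, e]

theorem exists_sw (i j : Fin 4) : ∃ e : Fermat ≃ₜ Fermat, ⇑e = sw i j := by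
  exact ⟨⟨⟨sw i j, sw i j, congrFun (sw_sw i j), congrFun (sw_sw i j)⟩, continuous_sw i j,
    continuous_sw i j⟩, rfl⟩

end HW
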