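import Pool.Agent.P.MP_9699e0_gt.W.LnB
import Pool.Agent.P.MP_9699e0_gt.W.LnC
import Pool.Agent.P.MP_9699e0_gt.W.LnD
import Pool.Agent.P.MP_9699e0_gt.W.QB

/-! The intersection matrix of the hyperplane class and the 48 lines. -/

set_option autoImplicit false
set_option linter.unusedSectionVars false

noncomputable section

namespace HW

open HK3 Pool.Agent.P.MP_9699e0_gt Set Filter Topology

variable {A : OAt Fermat} {z : Chn ℤ Fermat 4}

namespace RLnE

theorem four (k : Fin 4) : (zt * iz k) ^ 4 = -1 := by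
  rw [mul_pow, zt_four, iz_four, mul_one]

theorem mem (k : Fin 4) : (![zt * iz k, 1, 0, 0] : C4) ∈ Cn :=
  ⟨fun h => one_ne_zero (congrFun h 1), by simp [Fin.sum_univ_four, four]⟩

theorem eq_smul {w : C4} {k : Fin 4} (h0 : w 0 = w 1 * (zt * iz k)) (h2 : w 2 = 0)
    (h3 : w 3 = 0) : w = w 1 • (![zt * iz k, 1, 0, 0] : C4) := by
  funext i
  fin_cases i
  · exact h0
  · simp
  · simpa using h2
  · simpa using h3

end RLnE

theorem HH (hA : Hol A) (hz : A.Fund z) : ev ℤ (cup cH cH) z = 4 := by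
  have h := meet_dv hA hz (dv_H (LinearMap.proj 2)) (dv_H (LinearMap.proj 3))
    (Finset.univ : Finset (Fin 4)) (fun k => ![zt * iz k, 1, 0, 0])
    (fun k _ => ⟨RLnE.mem k, rfl, rfl⟩) (fun j _ k _ e => ?_) (fun w hw h2 h3 => ?_)
    (fun k _ w ht h2 h3 => ?_)
  · simpa using h.1
  · obtain ⟨c, -, hc⟩ := (qm_eq_iff (RLnE.mem j) (RLnE.mem k)).1 e
    have h1 : (1 : ℂ) = c * 1 := congrFun hc 1
    have h0 : zt * iz j = c * (zt * iz k) := congrFun hc 0
    rw [mul_one] at h1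
    rw [← h1, one_mul] at h0
    exact iz_inj (mul_left_cancel₀ zt_ne h0)
  · have e2 : w 2 = 0 := h2
    have e3 : w 3 = 0 := h3
    have hs := hw.2
    rw [Fin.sum_univ_four, e2, e3] at hs
    have h1 : w 1 ≠ 0 := by
      intro h1
      apply hw.1
      have h0 : w 0 ^ 4 = 0 := by
        rw [h1] at hs
        linear_combination hs
      funext i
      fin_cases i
      · exact pow_eq_zero_iff (by norm_num) |>.1 h0
      · exact h1
      · exact e2
      · exact e3
    have hz0 := zt_ne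
    obtain ⟨k, hk⟩ := exists_iz (x := w 0 / (zt * w 1)) (by
      rw [div_pow, mul_pow, zt_four, div_eq_one_iff_eq (by simpa using h1)]
      linear_combination hs)
    rw [div_eq_iff (mul_ne_zero hz0 h1)] at hk
    refine ⟨k, Finset.mem_univ k, (qm_eq_iff hw (RLnE.mem k)).2 ⟨w 1, h1, ?_⟩⟩
    exact RLnE.eq_smul (by linear_combination hk) e2 e3
  · have e2 : w 2 = 0 := h2
    have e3 : w 3 = 0 := h3
    have h4 : (zt * iz k) ^ 3 * w 0 + w 1 = 0 := by
      simpa [Tan, Fin.sum_univ_four] using ht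
    exact ⟨w 1, RLnE.eq_smul
      (by linear_combination w 0 * RLnE.four k - zt * iz k * h4) e2 e3⟩

theorem exists_lines (hA : Hol A) (hz : A.Fund z) : ∃ c : Ln → Simp Fermat 2 → ℤ,
    (∀ l, cobd (c l) = 0) ∧ (∀ l m, ev ℤ (cup (c l) (c m)) z = gL l m) ∧
      ∀ l, Meet z cH (c l) 1 := by
  choose c cF hc hF hcoh hFF using exists_dv_line
  have hH : ∀ l, Meet z cH (c l) 1 := fun l => by
    obtain ⟨ν, v, h0, h1⟩ := zl_hyp l
    exact meet_one hA hz (dv_H ν) (hc l) (zl_cn ((h1 v).2 ⟨1, (one_smul ℂ v).symm⟩).2 h0) h1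
  refine ⟨c, fun l => (hc l).coc, fun l m => ?_, hH⟩
  unfold gL
  split_ifs with h1 h2
  · subst h1
    have hs : cobd (c l + cF l) = 0 := by rw [cobd_add, (hc l).coc, hF l, add_zero]
    have e1 := ev_cup_coh hz.1 coc_cH hs (Coh.refl cH) (hcoh l)
    have e2 := ev_cup_coh hz.1 coc_cH (hF l) (hcoh l) (Coh.refl (cF l))
    have e3 := ev_cup_coh hz.1 (hc l).coc hs (Coh.refl (c l)) (hcoh l)
    rw [ev_cup_add_right, HH hA hz, (hH l).1] at e1
    rw [ev_cup_add_left, hFF l A z hz] at e2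
    rw [ev_cup_add_right, (hH l).2] at e3
    linarith
  · obtain ⟨v, h0, h3⟩ := zl_meet h1 h2
    exact (meet_one hA hz (hc l) (hc m) (zl_cn ((h3 v).2 ⟨1, (one_smul ℂ v).symm⟩).1 h0) h3).1
  · exact (meet_zero hA hz (hc l) (hc m) (zl_disj (by simpa using h2))).1

end HW
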