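import Pool.Agent.P.MP_9699e0_gt.W.Gen
import Pool.Agent.P.MP_9699e0_gt.Fc4
import Pool.Agent.P.MP_9699e0_gt.Glue2

/-! An oriented atlas gives a manifold with a fundamental cycle; punctured manifolds. -/

set_option autoImplicit false
set_option linter.unusedSectionVars false

noncomputable section

namespace HW

open HK3 Pool.Agent.P.MP_9699e0_gt Set Filter Topology

variable {X Y : Type} [TopologicalSpace X] [TopologicalSpace Y]

namespace RMfA

theorem bd_bdy {S : Set X} {n : ℕ} {c : Chn ℤ X (n + 1)} (h : c ∈ bdy ℤ S (n + 1)) :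
    bd ℤ X n c = 0 := (bdy_le S (n + 1) h).2

theorem sup_empty (n : ℕ) :
    bdy ℤ (univ : Set X) n ⊔ chn ℤ (univ : Set X)ᶜ n = bdy ℤ (univ : Set X) n := by
  rw [compl_univ, chn_empty, sup_bot_eq]

theorem zero_deg [PathConnectedSpace X] {S : Set X} (hS : S.Nonempty) (c : Chn ℤ X 0) :
    c ∈ bdy ℤ univ 0 ⊔ chn ℤ S 0 := by
  obtain ⟨y, hy⟩ := hS
  have h1 : Finsupp.single (Hur_cst 0 y) (aug ℤ c) ∈ chn ℤ S 0 :=
    single_mem (by rintro _ ⟨t, rfl⟩; exact hy) _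
  have h2 : c - Finsupp.single (Hur_cst 0 y) (aug ℤ c) ∈ bdy ℤ (univ : Set X) 0 := by
    refine mem_bdy_zero isPathConnected_univ (OAt.Fc3_top _) ?_
    rw [map_sub, sub_eq_zero]
    simp [aug, ev_single]
  simpa using Submodule.add_mem_sup h2 h1

theorem punct_low {n : ℕ} (hn : n < 3) {ξ : Chn ℤ E (n + 1)}
    (h : bd ℤ E n ξ ∈ chn ℤ ({0}ᶜ : Set E) n) : bd ℤ E n ξ ∈ bdy ℤ ({0}ᶜ : Set E) n := by
  obtain rfl | rfl | rfl : n = 0 ∨ n = 1 ∨ n = 2 := by omega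
  · refine mem_bdy_zero (isPathConnected_compl_singleton_of_one_lt_rank ?_ 0) h (aug_bd ξ)
    rw [rank_prod', Complex.rank_real_complex]
    norm_num
  · exact punct_one ⟨h, bd_bd 0 ξ⟩
  · exact punct_two ⟨h, bd_bd 1 ξ⟩

variable [T2Space X] {A : OAt X}

theorem loc_smul {ζ : Chn ℤ X 4} {x : X} (hζ : bd ℤ X 3 ζ = 0) (h : A.Loc ζ x 1) (m : ℤ) :
    A.Loc (m • ζ) x m := by
  have hb : ∀ k : ℤ, bd ℤ X 3 (k • ζ) ∈ chn ℤ {x}ᶜ 3 := fun k => by
    rw [map_smul, hζ, smul_zero]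
    exact zero_mem _
  have h0 : A.Loc ((0 : ℤ) • ζ) x 0 := A.loc_zero (by rw [zero_smul]; exact zero_mem _)
  have h1 : A.Loc ((1 : ℤ) • ζ) x 1 := by rwa [one_smul]
  have key : ∀ k l : ℤ, A.Loc (k • ζ) x k → A.Loc (l • ζ) x l → A.Loc ((k - l) • ζ) x (k - l) :=
    fun k l hk hl => by
      rw [sub_smul]
      exact OAt.Loc.sub (hb k) (hb l) hk hl
  induction m using Int.induction_on with
  | zero => exact h0
  | succ i ih => simpa using key _ _ ih (key _ _ h0 h1)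
  | pred i ih => exact key _ _ ih h1

theorem four_of_good {K : Set X} (hK : IsPreconnected K) (hne : K.Nonempty) (hg : A.Good K)
    {z : Chn ℤ X 4} (hz : A.Fund z) (c : Chn ℤ X 4) (hc : bd ℤ X 3 c ∈ chn ℤ Kᶜ 3) :
    ∃ m : ℤ, c - m • z ∈ bdy ℤ univ 4 ⊔ chn ℤ Kᶜ 4 := by
  obtain ⟨x₀, hx₀⟩ := hne
  have hb : ∀ x ∈ K, bd ℤ X 3 c ∈ chn ℤ {x}ᶜ 3 := fun x hx => Fc2_pt hx 3 hc
  obtain ⟨m, hm⟩ := A.exists_loc (hb x₀ hx₀)
  have hall : ∀ x ∈ K, A.Loc c x m := by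
    intro x hx
    refine hK.induction₂' (fun x y => ∀ m, A.Loc c x m → A.Loc c y m) (fun x hx => ?_)
      (fun _ _ _ _ _ _ h h' m hm => h' m (h m hm)) hx₀ hx m hm
    obtain ⟨m₀, h₀⟩ := A.exists_loc (hb x hx)
    filter_upwards [mem_nhdsWithin_of_mem_nhds (A.loc_nhds (hb x hx) h₀), self_mem_nhdsWithin]
      with y hy hyK
    exact ⟨fun m hm => OAt.Loc.unique (hb x hx) h₀ hm ▸ hy,
      fun m hm => OAt.Loc.unique (hb y hyK) hy hm ▸ h₀⟩
  have e : bd ℤ X 3 (m • z) = 0 := by rw [map_smul, hz.1, smul_zero]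
  refine ⟨m, hg.inj _ (by rwa [map_sub, e, sub_zero]) fun x hx => ?_⟩
  simpa using OAt.Loc.sub (hb x hx) (by rw [e]; exact zero_mem _) (hall x hx)
    (loc_smul hz.1 (hz.2 x) m)

theorem free_of_fund {K : Set X} (hne : K.Nonempty) {z : Chn ℤ X 4} (hz : A.Fund z) (m : ℤ)
    (h : m • z ∈ bdy ℤ univ 4 ⊔ chn ℤ Kᶜ 4) : m = 0 := by
  obtain ⟨x, hx⟩ := hne
  refine OAt.Loc.unique (by rw [map_smul, hz.1, smul_zero]; exact zero_mem _)
    (loc_smul hz.1 (hz.2 x) m) (A.loc_zero (OAt.Fc3_mono ?_ h))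
  exact compl_subset_compl.2 (singleton_subset_iff.2 hx)

theorem sph_convex [PathConnectedSpace X] {z : Chn ℤ X 4} (hz : A.Fund z) {k : A.κ} {V K : Set E}
    (hV : IsOpen V) (hW : V ⊆ A.W k) (hi : InjOn (A.f k) V) (hKV : K ⊆ V) (hK : IsCompact K)
    (hc : Convex ℝ K) (hne : K.Nonempty) : Sph (A.f k '' K)ᶜ z := by
  have hg := A.good_convex hV hW hi hKV hK hc
  have hpre : IsPreconnected (A.f k '' K) :=
    hc.isPreconnected.image _ ((A.loc k).continuousOn.mono (hKV.trans hW))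
  refine ⟨zero_deg ?_, fun n hn c _ hb => ?_, four_of_good hpre (hne.image _) hg hz,
    free_of_fund (hne.image _) hz⟩
  · obtain ⟨v, hv, hvK⟩ : ∃ v ∈ V, v ∉ K := by
      by_contra h
      push Not at h
      have e : K = V := hKV.antisymm h
      exact hK.ne_univ (IsClopen.eq_univ ⟨hK.isClosed, e ▸ hV⟩ hne)
    exact ⟨_, A.Fc3_maps hi hKV ⟨hv, hvK⟩⟩
  rcases lt_or_gt_of_ne hn with hn | hn
  · obtain ⟨a, ha⟩ := hne
    obtain ⟨ξ, h1, h2, h3⟩ := A.Fc3_rep hV hW hi hKV hK hb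
    have h4 := OAt.Fc3_of_sub (Om2_fill (punct_low hn (OAt.Fc3_bd_sub (Fc2_pt ha n h2))))
    simpa using add_mem h3 (A.Fc3_push hV hW hi hKV hK h1 (OAt.rel_convex hK hc ha h2 h4))
  · exact hg.high n hn c hb

omit [T2Space X]

theorem four_congr {N : Submodule ℤ (Chn ℤ X 4)} {z z' c : Chn ℤ X 4} {m : ℤ}
    (hm : m = 1 ∨ m = -1) (h' : z' - m • z ∈ N) (h : ∃ k : ℤ, c - k • z ∈ N) :
    ∃ k : ℤ, c - k • z' ∈ N := by
  obtain ⟨k, hk⟩ := h
  refine ⟨k * m, ?_⟩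
  have e : c - (k * m) • z' = c - k • z - (k * m) • (z' - m • z) := by
    rcases hm with rfl | rfl <;> module
  exact e ▸ sub_mem hk (N.smul_mem _ h')

theorem free_congr {N : Submodule ℤ (Chn ℤ X 4)} {z z' : Chn ℤ X 4} {m : ℤ}
    (hm : m = 1 ∨ m = -1) (h' : z' - m • z ∈ N) (h : ∀ k : ℤ, k • z ∈ N → k = 0) (k : ℤ)
    (hk : k • z' ∈ N) : k = 0 := by
  have e : (k * m) • z = k • z' - k • (z' - m • z) := by module
  have := h _ (e ▸ sub_mem hk (N.smul_mem _ h'))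
  rcases hm with rfl | rfl <;> omega

theorem fill {S : Set X} {k : ℕ} (h : RZ univ S k) {c : Chn ℤ X k} (hc : c ∈ chn ℤ S k)
    (hb : c ∈ bdy ℤ univ k) : c ∈ bdy ℤ S k := by
  obtain ⟨d, hd, rfl⟩ := hb
  obtain ⟨b, hb, s, hs, rfl⟩ := Submodule.mem_sup.1 (h d hd hc)
  rw [map_add, bd_bdy hb, zero_add]
  exact ⟨s, hs, rfl⟩

end RMfA

open RMfA

theorem mf_of_oat [T2Space X] [CompactSpace X] [PathConnectedSpace X] (A : OAt X) {z : Chn ℤ X 4}
    (hz : A.Fund z) : Mf X z := by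
  have hg := A.good_compact (isCompact_univ (X := X))
  refine ⟨‹_›, ‹_›, hz.1, fun x => ?_, fun c hc => ?_, fun m hm => ?_, fun k c hc => ?_⟩
  · obtain ⟨k, a, ha, rfl⟩ := A.surj x
    obtain ⟨e, hae, he⟩ := A.loc k a ha
    obtain ⟨ψ⟩ : Nonempty (Eu 4 ≃L[ℝ] E) :=
      FiniteDimensional.nonempty_continuousLinearEquiv_of_finrank_eq (by simp)
    refine ⟨ψ.toHomeomorph.transOpenPartialHomeomorph (e.restrOpen (A.W k) (A.opn k)), ?_,
      fun K hK hc hne hs => ?_⟩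
    · rw [he]
      exact (e.restrOpen (A.W k) (A.opn k)).map_source ⟨hae, ha⟩
    · have := sph_convex hz (e.open_source.inter (A.opn k)) inter_subset_right
        (he ▸ e.injOn.mono inter_subset_left) (K := ψ '' K) (image_subset_iff.2 hs)
        (hK.image ψ.continuous) (hc.linear_image ψ.toLinearMap) (hne.image _)
      rw [image_image, he] at this
      exact this
  · simpa only [sup_empty] using four_of_good isPreconnected_univ univ_nonempty hg hz c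
      (by rw [hc]; exact zero_mem _)
  · exact free_of_fund univ_nonempty hz m (by rwa [sup_empty])
  · have := hg.high (k + 4) (by omega) c (by rw [show bd ℤ X (k + 4) c = 0 from hc.2]; exact zero_mem _)
    rwa [sup_empty] at this

theorem Sph.congr {S : Set X} {z z' : Chn ℤ X 4} (h : Sph S z) {m : ℤ} (hm : m = 1 ∨ m = -1)
    (h' : z' - m • z ∈ bdy ℤ univ 4) : Sph S z' :=
  ⟨h.zero, h.van, fun c hc => four_congr hm (Submodule.mem_sup_left h') (h.four c hc),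
    free_congr hm (Submodule.mem_sup_left h') h.free⟩

theorem Mf.congr {z z' : Chn ℤ X 4} (h : Mf X z) {m : ℤ} (hm : m = 1 ∨ m = -1)
    (h' : z' - m • z ∈ bdy ℤ univ 4) : Mf X z' := by
  refine ⟨h.t2, h.cpt, ?_, fun x => ?_, fun c hc => four_congr hm h' (h.top c hc),
    free_congr hm h' h.free, h.high⟩
  · simpa [h.closed] using bd_bdy h'
  · obtain ⟨e, hx, he⟩ := h.chart x
    exact ⟨e, hx, fun K h1 h2 h3 h4 => (he K h1 h2 h3 h4).congr hm h'⟩

theorem Mf.chartd {z : Chn ℤ X 4} (h : Mf X z) : Chartd X 4 :=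
  fun x => (h.chart x).imp fun _ he => he.1

theorem Mf.chart_four {z : Chn ℤ X 4} (h : Mf X z) (x : X) :
    ∃ e : OpenPartialHomeomorph (Eu 4) X, e 0 = x ∧ Metric.closedBall 0 4 ⊆ e.source ∧
      Sph (e '' Metric.closedBall 0 2)ᶜ z ∧ Sph {x}ᶜ z := by
  obtain ⟨e, hx, he⟩ := h.chart x
  have ha := e.map_target hx
  obtain ⟨ε, hε, hb⟩ := Metric.nhds_basis_closedBall.mem_iff.1 (e.open_source.mem_nhds ha)
  have hr : (0 : ℝ) < ε / 4 := by positivity
  set φ : Eu 4 ≃ₜ Eu 4 := (Homeomorph.smulOfNeZero (ε / 4) hr.ne').trans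
    (Homeomorph.addLeft (e.symm x)) with hφ
  have hφ' : ∀ p, φ p = e.symm x + (ε / 4) • p := fun p => rfl
  have hs : ∀ p ∈ Metric.closedBall (0 : Eu 4) 4, φ p ∈ e.source := fun p hp => by
    refine hb (mem_closedBall_iff_norm.2 ?_)
    rw [hφ', add_sub_cancel_left, norm_smul, Real.norm_of_nonneg hr.le]
    nlinarith [mem_closedBall_zero_iff.1 hp]
  refine ⟨φ.transOpenPartialHomeomorph e, ?_, hs, ?_, ?_⟩
  · show e (φ 0) = x
    rw [hφ', smul_zero, add_zero, e.right_inv hx]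
  · have hc : Convex ℝ (φ '' Metric.closedBall 0 2) := by
      have := ((convex_closedBall (0 : Eu 4) 2).smul (ε / 4)).translate (e.symm x)
      rwa [← image_smul, image_image] at this
    have := he _ ((isCompact_closedBall 0 2).image φ.continuous) hc
      ((Metric.nonempty_closedBall.2 (by norm_num)).image _)
      (image_subset_iff.2 fun p hp => hs p (Metric.closedBall_subset_closedBall (by norm_num) hp))
    rw [image_image] at this
    exact this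
  · have := he {e.symm x} isCompact_singleton (convex_singleton _) (singleton_nonempty _)
      (singleton_subset_iff.2 ha)
    rwa [image_singleton, e.right_inv hx] at this

theorem Mf.punct {z : Chn ℤ X 4} (h : Mf X z) {x : X} (hx : Sph {x}ᶜ z) (h3 : HZ X 3) :
    HZ ({x}ᶜ : Set X) 3 ∧ HZ ({x}ᶜ : Set X) 4 ∧ HInj (Subtype.val : ({x}ᶜ : Set X) → X) 2 ∧
      HSur (Subtype.val : ({x}ᶜ : Set X) → X) 2 := by
  refine ⟨hz_val.2 fun c hc => ?_, hz_val.2 fun c hc => ?_, fun a _ ha => ?_, fun b hb => ?_⟩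
  · obtain ⟨d, -, rfl⟩ := h3 (cyc_mono (subset_univ _) 3 hc)
    obtain ⟨m, hm⟩ := hx.four d hc.1
    obtain ⟨b, hb, s, hs, e⟩ := Submodule.mem_sup.1 hm
    refine ⟨s, hs, ?_⟩
    simpa [bd_bdy hb, h.closed] using congrArg (bd ℤ X 3) e
  · obtain ⟨m, hm⟩ := h.top c hc.2
    have h0 : m = 0 := hx.free m (by
      simpa using sub_mem (Submodule.mem_sup_right hc.1) (Submodule.mem_sup_left hm))
    rw [h0, zero_smul, sub_zero] at hm
    exact fill (hx.van 4 (by norm_num)) hc.1 hm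
  · exact val_bdy.1 (fill (hx.van 2 (by norm_num)) (val_mem a) ha)
  · have h0 : bd ℤ X 1 b = 0 := hb.2
    obtain ⟨β, hβ, s, hs, rfl⟩ := Submodule.mem_sup.1
      (hx.van 1 (by norm_num) b hb.1 (by rw [h0]; exact zero_mem _))
    obtain ⟨a, rfl⟩ := val_chn hs
    rw [map_add, bd_bdy hβ, zero_add] at h0
    exact ⟨a, val_cyc.1 ⟨hs, h0⟩, by rwa [add_sub_cancel_right]⟩

end HW
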