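import Pool.Agent.P.MP_9699e0_gt.W.Gen

/-! Cohomology of a pair with the homology of a four-cell; induction over open sets. -/

set_option autoImplicit false
set_option linter.unusedSectionVars false

noncomputable section

namespace HW

open HK3 Pool.Agent.P.MP_9699e0_gt Set Filter Topology

variable {X Y : Type} [TopologicalSpace X] [TopologicalSpace Y]

namespace RUct

theorem lift {S : Set X} {n : ℕ} (T : Chn ℤ X n →ₗ[ℤ] Chn ℤ X n) (w : Chn ℤ X n)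
    (hT : ∀ c ∈ chn ℤ S n, T c ∈ chn ℤ S n)
    (h : ∀ c, ∃ m : ℤ, T c - m • w ∈ bdy ℤ univ n ⊔ chn ℤ S n) :
    ∃ (s : Chn ℤ X n →ₗ[ℤ] Chn ℤ X (n + 1)) (m : Chn ℤ X n →ₗ[ℤ] ℤ),
      (∀ c ∈ chn ℤ S n, s c = 0) ∧ (∀ c ∈ chn ℤ S n, m c = 0) ∧
      ∀ c, T c - bd ℤ X n (s c) - m c • w ∈ chn ℤ S n := by
  have h1 : ∀ σ : Simp X n, ∃ (u : Chn ℤ X (n + 1)) (k : ℤ),
      (range σ ⊆ S → u = 0 ∧ k = 0) ∧
      T (Finsupp.single σ 1) - bd ℤ X n u - k • w ∈ chn ℤ S n := by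
    intro σ
    by_cases hσ : range σ ⊆ S
    · refine ⟨0, 0, fun _ => ⟨rfl, rfl⟩, ?_⟩
      rw [map_zero, sub_zero, zero_smul, sub_zero]
      exact hT _ (single_mem hσ 1)
    · obtain ⟨m, hm⟩ := h (Finsupp.single σ 1)
      obtain ⟨y, ⟨u, -, rfl⟩, y', hy', e⟩ := Submodule.mem_sup.1 hm
      refine ⟨u, m, fun h' => absurd h' hσ, ?_⟩
      have : T (Finsupp.single σ 1) - bd ℤ X n u - m • w = y' := by
        rw [sub_right_comm, ← e, add_sub_cancel_left]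
      rw [this]
      exact hy'
  choose u k h2 h3 using h1
  refine ⟨ev ℤ u, ev ℤ k, fun c hc => ?_, fun c hc => ?_, fun c => ?_⟩
  · exact ChB_ext (ev ℤ u) 0 (fun σ hσ => by
      rw [ev_single, one_smul, (h2 σ hσ).1, LinearMap.zero_apply]) hc
  · exact ChB_ext (ev ℤ k) 0 (fun σ hσ => by
      rw [ev_single, one_smul, (h2 σ hσ).2, LinearMap.zero_apply]) hc
  · have := ChB_mem (S := univ) (T - (bd ℤ X n).comp (ev ℤ u) - (ev ℤ k).smulRight w)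
      (N := chn ℤ S n) (fun σ _ => by
        simpa only [LinearMap.sub_apply, LinearMap.comp_apply, LinearMap.smulRight_apply,
          ev_single, one_smul] using h3 σ) (c := c) (by rw [chn_univ]; trivial)
    simpa only [LinearMap.sub_apply, LinearMap.comp_apply, LinearMap.smulRight_apply] using this

/-- The invariant of the recursion. -/
def Inv (S : Set X) (n : ℕ) (s : Chn ℤ X n →ₗ[ℤ] Chn ℤ X (n + 1)) : Prop :=
  (∀ c ∈ chn ℤ S n, s c = 0) ∧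
    ∀ c : Chn ℤ X (n + 1), bd ℤ X n (c - s (bd ℤ X n c)) ∈ chn ℤ S n

/-- The defect of a chain. -/
def dft {n : ℕ} (s : Chn ℤ X n →ₗ[ℤ] Chn ℤ X (n + 1)) :
    Chn ℤ X (n + 1) →ₗ[ℤ] Chn ℤ X (n + 1) := LinearMap.id - s.comp (bd ℤ X n)

theorem dft_apply {n : ℕ} (s : Chn ℤ X n →ₗ[ℤ] Chn ℤ X (n + 1)) (c : Chn ℤ X (n + 1)) :
    dft s c = c - s (bd ℤ X n c) := by
  rw [dft, LinearMap.sub_apply, LinearMap.comp_apply, LinearMap.id_apply]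

theorem keep {S : Set X} {n : ℕ} {s : Chn ℤ X n →ₗ[ℤ] Chn ℤ X (n + 1)} (hs : Inv S n s) :
    ∀ c ∈ chn ℤ S (n + 1), dft s c ∈ chn ℤ S (n + 1) := by
  intro c hc
  rw [dft_apply, hs.1 _ (bd_mem hc), sub_zero]
  exact hc

theorem step {S : Set X} {n : ℕ} {s : Chn ℤ X n →ₗ[ℤ] Chn ℤ X (n + 1)} (hs : Inv S n s)
    (h : RZ univ S n) : ∃ s' : Chn ℤ X (n + 1) →ₗ[ℤ] Chn ℤ X (n + 2),
      (∀ c ∈ chn ℤ S (n + 1), s' c = 0) ∧
      ∀ c, c - s (bd ℤ X n c) - bd ℤ X (n + 1) (s' c) ∈ chn ℤ S (n + 1) := by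
  obtain ⟨s', m, h1, -, h3⟩ := lift (dft s) 0 (keep hs) fun c =>
    ⟨0, by
      rw [zero_smul, sub_zero, dft_apply]
      exact h _ (by rw [chn_univ]; trivial) (hs.2 c)⟩
  refine ⟨s', h1, fun c => ?_⟩
  have := h3 c
  rwa [smul_zero, sub_zero, dft_apply] at this

theorem bd_in {S : Set X} {n : ℕ} (c : Chn ℤ X (n + 1)) :
    bd ℤ X n c ∈ bdy ℤ univ n ⊔ chn ℤ S n :=
  Submodule.mem_sup_left ⟨c, by rw [chn_univ]; trivial, rfl⟩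

theorem step4 {S : Set X} {z : Chn ℤ X 4} (h : Sph S z) {s : Chn ℤ X 3 →ₗ[ℤ] Chn ℤ X 4}
    (hs : Inv S 3 s) : ∃ (s' : Chn ℤ X 4 →ₗ[ℤ] Chn ℤ X 5) (m : Chn ℤ X 4 →ₗ[ℤ] ℤ),
      (∀ c ∈ chn ℤ S 4, s' c = 0) ∧ (∀ c ∈ chn ℤ S 4, m c = 0) ∧
      (∀ c, c - s (bd ℤ X 3 c) - bd ℤ X 4 (s' c) - m c • z ∈ chn ℤ S 4) ∧
      ∀ c, m (bd ℤ X 4 c) = 0 := by
  obtain ⟨s', m, h1, h2, h3⟩ := lift (dft s) z (keep hs) fun c => by
    rw [dft_apply]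
    exact h.four _ (hs.2 c)
  have h4 : ∀ c, c - s (bd ℤ X 3 c) - bd ℤ X 4 (s' c) - m c • z ∈ chn ℤ S 4 := fun c => by
    have := h3 c
    rwa [dft_apply] at this
  refine ⟨s', m, h1, h2, h4, fun c => h.free _ ?_⟩
  have h5 := h4 (bd ℤ X 4 c)
  rw [bd_bd, map_zero, sub_zero, ← map_sub] at h5
  have := Submodule.sub_mem _ (bd_in (S := S) (c - s' (bd ℤ X 4 c))) (Submodule.mem_sup_right h5)
  rwa [sub_sub_cancel] at this

theorem inv {S : Set X} {z : Chn ℤ X 4} (h : Sph S z) (n : ℕ) : ∃ s, Inv S n s := by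
  induction n with
  | zero =>
    obtain ⟨s, m, h1, -, h3⟩ := lift (S := S) (n := 0) LinearMap.id 0 (fun c hc => hc) fun c =>
      ⟨0, by
        rw [zero_smul, sub_zero]
        exact h.zero c⟩
    refine ⟨s, h1, fun c => ?_⟩
    simpa only [LinearMap.id_apply, smul_zero, sub_zero, map_sub] using h3 (bd ℤ X 0 c)
  | succ n ih =>
    obtain ⟨s, hs⟩ := ih
    by_cases hn : n = 3
    · subst hn
      obtain ⟨s', m, h1, -, h3, h4⟩ := step4 h hs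
      refine ⟨s', h1, fun c => ?_⟩
      have := h3 (bd ℤ X 4 c)
      rwa [bd_bd, map_zero, sub_zero, h4, zero_smul, sub_zero, ← map_sub] at this
    · obtain ⟨s', h1, h3⟩ := step hs (h.van n hn)
      refine ⟨s', h1, fun c => ?_⟩
      have := h3 (bd ℤ X (n + 1) c)
      rwa [bd_bd, map_zero, sub_zero, ← map_sub] at this

theorem ev_van {K : Set X} {n : ℕ} {a : Simp X n → ℤ} (h0 : Van K a) {c : Chn ℤ X n}
    (hc : c ∈ chn ℤ Kᶜ n) : ev ℤ a c = 0 :=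
  ChB_ext (ev ℤ a) 0 (fun σ hσ => by
    rw [ev_single, one_smul, h0 σ hσ, LinearMap.zero_apply]) hc

theorem ev_coc {n : ℕ} {a : Simp X n → ℤ} (ha : cobd a = 0) (c : Chn ℤ X (n + 1)) :
    ev ℤ a (bd ℤ X n c) = 0 := by
  rw [ev_bd, ha]
  exact Cup_ev0 c

theorem ev_lin {n : ℕ} (m : Chn ℤ X n →ₗ[ℤ] ℤ) (c : Chn ℤ X n) :
    ev ℤ (fun σ => m (Finsupp.single σ 1)) c = m c :=
  ChB_ext (S := univ) _ m (fun σ _ => by rw [ev_single, one_smul]) (by rw [chn_univ]; trivial)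

theorem cobd_lin {n : ℕ} (m : Chn ℤ X n →ₗ[ℤ] ℤ) (σ : Simp X (n + 1)) :
    cobd (fun σ => m (Finsupp.single σ 1)) σ = m (bd ℤ X n (Finsupp.single σ 1)) := by
  rw [← ev_lin m, ev_bd, ev_single, one_smul]

theorem prim {K : Set X} {k : ℕ} {s : Chn ℤ X k →ₗ[ℤ] Chn ℤ X (k + 1)} (hs : Inv Kᶜ k s)
    {a : Simp X (k + 1) → ℤ} (h : ∀ c, ev ℤ a (c - s (bd ℤ X k c)) = 0) :
    ∃ b : Simp X k → ℤ, Van K b ∧ a = cobd b := by
  refine ⟨fun σ => ((ev ℤ a).comp s) (Finsupp.single σ 1), fun σ hσ => ?_, funext fun σ => ?_⟩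
  · show ev ℤ a (s (Finsupp.single σ 1)) = 0
    rw [hs.1 _ (single_mem hσ 1), map_zero]
  · have := h (Finsupp.single σ 1)
    rw [map_sub, ev_single, one_smul, sub_eq_zero] at this
    rw [cobd_lin, LinearMap.comp_apply, this]

theorem fin_union {P : Set X → Prop} {Q : Set (Set X)} (hP : ∀ B ∈ Q, IsOpen B ∧ P B)
    (hi : ∀ B ∈ Q, ∀ B' ∈ Q, B ∩ B' ∈ Q) (h0 : P ∅)
    (hu : ∀ U V, IsOpen U → IsOpen V → P U → P V → P (U ∩ V) → P (U ∪ V)) {ι : Type}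
    (t : Finset ι) : ∀ f : ι → Set X, (∀ i ∈ t, f i ∈ Q) → P (⋃ i ∈ t, f i) := by
  classical
  induction t using Finset.induction_on with
  | empty => intro f _; simpa using h0
  | insert a t _ ih =>
    intro f hf
    have ha := hf a (Finset.mem_insert_self a t)
    have ht : ∀ i ∈ t, f i ∈ Q := fun i hi => hf i (Finset.mem_insert_of_mem hi)
    rw [Finset.set_biUnion_insert]
    refine hu _ _ (hP _ ha).1 (isOpen_biUnion fun i hi => (hP _ (ht i hi)).1) (hP _ ha).2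
      (ih f ht) ?_
    rw [inter_iUnion₂]
    exact ih (fun i => f a ∩ f i) fun i h => hi _ ha _ (ht i h)

theorem of_local {P : Set X → Prop} {Q : Set (Set X)} (hP : ∀ B ∈ Q, IsOpen B ∧ P B)
    (hi : ∀ B ∈ Q, ∀ B' ∈ Q, B ∩ B' ∈ Q) (h0 : P ∅)
    (hu : ∀ U V, IsOpen U → IsOpen V → P U → P V → P (U ∩ V) → P (U ∪ V))
    (hd : ∀ U, IsOpen U → (∀ K, IsCompact K → K ⊆ U → ∃ U', K ⊆ U' ∧ U' ⊆ U ∧ P U') → P U)
    {O : Set X} (hO : IsOpen O) (hc : ∀ x ∈ O, ∃ B ∈ Q, x ∈ B ∧ B ⊆ O) : P O := by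
  refine hd O hO fun K hK hKO => ?_
  have h1 : ∀ x : K, ∃ B ∈ Q, x.1 ∈ B ∧ B ⊆ O := fun x => hc x.1 (hKO x.2)
  choose f hf hx hs using h1
  obtain ⟨t, ht⟩ := hK.elim_finite_subcover f (fun x => (hP _ (hf x)).1) fun x hxK =>
    mem_iUnion.2 ⟨⟨x, hxK⟩, hx _⟩
  exact ⟨_, ht, iUnion₂_subset fun i _ => hs i, fin_union hP hi h0 hu t f fun i _ => hf i⟩

end RUct

theorem Sph.cob {K : Set X} {z : Chn ℤ X 4} (h : Sph Kᶜ z) (hz : bd ℤ X 3 z = 0) {k : ℕ}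
    (hk : k ≠ 3) {a : Simp X (k + 1) → ℤ} (ha : cobd a = 0) (h0 : Van K a) :
    ∃ b : Simp X k → ℤ, Van K b ∧ a = cobd b := by
  have _ := hz
  obtain ⟨s, hs⟩ := RUct.inv h k
  obtain ⟨s', -, h3⟩ := RUct.step hs (h.van k hk)
  refine RUct.prim hs fun c => ?_
  have := RUct.ev_van h0 (h3 c)
  rwa [map_sub, RUct.ev_coc ha, sub_zero] at this

theorem Sph.cob_four {K : Set X} {z : Chn ℤ X 4} (h : Sph Kᶜ z) (hz : bd ℤ X 3 z = 0)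
    {a : Simp X 4 → ℤ} (ha : cobd a = 0) (h0 : Van K a) (h1 : ev ℤ a z = 0) :
    ∃ b : Simp X 3 → ℤ, Van K b ∧ a = cobd b := by
  have _ := hz
  obtain ⟨s, hs⟩ := RUct.inv h 3
  obtain ⟨s', m, -, -, h3, -⟩ := RUct.step4 h hs
  refine RUct.prim hs fun c => ?_
  have := RUct.ev_van h0 (h3 c)
  rwa [map_sub, map_sub, RUct.ev_coc ha, sub_zero, map_smul, h1, smul_zero, sub_zero] at this

theorem Sph.gen {K : Set X} {z : Chn ℤ X 4} (h : Sph Kᶜ z) (hz : bd ℤ X 3 z = 0) :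
    ∃ ω : Simp X 4 → ℤ, cobd ω = 0 ∧ Van K ω ∧ ev ℤ ω z = 1 := by
  obtain ⟨s, hs⟩ := RUct.inv h 3
  obtain ⟨s', m, -, h2, h3, h4⟩ := RUct.step4 h hs
  refine ⟨fun σ => m (Finsupp.single σ 1), funext fun σ => ?_,
    fun σ hσ => h2 _ (single_mem hσ 1), ?_⟩
  · rw [RUct.cobd_lin, h4, Pi.zero_apply]
  · rw [RUct.ev_lin]
    have h5 := h3 z
    rw [hz, map_zero, sub_zero] at h5
    have h6 := Submodule.add_mem _ (RUct.bd_in (S := Kᶜ) (s' z)) (Submodule.mem_sup_right h5)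
    have e : bd ℤ X 4 (s' z) + (z - bd ℤ X 4 (s' z) - m z • z) = (1 - m z) • z := by
      rw [sub_smul, one_smul]
      abel
    rw [e] at h6
    exact (sub_eq_zero.1 (h.free _ h6)).symm

theorem open_ind (P : Set X → Prop) {κ : Type} (D : κ → Set (Set X))
    (hP : ∀ k, ∀ B ∈ D k, IsOpen B ∧ P B) (hi : ∀ k, ∀ B ∈ D k, ∀ B' ∈ D k, B ∩ B' ∈ D k)
    (hb : ∀ k, ∀ B ∈ D k, ∀ O, IsOpen O → ∀ x ∈ B ∩ O, ∃ B' ∈ D k, x ∈ B' ∧ B' ⊆ O) (h0 : P ∅)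
    (hu : ∀ U V, IsOpen U → IsOpen V → P U → P V → P (U ∩ V) → P (U ∪ V))
    (hd : ∀ U, IsOpen U → (∀ K, IsCompact K → K ⊆ U → ∃ U', K ⊆ U' ∧ U' ⊆ U ∧ P U') → P U)
    {O : Set X} (hO : IsOpen O) (hc : ∀ x ∈ O, ∃ k, ∃ B ∈ D k, x ∈ B) : P O := by
  refine RUct.of_local (Q := {U | IsOpen U ∧ ∃ k, ∀ x ∈ U, ∃ B ∈ D k, x ∈ B}) ?_ ?_ h0 hu hd hO ?_
  · rintro U ⟨hU, k, hk⟩
    refine ⟨hU, RUct.of_local (hP k) (hi k) h0 hu hd hU fun x hx => ?_⟩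
    obtain ⟨B, hB, hxB⟩ := hk x hx
    exact hb k B hB U hU x ⟨hxB, hx⟩
  · rintro U ⟨hU, k, hk⟩ U' ⟨hU', -⟩
    exact ⟨hU.inter hU', k, fun x hx => hk x hx.1⟩
  · intro x hx
    obtain ⟨k, B, hB, hxB⟩ := hc x hx
    exact ⟨B ∩ O, ⟨(hP k B hB).1.inter hO, k, fun y hy => ⟨B, hB, hy.1⟩⟩, ⟨hxB, hx⟩,
      inter_subset_right⟩

end HW
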