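import Pool.Agent.P.MP_9699e0_gt.W.PdM
import Pool.Agent.P.MP_9699e0_gt.W.Uct

/-! Poincare duality: convex charts, the theorem and its consequences. -/

set_option autoImplicit false
set_option linter.unusedSectionVars false

noncomputable section

namespace HW

open HK3 Pool.Agent.P.MP_9699e0_gt Set Filter Topology

variable {X Y : Type} [TopologicalSpace X] [TopologicalSpace Y]

namespace RPdB

theorem cobd_zero (n : ℕ) : cobd (0 : Simp X n → ℤ) = 0 := by
  have := cobd_zsmul (X := X) (n := n) 0 (0 : Simp X n → ℤ)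
  simpa using this

theorem closed_of {z ζ : Chn ℤ X 4} (hz : bd ℤ X 3 z = 0) (h : ζ - z ∈ bdy ℤ univ 4) :
    bd ℤ X 3 ζ = 0 := by
  have h2 : bd ℤ X 3 (ζ - z) = 0 := (bdy_le univ 4 h).2
  rwa [map_sub, hz, sub_zero] at h2

theorem tb_add (c d : TC X) : tb (c + d) = tb c + tb d := by
  funext j
  simp only [tb, Pi.add_apply, map_add]

theorem tb_smul (m : ℤ) (c : TC X) : tb (m • c) = m • tb c := by
  funext j
  simp only [tb, Pi.smul_apply, map_smul]

theorem tc_zero (k n : ℕ) (a : Simp X k → ℤ) : tc k n a 0 = 0 := by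
  funext j
  simp only [tc, map_zero, Pi.zero_apply]

theorem tc_zero' (k n : ℕ) (y : Chn ℤ X n) : tc k n (0 : Simp X k → ℤ) y = 0 := by
  funext j
  simp only [tc, cap_zero, LinearMap.zero_apply, Pi.zero_apply]

/-- A reduced cycle in an acyclic set bounds. -/
theorem fill {U : Set X} (ha : ∀ n, rcyc U n ≤ bdy ℤ U n) {k : ℕ} {e : TC X} (h1 : In U e)
    (h2 : Dg k 4 e) (h3 : tb e = 0) (h4 : aug ℤ (e 0) = 0) :
    ∃ d, In U d ∧ Dg k 5 d ∧ e = tb d := by
  have key : ∀ j, ∃ d ∈ chn ℤ U (j + 1), bd ℤ X j d = e j ∧ (k + j ≠ 4 → d = 0) := by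
    intro j
    by_cases hj : k + j = 4
    · have hr : e j ∈ rcyc U j := by
        cases j with
        | zero => exact ⟨h1 0, h4⟩
        | succ j => exact ⟨h1 _, congrFun h3 j⟩
      obtain ⟨d, hd, hd'⟩ := ha j hr
      exact ⟨d, hd, hd', fun h => absurd hj h⟩
    · exact ⟨0, Submodule.zero_mem _, by rw [map_zero, h2 j hj], fun _ => rfl⟩
  choose d hd hd' hd0 using key
  refine ⟨fun j => Nat.casesOn (motive := fun j => Chn ℤ X j) j 0 d, fun j => ?_, fun j hj => ?_,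
    funext fun j => (hd' j).symm⟩
  · cases j with
    | zero => exact Submodule.zero_mem _
    | succ j => exact hd j
  · cases j with
    | zero => rfl
    | succ j => exact hd0 j (by omega)

/-- The cone is acyclic once the cycle is adapted to a good compact set. -/
theorem core {z ζ : Chn ℤ X 4} (hz : bd ℤ X 3 z = 0) (hζ : ζ - z ∈ bdy ℤ univ 4) {U K K' : Set X}
    (ha : ∀ n, rcyc U n ≤ bdy ℤ U n) {k : ℕ} {a : Simp X (k + 1) → ℤ} {c : TC X}
    (hc : CC U K k ζ a c) (hK : IsCompact K') (h1 : K ⊆ K') (h2 : K' ⊆ U) (hs : Sph K'ᶜ z)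
    (had : Ad K' U ζ) : CB U k ζ a c := by
  have hζ0 := closed_of hz hζ
  have hv : Van K' a := fun σ hσ => hc.van σ (hσ.trans (compl_subset_compl.2 h1))
  obtain ⟨b, hb, hab⟩ : ∃ b : Simp X k → ℤ, Van K' b ∧ a = cobd b := by
    by_cases hk : k = 3
    · subst hk
      refine hs.cob_four hz hc.coc hv ?_
      rw [← ev_eq_of_bdy hc.coc hζ, ← aug_cap]
      have := congrFun hc.eq 0
      simp only [tb, tc] at this
      rw [← this, aug_bd]
    · exact hs.cob hz hk hc.coc hv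
  obtain ⟨b, hb, hab, h0⟩ : ∃ b : Simp X k → ℤ, Van K' b ∧ a = cobd b ∧
      aug ℤ ((c + (-1 : ℤ) ^ k • tc k 4 b ζ) 0) = 0 := by
    by_cases hk : k = 4
    · subst hk
      obtain ⟨ω, h3, h4, h5⟩ := hs.gen hz
      refine ⟨b + (-(aug ℤ (c 0) + ev ℤ b ζ)) • ω, fun σ hσ => ?_, ?_, ?_⟩
      · rw [Pi.add_apply, Pi.smul_apply, hb σ hσ, h4 σ hσ, smul_zero, add_zero]
      · rw [cobd_add, cobd_zsmul, h3, smul_zero, add_zero, hab]
      · have h6 : ev ℤ ω ζ = 1 := (ev_eq_of_bdy h3 hζ).trans h5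
        simp only [Pi.add_apply, Pi.smul_apply, tc, cap_add, cap_smul, LinearMap.add_apply,
          LinearMap.smul_apply, map_add, map_smul, aug_cap, h6, smul_eq_mul]
        ring
    · refine ⟨b, hb, hab, ?_⟩
      have h3 : k + 0 ≠ 4 := by omega
      simp only [Pi.add_apply, Pi.smul_apply, tc, hc.dg 0 h3, cap_of_ne h3, LinearMap.zero_apply,
        smul_zero, add_zero, map_zero]
  obtain ⟨d, h3, h4, h5⟩ := fill ha (k := k) (e := c + (-1 : ℤ) ^ k • tc k 4 b ζ)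
    (fun j => Submodule.add_mem _ (hc.mem j) (Submodule.smul_mem _ _ (cap_mem hb had)))
    (fun j hj => by
      simp only [Pi.add_apply, Pi.smul_apply, tc, hc.dg j hj, cap_of_ne hj, LinearMap.zero_apply,
        smul_zero, add_zero])
    (by
      rw [tb_add, tb_smul, hc.eq, tb_tc k 3 b ζ, hζ0, tc_zero, ← hab, smul_smul, ← mul_pow]
      simp) h0
  exact ⟨K', b, d, hK, h2, had, hb, hab, h3, h4, h5⟩

/-- A compact subset of an open convex set lies in a compact convex subset. -/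
theorem exists_hull {V L : Set (Eu 4)} (hV : IsOpen V) (hc : Convex ℝ V) (hL : IsCompact L)
    (h : L ⊆ V) : ∃ K, IsCompact K ∧ Convex ℝ K ∧ L ⊆ K ∧ K ⊆ V := by
  have key : ∀ x : V, ∃ u : Finset (Eu 4), x.1 ∈ interior (convexHull ℝ (u : Set (Eu 4))) ∧
      convexHull ℝ (u : Set (Eu 4)) ⊆ V := by
    intro x
    obtain ⟨u, h1, h2⟩ := (convex_singleton x.1).exists_subset_interior_convexHull_finset_of_isCompact
      isCompact_singleton (t := V) (hV.mem_nhdsSet.2 (singleton_subset_iff.2 x.2))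
    exact ⟨u, h1 rfl, h2⟩
  choose u h1 h2 using key
  obtain ⟨T, hT⟩ := hL.elim_finite_subcover
    (fun x : V => interior (convexHull ℝ (u x : Set (Eu 4)))) (fun _ => isOpen_interior)
    fun x hx => mem_iUnion.2 ⟨⟨x, h hx⟩, h1 _⟩
  have hf : (⋃ x ∈ T, (u x : Set (Eu 4))).Finite :=
    T.finite_toSet.biUnion fun x _ => (u x).finite_toSet
  refine ⟨convexHull ℝ (⋃ x ∈ T, (u x : Set (Eu 4))), hf.isCompact_convexHull ℝ,
    convex_convexHull _ _, fun y hy => ?_, convexHull_min ?_ hc⟩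
  · obtain ⟨x, hx, hy⟩ := mem_iUnion₂.1 (hT hy)
    exact convexHull_mono (subset_iUnion₂ (s := fun x (_ : x ∈ T) => (u x : Set (Eu 4))) x hx)
      (interior_subset hy)
  · exact iUnion₂_subset fun x _ => (subset_convexHull _ _).trans (h2 x)

theorem emb_chart (e : OpenPartialHomeomorph (Eu 4) X) {V : Set (Eu 4)} (h : V ⊆ e.source) :
    Emb e V := by
  refine ⟨e.continuousOn.mono h, e.symm, e.continuousOn_symm.mono ?_, fun x hx => e.left_inv (h hx)⟩
  rintro _ ⟨x, hx, rfl⟩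
  exact e.map_source (h hx)

theorem acyc_chart (e : OpenPartialHomeomorph (Eu 4) X) {V : Set (Eu 4)} (h : V ⊆ e.source)
    (hc : Convex ℝ V) {v : Eu 4} (hv : v ∈ V) (n : ℕ) : rcyc (e '' V) n ≤ bdy ℤ (e '' V) n := by
  have he := emb_chart e h
  cases n with
  | zero =>
    intro c hc'
    obtain ⟨c', h1, rfl⟩ := he.exists_chn hc'.1
    have h2 : aug ℤ (cmap ℤ e 0 c') = 0 := hc'.2
    rw [aug_cmap] at h2
    exact cmap_bdy he.1 (mapsTo_image _ _) (rcyc_le_of_star hv (hc.starConvex hv) 0 ⟨h1, h2⟩)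
  | succ n => exact he.cyc_le (rcyc_le_of_star hv (hc.starConvex hv) (n + 1))

end RPdB

open RPdB

theorem pd_acyc [T2Space X] {z : Chn ℤ X 4} (hz : bd ℤ X 3 z = 0) {U : Set X} (hU : IsOpen U)
    (ha : ∀ n, rcyc U n ≤ bdy ℤ U n)
    (h : ∀ K, IsCompact K → K ⊆ U → ∃ K', IsCompact K' ∧ K ⊆ K' ∧ K' ⊆ U ∧ Sph K'ᶜ z) :
    PD z U := by
  intro k K ζ a c hζ hc
  obtain ⟨K', h1, h2, h3, h4⟩ := h K hc.cpt hc.sub
  obtain ⟨τ, hτ, had⟩ := exists_rf (closed_of hz hζ) h1.isClosed hU h3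
  refine ⟨τ, hτ, core hz ?_ ha (hc.move hτ) h1 h2 h3 h4 had⟩
  rw [sub_right_comm]
  exact Submodule.sub_mem _ hζ (bd_mem_bdy τ)

theorem Mf.pd {z : Chn ℤ X 4} (h : Mf X z) {U : Set X} (hU : IsOpen U) : PD z U := by
  have := h.t2
  choose e he hs using h.chart
  refine open_ind (PD z)
    (fun x : X => {B | ∃ V, IsOpen V ∧ Convex ℝ V ∧ V ⊆ (e x).source ∧ B = e x '' V}) ?_ ?_ ?_
    (pd_empty z) (fun U V hU hV => pd_union h.closed hU hV) (fun U _ => pd_dir) hU ?_
  · rintro x _ ⟨V, h1, h2, h3, rfl⟩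
    have ho := (e x).isOpen_image_of_subset_source h1 h3
    refine ⟨ho, ?_⟩
    rcases V.eq_empty_or_nonempty with rfl | ⟨v, hv⟩
    · rw [image_empty]
      exact pd_empty z
    refine pd_acyc h.closed ho (acyc_chart (e x) h3 h2 hv) fun K hK hKV => ?_
    have ht : K ⊆ (e x).target := by
      rintro y hy
      obtain ⟨w, hw, rfl⟩ := hKV hy
      exact (e x).map_source (h3 hw)
    obtain ⟨L, h4, h5, h6, h7⟩ := exists_hull h1 h2
      ((hK.image_of_continuousOn ((e x).continuousOn_symm.mono ht)).insert v) (by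
        rintro y (rfl | ⟨w, hw, rfl⟩)
        · exact hv
        · obtain ⟨t, ht, rfl⟩ := hKV hw
          rwa [(e x).left_inv (h3 ht)])
    refine ⟨e x '' L, h4.image_of_continuousOn ((e x).continuousOn.mono (h7.trans h3)),
      fun y hy => ⟨_, h6 (Or.inr ⟨y, hy, rfl⟩), (e x).right_inv (ht hy)⟩, image_mono h7,
      hs x L h4 h5 ⟨v, h6 (Or.inl rfl)⟩ (h7.trans h3)⟩
  · rintro x _ ⟨V, h1, h2, h3, rfl⟩ _ ⟨V', h1', h2', h3', rfl⟩
    exact ⟨V ∩ V', h1.inter h1', h2.inter h2', inter_subset_left.trans h3,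
      ((e x).injOn.image_inter h3 h3').symm⟩
  · rintro x _ ⟨V, h1, h2, h3, rfl⟩ O hO _ ⟨⟨v, hv, rfl⟩, hvO⟩
    obtain ⟨r, hr, hb⟩ := Metric.isOpen_iff.1 ((e x).isOpen_inter_preimage hO) v ⟨h3 hv, hvO⟩
    refine ⟨_, ⟨Metric.ball v r, Metric.isOpen_ball, convex_ball _ _,
      hb.trans inter_subset_left, rfl⟩, ⟨v, Metric.mem_ball_self hr, rfl⟩, ?_⟩
    rintro _ ⟨w, hw, rfl⟩
    exact (hb hw).2
  · intro x _
    obtain ⟨r, hr, hb⟩ := Metric.isOpen_iff.1 (e x).open_source _ ((e x).map_target (he x))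
    exact ⟨x, _, ⟨Metric.ball _ r, Metric.isOpen_ball, convex_ball _ _, hb, rfl⟩,
      ⟨_, Metric.mem_ball_self hr, (e x).right_inv (he x)⟩⟩

namespace RPdB

/-- Every cycle is dual to a cocycle. -/
theorem dual {z : Chn ℤ X 4} (h : Mf X z) {U : Set X} (hU : IsOpen U) {k j : ℕ}
    (hkj : k + (j + 1) = 4) {c : Chn ℤ X (j + 1)} (hc : c ∈ cyc ℤ U (j + 1)) :
    ∃ (K : Set X) (b : Simp X k → ℤ) (τ : Chn ℤ X 5), K ⊆ U ∧ Van K b ∧ cobd b = 0 ∧
      c + (-1 : ℤ) ^ k • cap k (j + 1) 4 b (z - bd ℤ X 4 τ) ∈ bdy ℤ univ (j + 1) := by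
  have hcc : CC U ∅ k z 0 (Pi.single (j + 1) c) :=
    { cpt := isCompact_empty
      sub := empty_subset _
      ad := by
        refine Submodule.mem_sup_right ?_
        rw [compl_empty, chn_univ]
        trivial
      van := fun _ _ => rfl
      coc := cobd_zero _
      mem := fun i => by
        by_cases hi : i = j + 1
        · subst hi
          rw [Pi.single_eq_same]
          exact hc.1
        · rw [Pi.single_eq_of_ne hi]
          exact Submodule.zero_mem _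
      dg := fun i hi => Pi.single_eq_of_ne (by omega) _
      eq := by
        rw [tc_zero']
        funext i
        by_cases hi : i = j
        · subst hi
          simp only [tb, Pi.single_eq_same, Pi.zero_apply]
          exact hc.2
        · simp only [tb, Pi.zero_apply]
          rw [Pi.single_eq_of_ne (by omega), map_zero] }
  obtain ⟨τ, -, K, b, d, -, h1, -, h2, h3, -, -, h4⟩ :=
    h.pd hU k ∅ z 0 _ (by rw [sub_self]; exact Submodule.zero_mem _) hcc
  refine ⟨K, b, τ, h1, h2, h3.symm, ?_⟩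
  have := congrFun h4 (j + 1)
  rw [tc_zero', smul_zero, add_zero] at this
  simp only [Pi.add_apply, Pi.smul_apply, Pi.single_eq_same, tc, tb] at this
  rw [this]
  exact bd_mem_bdy _

end RPdB

theorem Mf.dual_two {z : Chn ℤ X 4} (h : Mf X z) {U : Set X} (hU : IsOpen U) {c : Chn ℤ X 2}
    (hc : c ∈ cyc ℤ U 2) : ∃ (K : Set X) (b : Simp X 2 → ℤ), K ⊆ U ∧ Van K b ∧ cobd b = 0 ∧
      c - cap 2 2 4 b z ∈ bdy ℤ univ 2 := by
  obtain ⟨K, b, τ, h1, h2, h3, h4⟩ := dual h hU (k := 2) (j := 1) rfl hc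
  refine ⟨K, (-1 : ℤ) • b, h1, fun σ hσ => by rw [Pi.smul_apply, h2 σ hσ, smul_zero],
    by rw [cobd_zsmul, h3, smul_zero], ?_⟩
  have := Submodule.add_mem _ h4 (cap_bdy h3 (bd_mem_bdy τ))
  convert this using 1
  rw [cap_smul]
  simp only [LinearMap.neg_apply, map_sub, neg_smul, one_smul, even_two,
    Even.neg_pow, one_pow, Nat.reduceAdd]
  abel

theorem Mf.hz_three {z : Chn ℤ X 4} (h : Mf X z) (h1 : HZ X 1) : HZ X 3 := by
  intro c hc
  obtain ⟨K, b, τ, -, -, h3, h4⟩ := dual h isOpen_univ (k := 1) (j := 2) rfl hc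
  obtain ⟨b₀, rfl⟩ := cob_one h1 h3
  have h5 := bd_cap 0 3 3 b₀ (z - bd ℤ X 4 τ)
  rw [map_sub (bd ℤ X 3), h.closed, bd_bd, sub_zero, map_zero, pow_zero, one_smul, zero_sub] at h5
  have := Submodule.sub_mem _ h4 (bd_mem_bdy (cap 0 4 4 b₀ (z - bd ℤ X 4 τ)))
  rw [h5] at this
  convert this using 1
  simp

end HW
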