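import Pool.Agent.P.MP_9699e0_gt.W.PdT

/-! Poincare duality: the Mayer-Vietoris step. -/

set_option autoImplicit false
set_option linter.unusedSectionVars false

noncomputable section

namespace HW

open HK3 Pool.Agent.P.MP_9699e0_gt Set Filter Topology

variable {X Y : Type} [TopologicalSpace X] [TopologicalSpace Y]

namespace RPdM

theorem tb_add (c d : TC X) : tb (c + d) = tb c + tb d := funext fun _ => map_add _ _ _

theorem tb_sub (c d : TC X) : tb (c - d) = tb c - tb d := funext fun _ => map_sub _ _ _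

theorem tb_smul (m : ℤ) (c : TC X) : tb (m • c) = m • tb c :=
  funext fun j => map_zsmul (bd ℤ X j) m _

theorem tb_tb (c : TC X) : tb (tb c) = 0 := funext fun j => bd_bd j _

variable {k n : ℕ} {U V K K' : Set X}

theorem tc_add (a b : Simp X k → ℤ) (y : Chn ℤ X n) :
    tc k n (a + b) y = tc k n a y + tc k n b y :=
  funext fun j => LinearMap.congr_fun (cap_add k j n a b) y

theorem tc_sub (a b : Simp X k → ℤ) (y : Chn ℤ X n) :
    tc k n (a - b) y = tc k n a y - tc k n b y :=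
  funext fun j => LinearMap.congr_fun (cap_sub k j n a b) y

theorem tc_sub' (a : Simp X k → ℤ) (y y' : Chn ℤ X n) :
    tc k n a (y - y') = tc k n a y - tc k n a y' := funext fun _ => map_sub _ _ _

theorem tc_zero' (a : Simp X k → ℤ) : tc k n a 0 = 0 := funext fun _ => map_zero _

theorem tc_zero (y : Chn ℤ X n) : tc k n 0 y = 0 :=
  funext fun j => LinearMap.congr_fun (cap_zero k j n) y

theorem in_add {c d : TC X} (h : In U c) (h' : In U d) : In U (c + d) :=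
  fun j => add_mem (h j) (h' j)

theorem in_sub {c d : TC X} (h : In U c) (h' : In U d) : In U (c - d) :=
  fun j => sub_mem (h j) (h' j)

theorem in_smul (m : ℤ) {c : TC X} (h : In U c) : In U (m • c) :=
  fun j => Submodule.smul_mem _ m (h j)

theorem in_tb {c : TC X} (h : In U c) : In U (tb c) := fun j => bd_mem (h (j + 1))

theorem in_tc {a : Simp X k → ℤ} (ha : Van K a) {y : Chn ℤ X n} (hy : Ad K U y) :
    In U (tc k n a y) := fun _ => cap_mem ha hy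

theorem in_mono {c : TC X} (h : In U c) (hU : U ⊆ V) : In V c := fun j => chn_mono hU j (h j)

theorem dg_add {c d : TC X} (h : Dg k n c) (h' : Dg k n d) : Dg k n (c + d) :=
  fun j hj => by rw [Pi.add_apply, h j hj, h' j hj, add_zero]

theorem dg_sub {c d : TC X} (h : Dg k n c) (h' : Dg k n d) : Dg k n (c - d) :=
  fun j hj => by rw [Pi.sub_apply, h j hj, h' j hj, sub_zero]

theorem dg_smul (m : ℤ) {c : TC X} (h : Dg k n c) : Dg k n (m • c) :=
  fun j hj => by rw [Pi.smul_apply, h j hj, smul_zero]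

theorem dg_tc (a : Simp X k → ℤ) (y : Chn ℤ X n) : Dg k n (tc k n a y) :=
  fun _ hj => LinearMap.congr_fun (cap_of_ne hj a) y

theorem dg_succ {c : TC X} (h : Dg (k + 1) (n + 1) c) : Dg k n c := fun j hj => h j (by omega)

theorem dg_tb {c : TC X} (h : Dg k n c) : Dg (k + 1) n (tb c) :=
  fun j hj => by rw [tb, h (j + 1) (by omega), map_zero]

theorem van_mono {a : Simp X k → ℤ} (h : Van K a) (hK : K ⊆ K') : Van K' a :=
  fun σ hσ => h σ (hσ.trans (compl_subset_compl.2 hK))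

theorem van_add {a b : Simp X k → ℤ} (h : Van K a) (h' : Van K b) : Van K (a + b) :=
  fun σ hσ => by rw [Pi.add_apply, h σ hσ, h' σ hσ, add_zero]

theorem van_sub {a b : Simp X k → ℤ} (h : Van K a) (h' : Van K b) : Van K (a - b) :=
  fun σ hσ => by rw [Pi.sub_apply, h σ hσ, h' σ hσ, sub_zero]

theorem van_cobd {a : Simp X k → ℤ} (h : Van K a) : Van K (cobd a) := fun σ hσ =>
  Finset.sum_eq_zero fun i _ => by rw [h _ ((range_sub σ _).trans hσ), smul_zero]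

theorem cobd_sub (a b : Simp X k → ℤ) : cobd (a - b) = cobd a - cobd b := by
  rw [sub_eq_add_neg, cobd_add, cobd_neg, sub_eq_add_neg]

/-- Splitting of a cocycle. -/
theorem split_coc (hK : IsClosed K) (hK' : IsClosed K') {a : Simp X k → ℤ}
    (ha : Van (K ∪ K') a) (hc : cobd a = 0) :
    ∃ a₁ a₂, a = a₁ + a₂ ∧ Van K a₁ ∧ Van K' a₂ ∧ Van (K ∩ K') (cobd a₁) := by
  classical
  let b : Simp X k → ℤ := fun σ => if range σ ⊆ K'ᶜ then a σ else 0
  have h1 : Van K b := fun σ hσ => by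
    by_cases h : range σ ⊆ K'ᶜ
    · exact (if_pos h).trans (ha σ (compl_union K K' ▸ subset_inter hσ h))
    · exact if_neg h
  have h2 : Van K' (a - b) := fun σ hσ => sub_eq_zero.2 (if_pos hσ).symm
  have h3 : Van K' (cobd b) := fun σ hσ => by
    have := van_cobd h2 σ hσ
    rwa [cobd_sub, hc, zero_sub, Pi.neg_apply, neg_eq_zero] at this
  obtain ⟨β, e1, e2⟩ := (small_two (O := (K ∩ K')ᶜ) hK.isOpen_compl hK'.isOpen_compl
    (compl_inter K K').subset).cob (cobd b) (fun τ _ => congrFun (cobd_cobd b) τ)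
    fun σ _ hσ => hσ.elim (van_cobd h1 σ) (h3 σ)
  refine ⟨b - β, a - b + β, by abel, van_sub h1 fun σ hσ => e2 σ (Or.inl hσ),
    van_add h2 fun σ hσ => e2 σ (Or.inr hσ), fun σ hσ => ?_⟩
  rw [cobd_sub, Pi.sub_apply, e1 σ hσ, sub_self]

/-- Splitting of a chain. -/
theorem split_chn (hU : IsOpen U) (hV : IsOpen V) {c p q : TC X} (hc : In (U ∪ V) c)
    (hd : Dg k 4 c) (hp : In U p) (hq : In V q) (h : tb c = p + q) :
    ∃ c₁ c₂ e, c = c₁ + c₂ + tb e ∧ In U c₁ ∧ In V c₂ ∧ In (U ∪ V) e ∧ Dg k 4 c₁ ∧ Dg k 4 c₂ ∧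
      Dg k 5 e := by
  have h1 : ∀ j, ∃ a ∈ chn ℤ U j, ∃ b ∈ chn ℤ V j, ∃ e ∈ chn ℤ (U ∪ V) (j + 1),
      c j = a + b + bd ℤ X j e ∧ (k + j ≠ 4 → a = 0 ∧ b = 0 ∧ e = 0) := fun j => by
    by_cases hj : k + j = 4
    · have h2 : ∃ a ∈ chn ℤ ((U ∪ V) ∩ U) j, ∃ b ∈ chn ℤ ((U ∪ V) ∩ V) j,
          c j - a - b ∈ bdy ℤ (U ∪ V) j := by
        cases j with
        | zero => exact (MvA_core hU hV Subset.rfl).1 _ (hc 0)
        | succ j =>
          refine (MvA_core hU hV Subset.rfl).2 j _ (hc _) ?_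
          have h3 : bd ℤ X j (c (j + 1)) = p j + q j := congrFun h j
          exact h3 ▸ Submodule.add_mem_sup (hp j) (hq j)
      obtain ⟨a, ha, b, hb, e, he, h3⟩ := h2
      exact ⟨a, chn_mono inter_subset_right j ha, b, chn_mono inter_subset_right j hb, e, he,
        by rw [h3]; abel, fun h => absurd hj h⟩
    · exact ⟨0, zero_mem _, 0, zero_mem _, 0, zero_mem _, by simp [hd j hj],
        fun _ => ⟨rfl, rfl, rfl⟩⟩
  choose a ha b hb e he h2 h3 using h1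
  refine ⟨a, b, fun j => match j with | 0 => 0 | j + 1 => e j, funext h2, ha, hb, fun j => ?_,
    fun j hj => (h3 j hj).1, fun j hj => (h3 j hj).2.1, fun j hj => ?_⟩
  · cases j with
    | zero => exact zero_mem _
    | succ j => exact he j
  · cases j with
    | zero => rfl
    | succ j => exact (h3 j (by omega)).2.2

theorem sub_bd {z ζ : Chn ℤ X 4} (h : ζ - z ∈ bdy ℤ univ 4) (τ : Chn ℤ X 5) :
    ζ - bd ℤ X 4 τ - z ∈ bdy ℤ univ 4 := by
  rw [sub_right_comm]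
  exact sub_mem h (bd_mem_bdy τ)

theorem bd_eq_zero {z ζ : Chn ℤ X 4} (hz : bd ℤ X 3 z = 0) (h : ζ - z ∈ bdy ℤ univ 4) :
    bd ℤ X 3 ζ = 0 := by
  obtain ⟨τ, -, hτ⟩ := h
  have := bd_bd 3 τ
  rwa [hτ, map_sub, hz, sub_zero] at this

/-- The conclusion of the duality statement. -/
def Con' (U : Set X) (k : ℕ) (ζ : Chn ℤ X 4) (a : Simp X (k + 1) → ℤ) (c : TC X) : Prop :=
  ∃ τ, Rf ζ τ ∧ CB U k (ζ - bd ℤ X 4 τ) a (c + (-1 : ℤ) ^ k • tc (k + 1) 5 a τ)

theorem join {z ζ : Chn ℤ X 4} (h1 : PD z U) (h2 : PD z V) (hζ : ζ - z ∈ bdy ℤ univ 4)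
    {a₁ a₂ : Simp X (k + 1) → ℤ} {c₁ c₂ e : TC X} (e1 : CC U K k ζ a₁ c₁) (e2 : CC V K' k ζ a₂ c₂)
    (he : In (U ∪ V) e) (hd : Dg k 5 e) : Con' (U ∪ V) k ζ (a₁ + a₂) (c₁ + c₂ + tb e) := by
  obtain ⟨τ, hτ, b1⟩ := h1 k K ζ a₁ c₁ hζ e1
  obtain ⟨τ', hτ', b2⟩ := h2 k K' _ a₂ _ (sub_bd hζ τ) (e2.move hτ)
  have b3 := (((b1.move hτ').mono subset_union_left).add (b2.mono subset_union_right)).add_tb he hd
  refine pd_of_move (z := z) (K := K) hτ ⟨τ', hτ', ?_⟩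
  convert b3 using 1
  rw [tc_add, tc_add]
  module

theorem adapted [T2Space X] {z ζ : Chn ℤ X 4} (hz : bd ℤ X 3 z = 0) (hU : IsOpen U)
    (hV : IsOpen V) (h1 : PD z U) (h2 : PD z V) (h3 : PD z (U ∩ V)) (hζ : ζ - z ∈ bdy ℤ univ 4)
    (hK : IsCompact K) (hK' : IsCompact K') (sU : K ⊆ U) (sV : K' ⊆ V)
    {a : Simp X (k + 1) → ℤ} {c : TC X} (h : CC (U ∪ V) (K ∪ K') k ζ a c) (aU : Ad K U ζ)
    (aV : Ad K' V ζ) (aI : Ad (K ∩ K') (U ∩ V) ζ) : Con' (U ∪ V) k ζ a c := by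
  have h0 := bd_eq_zero hz hζ
  obtain ⟨a₁, a₂, rfl, v1, v2, v3⟩ := split_coc hK.isClosed hK'.isClosed h.van h.coc
  have q0 := h.eq
  rw [tc_add] at q0
  obtain ⟨c₁, c₂, e, rfl, i1, i2, i3, d1, d2, d3⟩ :=
    split_chn hU hV h.mem h.dg (in_tc v1 aU) (in_tc v2 aV) q0
  rw [tb_add, tb_add, tb_tb, add_zero] at q0
  have q1 : cobd a₁ + cobd a₂ = 0 := (cobd_add a₁ a₂).symm.trans h.coc
  have q2 := tb_tc (k + 1) 3 a₁ ζ
  rw [h0, tc_zero'] at q2
  have hε : (-1 : ℤ) ^ (k + 1) * (-1) ^ (k + 1) = 1 := by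
    rw [← mul_pow]
    simp
  have c0 : CC (U ∩ V) (K ∩ K') (k + 1) ζ (cobd a₁)
      ((-1 : ℤ) ^ (k + 1) • (tb c₁ - tc (k + 1) 4 a₁ ζ)) := by
    refine ⟨hK.inter hK', inter_subset_inter sU sV, aI, v3, cobd_cobd _, in_smul _ fun j => ?_,
      dg_smul _ (dg_sub (dg_tb d1) (dg_tc _ _)), ?_⟩
    · rw [chn_inter]
      refine ⟨in_sub (in_tb i1) (in_tc v1 aU) j, ?_⟩
      have : tb c₁ - tc (k + 1) 4 a₁ ζ = tc (k + 1) 4 a₂ ζ - tb c₂ := by
        linear_combination (norm := module) q0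
      exact this ▸ in_sub (in_tc v2 aV) (in_tb i2) j
    · rw [tb_smul, tb_sub, tb_tb, q2, zero_sub, zero_sub, smul_neg, smul_smul, hε, one_smul,
        neg_neg]
  obtain ⟨τ, hτ, L, b, d, l1, l2, l3, l4, l5, l6, l7, l8⟩ := h3 (k + 1) _ ζ _ _ hζ c0
  have q3 := tb_tc (k + 1) 4 a₁ τ
  have q4 := tb_tc (k + 1) 4 a₂ τ
  have q5 : tc (k + 1 + 1) 5 (cobd a₁) τ + tc (k + 1 + 1) 5 (cobd a₂) τ = 0 := by
    rw [← tc_add, q1, tc_zero]
  have c1 : CC U (K ∪ L) k (ζ - bd ℤ X 4 τ) (a₁ - b)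
      (c₁ - (-1 : ℤ) ^ (k + 1) • d - (-1 : ℤ) ^ (k + 1) • tc (k + 1) 5 a₁ τ) := by
    refine ⟨hK.union l1, union_subset sU (l2.trans inter_subset_left),
      ((hτ.ad aU).2.inter l3).mono Subset.rfl (union_subset Subset.rfl inter_subset_left),
      van_sub (van_mono v1 subset_union_left) (van_mono l4 subset_union_right),
      by rw [cobd_sub, l5, sub_self],
      in_sub (in_sub i1 (in_smul _ (in_mono l6 inter_subset_left)))
        (in_smul _ (in_tc v1 (hτ.ad aU).1)),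
      dg_sub (dg_sub d1 (dg_smul _ (dg_succ l7))) (dg_smul _ (dg_succ (dg_tc _ _))), ?_⟩
    rw [tb_sub, tb_sub, tb_smul, tb_smul, q3, ← l8, tc_sub, tc_sub' a₁, smul_add, smul_add,
      smul_smul, smul_smul, smul_smul, smul_smul, hε]
    module
  have c2 : CC V (K' ∪ L) k (ζ - bd ℤ X 4 τ) (a₂ + b)
      (c₂ + (-1 : ℤ) ^ (k + 1) • d - (-1 : ℤ) ^ (k + 1) • tc (k + 1) 5 a₂ τ) := by
    refine ⟨hK'.union l1, union_subset sV (l2.trans inter_subset_right),
      ((hτ.ad aV).2.inter l3).mono Subset.rfl (union_subset Subset.rfl inter_subset_right),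
      van_add (van_mono v2 subset_union_left) (van_mono l4 subset_union_right),
      by rw [cobd_add, ← l5, add_comm (cobd a₂), q1],
      in_sub (in_add i2 (in_smul _ (in_mono l6 inter_subset_right)))
        (in_smul _ (in_tc v2 (hτ.ad aV).1)),
      dg_sub (dg_add d2 (dg_smul _ (dg_succ l7))) (dg_smul _ (dg_succ (dg_tc _ _))), ?_⟩
    rw [tb_sub, tb_add, tb_smul, tb_smul, q4, ← l8, tc_add, tc_sub' a₂, smul_add, smul_add,
      smul_smul, smul_smul, smul_smul, smul_smul, hε]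
    linear_combination (norm := module) q0 + q5
  have c3 := join h1 h2 (sub_bd hζ τ) c1 c2 i3 d3
  rw [show a₁ - b + (a₂ + b) = a₁ + a₂ by abel] at c3
  refine pd_of_move (z := z) (K := K) hτ ?_
  convert c3 using 1
  refine (iff_of_eq (congrArg (Con' (U ∪ V) k (ζ - bd ℤ X 4 τ) (a₁ + a₂)) ?_))
  rw [tc_add, pow_succ]
  module

end RPdM

theorem pd_union [T2Space X] {z : Chn ℤ X 4} (hz : bd ℤ X 3 z = 0) {U V : Set X} (hU : IsOpen U)
    (hV : IsOpen V) (h1 : PD z U) (h2 : PD z V) (h3 : PD z (U ∩ V)) : PD z (U ∪ V) := by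
  intro k K ζ a c hζ h
  obtain ⟨K₁, K₂, k1, k2, s1, s2, rfl⟩ := h.cpt.binary_compact_cover hU hV h.sub
  obtain ⟨τ₁, r1, a1⟩ := exists_rf (RPdM.bd_eq_zero hz hζ) k1.isClosed hU s1
  have z1 := RPdM.sub_bd hζ τ₁
  obtain ⟨τ₂, r2, a2⟩ := exists_rf (RPdM.bd_eq_zero hz z1) k2.isClosed hV s2
  have z2 := RPdM.sub_bd z1 τ₂
  obtain ⟨τ₃, r3, a3⟩ := exists_rf (RPdM.bd_eq_zero hz z2) (k1.inter k2).isClosed (hU.inter hV)
    (inter_subset_inter s1 s2)
  refine pd_of_move (z := z) (K := K₁) r1 (pd_of_move (z := z) (K := K₁) r2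
    (pd_of_move (z := z) (K := K₁) r3 ?_))
  exact RPdM.adapted hz hU hV h1 h2 h3 (RPdM.sub_bd z2 τ₃) k1 k2 s1 s2
    (((h.move r1).move r2).move r3) (r3.ad (r2.ad a1).2).2 (r3.ad a2).2 a3

end HW
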