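import Pool.Agent.P.MP_9699e0_gt.W.Cap

/-! Poincare duality: refinement of the fundamental chain and transport in the cone. -/

set_option autoImplicit false
set_option linter.unusedSectionVars false

noncomputable section

namespace HW

open HK3 Pool.Agent.P.MP_9699e0_gt Set Filter Topology

variable {X Y : Type} [TopologicalSpace X] [TopologicalSpace Y]

namespace RPdT

theorem ad_iff {n : ℕ} {K U : Set X} {ζ : Chn ℤ X n} :
    Ad K U ζ ↔ ∀ σ ∈ ζ.support, range σ ⊆ U ∨ range σ ⊆ Kᶜ := by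
  unfold Ad
  rw [← sml_two]
  exact Finsupp.mem_supported ℤ ζ

theorem tb_add (c d : TC X) : tb (c + d) = tb c + tb d :=
  funext fun j => map_add (bd ℤ X j) _ _

theorem tb_sub (c d : TC X) : tb (c - d) = tb c - tb d :=
  funext fun j => map_sub (bd ℤ X j) _ _

theorem tb_smul (m : ℤ) (c : TC X) : tb (m • c) = m • tb c :=
  funext fun j => map_smul (bd ℤ X j) m _

theorem tb_zero : tb (0 : TC X) = 0 := funext fun j => map_zero (bd ℤ X j)

theorem tc_add (k n : ℕ) (a : Simp X k → ℤ) (y y' : Chn ℤ X n) :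
    tc k n a (y + y') = tc k n a y + tc k n a y' :=
  funext fun j => map_add (cap k j n a) _ _

theorem tc_sub (k n : ℕ) (a : Simp X k → ℤ) (y y' : Chn ℤ X n) :
    tc k n a (y - y') = tc k n a y - tc k n a y' :=
  funext fun j => map_sub (cap k j n a) _ _

theorem tc_zero (k n : ℕ) (a : Simp X k → ℤ) : tc k n a 0 = 0 :=
  funext fun j => map_zero (cap k j n a)

theorem tc_add' (k n : ℕ) (a a' : Simp X k → ℤ) (y : Chn ℤ X n) :
    tc k n (a + a') y = tc k n a y + tc k n a' y :=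
  funext fun j => by
    change cap k j n (a + a') y = cap k j n a y + cap k j n a' y
    rw [cap_add, LinearMap.add_apply]

theorem tc_zero' (k n : ℕ) (y : Chn ℤ X n) : tc k n (0 : Simp X k → ℤ) y = 0 :=
  funext fun j => by
    change cap k j n 0 y = 0
    rw [cap_zero, LinearMap.zero_apply]

theorem in_tc {k n : ℕ} {K U : Set X} {a : Simp X k → ℤ} (ha : Van K a) {y : Chn ℤ X n}
    (hy : Ad K U y) : In U (tc k n a y) := fun _ => cap_mem ha hy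

theorem dg_tc (k n : ℕ) (a : Simp X k → ℤ) (y : Chn ℤ X n) : Dg k n (tc k n a y) := fun j hj => by
  change cap k j n a y = 0
  rw [cap_of_ne hj, LinearMap.zero_apply]

theorem cobd_zero' {n : ℕ} : cobd (0 : Simp X n → ℤ) = 0 := by
  have := cobd_zsmul (X := X) (n := n) 0 (0 : Simp X n → ℤ)
  simpa using this

end RPdT

open RPdT

theorem Ad.inter {n : ℕ} {K K' U U' : Set X} {ζ : Chn ℤ X n} (h : Ad K U ζ) (h' : Ad K' U' ζ) :
    Ad (K ∪ K') (U ∪ U') ζ := by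
  rw [ad_iff] at h h' ⊢
  intro σ hσ
  rcases h σ hσ with h1 | h1
  · exact Or.inl (h1.trans subset_union_left)
  rcases h' σ hσ with h2 | h2
  · exact Or.inl (h2.trans subset_union_right)
  right
  rw [compl_union]
  exact subset_inter h1 h2

theorem Ad.mono {n : ℕ} {K K' U U' : Set X} {ζ : Chn ℤ X n} (h : Ad K U ζ) (hK : K' ⊆ K)
    (hU : U ⊆ U') : Ad K' U' ζ := 
  (sup_le_sup (chn_mono hU n) (chn_mono (compl_subset_compl.2 hK) n) :
    chn ℤ U n ⊔ chn ℤ Kᶜ n ≤ chn ℤ U' n ⊔ chn ℤ K'ᶜ n) h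

theorem Rf.zero (ζ : Chn ℤ X 4) : Rf ζ 0 := fun _ _ _ => Submodule.zero_mem _

theorem Rf.ad {ζ : Chn ℤ X 4} {τ : Chn ℤ X 5} (h : Rf ζ τ) {K U : Set X} (h' : Ad K U ζ) :
    Ad K U τ ∧ Ad K U (ζ - bd ℤ X 4 τ) := by
  have h1 : Ad K U τ := h U Kᶜ h'
  refine ⟨h1, Submodule.sub_mem _ h' ?_⟩
  obtain ⟨u, hu, v, hv, rfl⟩ := Submodule.mem_sup.1 h1
  rw [map_add]
  exact Submodule.add_mem_sup (bd_mem hu) (bd_mem hv)

theorem Rf.add {ζ : Chn ℤ X 4} {τ τ' : Chn ℤ X 5} (h : Rf ζ τ) (h' : Rf (ζ - bd ℤ X 4 τ) τ') :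
    Rf ζ (τ + τ') := by
  intro S T hζ
  have h1 := h S T hζ
  refine Submodule.add_mem _ h1 (h' S T (Submodule.sub_mem _ hζ ?_))
  obtain ⟨u, hu, v, hv, rfl⟩ := Submodule.mem_sup.1 h1
  rw [map_add]
  exact Submodule.add_mem_sup (bd_mem hu) (bd_mem hv)

theorem exists_rf {ζ : Chn ℤ X 4} (hζ : bd ℤ X 3 ζ = 0) {K U : Set X} (hK : IsClosed K)
    (hU : IsOpen U) (h : K ⊆ U) : ∃ τ, Rf ζ τ ∧ Ad K U (ζ - bd ℤ X 4 τ) := by
  have hs : Small (fun _ σ => range σ ⊆ U ∨ range σ ⊆ Kᶜ) (univ : Set X) :=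
    small_two hU hK.isOpen_compl fun x _ => by
      by_cases hx : x ∈ K
      · exact Or.inl (h hx)
      · exact Or.inr hx
  obtain ⟨ρ, D, -, -, h3, h4, -, h6⟩ := hs.exists_retr (R := ℤ)
  refine ⟨D 4 ζ, fun S T hST => ?_, ?_⟩
  · obtain ⟨u, hu, v, hv, rfl⟩ := Submodule.mem_sup.1 hST
    rw [map_add]
    exact Submodule.add_mem_sup (h6 S 4 u hu).2 (h6 T 4 v hv).2
  · have e := h3 3 ζ
    rw [hζ, map_zero, add_zero] at e
    have e' : ζ - bd ℤ X 4 (D 4 ζ) = ρ 4 ζ := by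
      rw [e, sub_sub_cancel]
    rw [e']
    unfold Ad
    rw [← sml_two]
    exact h4 4 ζ (by rw [chn_univ]; trivial)

theorem CC.move {U K : Set X} {k : ℕ} {ζ : Chn ℤ X 4} {a : Simp X (k + 1) → ℤ} {c : TC X}
    (h : CC U K k ζ a c) {τ : Chn ℤ X 5} (hτ : Rf ζ τ) :
    CC U K k (ζ - bd ℤ X 4 τ) a (c + (-1 : ℤ) ^ k • tc (k + 1) 5 a τ) := by
  have h1 := hτ.ad h.ad
  refine ⟨h.cpt, h.sub, h1.2, h.van, h.coc, fun j => ?_, fun j hj => ?_, ?_⟩
  · exact Submodule.add_mem _ (h.mem j) (Submodule.smul_mem _ _ (in_tc h.van h1.1 j))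
  · change c j + (-1 : ℤ) ^ k • tc (k + 1) 5 a τ j = 0
    rw [h.dg j hj, dg_tc (k + 1) 5 a τ j (by omega), smul_zero, add_zero]
  · rw [tb_add, tb_smul, h.eq, tb_tc (k + 1) 4 a τ, h.coc, tc_zero', sub_zero, smul_smul,
      ← pow_add, tc_sub, (show Odd (k + (k + 1)) from ⟨k, by ring⟩).neg_one_pow, neg_one_smul,
      sub_eq_add_neg]

theorem CB.move {U : Set X} {k : ℕ} {ζ : Chn ℤ X 4} {a : Simp X (k + 1) → ℤ} {c : TC X}
    (h : CB U k ζ a c) {τ : Chn ℤ X 5} (hτ : Rf ζ τ) :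
    CB U k (ζ - bd ℤ X 4 τ) a (c + (-1 : ℤ) ^ k • tc (k + 1) 5 a τ) := by
  obtain ⟨K, b, d, h1, h2, h3, h4, h5, h6, h7, h8⟩ := h
  have h9 := hτ.ad h3
  refine ⟨K, b, d - tc k 5 b τ, h1, h2, h9.2, h4, h5, fun j => ?_, fun j hj => ?_, ?_⟩
  · exact Submodule.sub_mem _ (h6 j) (in_tc h4 h9.1 j)
  · change d j - tc k 5 b τ j = 0
    rw [h7 j hj, dg_tc k 5 b τ j hj, sub_zero]
  · rw [tb_sub, ← h8, tb_tc k 4 b τ, ← h5, tc_sub, smul_sub, smul_sub]
    abel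

theorem CB.mono {U U' : Set X} {k : ℕ} {ζ : Chn ℤ X 4} {a : Simp X (k + 1) → ℤ} {c : TC X}
    (h : CB U k ζ a c) (hU : U ⊆ U') : CB U' k ζ a c := by
  obtain ⟨K, b, d, h1, h2, h3, h4, h5, h6, h7, h8⟩ := h
  exact ⟨K, b, d, h1, h2.trans hU, h3.mono Subset.rfl hU, h4, h5,
    fun j => chn_mono hU j (h6 j), h7, h8⟩

theorem CB.add {U : Set X} {k : ℕ} {ζ : Chn ℤ X 4} {a a' : Simp X (k + 1) → ℤ} {c c' : TC X}
    (h : CB U k ζ a c) (h' : CB U k ζ a' c') : CB U k ζ (a + a') (c + c') := by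
  obtain ⟨K, b, d, h1, h2, h3, h4, h5, h6, h7, h8⟩ := h
  obtain ⟨K', b', d', g1, g2, g3, g4, g5, g6, g7, g8⟩ := h'
  refine ⟨K ∪ K', b + b', d + d', h1.union g1, union_subset h2 g2,
    (h3.inter g3).mono Subset.rfl (union_self U).subset, fun σ hσ => ?_, ?_,
    fun j => Submodule.add_mem _ (h6 j) (g6 j), fun j hj => ?_, ?_⟩
  · rw [compl_union] at hσ
    rw [Pi.add_apply, h4 σ (hσ.trans inter_subset_left), g4 σ (hσ.trans inter_subset_right),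
      add_zero]
  · rw [cobd_add, ← h5, ← g5]
  · rw [Pi.add_apply, h7 j hj, g7 j hj, add_zero]
  · rw [tb_add, ← h8, ← g8, tc_add', smul_add]
    abel

theorem CB.add_tb {U : Set X} {k : ℕ} {ζ : Chn ℤ X 4} {a : Simp X (k + 1) → ℤ} {c d : TC X}
    (h : CB U k ζ a c) (hd : In U d) (hg : Dg k 5 d) : CB U k ζ a (c + tb d) := by
  obtain ⟨K, b, d', h1, h2, h3, h4, h5, h6, h7, h8⟩ := h
  refine ⟨K, b, d' + d, h1, h2, h3, h4, h5, fun j => Submodule.add_mem _ (h6 j) (hd j),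
    fun j hj => ?_, ?_⟩
  · rw [Pi.add_apply, h7 j hj, hg j hj, add_zero]
  · rw [tb_add, ← h8]
    abel

theorem pd_of_move {z : Chn ℤ X 4} {U K : Set X} {k : ℕ} {ζ : Chn ℤ X 4}
    {a : Simp X (k + 1) → ℤ} {c : TC X} {τ : Chn ℤ X 5} (hτ : Rf ζ τ)
    (h : ∃ τ', Rf (ζ - bd ℤ X 4 τ) τ' ∧ CB U k (ζ - bd ℤ X 4 τ - bd ℤ X 4 τ') a
      (c + (-1 : ℤ) ^ k • tc (k + 1) 5 a τ + (-1 : ℤ) ^ k • tc (k + 1) 5 a τ')) :
    ∃ τ', Rf ζ τ' ∧ CB U k (ζ - bd ℤ X 4 τ') a (c + (-1 : ℤ) ^ k • tc (k + 1) 5 a τ') := by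
  obtain ⟨τ', h1, h2⟩ := h
  refine ⟨τ + τ', hτ.add h1, ?_⟩
  rwa [map_add, ← _root_.sub_sub, tc_add, smul_add, ← add_assoc]

theorem pd_empty (z : Chn ℤ X 4) : PD z ∅ := by
  intro k K ζ a c _ h
  have hK : K = ∅ := subset_empty_iff.1 h.sub
  subst hK
  have ha : a = 0 := funext fun σ => h.van σ (by simp)
  have hc : c = 0 := funext fun j => by
    have := h.mem j
    rwa [chn_empty, Submodule.mem_bot] at this
  refine ⟨0, Rf.zero ζ, ∅, 0, 0, isCompact_empty, Subset.rfl, ?_, fun _ _ => rfl, ?_,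
    fun j => Submodule.zero_mem _, fun _ _ => rfl, ?_⟩
  · refine Submodule.mem_sup_right ?_
    rw [compl_empty, chn_univ]
    trivial
  · rw [ha, cobd_zero']
  · rw [hc, tc_zero, tc_zero', smul_zero, add_zero, add_zero, tb_zero]

theorem pd_dir {z : Chn ℤ X 4} {U : Set X}
    (h : ∀ K, IsCompact K → K ⊆ U → ∃ U', K ⊆ U' ∧ U' ⊆ U ∧ PD z U') : PD z U := by
  intro k K ζ a c hz hc
  obtain ⟨u, hu, v, hv, huv⟩ := Submodule.mem_sup.1 hc.ad
  obtain ⟨K1, hK1, hK1U, hu1⟩ := exists_compact hu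
  obtain ⟨K2, hK2, hK2U, hc2⟩ := exists_compact (hc.mem (4 - k))
  obtain ⟨U', h1, h2, h3⟩ := h (K ∪ K1 ∪ K2) ((hc.cpt.union hK1).union hK2)
    (union_subset (union_subset hc.sub hK1U) hK2U)
  have hK : K ⊆ U' := (subset_union_left.trans subset_union_left).trans h1
  have hA : K1 ⊆ U' := (subset_union_right.trans subset_union_left).trans h1
  have hB : K2 ⊆ U' := subset_union_right.trans h1
  have hcc : CC U' K k ζ a c := by
    refine ⟨hc.cpt, hK, ?_, hc.van, hc.coc, fun j => ?_, hc.dg, hc.eq⟩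
    · rw [← huv]
      exact Submodule.add_mem_sup (chn_mono hA 4 hu1) hv
    · by_cases hj : k + j = 4
      · obtain rfl : j = 4 - k := by omega
        exact chn_mono hB _ hc2
      · rw [hc.dg j hj]
        exact Submodule.zero_mem _
  obtain ⟨τ, h4, h5⟩ := h3 k K ζ a c hz hcc
  exact ⟨τ, h4, h5.mono h2⟩

end HW
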