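import Pool.Agent.P.MP_9699e0_gt.W.QDefs
import Pool.Agent.P.MP_9699e0_gt.W.Gen

/-! The Milnor fibre deforms onto the join of the roots of unity. -/

set_option autoImplicit false
set_option linter.unusedSectionVars false

noncomputable section

namespace HW

open HK3 Pool.Agent.P.MP_9699e0_gt Set Filter Topology

namespace RPhA

/-- A deformation of `S` into `J` that preserves `J`. -/
structure Dr {X : Type} [TopologicalSpace X] (S J : Set X) (H : ℝ → X → X) : Prop where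
  sub : J ⊆ S
  cont : ContinuousOn (fun p : ℝ × X => H p.1 p.2) (Icc 0 1 ×ˢ univ)
  zero : ∀ x, H 0 x = x
  mem : ∀ t ∈ Icc (0 : ℝ) 1, ∀ x ∈ S, H t x ∈ S
  mem' : ∀ t ∈ Icc (0 : ℝ) 1, ∀ x ∈ J, H t x ∈ J
  one : ∀ x ∈ S, H 1 x ∈ J

variable {X : Type} [TopologicalSpace X] {S J : Set X} {H : ℝ → X → X}

theorem Dr.cont_one (h : Dr S J H) : Continuous (H 1) :=
  h.cont.comp_continuous (continuous_const.prodMk continuous_id)
    fun _ => ⟨right_mem_Icc.2 zero_le_one, mem_univ _⟩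

theorem Dr.cyc_le (h : Dr S J H) (n : ℕ) : cyc ℤ S n ≤ cyc ℤ J n ⊔ bdy ℤ S n := by
  intro c hc
  have h1 := htpy_cyc H (h.cont.mono (prod_mono_right (subset_univ S))) h.mem hc
  rw [show H 0 = id from funext h.zero, cmap_id] at h1
  simpa using sub_mem (Submodule.mem_sup_left (cmap_cyc h.cont_one.continuousOn h.one hc))
    (Submodule.mem_sup_right h1)

theorem Dr.hty (h : Dr S J H) {A : Set X} (hA : ∀ t ∈ Icc (0 : ℝ) 1, ∀ x ∈ A, H t x ∈ A)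
    {f : C(A, A)} (hf : ∀ x, (f x : X) = H 1 x) : f.Homotopic (.id A) := by
  refine ContinuousMap.Homotopic.symm ⟨⟨⟨fun p => ⟨H p.1 p.2, hA _ p.1.2 _ p.2.2⟩,
    Continuous.subtype_mk ?_ _⟩, fun x => Subtype.ext (h.zero x),
    fun x => Subtype.ext (hf x).symm⟩⟩
  exact h.cont.comp_continuous (f := fun p : unitInterval × A => ((p.1 : ℝ), (p.2 : X)))
    (by fun_prop) fun p => ⟨p.1.2, mem_univ _⟩

theorem Dr.sc (h : Dr S J H) (hJ : IsSimplyConnected J) : IsSimplyConnected S := by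
  let e : ContinuousMap.HomotopyEquiv J S :=
    { toFun := ⟨inclusion h.sub, continuous_inclusion _⟩
      invFun := ⟨fun x => ⟨H 1 x, h.one x x.2⟩,
        (h.cont_one.comp continuous_subtype_val).subtype_mk _⟩
      left_inv := h.hty h.mem' fun _ => rfl
      right_inv := h.hty h.mem fun _ => rfl }
  exact e.simplyConnectedSpace_iff.1 hJ

theorem Dr.pc (h : Dr S J H) (hJ : IsPathConnected J) : IsPathConnected S := by
  obtain ⟨b, hb, hj⟩ := hJ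
  refine ⟨b, h.sub hb, fun x hx => ((hj (h.one x hx)).mono h.sub).trans (JoinedIn.symm ?_)⟩
  refine JoinedIn.ofLine (f := fun t => H t x) ?_ (h.zero x) rfl ?_
  · exact h.cont.comp (continuous_id.prodMk continuous_const).continuousOn
      fun t ht => ⟨ht, mem_univ _⟩
  · rintro _ ⟨t, ht, rfl⟩
    exact h.mem t ht x hx

theorem pos_of_ne {x : ℂ} (h : 0 ≤ (x ^ 4).re ∧ (x ^ 4).im = 0) (h0 : x ≠ 0) : 0 < (x ^ 4).re :=
  h.1.lt_of_ne fun e => pow_ne_zero 4 h0 (Complex.ext e.symm h.2)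

theorem parts {t : ℝ} {x y : ℂ} (h : y ^ 4 = (1 - t) * x ^ 4 + t * (max (x ^ 4).re 0 : ℝ)) :
    (y ^ 4).re = (1 - t) * (x ^ 4).re + t * max (x ^ 4).re 0 ∧
      (y ^ 4).im = (1 - t) * (x ^ 4).im := by
  rw [h]
  generalize x ^ 4 = w
  generalize max w.re 0 = m
  simp

theorem pos_mix {t r m : ℝ} (ht : t ∈ Icc (0 : ℝ) 1) (hr : 0 < r) (hm : r ≤ m) :
    0 < (1 - t) * r + t * m := by
  nlinarith [mul_nonneg ht.1 (sub_nonneg.2 hm)]

end RPhA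

open RPhA

theorem mem_X4 {x : ℂ} : x ∈ X4 ↔ 0 ≤ (x ^ 4).re ∧ (x ^ 4).im = 0 := by
  have e1 : (x ^ 4).re = (x.re ^ 2 - x.im ^ 2) ^ 2 - 4 * (x.re * x.im) ^ 2 := by
    simp only [pow_succ, pow_zero, one_mul, Complex.mul_re, Complex.mul_im]
    ring
  have e2 : (x ^ 4).im = 4 * (x.re * x.im) * (x.re ^ 2 - x.im ^ 2) := by
    simp only [pow_succ, pow_zero, one_mul, Complex.mul_re, Complex.mul_im]
    ring
  rw [e1, e2, X4, mem_ofPred_eq, ← mul_eq_zero]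
  constructor
  · intro h
    rw [h]
    exact ⟨by nlinarith [sq_nonneg (x.re ^ 2 - x.im ^ 2)], by ring⟩
  · rintro ⟨h1, h2⟩
    rcases mul_eq_zero.1 h2 with h | h
    · linarith
    · rw [h] at h1
      exact pow_eq_zero_iff two_ne_zero |>.1 (by nlinarith [sq_nonneg (x.re * x.im)])

theorem mem_J2 {p : ℂ × ℂ} : p ∈ J2 ↔ p.1 ∈ X4 ∧ p.2 ∈ X4 ∧ p ≠ 0 := by
  refine and_congr_right fun _ => and_congr_left fun _ => ⟨?_, fun h => ?_⟩
  · rintro (h | h)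
    · exact h.1
    · exact h ▸ .inl rfl
  · exact (em (p.2 = 0)).symm.imp_left fun h' => ⟨h, h'⟩

theorem mem_J3 {p : ℂ × ℂ × ℂ} : p ∈ J3 ↔ p.1 ∈ X4 ∧ p.2.1 ∈ X4 ∧ p.2.2 ∈ X4 ∧ p ≠ 0 := by
  refine and_congr_right fun _ => ?_
  rw [← and_assoc]
  refine and_congr_left fun _ => ⟨?_, fun h => ?_⟩
  · rintro (h | h)
    · exact ⟨(mem_J2.1 h).1, (mem_J2.1 h).2.1⟩
    · rw [h]
      exact ⟨.inl rfl, .inl rfl⟩
  · exact (em (p.2 = 0)).symm.imp_left fun h' => mem_J2.2 ⟨h.1, h.2, h'⟩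

theorem J2_sub : J2 ⊆ S2 := by
  rintro ⟨x, y⟩ hp
  obtain ⟨h1, h2, h0⟩ := mem_J2.1 hp
  rw [mem_X4] at h1 h2
  refine ⟨?_, by rw [Complex.add_im, h1.2, h2.2, add_zero]⟩
  rw [Complex.add_re]
  by_cases hx : x = 0
  · linarith [h1.1, pos_of_ne h2 fun hy => h0 (Prod.ext hx hy)]
  · linarith [h2.1, pos_of_ne h1 hx]

theorem J3_sub : J3 ⊆ S3 := by
  rintro ⟨x, y, z⟩ hp
  obtain ⟨h1, h2, h3, h0⟩ := mem_J3.1 hp
  rw [mem_X4] at h1 h2 h3
  refine ⟨?_, by rw [s3, Complex.add_im, Complex.add_im, h1.2, h2.2, h3.2, add_zero, add_zero]⟩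
  rw [s3, Complex.add_re, Complex.add_re]
  by_cases hx : x = 0
  · by_cases hy : y = 0
    · linarith [h1.1, h2.1, pos_of_ne h3 fun hz => h0 (Prod.ext hx (Prod.ext hy hz))]
    · linarith [h1.1, h3.1, pos_of_ne h2 hy]
  · linarith [h2.1, h3.1, pos_of_ne h1 hx]

theorem T3_sub : T3 ⊆ J3 := by
  have h : Q4 ⊆ X4 := fun x hx => hx.symm.imp And.left And.right
  exact fun p hp => mem_J3.2 ⟨h hp.1, h hp.2.1, h hp.2.2.1, hp.2.2.2⟩

theorem exists_rho : ∃ ρ : ℝ → ℂ → ℂ,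
    ContinuousOn (fun p : ℝ × ℂ => ρ p.1 p.2) (Icc 0 1 ×ˢ univ) ∧ (∀ x, ρ 0 x = x) ∧
      ∀ t ∈ Icc (0 : ℝ) 1, ∀ x, ρ t x ^ 4 = (1 - t) * x ^ 4 + t * (max (x ^ 4).re 0 : ℝ) := by
  set b : ℝ × ℂ → ℂ := fun p => 1 - p.1 + p.1 * ((max (p.2 ^ 4).re 0 : ℝ) / p.2 ^ 4) with hb
  have h4 : ∀ (t : ℝ) (x : ℂ), (x * b (t, x) ^ ((4 : ℕ) : ℂ)⁻¹) ^ 4 =
      (1 - t) * x ^ 4 + t * (max (x ^ 4).re 0 : ℝ) := by
    intro t x
    rw [mul_pow, Complex.cpow_nat_inv_pow _ (by norm_num)]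
    by_cases hx : x = 0
    · simp [hx]
    · simp only [hb]
      field_simp
  refine ⟨fun t x => x * b (t, x) ^ ((4 : ℕ) : ℂ)⁻¹, ?_, fun x => by simp [hb],
    fun t _ x => h4 t x⟩
  rintro ⟨t, x⟩ ⟨ht, -⟩
  by_cases hx : x = 0
  · subst hx
    simp only [ContinuousWithinAt, zero_mul]
    refine squeeze_zero_norm' (a := fun p : ℝ × ℂ => ‖p.2‖) ?_ ?_
    · filter_upwards [self_mem_nhdsWithin] with p hp
      refine le_of_pow_le_pow_left₀ four_ne_zero (norm_nonneg _) ?_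
      rw [← norm_pow, h4, ← norm_pow]
      refine (norm_add_le _ _).trans ?_
      have h1 : max (p.2 ^ 4).re 0 ≤ ‖p.2 ^ 4‖ := max_le (Complex.re_le_norm _) (norm_nonneg _)
      rw [norm_mul, norm_mul, ← Complex.ofReal_one, ← Complex.ofReal_sub, Complex.norm_real,
        Complex.norm_real, Complex.norm_real, Real.norm_of_nonneg (sub_nonneg.2 hp.1.2),
        Real.norm_of_nonneg hp.1.1, Real.norm_of_nonneg (le_max_right _ _)]
      nlinarith [mul_le_mul_of_nonneg_left h1 hp.1.1]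
    · have : Continuous fun p : ℝ × ℂ => ‖p.2‖ := by fun_prop
      simpa using (this.tendsto (t, 0)).mono_left nhdsWithin_le_nhds
  · have h1 : ContinuousAt b (t, x) := by
      have : x ^ 4 ≠ 0 := pow_ne_zero 4 hx
      simp only [hb]
      fun_prop (disch := exact this)
    have h2 : 0 ≤ (b (t, x)).re := by
      have h3 : 0 ≤ max (x ^ 4).re 0 * (x ^ 4).re := by
        rcases le_total (x ^ 4).re 0 with h | h
        · rw [max_eq_right h, zero_mul]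
        · rw [max_eq_left h]
          exact mul_self_nonneg _
      simp only [hb, Complex.add_re, Complex.sub_re, Complex.one_re, Complex.ofReal_re,
        Complex.re_ofReal_mul, Complex.div_re, Complex.ofReal_im, zero_mul, zero_div, add_zero]
      exact add_nonneg (sub_nonneg.2 ht.2)
        (mul_nonneg ht.1 (div_nonneg h3 (Complex.normSq_nonneg _)))
    exact (continuousAt_snd.mul (ContinuousAt.comp (f := b) (g := fun z : ℂ => z ^ ((4 : ℕ) : ℂ)⁻¹)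
      (Complex.continuousAt_cpow_const_of_re_pos (.inl h2) (by norm_num)) h1)).continuousWithinAt

namespace RPhA

theorem rho_X4 {t : ℝ} (ht : t ∈ Icc (0 : ℝ) 1) {x y : ℂ} (hx : t = 1 ∨ x ∈ X4)
    (h : y ^ 4 = (1 - t) * x ^ 4 + t * (max (x ^ 4).re 0 : ℝ)) : y ∈ X4 := by
  rw [mem_X4, (parts h).1, (parts h).2]
  rcases hx with rfl | hx
  · simp
  · rw [(mem_X4.1 hx).2, mul_zero]
    exact ⟨add_nonneg (mul_nonneg (sub_nonneg.2 ht.2) (mem_X4.1 hx).1)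
      (mul_nonneg ht.1 (le_max_right _ _)), rfl⟩

theorem cont_coord {X : Type} [TopologicalSpace X] {ρ : ℝ → ℂ → ℂ}
    (h : ContinuousOn (fun p : ℝ × ℂ => ρ p.1 p.2) (Icc 0 1 ×ˢ univ)) {f : X → ℂ}
    (hf : Continuous f) : ContinuousOn (fun p : ℝ × X => ρ p.1 (f p.2)) (Icc 0 1 ×ˢ univ) :=
  h.comp (f := fun p : ℝ × X => (p.1, f p.2)) (by fun_prop) fun _ hp => ⟨hp.1, mem_univ _⟩

theorem dr_two : ∃ H, Dr S2 J2 H := by
  obtain ⟨ρ, hc, h0, h4⟩ := exists_rho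
  have h1 : (1 : ℝ) ∈ Icc (0 : ℝ) 1 := right_mem_Icc.2 zero_le_one
  have hS : ∀ t ∈ Icc (0 : ℝ) 1, ∀ p ∈ S2, (ρ t p.1, ρ t p.2) ∈ S2 := by
    rintro t ht ⟨x, y⟩ ⟨hr, hi⟩
    obtain ⟨a1, a2⟩ := parts (h4 t ht x)
    obtain ⟨b1, b2⟩ := parts (h4 t ht y)
    simp only [S2, mem_ofPred_eq, Complex.add_re, Complex.add_im] at hr hi ⊢
    refine ⟨?_, by rw [a2, b2, ← mul_add, hi, mul_zero]⟩
    linarith [pos_mix ht hr (add_le_add (le_max_left _ 0) (le_max_left _ 0))]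
  have hn : ∀ p ∈ S2, p ≠ 0 := by
    rintro _ hp rfl
    simpa using hp.1
  exact ⟨fun t p => (ρ t p.1, ρ t p.2), J2_sub,
    (cont_coord hc continuous_fst).prodMk (cont_coord hc continuous_snd),
    fun p => Prod.ext (h0 _) (h0 _), hS, fun t ht p hp => mem_J2.2
      ⟨rho_X4 ht (.inr (mem_J2.1 hp).1) (h4 t ht _), rho_X4 ht (.inr (mem_J2.1 hp).2.1) (h4 t ht _),
        hn _ (hS t ht p (J2_sub hp))⟩,
    fun p hp => mem_J2.2 ⟨rho_X4 h1 (.inl rfl) (h4 1 h1 _), rho_X4 h1 (.inl rfl) (h4 1 h1 _),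
      hn _ (hS 1 h1 p hp)⟩⟩

theorem dr_three : ∃ H, Dr S3 J3 H := by
  obtain ⟨ρ, hc, h0, h4⟩ := exists_rho
  have h1 : (1 : ℝ) ∈ Icc (0 : ℝ) 1 := right_mem_Icc.2 zero_le_one
  have hS : ∀ t ∈ Icc (0 : ℝ) 1, ∀ p ∈ S3, (ρ t p.1, ρ t p.2.1, ρ t p.2.2) ∈ S3 := by
    rintro t ht ⟨x, y, z⟩ ⟨hr, hi⟩
    obtain ⟨a1, a2⟩ := parts (h4 t ht x)
    obtain ⟨b1, b2⟩ := parts (h4 t ht y)
    obtain ⟨c1, c2⟩ := parts (h4 t ht z)
    simp only [S3, s3, mem_ofPred_eq, Complex.add_re, Complex.add_im] at hr hi ⊢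
    refine ⟨?_, by rw [a2, b2, c2, ← mul_add, ← mul_add, hi, mul_zero]⟩
    linarith [pos_mix ht hr (add_le_add (add_le_add (le_max_left _ 0) (le_max_left _ 0))
      (le_max_left _ 0))]
  have hn : ∀ p ∈ S3, p ≠ 0 := by
    rintro _ hp rfl
    simpa [s3] using hp.1
  exact ⟨fun t p => (ρ t p.1, ρ t p.2.1, ρ t p.2.2), J3_sub,
    (cont_coord hc continuous_fst).prodMk ((cont_coord hc continuous_snd.fst).prodMk
      (cont_coord hc continuous_snd.snd)),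
    fun p => Prod.ext (h0 _) (Prod.ext (h0 _) (h0 _)), hS, fun t ht p hp => mem_J3.2
      ⟨rho_X4 ht (.inr (mem_J3.1 hp).1) (h4 t ht _), rho_X4 ht (.inr (mem_J3.1 hp).2.1) (h4 t ht _),
        rho_X4 ht (.inr (mem_J3.1 hp).2.2.1) (h4 t ht _), hn _ (hS t ht p (J3_sub hp))⟩,
    fun p hp => mem_J3.2 ⟨rho_X4 h1 (.inl rfl) (h4 1 h1 _), rho_X4 h1 (.inl rfl) (h4 1 h1 _),
      rho_X4 h1 (.inl rfl) (h4 1 h1 _), hn _ (hS 1 h1 p hp)⟩⟩

end RPhA

theorem cyc_S3 (n : ℕ) : cyc ℤ S3 n ≤ cyc ℤ J3 n ⊔ bdy ℤ S3 n :=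
  dr_three.elim fun _ h => h.cyc_le n

theorem sc_S3 (h : IsSimplyConnected J3) : IsSimplyConnected S3 :=
  dr_three.elim fun _ h' => h'.sc h

theorem pc_S2 (h : IsPathConnected J2) : IsPathConnected S2 :=
  dr_two.elim fun _ h' => h'.pc h

end HW
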