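import Pool.Agent.P.MP_9699e0_gt.W.QA
import Pool.Agent.P.MP_9699e0_gt.W.Gen

/-! Geometry of the join with four half lines. -/

set_option autoImplicit false
set_option linter.unusedSectionVars false

noncomputable section

namespace HW

open HK3 Pool.Agent.P.MP_9699e0_gt Set Filter Topology

variable {V : Type} [NormedAddCommGroup V] [NormedSpace ℝ V] {A : Set V} {n : ℕ}

namespace RPhB

theorem cases4 (m : Fin 4) : m = 0 ∨ m = 1 ∨ m = 2 ∨ m = 3 := by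
  revert m
  decide

theorem re_same (k : Fin 4) (s : ℝ) : (iz (-k) * (s * iz k)).re = s := by
  rw [mul_left_comm, iz_neg, mul_one, Complex.ofReal_re]

theorem re_other {k m : Fin 4} (h : m ≠ k) {s : ℝ} (hs : 0 ≤ s) :
    (iz (-k) * (s * iz m)).re ≤ 0 := by
  rw [mul_left_comm, ← iz_add]
  have h1 : -k + m ≠ 0 := fun e => h (neg_add_eq_zero.1 e).symm
  rcases cases4 (-k + m) with e | e | e | e
  · exact absurd e h1
  · simp [e, iz_one]
  · simpa [e, iz_two] using hs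
  · simp [e, iz_three]

theorem X4_mul {x : ℂ} (h : x ∈ X4) (k : Fin 4) : iz k * x ∈ X4 := by
  rcases cases4 k with rfl | rfl | rfl | rfl
  · rwa [iz_zero, one_mul]
  · rcases h with h | h
    · exact .inr (by simp [iz_one, h])
    · exact .inl (by simp [iz_one, h])
  · rcases h with h | h
    · exact .inl (by simp [iz_two, h])
    · exact .inr (by simp [iz_two, h])
  · rcases h with h | h
    · exact .inr (by simp [iz_three, h])
    · exact .inl (by simp [iz_three, h])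

theorem X4_smul {x : ℂ} (h : x ∈ X4) (t : ℝ) : t • x ∈ X4 :=
  h.imp (fun h => by simp [h]) fun h => by simp [h]

theorem cone_or (hA : Cone A) {t : ℝ} (ht : 0 ≤ t) {y : V} (hy : y ∈ A ∨ y = 0) :
    t • y ∈ A ∨ t • y = 0 := by
  rcases ht.eq_or_lt with rfl | h
  · exact .inr (zero_smul _ _)
  · exact hy.imp (hA.2 t h y) fun e => by rw [e, smul_zero]

end RPhB

open RPhB

theorem X4_polar {x : ℂ} : x ∈ X4 ↔ ∃ (s : ℝ) (m : Fin 4), 0 ≤ s ∧ x = s * iz m := by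
  constructor
  · rintro (h | h)
    · rcases le_total 0 x.im with h1 | h1
      · exact ⟨x.im, 1, h1, Complex.ext (by simp [iz_one, h]) (by simp [iz_one])⟩
      · exact ⟨-x.im, 3, neg_nonneg.2 h1, Complex.ext (by simp [iz_three, h]) (by simp [iz_three])⟩
    · rcases le_total 0 x.re with h1 | h1
      · exact ⟨x.re, 0, h1, Complex.ext (by simp [iz_zero]) (by simp [iz_zero, h])⟩
      · exact ⟨-x.re, 2, neg_nonneg.2 h1, Complex.ext (by simp [iz_two]) (by simp [iz_two, h])⟩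
  · rintro ⟨s, m, -, rfl⟩
    rw [mul_comm]
    exact X4_mul (.inr (Complex.ofReal_im s)) m

theorem cone_J1 : Cone J1 :=
  ⟨fun h => h.2 rfl, fun t ht _ hy => ⟨X4_smul hy.1 t, smul_ne_zero ht.ne' hy.2⟩⟩

theorem cone_jn (hA : Cone A) : Cone (jn A) :=
  ⟨fun h => h.2.2 rfl, fun t ht _ hp =>
    ⟨X4_smul hp.1 t, cone_or hA ht.le hp.2.1, smul_ne_zero ht.ne' hp.2.2⟩⟩

theorem cn_sub (A : Set V) : cn A ⊆ jn A := fun _ hp => ⟨.inr hp.1.2, hp.2⟩

theorem cn_mono {A' : Set V} (h : A ⊆ A') : cn A ⊆ cn A' :=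
  fun _ hp => ⟨hp.1, hp.2.1.imp_left fun e => h e, hp.2.2⟩

theorem mk_maps (hA : Cone A) : MapsTo (Prod.mk (0 : ℂ)) A (cn A) :=
  fun y hy => ⟨⟨le_rfl, rfl⟩, .inl hy, fun e => hA.1 (by
    rwa [show y = 0 from congrArg Prod.snd e] at hy)⟩

theorem star_cn (hA : Cone A) : StarConvex ℝ (((1 : ℂ), (0 : V)) : ℂ × V) (cn A) := by
  rintro ⟨x, y⟩ ⟨⟨h1, h2⟩, h3, h4⟩ a b ha hb hab
  have e : a • (((1 : ℂ), (0 : V)) : ℂ × V) + b • (x, y) = ((a : ℂ) + b * x, b • y) := by simp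
  rw [e]
  refine ⟨⟨?_, ?_⟩, cone_or hA hb h3, fun h5 => ?_⟩
  · simpa using add_nonneg ha (mul_nonneg hb h1)
  · simpa using .inr h2
  · have h6 : a + b * x.re = 0 := by simpa using congrArg (fun p : ℂ × V => p.1.re) h5
    have h7 : a = 0 := by nlinarith [mul_nonneg hb h1]
    have h8 : b = 1 := by linarith
    rw [h7, h8] at h5
    exact h4 (by simpa using h5)

theorem continuous_r1 (k : Fin 4) : Continuous (r1 (V := V) k) :=
  (continuous_const.mul continuous_fst).prodMk continuous_snd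

theorem r1_maps (A : Set V) (k : Fin 4) : MapsTo (r1 k) (jn A) (jn A) := fun p hp =>
  ⟨X4_mul hp.1 k, hp.2.1, fun e => hp.2.2 (Prod.ext
    ((mul_eq_zero.1 (congrArg Prod.fst e)).resolve_left (iz_ne k))
    (congrArg Prod.snd e : (r1 k p).2 = 0))⟩

theorem r1_maps_Uk (A : Set V) (k : Fin 4) : MapsTo (r1 k) (cn A) (jn A ∩ Uk V k) := by
  refine fun p hp => ⟨r1_maps A k (cn_sub A hp), ?_⟩
  by_cases h : p.2 = 0
  · refine .inr ?_
    change 0 < (iz (-k) * (iz k * p.1)).re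
    rw [← mul_assoc, iz_neg, one_mul]
    exact hp.1.1.lt_of_ne fun e => hp.2.2 (Prod.ext (Complex.ext e.symm hp.1.2) h)
  · exact .inl h

theorem isOpen_Uk (k : Fin 4) : IsOpen (Uk V k) :=
  (isOpen_ne_fun continuous_snd continuous_const).union (isOpen_lt continuous_const
    (Complex.continuous_re.comp (continuous_const.mul continuous_fst)))

theorem exists_Uk {p : ℂ × V} (hp : p ∈ jn A) : ∃ k, p ∈ Uk V k := by
  obtain ⟨s, m, hs, e⟩ := X4_polar.1 hp.1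
  refine ⟨m, ?_⟩
  by_cases h : p.2 = 0
  · refine .inr ?_
    rw [e, re_same]
    refine hs.lt_of_ne fun h1 => hp.2.2 (Prod.ext ?_ h)
    rw [e, ← h1]
    simp
  · exact .inl h

theorem Uk_inter {k l : Fin 4} (h : k ≠ l) {p : ℂ × V} (hp : p ∈ jn A) (hk : p ∈ Uk V k)
    (hl : p ∈ Uk V l) : p.2 ≠ 0 := by
  obtain ⟨s, m, hs, e⟩ := X4_polar.1 hp.1
  intro h0
  have h1 : ∀ j, p ∈ Uk V j → m = j := fun j hj => by
    by_contra h2
    have h3 := hj.resolve_left fun h4 => h4 h0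
    rw [e] at h3
    exact h3.not_ge (re_other h2 hs)
  exact h ((h1 k hk).symm.trans (h1 l hl))

namespace RPhB

theorem mem_of {k m : Fin 4} {s : ℝ} (hs : 0 ≤ s) {y : V} (hy : y ∈ A ∨ y = 0)
    (h : y ≠ 0 ∨ m = k ∧ 0 < s) : (((s : ℂ) * iz m, y) : ℂ × V) ∈ jn A ∩ Uk V k := by
  refine ⟨⟨X4_polar.2 ⟨s, m, hs, rfl⟩, hy, fun e => ?_⟩, ?_⟩
  · rcases h with h | h
    · exact h (congrArg Prod.snd e)
    · exact mul_ne_zero (Complex.ofReal_ne_zero.2 h.2.ne') (iz_ne m) (congrArg Prod.fst e)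
  · rcases h with h | ⟨rfl, h⟩
    · exact .inl h
    · exact .inr (by rwa [re_same])

theorem of_mem {k : Fin 4} {x : ℂ} {y : V} (h : (x, y) ∈ jn A ∩ Uk V k) :
    ∃ (s : ℝ) (m : Fin 4), 0 ≤ s ∧ x = s * iz m ∧ (y ∈ A ∨ y = 0) ∧ (y ≠ 0 ∨ m = k ∧ 0 < s) := by
  obtain ⟨s, m, hs, rfl⟩ : ∃ (s : ℝ) (m : Fin 4), 0 ≤ s ∧ x = s * iz m := X4_polar.1 h.1.1
  refine ⟨s, m, hs, rfl, h.1.2.1, h.2.imp_right fun h1 => ?_⟩
  by_cases e : m = k
  · subst e
    exact ⟨rfl, by rwa [re_same] at h1⟩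
  · exact absurd h1 (re_other e hs).not_gt

/-- The first deformation. -/
def G₁ (k : Fin 4) (t : ℝ) (p : ℂ × V) : ℂ × V :=
  ((1 - t : ℝ) * p.1 + (t * max (iz (-k) * p.1).re 0 : ℝ) * iz k, p.2)

/-- The second deformation. -/
def G₂ (k : Fin 4) (t : ℝ) (p : ℂ × V) : ℂ × V := (1 - t) • p + t • (iz k, 0)

theorem G₁_same (k : Fin 4) (t : ℝ) {s : ℝ} (hs : 0 ≤ s) (y : V) :
    G₁ k t ((s : ℂ) * iz k, y) = ((s : ℂ) * iz k, y) := by
  refine Prod.ext ?_ rfl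
  simp only [G₁, re_same, max_eq_left hs]
  push_cast
  ring

theorem G₁_other {k m : Fin 4} (h : m ≠ k) (t : ℝ) {s : ℝ} (hs : 0 ≤ s) (y : V) :
    G₁ k t ((s : ℂ) * iz m, y) = ((((1 - t) * s : ℝ) : ℂ) * iz m, y) := by
  refine Prod.ext ?_ rfl
  simp only [G₁, max_eq_right (re_other h hs)]
  push_cast
  ring

theorem G₂_eq (k : Fin 4) (t s : ℝ) (y : V) :
    G₂ k t ((s : ℂ) * iz k, y) = ((((1 - t) * s + t : ℝ) : ℂ) * iz k, (1 - t) • y) := by
  refine Prod.ext ?_ (by simp [G₂])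
  simp only [G₂, Prod.fst_add, Prod.smul_fst, Complex.real_smul]
  push_cast
  ring

theorem G₂_mem (hA : Cone A) (k : Fin 4) {t s : ℝ} (h0 : 0 ≤ t) (h1 : t ≤ 1) (hs : 0 ≤ s) {y : V}
    (hy : y ∈ A ∨ y = 0) (h : y ≠ 0 ∨ 0 < s) : G₂ k t ((s : ℂ) * iz k, y) ∈ jn A ∩ Uk V k := by
  have h2 := mul_nonneg (sub_nonneg.2 h1) hs
  rw [G₂_eq]
  refine mem_of (add_nonneg h2 h0) (cone_or hA (sub_nonneg.2 h1) hy) ?_
  rcases h0.eq_or_lt with rfl | h3
  · simpa using h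
  · exact .inr ⟨rfl, by linarith⟩

end RPhB

theorem contr_Uk (hA : Cone A) (k : Fin 4) : ∃ H : ℝ → ℂ × V → ℂ × V,
    Continuous (fun q : ℝ × (ℂ × V) => H q.1 q.2) ∧
      (∀ s ∈ Icc (0 : ℝ) 1, ∀ p ∈ jn A ∩ Uk V k, H s p ∈ jn A ∩ Uk V k) ∧ (∀ p, H 0 p = p) ∧
      ∀ p, H 1 p = (iz k, 0) := by
  refine ⟨fun t p => G₂ k (max (2 * t - 1) 0) (G₁ k (min (2 * t) 1) p), ?_, ?_, fun p => ?_,
    fun p => ?_⟩
  · unfold G₁ G₂
    fun_prop
  · rintro t ⟨t0, t1⟩ ⟨x, y⟩ hp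
    obtain ⟨s, m, hs, rfl, hy, h⟩ := of_mem hp
    have h1 : max (2 * t - 1) 0 ≤ 1 := max_le (by linarith) zero_le_one
    by_cases e : m = k
    · subst e
      beta_reduce
      rw [G₁_same m _ hs]
      exact G₂_mem hA m (le_max_right _ _) h1 hs hy (h.imp_right And.right)
    have h2 : y ≠ 0 := h.resolve_right fun h3 => e h3.1
    beta_reduce
    rw [G₁_other e _ hs]
    rcases le_total (2 * t) 1 with h3 | h3
    · rw [max_eq_right (by linarith), min_eq_left h3, G₂, sub_zero, one_smul, zero_smul, add_zero]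
      exact mem_of (mul_nonneg (by linarith) hs) hy (.inl h2)
    · have h4 := G₂_mem hA k (le_max_right (2 * t - 1) 0) h1 le_rfl hy (.inl h2)
      rw [min_eq_right h3]
      simpa using h4
  · simp [G₁, G₂]
  · norm_num [G₂]

theorem acyc_Uk (hA : Cone A) (k : Fin 4) (n : ℕ) :
    rcyc (jn A ∩ Uk V k) n ≤ bdy ℤ (jn A ∩ Uk V k) n := by
  obtain ⟨H, h1, h2, h3, h4⟩ := contr_Uk hA k
  have h5 : ((iz k, 0) : ℂ × V) ∈ jn A ∩ Uk V k := by
    simpa using mem_of (A := A) (k := k) (m := k) zero_le_one (.inr rfl) (.inr ⟨rfl, one_pos⟩)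
  rcases n with _ | n
  · refine fun c hc => mem_bdy_zero ⟨_, h5, fun {p} hp => JoinedIn.symm ?_⟩ hc.1 hc.2
    refine JoinedIn.ofLine (f := fun s => H s p)
      (h1.comp (continuous_id.prodMk continuous_const)).continuousOn (h3 p) (h4 p) ?_
    rintro _ ⟨s, hs, rfl⟩
    exact h2 s hs p hp
  · intro c hc
    have h6 := htpy_cyc (R := ℤ) H h1.continuousOn h2 (n := n + 1) hc
    rw [show H 0 = id from funext h3, cmap_id, show H 1 = fun _ => (iz k, 0) from funext h4] at h6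
    have h7 := bdy_mono (singleton_subset_iff.2 h5) _ (cyc_le_of_subsingleton
      subsingleton_singleton n (cmap_cyc (R := ℤ) (n := n + 1) (f := fun _ => ((iz k, 0) : ℂ × V))
        continuousOn_const (fun _ _ => mem_singleton _) hc))
    simpa using Submodule.sub_mem _ h7 h6

theorem exists_cone (hA : Cone A) {a : Chn ℤ V n} (ha : a ∈ rcyc A n) :
    ∃ w ∈ chn ℤ (cn A) (n + 1), bd ℤ _ n w = cmap ℤ (Prod.mk (0 : ℂ)) n a := by
  have h0 : ContinuousOn (Prod.mk (0 : ℂ)) A := (Continuous.prodMk_right _).continuousOn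
  refine rcyc_le_of_star (S := cn A) (x := ((1 : ℂ), (0 : V)))
    ⟨⟨zero_le_one, rfl⟩, .inr rfl, by simp⟩ (star_cn hA) n ?_
  rcases n with _ | n
  · exact ⟨cmap_mem h0 (mk_maps hA) ha.1, (aug_cmap _ a).trans ha.2⟩
  · exact cmap_cyc (n := n + 1) h0 (mk_maps hA) ha

theorem cone_rel (hA : Cone A) {a : Chn ℤ V n} (ha : a ∈ bdy ℤ A n) {c : Chn ℤ (ℂ × V) (n + 1)}
    (hc : c ∈ chn ℤ (cn A) (n + 1)) (h : bd ℤ _ n c = cmap ℤ (Prod.mk (0 : ℂ)) n a) (k : Fin 4) :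
    c - cmap ℤ (r1 k) (n + 1) c ∈ bdy ℤ (jn A) (n + 1) := by
  obtain ⟨f, hf, rfl⟩ := ha
  have h0 : ContinuousOn (Prod.mk (0 : ℂ)) A := (Continuous.prodMk_right _).continuousOn
  have h1 : c - cmap ℤ (Prod.mk (0 : ℂ)) (n + 1) f ∈ bdy ℤ (jn A) (n + 1) := by
    refine bdy_mono (cn_sub A) _ (cyc_le_of_star (star_cn hA) n
      ⟨Submodule.sub_mem _ hc (cmap_mem h0 (mk_maps hA) hf), ?_⟩)
    change bd ℤ _ n _ = 0
    rw [map_sub, h, cmap_bd h0 hf, sub_self]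
  have h2 := cmap_bdy (continuous_r1 k).continuousOn (r1_maps A k) h1
  rw [map_sub, cmap_comp h0 hf, show r1 k ∘ Prod.mk (0 : ℂ) = (Prod.mk (0 : ℂ) : V → ℂ × V) from
    funext fun y => Prod.ext (mul_zero _) rfl] at h2
  simpa using Submodule.sub_mem _ h1 h2

end HW
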