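import Pool.Agent.P.MP_9699e0_gt.W.PhJ
import Pool.Agent.P.MP_9699e0_gt.W.PhA

/-! The theorem of Pham for the triple join: the generating cycle is built in two steps from the
difference of two points. -/

set_option autoImplicit false
set_option linter.unusedSectionVars false

noncomputable section

namespace HW

open HK3 Pool.Agent.P.MP_9699e0_gt Set Filter Topology

variable {V : Type} [NormedAddCommGroup V] [NormedSpace ℝ V] {A : Set V} {n : ℕ}

namespace RPhC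

theorem tele_mem {M : Type} [AddCommGroup M] {N : Submodule ℤ M} {u : Fin 4 → M}
    (h : ∀ k, u k - u (k + 1) ∈ N) (k : Fin 4) : u k - u 0 ∈ N := by
  have h0 : u 0 - u 1 ∈ N := h 0
  have h1 : u 1 - u 2 ∈ N := h 1
  have h3 : u 3 - u 0 ∈ N := h 3
  have k1 : u 1 - u 0 ∈ N := by simpa using N.neg_mem h0
  have k2 : u 2 - u 0 ∈ N := by simpa using N.sub_mem k1 h1
  fin_cases k
  · simp
  · exact k1
  · exact k2
  · exact h3

theorem tele_sum {M : Type} [AddCommGroup M] (u : Fin 4 → M) : ∑ k, (u k - u (k + 1)) = 0 := by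
  rw [Finset.sum_sub_distrib, sub_eq_zero]
  exact (Equiv.sum_comp (Equiv.addRight (1 : Fin 4)) u).symm

/-- The chain of a point. -/
def ptc (x : ℂ) : Chn ℤ ℂ 0 := Finsupp.single (Hur_cst 0 x) 1

theorem ptc_mem {S : Set ℂ} {x : ℂ} (h : x ∈ S) : ptc x ∈ chn ℤ S 0 := by
  refine single_mem ?_ 1
  rintro _ ⟨t, rfl⟩
  exact h

theorem aug_single (σ : Simp ℂ 0) : aug ℤ (Finsupp.single σ (1 : ℤ)) = 1 := by
  unfold aug
  rw [ev_single, one_smul]

theorem aug_ptc (x : ℂ) : aug ℤ (ptc x) = 1 := aug_single _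

theorem cmap_ptc {f : ℂ → ℂ} (hf : Continuous f) (x : ℂ) : cmap ℤ f 0 (ptc x) = ptc (f x) := by
  unfold ptc
  rw [cmap_single]
  congr 1
  ext t
  rw [smap_apply hf.continuousOn (subset_univ _)]
  rfl

/-- An open half axis. -/
def ray (m : Fin 4) : Set ℂ := (fun s : ℝ => (s : ℂ) * iz m) '' Ioi 0

theorem ray_pc (m : Fin 4) : IsPathConnected (ray m) :=
  ((convex_Ioi (0 : ℝ)).isPathConnected ⟨1, mem_Ioi.2 one_pos⟩).image
    (Complex.continuous_ofReal.mul continuous_const)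

theorem ray_sub (m : Fin 4) : ray m ⊆ J1 := by
  rintro _ ⟨s, hs, rfl⟩
  have hs' : 0 < s := hs
  exact ⟨X4_polar.2 ⟨s, m, hs'.le, rfl⟩,
    mul_ne_zero (Complex.ofReal_ne_zero.2 hs'.ne') (iz_ne m)⟩

theorem iz_ray (m : Fin 4) : iz m ∈ ray m := ⟨1, mem_Ioi.2 one_pos, by simp⟩

theorem exists_ray {x : ℂ} (h : x ∈ J1) : ∃ m, x ∈ ray m := by
  obtain ⟨s, m, hs, rfl⟩ := X4_polar.1 h.1
  refine ⟨m, s, mem_Ioi.2 (lt_of_le_of_ne hs ?_), rfl⟩
  rintro rfl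
  exact h.2 (by simp)

theorem rcyc_mono {X : Type} [TopologicalSpace X] {S T : Set X} (h : S ⊆ T) (n : ℕ) :
    rcyc S n ≤ rcyc T n := by
  obtain _ | n := n
  · exact inf_le_inf_right _ (chn_mono h 0)
  · exact cyc_mono h _

theorem r1_r1 (k l : Fin 4) : r1 (V := V) k ∘ r1 l = r1 (k + l) := by
  funext p
  simp only [Function.comp, r1, iz_add, mul_assoc]

theorem r1_zero : r1 (V := V) 0 = id := by
  funext p
  simp only [r1, iz_zero, one_mul, id]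

theorem r1_mk (k : Fin 4) : r1 (V := V) k ∘ Prod.mk (0 : ℂ) = Prod.mk (0 : ℂ) := by
  funext y
  simp only [Function.comp, r1, mul_zero]

theorem map_cn (hA : Cone A) {T : Set V} (hTA : T ⊆ A) {t : V → V} (h1 : MapsTo t A A)
    (h0 : t 0 = 0) : MapsTo (Prod.map id t) (cn T) (cn A) := by
  rintro ⟨x, y⟩ ⟨hx, hy, hne⟩
  refine ⟨hx, ?_, ?_⟩
  · rcases hy with hy | hy
    · exact Or.inl (h1 (hTA hy))
    · right
      change t y = 0
      rw [show y = 0 from hy, h0]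
  · intro e
    have e1 : x = 0 := congrArg Prod.fst e
    have e2 : t y = 0 := congrArg Prod.snd e
    rcases hy with hy | hy
    · exact hA.1 (e2 ▸ h1 (hTA hy))
    · exact hne (Prod.ext e1 hy)

theorem zero_Q4 : (0 : ℂ) ∈ Q4 := Or.inl ⟨le_rfl, rfl⟩

theorem Q4_sub : Q4 ⊆ X4 := by
  rintro x (h | h)
  · exact Or.inr h.2
  · exact Or.inl h.1

theorem Q4_smul {s : ℝ} (hs : 0 < s) {x : ℂ} (h : x ∈ Q4) : s • x ∈ Q4 := by
  rcases h with h | h
  · left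
    simp only [Complex.smul_re, Complex.smul_im, smul_eq_mul, h.2, mul_zero, and_true]
    exact mul_nonneg hs.le h.1
  · right
    simp only [Complex.smul_re, Complex.smul_im, smul_eq_mul, h.1, mul_zero, true_and]
    exact mul_nonneg hs.le h.2

theorem X4_mul (k : Fin 4) {x : ℂ} (h : x ∈ X4) : iz k * x ∈ X4 := by
  rw [mem_X4] at h ⊢
  rwa [mul_pow, iz_four, one_mul]

theorem cone_T1 : Cone (Q4 \ {0}) :=
  ⟨fun h => h.2 rfl, fun _ hs _ hy => ⟨Q4_smul hs hy.1, smul_ne_zero hs.ne' hy.2⟩⟩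

theorem cone_T {T : Set V} (hT : Cone T) :
    Cone {p : ℂ × V | p.1 ∈ Q4 ∧ (p.2 ∈ T ∨ p.2 = 0) ∧ p ≠ 0} := by
  refine ⟨fun h => h.2.2 rfl, fun s hs p hp => ⟨Q4_smul hs hp.1, ?_, smul_ne_zero hs.ne' hp.2.2⟩⟩
  rcases hp.2.1 with h | h
  · exact Or.inl (hT.2 s hs _ h)
  · right
    rw [Prod.smul_snd, h, smul_zero]

end RPhC

open RPhC in
theorem gen_J1 : ∃ e ∈ rcyc (Q4 \ {0}) 0,
    rcyc J1 0 ≤ Submodule.span ℤ (range fun k => cmap ℤ (fun x => iz k * x) 0 e) ⊔ bdy ℤ J1 0 ∧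
      ∑ k, cmap ℤ (fun x => iz k * x) 0 e = 0 := by
  have hg : ∀ k, cmap ℤ (fun x => iz k * x) 0 (ptc 1 - ptc Complex.I) =
      ptc (iz k) - ptc (iz (k + 1)) := fun k => by
    have hc : Continuous fun x : ℂ => iz k * x := continuous_const.mul continuous_id
    rw [map_sub, cmap_ptc hc, cmap_ptc hc, mul_one, iz_add, iz_one]
  refine ⟨ptc 1 - ptc Complex.I, ⟨Submodule.sub_mem _ (ptc_mem ⟨Or.inl ⟨by simp, by simp⟩, ?_⟩)
    (ptc_mem ⟨Or.inr ⟨by simp, by simp⟩, Complex.I_ne_zero⟩), ?_⟩, ?_, ?_⟩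
  · exact one_ne_zero
  · change aug ℤ (ptc 1 - ptc Complex.I) = 0
    rw [map_sub, aug_ptc, aug_ptc, sub_self]
  · intro c hc
    have key := ChB_mem (LinearMap.id - (aug ℤ).smulRight (ptc (iz 0)))
      (N := Submodule.span ℤ (range fun k => cmap ℤ (fun x => iz k * x) 0 (ptc 1 - ptc Complex.I)) ⊔
        bdy ℤ J1 0) (fun σ hσ => ?_) hc.1
    · have h0 : aug ℤ c = 0 := hc.2
      rwa [LinearMap.sub_apply, LinearMap.smulRight_apply, h0, zero_smul, sub_zero] at key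
    · obtain ⟨m, hm⟩ := exists_ray (hσ (mem_range_self default))
      have hσ' : range σ ⊆ ray m := by
        rintro _ ⟨t, rfl⟩
        rwa [Subsingleton.elim t default]
      have h1 : Finsupp.single σ (1 : ℤ) - ptc (iz m) ∈ bdy ℤ J1 0 := by
        refine bdy_mono (ray_sub m) 0 (mem_bdy_zero (ray_pc m)
          (Submodule.sub_mem _ (single_mem hσ' 1) (ptc_mem (iz_ray m))) ?_)
        rw [map_sub, aug_single, aug_ptc, sub_self]
      have h2 : ptc (iz m) - ptc (iz 0) ∈ Submodule.span ℤ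
          (range fun k => cmap ℤ (fun x => iz k * x) 0 (ptc 1 - ptc Complex.I)) :=
        tele_mem (u := fun k => ptc (iz k))
          (fun k => Submodule.subset_span (mem_range.2 ⟨k, hg k⟩)) m
      rw [LinearMap.sub_apply, LinearMap.smulRight_apply, aug_single, one_smul, LinearMap.id_apply,
        ← sub_add_sub_cancel (Finsupp.single σ (1 : ℤ)) (ptc (iz m))]
      exact Submodule.add_mem _ (Submodule.mem_sup_right h1) (Submodule.mem_sup_left h2)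
  · rw [Finset.sum_congr rfl fun k _ => hg k]
    exact tele_sum fun k => ptc (iz k)

open RPhC in
theorem step (hA : Cone A) {T : Set V} (hT : Cone T) (hTA : T ⊆ A) {ι : Type} {t : ι → V → V}
    (ht : ∀ j, Continuous (t j) ∧ MapsTo (t j) A A ∧ t j 0 = 0) {e : Chn ℤ V n}
    (he : e ∈ rcyc T n)
    (hg : rcyc A n ≤ Submodule.span ℤ (range fun j => cmap ℤ (t j) n e) ⊔ bdy ℤ A n) :
    ∃ e' ∈ cyc ℤ {p : ℂ × V | p.1 ∈ Q4 ∧ (p.2 ∈ T ∨ p.2 = 0) ∧ p ≠ 0} (n + 1),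
      cyc ℤ (jn A) (n + 1) ≤ Submodule.span ℤ (range fun q : Fin 4 × ι =>
        cmap ℤ (fun p : ℂ × V => (iz q.1 * p.1, t q.2 p.2)) (n + 1) e') ⊔ bdy ℤ (jn A) (n + 1) ∧
      ∑ k, cmap ℤ (r1 k) (n + 1) e' = 0 ∧
      ∀ s : Fin 4 → ι, ∑ k, cmap ℤ (t (s k)) n e ∈ bdy ℤ A n →
        ∑ k, cmap ℤ (Prod.map id (t (s k))) (n + 1) e' ∈ bdy ℤ (jn A) (n + 1) := by
  obtain ⟨w, hw, hbw⟩ := exists_cone hT he
  have hmk : Continuous (Prod.mk (0 : ℂ) : V → ℂ × V) := by fun_prop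
  have hct : ∀ j, Continuous (Prod.map id (t j) : ℂ × V → ℂ × V) := fun j =>
    continuous_id.prodMap (ht j).1
  have hwj : ∀ j, cmap ℤ (Prod.map id (t j)) (n + 1) w ∈ chn ℤ (cn A) (n + 1) ∧
      bd ℤ _ n (cmap ℤ (Prod.map id (t j)) (n + 1) w) =
        cmap ℤ (Prod.mk (0 : ℂ)) n (cmap ℤ (t j) n e) := fun j => by
    refine ⟨cmap_mem (hct j).continuousOn (map_cn hA hTA (ht j).2.1 (ht j).2.2) hw, ?_⟩
    rw [cmap_bd (hct j).continuousOn hw, hbw, cmap_cmap hmk, cmap_cmap (ht j).1]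
    rfl
  have hcomm : ∀ j, cmap ℤ (Prod.map id (t j)) (n + 1) (w - cmap ℤ (r1 1) (n + 1) w) =
      cmap ℤ (Prod.map id (t j)) (n + 1) w -
        cmap ℤ (r1 1) (n + 1) (cmap ℤ (Prod.map id (t j)) (n + 1) w) := fun j => by
    rw [map_sub, cmap_cmap (continuous_r1 1), cmap_cmap (hct j)]
    rfl
  have hrot : ∀ (k : Fin 4) (u : Chn ℤ (ℂ × V) (n + 1)),
      cmap ℤ (r1 k) (n + 1) (u - cmap ℤ (r1 1) (n + 1) u) =
        cmap ℤ (r1 k) (n + 1) u - cmap ℤ (r1 (k + 1)) (n + 1) u := fun k u => by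
    rw [map_sub, cmap_cmap (continuous_r1 1), r1_r1]
  refine ⟨w - cmap ℤ (r1 1) (n + 1) w, ⟨Submodule.sub_mem _ (chn_mono ?_ _ hw)
    (cmap_mem (continuous_r1 1).continuousOn ?_ hw), ?_⟩, ?_, ?_, ?_⟩
  · exact fun p hp => ⟨Or.inl hp.1, hp.2⟩
  · intro p hp
    refine ⟨Or.inr ?_, hp.2.1, (r1_maps T 1 (cn_sub T hp)).2.2⟩
    change (iz 1 * p.1).re = 0 ∧ 0 ≤ (iz 1 * p.1).im
    rw [iz_one]
    simp only [Complex.mul_re, Complex.I_re, zero_mul, Complex.I_im, one_mul, hp.1.2, mul_zero,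
      sub_self, Complex.mul_im, zero_add, true_and]
    exact hp.1.1
  · change bd ℤ _ n (w - cmap ℤ (r1 1) (n + 1) w) = 0
    rw [map_sub, cmap_bd (continuous_r1 1).continuousOn hw, hbw, cmap_cmap hmk, r1_mk, sub_self]
  · refine (join_gen hA hg hwj).trans (sup_le_sup_right (Submodule.span_le.2 ?_) _)
    rintro _ ⟨⟨k, j⟩, rfl⟩
    have := tele_mem (N := Submodule.span ℤ (range fun q : Fin 4 × ι =>
      cmap ℤ (fun p : ℂ × V => (iz q.1 * p.1, t q.2 p.2)) (n + 1) (w - cmap ℤ (r1 1) (n + 1) w)))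
      (u := fun k => cmap ℤ (r1 k) (n + 1) (cmap ℤ (Prod.map id (t j)) (n + 1) w))
      (fun l => Submodule.subset_span ⟨(l, j), ?_⟩) k
    · rwa [r1_zero, cmap_id] at this
    · rw [← hrot, ← hcomm, cmap_cmap (hct j)]
      rfl
  · rw [Finset.sum_congr rfl fun k _ => hrot k w]
    exact tele_sum fun k => cmap ℤ (r1 k) (n + 1) w
  · intro s hs
    rw [Finset.sum_congr rfl fun k _ => hcomm (s k), Finset.sum_sub_distrib, ← map_sum]
    refine cone_rel hA hs (Submodule.sum_mem _ fun k _ => (hwj (s k)).1) ?_ 1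
    rw [map_sum, map_sum]
    exact Finset.sum_congr rfl fun k _ => (hwj (s k)).2

open RPhC in
theorem pham_J3 : ∃ e, Pham J3 T3 d3 e := by
  obtain ⟨e₁, he₁, hg₁, hr₁⟩ := gen_J1
  have ht₁ : ∀ k : Fin 4, Continuous (fun x : ℂ => iz k * x) ∧
      MapsTo (fun x : ℂ => iz k * x) J1 J1 ∧ iz k * 0 = 0 := fun k =>
    ⟨continuous_const.mul continuous_id,
      fun x hx => ⟨X4_mul k hx.1, mul_ne_zero (iz_ne k) hx.2⟩, mul_zero _⟩
  obtain ⟨e₂, he₂, hg₂, hr₂, hs₂⟩ := step cone_J1 cone_T1 (fun x hx => ⟨Q4_sub hx.1, hx.2⟩)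
    (t := fun (k : Fin 4) (x : ℂ) => iz k * x) ht₁ he₁ hg₁
  have ht₂ : ∀ q : Fin 4 × Fin 4, Continuous (fun p : ℂ × ℂ => (iz q.1 * p.1, iz q.2 * p.2)) ∧
      MapsTo (fun p : ℂ × ℂ => (iz q.1 * p.1, iz q.2 * p.2)) J2 J2 ∧
      (fun p : ℂ × ℂ => (iz q.1 * p.1, iz q.2 * p.2)) 0 = 0 := fun q => by
    refine ⟨by fun_prop, fun p hp => ?_, by simp⟩
    rw [mem_J2] at hp ⊢
    refine ⟨X4_mul _ hp.1, X4_mul _ hp.2.1, fun h => hp.2.2 ?_⟩
    have h1 : iz q.1 * p.1 = 0 := congrArg Prod.fst h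
    have h2 : iz q.2 * p.2 = 0 := congrArg Prod.snd h
    exact Prod.ext ((mul_eq_zero.1 h1).resolve_left (iz_ne _))
      ((mul_eq_zero.1 h2).resolve_left (iz_ne _))
  have hsub : {p : ℂ × ℂ | p.1 ∈ Q4 ∧ (p.2 ∈ Q4 \ {0} ∨ p.2 = 0) ∧ p ≠ 0} ⊆ J2 := fun p hp =>
    ⟨Q4_sub hp.1, hp.2.1.imp_left fun h => ⟨Q4_sub h.1, h.2⟩, hp.2.2⟩
  obtain ⟨e₃, he₃, hg₃, hr₃, hs₃⟩ := step (A := J2) (n := 1) (cone_jn cone_J1) (cone_T cone_T1) hsub
    (t := fun (q : Fin 4 × Fin 4) (p : ℂ × ℂ) => (iz q.1 * p.1, iz q.2 * p.2)) ht₂ he₂ hg₂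
  refine ⟨e₃, cyc_mono ?_ 2 he₃, hg₃, ?_, ?_, ?_⟩
  · rintro p ⟨h1, h2, h3⟩
    rcases h2 with h2 | h2
    · refine ⟨h1, h2.1, ?_, h3⟩
      rcases h2.2.1 with h | h
      · exact h.1
      · rw [h]
        exact zero_Q4
    · refine ⟨h1, ?_, ?_, h3⟩ <;> rw [h2] <;> exact zero_Q4
  · have e : ∀ k, d3 (k, 0, 0) = r1 k := fun k => by
      funext p
      simp only [d3, r1, iz_zero, one_mul]
    simp only [e]
    rw [hr₃]
    exact Submodule.zero_mem _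
  · have e : ∀ k, d3 (0, k, 0) =
        Prod.map id fun p : ℂ × ℂ => (iz k * p.1, iz 0 * p.2) := fun k => by
      funext p
      simp only [d3, iz_zero, one_mul, Prod.map, id]
    have e' : ∀ k, (fun p : ℂ × ℂ => (iz k * p.1, iz 0 * p.2)) = r1 k := fun k => by
      funext p
      simp only [r1, iz_zero, one_mul]
    simp only [e]
    refine hs₃ (fun k => (k, 0)) ?_
    simp only [e']
    rw [hr₂]
    exact Submodule.zero_mem _
  · have e : ∀ k, d3 (0, 0, k) =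
        Prod.map id fun p : ℂ × ℂ => (iz 0 * p.1, iz k * p.2) := fun k => by
      funext p
      simp only [d3, iz_zero, one_mul, Prod.map, id]
    have e' : ∀ k, (fun p : ℂ × ℂ => (iz 0 * p.1, iz k * p.2)) =
        Prod.map id fun x => iz k * x := fun k => by
      funext p
      simp only [iz_zero, one_mul, Prod.map, id]
    simp only [e]
    refine hs₃ (fun k => (0, k)) ?_
    simp only [e']
    refine hs₂ id ?_
    simp only [id]
    rw [hr₁]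
    exact Submodule.zero_mem _

end HW
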