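import Pool.Agent.P.MP_9699e0_gt.W.PhC
import Pool.Agent.P.MP_9699e0_gt.W.QB

/-! Transfer of the theorem of Pham to the affine quartic. -/

set_option autoImplicit false
set_option linter.unusedSectionVars false

noncomputable section

namespace HW

open HK3 Pool.Agent.P.MP_9699e0_gt Set Filter Topology

namespace RPhE

/-- the fourth root -/
def qr (p : ℂ × ℂ × ℂ) : ℝ := (s3 p).re ^ (1 / 4 : ℝ)

theorem qr_pos {p : ℂ × ℂ × ℂ} (hp : p ∈ S3) : 0 < qr p := Real.rpow_pos_of_pos hp.1 _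

theorem last_ne {p : ℂ × ℂ × ℂ} (hp : p ∈ S3) : zt * (qr p : ℂ) ≠ 0 :=
  mul_ne_zero zt_ne (Complex.ofReal_ne_zero.2 (qr_pos hp).ne')

theorem vec_mem {p : ℂ × ℂ × ℂ} (hp : p ∈ S3) :
    (![p.1, p.2.1, p.2.2, zt * (qr p : ℂ)] : C4) ∈ Cn := by
  refine ⟨fun h => last_ne hp (congrFun h 3), ?_⟩
  have h1 : qr p ^ 4 = (s3 p).re := by
    rw [qr, ← Real.rpow_natCast, ← Real.rpow_mul hp.1.le]
    norm_num
  have h2 : (qr p : ℂ) ^ 4 = s3 p := by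
    rw [← Complex.ofReal_pow, h1]
    exact Complex.ext rfl hp.2.symm
  rw [Fin.sum_univ_four]
  show p.1 ^ 4 + p.2.1 ^ 4 + p.2.2 ^ 4 + (zt * (qr p : ℂ)) ^ 4 = 0
  rw [mul_pow, h2, zt_four, s3]
  ring

theorem ka_ps {p : ℂ × ℂ × ℂ} (hp : p ∈ S3) : ka (ps p) = (qr p)⁻¹ • p := by
  have h : ∀ x : ℂ, zt * ((zt * (qr p : ℂ))⁻¹ * x) = (qr p)⁻¹ • x := fun x => by
    rw [mul_inv, mul_assoc, mul_inv_cancel_left₀ zt_ne, Complex.real_smul, Complex.ofReal_inv]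
  rw [ka, show nq 3 (ps p) = _ from nq_qm (vec_mem hp) 3]
  exact Prod.ext (h _) (Prod.ext (h _) (h _))

theorem s3_ka {p : Fermat} (hp : p ∈ UQ 3) : s3 (ka p) = 1 := by
  have h := (nq_mem hp).2
  rw [Fin.sum_univ_four, nq_self hp] at h
  simp only [s3, ka, mul_pow, zt_four]
  linear_combination -h

theorem s3_d3 (h : G3) (p : ℂ × ℂ × ℂ) : s3 (d3 h p) = s3 p := by
  simp only [s3, d3, mul_pow, iz_four, one_mul]

theorem d3_maps (h : G3) : MapsTo (d3 h) S3 S3 := fun p hp => by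
  rwa [S3, mem_ofPred_eq, s3_d3]

theorem q4_smul {t : ℝ} (ht : 0 ≤ t) {x : ℂ} (hx : x ∈ Q4) : t • x ∈ Q4 := by
  rcases hx with ⟨h1, h2⟩ | ⟨h1, h2⟩
  · exact Or.inl ⟨by simpa using mul_nonneg ht h1, by simp [h2]⟩
  · exact Or.inr ⟨by simp [h1], by simpa using mul_nonneg ht h2⟩

theorem q4_neg {x : ℂ} (hx : x ∈ Q4) (h : iz 2 * x ∈ Q4) : x = 0 := by
  rw [iz_two, neg_one_mul] at h
  simp only [Q4, mem_ofPred_eq, Complex.neg_re, Complex.neg_im] at hx h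
  refine Complex.ext ?_ ?_ <;> rcases hx with ⟨h1, h2⟩ | ⟨h1, h2⟩ <;>
    rcases h with ⟨h3, h4⟩ | ⟨h3, h4⟩ <;> simp only [Complex.zero_re, Complex.zero_im] <;> linarith

end RPhE

open RPhE

theorem continuousOn_ps : ContinuousOn ps S3 := by
  refine continuousOn_qm.comp (f := fun p : ℂ × ℂ × ℂ => ![p.1, p.2.1, p.2.2, zt * (qr p : ℂ)])
    (Continuous.continuousOn ?_) fun p hp => vec_mem hp
  have h : Continuous qr :=
    Continuous.rpow_const (by unfold s3; fun_prop) fun _ => Or.inr (by norm_num)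
  fun_prop

theorem ps_maps : MapsTo ps S3 (UQ 3) := fun _ hp => (qm_mem_UQ (vec_mem hp)).2 (last_ne hp)

theorem continuousOn_ka : ContinuousOn ka (UQ 3) := by
  have h : ∀ i, ContinuousOn (fun p => zt * nq 3 p i) (UQ 3) := fun i =>
    continuousOn_const.mul ((continuous_apply i).comp_continuousOn (continuousOn_nq 3))
  exact (h 0).prodMk ((h 1).prodMk (h 2))

theorem ka_maps : MapsTo ka (UQ 3) S3 := fun p hp => by
  rw [S3, mem_ofPred_eq, s3_ka hp]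
  exact ⟨one_pos, rfl⟩

theorem ps_ka {p : Fermat} (hp : p ∈ UQ 3) : ps (ka p) = p := by
  refine (congrArg qm (funext fun i => ?_)).trans ((qm_smul zt_ne (nq_mem hp)).trans (qm_nq hp))
  fin_cases i
  iterate 3 rfl
  simp [s3_ka hp, nq_self hp]

theorem ps_d3 (h : G3) {p : ℂ × ℂ × ℂ} (hp : p ∈ S3) : ps (d3 h p) = dq h (ps p) := by
  rw [ps, s3_d3]
  exact (dq_qm h (vec_mem hp)).symm

theorem ps_T3 : MapsTo ps T3 TQ := fun p hp => by
  have h := J3_sub (T3_sub hp)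
  have h1 := inv_pos.2 (qr_pos h)
  refine ⟨ps_maps h, ?_⟩
  rw [mem_preimage, ka_ps h]
  exact ⟨q4_smul h1.le hp.1, q4_smul h1.le hp.2.1, q4_smul h1.le hp.2.2.1,
    smul_ne_zero h1.ne' hp.2.2.2⟩

theorem tq_disj {p : Fermat} (hp : p ∈ TQ) : dq (2, 2, 2) p ∉ TQ := by
  rintro ⟨-, h⟩
  have h1 := ka_maps hp.1
  rw [mem_preimage, ← ps_ka hp.1, ← ps_d3 _ h1, ka_ps (d3_maps _ h1), qr, s3_d3, s3_ka hp.1,
    Complex.one_re, Real.one_rpow, inv_one, one_smul] at h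
  obtain ⟨k1, k2, k3, k4⟩ := hp.2
  exact k4 (Prod.ext (q4_neg k1 h.1) (Prod.ext (q4_neg k2 h.2.1) (q4_neg k3 h.2.2.1)))

theorem pham_UQ : ∃ e, Pham (UQ 3) TQ dq e := by
  obtain ⟨e, h⟩ := pham_J3
  have hT : T3 ⊆ S3 := T3_sub.trans J3_sub
  have he := chn_mono hT 2 (cyc_le _ _ h.mem)
  have h1 : ∀ g, cmap ℤ ps 2 (cmap ℤ (d3 g) 2 e) = cmap ℤ (dq g) 2 (cmap ℤ ps 2 e) := fun g => by
    rw [cmap_cmap (by unfold d3; fun_prop), cmap_comp continuousOn_ps he]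
    exact cmap_congr (fun p hp => ps_d3 g hp) he
  have h2 : ∀ {c}, c ∈ bdy ℤ S3 2 → cmap ℤ ps 2 c ∈ bdy ℤ (UQ 3) 2 :=
    cmap_bdy continuousOn_ps ps_maps
  have h3 : ∀ t : Fin 4 → G3, ∑ k, cmap ℤ (d3 (t k)) 2 e ∈ bdy ℤ J3 2 →
      ∑ k, cmap ℤ (dq (t k)) 2 (cmap ℤ ps 2 e) ∈ bdy ℤ (UQ 3) 2 := fun t k => by
    have k1 := h2 (bdy_mono J3_sub 2 k)
    rwa [map_sum, funext fun k => h1 (t k)] at k1
  refine ⟨cmap ℤ ps 2 e, cmap_cyc (continuousOn_ps.mono hT) ps_T3 h.mem, fun c hc => ?_,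
    h3 _ h.rel1, h3 _ h.rel2, h3 _ h.rel3⟩
  have h4 := cyc_le _ _ hc
  have h5 : Submodule.span ℤ (range fun g => cmap ℤ (d3 g) 2 e) ⊔ bdy ℤ S3 2 ≤ Submodule.comap
      (cmap ℤ ps 2) (Submodule.span ℤ (range fun g => cmap ℤ (dq g) 2 (cmap ℤ ps 2 e)) ⊔
        bdy ℤ (UQ 3) 2) := by
    refine sup_le (Submodule.span_le.2 ?_) fun c k => Submodule.mem_sup_right (h2 k)
    rintro _ ⟨g, rfl⟩
    exact Submodule.mem_sup_left (Submodule.subset_span ⟨g, (h1 g).symm⟩)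
  have h6 := h5 (((cyc_S3 2).trans (sup_le (h.gen.trans (sup_le_sup_left (bdy_mono J3_sub 2) _))
    le_sup_right)) (cmap_cyc continuousOn_ka ka_maps hc))
  rwa [Submodule.mem_comap, cmap_comp continuousOn_ka h4,
    cmap_congr (f := ps ∘ ka) (g := id) (fun p hp => ps_ka hp) h4, cmap_id] at h6

end HW
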