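import Pool.Agent.P.MP_9699e0_gt.W.PhB

/-! Homology and fundamental group of the join with four half lines. -/

set_option autoImplicit false
set_option linter.unusedSectionVars false

noncomputable section

namespace HW

open HK3 Pool.Agent.P.MP_9699e0_gt Set Filter Topology

variable {V : Type} [NormedAddCommGroup V] [NormedSpace ℝ V] {A : Set V} {n : ℕ}

namespace RPhJ

/-- The common part of the four open sets. -/
def Bs (A : Set V) : Set (ℂ × V) := {p | p ∈ jn A ∧ p.2 ≠ 0}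

theorem Bs_sub (k : Fin 4) : Bs A ⊆ jn A ∩ Uk V k := fun _ hp => ⟨hp.1, Or.inl hp.2⟩

theorem Bs_snd : MapsTo Prod.snd (Bs A) A := fun _ hp => hp.1.2.1.resolve_right hp.2

theorem Bs_mk (hA : Cone A) : MapsTo (Prod.mk (0 : ℂ)) A (Bs A) := fun y hy =>
  ⟨cn_sub A (mk_maps hA hy), fun h => hA.1 (by rwa [show y = 0 from h] at hy)⟩

theorem Bs_shr (s : ℝ) {p : ℂ × V} (hp : p ∈ Bs A) : ((s : ℂ) * p.1, p.2) ∈ Bs A := by
  refine ⟨⟨?_, hp.1.2.1, fun h => hp.2 (congrArg Prod.snd h)⟩, hp.2⟩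
  rcases hp.1.1 with h | h
  · exact Or.inl (by simp [h])
  · exact Or.inr (by simp [h])

theorem split {z : Chn ℤ (ℂ × V) (n + 1)} (hz : z ∈ cyc ℤ (jn A) (n + 1)) :
    ∃ y : Fin 4 → Chn ℤ (ℂ × V) (n + 1), (∀ k, y k ∈ chn ℤ (jn A ∩ Uk V k) (n + 1)) ∧
      z - ∑ k, y k ∈ bdy ℤ (jn A) (n + 1) := by
  have hs : Small (fun m (σ : Simp (ℂ × V) m) => ∃ k, range σ ⊆ jn A ∩ Uk V k) (jn A) := by
    refine ⟨fun m j σ v h => h.imp fun k hk => Sm_comp_range _ m j σ v hk, fun x hx => ?_⟩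
    obtain ⟨k, hk⟩ := exists_Uk hx
    exact ⟨_, inter_mem_nhdsWithin _ ((isOpen_Uk k).mem_nhds hk), fun m σ h => ⟨k, h⟩⟩
  obtain ⟨ρ, D, -, -, h3, h4, -, h6⟩ := hs.exists_retr (R := ℤ)
  have h7 : ρ (n + 1) z ∈ ⨆ k, chn ℤ (jn A ∩ Uk V k) (n + 1) := by
    have := h4 _ z hz.1
    simp only [chn]
    rwa [← Finsupp.supported_iUnion, ← ofPred_exists]
  obtain ⟨y, hy, e⟩ := (Submodule.mem_iSup_iff_exists_finsupp _ _).1 h7
  refine ⟨y, hy, D (n + 1) z, (h6 _ _ z hz.1).2, ?_⟩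
  have e0 : bd ℤ _ n z = 0 := hz.2
  have e1 := h3 n z
  rw [e0, map_zero, add_zero] at e1
  rw [e1, ← e, Finsupp.sum_fintype _ _ fun _ => rfl]

theorem mem_Bs {d : Fin 4 → Chn ℤ (ℂ × V) n} (hd : ∀ k, d k ∈ chn ℤ (jn A ∩ Uk V k) n)
    (h0 : ∑ k, d k = 0) (k : Fin 4) : d k ∈ chn ℤ (Bs A) n := by
  refine mem_chn_iff.2 fun σ hσ => ?_
  obtain ⟨l, hl, hl'⟩ : ∃ l, l ≠ k ∧ σ ∈ (d l).support := by
    by_contra hn
    have h1 : (∑ k, d k) σ = 0 := by rw [h0]; rfl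
    rw [Finsupp.finsetSum_apply, Finset.sum_eq_single k (fun l _ hl => by
      by_contra h2
      exact hn ⟨l, hl, Finsupp.mem_support_iff.2 h2⟩) (by simp)] at h1
    exact Finsupp.mem_support_iff.1 hσ h1
  intro p hp
  have h1 := mem_chn_iff.1 (hd k) σ hσ hp
  exact ⟨h1.1, Uk_inter hl h1.1 (mem_chn_iff.1 (hd l) σ hl' hp).2 h1.2⟩

theorem snd_rcyc {d : Chn ℤ (ℂ × V) n} (hd : d ∈ rcyc (Bs A) n) :
    cmap ℤ Prod.snd n d ∈ rcyc A n := by
  obtain _ | n := n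
  · refine ⟨cmap_mem continuous_snd.continuousOn Bs_snd hd.1, ?_⟩
    change aug ℤ _ = 0
    rw [aug_cmap]
    exact hd.2
  · exact cmap_cyc continuous_snd.continuousOn Bs_snd hd

theorem push (hA : Cone A) {N : Submodule ℤ (Chn ℤ V n)} (ha : rcyc A n ≤ N ⊔ bdy ℤ A n)
    {d : Chn ℤ (ℂ × V) n} (hd : d ∈ rcyc (Bs A) n) :
    ∃ f ∈ chn ℤ (Bs A) (n + 1), ∃ a' ∈ N,
      d = bd ℤ _ n f + cmap ℤ (Prod.mk (0 : ℂ)) n a' := by
  have hc : Continuous (Prod.mk (0 : ℂ) : V → ℂ × V) := by fun_prop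
  obtain ⟨f, hf, e⟩ := htpy_cyc (R := ℤ) (fun (s : ℝ) (p : ℂ × V) => ((s : ℂ) * p.1, p.2))
    (S := Bs A) (S' := Bs A) (by fun_prop) (fun s _ p hp => Bs_shr s hp) (rcyc_le _ n hd)
  have e1 : (fun p : ℂ × V => (((1 : ℝ) : ℂ) * p.1, p.2)) = id := funext fun p => by simp
  have e0 : (fun p : ℂ × V => (((0 : ℝ) : ℂ) * p.1, p.2)) = Prod.mk (0 : ℂ) ∘ Prod.snd :=
    funext fun p => by simp
  rw [e1, e0, cmap_id, ← cmap_cmap continuous_snd] at e
  obtain ⟨a', ha', _, ⟨b, hb, rfl⟩, e2⟩ := Submodule.mem_sup.1 (ha (snd_rcyc hd))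
  refine ⟨f + cmap ℤ (Prod.mk (0 : ℂ)) (n + 1) b,
    add_mem hf (cmap_mem hc.continuousOn (Bs_mk hA) hb), a', ha', ?_⟩
  rw [map_add, e, cmap_bd hc.continuousOn hb, ← e2, map_add]
  abel

theorem pc_Uk (hA : Cone A) (k : Fin 4) {p : ℂ × V} (hp : p ∈ jn A ∩ Uk V k) :
    JoinedIn (jn A ∩ Uk V k) p (iz k, 0) := by
  obtain ⟨H, hc, hm, h0, h1⟩ := contr_Uk hA k
  refine JoinedIn.ofLine (f := fun s => H s p)
    (hc.comp (continuous_id.prodMk continuous_const)).continuousOn (h0 p) (h1 p) ?_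
  rintro _ ⟨s, hs, rfl⟩
  exact hm s hs p hp

theorem pc_Bs (hA : Cone A) (h : IsPathConnected A) : IsPathConnected (Bs A) := by
  have hc : Continuous (Prod.mk (0 : ℂ) : V → ℂ × V) := by fun_prop
  obtain ⟨y, hy⟩ := h.nonempty
  refine ⟨(0, y), Bs_mk hA hy, fun {p} hp => ?_⟩
  have h1 : JoinedIn (Bs A) (0, y) (0, p.2) :=
    ((h.image hc).joinedIn _ ⟨y, hy, rfl⟩ _ ⟨p.2, Bs_snd hp, rfl⟩).mono
      (Bs_mk hA).image_subset
  refine h1.trans (JoinedIn.ofLine (f := fun s : ℝ => ((s : ℂ) * p.1, p.2)) (by fun_prop)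
    (by simp) (by simp) ?_)
  rintro _ ⟨s, -, rfl⟩
  exact Bs_shr s hp

theorem null_Uk (hA : Cone A) (h : A.Nonempty) (k : Fin 4) :
    Null ((Subtype.val : jn A → ℂ × V) ⁻¹' Uk V k) := by
  obtain ⟨y, hy⟩ := h
  have hy' : ((0 : ℂ), y) ∈ jn A ∩ Uk V k := Bs_sub k (Bs_mk hA hy)
  have hpc : IsPathConnected (jn A ∩ Uk V k) :=
    ⟨_, hy', fun {p} hp => (pc_Uk hA k hy').trans (pc_Uk hA k hp).symm⟩
  refine ⟨(isOpen_Uk k).preimage continuous_subtype_val, ?_, fun x γ hγ => ?_⟩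
  · have := hpc.preimage_coe inter_subset_left
    rwa [Subtype.preimage_coe_self_inter] at this
  · obtain ⟨H, hc, hm, h0, h1⟩ := contr_Uk hA k
    have hz : (iz k, (0 : V)) ∈ jn A ∩ Uk V k := (pc_Uk hA k hy').target_mem
    have : ContractibleSpace ↥(jn A ∩ Uk V k) := (contractible_iff_id_nullhomotopic _).2
      ⟨⟨_, hz⟩, ⟨{ toFun := fun q => ⟨H q.1 q.2, hm _ q.1.2 _ q.2.2⟩
                   continuous_toFun := (hc.comp ((continuous_subtype_val.comp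
                     continuous_fst).prodMk (continuous_subtype_val.comp
                       continuous_snd))).subtype_mk _
                   map_zero_left := fun p => Subtype.ext (h0 p)
                   map_one_left := fun p => Subtype.ext (h1 p) }⟩⟩
    have hx : x.1 ∈ jn A ∩ Uk V k := ⟨x.2, hγ ⟨0, γ.source⟩⟩
    let δ : Path (⟨x.1, hx⟩ : ↥(jn A ∩ Uk V k)) ⟨x.1, hx⟩ :=
      { toFun := fun t => ⟨(γ t).1, (γ t).2, hγ ⟨t, rfl⟩⟩
        continuous_toFun := (continuous_subtype_val.comp γ.continuous).subtype_mk _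
        source' := Subtype.ext (by simp)
        target' := Subtype.ext (by simp) }
    let F : C(↥(jn A ∩ Uk V k), jn A) :=
      ⟨fun p => ⟨p.1, p.2.1⟩, continuous_subtype_val.subtype_mk _⟩
    exact (SimplyConnectedSpace.paths_homotopic δ (Path.refl _)).map F

end RPhJ

open RPhJ

theorem join_gen (hA : Cone A) {ι : Type} {a : ι → Chn ℤ V n} {w : ι → Chn ℤ (ℂ × V) (n + 1)}
    (ha : rcyc A n ≤ Submodule.span ℤ (range a) ⊔ bdy ℤ A n)
    (hw : ∀ j, w j ∈ chn ℤ (cn A) (n + 1) ∧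
      bd ℤ _ n (w j) = cmap ℤ (Prod.mk (0 : ℂ)) n (a j)) :
    cyc ℤ (jn A) (n + 1) ≤ Submodule.span ℤ
      (range fun q : Fin 4 × ι => cmap ℤ (r1 q.1) (n + 1) (w q.2) - w q.2) ⊔
        bdy ℤ (jn A) (n + 1) := by
  intro z hz
  set N := Submodule.span ℤ
    (range fun q : Fin 4 × ι => cmap ℤ (r1 q.1) (n + 1) (w q.2) - w q.2) with hN
  have hc : Continuous (Prod.mk (0 : ℂ) : V → ℂ × V) := by fun_prop
  have hu : ∀ a' ∈ Submodule.span ℤ (range a), ∃ u ∈ chn ℤ (cn A) (n + 1),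
      bd ℤ _ n u = cmap ℤ (Prod.mk (0 : ℂ)) n a' ∧ ∀ k, cmap ℤ (r1 k) (n + 1) u - u ∈ N := by
    intro a' ha'
    induction ha' using Submodule.span_induction with
    | mem x hx =>
      obtain ⟨j, rfl⟩ := hx
      exact ⟨w j, (hw j).1, (hw j).2, fun k => Submodule.subset_span ⟨(k, j), rfl⟩⟩
    | zero => exact ⟨0, zero_mem _, by simp, fun k => by simp⟩
    | add x y _ _ hx hy =>
      obtain ⟨u, h1, h2, h3⟩ := hx
      obtain ⟨v, g1, g2, g3⟩ := hy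
      refine ⟨u + v, add_mem h1 g1, by rw [map_add, map_add, h2, g2], fun k => ?_⟩
      rw [map_add, add_sub_add_comm]
      exact add_mem (h3 k) (g3 k)
    | smul r x _ hx =>
      obtain ⟨u, h1, h2, h3⟩ := hx
      refine ⟨r • u, Submodule.smul_mem _ _ h1, by rw [map_smul, map_smul, h2], fun k => ?_⟩
      rw [map_smul, ← smul_sub]
      exact Submodule.smul_mem _ _ (h3 k)
  obtain ⟨y, hy, hb⟩ := split hz
  have h0 : ∑ k, bd ℤ _ n (y k) = 0 := by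
    have h1 : bd ℤ _ n (z - ∑ k, y k) = 0 := (bdy_le _ _ hb).2
    have h2 : bd ℤ _ n z = 0 := hz.2
    rwa [map_sub, h2, zero_sub, neg_eq_zero, map_sum] at h1
  have hd := mem_Bs (fun k => bd_mem (hy k)) h0
  choose f hf a' ha' e using fun k => push hA ha (rcyc_bd (hd k))
  choose u hu1 hu2 hu3 using fun k => hu (a' k) (ha' k)
  have h1 : ∀ k, y k - f k - cmap ℤ (r1 k) (n + 1) (u k) ∈ bdy ℤ (jn A) (n + 1) := fun k => by
    refine bdy_mono inter_subset_left _ (acyc_Uk hA k (n + 1) ⟨sub_mem (sub_mem (hy k)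
      (chn_mono (Bs_sub k) _ (hf k)))
      (cmap_mem (continuous_r1 k).continuousOn (r1_maps_Uk A k) (hu1 k)), ?_⟩)
    change bd ℤ _ n _ = 0
    have e1 : r1 k ∘ Prod.mk (0 : ℂ) = (Prod.mk (0 : ℂ) : V → ℂ × V) :=
      funext fun v => by simp [r1]
    rw [map_sub, map_sub, cmap_bd (continuous_r1 k).continuousOn (hu1 k), hu2, cmap_cmap hc, e1,
      e k]
    abel
  have h2 : ∑ k, (f k + u k) ∈ bdy ℤ (jn A) (n + 1) := by
    have hs : cn A ⊆ jn A ∩ Uk V 0 := fun p hp => by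
      have := r1_maps_Uk A 0 hp
      rwa [r1, iz_zero, one_mul] at this
    refine bdy_mono inter_subset_left _ (acyc_Uk hA 0 (n + 1) ⟨sum_mem fun k _ =>
      add_mem (chn_mono (Bs_sub 0) _ (hf k)) (chn_mono hs _ (hu1 k)), ?_⟩)
    change bd ℤ _ n _ = 0
    rw [map_sum, ← h0]
    exact Finset.sum_congr rfl fun k _ => by rw [map_add, hu2, e k]
  have e1 : z = ∑ k, (cmap ℤ (r1 k) (n + 1) (u k) - u k) + ((z - ∑ k, y k) +
      ∑ k, (y k - f k - cmap ℤ (r1 k) (n + 1) (u k)) + ∑ k, (f k + u k)) := by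
    simp only [Finset.sum_sub_distrib, Finset.sum_add_distrib]
    abel
  rw [e1]
  exact Submodule.add_mem_sup (sum_mem fun k _ => hu3 k k)
    (add_mem (add_mem hb (sum_mem fun k _ => h1 k)) h2)

theorem pc_jn (hA : Cone A) (h : A.Nonempty) : IsPathConnected (jn A) := by
  obtain ⟨y, hy⟩ := h
  refine ⟨(0, y), (Bs_mk hA hy).1, fun {p} hp => ?_⟩
  obtain ⟨k, hk⟩ := exists_Uk hp
  exact ((pc_Uk hA k (Bs_sub k (Bs_mk hA hy))).trans (pc_Uk hA k ⟨hp, hk⟩).symm).mono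
    inter_subset_left

theorem sc_jn (hA : Cone A) (h : IsPathConnected A) : IsSimplyConnected (jn A) := by
  let O : Fin 4 → Set (jn A) := fun k => Subtype.val ⁻¹' Uk V k
  have hO : ∀ k, Null (O k) := null_Uk hA h.nonempty
  have step : ∀ (W : Set (jn A)) (k : Fin 4), Null W → O 0 ⊆ W →
      (∀ p ∈ W, ∃ l, l ≠ k ∧ p ∈ O l) → Null (W ∪ O k) := by
    intro W k hW h0 hl
    refine hW.union (hO k) ?_
    have e : W ∩ O k = Subtype.val ⁻¹' Bs A := by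
      refine Subset.antisymm (fun p hp => ?_) fun p hp => ⟨h0 (Bs_sub 0 hp).2, (Bs_sub k hp).2⟩
      obtain ⟨l, h1, h2⟩ := hl p hp.1
      exact ⟨p.2, Uk_inter h1 p.2 h2 hp.2⟩
    rw [e]
    exact (pc_Bs hA h).preimage_coe fun p hp => hp.1
  have h1 := step (O 0) 1 (hO 0) subset_rfl fun p hp => ⟨0, by decide, hp⟩
  have h2 := step _ 2 h1 subset_union_left fun p hp =>
    hp.elim (fun h => ⟨0, by decide, h⟩) fun h => ⟨1, by decide, h⟩
  have h3 := step _ 3 h2 (subset_union_left.trans subset_union_left) fun p hp =>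
    hp.elim (fun hp => hp.elim (fun h => ⟨0, by decide, h⟩) fun h => ⟨1, by decide, h⟩)
      fun h => ⟨2, by decide, h⟩
  have e : O 0 ∪ O 1 ∪ O 2 ∪ O 3 = univ := eq_univ_of_forall fun p => by
    obtain ⟨k, hk⟩ := exists_Uk p.2
    fin_cases k
    exacts [Or.inl (Or.inl (Or.inl hk)), Or.inl (Or.inl (Or.inr hk)), Or.inl (Or.inr hk),
      Or.inr hk]
  rw [e] at h3
  exact h3.simplyConnected

theorem pc_J2 : IsPathConnected J2 := pc_jn cone_J1 ⟨1, Or.inr rfl, one_ne_zero⟩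

theorem sc_J3 : IsSimplyConnected J3 := sc_jn (cone_jn cone_J1) pc_J2

end HW
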