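import Pool.Agent.P.MP_9699e0_gt.W.Defs

/-! Removing a point from a manifold of dimension at least three keeps it simply connected. -/

set_option autoImplicit false
set_option linter.unusedSectionVars false

noncomputable section

namespace HW

open HK3 Pool.Agent.P.MP_9699e0_gt Set Filter Topology



namespace RPunct

/-- A cut-off function. -/
def cut (r s : ℝ) : ℝ := max 0 (min 1 (2 - 2 * s / r))

theorem cut_cont (r : ℝ) : Continuous (cut r) := by
  unfold cut
  fun_prop

theorem cut_nonneg (r s : ℝ) : 0 ≤ cut r s := le_max_left _ _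

theorem cut_le (r s : ℝ) : cut r s ≤ 1 := max_le zero_le_one (min_le_left _ _)

theorem cut_one {r s : ℝ} (hr : 0 < r) (h : s ≤ r / 2) : cut r s = 1 := by
  have h1 : 2 * s / r ≤ 1 := by rw [div_le_one hr]; linarith
  unfold cut
  rw [min_eq_left (by linarith), max_eq_right zero_le_one]

theorem cut_zero {r s : ℝ} (hr : 0 < r) (h : r ≤ s) : cut r s = 0 := by
  have h1 : 2 ≤ 2 * s / r := by rw [le_div_iff₀ hr]; linarith
  unfold cut
  exact max_eq_left ((min_le_right _ _).trans (by linarith))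

/-- A continuous map into a space of larger dimension can be pushed off a point. -/
theorem push_eu {P : Type} [NormedAddCommGroup P] [NormedSpace ℝ P] [FiniteDimensional ℝ P]
    {m : ℕ} (hm : Module.finrank ℝ P < m) {U : P → Eu m} (hU : Continuous U) (u₀ : Eu m)
    {r : ℝ} (hr : 0 < r) :
    ∃ v : P → Eu m, Continuous v ∧ ∀ t, v t ≠ u₀ ∧ (r ≤ dist (U t) u₀ → v t = U t) ∧
      (dist (U t) u₀ ≤ 2 * r → dist (v t) u₀ ≤ 2 * r) := by
  obtain ⟨p, hp, hpU, -⟩ := hU.exists_contDiff_approx (ε := fun _ => r / 8) 1 continuous_const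
    (fun _ => by positivity)
  have hd : Dense (range p)ᶜ :=
    ContDiff.dense_compl_range_of_finrank_lt_finrank (by exact_mod_cast hp) (by simpa using hm)
  obtain ⟨w, hw, hwd⟩ := hd.exists_dist_lt u₀ (ε := r / 8) (by positivity)
  have hsm : ∀ t, ‖p t + u₀ - w - U t‖ ≤ r / 4 := by
    intro t
    have h1 := hpU t
    rw [dist_eq_norm] at h1 hwd
    have e : p t + u₀ - w - U t = (p t - U t) + (u₀ - w) := by abel
    rw [e]
    have := norm_add_le (p t - U t) (u₀ - w)
    linarith
  have hpc : Continuous p := hp.continuous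
  have hcl : ∀ t, dist (U t + cut r (dist (U t) u₀) • (p t + u₀ - w - U t)) (U t) ≤ r / 4 := by
    intro t
    rw [dist_eq_norm, add_sub_cancel_left, norm_smul, Real.norm_of_nonneg (cut_nonneg _ _)]
    have h1 := cut_le r (dist (U t) u₀)
    have h2 := hsm t
    have h3 := norm_nonneg (p t + u₀ - w - U t)
    nlinarith
  refine ⟨fun t => U t + cut r (dist (U t) u₀) • (p t + u₀ - w - U t), ?_, fun t => ⟨?_, ?_, ?_⟩⟩
  · exact hU.add (((cut_cont r).comp (hU.dist continuous_const)).smul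
      (((hpc.add continuous_const).sub continuous_const).sub hU))
  · intro h0
    by_cases h : dist (U t) u₀ ≤ r / 2
    · simp only [cut_one hr h, one_smul] at h0
      apply hw
      refine ⟨t, ?_⟩
      have e : p t = (U t + (p t + u₀ - w - U t)) - u₀ + w := by abel
      rw [e, h0]
      abel
    · have h1 := hcl t
      simp only at h0
      rw [h0, dist_comm] at h1
      linarith
  · intro h
    simp only [cut_zero hr h, zero_smul, add_zero]
  · intro h
    by_cases h' : r ≤ dist (U t) u₀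
    · simpa only [cut_zero hr h', zero_smul, add_zero] using h
    · have h1 := hcl t
      have h2 := dist_triangle (U t + cut r (dist (U t) u₀) • (p t + u₀ - w - U t)) (U t) u₀
      simp only
      linarith

end RPunct

theorem push {M P : Type} [TopologicalSpace M] [T2Space M] [NormedAddCommGroup P]
    [NormedSpace ℝ P] [FiniteDimensional ℝ P] {m : ℕ} (hM : Chartd M m)
    (hm : Module.finrank ℝ P < m) {T : Set P} (hT : IsCompact T) {h : P → M}
    (hh : ContinuousOn h T) {x₀ : M} {N : Set M} (hN : N ∈ 𝓝 x₀) :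
    ∃ h' : P → M, ContinuousOn h' T ∧ ∀ t ∈ T, h' t ≠ x₀ ∧ (h' t = h t ∨ h t ∈ N ∧ h' t ∈ N) := by
  classical
  obtain ⟨e, he⟩ := hM x₀
  set u₀ := e.symm x₀ with hu₀
  have hu₀s : u₀ ∈ e.source := e.map_target he
  have heu : e u₀ = x₀ := e.right_inv he
  have hnb : e.source ∩ e ⁻¹' N ∈ 𝓝 u₀ :=
    inter_mem (e.open_source.mem_nhds hu₀s)
      ((e.continuousAt hu₀s).preimage_mem_nhds (by rwa [heu]))
  obtain ⟨r₂, hr₂, hball⟩ := Metric.nhds_basis_closedBall.mem_iff.1 hnb
  obtain ⟨r, rfl⟩ : ∃ r, r₂ = 2 * r := ⟨r₂ / 2, by ring⟩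
  have hr : 0 < r := by linarith
  have hsrc : Metric.closedBall u₀ (2 * r) ⊆ e.source := fun x hx => (hball hx).1
  set K : Set M := e '' Metric.closedBall u₀ (2 * r) with hK
  have hKc : IsClosed K :=
    ((isCompact_closedBall u₀ (2 * r)).image_of_continuousOn
      (e.continuousOn.mono hsrc)).isClosed
  have hKt : K ⊆ e.target := by
    rintro _ ⟨x, hx, rfl⟩
    exact e.map_source (hsrc hx)
  have hKN : K ⊆ N := by
    rintro _ ⟨x, hx, rfl⟩
    exact (hball hx).2
  have hT₂ : IsClosed (T ∩ h ⁻¹' K) := hh.preimage_isClosed_of_isClosed hT.isClosed hKc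
  have hu : ContinuousOn (fun t => e.symm (h t)) (T ∩ h ⁻¹' K) :=
    e.continuousOn_symm.comp (hh.mono inter_subset_left) (fun t ht => hKt ht.2)
  obtain ⟨U, hU⟩ := ContinuousMap.exists_restrict_eq hT₂
    (⟨_, continuousOn_iff_continuous_domRestrict.1 hu⟩ : C((T ∩ h ⁻¹' K : Set P), Eu m))
  have hU' : ∀ t ∈ T, h t ∈ K → U t = e.symm (h t) := fun t ht hk =>
    congrArg (fun f : C((T ∩ h ⁻¹' K : Set P), Eu m) => f ⟨t, ht, hk⟩) hU
  obtain ⟨v, hv, hv'⟩ := RPunct.push_eu hm U.continuous u₀ hr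
  have hvb : ∀ t ∈ T, h t ∈ K → v t ∈ Metric.closedBall u₀ (2 * r) := by
    intro t ht hk
    refine (hv' t).2.2 ?_
    rw [hU' t ht hk]
    obtain ⟨x, hx, hx'⟩ := hk
    rw [← hx', e.left_inv (hsrc hx)]
    exact hx
  have hbs : Metric.ball u₀ r ⊆ Metric.closedBall u₀ (2 * r) :=
    Metric.ball_subset_closedBall.trans (Metric.closedBall_subset_closedBall (by linarith))
  have hO : IsOpen (e '' Metric.ball u₀ r) :=
    e.isOpen_image_of_subset_source Metric.isOpen_ball (hbs.trans hsrc)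
  have hT₃ : IsClosed (T ∩ h ⁻¹' (e '' Metric.ball u₀ r)ᶜ) :=
    hh.preimage_isClosed_of_isClosed hT.isClosed hO.isClosed_compl
  refine ⟨fun t => if h t ∈ K then e (v t) else h t, ?_, fun t ht => ?_⟩
  · have hun : T = (T ∩ h ⁻¹' K) ∪ (T ∩ h ⁻¹' (e '' Metric.ball u₀ r)ᶜ) := by
      ext t
      constructor
      · intro ht
        by_cases hk : h t ∈ e '' Metric.ball u₀ r
        · exact Or.inl ⟨ht, image_mono hbs hk⟩
        · exact Or.inr ⟨ht, hk⟩
      · rintro (ht | ht) <;> exact ht.1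
    rw [hun]
    refine ContinuousOn.union_of_isClosed ?_ ?_ hT₂ hT₃
    · refine (e.continuousOn.comp hv.continuousOn
        (fun t ht => hsrc (hvb t ht.1 ht.2))).congr ?_
      intro t ht
      exact if_pos ht.2
    · refine (hh.mono inter_subset_left).congr ?_
      intro t ht
      by_cases hk : h t ∈ K
      · simp only [if_pos hk]
        have h1 : r ≤ dist (U t) u₀ := by
          by_contra hlt
          apply ht.2
          refine ⟨U t, not_le.1 hlt, ?_⟩
          rw [hU' t ht.1 hk, e.right_inv (hKt hk)]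
        rw [(hv' t).2.1 h1, hU' t ht.1 hk, e.right_inv (hKt hk)]
      · exact if_neg hk
  · by_cases hk : h t ∈ K
    · simp only [if_pos hk]
      refine ⟨fun h0 => (hv' t).1 ?_, Or.inr ⟨hKN hk, hKN ⟨_, hvb t ht hk, rfl⟩⟩⟩
      exact e.injOn (hsrc (hvb t ht hk)) hu₀s (h0.trans heu.symm)
    · simp only [if_neg hk]
      refine ⟨fun h0 => hk ?_, Or.inl trivial⟩
      exact ⟨u₀, Metric.mem_closedBall_self (by linarith), heu.trans h0.symm⟩

theorem punct {M : Type} [TopologicalSpace M] [T2Space M] {m : ℕ} (hM : Chartd M m) (hm : 3 ≤ m)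
    {S : Set M} (hS : IsOpen S) (h : IsSimplyConnected S) (x₀ : M) :
    IsSimplyConnected (S \ {x₀}) := by
  by_cases hx₀ : x₀ ∈ S
  swap
  · rwa [sdiff_singleton_eq_self hx₀]
  rw [isSimplyConnected_iff_exists_homotopy_refl_forall_mem] at h ⊢
  obtain ⟨h1, h2⟩ := h
  have hr1 : Module.finrank ℝ ℝ < m := by simp; omega
  have hr2 : Module.finrank ℝ (ℝ × ℝ) < m := by simp; omega
  constructor
  · obtain ⟨g, -, hg⟩ := push hM hr1 (T := {0}) isCompact_singleton (h := fun _ => x₀)
      continuousOn_const (hS.mem_nhds hx₀)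
    have hx : g 0 ∈ S \ {x₀} := by
      obtain ⟨h3, h4⟩ := hg 0 rfl
      exact ⟨(h4.resolve_left h3).2, h3⟩
    refine ⟨g 0, hx, fun y hy => ?_⟩
    generalize g 0 = x at hx
    obtain ⟨γ, hγ⟩ := h1.joinedIn x hx.1 y hy.1
    have hN : S \ {x, y} ∈ 𝓝 x₀ := by
      refine (hS.sdiff (toFinite _).isClosed).mem_nhds ⟨hx₀, ?_⟩
      rintro (h3 | h3)
      · exact hx.2 h3.symm
      · exact hy.2 h3.symm
    obtain ⟨f, hf, hf'⟩ := push hM hr1 (T := Icc (0 : ℝ) 1) isCompact_Icc (h := γ.extend)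
      γ.continuous_extend.continuousOn hN
    refine JoinedIn.ofLine hf ?_ ?_ ?_
    · rcases (hf' 0 (by simp)).2 with h3 | h3
      · simpa using h3
      · exact absurd (by simp) h3.1.2
    · rcases (hf' 1 (by simp)).2 with h3 | h3
      · simpa using h3
      · exact absurd (by simp) h3.1.2
    · rintro _ ⟨t, ht, rfl⟩
      refine ⟨?_, (hf' t ht).1⟩
      rcases (hf' t ht).2 with h3 | h3
      · rw [h3, γ.extend_apply ht]
        exact hγ _
      · exact h3.2.1
  · intro x p hp
    obtain ⟨F, hF⟩ := h2 x p (fun t => (hp t).1)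
    have hN : S \ range p ∈ 𝓝 x₀ := by
      refine (hS.sdiff (isCompact_range p.continuous).isClosed).mem_nhds ⟨hx₀, ?_⟩
      rintro ⟨t, ht⟩
      exact (hp t).2 ht
    have hc : Continuous fun q : ℝ × ℝ =>
        F (projIcc 0 1 zero_le_one q.1, projIcc 0 1 zero_le_one q.2) :=
      F.continuous.comp ((continuous_projIcc.comp continuous_fst).prodMk
        (continuous_projIcc.comp continuous_snd))
    obtain ⟨f, hf, hf'⟩ := push hM hr2 (T := Icc (0 : ℝ) 1 ×ˢ Icc (0 : ℝ) 1)
      (isCompact_Icc.prod isCompact_Icc) hc.continuousOn hN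
    have hf2 : ∀ s t : unitInterval, f (s, t) ≠ x₀ ∧
        (f (s, t) = F (s, t) ∨ F (s, t) ∈ S \ range p ∧ f (s, t) ∈ S \ range p) := by
      intro s t
      have := hf' (s, t) ⟨s.2, t.2⟩
      simpa only [projIcc_val] using this
    have hf3 : ∀ s t : unitInterval, F (s, t) ∈ range p → f (s, t) = F (s, t) := fun s t h3 =>
      (hf2 s t).2.resolve_right (fun h4 => h4.1.2 h3)
    have hxp : x ∈ range p := ⟨0, p.source⟩
    have hcont : Continuous fun q : unitInterval × unitInterval => f (q.1, q.2) :=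
      hf.comp_continuous ((continuous_subtype_val.comp continuous_fst).prodMk
        (continuous_subtype_val.comp continuous_snd)) (fun q => ⟨q.1.2, q.2.2⟩)
    refine ⟨⟨⟨⟨_, hcont⟩, fun t => ?_, fun t => ?_⟩, fun s t ht => ?_⟩, fun q => ?_⟩
    · have h3 : F (0, t) = p t := F.map_zero_left t
      exact (hf3 0 t ⟨t, h3.symm⟩).trans h3
    · have h3 : F (1, t) = x := F.map_one_left t
      exact (hf3 1 t (by rw [h3]; exact hxp)).trans h3
    · have h3 : F (s, t) = p t := F.eq_fst s ht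
      exact (hf3 s t ⟨t, h3.symm⟩).trans h3
    · refine ⟨?_, (hf2 q.1 q.2).1⟩
      change f (q.1, q.2) ∈ S
      rcases (hf2 q.1 q.2).2 with h3 | h3
      · rw [h3]
        exact hF _
      · exact h3.2.1

theorem Chartd.sub {M : Type} [TopologicalSpace M] {m : ℕ} (hM : Chartd M m) {S : Set M}
    (hS : IsOpen S) : Chartd S m := by
  intro x
  obtain ⟨e, he⟩ := hM x
  refine ⟨(e.symm.subtypeRestr (s := ⟨S, hS⟩) ⟨x⟩).symm, ?_⟩
  rw [OpenPartialHomeomorph.symm_target, OpenPartialHomeomorph.subtypeRestr_source]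
  exact he

theorem Chartd.of_equiv {V : Type} [TopologicalSpace V] {m : ℕ} (e : Eu m ≃ₜ V) : Chartd V m :=
  fun _ => ⟨e.toOpenPartialHomeomorph, by simp⟩

end HW
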