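import Pool.Agent.P.MP_9699e0_gt.W.QDefs

/-! Coordinates on the Fermat quartic. -/

set_option autoImplicit false
set_option linter.unusedSectionVars false

noncomputable section

namespace HW

open HK3 Pool.Agent.P.MP_9699e0_gt Set Filter Topology



namespace RQA

end RQA

theorem zt_ne : zt ≠ 0 := ex_ne _

theorem zt_sq : zt ^ 2 = Complex.I := by
  rw [zt, ex, ← Complex.exp_nat_mul]
  refine Eq.trans ?_ Complex.exp_pi_div_two_mul_I
  congr 1
  push_cast
  ring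

theorem iz_zero : iz 0 = 1 := pow_zero _

theorem iz_one : iz 1 = Complex.I := pow_one _

theorem iz_two : iz 2 = -1 := Complex.I_sq

theorem iz_three : iz 3 = -Complex.I := Complex.I_pow_three

theorem iz_four (k : Fin 4) : iz k ^ 4 = 1 := by
  rw [iz, ← pow_mul, mul_comm, pow_mul, Complex.I_pow_four, one_pow]

theorem iz_add (a b : Fin 4) : iz (a + b) = iz a * iz b := by
  rw [iz, iz, iz, ← pow_add, Fin.val_add]
  exact (pow_eq_pow_mod _ Complex.I_pow_four).symm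

theorem iz_neg (a : Fin 4) : iz (-a) * iz a = 1 := by
  rw [← iz_add, neg_add_cancel, iz_zero]

theorem iz_ne (k : Fin 4) : iz k ≠ 0 := pow_ne_zero _ Complex.I_ne_zero

theorem iz_inj : Function.Injective iz := by
  have h : ∀ k : Fin 4, iz k = 1 → k = 0 := by
    intro k hk
    fin_cases k
    · rfl
    · have := congrArg Complex.re (iz_one.symm.trans hk)
      simp at this
    · have := congrArg Complex.re (iz_two.symm.trans hk)
      norm_num at this
    · have := congrArg Complex.re (iz_three.symm.trans hk)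
      simp at this
  intro a b e
  have h1 := h (-a + b) (by rw [iz_add, ← e, iz_neg])
  exact neg_add_eq_zero.1 h1

theorem exists_iz {x : ℂ} (h : x ^ 4 = 1) : ∃ k, x = iz k := by
  have e : (x - 1) * (x - Complex.I) * ((x + 1) * (x + Complex.I)) = 0 := by
    linear_combination h - (x ^ 2 - 1) * Complex.I_sq
  rcases mul_eq_zero.1 e with e | e <;> rcases mul_eq_zero.1 e with e | e
  · exact ⟨0, by rw [iz_zero]; exact sub_eq_zero.1 e⟩
  · exact ⟨1, by rw [iz_one]; exact sub_eq_zero.1 e⟩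
  · exact ⟨2, by rw [iz_two]; exact eq_neg_of_add_eq_zero_left e⟩
  · exact ⟨3, by rw [iz_three]; exact eq_neg_of_add_eq_zero_left e⟩

theorem Cn_smul {c : ℂ} (hc : c ≠ 0) {v : C4} (hv : v ∈ Cn) : c • v ∈ Cn := by
  refine ⟨smul_ne_zero hc hv.1, ?_⟩
  simp only [Pi.smul_apply, smul_eq_mul, mul_pow]
  rw [← Finset.mul_sum, hv.2, mul_zero]

theorem exists_two {v : C4} (hv : v ∈ Cn) : ∃ i j, i ≠ j ∧ v i ≠ 0 ∧ v j ≠ 0 := by
  obtain ⟨i, hi⟩ := Function.ne_iff.1 hv.1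
  by_contra h
  have h1 : ∀ j, j ≠ i → v j = 0 := fun j hj => by
    by_contra h2
    exact h ⟨i, j, hj.symm, hi, h2⟩
  have h2 := hv.2
  rw [Finset.sum_eq_single i (fun j _ hj => by rw [h1 j hj]; norm_num) (by simp)] at h2
  exact hi (pow_eq_zero_iff (by norm_num) |>.1 h2)

theorem rq_mem (p : Fermat) : rq p ∈ Cn := ⟨rp_ne _, p.2⟩

theorem inc_qm {v : C4} (hv : v ∈ Cn) : inc (qm v) = pm 3 v := by
  rw [qm, dif_pos hv]
  rfl

theorem inc_emb : IsEmbedding inc := IsEmbedding.subtypeVal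

theorem qm_rq (p : Fermat) : qm (rq p) = p :=
  inc_emb.injective (by rw [inc_qm (rq_mem p), rq, pm_rp])

theorem rq_qm {v : C4} (hv : v ∈ Cn) : ∃ c : ℂ, c ≠ 0 ∧ rq (qm v) = c • v := by
  rw [rq, inc_qm hv]
  exact rp_pm hv.1

theorem qm_smul {c : ℂ} (hc : c ≠ 0) {v : C4} (hv : v ∈ Cn) : qm (c • v) = qm v :=
  inc_emb.injective (by rw [inc_qm hv, inc_qm (Cn_smul hc hv), pm_smul hc])

theorem qm_eq_iff {v w : C4} (hv : v ∈ Cn) (hw : w ∈ Cn) :
    qm v = qm w ↔ ∃ c : ℂ, c ≠ 0 ∧ v = c • w := by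
  rw [← inc_emb.injective.eq_iff, inc_qm hv, inc_qm hw, pm_eq_iff hv.1 hw.1]

theorem continuousOn_qm : ContinuousOn qm Cn :=
  inc_emb.continuousOn_iff.2
    ((continuousOn_pm.mono fun _ hv => hv.1).congr fun _ hv => inc_qm hv)

theorem mem_UQ {j : Fin 4} {p : Fermat} : p ∈ UQ j ↔ rq p j ≠ 0 := Iff.rfl

theorem qm_mem_UQ {v : C4} (hv : v ∈ Cn) {j : Fin 4} : qm v ∈ UQ j ↔ v j ≠ 0 := by
  rw [UQ, mem_preimage, inc_qm hv, pm_mem_Uc hv.1]

theorem isOpen_UQ (j : Fin 4) : IsOpen (UQ j) := (isOpen_Uc j).preimage inc.continuous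

theorem exists_UQ (p : Fermat) : ∃ j, p ∈ UQ j := exists_Uc (inc p)

theorem continuousOn_nq (j : Fin 4) : ContinuousOn (nq j) (UQ j) :=
  (continuousOn_nl j).comp inc.continuous.continuousOn fun _ h => h

theorem nq_eq (j : Fin 4) (p : Fermat) : nq j p = (rq p j)⁻¹ • rq p := rfl

theorem nq_qm {v : C4} (hv : v ∈ Cn) (j : Fin 4) : nq j (qm v) = (v j)⁻¹ • v := by
  rw [nq, inc_qm hv, nl_pm hv.1]

theorem nq_self {j : Fin 4} {p : Fermat} (h : p ∈ UQ j) : nq j p j = 1 := nl_self h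

theorem nq_mem {j : Fin 4} {p : Fermat} (h : p ∈ UQ j) : nq j p ∈ Cn :=
  Cn_smul (inv_ne_zero h) (rq_mem p)

theorem qm_nq {j : Fin 4} {p : Fermat} (h : p ∈ UQ j) : qm (nq j p) = p := by
  rw [nq_eq, qm_smul (inv_ne_zero (mem_UQ.1 h)) (rq_mem p), qm_rq]

theorem t2_Q : T2Space Fermat :=
  haveI := t2_CP 3
  inc_emb.t2Space

theorem compact_Q : CompactSpace Fermat := by
  have hc : IsClosed {v : C4 | ∑ i, v i ^ 4 = 0} := isClosed_eq (by fun_prop) continuous_const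
  have h : IsCompact (qm '' (Metric.sphere 0 1 ∩ {v : C4 | ∑ i, v i ^ 4 = 0})) :=
    ((isCompact_sphere _ _).inter_right hc).image_of_continuousOn
      (continuousOn_qm.mono fun v hv => ⟨fun h0 => by simpa [h0] using hv.1, hv.2⟩)
  refine ⟨h.of_isClosed_subset isClosed_univ fun p _ => ?_⟩
  have h1 : ‖rq p‖ ≠ 0 := norm_ne_zero_iff.2 (rq_mem p).1
  have h2 : ((‖rq p‖ : ℂ))⁻¹ ≠ 0 := inv_ne_zero (Complex.ofReal_ne_zero.2 h1)
  refine ⟨((‖rq p‖ : ℂ))⁻¹ • rq p, ⟨?_, (Cn_smul h2 (rq_mem p)).2⟩, ?_⟩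
  · rw [mem_sphere_zero_iff_norm, norm_smul, norm_inv, Complex.norm_real, norm_norm,
      inv_mul_cancel₀ h1]
  · rw [qm_smul h2 (rq_mem p), qm_rq]

end HW
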