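import Pool.Agent.P.MP_9699e0_gt.W.QA

/-! Holomorphic charts of the Fermat quartic. -/

set_option autoImplicit false
set_option linter.unusedSectionVars false

noncomputable section

namespace HW

open HK3 Pool.Agent.P.MP_9699e0_gt Set Filter Topology



namespace RQCh

/-- The principal fourth root. -/
def rt (a : ℂ) : ℂ := a ^ (((4 : ℕ) : ℂ)⁻¹)

theorem rt_pow (a : ℂ) : rt a ^ 4 = a := Complex.cpow_nat_inv_pow a (by norm_num)

theorem rt_diff {a : ℂ} (h : a ∈ Complex.slitPlane) : DifferentiableAt ℂ rt a :=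
  DifferentiableAt.cpow differentiableAt_id (differentiableAt_const _) h

theorem rt_ne {a : ℂ} (h : a ∈ Complex.slitPlane) : rt a ≠ 0 := fun e =>
  Complex.slitPlane_ne_zero h (by rw [← rt_pow a, e]; simp)

/-- The image of the slit plane under the fourth root. -/
def T : Set ℂ := {w | w ^ 4 ∈ Complex.slitPlane ∧ 0 < (w / rt (w ^ 4)).re}

theorem isOpen_T : IsOpen T := by
  refine isOpen_iff_mem_nhds.2 fun w hw => ?_
  have h1 : ContinuousAt (fun w : ℂ => w ^ 4) w := by fun_prop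
  have h2 : ContinuousAt (fun w : ℂ => (w / rt (w ^ 4)).re) w :=
    Complex.continuous_re.continuousAt.comp (continuousAt_id.div
      (ContinuousAt.comp (f := fun w : ℂ => w ^ 4) (rt_diff hw.1).continuousAt h1) (rt_ne hw.1))
  exact inter_mem (h1 (Complex.isOpen_slitPlane.mem_nhds hw.1)) (h2 (lt_mem_nhds hw.2))

theorem rt_mem {a : ℂ} (h : a ∈ Complex.slitPlane) : rt a ∈ T := by
  simp only [T, mem_ofPred_eq, rt_pow, div_self (rt_ne h), h, Complex.one_re, true_and, one_pos]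

theorem rt_eq {w : ℂ} (h : w ∈ T) : rt (w ^ 4) = w := by
  obtain ⟨k, hk⟩ := exists_iz (x := w / rt (w ^ 4))
    (by rw [div_pow, rt_pow, div_self (Complex.slitPlane_ne_zero h.1)])
  have h2 := h.2
  rw [hk] at h2
  have h3 : k = 0 := by
    fin_cases k
    · rfl
    · simp [iz] at h2
    · norm_num [iz] at h2
    · simp [iz, pow_succ] at h2
  rw [h3, iz_zero, div_eq_one_iff_eq (rt_ne h.1)] at hk
  exact hk.symm

theorem one_mem : (1 : ℂ) ∈ T := by
  simp [T, rt]

/-- The radicand. -/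
def A (c : ℂ) (ξ : E) : ℂ := -(1 + ξ.1 ^ 4 + ξ.2 ^ 4) / c ^ 4

/-- The parametrisation. -/
def sg (π : Equiv.Perm (Fin 4)) (c : ℂ) (ξ : E) (i : Fin 4) : ℂ :=
  ![1, c * rt (A c ξ), ξ.1, ξ.2] (π.symm i)

theorem A_diff (c : ℂ) : Differentiable ℂ (A c) := by
  unfold A
  fun_prop

variable (π : Equiv.Perm (Fin 4)) {c : ℂ}

theorem sg0 (ξ : E) : sg π c ξ (π 0) = 1 := by simp [sg]

theorem sg1 (ξ : E) : sg π c ξ (π 1) = c * rt (A c ξ) := by simp [sg]

theorem sg2 (ξ : E) : sg π c ξ (π 2) = ξ.1 := by simp [sg]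

theorem sg3 (ξ : E) : sg π c ξ (π 3) = ξ.2 := by simp [sg]

theorem sg_mem (hc : c ≠ 0) (ξ : E) : sg π c ξ ∈ Cn := by
  refine ⟨fun h => one_ne_zero ((sg0 π ξ).symm.trans (congrFun h _)), ?_⟩
  rw [← Equiv.sum_comp π, Fin.sum_univ_four, sg0, sg1, sg2, sg3, mul_pow, rt_pow, A]
  field_simp
  ring

theorem nq_sg (hc : c ≠ 0) (ξ : E) : nq (π 0) (qm (sg π c ξ)) = sg π c ξ := by
  rw [nq_qm (sg_mem π hc ξ), sg0, inv_one, one_smul]

theorem sg_diff : DifferentiableOn ℂ (sg π c) (A c ⁻¹' Complex.slitPlane) := by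
  refine fun ξ hξ => (differentiableAt_pi.2 fun i => ?_).differentiableWithinAt
  obtain ⟨j, rfl⟩ := π.surjective i
  fin_cases j
  · simp [sg0]
  · simpa [sg1] using ((rt_diff hξ).comp ξ (A_diff c ξ)).const_mul c
  · simp [sg2]
  · simp [sg3]

theorem A_nq (hc : c ≠ 0) {p : Fermat} (hp : p ∈ UQ (π 0)) :
    A c (nq (π 0) p (π 2), nq (π 0) p (π 3)) = (nq (π 0) p (π 1) / c) ^ 4 := by
  have h := (nq_mem hp).2
  rw [← Equiv.sum_comp π, Fin.sum_univ_four, nq_self hp] at h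
  rw [A, div_pow]
  congr 1
  linear_combination -h

end RQCh

open RQCh

theorem exists_chart (π : Equiv.Perm (Fin 4)) {c : ℂ} (hc : c ≠ 0) :
    ∃ (e : OpenPartialHomeomorph E Fermat) (σ : E → C4), DifferentiableOn ℂ σ e.source ∧
      (∀ ξ ∈ e.source, σ ξ ∈ Cn ∧ e ξ = qm (σ ξ)) ∧
      (∀ ξ, σ ξ (π 0) = 1 ∧ σ ξ (π 2) = ξ.1 ∧ σ ξ (π 3) = ξ.2) ∧
      (∀ p ∈ e.target, p ∈ UQ (π 0) ∧ e.symm p = (nq (π 0) p (π 2), nq (π 0) p (π 3))) ∧
      ∀ p ∈ UQ (π 0), nq (π 0) p (π 1) = c → p ∈ e.target := by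
  have hn : ∀ i, ContinuousOn (fun p => nq (π 0) p i) (UQ (π 0)) := fun i =>
    (continuous_apply i).comp_continuousOn (continuousOn_nq _)
  refine ⟨{ toFun := fun ξ => qm (sg π c ξ)
            invFun := fun p => (nq (π 0) p (π 2), nq (π 0) p (π 3))
            source := A c ⁻¹' Complex.slitPlane
            target := UQ (π 0) ∩ (fun p => nq (π 0) p (π 1) / c) ⁻¹' T
            map_source' := fun ξ hξ => ⟨?_, ?_⟩
            map_target' := fun p hp => ?_
            left_inv' := fun ξ _ => ?_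
            right_inv' := fun p hp => ?_
            open_source := Complex.isOpen_slitPlane.preimage (A_diff c).continuous
            open_target := ((hn _).div_const c).isOpen_inter_preimage (isOpen_UQ _) isOpen_T
            continuousOn_toFun := continuousOn_qm.comp (sg_diff π).continuousOn
              fun ξ _ => sg_mem π hc ξ
            continuousOn_invFun := ((hn _).prodMk (hn _)).mono inter_subset_left },
    sg π c, sg_diff π, fun ξ _ => ⟨sg_mem π hc ξ, rfl⟩, fun ξ => ⟨sg0 π ξ, sg2 π ξ, sg3 π ξ⟩,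
    fun p hp => ⟨hp.1, rfl⟩, fun p hp e => ⟨hp, ?_⟩⟩
  · rw [qm_mem_UQ (sg_mem π hc ξ), sg0]
    exact one_ne_zero
  · rw [mem_preimage, nq_sg π hc, sg1, mul_div_cancel_left₀ _ hc]
    exact rt_mem hξ
  · rw [mem_preimage, A_nq π hc hp.1]
    exact hp.2.1
  · rw [nq_sg π hc, sg2, sg3]
  · refine Eq.trans (congrArg qm (funext fun i => ?_)) (qm_nq hp.1)
    obtain ⟨j, rfl⟩ := π.surjective i
    fin_cases j
    · exact (sg0 π _).trans (nq_self hp.1).symm
    · refine (sg1 π _).trans ?_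
      rw [A_nq π hc hp.1, rt_eq hp.2, mul_div_cancel₀ _ hc]
      rfl
    · exact sg2 π _
    · exact sg3 π _
  · rw [mem_preimage, e, div_self hc]
    exact one_mem

end HW
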