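import Pool.Agent.P.MP_9699e0_gt.W.QCh
import Pool.Agent.P.MP_9699e0_gt.Det

/-! The oriented atlas of the Fermat quartic; hyperplane sections are flat. -/

set_option autoImplicit false
set_option linter.unusedSectionVars false

noncomputable section

namespace HW

open HK3 Pool.Agent.P.MP_9699e0_gt Set Filter Topology



namespace RQCo

/-- The properties of a chart. -/
structure Ch (π : Equiv.Perm (Fin 4)) (e : OpenPartialHomeomorph E Fermat) (σ : E → C4) :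
    Prop where
  dif : DifferentiableOn ℂ σ e.source
  par : ∀ ξ ∈ e.source, σ ξ ∈ Cn ∧ e ξ = qm (σ ξ)
  crd : ∀ ξ, σ ξ (π 0) = 1 ∧ σ ξ (π 2) = ξ.1 ∧ σ ξ (π 3) = ξ.2
  inv : ∀ p ∈ e.target, p ∈ UQ (π 0) ∧ e.symm p = (nq (π 0) p (π 2), nq (π 0) p (π 3))

theorem ev_mem {e e' : OpenPartialHomeomorph E Fermat} {a : E} (ha : a ∈ e.source)
    (h : e a ∈ e'.target) : ∀ᶠ ξ in 𝓝 a, ξ ∈ e.source ∧ e ξ ∈ e'.target :=
  (show ∀ᶠ ξ in 𝓝 a, ξ ∈ e.source from e.open_source.mem_nhds ha).and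
    ((e.continuousAt ha).eventually (e'.open_target.mem_nhds h))

theorem dif_tr {π π' : Equiv.Perm (Fin 4)} {e e' : OpenPartialHomeomorph E Fermat}
    {σ σ' : E → C4} (H : Ch π e σ) (H' : Ch π' e' σ') {a : E} (ha : a ∈ e.source)
    (h : e a ∈ e'.target) : DifferentiableAt ℂ (fun ξ => e'.symm (e ξ)) a := by
  have hσ : DifferentiableAt ℂ σ a := H.dif.differentiableAt (e.open_source.mem_nhds ha)
  have hc : ∀ i, DifferentiableAt ℂ (fun ξ => σ ξ i) a := differentiableAt_pi.1 hσ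
  have h0 : σ a (π' 0) ≠ 0 := by
    have h1 := (H'.inv _ h).1
    rw [(H.par a ha).2] at h1
    exact (qm_mem_UQ (H.par a ha).1).1 h1
  have hd : DifferentiableAt ℂ (fun ξ => ((σ ξ (π' 0))⁻¹ * σ ξ (π' 2),
      (σ ξ (π' 0))⁻¹ * σ ξ (π' 3))) a :=
    (((hc _).inv h0).mul (hc _)).prodMk (((hc _).inv h0).mul (hc _))
  refine hd.congr_of_eventuallyEq ?_
  filter_upwards [ev_mem ha h] with ξ hξ
  rw [(H'.inv _ hξ.2).2, (H.par ξ hξ.1).2, nq_qm (H.par ξ hξ.1).1]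
  rfl

theorem trans {π π' : Equiv.Perm (Fin 4)} {e e' : OpenPartialHomeomorph E Fermat}
    {σ σ' : E → C4} (H : Ch π e σ) (H' : Ch π' e' σ') {a b : E} (ha : a ∈ e.source)
    (hb : b ∈ e'.source) (h : e a = e' b) : ∃ (γ : E → E) (D : E →L[ℝ] E),
      γ a = b ∧ HasFDerivAt γ D a ∧ 0 < D.det ∧ ∀ᶠ ξ in 𝓝 a, e' (γ ξ) = e ξ := by
  have h1 : e a ∈ e'.target := h ▸ e'.map_source hb
  have h2 : e' b ∈ e.target := h ▸ e.map_source ha
  have hab : e'.symm (e a) = b := by rw [h, e'.left_inv hb]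
  have d1 := (dif_tr H H' ha h1).hasFDerivAt
  have d2 := (dif_tr H' H hb h2).hasFDerivAt
  have d3 : HasFDerivAt (fun ξ => e.symm (e' (e'.symm (e ξ))))
      ((fderiv ℂ (fun ξ => e.symm (e' ξ)) b).comp (fderiv ℂ (fun ξ => e'.symm (e ξ)) a)) a :=
    HasFDerivAt.comp (g := fun ξ => e.symm (e' ξ)) (f := fun ξ => e'.symm (e ξ)) a
      (by rw [hab]; exact d2) d1
  have d4 : HasFDerivAt (fun ξ => e.symm (e' (e'.symm (e ξ)))) (ContinuousLinearMap.id ℂ E) a := by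
    refine (hasFDerivAt_id a).congr_of_eventuallyEq ?_
    filter_upwards [ev_mem ha h1] with ξ hξ
    rw [e'.right_inv hξ.2, e.left_inv hξ.1]
    rfl
  have hi : Function.Injective (fderiv ℂ (fun ξ => e'.symm (e ξ)) a) := by
    intro x y hxy
    have h3 := d3.unique d4
    have hx := congrArg (fun L : E →L[ℂ] E => L x) h3
    have hy := congrArg (fun L : E →L[ℂ] E => L y) h3
    simp only [ContinuousLinearMap.comp_apply, ContinuousLinearMap.id_apply] at hx hy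
    rw [← hx, ← hy, hxy]
  refine ⟨fun ξ => e'.symm (e ξ), _, hab, d1.restrictScalars ℝ, det_cplx _ hi, ?_⟩
  filter_upwards [ev_mem ha h1] with ξ hξ
  exact e'.right_inv hξ.2

theorem hol {π : Equiv.Perm (Fin 4)} {e : OpenPartialHomeomorph E Fermat} {σ : E → C4}
    (H : Ch π e σ) {a : E} (ha : a ∈ e.source) : ∃ (σ : E → C4) (D : E →L[ℂ] C4),
      HasFDerivAt σ D a ∧ (∀ᶠ ξ in 𝓝 a, σ ξ ∈ Cn ∧ e ξ = qm (σ ξ)) ∧
        ∀ (ξ : E) (c : ℂ), D ξ = c • σ a → ξ = 0 := by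
  have hσ := (H.dif.differentiableAt (e.open_source.mem_nhds ha)).hasFDerivAt
  have hc := hasFDerivAt_pi'.1 hσ
  refine ⟨σ, _, hσ, ?_, fun ξ c h => ?_⟩
  · filter_upwards [e.open_source.mem_nhds ha] with ξ hξ
    exact H.par ξ hξ
  · have e0 : (fun ξ => σ ξ (π 0)) = fun _ => 1 := funext fun ξ => (H.crd ξ).1
    have e2 : (fun ξ => σ ξ (π 2)) = Prod.fst := funext fun ξ => (H.crd ξ).2.1
    have e3 : (fun ξ => σ ξ (π 3)) = Prod.snd := funext fun ξ => (H.crd ξ).2.2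
    have k0 := hc (π 0)
    have k2 := hc (π 2)
    have k3 := hc (π 3)
    rw [e0] at k0
    rw [e2] at k2
    rw [e3] at k3
    have m0 := congrArg (fun L : E →L[ℂ] ℂ => L ξ) (k0.unique (hasFDerivAt_const (1 : ℂ) a))
    have m2 := congrArg (fun L : E →L[ℂ] ℂ => L ξ) (k2.unique hasFDerivAt_fst)
    have m3 := congrArg (fun L : E →L[ℂ] ℂ => L ξ) (k3.unique hasFDerivAt_snd)
    simp only [ContinuousLinearMap.comp_apply, ContinuousLinearMap.proj_apply, h, Pi.smul_apply,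
      smul_eq_mul, (H.crd a).1, mul_one, ContinuousLinearMap.zero_apply,
      ContinuousLinearMap.coe_fst', ContinuousLinearMap.coe_snd'] at m0 m2 m3
    rw [m0, zero_mul] at m2 m3
    exact Prod.ext m2.symm m3.symm

theorem nq_ne {p : Fermat} {i j : Fin 4} (hi : rq p i ≠ 0) (hj : rq p j ≠ 0) : nq i p j ≠ 0 := by
  rw [nq_eq]
  exact mul_ne_zero (inv_ne_zero hi) hj

end RQCo

theorem exists_perm {i j : Fin 4} (h : i ≠ j) :
    ∃ π : Equiv.Perm (Fin 4), π 0 = i ∧ π 1 = j := by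
  revert i j
  decide

theorem exists_perm' {i j k : Fin 4} (h : i ≠ j) (h1 : i ≠ k) (h2 : j ≠ k) :
    ∃ π : Equiv.Perm (Fin 4), π 0 = i ∧ π 1 = j ∧ π 3 = k := by
  revert i j k
  decide

theorem flat_UQ (j : Fin 4) : Flat (UQ j) := by
  intro q hq
  have hq' : rq q j = 0 := by
    by_contra h
    exact hq (mem_UQ.2 h)
  obtain ⟨i, i', hi, h1, h2⟩ := exists_two (rq_mem q)
  obtain ⟨π, rfl, rfl, rfl⟩ := exists_perm' hi (fun h => h1 (h ▸ hq')) (fun h => h2 (h ▸ hq'))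
  obtain ⟨e, σ, -, hp, hc, -, ht⟩ := exists_chart π (RQCo.nq_ne h1 h2)
  refine ⟨e, ht q (mem_UQ.2 h1) rfl, fun ξ hξ => ?_⟩
  rw [(hp ξ hξ).2, qm_mem_UQ (hp ξ hξ).1, (hc ξ).2.2]

theorem exists_oatQ : ∃ A : OAt Fermat, Hol A := by
  have h := fun k : Equiv.Perm (Fin 4) × {c : ℂ // c ≠ 0} => exists_chart k.1 k.2.2
  choose e σ h1 h2 h3 h4 h5 using h
  have H : ∀ k, RQCo.Ch k.1 (e k) (σ k) := fun k => ⟨h1 k, h2 k, h3 k, h4 k⟩
  refine ⟨⟨_, fun k => (e k).source, fun k => e k, fun k => (e k).open_source,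
    fun k x hx => ⟨e k, hx, rfl⟩, fun p => ?_,
    fun k l a ha b hb h => RQCo.trans (H k) (H l) ha hb h⟩, fun k a ha => RQCo.hol (H k) ha⟩
  obtain ⟨i, j, hi, k1, k2⟩ := exists_two (rq_mem p)
  obtain ⟨π, rfl, rfl⟩ := exists_perm hi
  have ht := h5 (π, ⟨_, RQCo.nq_ne k1 k2⟩) p (mem_UQ.2 k1) rfl
  exact ⟨_, _, (e _).map_target ht, (e _).right_inv ht⟩

end HW
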