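import Pool.Agent.P.MP_9699e0_gt.W.BDefs
import Pool.Agent.P.MP_9699e0_gt.Wd

/-! Definitions for the Fermat quartic: coordinates, symmetries, lines, the Milnor fibre. -/

set_option autoImplicit false
set_option linter.unusedSectionVars false

noncomputable section

namespace HW

open HK3 Pool.Agent.P.MP_9699e0_gt Set Filter Topology

/-- Homogeneous coordinates. -/
abbrev C4 : Type := Fin 4 → ℂ

/-- Exponents of three fourth roots of unity. -/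
abbrev G3 : Type := Fin 4 × Fin 4 × Fin 4

/-- A primitive eighth root of unity. -/
def zt : ℂ := ex (1 / 8)

/-- The fourth roots of unity. -/
def iz (k : Fin 4) : ℂ := Complex.I ^ (k : ℕ)

theorem zt_four : zt ^ 4 = -1 := by
  have h : zt ^ 4 = ex ((1 : ℤ) / 2) := by
    rw [show (((1 : ℤ) : ℝ) / 2) = 1 / 8 + (1 / 8 + (1 / 8 + 1 / 8)) by norm_num, ex_add, ex_add,
      ex_add, zt]
    ring
  rw [h, ex_half, zpow_one]

/-- The affine cone without its vertex. -/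
def Cn : Set C4 := {v | v ≠ 0 ∧ ∑ i, v i ^ 4 = 0}

theorem pm_mem {v : C4} (h : v ∈ Cn) : ∑ i, rp (pm 3 v) i ^ 4 = 0 := by
  obtain ⟨c, -, e⟩ := rp_pm (n := 3) h.1
  rw [e]
  simp only [Pi.smul_apply, smul_eq_mul, mul_pow]
  rw [← Finset.mul_sum, h.2, mul_zero]

theorem zt_mem : (![zt, 1, 0, 0] : C4) ∈ Cn :=
  ⟨fun h => one_ne_zero (congrFun h 1), by simp [Fin.sum_univ_four, zt_four]⟩

open Classical in
/-- The point of the quartic with the coordinates `v`. -/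
def qm (v : C4) : Fermat :=
  if h : v ∈ Cn then ⟨pm 3 v, pm_mem h⟩ else ⟨pm 3 ![zt, 1, 0, 0], pm_mem zt_mem⟩

/-- The inclusion in projective space. -/
def inc : C(Fermat, CP 3) := ⟨Subtype.val, continuous_subtype_val⟩

/-- Coordinates of a point. -/
def rq (p : Fermat) : C4 := rp (inc p)

/-- Normalised coordinates of a point. -/
def nq (j : Fin 4) (p : Fermat) : C4 := nl j (inc p)

/-- The affine pieces. -/
def UQ (j : Fin 4) : Set Fermat := inc ⁻¹' Uc j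

/-- The hyperplane class. -/
def cH : Simp Fermat 2 → ℤ := pull inc (xx 3)

/-- Monomial transformations. -/
def ac (π : Equiv.Perm (Fin 4)) (u : C4) (p : Fermat) : Fermat := qm fun i => u i * rq p (π i)

/-- Diagonal transformations. -/
def dq (h : G3) : Fermat → Fermat := ac 1 ![iz h.1, iz h.2.1, iz h.2.2, 1]

/-- Exchange of two coordinates. -/
def sw (i j : Fin 4) : Fermat → Fermat := ac (Equiv.swap i j) 1

/-- The tangent hyperplane at `p`. -/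
def Tan (p v : C4) : Prop := ∑ i, p i ^ 3 * v i = 0

/-- The parametrisations are holomorphic immersions. -/
def Hol (A : OAt Fermat) : Prop := ∀ k, ∀ a ∈ A.W k, ∃ (σ : E → C4) (D : E →L[ℂ] C4),
  HasFDerivAt σ D a ∧ (∀ᶠ ξ in 𝓝 a, σ ξ ∈ Cn ∧ A.f k ξ = qm (σ ξ)) ∧
    ∀ (ξ : E) (c : ℂ), D ξ = c • σ a → ξ = 0

/-- The class `c` belongs to a line bundle with a section that vanishes only on `Z` and has
linear local equations there. -/
def Dv (Z : Submodule ℂ C4) (c : Simp Fermat 2 → ℤ) : Prop :=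
  ∃ (L : Et Fermat) (J : L.Ω → L.Ω → ℂ) (s : L.Ω → ℂ), L.Coc J ∧ L.Sec J univ s ∧ L.Rep J c ∧
    (∀ u ∈ L.dom, s u = 0 → rq (L.f u) ∈ Z) ∧
    ∀ p, rq p ∈ Z → ∃ (m : Fermat → L.Ω) (i : Fin 4) (ν : C4 →ₗ[ℂ] ℂ), p ∈ UQ i ∧
      (∀ᶠ x in 𝓝 p, ContinuousAt m x ∧ m x ∈ L.dom ∧ L.f (m x) = x ∧ s (m x) = ν (nq i x)) ∧
      ν (rq p) = 0 ∧ ∀ v, Tan (rq p) v → ν v = 0 → v ∈ Z

/-- The index set of the 48 lines. -/
abbrev Ln : Type := Fin 3 × Fin 4 × Fin 4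

/-- The three ways to pair the coordinates. -/
def ix : Fin 3 → Fin 4 → Fin 4 := ![![0, 1, 2, 3], ![0, 2, 1, 3], ![0, 3, 1, 2]]

/-- The first equation of a line. -/
def lam (l : Ln) : C4 →ₗ[ℂ] ℂ :=
  LinearMap.proj (ix l.1 0) - (zt * iz l.2.1) • LinearMap.proj (ix l.1 1)

/-- The second equation of a line. -/
def mu (l : Ln) : C4 →ₗ[ℂ] ℂ :=
  LinearMap.proj (ix l.1 2) - (zt * iz l.2.2) • LinearMap.proj (ix l.1 3)

/-- The plane that belongs to a line. -/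
def Zl (l : Ln) : Submodule ℂ C4 := LinearMap.ker (lam l) ⊓ LinearMap.ker (mu l)

/-- The cofactor of a linear factor of `x ^ 4 + y ^ 4`. -/
def cub (a : Fin 4) (x y : ℂ) : ℂ :=
  x ^ 3 + x ^ 2 * (zt * iz a * y) + x * (zt * iz a * y) ^ 2 + (zt * iz a * y) ^ 3

/-- Incidence of two lines. -/
def mt (l m : Ln) : Bool :=
  if l.1 = m.1 then l.2.1 = m.2.1 || l.2.2 = m.2.2
  else if l.1 ≠ 2 ∧ m.1 ≠ 2 then l.2.1 + m.2.2 = l.2.2 + m.2.1
  else if l.1 = 0 then l.2.1 + l.2.2 + m.2.2 + 1 = m.2.1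
  else if m.1 = 0 then m.2.1 + m.2.2 + l.2.2 + 1 = l.2.1
  else l.2.1 + l.2.2 = m.2.1 + m.2.2

/-- The intersection numbers of the lines. -/
def gL (l m : Ln) : ℤ := if l = m then -2 else if mt l m then 1 else 0

/-- The two axes. -/
def X4 : Set ℂ := {x | x.re = 0 ∨ x.im = 0}

/-- Two half axes. -/
def Q4 : Set ℂ := {x | 0 ≤ x.re ∧ x.im = 0 ∨ x.re = 0 ∧ 0 ≤ x.im}

section

variable {V : Type} [NormedAddCommGroup V] [NormedSpace ℝ V]

/-- A cone without its vertex. -/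
def Cone (A : Set V) : Prop := (0 : V) ∉ A ∧ ∀ t : ℝ, 0 < t → ∀ y ∈ A, t • y ∈ A

/-- The join with four half axes. -/
def jn (A : Set V) : Set (ℂ × V) := {p | p.1 ∈ X4 ∧ (p.2 ∈ A ∨ p.2 = 0) ∧ p ≠ 0}

/-- The join with one half axis. -/
def cn (A : Set V) : Set (ℂ × V) :=
  {p | (0 ≤ p.1.re ∧ p.1.im = 0) ∧ (p.2 ∈ A ∨ p.2 = 0) ∧ p ≠ 0}

/-- Rotation of the first coordinate. -/
def r1 (k : Fin 4) (p : ℂ × V) : ℂ × V := (iz k * p.1, p.2)

/-- The open sets that cover the join. -/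
def Uk (V : Type) [Zero V] (k : Fin 4) : Set (ℂ × V) := {p | p.2 ≠ 0 ∨ 0 < (iz (-k) * p.1).re}

end

/-- Four half lines. -/
def J1 : Set ℂ := X4 \ {0}

/-- The double join. -/
def J2 : Set (ℂ × ℂ) := jn J1

/-- The triple join. -/
def J3 : Set (ℂ × ℂ × ℂ) := jn J2

/-- The carrier of the generating cycle. -/
def T3 : Set (ℂ × ℂ × ℂ) := {p | p.1 ∈ Q4 ∧ p.2.1 ∈ Q4 ∧ p.2.2 ∈ Q4 ∧ p ≠ 0}

/-- The diagonal action. -/
def d3 (h : G3) (p : ℂ × ℂ × ℂ) : ℂ × ℂ × ℂ := (iz h.1 * p.1, iz h.2.1 * p.2.1, iz h.2.2 * p.2.2)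

/-- The sum of the fourth powers. -/
def s3 (p : ℂ × ℂ × ℂ) : ℂ := p.1 ^ 4 + p.2.1 ^ 4 + p.2.2 ^ 4

/-- The cone over the Milnor fibre. -/
def S3 : Set (ℂ × ℂ × ℂ) := {p | 0 < (s3 p).re ∧ (s3 p).im = 0}

/-- The cone over the Milnor fibre in two variables. -/
def S2 : Set (ℂ × ℂ) := {p | 0 < (p.1 ^ 4 + p.2 ^ 4).re ∧ (p.1 ^ 4 + p.2 ^ 4).im = 0}

/-- The second homology of `S` is generated by the translates of the cycle `e`. -/
structure Pham {X : Type} [TopologicalSpace X] (S T : Set X) (d : G3 → X → X) (e : Chn ℤ X 2) :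
    Prop where
  mem : e ∈ cyc ℤ T 2
  gen : cyc ℤ S 2 ≤ Submodule.span ℤ (range fun h => cmap ℤ (d h) 2 e) ⊔ bdy ℤ S 2
  rel1 : ∑ k, cmap ℤ (d (k, 0, 0)) 2 e ∈ bdy ℤ S 2
  rel2 : ∑ k, cmap ℤ (d (0, k, 0)) 2 e ∈ bdy ℤ S 2
  rel3 : ∑ k, cmap ℤ (d (0, 0, k)) 2 e ∈ bdy ℤ S 2

/-- From the cone over the Milnor fibre to the quartic. -/
def ps (p : ℂ × ℂ × ℂ) : Fermat :=
  qm ![p.1, p.2.1, p.2.2, zt * (((s3 p).re ^ (1 / 4 : ℝ) : ℝ) : ℂ)]

/-- From the affine part of the quartic to the Milnor fibre. -/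
def ka (p : Fermat) : ℂ × ℂ × ℂ := (zt * nq 3 p 0, zt * nq 3 p 1, zt * nq 3 p 2)

/-- The carrier of the generating cycle in the quartic. -/
def TQ : Set Fermat := UQ 3 ∩ ka ⁻¹' T3

end HW
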