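import Pool.Agent.P.MP_9699e0_gt.W.PdB
import Pool.Agent.P.MP_9699e0_gt.W.MfA

/-! Homological consequences of duality, degrees of maps and homological triviality. -/

set_option autoImplicit false
set_option linter.unusedSectionVars false

noncomputable section

namespace HW

open HK3 Pool.Agent.P.MP_9699e0_gt Set Filter Topology

variable {X Y : Type} [TopologicalSpace X] [TopologicalSpace Y]

namespace RWma

theorem cap_ev {ι : Type} [Fintype ι] (m : ι → ℤ) (a : ι → Simp X 2 → ℤ) (b : Simp X 2 → ℤ)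
    (z : Chn ℤ X 4) :
    ev ℤ b (cap 2 2 4 (∑ i, m i • a i) z) = ∑ i, m i * ev ℤ (cup (a i) b) z := by
  rw [cap_sum, LinearMap.sum_apply, map_sum]
  refine Finset.sum_congr rfl fun i _ => ?_
  rw [LinearMap.smul_apply, map_smul, ev_cap, smul_eq_mul]

theorem hinj_of {k : ℕ} (h : HZ X k) (f : X → Y) : HInj f k := fun _ ha _ => h ha

theorem hinj_two {ι : Type} [DecidableEq ι] {x : ι → Simp Y 2 → ℤ} (h : ∀ i, cobd (x i) = 0)
    {f : X → Y} (hb : Bas fun i => pull f (x i)) : HInj f 2 := fun a ha h' =>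
  hb.det a ha fun i => by rw [ev_pull, ev_bdy (h i) h']

theorem hsur_two {ι : Type} [Fintype ι] [DecidableEq ι] {x : ι → Simp Y 2 → ℤ}
    (h : ∀ c ∈ cyc ℤ (univ : Set Y) 2, (∀ i, ev ℤ (x i) c = 0) → c ∈ bdy ℤ univ 2)
    {f : X → Y} (hf : Continuous f) (hb : Bas fun i => pull f (x i)) : HSur f 2 := by
  intro b hb'
  choose c hc hd using hb.dual
  have ha : ∑ i, ev ℤ (x i) b • c i ∈ cyc ℤ (univ : Set X) 2 :=
    Submodule.sum_mem _ fun i _ => Submodule.smul_mem _ _ (hc i)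
  refine ⟨_, ha, h _ (Submodule.sub_mem _ hb' (cyc_map hf ha)) fun j => ?_⟩
  rw [map_sub, ← ev_pull, map_sum]
  simp only [map_smul, hd, smul_eq_mul, mul_ite, mul_one, mul_zero, Finset.sum_ite_eq,
    Finset.mem_univ, if_true, sub_self]

theorem cmap_eq {R : Type} [CommRing R] (g : C(X, Y)) {n : ℕ} (c : Chn R X n) :
    cmap R g n c = Finsupp.mapDomain g.comp c := by
  have : smap (n := n) g = g.comp := funext fun σ => smap_coe g σ
  rw [cmap, this, Finsupp.lmapDomain_apply]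

theorem algz_cmap (f : X → Y) {n : ℕ} (c : Chn ℤ X n) :
    Algz n (cmap ℤ f n c) = cmap ℚ f n (Algz n c) := by
  induction c using Finsupp.induction_linear with
  | zero => simp
  | add a b ha hb => rw [map_add, map_add, map_add, map_add, ha, hb]
  | single σ r => rw [cmap_single, Algz_single, Algz_single, cmap_single]

theorem ex_of_bdy {n : ℕ} {c : Chn ℤ X n} (h : c ∈ bdy ℤ (univ : Set X) n) :
    ∃ d : Chn ℤ X (n + 1), bd ℤ X n d = c := by
  obtain ⟨d, _, hd⟩ := h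
  exact ⟨d, hd⟩

theorem ev_triv {g : C(X, X)} (hg : TrivialH2 g) {a : Simp X 2 → ℤ} (ha : cobd a = 0)
    {c : Chn ℤ X 2} (hc : c ∈ cyc ℤ univ 2) : ev ℤ a (cmap ℤ g 2 c - c) = 0 := by
  obtain ⟨d, hd⟩ := hg (Algz 2 c) (by rw [Algz_bd, mem_cyc_univ.1 hc, map_zero])
  have h1 : Algz 2 (cmap ℤ g 2 c - c) ∈ bdy ℚ (univ : Set X) 2 :=
    ⟨d, by rw [chn_univ]; trivial, by rw [hd, map_sub, algz_cmap, cmap_eq]⟩
  have h2 := Alg_ev_bdy (Algc_closed ha) h1
  rw [Algz_ev] at h2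
  exact_mod_cast h2

theorem coh_triv (h1 : HZ X 1) {g : C(X, X)} (hg : TrivialH2 g) {a : Simp X 2 → ℤ}
    (ha : cobd a = 0) : Coh (pull g a) a := by
  obtain ⟨b, hb⟩ := cob_of_van h1 (pull g a + -a) fun c hc => by
    rw [ev_add, ev_neg, ev_pull, ← sub_eq_add_neg, ← map_sub, ev_triv hg ha hc]
  exact ⟨b, by rw [← hb]; abel⟩

theorem k3_one : k3Form (Sum.inl (0, 0)) (Sum.inl (0, 1)) = 1 := by
  simp [k3Form]

end RWma

open RWma

variable {ι : Type} [Fintype ι] [DecidableEq ι]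

theorem Frm.bas {z : Chn ℤ X 4} (h : Mf X z) {e : ι → Simp X 2 → ℤ} {G : ι → ι → ℤ}
    (hf : Frm z e G) {Q : ι → ι → ℤ} (hQ : ∀ i j, ∑ k, G i k * Q k j = if i = j then 1 else 0) :
    Bas e := by
  have hs : ∀ m : ι → ℤ, cobd (∑ i, m i • e i) = 0 := fun m => by
    rw [cobd_sum]
    exact Finset.sum_eq_zero fun i _ => by rw [cobd_zsmul, hf.coc, smul_zero]
  refine ⟨hf.coc, fun c hc h0 => ?_, fun j => ?_⟩
  · obtain ⟨K, b, -, -, hb, h1⟩ := h.dual_two isOpen_univ hc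
    obtain ⟨m, hm⟩ := hf.span b hb
    have h2 : c - cap 2 2 4 (∑ i, m i • e i) z ∈ bdy ℤ (univ : Set X) 2 := by
      have := Submodule.add_mem _ h1 (cap_coh hm h.closed)
      rwa [sub_add_sub_cancel] at this
    have h3 : ∀ j, ∑ i, m i * G i j = 0 := fun j => by
      have := ev_eq_of_bdy (hf.coc j) h2
      rw [h0, cap_ev] at this
      simpa only [hf.gram] using this.symm
    have h4 : m = 0 := funext fun k => by
      have : ∑ j, (∑ i, m i * G i j) * Q j k = m k := by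
        simp only [Finset.sum_mul]
        rw [Finset.sum_comm]
        simp only [mul_assoc, ← Finset.mul_sum, hQ, mul_ite, mul_one, mul_zero,
          Finset.sum_ite_eq', Finset.mem_univ, if_true]
      rw [← this]
      simp [h3]
    simpa [h4, cap_zero] using h2
  · have h1 : Matrix.of G * Matrix.of Q = 1 := by
      ext i k
      rw [Matrix.mul_apply, Matrix.one_apply]
      exact hQ i k
    have h2 := mul_eq_one_comm.1 h1
    refine ⟨cap 2 2 4 (∑ i, Q j i • e i) z, cap_cyc (hs _) h.closed, fun i => ?_⟩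
    have h3 := congrFun (congrFun h2 j) i
    rw [Matrix.mul_apply, Matrix.one_apply] at h3
    rw [cap_ev]
    simp only [hf.gram, eq_comm (a := i)]
    exact h3

theorem Bas.congr {e e' : ι → Simp X 2 → ℤ} (h : Bas e) (hc : ∀ i, cobd (e' i) = 0)
    (h' : ∀ i, ∀ c ∈ cyc ℤ univ 2, ev ℤ (e' i) c = ev ℤ (e i) c) : Bas e' := by
  refine ⟨hc, fun c hc h0 => h.det c hc fun i => by rw [← h' i c hc, h0], fun j => ?_⟩
  obtain ⟨c, h1, h2⟩ := h.dual j
  exact ⟨c, h1, fun i => by rw [h' i c h1, h2]⟩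

theorem Bas.pullback {e : ι → Simp Y 2 → ℤ} (h : Bas e) {f : X → Y} (hf : Continuous f)
    (h1 : HInj f 2) (h2 : HSur f 2) : Bas fun i => pull f (e i) := by
  refine ⟨fun i => coc_pull hf (h.coc i), fun c hc h0 => h1 c hc (h.det _ (cyc_map hf hc)
    fun i => by rw [← ev_pull, h0]), fun j => ?_⟩
  obtain ⟨c, h3, h4⟩ := h.dual j
  obtain ⟨a, h5, h6⟩ := h2 c h3
  exact ⟨a, h5, fun i => by rw [ev_pull, ← ev_eq_of_bdy (h.coc i) h6, h4]⟩

theorem HZ.hsur {k : ℕ} (h : HZ Y k) (f : X → Y) : HSur f k := fun b hb =>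
  ⟨0, Submodule.zero_mem _, by rw [map_zero, sub_zero]; exact h hb⟩

theorem hcon_three {x : ι → Simp Y 2 → ℤ} (h : Det x) {f : X → Y} (hf : Continuous f)
    (h1 : HZ X 1) (hb : Bas fun i => pull f (x i)) : Hcon f 3 := by
  intro k h2 h3
  obtain rfl | rfl : k = 1 ∨ k = 2 := by omega
  · exact ⟨hinj_of h1 f, hsur_two h.two hf hb⟩
  · exact ⟨hinj_two h.coc hb, h.three.hsur f⟩

theorem hcon_four {e : ι → Simp Y 2 → ℤ} (h : Bas e) {f : X → Y} (hf : Continuous f)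
    (hb : Bas fun i => pull f (e i)) (h1 : HZ X 1) (h3 : HZ X 3) (h3' : HZ Y 3) (h4 : HSur f 4) :
    Hcon f 4 := by
  intro k h2 h5
  obtain rfl | rfl | rfl : k = 1 ∨ k = 2 ∨ k = 3 := by omega
  · exact ⟨hinj_of h1 f, hsur_two h.det hf hb⟩
  · exact ⟨hinj_two h.coc hb, h3'.hsur f⟩
  · exact ⟨hinj_of h3 f, h4⟩

theorem deg_one {z : Chn ℤ X 4} {z' : Chn ℤ Y 4} (hz : bd ℤ X 3 z = 0) (h' : Mf Y z') {f : X → Y}
    (hf : Continuous f) {a b : Simp Y 2 → ℤ} (ha : cobd a = 0) (hb : cobd b = 0)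
    (h0 : ev ℤ (cup a b) z' ≠ 0) (h1 : ev ℤ (cup (pull f a) (pull f b)) z = ev ℤ (cup a b) z') :
    cmap ℤ f 4 z - z' ∈ bdy ℤ univ 4 := by
  obtain ⟨m, hm⟩ := h'.top _ (mem_cyc_univ.1 (cyc_map hf (mem_cyc_univ.2 hz)))
  have h2 := ev_eq_of_bdy (coc_cup ha hb) hm
  rw [← ev_pull, ← cup_pull hf, h1, map_smul, smul_eq_mul] at h2
  have h3 : m = 1 := mul_right_cancel₀ h0 (by rw [← h2, one_mul])
  rwa [h3, one_smul] at hm

theorem iso_four {z : Chn ℤ X 4} {z' : Chn ℤ Y 4} (h : Mf X z) (h' : Mf Y z') {f : X → Y}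
    (hf : Continuous f) (h1 : cmap ℤ f 4 z - z' ∈ bdy ℤ univ 4) : HInj f 4 ∧ HSur f 4 := by
  refine ⟨fun a ha h2 => ?_, fun b hb => ?_⟩
  · obtain ⟨m, hm⟩ := h.top a (mem_cyc_univ.1 ha)
    have h3 := Submodule.sub_mem _ (Submodule.sub_mem _ h2 (bdy_map hf hm))
      (Submodule.smul_mem _ m h1)
    have e : cmap ℤ f 4 a - cmap ℤ f 4 (a - m • z) - m • (cmap ℤ f 4 z - z') = m • z' := by
      rw [map_sub, map_smul, smul_sub]
      abel
    rw [e] at h3
    rwa [h'.free m h3, zero_smul, sub_zero] at hm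
  · obtain ⟨m, hm⟩ := h'.top b (mem_cyc_univ.1 hb)
    refine ⟨m • z, Submodule.smul_mem _ m (mem_cyc_univ.2 h.closed), ?_⟩
    have h3 := Submodule.sub_mem _ hm (Submodule.smul_mem _ m h1)
    rwa [smul_sub, sub_sub_sub_cancel_right, ← map_smul] at h3

theorem exists_frm {z₀ : Chn ℤ X 4} (h : Mf X z₀) (hk : HasK3Form X) :
    ∃ (z : Chn ℤ X 4) (e : K3Index → Simp X 2 → ℤ), Mf X z ∧ Frm z e k3Form := by
  obtain ⟨e, z, he, hz, hs, hG⟩ := hk
  obtain ⟨m, hm⟩ := h.top z hz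
  have h1 := ev_eq_of_bdy (coc_cup (he (Sum.inl (0, 0))) (he (Sum.inl (0, 1)))) hm
  have h2 : ev ℤ (cup (e (Sum.inl (0, 0))) (e (Sum.inl (0, 1)))) z = 1 := (hG _ _).trans k3_one
  rw [h2, map_smul, smul_eq_mul] at h1
  exact ⟨z, e, h.congr (Int.eq_one_or_neg_one_of_mul_eq_one h1.symm) hm,
    he, fun a ha => (hs a ha).exists, hG⟩

theorem homTrivial_of [SimplyConnectedSpace X] {z : Chn ℤ X 4} (h : Mf X z) (hk : HasK3Form X)
    {g : C(X, X)} (hg : TrivialH2 g) : HomTrivial g := by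
  obtain ⟨z, e, h, hf⟩ := exists_frm h hk
  obtain ⟨Q, hQ⟩ := k3Form_inv
  have hb := hf.bas h hQ
  have h1 : HZ X 1 := cyc_one_le
  have hc := g.continuous
  refine ⟨fun c => ?_, fun n c hc' => ?_⟩
  · rw [← cmap_eq]
    refine ex_of_bdy (mem_bdy_zero isPathConnected_univ (by rw [chn_univ]; trivial) ?_)
    rw [map_sub, aug_cmap, sub_self]
  rw [← cmap_eq]
  refine ex_of_bdy ?_
  have h2 := mem_cyc_univ.2 hc'
  have h3 := Submodule.sub_mem _ (cyc_map hc h2) h2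
  match n with
  | 0 => exact h1 h3
  | 1 => exact hb.det _ h3 fun i => ev_triv hg (hf.coc i) h2
  | 2 => exact h.hz_three h1 h3
  | 3 =>
    have h4 := deg_one h.closed h hc (hf.coc (Sum.inl (0, 0))) (hf.coc (Sum.inl (0, 1)))
      (by rw [hf.gram, k3_one]; exact one_ne_zero)
      (ev_cup_coh h.closed (coc_pull hc (hf.coc _)) (hf.coc _) (coh_triv h1 hg (hf.coc _))
        (coh_triv h1 hg (hf.coc _)))
    obtain ⟨m, hm⟩ := h.top c hc'
    have h5 := Submodule.sub_mem _ (Submodule.add_mem _ (bdy_map hc hm)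
      (Submodule.smul_mem _ m h4)) hm
    have e : cmap ℤ g 4 (c - m • z) + m • (cmap ℤ g 4 z - z) - (c - m • z) =
        cmap ℤ g 4 c - c := by
      rw [map_sub, map_smul, smul_sub]
      abel
    rwa [e] at h5
  | k + 4 => exact h.high k h3

end HW
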