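import Pool.Agent.P.MP_9699e0_gt.W.PhE
import Pool.Agent.P.MP_9699e0_gt.W.Wma

/-! The diagonal group fixes the fundamental class of the quartic, and the duals of the vanishing
cycles have even square. -/

set_option autoImplicit false
set_option linter.unusedSectionVars false

noncomputable section

namespace HW

open HK3 Pool.Agent.P.MP_9699e0_gt Set Filter Topology

namespace RQEv

theorem par (φ : G3 → ℤ) (hs : ∀ g, φ g = φ (-g)) (h0 : φ (2, 2, 2) = 0)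
    (h1 : ∀ h, ∑ k, φ (h + (k, 0, 0)) = 0) (h2 : ∀ h, ∑ k, φ (h + (0, k, 0)) = 0)
    (h3 : ∀ h, ∑ k, φ (h + (0, 0, k)) = 0) : Even (φ 0) := by
  have a1 : φ 0 + φ (1, 0, 0) + φ (2, 0, 0) + φ (3, 0, 0) = 0 :=
    (Fin.sum_univ_four _).symm.trans (h1 0)
  have a2 : φ (2, 0, 0) + φ (2, 1, 0) + φ (2, 2, 0) + φ (2, 3, 0) = 0 :=
    (Fin.sum_univ_four fun k => φ ((2, 0, 0) + (0, k, 0))).symm.trans (h2 (2, 0, 0))
  have a3 : φ (2, 2, 0) + φ (2, 2, 1) + φ (2, 2, 2) + φ (2, 2, 3) = 0 :=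
    (Fin.sum_univ_four fun k => φ ((2, 2, 0) + (0, 0, k))).symm.trans (h3 (2, 2, 0))
  have s1 : φ (1, 0, 0) = φ (3, 0, 0) := hs _
  have s2 : φ (2, 1, 0) = φ (2, 3, 0) := hs _
  have s3 : φ (2, 2, 1) = φ (2, 2, 3) := hs _
  rw [Int.even_iff]
  omega

end RQEv

variable {z : Chn ℤ Fermat 4} {e : Chn ℤ Fermat 2}

theorem dq_fund (h : Mf Fermat z) (h4 : ev ℤ (cup cH cH) z = 4) (g : G3) :
    cmap ℤ (dq g) 4 z - z ∈ bdy ℤ univ 4 :=
  deg_one h.closed h (continuous_dq g) coc_cH coc_cH (by rw [h4]; decide)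
    (ev_cup_coh h.closed (coc_pull (continuous_dq g) coc_cH) coc_cH (coh_dq g) (coh_dq g))

theorem exists_dual (h : Mf Fermat z) (h4 : ev ℤ (cup cH cH) z = 4) (he : Pham (UQ 3) TQ dq e) :
    ∃ b : G3 → Simp Fermat 2 → ℤ, ∀ g, cobd (b g) = 0 ∧
      cmap ℤ (dq g) 2 e - cap 2 2 4 (b g) z ∈ bdy ℤ univ 2 ∧
      Even (ev ℤ (cup (b g) (b g)) z) := by
  have := h.t2
  obtain ⟨K₀, hK₀, hsub, hmem⟩ := exists_compact (cyc_le _ _ he.mem)
  have hU : IsOpen (dq (2, 2, 2) '' K₀)ᶜ :=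
    (hK₀.image (continuous_dq _)).isClosed.isOpen_compl
  have hKU : K₀ ⊆ (dq (2, 2, 2) '' K₀)ᶜ := by
    rintro p hp ⟨q, hq, rfl⟩
    exact tq_disj (hsub hq) (hsub hp)
  obtain ⟨K, b, hK, hV, hb, hcap⟩ := h.dual_two hU (mem_cyc he.mem (chn_mono hKU _ hmem))
  have hbg : ∀ g, cobd (pull (dq g) b) = 0 := fun g => coc_pull (continuous_dq g) hb
  have hpp : ∀ g, pull (dq g) (pull (dq (-g)) b) = b := fun g => by
    rw [pull_pull (continuous_dq g), ← dq_add, neg_add_cancel, dq_zero, pull_id]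
  have hc : ∀ g, cmap ℤ (dq g) 2 e - cap 2 2 4 (pull (dq (-g)) b) z ∈ bdy ℤ univ 2 := by
    intro g
    have h1 := bdy_map (continuous_dq g) hcap
    have h2 := cap_bdy (hbg (-g)) (dq_fund h h4 g)
    have h3 := cmap_cap (continuous_dq g) 2 2 4 (pull (dq (-g)) b) z
    rw [hpp] at h3
    rw [map_sub, h3] at h1
    rw [map_sub] at h2
    have h5 := add_mem h1 h2
    rwa [sub_add_sub_cancel] at h5
  have hev : ∀ g (a : Simp Fermat 4 → ℤ), cobd a = 0 → ev ℤ (pull (dq g) a) z = ev ℤ a z :=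
    fun g a ha => by
      rw [ev_pull]
      exact ev_eq_of_bdy ha (dq_fund h h4 g)
  obtain ⟨φ, hd⟩ : ∃ φ : G3 → ℤ, ∀ g, φ g = ev ℤ b (cmap ℤ (dq g) 2 e) := ⟨_, fun _ => rfl⟩
  have hφ : ∀ g, φ g = ev ℤ (cup (pull (dq (-g)) b) b) z := fun g => by
    rw [hd, ← ev_cap]
    exact ev_eq_of_bdy hb (hc g)
  have hs : ∀ g, φ g = φ (-g) := fun g => by
    rw [hφ, hφ, neg_neg, ← hev g _ (coc_cup (hbg _) hb), ← cup_pull (continuous_dq g), hpp,
      cup_symm hb (hbg g) h.closed]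
  have h0 : φ (2, 2, 2) = 0 := by
    rw [hd]
    have hm : MapsTo (dq (2, 2, 2)) K₀ Kᶜ := fun p hp hk => hK hk ⟨p, hp, rfl⟩
    exact RUct.ev_van hV (cmap_mem (continuous_dq _).continuousOn hm hmem)
  have hrel : ∀ w : Fin 4 → G3, ∑ k, cmap ℤ (dq (w k)) 2 e ∈ bdy ℤ (UQ 3) 2 →
      ∀ g, ∑ k, φ (g + w k) = 0 := by
    intro w hw g
    have h1 := ev_bdy (hbg g) hw
    rw [map_sum] at h1
    rw [← h1]
    refine Finset.sum_congr rfl fun k _ => ?_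
    rw [hd, ev_pull, cmap_cmap (continuous_dq _), ← dq_add]
  refine ⟨fun g => pull (dq (-g)) b, fun g => ⟨hbg _, hc g, ?_⟩⟩
  rw [cup_pull (continuous_dq _), hev _ _ (coc_cup hb hb)]
  have h1 := RQEv.par φ hs h0 (hrel _ he.rel1) (hrel _ he.rel2) (hrel _ he.rel3)
  rwa [hφ, neg_zero, dq_zero, pull_id] at h1

end HW
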