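import Pool.Agent.P.MP_9699e0_gt.W.PdB

/-! The cup product form of a closed four-manifold is unimodular modulo its radical. -/

set_option autoImplicit false
set_option linter.unusedSectionVars false

noncomputable section

namespace HW

open HK3 Pool.Agent.P.MP_9699e0_gt Set Filter Topology

variable {X Y : Type} [TopologicalSpace X] [TopologicalSpace Y]

namespace RQLat

/-- The duality map. -/
def du (z : Chn ℤ X 4) : Z2 X →ₗ[ℤ] Chn ℤ X 2 where
  toFun a := cap 2 2 4 a.1 z
  map_add' a b := by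
    rw [Submodule.coe_add, cap_add, LinearMap.add_apply]
  map_smul' m a := by
    rw [Submodule.coe_smul, cap_smul, LinearMap.smul_apply, RingHom.id_apply]

section lat

variable {M : Type} [AddCommGroup M] (B : M →ₗ[ℤ] M →ₗ[ℤ] ℤ)

/-- The vectors of even square. -/
def evn (hs : ∀ x y, B x y = B y x) : Submodule ℤ M where
  carrier := {x | Even (B x x)}
  add_mem' := fun {x y} hx hy => by
    rw [mem_ofPred_eq] at hx hy ⊢
    have e : B (x + y) (x + y) = B x x + B y y + (B x y + B x y) := by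
      simp only [map_add, LinearMap.add_apply, hs y x]
      ring
    rw [e]
    exact (hx.add hy).add (Even.add_self _)
  zero_mem' := by simp
  smul_mem' := fun m x hx => by
    rw [mem_ofPred_eq] at hx ⊢
    simp only [map_smul, LinearMap.smul_apply, smul_eq_mul]
    exact (hx.mul_left _).mul_left _

theorem lat_of (hs : ∀ x y, B x y = B y x) {ι : Type} [Fintype ι] (g : ι → M)
    (hg : ∀ x, ∃ m : ι → ℤ, B (x - ∑ i, m i • g i) = 0) (he : ∀ i, Even (B (g i) (g i)))
    (hu : ∀ φ : M →ₗ[ℤ] ℤ, (∀ x, B x = 0 → φ x = 0) → ∃ a, φ = B a) :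
    Lat B (Fintype.card ι) where
  symm := hs
  fin := by
    refine ⟨Fintype.card ι, g ∘ (Fintype.equivFin ι).symm, fun x => ?_⟩
    obtain ⟨m, hm⟩ := hg x
    refine ⟨m ∘ (Fintype.equivFin ι).symm, ?_⟩
    rwa [← (Fintype.equivFin ι).symm.sum_comp fun i => m i • g i] at hm
  uni := hu
  even := fun x => by
    obtain ⟨m, hm⟩ := hg x
    have h1 : x - ∑ i, m i • g i ∈ evn B hs := by
      change Even (B _ _)
      rw [hm]
      simp
    have h2 : ∑ i, m i • g i ∈ evn B hs :=
      Submodule.sum_mem _ fun i _ => Submodule.smul_mem _ _ (he i)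
    have h3 := Submodule.add_mem _ h1 h2
    rwa [sub_add_cancel] at h3
  rank := fun x => by
    choose m hm using fun j => hg (x j)
    have h1 : ¬LinearIndependent ℤ m := fun h => by
      have := h.fintype_card_le_finrank
      simp at this
    obtain ⟨n, h2, j, h3⟩ := Fintype.not_linearIndependent_iff.1 h1
    refine ⟨n, fun h => h3 (congrFun h j), ?_⟩
    have h4 : ∀ j, B (x j) = Fintype.linearCombination ℤ (fun i => B (g i)) (m j) := fun j => by
      have := hm j
      rw [map_sub, sub_eq_zero] at this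
      rw [this, Fintype.linearCombination_apply, map_sum]
      simp only [map_smul]
    simp only [map_sum, map_smul, h4]
    simpa only [map_sum, map_smul, map_zero] using
      congrArg (Fintype.linearCombination ℤ fun i => B (g i)) h2

end lat

end RQLat

variable {z : Chn ℤ X 4}

theorem rad_of_bdy (hz : bd ℤ X 3 z = 0) {a : Z2 X} (h : cap 2 2 4 a.1 z ∈ bdy ℤ univ 2) :
    BZ z a = 0 := by
  ext x
  rw [BZ_apply, ← ev_cap]
  exact ev_bdy x.2 h

theorem lat_of_mf (h : Mf X z) (h1 : HZ X 1) {ι : Type} [Fintype ι] {b : ι → Simp X 2 → ℤ}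
    (hb : ∀ i, cobd (b i) = 0)
    (hg : cyc ℤ univ 2 ≤ Submodule.span ℤ (range fun i => cap 2 2 4 (b i) z) ⊔ bdy ℤ univ 2)
    (he : ∀ i, Even (ev ℤ (cup (b i) (b i)) z)) : Lat (BZ z) (Fintype.card ι) := by
  have hr : ∀ a : Z2 X, RQLat.du z a ∈ bdy ℤ univ 2 → BZ z a = 0 := fun a ha =>
    rad_of_bdy h.closed ha
  refine RQLat.lat_of (BZ z) (fun x y => cup_symm x.2 y.2 h.closed) (fun i => ⟨b i, hb i⟩)
    (fun x => ?_) he fun φ hφ => ?_
  · obtain ⟨u, hu, v, hv, e⟩ := Submodule.mem_sup.1 (hg (cap_cyc x.2 h.closed))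
    obtain ⟨m, rfl⟩ := (Submodule.mem_span_range_iff_exists_fun ℤ).1 hu
    refine ⟨m, hr _ ?_⟩
    rw [map_sub, map_sum]
    simp only [map_smul]
    change cap 2 2 4 x.1 z - ∑ i, m i • cap 2 2 4 (b i) z ∈ _
    rwa [← e, add_sub_cancel_left]
  · have hβ : ∀ c : cyc ℤ (univ : Set X) 2, ∃ β : Z2 X, c.1 - RQLat.du z β ∈ bdy ℤ univ 2 :=
      fun c => by
        obtain ⟨-, β, -, -, h2, h3⟩ := h.dual_two isOpen_univ c.2
        exact ⟨⟨β, h2⟩, h3⟩
    choose β hβ using hβ
    have key : ∀ (c : cyc ℤ (univ : Set X) 2) (x : Z2 X), c.1 - RQLat.du z x ∈ bdy ℤ univ 2 →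
        φ (β c) = φ x := fun c x hx => by
      rw [← sub_eq_zero, ← map_sub]
      refine hφ _ (hr _ ?_)
      have := Submodule.sub_mem _ hx (hβ c)
      rwa [sub_sub_sub_cancel_left, ← map_sub] at this
    let ψ : cyc ℤ (univ : Set X) 2 →ₗ[ℤ] ℤ :=
      { toFun := fun c => φ (β c)
        map_add' := fun c d => by
          rw [← map_add]
          refine key _ _ ?_
          rw [map_add, Submodule.coe_add, add_sub_add_comm]
          exact Submodule.add_mem _ (hβ c) (hβ d)
        map_smul' := fun m c => by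
          rw [RingHom.id_apply, ← map_smul]
          refine key _ _ ?_
          rw [map_smul, Submodule.coe_smul, ← smul_sub]
          exact Submodule.smul_mem _ _ (hβ c) }
    obtain ⟨a, ha, ha'⟩ := ext_two h1 ψ fun c hc => (key c 0 (by rwa [map_zero, sub_zero])).trans
      (map_zero φ)
    refine ⟨⟨a, ha⟩, LinearMap.ext fun x => ?_⟩
    rw [BZ_apply, cup_symm ha x.2 h.closed, ← ev_cap]
    refine Eq.trans ?_ (ha' ⟨_, cap_cyc x.2 h.closed⟩).symm
    refine (key _ x ?_).symm
    change cap 2 2 4 x.1 z - cap 2 2 4 x.1 z ∈ _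
    rw [sub_self]
    exact Submodule.zero_mem _

theorem hb_of_gen {ι : Type} [Fintype ι] (g : ι → Chn ℤ X 2)
    (hg : cyc ℤ univ 2 ≤ Submodule.span ℤ (range g) ⊔ bdy ℤ univ 2) :
    hb (univ : Set X) 2 ≤ (Fintype.card ι : ℕ) := by
  refine rd_le_of_span (fun i => Algz 2 (g i)) fun c hc => ?_
  obtain ⟨N, c', hN, e⟩ := int_of_rat c
  have h1 : c' ∈ cyc ℤ (univ : Set X) 2 := by
    refine mem_cyc_univ.2 (algz_inj ?_)
    rw [← Algz_bd, e, map_smul, Alg_mem_cyc.1 hc, smul_zero, map_zero]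
  obtain ⟨u, hu, _, ⟨v, -, rfl⟩, rfl⟩ := Submodule.mem_sup.1 (hg h1)
  obtain ⟨m, rfl⟩ := (Submodule.mem_span_range_iff_exists_fun ℤ).1 hu
  have h2 : c = (N : ℚ)⁻¹ • Algz 2 (∑ i, m i • g i + bd ℤ X 2 v) := by
    rw [e, smul_smul, inv_mul_cancel₀ (Int.cast_ne_zero.2 hN), one_smul]
  rw [h2, map_add, map_sum, ← Algz_bd]
  refine Submodule.smul_mem _ _ (Submodule.add_mem_sup (Submodule.sum_mem _ fun i _ => ?_)
    ⟨_, by rw [chn_univ]; trivial, rfl⟩)
  rw [map_smul]
  exact zsmul_mem (Submodule.subset_span (mem_range_self i)) _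

end HW
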