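import Pool.Agent.P.MP_9699e0_gt.W.StA
import Pool.Agent.P.MP_9699e0_gt.Om2
import Pool.Agent.P.MP_9699e0_gt.It2

/-! Products with the projective line and plane; products of projective spaces. -/

set_option autoImplicit false
set_option linter.unusedSectionVars false

noncomputable section

namespace HW

open HK3 Pool.Agent.P.MP_9699e0_gt Set Filter Topology

variable {B : Type} [TopologicalSpace B] {ι : Type} {y : ι → Simp B 2 → ℤ} {n : ℕ}

namespace RStB

theorem cons_ne (u : Fin (n + 1) → ℂ) : (Fin.cons 1 u : Fin (n + 2) → ℂ) ≠ 0 :=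
  fun h => one_ne_zero (congrFun h 0)

theorem mem_Vs {p : B × CP (n + 1)} : p ∈ Vs B n ↔ ∃ j : Fin (n + 1), p.2 ∈ Uc j.succ :=
  Function.ne_iff

theorem bd_map {X Y : Type} [TopologicalSpace X] [TopologicalSpace Y] {f : X → Y}
    (hf : Continuous f) {k : ℕ} (c : Chn ℤ X (k + 1)) :
    bd ℤ Y k (cmap ℤ f (k + 1) c) = cmap ℤ f k (bd ℤ X k c) :=
  cmap_bd (S := univ) hf.continuousOn (by rw [chn_univ]; trivial)

theorem van : ∃ (c : Simp (B × CP 1) 2 → ℤ) (w : Simp (B × (Fin 1 → ℂ)) 1 → ℝ), cobd c = 0 ∧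
    Coh (opt y 1 none) c ∧ (∀ σ : Simp (B × CP 1) 2, range σ ⊆ Vs B 0 → c σ = 0) ∧
    (∀ σ, ((pull (cht 0) c σ : ℤ) : ℝ) = cobd w σ) ∧ ∀ γ : Simp (B × (Fin 1 → ℂ)) 1,
      range γ ⊆ Pz B (Fin 1 → ℂ) → w γ = wd (fun p => p.2 0) γ := by
  obtain ⟨c, h1, h2, h3, h4⟩ := xx_van (⟨Prod.snd, continuous_snd⟩ : C(B × CP 1, CP 1)) 1
  obtain ⟨w, h5, h6⟩ := h4 0
  have hc := (continuous_cht (B := B) (n := 0)).continuousOn (s := univ)
  have k0 : ∀ p : B × (Fin 1 → ℂ), (cht 0 p).2 ∈ Uc 0 := fun p =>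
    (pm_mem_Uc (cons_ne p.2)).2 one_ne_zero
  refine ⟨c, pull (cht 0) w, h1, h2, fun σ hσ => h3 σ fun p hp => ?_, fun σ => ?_, fun γ hγ => ?_⟩
  · obtain ⟨j, hj⟩ := mem_Vs.1 (hσ hp)
    rwa [Fin.fin_one_eq_zero j] at hj
  · rw [cobd_pull continuous_cht]
    refine h5 _ ?_
    rintro _ ⟨t, rfl⟩
    rw [smap_apply hc (subset_univ _)]
    exact k0 _
  · refine (h6 _ ?_).trans ((wd_smap _ hc (subset_univ _)).trans (congrArg (wd · γ) ?_))
    · rintro _ ⟨t, rfl⟩
      rw [smap_apply hc (subset_univ _)]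
      exact ⟨k0 _, (pm_mem_Uc (cons_ne _)).2 fun h =>
        hγ ⟨t, rfl⟩ (funext fun j => Fin.fin_one_eq_zero j ▸ h)⟩
    · funext p
      refine (congrFun (nl_pm (cons_ne p.2) 0) 1).trans ?_
      rw [Fin.cons_zero, inv_one, one_smul]
      rfl

/-- the affine coordinate -/
def co (p : B × (Fin 1 → ℂ)) : B × ℂ := (p.1, p.2 0)

theorem cont_co : Continuous (co (B := B)) := by
  unfold co
  fun_prop

theorem split {k : ℕ} {c : Chn ℤ (B × CP 1) (k + 1)} (hc : c ∈ cyc ℤ univ (k + 1)) :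
    ∃ a : Chn ℤ (B × (Fin 1 → ℂ)) (k + 1), bd ℤ _ k a ∈ chn ℤ (Pz B (Fin 1 → ℂ)) k ∧
      cmap ℤ co k (bd ℤ _ k a) ∈ cyc ℤ (Pz B ℂ) k ∧
      cmap ℤ Prod.fst k (cmap ℤ co k (bd ℤ _ k a)) ∈ bdy ℤ univ k ∧
      (∀ z : Simp (B × CP 1) (k + 1) → ℤ, cobd z = 0 →
        (∀ σ : Simp (B × CP 1) (k + 1), range σ ⊆ Vs B 0 → z σ = 0) →
          ev ℤ z c = ev ℤ (pull (cht 0) z) a) ∧
      (cmap ℤ co k (bd ℤ _ k a) ∈ bdy ℤ (Pz B ℂ) k →
        c ∈ cyc ℤ (Vs B 0) (k + 1) ⊔ bdy ℤ univ (k + 1)) := by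
  obtain ⟨a, b, hb, h1, ha⟩ := split_cht hc
  refine ⟨a, cyc_le _ _ ha, cmap_cyc (S := Pz B (Fin 1 → ℂ)) (T := Pz B ℂ)
    cont_co.continuousOn
    (fun p hp h => hp (funext fun j => Fin.fin_one_eq_zero j ▸ h)) ha,
    bdy_map continuous_fst (bdy_map cont_co (bd_mem_bdy a)), fun z hz h0 => ?_,
    fun h => red_cht hc hb h1 ?_⟩
  · rw [_root_.sub_sub] at h1
    rw [ev_eq_of_bdy hz h1, map_add, ev_pull, ev_congr_chn (b := 0) hb h0, Cup_ev0, add_zero]
  · have h2 := cmap_bdy (f := fun p : B × ℂ => (p.1, fun _ : Fin 1 => p.2))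
      (S := Pz B ℂ) (T := Pz B (Fin 1 → ℂ)) (by fun_prop) (fun p hp h => hp (congrFun h 0)) h
    rwa [cmap_cmap cont_co, show (fun p : B × ℂ => (p.1, fun _ : Fin 1 => p.2)) ∘ co = id from
      funext fun p => Prod.ext rfl (funext fun j => Fin.fin_one_eq_zero j ▸ rfl), cmap_id] at h2

/-- the inverse of the chart -/
def inv (p : B × CP (n + 1)) : B × (Fin (n + 1) → ℂ) := (p.1, Fin.tail (nl 0 p.2))

theorem cont_nl (j : Fin (n + 1)) :
    ContinuousOn (fun p : B × CP n => nl 0 p.2 j) (Prod.snd ⁻¹' Uc 0) :=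
  (continuous_apply j).comp_continuousOn
    ((continuousOn_nl 0).comp continuous_snd.continuousOn fun _ h => h)

theorem cont_inv : ContinuousOn (inv (B := B) (n := n)) (Prod.snd ⁻¹' Uc 0) :=
  continuous_fst.continuousOn.prodMk (continuousOn_pi.2 fun j => cont_nl j.succ)

theorem cht_inv : EqOn (cht n ∘ inv (B := B)) id (Prod.snd ⁻¹' Uc 0) := fun p hp => by
  refine Prod.ext rfl ?_
  show pm _ (Fin.cons 1 (Fin.tail (nl 0 p.2))) = p.2
  rw [← nl_self hp, Fin.cons_self_tail, pm_nl hp]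

theorem back {B' : Type} [TopologicalSpace B'] (e : B' ≃ₜ B) {k : ℕ} {c : Chn ℤ B' k}
    (h : cmap ℤ e k c ∈ bdy ℤ univ k) : c ∈ bdy ℤ univ k := by
  have h1 := bdy_map e.symm.continuous h
  rwa [cmap_cmap e.continuous, e.symm_comp_self, cmap_id] at h1

end RStB

open RStB

theorem red_zero (h : Det y) : Red y 0 := by
  have := h.conn
  obtain ⟨c₀, w, h1, h2, h3, h4, h5⟩ := van (y := y)
  have hu : ∀ {k : ℕ} (σ : Simp (B × (Fin 1 → ℂ)) k), range σ ⊆ univ := fun _ => subset_univ _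
  refine ⟨red_of_lt (k := 0) (by norm_num), fun c hc h0 => ?_, fun c hc => ?_, fun c hc h0 => ?_⟩
  · obtain ⟨a, a1, a2, a3, a4, a5⟩ := split hc
    refine a5 (wang_one a2 a3 ?_)
    rw [ev_coh h2 hc, a4 c₀ h1 h3] at h0
    rw [ev_wd_cmap _ cont_co.continuousOn a1]
    refine (ev_congr_chn a1 h5).symm.trans ?_
    rw [ev_bd, ← funext h4, ← ev_cast, h0, Int.cast_zero]
  · obtain ⟨a, -, a2, a3, -, a5⟩ := split hc
    exact a5 (wang_two h.one a2 a3)
  · obtain ⟨a, a1, a2, -, a4, a5⟩ := split hc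
    refine a5 (wang_three h a2 fun i => ?_)
    have k1 : cobd (opt y 1 (some i)) = 0 := coc_pull continuous_fst (h.coc i)
    have k2 := h0 none (some i)
    rw [ev_cup_coh (mem_cyc_univ.1 hc) (coc_of_coh h2 h1) k1 h2 (Coh.refl _),
      a4 _ (coc_cup h1 k1) fun σ hσ => by rw [cup, h3 _ ((range_sub ..).trans hσ), zero_mul],
      ← cup_pull continuous_cht, opt, pull_pull continuous_cht] at k2
    have k3 : cobd (pull (Prod.fst ∘ cht 0) (y i)) = 0 :=
      coc_pull (continuous_fst.comp continuous_cht) (h.coc i)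
    rw [← ev_pull, ev_congr_chn (b := cup12 w fun σ => ((pull (Prod.fst ∘ cht 0) (y i) σ : ℤ) : ℝ))
      a1 fun σ hσ => ?_, ev_bd, ← Int.cast_zero, ← k2, ev_cast]
    · refine congrArg (ev ℤ · a) (funext fun σ => ?_)
      rw [cobd_cup12, ← cobd_cast, k3, cup, cup, ← h4]
      simp
    · rw [pull, cup12, cup12, h5 _ ((range_sub ..).trans hσ),
        ← smap_sub cont_co.continuousOn (hu σ), ← smap_sub cont_co.continuousOn (hu σ),
        wd_smap _ cont_co.continuousOn (hu _)]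
      exact congrArg (fun t : ℤ => _ * (t : ℝ)) (congrFun (pull_pull cont_co _ (y i)) _)

theorem red_one (h : Det y) : Red y 1 := by
  have := h.conn
  refine ⟨red_of_lt (k := 0) (by norm_num), fun c hc _ => red_of_lt (k := 1) (by norm_num) hc,
    red_of_lt (k := 2) (by norm_num), fun c hc h0 => ?_⟩
  obtain ⟨c₁, p1, p2, p3, p4⟩ := xx_van (⟨Prod.snd, continuous_snd⟩ : C(B × CP 2, CP 2)) 1
  obtain ⟨c₂, q1, q2, q3, q4⟩ := xx_van (⟨Prod.snd, continuous_snd⟩ : C(B × CP 2, CP 2)) 2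
  obtain ⟨w₁, p5, p6⟩ := p4 0
  obtain ⟨w₂, q5, q6⟩ := q4 0
  have ho : ∀ j, IsOpen (Prod.snd ⁻¹' Uc j : Set (B × CP 2)) := fun j =>
    (isOpen_Uc j).preimage continuous_snd
  have hs : ∀ S : Set (B × CP 2), Small (fun _ _ => True) S := fun S =>
    ⟨fun _ _ _ _ _ => trivial, fun _ _ => ⟨univ, univ_mem, fun _ _ _ => trivial⟩⟩
  obtain ⟨ζ, r, r', h1, ⟨-, h2⟩, ⟨-, h3⟩, h4⟩ := split_cycle {()} (fun _ => Prod.snd ⁻¹' Uc 0)
    (fun _ => ho 0) (fun _ _ _ _ k => absurd rfl k) (ho 1) (ho 2) (hs _) (hs _) (fun x => by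
      obtain ⟨j, hj⟩ := exists_Uc x.2
      fin_cases j
      exacts [Or.inr (Or.inr ⟨(), Finset.mem_singleton_self _, hj⟩), Or.inl hj,
        Or.inr (Or.inl hj)]) (mem_cyc_univ.1 hc)
  obtain ⟨h5, h6⟩ := h1 () (Finset.mem_singleton_self _)
  rw [Finset.sum_singleton] at h4
  have hF : ContinuousOn (fun p : B × CP 2 => ((nl 0 p.2 1, nl 0 p.2 2) : E))
      (Prod.snd ⁻¹' Uc 0) := (cont_nl 1).prodMk (cont_nl 2)
  have e : ∀ j, (Prod.snd ⁻¹' Uc 0 ∩ Prod.snd ⁻¹' Uc j : Set (B × CP 2)) =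
      Prod.snd ⁻¹' Uc 0 ∩ {p | nl 0 p.2 j ≠ 0} := fun j =>
    Set.ext fun p => and_congr_right fun hp => (nl_ne_iff hp).symm
  rw [e, e] at h6
  have k1 := cup_local hF c₁ c₂ w₁ w₂ p5 q5 (fun γ hγ => p6 γ (hγ.trans (e 1).ge))
    (fun γ hγ => q6 γ (hγ.trans (e 2).ge)) h5 h6
  have k2 := (ev_cup_coh (mem_cyc_univ.1 hc) (coc_of_coh p2 p1) q1 p2 q2).symm.trans (h0 none none)
  rw [ev_eq_of_bdy (coc_cup p1 q1) h4, map_add, map_add, k1,
    ev_congr_chn (b := 0) h2 fun σ hσ => by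
      rw [cup, p3 _ ((range_sub ..).trans hσ), zero_mul, Pi.zero_apply],
    ev_congr_chn (b := 0) h3 fun σ hσ => by
      rw [cup, q3 _ ((range_sub ..).trans hσ), mul_zero, Pi.zero_apply],
    Cup_ev0, Cup_ev0, add_zero, add_zero] at k2
  have k3 : bd ℤ _ 3 (ζ ()) ∈ chn ℤ (Prod.snd ⁻¹' Uc 0 ∩
      {p : B × CP 2 | nl 0 p.2 1 ≠ 0 ∨ nl 0 p.2 2 ≠ 0}) 3 := by
    refine (sup_le (chn_mono ?_ 3) (chn_mono ?_ 3) : _ ≤ chn ℤ _ 3) h6
    exacts [fun _ k => ⟨k.1, Or.inl k.2⟩, fun _ k => ⟨k.1, Or.inr k.2⟩]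
  obtain ⟨_, ⟨u, -, rfl⟩, v, hv, k4⟩ := Submodule.mem_sup.1 (om_inj (by
    rw [cmap_bd hF h5]
    exact cmap_mem (T := ({0}ᶜ : Set E)) (hF.mono inter_subset_left) (fun p hp k => hp.2.elim
      (fun l => l (congrArg Prod.fst k)) fun l => l (congrArg Prod.snd k)) k3) k2)
  have k5 := congrArg (bd ℤ E 3) k4
  rw [map_add, bd_bd, zero_add, cmap_bd hF h5] at k5
  refine red_cht hc (a := cmap ℤ inv 4 (ζ ())) (add_mem
    (chn_mono (fun p hp => mem_Vs.2 ⟨0, hp⟩) 4 h2) (chn_mono (fun p hp => mem_Vs.2 ⟨1, hp⟩) 4 h3))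
    (by rwa [cmap_comp cont_inv h5, cmap_congr cht_inv h5, cmap_id, _root_.sub_sub, ← add_assoc])
    (sig (by simp [Module.finrank_pi_fintype]) (mem_cyc (bdy_le _ _ (bd_mem_bdy _)) ?_)
      (bdy_map continuous_fst (bd_mem_bdy _)) (Or.inr ?_))
  · rw [cmap_bd cont_inv h5]
    exact cmap_mem (cont_inv.mono inter_subset_left) (fun p hp k => hp.2.elim
      (fun l => l (congrFun k 0)) fun l => l (congrFun k 1)) k3
  · have k6 := cmap_bdy (f := fun p : E => ![p.1, p.2]) (S := {0}ᶜ) (T := {0}ᶜ) (by fun_prop)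
      (fun p hp k => hp (Prod.ext (congrFun k 0) (congrFun k 1))) ⟨v, hv, k5⟩
    rw [cmap_comp hF (bd_mem h5), cmap_congr (g := Prod.snd ∘ inv) (fun p _ => funext fun j => by
      fin_cases j <;> rfl) (bd_mem h5), ← cmap_comp cont_inv (bd_mem h5),
      ← cmap_bd cont_inv h5] at k6
    exact k6

theorem det_prod (h : Det y) (n : ℕ) : Det (opt y n) := by
  induction n with
  | zero => exact det_zero h
  | succ n ih =>
    refine det_succ ih ?_
    rcases n with _ | _ | n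
    exacts [red_zero h, red_one h, red_high h]

theorem Det.of_equiv {B' κ : Type} [TopologicalSpace B'] (h : Det y) (e : B' ≃ₜ B)
    {y' : κ → Simp B' 2 → ℤ} (hc : ∀ k, cobd (y' k) = 0) (s : ι → κ)
    (hs : ∀ i, y' (s i) = pull e (y i)) : Det y' := by
  have := h.conn
  refine ⟨hc, e.symm.surjective.pathConnectedSpace e.symm.continuous,
    fun c k => back e (h.one (cyc_map e.continuous k)),
    fun c k l => back e (h.two _ (cyc_map e.continuous k) fun i => ?_),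
    fun c k => back e (h.three (cyc_map e.continuous k)),
    fun c k l => back e (h.four _ (cyc_map e.continuous k) fun i j => ?_)⟩
  · rw [← ev_pull, ← hs, l]
  · rw [← ev_pull, ← cup_pull e.continuous, ← hs, ← hs, l]

theorem det_pi (κ : Type) [Fintype κ] (N : ℕ) :
    Det fun i : κ => pull (fun p : κ → CP N => p i) (xx N) := by
  have hc : ∀ (κ : Type) (i : κ), cobd (pull (fun p : κ → CP N => p i) (xx N)) = 0 := fun κ i =>
    coc_pull (continuous_apply i) (coc_xx N)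
  have key : ∀ r, Det fun i : Fin r => pull (fun p : Fin r → CP N => p i) (xx N) := by
    intro r
    induction r with
    | zero =>
      have k := fun n => cyc_le_of_subsingleton (R := ℤ) (X := Fin 0 → CP N) subsingleton_univ n
      exact ⟨hc _, ⟨inferInstance, fun x z => Subsingleton.elim x z ▸ Joined.refl x⟩, k 0,
        fun _ l _ => k 1 l, k 2, fun _ l _ => k 3 l⟩
    | succ r ih =>
      let e : (Fin (r + 1) → CP N) ≃ₜ (Fin r → CP N) × CP N :=
        { toFun := fun p => (fun i => p i.succ, p 0)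
          invFun := fun q => Fin.cons q.2 q.1
          left_inv := fun p => Fin.cons_self_tail p
          right_inv := fun q => rfl
          continuous_toFun := by fun_prop
          continuous_invFun := by fun_prop }
      refine (det_prod ih N).of_equiv e (hc _) (fun o => o.elim 0 Fin.succ) ?_
      rintro (_ | i)
      · exact (pull_pull e.continuous Prod.snd (xx N)).symm
      · exact ((congrArg (pull e) (pull_pull continuous_fst (fun p => p i) (xx N))).trans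
          (pull_pull e.continuous _ (xx N))).symm
  let f := Fintype.equivFin κ
  let e : (κ → CP N) ≃ₜ (Fin (Fintype.card κ) → CP N) :=
    { toFun := fun p i => p (f.symm i)
      invFun := fun q i => q (f i)
      left_inv := fun p => by simp
      right_inv := fun q => by simp
      continuous_toFun := by fun_prop
      continuous_invFun := by fun_prop }
  exact (key _).of_equiv e (hc _) f.symm fun i =>
    (pull_pull e.continuous (fun p => p i) (xx N)).symm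

end HW
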