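import Pool.Agent.P.MP_9699e0_gt.W.Cyl

/-! The obstruction to lifting a map over the top cell. -/

set_option autoImplicit false
set_option linter.unusedSectionVars false

noncomputable section

namespace HW

open HK3 Pool.Agent.P.MP_9699e0_gt Set Filter Topology

variable {X Y : Type} [TopologicalSpace X] [TopologicalSpace Y]

namespace RTop

variable {M Z : Type} [TopologicalSpace M] [TopologicalSpace Z]

theorem homotopic {a b : C(M, Z)} (H : ℝ → M → Z) (hH : Continuous fun p : ℝ × M => H p.1 p.2)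
    (h0 : ∀ x, H 0 x = a x) (h1 : ∀ x, H 1 x = b x) : a.Homotopic b :=
  ⟨⟨⟨fun p => H p.1 p.2, hH.comp ((continuous_subtype_val.comp continuous_fst).prodMk
    continuous_snd)⟩, h0, h1⟩⟩

theorem glue {T : Type} [TopologicalSpace T] {F : T × M → Z} {K D : Set M} (hK : IsClosed K)
    (hD : IsClosed D) (h : ∀ x, x ∉ K → x ∈ D) (h1 : ContinuousOn F (univ ×ˢ K))
    (h2 : ContinuousOn F (univ ×ˢ D)) : Continuous F := by
  have := h1.union_of_isClosed h2 (isClosed_univ.prod hK) (isClosed_univ.prod hD)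
  rw [← continuousOn_univ]
  refine this.mono fun p _ => ?_
  by_cases hp : p.2 ∈ K
  · exact Or.inl ⟨trivial, hp⟩
  · exact Or.inr ⟨trivial, h _ hp⟩

theorem extend [NormalSpace M] {K D C : Set M} (hK : IsClosed K) (hD : IsClosed D)
    (hC : IsClosed C) (hd : Disjoint D C) (h : ∀ x, x ∉ K → x ∈ D) (u : C(M, Z)) (v : C(K, Z))
    (huv : (u.restrict K).Homotopic v) :
    ∃ w : C(M, Z), u.Homotopic w ∧ ∀ x ∈ C, ∃ hx : x ∈ K, w x = v ⟨x, hx⟩ := by
  classical
  obtain ⟨μ, μ0, μ1, hμ⟩ := exists_continuous_zero_one_of_isClosed hD hC hd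
  obtain ⟨P⟩ := huv
  let ν : M → unitInterval := fun x => ⟨μ x, hμ x⟩
  have hν : Continuous ν := μ.continuous.subtype_mk _
  let G : unitInterval × M → Z := fun p =>
    if hp : p.2 ∈ K then P (p.1 * ν p.2, ⟨p.2, hp⟩) else u p.2
  have hG : Continuous G := by
    refine glue hK hD h ?_ ?_
    · rw [continuousOn_iff_continuous_domRestrict]
      have e : (univ ×ˢ K : Set (unitInterval × M)).domRestrict G =
          fun p => P (p.1.1 * ν p.1.2, ⟨p.1.2, p.2.2⟩) := funext fun p => dif_pos p.2.2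
      rw [e]
      refine P.continuous.comp (Continuous.prodMk ?_ (Continuous.subtype_mk (by fun_prop) _))
      refine Continuous.subtype_mk (f := fun p : (univ ×ˢ K : Set (unitInterval × M)) =>
        (p.1.1 : ℝ) * μ p.1.2) (by fun_prop) _
    · refine (u.continuous.comp continuous_snd).continuousOn.congr fun p hp => ?_
      have e : ν p.2 = 0 := Subtype.ext (μ0 hp.2)
      simp only [G, e, mul_zero]
      split_ifs
      · exact P.apply_zero _
      · rfl
  refine ⟨⟨fun x => G (1, x), hG.comp (Continuous.prodMk_right 1)⟩,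
    ⟨⟨⟨G, hG⟩, fun x => ?_, fun _ => rfl⟩⟩, fun x hx => ?_⟩
  · show G (0, x) = u x
    simp only [G, zero_mul]
    split_ifs
    · exact P.apply_zero _
    · rfl
  · have hK' : x ∈ K := by
      by_contra h'
      exact disjoint_left.1 hd (h x h') hx
    have e : ν x = 1 := Subtype.ext (μ1 hx)
    refine ⟨hK', ?_⟩
    show G (1, x) = _
    simp only [G, e, mul_one, dif_pos hK']
    exact P.apply_one _

/-- The radial retraction onto the ball of radius three. -/
def clamp (u : Eu 4) : Eu 4 := (3 / max 3 ‖u‖) • u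

theorem continuous_clamp : Continuous clamp :=
  (continuous_const.div (continuous_const.max continuous_norm)
    fun u => (lt_max_of_lt_left (by norm_num)).ne').smul continuous_id

theorem clamp_eq {u : Eu 4} (h : ‖u‖ ≤ 3) : clamp u = u := by
  rw [clamp, max_eq_left h, div_self (by norm_num), one_smul]

theorem norm_clamp (u : Eu 4) : ‖clamp u‖ = min 3 ‖u‖ := by
  rcases le_total ‖u‖ 3 with h | h
  · rw [clamp_eq h, min_eq_right h]
  · have : 0 < ‖u‖ := by linarith
    rw [clamp, max_eq_right h, min_eq_left h, norm_smul, Real.norm_of_nonneg (by positivity),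
      div_mul_cancel₀ _ this.ne']

variable {e : OpenPartialHomeomorph (Eu 4) M}

theorem src (he : Metric.closedBall 0 4 ⊆ e.source) {u : Eu 4} (h : ‖u‖ ≤ 4) : u ∈ e.source :=
  he (mem_closedBall_zero_iff.2 h)

theorem open_ball (he : Metric.closedBall 0 4 ⊆ e.source) {r : ℝ} (hr : r ≤ 4) :
    IsOpen (e '' Metric.ball 0 r) :=
  e.isOpen_image_of_subset_source Metric.isOpen_ball fun _ h =>
    src he ((mem_ball_zero_iff.1 h).le.trans hr)

theorem closed_ball [T2Space M] (he : Metric.closedBall 0 4 ⊆ e.source) {r : ℝ} (hr : r ≤ 4) :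
    IsClosed (e '' Metric.closedBall 0 r) :=
  ((isCompact_closedBall 0 r).image_of_continuousOn (e.continuousOn.mono fun _ h =>
    src he ((mem_closedBall_zero_iff.1 h).trans hr))).isClosed

theorem continuous_psi (he : Metric.closedBall 0 4 ⊆ e.source) : Continuous (e ∘ clamp) :=
  e.continuousOn.comp_continuous continuous_clamp fun u =>
    src he ((norm_clamp u).trans_le ((min_le_left _ _).trans (by norm_num)))

theorem psi_far (he : Metric.closedBall 0 4 ⊆ e.source) {u : Eu 4} (h : 5 / 2 ≤ ‖u‖) :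
    (e ∘ clamp) u ∈ (e '' Metric.closedBall 0 2)ᶜ := by
  rintro ⟨v, hv, hv'⟩
  rw [mem_closedBall_zero_iff] at hv
  have h1 := norm_clamp u
  have h2 := e.injOn (src he (by linarith)) (src he (h1.trans_le ((min_le_left _ _).trans
    (by norm_num)))) hv'
  rw [← h2] at h1
  have : 5 / 2 ≤ min 3 ‖u‖ := le_min (by norm_num) h
  linarith

theorem transport [T2Space M] (he : Metric.closedBall 0 4 ⊆ e.source) {A : Set Z} (w : C(M, Z))
    (hw : ∀ x ∉ e '' Metric.closedBall 0 2, w x ∈ A) (h : Nul A (w ∘ e ∘ clamp)) :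
    ∃ w' : C(M, Z), w.Homotopic w' ∧ ∀ x, w' x ∈ A := by
  classical
  obtain ⟨g, hg, hh⟩ := h
  have n3 : ∀ x : Eu 4, ‖(3 : ℝ) • x‖ = 3 * ‖x‖ := fun x => by
    rw [norm_smul, Real.norm_of_nonneg (by norm_num)]
  have h1 : Nul A ((w ∘ e ∘ clamp) ∘ fun x : Eu 4 => (3 : ℝ) • x) :=
    ⟨_, fun x => hg _, hh.comp (by fun_prop) fun R => ⟨R, fun x hx => by
      rw [n3]
      linarith [norm_nonneg x]⟩⟩
  obtain ⟨G, hG, G0, G1, G2⟩ := h1.compress fun x hx =>
    hw _ (psi_far he (by rw [n3]; linarith))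
  let W : ℝ × M → Z := fun p =>
    if p.2 ∈ e '' Metric.closedBall 0 3 then G p.1 ((3 : ℝ)⁻¹ • e.symm p.2) else w p.2
  have key : ∀ u ∈ Metric.closedBall (0 : Eu 4) 3, e.symm (e u) = u ∧
      ((w ∘ e ∘ clamp) ∘ fun x : Eu 4 => (3 : ℝ) • x) ((3 : ℝ)⁻¹ • u) = w (e u) := by
    intro u hu
    rw [mem_closedBall_zero_iff] at hu
    refine ⟨e.left_inv (src he (by linarith)), ?_⟩
    simp only [Function.comp_apply]
    rw [smul_inv_smul₀ (by norm_num), clamp_eq hu]
  have hW : Continuous W := by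
    refine glue (D := (e '' Metric.ball 0 3)ᶜ) (closed_ball he (show (3 : ℝ) ≤ 4 by norm_num))
      (open_ball he (by norm_num)).isClosed_compl
      (fun x hx hx' => hx (image_mono Metric.ball_subset_closedBall hx')) ?_ ?_
    · refine ContinuousOn.congr (f := fun p : ℝ × M => G p.1 ((3 : ℝ)⁻¹ • e.symm p.2)) ?_
        fun p hp => if_pos hp.2
      refine hG.comp_continuousOn (f := fun p : ℝ × M => (p.1, (3 : ℝ)⁻¹ • e.symm p.2))
        (continuousOn_fst.prodMk (ContinuousOn.const_smul (g := fun p : ℝ × M => e.symm p.2)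
          (e.continuousOn_symm.comp continuousOn_snd ?_) (3 : ℝ)⁻¹))
      rintro p ⟨-, u, hu, hp⟩
      rw [← hp]
      exact e.map_source (src he ((mem_closedBall_zero_iff.1 hu).trans (by norm_num)))
    · refine (w.continuous.comp continuous_snd).continuousOn.congr fun p hp => ?_
      simp only [W]
      split_ifs with h2
      · obtain ⟨u, hu, hp'⟩ := h2
        have h3 : 3 ≤ ‖u‖ := by
          by_contra h3
          exact hp.2 ⟨u, mem_ball_zero_iff.2 (not_le.1 h3), hp'⟩
        rw [Function.comp_apply, ← hp', (key u hu).1, G1, (key u hu).2]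
        rw [norm_smul, Real.norm_of_nonneg (by norm_num)]
        linarith
      · rfl
  refine ⟨⟨fun x => W (1, x), hW.comp (Continuous.prodMk_right 1)⟩,
    homotopic (fun s x => W (s, x)) hW (fun x => ?_) fun _ => rfl, fun x => ?_⟩
  · simp only [W]
    split_ifs with h2
    · obtain ⟨u, hu, rfl⟩ := h2
      rw [(key u hu).1, G0, (key u hu).2]
    · rfl
  · show W (1, x) ∈ A
    simp only [W]
    split_ifs with h2
    · exact G2 _
    · exact hw x fun hx => h2 (image_mono (Metric.closedBall_subset_closedBall (by norm_num)) hx)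

end RTop

theorem lift_top [SimplyConnectedSpace X] [SimplyConnectedSpace Y] (f : C(X, Y)) (hf : Hcon f 3)
    {M : Type} [TopologicalSpace M] [T2Space M] [CompactSpace M]
    (e : OpenPartialHomeomorph (Eu 4) M) (he : Metric.closedBall 0 4 ⊆ e.source) {z : Chn ℤ M 4}
    (hz : bd ℤ M 3 z = 0) (hs : Sph (e '' Metric.closedBall 0 2)ᶜ z) (g : C(M, Y))
    (l : C(((e '' Metric.ball 0 1)ᶜ : Set M), X))
    (hl : (f.comp l).Homotopic (g.restrict (e '' Metric.ball 0 1)ᶜ)) {z' : Chn ℤ X 4}
    (hz' : bd ℤ X 3 z' = 0) (h : cmap ℤ g 4 z - cmap ℤ f 4 z' ∈ bdy ℤ univ 4) :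
    ∃ F : C(M, X), (f.comp F).Homotopic g := by
  obtain ⟨Z, _, j, k, r, H, hj, h1, h2, h3, h4, h5⟩ := exists_cyl f
  obtain ⟨hA, hcon⟩ := con_cyl hj h1 h2 h3 h4 h5 hf
  have hkf : (k.comp f).Homotopic j :=
    (RTop.homotopic (fun s x => H s (j x))
      (h3.comp (continuous_fst.prodMk (j.continuous.comp continuous_snd))) (fun x => h4 _)
      fun x => by rw [h5, h1]; rfl).symm
  have hP : ((k.comp g).restrict (e '' Metric.ball 0 1)ᶜ).Homotopic (j.comp l) :=
    ((ContinuousMap.Homotopic.refl k).comp hl.symm).trans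
      (hkf.comp (ContinuousMap.Homotopic.refl l))
  obtain ⟨w, hw, hw'⟩ := RTop.extend (C := (e '' Metric.ball 0 2)ᶜ)
    (RTop.open_ball he (by norm_num)).isClosed_compl
    (RTop.closed_ball he (show (1 : ℝ) ≤ 4 by norm_num))
    (RTop.open_ball he (by norm_num)).isClosed_compl
    (disjoint_compl_right.mono_left (image_mono (Metric.closedBall_subset_ball one_lt_two)))
    (fun x hx => image_mono Metric.ball_subset_closedBall (not_not.1 hx)) _ _ hP
  have hwA : ∀ x ∉ e '' Metric.closedBall 0 2, w x ∈ range j := fun x hx => by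
    obtain ⟨hx', h6⟩ := hw' x fun h6 => hx (image_mono Metric.ball_subset_closedBall h6)
    exact ⟨_, h6.symm⟩
  have hψ := RTop.continuous_psi he
  have hwz : cmap ℤ w 4 z ∈ bdy ℤ univ 4 ⊔ chn ℤ (range j) 4 := by
    have e1 := hty_cyc hw.symm (mem_cyc_univ.2 hz)
    have e2 := bdy_map k.continuous h
    have e3 := hty_cyc hkf (mem_cyc_univ.2 hz')
    have e4 : cmap ℤ j 4 z' ∈ chn ℤ (range j) 4 :=
      cmap_mem j.continuous.continuousOn (fun x _ => mem_range_self x) (mem_cyc_univ.2 hz').1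
    rw [map_sub, cmap_cmap g.continuous, cmap_cmap f.continuous] at e2
    rw [ContinuousMap.coe_comp] at e1 e3
    have := Submodule.add_mem_sup (add_mem (add_mem e1 e2) e3) e4
    simpa using this
  have hnul : Nul (range j) (w ∘ e ∘ RTop.clamp) := by
    refine hur (n := 2) (R := 5 / 2) hA (fun m hm => hcon m (by omega)) (w.continuous.comp hψ)
      (fun x hx => hwA _ (RTop.psi_far he hx)) fun c hc => ?_
    have hc0 : c ∈ chn ℤ univ 4 := mem_chn_iff.2 fun _ _ => subset_univ _
    obtain ⟨m, hm⟩ := hs.four (cmap ℤ (e ∘ RTop.clamp) 4 c) (by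
      rw [cmap_bd hψ.continuousOn hc0]
      exact cmap_mem hψ.continuousOn (fun x hx => RTop.psi_far he hx) hc)
    obtain ⟨a, ha, b, hb, hab⟩ := Submodule.mem_sup.1 hm
    have e1 := Submodule.add_mem_sup (bdy_map w.continuous ha)
      (cmap_mem w.continuous.continuousOn (fun x hx => hwA x hx) hb)
    rw [← map_add, hab, map_sub, map_smul, cmap_cmap hψ] at e1
    simpa using add_mem e1 (Submodule.smul_mem _ m hwz)
  obtain ⟨w', h6, h7⟩ := RTop.transport he w hwA hnul
  choose F hF using h7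
  have hFc : Continuous F := hj.continuous_iff.2 (by
    rw [show j ∘ F = w' from funext hF]
    exact w'.continuous)
  refine ⟨⟨F, hFc⟩, ?_⟩
  have e1 : f.comp ⟨F, hFc⟩ = r.comp w' := by
    ext x
    simp only [ContinuousMap.comp_apply, ContinuousMap.coe_mk]
    rw [← hF, h1]
  have e2 : r.comp (k.comp g) = g := by
    ext x
    exact h2 _
  rw [e1]
  conv_rhs => rw [← e2]
  exact (ContinuousMap.Homotopic.refl r).comp (hw.trans h6).symm

end HW
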