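import Pool.Agent.P.MP_9699e0_gt.W.BnA

/-! Every integral 2-cocycle on a compact part of a manifold is pulled back from projective
space. -/

set_option autoImplicit false
set_option linter.unusedSectionVars false

noncomputable section

namespace HW

open HK3 Pool.Agent.P.MP_9699e0_gt Set Filter Topology

namespace RUni

variable {M T : Type} [TopologicalSpace M] [TopologicalSpace T]

/-- Cocycles are coboundaries on the open set `W`. -/
structure Good (W : Set M) : Prop where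
  opn : IsOpen W
  one : ∀ a : Simp M 1 → ℤ, (∀ τ : Simp M 2, range τ ⊆ W → cobd a τ = 0) →
    ∃ k : M → ℤ, ∀ γ : Simp M 1, range γ ⊆ W → a γ = k (vtx γ 1) - k (vtx γ 0)
  two : ∀ a : Simp M 2 → ℤ, cobd a = 0 →
    ∃ b : Simp M 1 → ℤ, ∀ σ : Simp M 2, range σ ⊆ W → a σ = cobd b σ

theorem good_empty : Good (∅ : Set M) :=
  ⟨isOpen_empty, fun _ _ => ⟨0, fun _ h => (h (mem_range_self (stdSimplex.vertex 0))).elim⟩,
    fun _ _ => ⟨0, fun _ h => (h (mem_range_self (stdSimplex.vertex 0))).elim⟩⟩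

theorem range_smap {f : T → M} (hf : Continuous f) {W : Set M} {n : ℕ} {σ : Simp T n}
    (h : ∀ t, f (σ t) ∈ W) : range (smap f σ) ⊆ W := by
  rintro _ ⟨t, rfl⟩
  rw [smap_apply hf.continuousOn (subset_univ _)]
  exact h t

theorem transfer {W : Set M} {g : T → M} {h : M → T} (hg : Continuous g) (hh : ContinuousOn h W)
    (h1 : ∀ s, g s ∈ W) (h2 : ∀ y ∈ W, g (h y) = y) {n : ℕ}
    (H : ∀ a : Simp T (n + 1) → ℤ, cobd a = 0 → ∃ b, a = cobd b) (a : Simp M (n + 1) → ℤ)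
    (ha : ∀ τ : Simp M (n + 2), range τ ⊆ W → cobd a τ = 0) :
    ∃ b : Simp M n → ℤ, ∀ σ : Simp M (n + 1), range σ ⊆ W → a σ = cobd b σ := by
  obtain ⟨b, hb⟩ := H (pull g a) (by
    rw [cobd_pull hg]
    exact funext fun τ => ha _ (range_smap hg fun t => h1 _))
  refine ⟨fun σ => b (smap h σ), fun σ hσ => ?_⟩
  rw [cobd_smap b hh hσ, ← hb]
  refine congrArg a (ContinuousMap.ext fun t => ?_)
  rw [smap_apply hg.continuousOn (subset_univ _), smap_apply hh hσ, h2 _ (hσ (mem_range_self t))]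

theorem good_ball {m : ℕ} (e : OpenPartialHomeomorph (Eu m) M) {x : Eu m} {r : ℝ} (hr : 0 < r)
    (h : Metric.ball x r ⊆ e.source) : Good (e '' Metric.ball x r) := by
  classical
  have hx := Metric.mem_ball_self (x := x) hr
  have hz : ∀ n, HZ (Metric.ball x r) (n + 1) := fun n =>
    hz_val.2 (rcyc_le_of_star hx ((convex_ball x r).starConvex hx) (n + 1))
  have hs : ∀ y ∈ e '' Metric.ball x r, e.symm y ∈ Metric.ball x r := by
    rintro _ ⟨v, hv, rfl⟩
    rwa [e.left_inv (h hv)]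
  have ht : e '' Metric.ball x r ⊆ e.target := by
    rintro _ ⟨v, hv, rfl⟩
    exact e.map_source (h hv)
  let g : Metric.ball x r → M := fun v => e v
  let k : M → Metric.ball x r := fun y =>
    if hy : e.symm y ∈ Metric.ball x r then ⟨_, hy⟩ else ⟨x, hx⟩
  have hk : ∀ y ∈ e '' Metric.ball x r, (k y).1 = e.symm y := fun y hy => by
    simp only [k, dif_pos (hs y hy)]
  have hg : Continuous g := e.continuousOn.comp_continuous continuous_subtype_val fun v => h v.2
  have hk' : ContinuousOn k (e '' Metric.ball x r) :=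
    IsInducing.subtypeVal.continuousOn_iff.2 ((e.continuousOn_symm.mono ht).congr hk)
  have h1 : ∀ s, g s ∈ e '' Metric.ball x r := fun s => mem_image_of_mem _ s.2
  have h2 : ∀ y ∈ e '' Metric.ball x r, g (k y) = y := fun y hy => by
    simp only [g, hk y hy, e.right_inv (ht hy)]
  refine ⟨e.isOpen_image_of_subset_source Metric.isOpen_ball h, fun a ha => ?_, fun a ha =>
    transfer hg hk' h1 h2 (fun a ha => cob_of_van (hz 0) a fun c hc => ev_bdy ha (hz 1 hc)) a
      fun τ _ => congrFun ha τ⟩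
  obtain ⟨b, hb⟩ := transfer hg hk' h1 h2 (fun a ha => cob_one (hz 0) ha) a ha
  refine ⟨fun y => b (Hur_cst 0 y), fun γ hγ => ?_⟩
  rw [hb γ hγ, ← cobd_pt (fun y => b (Hur_cst 0 y))]
  exact congrFun (congrArg cobd (funext fun σ => congrArg b (Hur_zero σ))) γ

theorem basis [T2Space M] {m : ℕ} (hM : Chartd M m) {O : Set M} {y : M} (hO : O ∈ 𝓝 y) :
    ∃ U C V : Set M, y ∈ U ∧ IsOpen U ∧ U ⊆ C ∧ IsClosed C ∧ C ⊆ V ∧ V ⊆ O ∧ Good V ∧
      IsPathConnected V := by
  obtain ⟨e, he⟩ := hM y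
  have h1 := e.map_target he
  have h2 : e.source ∩ e ⁻¹' O ∈ 𝓝 (e.symm y) := inter_mem (e.open_source.mem_nhds h1)
    ((e.continuousAt h1).preimage_mem_nhds (by rwa [e.right_inv he]))
  obtain ⟨r, hr, h3⟩ := Metric.mem_nhds_iff.1 h2
  have h4 := h3.trans inter_subset_left
  have h5 : Metric.closedBall (e.symm y) (r / 2) ⊆ Metric.ball (e.symm y) r :=
    Metric.closedBall_subset_ball (by linarith)
  refine ⟨e '' Metric.ball (e.symm y) (r / 2), e '' Metric.closedBall (e.symm y) (r / 2),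
    e '' Metric.ball (e.symm y) r, ⟨_, Metric.mem_ball_self (by linarith), e.right_inv he⟩,
    e.isOpen_image_of_subset_source Metric.isOpen_ball
      (Metric.ball_subset_closedBall.trans (h5.trans h4)),
    image_mono Metric.ball_subset_closedBall, ((isCompact_closedBall _ _).image_of_continuousOn
      (e.continuousOn.mono (h5.trans h4))).isClosed, image_mono h5,
    image_subset_iff.2 (h3.trans inter_subset_right), good_ball e hr h4,
    ((convex_ball _ _).isPathConnected ⟨_, Metric.mem_ball_self hr⟩).image'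
      (e.continuousOn.mono h4)⟩

theorem loc_const [T2Space M] {m : ℕ} (hM : Chartd M m) {O : Set M} (hO : IsOpen O) {k : M → ℝ}
    (h : ∀ γ : Simp M 1, range γ ⊆ O → k (vtx γ 1) = k (vtx γ 0)) : ContinuousOn k O := by
  intro y hy
  obtain ⟨U, C, V, h1, h2, h3, -, h5, h6, -, h8⟩ := basis hM (hO.mem_nhds hy)
  refine (continuousAt_const (y := k y).congr ?_).continuousWithinAt
  filter_upwards [h2.mem_nhds h1] with z hz
  obtain ⟨γ, hγ⟩ := h8.joinedIn y (h5 (h3 h1)) z (h5 (h3 hz))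
  have := h (Hur_ps γ) (by
    rintro _ ⟨t, rfl⟩
    obtain ⟨s, hs⟩ : γ.extend (t 1) ∈ range γ := γ.extend_range ▸ mem_range_self _
    exact h6 (show γ.extend (t 1) ∈ V from hs ▸ hγ s))
  rw [Hur_vtx_ps0, Hur_vtx_ps1] at this
  exact this.symm

theorem cover [T2Space M] [CompactSpace T] {m : ℕ} (hM : Chartd M m) (ι : C(T, M)) :
    ∃ (n : ℕ) (W V : ℕ → Set M), (∀ i, Good (W i)) ∧ (∀ i, Good (V i)) ∧
      (∀ i j, (W i ∩ W j).Nonempty → W i ⊆ V j) ∧ ∀ x, ∃ i < n, ι x ∈ W i := by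
  classical
  choose U C V h1 h2 h3 h4 h5 _ h7 _ using fun x : T => basis hM (univ_mem (f := 𝓝 (ι x)))
  obtain ⟨s, hs⟩ := isCompact_univ.elim_finite_subcover (fun x => ι ⁻¹' U x)
    (fun x => (h2 x).preimage ι.continuous) fun x _ => mem_iUnion.2 ⟨x, h1 x⟩
  have ha : ∀ x, ∃ a ∈ s, ι x ∈ U a := fun x => by simpa using hs (mem_univ x)
  choose a a1 a2 using ha
  have hn : ∀ x, U (a x) ∩ ⋂ b ∈ s, (if ι x ∈ C b then V b else (C b)ᶜ) ∈ 𝓝 (ι x) := fun x =>
    inter_mem ((h2 _).mem_nhds (a2 x)) ((biInter_finset_mem s).2 fun b _ => by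
      split_ifs with h
      · exact (h7 b).opn.mem_nhds (h5 b h)
      · exact (h4 b).isOpen_compl.mem_nhds h)
  choose U' C' W g1 _ g3 _ g5 g6 g7 _ using fun x : T => basis hM (hn x)
  obtain ⟨t, ht⟩ := isCompact_univ.elim_finite_subcover (fun x => ι ⁻¹' W x)
    (fun x => (g7 x).opn.preimage ι.continuous) fun x _ => mem_iUnion.2 ⟨x, g5 x (g3 x (g1 x))⟩
  have key : ∀ x x', (W x ∩ W x').Nonempty → W x ⊆ V (a x') := fun x x' ⟨z, z1, z2⟩ => by
    have b1 : W x ⊆ if ι x ∈ C (a x') then V (a x') else (C (a x'))ᶜ := fun w hw =>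
      mem_iInter₂.1 (g6 x hw).2 _ (a1 x')
    split_ifs at b1 with h
    · exact b1
    · exact (b1 z1 (h3 _ (g6 x' z2).1)).elim
  refine ⟨t.toList.length, fun i => (t.toList[i]?).elim ∅ W, fun i => (t.toList[i]?).elim ∅ (V ∘ a),
    fun i => ?_, fun i => ?_, fun i j => ?_, fun x => ?_⟩
  · dsimp only
    cases t.toList[i]?
    exacts [good_empty, g7 _]
  · dsimp only
    cases t.toList[i]?
    exacts [good_empty, h7 _]
  · dsimp only
    cases t.toList[i]? <;> cases t.toList[j]? <;> simp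
    exact key _ _
  · obtain ⟨y, y1, y2⟩ : ∃ y ∈ t, ι x ∈ W y := by simpa using ht (mem_univ x)
    obtain ⟨i, hi, rfl⟩ := List.mem_iff_getElem.1 (Finset.mem_toList.2 y1)
    exact ⟨i, hi, by simpa [List.getElem?_eq_getElem hi] using y2⟩

theorem cont_mul {E : Type} [TopologicalSpace E] [MulZeroClass E] [ContinuousMul E] {ρ : T → E}
    (hρ : Continuous ρ) {O O' : Set T} (hO : IsOpen O) (hO' : IsOpen O') (h : tsupport ρ ⊆ O')
    {f : T → E} (hf : ContinuousOn f (O ∩ O')) : ContinuousOn (fun x => ρ x * f x) O := by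
  intro x hx
  by_cases h1 : x ∈ O'
  · exact (hρ.continuousAt.mul (hf.continuousAt ((hO.inter hO').mem_nhds ⟨hx, h1⟩))).continuousWithinAt
  · refine (continuousAt_const (y := (0 : E)).congr ?_).continuousWithinAt
    filter_upwards [notMem_tsupport_iff_eventuallyEq.1 fun h2 => h1 (h h2)] with y hy
    rw [hy, Pi.zero_apply, zero_mul]

theorem idx {I : Type} [TopologicalSpace I] [DiscreteTopology I] {n : ℕ} (σ : Simp (I × T) n)
    (s t : Dl n) : (σ s).1 = (σ t).1 :=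
  PreconnectedSpace.constant inferInstance (continuous_fst.comp σ.continuous)

/-- The real functions whose differences are logarithms of the transition functions. -/
theorem data [T2Space M] [T2Space T] [CompactSpace T] {m : ℕ} (hM : Chartd M m) (ι : C(T, M))
    {e : Simp M 2 → ℤ} (he : cobd e = 0) : ∃ N₀, ∀ N ≥ N₀, ∃ (ρ η : Fin (N + 1) → T → ℝ)
      (O : Fin (N + 1) → Set T) (b : Fin (N + 1) → Simp T 1 → ℤ)
      (k : Fin (N + 1) → Fin (N + 1) → T → ℤ), (∀ i, Continuous (ρ i)) ∧ (∀ i x, 0 ≤ ρ i x) ∧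
      (∀ x, ∃ i, ρ i x ≠ 0) ∧ (∀ i, IsOpen (O i)) ∧ (∀ i, tsupport (ρ i) ⊆ O i) ∧
      (∀ i (σ : Simp T 2), range σ ⊆ O i → pull ι e σ = cobd (b i) σ) ∧
      (∀ i j (γ : Simp T 1), range γ ⊆ O i ∩ O j →
        b i γ - b j γ = k i j (vtx γ 1) - k i j (vtx γ 0)) ∧
      ∀ i j, ContinuousOn (fun x => η i x - η j x + k i j x) (O i ∩ O j) := by
  obtain ⟨n, W, V, hW, hV, hWV, hc⟩ := cover hM ι
  choose b hb using fun i => (hV i).two e he
  have hk : ∀ i j, ∃ k : M → ℤ, (W i ∩ W j).Nonempty → ∀ γ : Simp M 1, range γ ⊆ W i →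
      b i γ - b j γ = k (vtx γ 1) - k (vtx γ 0) := fun i j => by
    by_cases h : (W i ∩ W j).Nonempty
    · refine ((hW i).one (b i - b j) fun τ hτ => ?_).imp fun k hk _ => hk
      rw [Et.Lb2_cobd_sub, Pi.sub_apply, ← hb j τ (hτ.trans (hWV i j h)),
        ← hb i τ (hτ.trans (hWV i i ⟨_, h.some_mem.1, h.some_mem.1⟩)), sub_self]
    · exact ⟨0, fun h' => (h h').elim⟩
  choose k hk using hk
  refine ⟨n, fun N hN => ?_⟩
  have ho : ∀ i, IsOpen (ι ⁻¹' W i) := fun i => (hW i).opn.preimage ι.continuous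
  obtain ⟨ρ, hρ⟩ := PartitionOfUnity.exists_isSubordinate isClosed_univ
    (fun i : Fin (N + 1) => ι ⁻¹' W i) (fun i => ho i) fun x _ => by
      obtain ⟨i, h1, h2⟩ := hc x
      exact mem_iUnion.2 ⟨⟨i, by omega⟩, h2⟩
  have hv : ∀ (γ : Simp T 1) i, vtx (smap ι γ) i = ι (vtx γ i) := fun γ i =>
    smap_apply ι.continuous.continuousOn (subset_univ _) _
  refine ⟨fun i => ρ i, fun i x => -∑ l, ρ l x * k i l (ι x), fun i => ι ⁻¹' W i,
    fun i => pull ι (b i), fun i j x => k i j (ι x), fun i => (ρ i).continuous, ρ.nonneg,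
    fun x => (ρ.exists_pos (mem_univ x)).imp fun _ h => h.ne', fun i => ho i, hρ,
    fun i σ hσ => ?_, fun i j γ hγ => ?_, fun i j => ?_⟩
  · have h1 : range (smap ι σ) ⊆ W i := range_smap ι.continuous fun t => hσ (mem_range_self t)
    have h2 := h1 (mem_range_self (stdSimplex.vertex 0))
    rw [cobd_pull ι.continuous]
    exact hb i _ (h1.trans (hWV i i ⟨_, h2, h2⟩))
  · dsimp only
    rw [← hv, ← hv]
    exact hk i j ⟨_, hγ (mem_range_self (stdSimplex.vertex 0))⟩ _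
      (range_smap ι.continuous fun t => (hγ (mem_range_self t)).1)
  · refine (continuousOn_finsetSum Finset.univ fun l _ => cont_mul (ρ l).continuous
      ((ho i).inter (ho j)) (ho l) (hρ l)
      (f := fun x => ((k i j (ι x) - k i l (ι x) + k j l (ι x) : ℤ) : ℝ)) ?_).congr fun x _ => ?_
    · refine (loc_const hM (((hW i).opn.inter (hW j).opn).inter (hW l).opn)
        (k := fun y => ((k i j y - k i l y + k j l y : ℤ) : ℝ)) fun γ hγ => ?_).comp
        ι.continuous.continuousOn fun x hx => hx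
      have h0 := hγ (mem_range_self (stdSimplex.vertex 0))
      have h1 := hk i j ⟨_, h0.1⟩ γ fun z hz => (hγ hz).1.1
      have h2 := hk i l ⟨_, h0.1.1, h0.2⟩ γ fun z hz => (hγ hz).1.1
      have h3 := hk j l ⟨_, h0.1.2, h0.2⟩ γ fun z hz => (hγ hz).1.2
      congr 1
      linarith
    · have h1 := ρ.sum_eq_one (mem_univ x)
      rw [finsum_eq_sum_of_fintype] at h1
      push_cast
      simp only [mul_add, mul_sub, Finset.sum_add_distrib, Finset.sum_sub_distrib,
        ← Finset.sum_mul, h1]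
      ring

theorem ex_sub (s t : ℝ) : ex (s - t) = ex s / ex t := by
  rw [eq_div_iff (ex_ne t), ← ex_add, sub_add_cancel]

theorem polar {r : ℝ} (hr : 0 ≤ r) (s : ℝ) : (r : ℂ) * ex s = ‖(r : ℂ) * ex s‖ * ex s := by
  rw [norm_mul, norm_ex, mul_one, Complex.norm_real, Real.norm_of_nonneg hr]

end RUni

open RUni in
theorem exists_cls {M T : Type} [TopologicalSpace M] [T2Space M] [TopologicalSpace T] [T2Space T]
    [CompactSpace T] {m : ℕ} (hM : Chartd M m) (ι : C(T, M)) {e : Simp M 2 → ℤ}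
    (he : cobd e = 0) : ∃ N₀, ∀ N ≥ N₀, ∃ c : C(T, CP N), Coh (pull c (xx N)) (pull ι e) := by
  obtain ⟨N₀, h⟩ := data hM ι he
  refine ⟨N₀, fun N hN => ?_⟩
  obtain ⟨ρ, η, O, b, k, h1, h2, h3, h4, h5, h6, h7, h8⟩ := h N hN
  let v : T → Fin (N + 1) → ℂ := fun x l => ρ l x / ex (η l x)
  have hv : ∀ x l, v x l ≠ 0 ↔ ρ l x ≠ 0 := fun x l => by simp [v, ex_ne]
  have v0 : ∀ x, v x ≠ 0 := fun x h => (h3 x).elim fun l hl => (hv x l).2 hl (congrFun h l)
  have hO : ∀ l x, ρ l x ≠ 0 → x ∈ O l := fun l x h => h5 l (subset_tsupport _ h)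
  have hθ : ∀ i j x, ex (η i x - η j x + k i j x) = ex (η i x) / ex (η j x) := fun i j x => by
    rw [ex_add, ex_int, mul_one, ex_sub]
  have hc : Continuous fun x => pm N (v x) := continuous_iff_continuousAt.2 fun x => by
    obtain ⟨j, hj⟩ := h3 x
    have a1 : ContinuousOn (fun x l => (ρ l x : ℂ) * ex (η j x - η l x + k j l x)) (O j) :=
      continuousOn_pi.2 fun l => cont_mul (Complex.continuous_ofReal.comp (h1 l)) (h4 j) (h4 l)
        ((closure_mono fun y hy => by simpa using hy).trans (h5 l))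
        (continuous_ex.comp_continuousOn (h8 j l))
    have a2 : ∀ x, (fun l => (ρ l x : ℂ) * ex (η j x - η l x + k j l x)) = ex (η j x) • v x :=
      fun x => funext fun l => by
        simp only [hθ, v, Pi.smul_apply, smul_eq_mul]
        ring
    have a3 := continuousOn_pm.comp (a1.congr fun x _ => (a2 x).symm) fun x _ =>
      smul_ne_zero (ex_ne _) (v0 x)
    refine (a3.continuousAt ((h4 j).mem_nhds (hO j x hj))).congr (.of_forall fun y => ?_)
    exact pm_smul (ex_ne _) _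
  let c : C(T, CP N) := ⟨_, hc⟩
  have hd : ∀ a : Fin (N + 1) × T, a ∈ (etP c).dom → ρ a.1 a.2 ≠ 0 := fun a ha =>
    (hv _ _).1 ((pm_mem_Uc (v0 a.2)).1 ha)
  have hJ : ∀ a a' : Fin (N + 1) × T, JP c a a' = (v a.2 a.1)⁻¹ * v a.2 a'.1 := fun a a' =>
    congrFun (nl_pm (v0 a.2) a.1) a'.1
  have hs : ∀ {n} (γ : Simp (Fin (N + 1) × T) n) t, smap Prod.snd γ t = (γ t).2 := fun γ t =>
    smap_apply continuous_snd.continuousOn (subset_univ _) t
  have hr : ∀ {n} (γ : Simp (Fin (N + 1) × T) n), range γ ⊆ (etP c).dom →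
      ∀ t, (γ t).2 ∈ O (vtx γ 0).1 := fun γ hγ t => by
    rw [vtx, idx γ _ t]
    exact hO _ _ (hd _ (hγ (mem_range_self t)))
  let w : Simp (Fin (N + 1) × T) 1 → ℝ := fun γ => b (vtx γ 0).1 (smap Prod.snd γ) +
    cobd (pt fun a : Fin (N + 1) × T => η a.1 a.2) γ
  have arg : ∀ γ : Simp (Fin (N + 1) × T) 1,
      (v (vtx γ 1).2 (vtx γ 1).1)⁻¹ / (v (vtx γ 0).2 (vtx γ 0).1)⁻¹ =
      ‖(v (vtx γ 1).2 (vtx γ 1).1)⁻¹ / (v (vtx γ 0).2 (vtx γ 0).1)⁻¹‖ * ex (w γ) := fun γ => by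
    have a1 : ∀ a a' : Fin (N + 1) × T, (v a'.2 a'.1)⁻¹ / (v a.2 a.1)⁻¹ =
        ((ρ a.1 a.2 / ρ a'.1 a'.2 : ℝ) : ℂ) * ex (η a'.1 a'.2 - η a.1 a.2) := fun a a' => by
      simp only [v, ex_sub]
      push_cast
      field_simp
    rw [a1, ex_add, ex_int, one_mul, cobd_pt]
    exact polar (div_nonneg (h2 _ _) (h2 _ _)) _
  have chg : ∀ γ γ' : Simp (Fin (N + 1) × T) 1, (∀ t, (etP c).R (γ t) (γ' t)) →
      w γ - w γ' = wp fun t => JP c (γ t) (γ' t) := fun γ γ' h => by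
    have a1 : ∀ t, (γ t).2 = (γ' t).2 := fun t => (h t).2.2
    have g1 : range γ ⊆ (etP c).dom := range_subset_iff.2 fun t => (h t).1
    have g2 : range γ' ⊆ (etP c).dom := range_subset_iff.2 fun t => (h t).2.1
    have a2 : smap Prod.snd γ' = smap Prod.snd γ := ContinuousMap.ext fun t => by rw [hs, hs, a1]
    have a3 : ∀ t, (γ t).2 ∈ O (vtx γ 0).1 ∩ O (vtx γ' 0).1 := fun t =>
      ⟨hr γ g1 t, a1 t ▸ hr γ' g2 t⟩
    have a4 := h7 _ _ (smap Prod.snd γ) (range_smap continuous_snd a3)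
    have a5 : ∀ t, (γ t).1 = (vtx γ 0).1 := fun t => idx γ _ _
    have a6 : ∀ t, (γ' t).1 = (vtx γ' 0).1 := fun t => idx γ' _ _
    rw [wp_eq (θ := fun t => η (vtx γ 0).1 (γ t).2 - η (vtx γ' 0).1 (γ t).2 +
      k (vtx γ 0).1 (vtx γ' 0).1 (γ t).2) (fun t => (coc_JP c).ne _ _ (h t))
      ((h8 _ _).comp_continuous (continuous_snd.comp γ.continuous) a3) fun t => ?_]
    · have a7 := congrArg (Int.cast : ℤ → ℝ) a4
      simp only [vtx, hs] at a7 a5 a6
      push_cast at a7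
      simp only [w, a2, cobd_pt, vtx]
      rw [a5 (stdSimplex.vertex 1), a6 (stdSimplex.vertex 1), ← a1, ← a1]
      linarith
    · have a7 : JP c (γ t) (γ' t) = ((ρ (γ' t).1 (γ t).2 / ρ (γ t).1 (γ t).2 : ℝ) : ℂ) *
          ex (η (γ t).1 (γ t).2 - η (γ' t).1 (γ t).2 + k (γ t).1 (γ' t).1 (γ t).2) := by
        simp only [hJ, hθ, v]
        push_cast
        field_simp
      rw [← a5 t, ← a6 t, a7]
      exact polar (div_nonneg (h2 _ _) (h2 _ _)) _
  have val : ∀ σ : Simp (Fin (N + 1) × T) 2, range σ ⊆ (etP c).dom →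
      ((pull ι e (smap Prod.snd σ) : ℤ) : ℝ) = cobd w σ := fun σ hσ => by
    have a1 := h6 _ (smap Prod.snd σ) (range_smap continuous_snd (hr σ hσ))
    have a2 := congrFun (cobd_add (fun γ : Simp (Fin (N + 1) × T) 1 =>
      (b (vtx γ 0).1 (smap Prod.snd γ) : ℝ)) (cobd (pt fun a => η a.1 a.2))) σ
    rw [cobd_cobd, add_zero] at a2
    refine Eq.trans ?_ a2.symm
    rw [← cobd_cast]
    refine congrArg _ (a1.trans ?_)
    rw [← cobd_smap _ continuous_snd.continuousOn (subset_univ _)]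
    refine cobd_congr (S := range σ) (fun γ hγ => ?_) subset_rfl
    obtain ⟨t, ht⟩ := hγ (mem_range_self (stdSimplex.vertex 0))
    rw [vtx, vtx, ← ht, idx σ t]
  have eqv : ∀ a a' : Fin (N + 1) × T, (etP c).R a a' →
      (v a.2 a.1)⁻¹ = JP c a a' * (v a'.2 a'.1)⁻¹ := fun a a' h => by
    have a1 : a.2 = a'.2 := h.2.2
    rw [hJ, a1, mul_assoc, mul_inv_cancel₀ ((hv _ _).2 (hd a' h.2.1)), mul_one]
  exact ⟨c, Et.Rep.coh (coc_JP c) (coc_JP c) (u := fun _ => 1)
    ⟨continuousOn_const, fun _ _ => one_ne_zero⟩ (fun _ _ _ => by rw [mul_one, one_mul]) (rep_xx c)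
    ⟨coc_pull ι.continuous he, w, fun a => (v a.2 a.1)⁻¹,
      fun a ha => inv_ne_zero ((hv _ _).2 (hd a ha)), eqv, fun γ _ => arg γ, chg, val⟩⟩

end HW
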