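import Pool.Agent.P.MP_9699e0_gt.W.Sus
import Pool.Agent.P.MP_9699e0_gt.W.Punct

/-! Three-space minus finitely many points as a model of a wedge of two-spheres. -/

set_option autoImplicit false
set_option linter.unusedSectionVars false

noncomputable section

namespace HW

open HK3 Pool.Agent.P.MP_9699e0_gt Set Filter Topology

namespace RWsp

section Retr

variable {V : Type} [NormedAddCommGroup V] [NormedSpace ℝ V] {κ : Type} [Fintype κ]

/-- The factor that pushes a point out of the ball of radius one quarter. -/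
def fac (v : V) : ℝ := max (1 / (4 * ‖v‖)) 1 - 1

theorem fac_nonneg (v : V) : 0 ≤ fac v := sub_nonneg.2 (le_max_right _ _)

theorem fac_far {v : V} (h : 1 / 4 ≤ ‖v‖) : fac v = 0 := by
  have : 1 / (4 * ‖v‖) ≤ 1 := by
    rw [div_le_one (by linarith)]
    linarith
  rw [fac, max_eq_right this, sub_self]

theorem fac_near {v : V} (h0 : v ≠ 0) (h : ‖v‖ < 1 / 4) : (1 + fac v) * ‖v‖ = 1 / 4 := by
  have hp := norm_pos_iff.2 h0
  have : 1 ≤ 1 / (4 * ‖v‖) := by
    rw [le_div_iff₀ (by linarith)]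
    linarith
  rw [fac, max_eq_left this]
  field_simp
  ring

/-- Pushing out of the small balls. -/
def out (f : κ → V) (s : ℝ) (p : V) : V := p + s • ∑ i, fac (p - f i) • (p - f i)

theorem out_spec {f : κ → V} (hf : ∀ i j, i ≠ j → 1 ≤ ‖f i - f j‖) {s : ℝ} (h0 : 0 ≤ s)
    (h1 : s ≤ 1) {p : V} (hp : p ∉ range f) :
    out f s p ∉ range f ∧ (s = 1 → ∀ j, 1 / 4 ≤ ‖out f s p - f j‖) := by
  by_cases h : ∃ i, ‖p - f i‖ < 1 / 4
  · obtain ⟨i, hi⟩ := h
    have hne : p - f i ≠ 0 := fun e => hp ⟨i, (sub_eq_zero.1 e).symm⟩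
    have hpos := norm_pos_iff.2 hne
    have e : out f s p - f i = (1 + s * fac (p - f i)) • (p - f i) := by
      rw [out, Finset.sum_eq_single i, smul_smul, add_smul, one_smul]
      · abel
      · intro j _ hj
        rw [fac_far, zero_smul]
        have h2 := hf j i hj
        have h3 : f j - f i = (p - f i) - (p - f j) := by abel
        have h4 := norm_sub_le (p - f i) (p - f j)
        rw [← h3] at h4
        linarith
      · exact fun h => absurd (Finset.mem_univ i) h
    have hc := fac_nonneg (p - f i)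
    have hn : ‖out f s p - f i‖ = (1 + s * fac (p - f i)) * ‖p - f i‖ := by
      rw [e, norm_smul, Real.norm_of_nonneg (by positivity)]
    have hq := fac_near hne hi
    have hle : ‖out f s p - f i‖ ≤ 1 / 4 := by
      rw [hn, ← hq]
      gcongr
      exact mul_le_of_le_one_left hc h1
    have hfar : ∀ j, j ≠ i → 1 / 4 ≤ ‖out f s p - f j‖ := by
      intro j hj
      have h2 := hf j i hj
      have h3 : f j - f i = (out f s p - f i) - (out f s p - f j) := by abel
      have h4 := norm_sub_le (out f s p - f i) (out f s p - f j)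
      rw [← h3] at h4
      linarith
    refine ⟨?_, fun hs j => ?_⟩
    · rintro ⟨j, hj⟩
      by_cases hji : j = i
      · subst hji
        rw [← hj, sub_self, norm_zero] at hn
        have : 0 < (1 + s * fac (p - f j)) * ‖p - f j‖ := by positivity
        linarith
      · have := hfar j hji
        rw [← hj, sub_self, norm_zero] at this
        linarith
    · by_cases hji : j = i
      · subst hji
        rw [hn, hs, one_mul, hq]
      · exact hfar j hji
  · push Not at h
    have e : out f s p = p := by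
      rw [out, Finset.sum_eq_zero fun i _ => by rw [fac_far (h i), zero_smul], smul_zero, add_zero]
    rw [e]
    exact ⟨hp, fun _ => h⟩

/-- Radial shrinking of far points. -/
def shr (R s : ℝ) (q : V) : V := (1 - s + s * (R / max R ‖q‖)) • q

theorem shr_near {R : ℝ} (hR : 0 < R) (s : ℝ) {q : V} (h : ‖q‖ ≤ R) : shr R s q = q := by
  rw [shr, max_eq_left h, div_self hR.ne', mul_one, sub_add_cancel, one_smul]

theorem shr_far {R : ℝ} (hR : 0 < R) {s : ℝ} (h0 : 0 ≤ s) (h1 : s ≤ 1) {q : V} (h : R ≤ ‖q‖) :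
    R ≤ ‖shr R s q‖ ∧ (s = 1 → ‖shr R s q‖ = R) := by
  have hq : 0 < ‖q‖ := hR.trans_le h
  have e : ‖shr R s q‖ = (1 - s) * ‖q‖ + s * R := by
    rw [shr, max_eq_right h, norm_smul, Real.norm_of_nonneg (add_nonneg (by linarith) (by positivity))]
    field_simp
  rw [e]
  refine ⟨by nlinarith, fun hs => by rw [hs]; ring⟩

theorem exists_retr [ProperSpace V] {f : κ → V} (hf : ∀ i j, i ≠ j → 1 ≤ ‖f i - f j‖) :
    ∃ (K : Set ↥(range f)ᶜ) (ρ : C(↥(range f)ᶜ, K)), IsCompact K ∧
      ((ContinuousMap.id _).restrict K |>.comp ρ).Homotopic (ContinuousMap.id _) := by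
  obtain ⟨R, hR0, hR⟩ : ∃ R : ℝ, 0 < R ∧ ∀ i, ‖f i‖ + 1 ≤ R := by
    refine ⟨∑ i, ‖f i‖ + 1, by positivity, fun i => ?_⟩
    have := Finset.single_le_sum (f := fun i => ‖f i‖) (fun i _ => norm_nonneg _)
      (Finset.mem_univ i)
    linarith
  let K₀ : Set V := Metric.closedBall 0 R ∩ ⋂ j, {p | 1 / 4 ≤ ‖p - f j‖}
  have hK₀ : IsCompact K₀ := (isCompact_closedBall 0 R).inter_right
    (isClosed_iInter fun j => isClosed_le continuous_const (by fun_prop))
  have hsub : K₀ ⊆ (range f)ᶜ := by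
    rintro _ hp ⟨j, rfl⟩
    have := mem_iInter.1 hp.2 j
    rw [mem_setOf_eq, sub_self, norm_zero] at this
    linarith
  have key : ∀ s : ℝ, 0 ≤ s → s ≤ 1 → ∀ p ∉ range f,
      shr R s (out f s p) ∉ range f ∧ (s = 1 → shr R s (out f s p) ∈ K₀) := by
    intro s h0 h1 p hp
    obtain ⟨h2, h3⟩ := out_spec hf h0 h1 hp
    rcases le_total ‖out f s p‖ R with h | h
    · rw [shr_near hR0 s h]
      exact ⟨h2, fun hs => ⟨mem_closedBall_zero_iff.2 h, mem_iInter.2 (h3 hs)⟩⟩
    · obtain ⟨h4, h5⟩ := shr_far hR0 h0 h1 h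
      have h6 : ∀ j, 1 ≤ ‖shr R s (out f s p) - f j‖ := fun j => by
        have := norm_sub_norm_le (shr R s (out f s p)) (f j)
        linarith [hR j]
      refine ⟨?_, fun hs => ⟨mem_closedBall_zero_iff.2 (h5 hs).le, mem_iInter.2 fun j => ?_⟩⟩
      · rintro ⟨j, hj⟩
        have := h6 j
        rw [← hj, sub_self, norm_zero] at this
        linarith
      · have := h6 j
        rw [mem_setOf_eq]
        linarith
  have hout : Continuous fun x : ℝ × ↥(range f)ᶜ => out f x.1 x.2.1 := by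
    unfold out fac
    refine (continuous_subtype_val.comp continuous_snd).add (continuous_fst.smul
      (continuous_finset_sum _ fun i _ => Continuous.smul ?_ (by fun_prop)))
    refine (Continuous.max (continuous_const.div (by fun_prop) fun x => ?_) continuous_const).sub
      continuous_const
    have : x.2.1 - f i ≠ 0 := fun e => x.2.2 ⟨i, (sub_eq_zero.1 e).symm⟩
    have := norm_pos_iff.2 this
    positivity
  have hH : Continuous fun x : ℝ × ↥(range f)ᶜ => shr R x.1 (out f x.1 x.2.1) := by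
    unfold shr
    refine Continuous.smul ((continuous_const.sub continuous_fst).add (continuous_fst.mul
      (continuous_const.div (continuous_const.max hout.norm) fun x => ?_))) hout
    exact (hR0.trans_le (le_max_left _ _)).ne'
  refine ⟨Subtype.val ⁻¹' K₀, ⟨fun p => ⟨⟨shr R 1 (out f 1 p.1),
    (key 1 zero_le_one le_rfl p.1 p.2).1⟩, (key 1 zero_le_one le_rfl p.1 p.2).2 rfl⟩, ?_⟩, ?_, ?_⟩
  · exact ((hH.comp (continuous_const.prodMk continuous_id)).subtype_mk _).subtype_mk _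
  · rw [Subtype.isCompact_iff, Subtype.image_preimage_coe, inter_eq_right.2 hsub]
    exact hK₀
  · refine ContinuousMap.Homotopic.symm ⟨⟨⟨fun x => ⟨shr R x.1 (out f x.1 x.2.1),
      (key x.1 x.1.2.1 x.1.2.2 x.2.1 x.2.2).1⟩, ?_⟩, fun p => ?_, fun p => rfl⟩⟩
    · exact (hH.comp ((continuous_subtype_val.comp continuous_fst).prodMk
        continuous_snd)).subtype_mk _
    · apply Subtype.ext
      simp [shr, out]

end Retr

/-- The model space. -/
abbrev V3 : Type := (ℝ × ℝ) × ℝ

/-- The removed points. -/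
def pts (r : ℕ) (i : Fin r) : V3 := (((i : ℝ), 0), 0)

theorem range_pts (r : ℕ) : range (pts r) =
    ((range fun i : Fin r => (i : ℝ)) ×ˢ ({0} : Set ℝ)) ×ˢ ({0} : Set ℝ) := by
  ext ⟨⟨x, y⟩, t⟩
  simp only [pts, mem_range, Prod.mk.injEq, mem_prod, mem_singleton_iff]
  constructor
  · rintro ⟨i, ⟨h1, h2⟩, h3⟩
    exact ⟨⟨⟨i, h1⟩, h2.symm⟩, h3.symm⟩
  · rintro ⟨⟨⟨i, h1⟩, h2⟩, h3⟩
    exact ⟨i, ⟨h1, h2.symm⟩, h3.symm⟩

theorem pts_far (r : ℕ) (i j : Fin r) (h : i ≠ j) : 1 ≤ ‖pts r i - pts r j‖ := by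
  refine le_trans ?_ ((norm_fst_le (pts r i - pts r j).1).trans (norm_fst_le _))
  change 1 ≤ |((i : ℕ) : ℝ) - ((j : ℕ) : ℝ)|
  have h1 : ((i : ℕ) : ℤ) - ((j : ℕ) : ℤ) ≠ 0 := fun e => h (Fin.ext (by omega))
  exact_mod_cast Int.one_le_abs h1

/-- Coordinates on the model space. -/
def crd : Eu 3 ≃ₜ V3 where
  toFun x := ((x 0, x 1), x 2)
  invFun p := ![p.1.1, p.1.2, p.2]
  left_inv x := by
    funext i
    fin_cases i <;> rfl
  right_inv _ := rfl
  continuous_toFun := by fun_prop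
  continuous_invFun := by
    refine continuous_pi fun i => ?_
    fin_cases i
    · exact continuous_fst.fst
    · exact continuous_fst.snd
    · exact continuous_snd

theorem sc_compl (T : Finset V3) : IsSimplyConnected (T : Set V3)ᶜ := by
  classical
  induction T using Finset.induction_on with
  | empty =>
    rw [Finset.coe_empty, compl_empty]
    have := (convex_univ (𝕜 := ℝ) (E := V3)).contractibleSpace univ_nonempty
    exact SimplyConnectedSpace.ofContractible _
  | insert a T _ ih =>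
    have := punct (Chartd.of_equiv crd) le_rfl T.finite_toSet.isClosed.isOpen_compl ih a
    rwa [diff_eq, ← compl_union, union_singleton, ← Finset.coe_insert] at this

theorem hiso_pts (r : ℕ) : HIso (range (pts r))ᶜ 2 (Fin r → ℤ) ∧ HIso (range (pts r))ᶜ 3 PUnit := by
  have h1 : IsClosed (range fun i : Fin r => (i : ℝ)) := (finite_range _).isClosed
  have h2 := h1.prod (isClosed_singleton (x := (0 : ℝ)))
  rw [range_pts]
  exact ⟨hiso_sus h2 (hiso_sus h1 (hiso_line r).1), hiso_sus h2 (hiso_sus h1 (hiso_line r).2)⟩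

theorem exists_bas {X : Type} [TopologicalSpace X] {S : Set X} (h1 : HZ S 1) {ι : Type}
    [DecidableEq ι] (h : HIso S 2 (ι → ℤ)) : ∃ ε : ι → Simp S 2 → ℤ, Bas ε := by
  obtain ⟨φ, hs, hk⟩ := h
  let ψ : cyc ℤ (univ : Set S) 2 →ₗ[ℤ] rcyc S 2 :=
    (cmap ℤ Subtype.val 2).restrict fun c hc => val_cyc.2 hc
  have hψ : ∀ c, (ψ c).1 = cmap ℤ Subtype.val 2 c.1 := fun _ => rfl
  have key : ∀ i, ∃ a : Simp S 2 → ℤ, cobd a = 0 ∧
      ∀ c : cyc ℤ (univ : Set S) 2, ev ℤ a c.1 = φ (ψ c) i := fun i =>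
    ext_two h1 (LinearMap.proj i ∘ₗ φ ∘ₗ ψ) fun c hc => by
      have : φ (ψ c) = 0 := (hk _).2 (val_bdy.2 hc)
      simp [this]
  choose ε h2 h3 using key
  refine ⟨ε, h2, fun c hc h0 => ?_, fun j => ?_⟩
  · refine val_bdy.1 ((hk (ψ ⟨c, hc⟩)).1 (funext fun i => ?_))
    rw [← h3]
    exact h0 i
  · obtain ⟨y, hy⟩ := hs (Pi.single j 1)
    obtain ⟨c, hc⟩ := val_chn (rcyc_le S 2 y.2).1
    have hc' : c ∈ cyc ℤ (univ : Set S) 2 := val_cyc.1 (hc ▸ rcyc_le S 2 y.2)
    refine ⟨c, hc', fun i => ?_⟩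
    have e : ψ ⟨c, hc'⟩ = y := Subtype.ext hc
    rw [h3 i ⟨c, hc'⟩, e, hy, Pi.single_apply]

end RWsp

open RWsp in
theorem exists_W (ι : Type) [Fintype ι] [DecidableEq ι] : ∃ (W : Type) (_ : TopologicalSpace W)
    (ε : ι → Simp W 2 → ℤ) (K : Set W) (ρ : C(W, K)), T2Space W ∧ Chartd W 3 ∧
      SimplyConnectedSpace W ∧ IsCompact K ∧
      ((ContinuousMap.id W).restrict K |>.comp ρ).Homotopic (ContinuousMap.id W) ∧ Bas ε ∧
      HZ W 3 := by
  classical
  let r := Fintype.card ι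
  have hsc : SimplyConnectedSpace ↥(range (pts r))ᶜ := by
    have := sc_compl (finite_range (pts r)).toFinset
    rwa [Finite.coe_toFinset] at this
  obtain ⟨K, ρ, h1, h2⟩ := exists_retr (pts_far r)
  obtain ⟨⟨φ, h3, h4⟩, φ', -, h5⟩ := hiso_pts r
  let e := LinearEquiv.funCongrLeft ℤ ℤ (Fintype.equivFin ι)
  obtain ⟨ε, hε⟩ := exists_bas (S := (range (pts r))ᶜ) (ι := ι) cyc_one_le
    ⟨e.toLinearMap ∘ₗ φ, e.surjective.comp h3, fun c => by
      rw [← h4]
      exact e.map_eq_zero_iff⟩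
  refine ⟨_, inferInstance, ε, K, ρ, inferInstance,
    (Chartd.of_equiv crd).sub (finite_range _).isClosed.isOpen_compl, hsc, h1, h2, hε,
    hz_val.2 fun c hc => (h5 ⟨c, hc⟩).1 (Subsingleton.elim _ _)⟩

end HW
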