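import Pool.Agent.P.MP_9699e0_gt.W.Wma
import Pool.Agent.P.MP_9699e0_gt.W.Uni
import Pool.Agent.P.MP_9699e0_gt.W.StB
import Pool.Agent.P.MP_9699e0_gt.W.Top
import Pool.Agent.P.MP_9699e0_gt.W.Wsp

/-! The theorem of Whitehead and Milnor: closed simply connected four-manifolds with the same
unimodular form are homotopy equivalent. -/

set_option autoImplicit false
set_option linter.unusedSectionVars false

noncomputable section

namespace HW

open HK3 Pool.Agent.P.MP_9699e0_gt Set Filter Topology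

variable {X Y P : Type} [TopologicalSpace X] [TopologicalSpace Y] [TopologicalSpace P]
  {ι : Type} [Fintype ι] [DecidableEq ι]

namespace RWmb

/-- The classes on a product of projective spaces. -/
def xp (ι : Type) (N : ℕ) (i : ι) : Simp (ι → CP N) 2 → ℤ :=
  pull (fun p : ι → CP N => p i) (xx N)

theorem cls_pi {M T : Type} [TopologicalSpace M] [T2Space M] [TopologicalSpace T] [T2Space T]
    [CompactSpace T] {m : ℕ} (hM : Chartd M m) (j : C(T, M)) {e : ι → Simp M 2 → ℤ}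
    (he : ∀ i, cobd (e i) = 0) : ∃ N₀, ∀ N ≥ N₀, ∃ c : C(T, ι → CP N),
      ∀ i, Coh (pull c (xp ι N i)) (pull j (e i)) := by
  choose N₀ h using fun i => exists_cls hM j (he i)
  refine ⟨Finset.univ.sup N₀, fun N hN => ?_⟩
  choose c hc using fun i => h i N (le_trans (Finset.le_sup (Finset.mem_univ i)) hN)
  refine ⟨ContinuousMap.pi c, fun i => ?_⟩
  rw [xp, pull_pull (ContinuousMap.pi c).continuous]
  exact hc i

theorem bas_hty {x : ι → Simp P 2 → ℤ} (hx : ∀ i, cobd (x i) = 0) {f g : C(X, P)}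
    (h : f.Homotopic g) (hb : Bas fun i => pull g (x i)) : Bas fun i => pull f (x i) :=
  hb.congr (fun i => coc_pull f.continuous (hx i)) fun i c hc => by
    rw [ev_pull, ev_pull]
    exact ev_eq_of_bdy (hx i) (hty_cyc h hc)

theorem lift_W [SimplyConnectedSpace X] [SimplyConnectedSpace P] (f : C(X, P)) (hf : Hcon f 3)
    {W : Type} [TopologicalSpace W] [T2Space W] (hW : Chartd W 3) {K : Set W} (hK : IsCompact K)
    (ρ : C(W, K)) (hρ : ((ContinuousMap.id W).restrict K |>.comp ρ).Homotopic (ContinuousMap.id W))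
    (w : C(W, P)) : ∃ α : C(W, X), (f.comp α).Homotopic w := by
  obtain ⟨l, hl⟩ := lift f hf le_rfl hW hK w
  exact ⟨l.comp ρ, (hl.comp (ContinuousMap.Homotopic.refl ρ)).trans
    ((ContinuousMap.Homotopic.refl w).comp hρ)⟩

theorem core [SimplyConnectedSpace X] [SimplyConnectedSpace Y] [SimplyConnectedSpace P]
    {z : Chn ℤ X 4} {z' : Chn ℤ Y 4} (h : Mf X z) (h' : Mf Y z') {x : ι → Simp P 2 → ℤ}
    (hx : Det x) (c : C(X, P)) (c' : C(Y, P)) (hb : Bas fun i => pull c (x i))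
    (hb' : Bas fun i => pull c' (x i))
    (hg : ∀ i j, ev ℤ (cup (x i) (x j)) (cmap ℤ c 4 z) = ev ℤ (cup (x i) (x j)) (cmap ℤ c' 4 z'))
    {W : Type} [TopologicalSpace W] [T2Space W] [SimplyConnectedSpace W] (hW : Chartd W 3)
    {K : Set W} (hK : IsCompact K) (ρ : C(W, K))
    (hρ : ((ContinuousMap.id W).restrict K |>.comp ρ).Homotopic (ContinuousMap.id W))
    (h3 : HZ W 3) (w : C(W, P)) (hw : Bas fun i => pull w (x i)) :
    ∃ F : C(X, Y), (c'.comp F).Homotopic c := by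
  have := h.t2
  have := h.cpt
  have hY : Hcon c' 3 := hcon_three hx c'.continuous cyc_one_le hb'
  obtain ⟨e, e0, e4, s2, s0⟩ := h.chart_four (Classical.arbitrary X)
  generalize Classical.arbitrary X = a at e0 s0
  obtain ⟨p3, p4, p1, p2⟩ := h.punct s0 (h.hz_three cyc_one_le)
  have hsc : SimplyConnectedSpace ({a}ᶜ : Set X) := by
    have := punct h.chartd (by norm_num) isOpen_univ
      ((Homeomorph.Set.univ X).toHomotopyEquiv.simplyConnectedSpace) a
    rwa [← compl_eq_univ_diff] at this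
  let c₀ : C(({a}ᶜ : Set X), P) := c.restrict {a}ᶜ
  have hb₀ : Bas fun i => pull c₀ (x i) := by
    have := hb.pullback continuous_subtype_val p1 p2
    simp only [pull_pull continuous_subtype_val] at this
    exact this
  obtain ⟨α, hα⟩ := lift_W c₀ (hcon_three hx c₀.continuous cyc_one_le hb₀) hW hK ρ hρ w
  obtain ⟨β, hβ⟩ := lift_W c' hY hW hK ρ hρ w
  have ha : Hcon α 4 := by
    refine hcon_four hb₀ α.continuous ?_ cyc_one_le h3 p3 (p4.hsur α)
    simp only [pull_pull α.continuous]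
    exact bas_hty hx.coc hα hw
  have ho : IsOpen (e '' Metric.ball 0 1) := e.isOpen_image_of_subset_source Metric.isOpen_ball
    ((Metric.ball_subset_closedBall.trans (Metric.closedBall_subset_closedBall (by norm_num))).trans
      e4)
  have hs : (e '' Metric.ball 0 1)ᶜ ⊆ {a}ᶜ := compl_subset_compl.2
    (singleton_subset_iff.2 ⟨0, Metric.mem_ball_self one_pos, e0⟩)
  have hk : IsCompact (Subtype.val ⁻¹' (e '' Metric.ball 0 1)ᶜ : Set ({a}ᶜ : Set X)) :=
    IsEmbedding.subtypeVal.isInducing.isCompact_preimage' ho.isClosed_compl.isCompact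
      (by rwa [Subtype.range_coe])
  obtain ⟨γ, hγ⟩ := lift α ha le_rfl (h.chartd.sub isOpen_compl_singleton) hk
    (ContinuousMap.id _)
  let j : C(((e '' Metric.ball 0 1)ᶜ : Set X),
      (Subtype.val ⁻¹' (e '' Metric.ball 0 1)ᶜ : Set ({a}ᶜ : Set X))) :=
    ⟨fun p => ⟨⟨p.1, hs p.2⟩, p.2⟩, by fun_prop⟩
  refine lift_top c' hY e e4 h.closed s2 c (β.comp (γ.comp j)) ?_ h'.closed ?_
  · exact (((hβ.trans hα.symm).comp (ContinuousMap.Homotopic.refl (γ.comp j))).trans
      ((ContinuousMap.Homotopic.refl c₀).comp (hγ.comp (ContinuousMap.Homotopic.refl j))))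
  · refine hx.four _ (Submodule.sub_mem _ (cyc_map c.continuous (mem_cyc_univ.2 h.closed))
      (cyc_map c'.continuous (mem_cyc_univ.2 h'.closed))) fun i j => ?_
    rw [map_sub, hg, sub_self]

end RWmb

open RWmb in
theorem whm [SimplyConnectedSpace X] [SimplyConnectedSpace Y] {z : Chn ℤ X 4} {z' : Chn ℤ Y 4}
    (h : Mf X z) (h' : Mf Y z') {e : ι → Simp X 2 → ℤ} {e' : ι → Simp Y 2 → ℤ} {G : ι → ι → ℤ}
    (hf : Frm z e G) (hf' : Frm z' e' G) {Q : ι → ι → ℤ}
    (hQ : ∀ i j, ∑ k, G i k * Q k j = if i = j then 1 else 0) {i₀ j₀ : ι} (h0 : G i₀ j₀ ≠ 0) :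
    Nonempty (ContinuousMap.HomotopyEquiv X Y) := by
  have := h.t2
  have := h.cpt
  have := h'.t2
  have := h'.cpt
  obtain ⟨W, _, ε, K, ρ, _, hW, _, hK, hρ, hε, h3⟩ := exists_W ι
  have := isCompact_iff_compactSpace.1 hK
  obtain ⟨N₁, h1⟩ := cls_pi h.chartd (ContinuousMap.id X) hf.coc
  obtain ⟨N₂, h2⟩ := cls_pi h'.chartd (ContinuousMap.id Y) hf'.coc
  obtain ⟨N₃, h4⟩ := cls_pi hW ((ContinuousMap.id W).restrict K) hε.coc
  obtain ⟨N, n1, n2, n3⟩ : ∃ N, N ≥ N₁ ∧ N ≥ N₂ ∧ N ≥ N₃ := ⟨N₁ + N₂ + N₃, by omega⟩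
  obtain ⟨c, hc⟩ := h1 N n1
  obtain ⟨c', hc'⟩ := h2 N n2
  obtain ⟨w, hw⟩ := h4 N n3
  simp only [ContinuousMap.coe_id, pull_id] at hc hc'
  have := sc_CP N
  have : SimplyConnectedSpace (ι → CP N) := sc_pi
  have hx : Det (xp ι N) := det_pi ι N
  have hb : Bas fun i => pull c (xp ι N i) := (hf.bas h hQ).congr
    (fun i => coc_pull c.continuous (hx.coc i)) fun i a ha => ev_coh (hc i) ha
  have hb' : Bas fun i => pull c' (xp ι N i) := (hf'.bas h' hQ).congr
    (fun i => coc_pull c'.continuous (hx.coc i)) fun i a ha => ev_coh (hc' i) ha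
  have hg : ∀ i j, ev ℤ (cup (xp ι N i) (xp ι N j)) (cmap ℤ c 4 z) = G i j := fun i j => by
    rw [← ev_pull, ← cup_pull c.continuous, ev_cup_coh h.closed (hb.coc i) (hf.coc j) (hc i) (hc j),
      hf.gram]
  have hg' : ∀ i j, ev ℤ (cup (xp ι N i) (xp ι N j)) (cmap ℤ c' 4 z') = G i j := fun i j => by
    rw [← ev_pull, ← cup_pull c'.continuous,
      ev_cup_coh h'.closed (hb'.coc i) (hf'.coc j) (hc' i) (hc' j), hf'.gram]
  have hbw : Bas fun i => pull (w.comp ρ) (xp ι N i) := by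
    have h5 := bas_hty hε.coc hρ (by simpa only [ContinuousMap.coe_id, pull_id] using hε)
    refine h5.congr (fun i => coc_pull (w.comp ρ).continuous (hx.coc i)) fun i a ha => ?_
    have h6 := ev_coh (coh_pull ρ.continuous (hw i)) ha
    rwa [pull_pull ρ.continuous, pull_pull ρ.continuous] at h6
  obtain ⟨F, hF⟩ := core h h' hx c c' hb hb' (fun i j => (hg i j).trans (hg' i j).symm) hW hK ρ hρ
    h3 (w.comp ρ) hbw
  have hd : cmap ℤ F 4 z - z' ∈ bdy ℤ univ 4 := by
    refine deg_one h.closed h' F.continuous (hb'.coc i₀) (hb'.coc j₀) ?_ ?_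
    · rwa [cup_pull c'.continuous, ev_pull, hg']
    · rw [cup_pull F.continuous, cup_pull c'.continuous, pull_pull F.continuous, ev_pull, ev_pull,
        hg', ← hg]
      exact ev_eq_of_bdy (coc_cup (hx.coc _) (hx.coc _)) (hty_cyc hF (mem_cyc_univ.2 h.closed))
  obtain ⟨h7, h8⟩ := iso_four h h' F.continuous hd
  refine whitehead h.chartd h'.chartd F (hcon_four hb' F.continuous ?_ cyc_one_le
    (h.hz_three cyc_one_le) (h'.hz_three cyc_one_le) h8) h7
  simp only [pull_pull F.continuous]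
  exact bas_hty hx.coc hF hb

end HW
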