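import Pool.Agent.P.MP_9699e0_gt.W.QGen
import Pool.Agent.P.MP_9699e0_gt.W.QEv
import Pool.Agent.P.MP_9699e0_gt.W.QLat
import Pool.Agent.P.MP_9699e0_gt.W.LnE
import Pool.Agent.P.MP_9699e0_gt.W.LatB
import Pool.Agent.P.MP_9699e0_gt.W.Wmb

/-! The intersection form of the Fermat quartic, and the homotopy type of closed simply connected
four-manifolds with this form. -/

set_option autoImplicit false
set_option linter.unusedSectionVars false

noncomputable section

namespace HW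

open HK3 Pool.Agent.P.MP_9699e0_gt Set Filter Topology

theorem fermat_form : ∃ z : Chn ℤ Fermat 4, Mf Fermat z ∧ HasK3Form Fermat := by
  have := t2_Q
  have := compact_Q
  have := sc_Q
  obtain ⟨A, hA⟩ := exists_oatQ
  obtain ⟨z, hz⟩ := A.exists_fund
  have h := mf_of_oat A hz
  have h4 := HH hA hz
  obtain ⟨c, hc, hg, hl⟩ := exists_lines hA hz
  obtain ⟨e, he⟩ := pham_UQ
  obtain ⟨S, hS⟩ := gen21 ⟨_, cap_cyc coc_cH hz.1, by rw [ev_cap, h4]; norm_num⟩ he
  obtain ⟨b, hb⟩ := exists_dual h h4 he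
  let g : Option (Fin 21) → Simp Fermat 2 → ℤ := fun o => o.elim (c 0) fun i => b (S i)
  have hgen : cyc ℤ univ 2 ≤
      Submodule.span ℤ (range fun o => cap 2 2 4 (g o) z) ⊔ bdy ℤ univ 2 := fun a ha => by
    have h0 : cap 2 2 4 (c 0) z ∈ Submodule.span ℤ (range fun o => cap 2 2 4 (g o) z) :=
      Submodule.subset_span ⟨none, rfl⟩
    have h1 := hS (a - ev ℤ cH a • cap 2 2 4 (c 0) z)
      (Submodule.sub_mem _ ha (Submodule.smul_mem _ _ (cap_cyc (hc 0) hz.1)))
      (by rw [map_sub, map_smul, ev_cap, (hl 0).2, smul_eq_mul, mul_one, sub_self])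
    have h2 : Submodule.span ℤ (range fun i => cmap ℤ (dq (S i)) 2 e) ⊔ bdy ℤ univ 2 ≤
        Submodule.span ℤ (range fun o => cap 2 2 4 (g o) z) ⊔ bdy ℤ univ 2 := by
      refine sup_le (Submodule.span_le.2 ?_) le_sup_right
      rintro _ ⟨i, rfl⟩
      exact Submodule.mem_sup.2 ⟨_, Submodule.subset_span ⟨some i, rfl⟩, _, (hb (S i)).2.1,
        add_sub_cancel _ _⟩
    have h3 := Submodule.add_mem _ (h2 h1)
      (Submodule.mem_sup_left (Submodule.smul_mem _ (ev ℤ cH a) h0))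
    rwa [sub_add_cancel] at h3
  have hlat : Lat (BZ z) 22 := lat_of_mf h cyc_one_le (b := g)
    (fun o => by
      cases o
      · exact hc 0
      · exact (hb _).1) hgen
    (fun o => by
      cases o
      · exact (hg 0 0).symm ▸ (by decide)
      · exact (hb _).2.2)
  obtain ⟨L, V, hV⟩ := exists_cert
  obtain ⟨k, hk⟩ := lattice hlat (fun i => ∑ a, V i a • (⟨c (L a), hc _⟩ : Z2 Fermat))
    fun i j => by
      rw [← hV, BZ_apply]
      simp only [AddSubmonoidClass.coe_finsetSum, SetLike.val_smul, ev_cup_sum, hg]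
  exact ⟨z, h, hasK3Form_of (hb_of_gen _ hgen) (fun i => (k i).1) z (fun i => (k i).2) hz.1 hk⟩

theorem equiv_fermat {X : Type} [TopologicalSpace X] [SimplyConnectedSpace X] {z : Chn ℤ X 4}
    (h : Mf X z) (hk : HasK3Form X) : Nonempty (ContinuousMap.HomotopyEquiv X Fermat) := by
  have := sc_Q
  obtain ⟨z', h', hk'⟩ := fermat_form
  obtain ⟨y, e, h1, h2⟩ := exists_frm h hk
  obtain ⟨y', e', h1', h2'⟩ := exists_frm h' hk'
  obtain ⟨Q, hQ⟩ := k3Form_inv
  exact whm h1 h1' h2 h2' hQ (i₀ := .inl (0, 0)) (j₀ := .inl (0, 1)) (by decide)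

end HW
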