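import Pool.Agent.P.MP_9699e0_gt.W.QPi
import Pool.Agent.P.MP_9699e0_gt.W.Cert

/-! Generators of the primitive homology of the quartic. -/

set_option autoImplicit false
set_option linter.unusedSectionVars false

noncomputable section

namespace HW

open HK3 Pool.Agent.P.MP_9699e0_gt Set Filter Topology

namespace RQGen

theorem van : ∃ c₀ : Simp Fermat 2 → ℤ, cobd c₀ = 0 ∧
    (∀ c ∈ cyc ℤ univ 2, ev ℤ cH c = ev ℤ c₀ c) ∧ ∀ c ∈ chn ℤ (UQ 3) 2, ev ℤ c₀ c = 0 := by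
  obtain ⟨c₀, h1, h2, h3, -⟩ := xx_van inc 3
  refine ⟨c₀, h1, fun c hc => ev_coh h2 hc, fun c hc => ?_⟩
  rw [ev_congr_chn (b := 0) hc h3]
  simp [ev]

theorem dq_dq (h h' : G3) (c : Chn ℤ Fermat 2) :
    cmap ℤ (dq h) 2 (cmap ℤ (dq h') 2 c) = cmap ℤ (dq (h + h')) 2 c := by
  rw [cmap_cmap (continuous_dq h'), dq_add]

theorem four {N : Submodule ℤ (Chn ℤ Fermat 2)} (hN : bdy ℤ univ 2 ≤ N) {e : Chn ℤ Fermat 2}
    (D : Fin 4 → G3) {d : G3} (hD : ∑ k, cmap ℤ (dq (D k)) 2 e ∈ bdy ℤ univ 2)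
    (h0 : D 0 = 0 ∧ D 1 = d ∧ D 2 = d + d ∧ D 3 = d + d + d) (h : G3)
    (h1 : cmap ℤ (dq (h + d)) 2 e ∈ N) (h2 : cmap ℤ (dq (h + (d + d))) 2 e ∈ N)
    (h3 : cmap ℤ (dq (h + (d + d + d))) 2 e ∈ N) : cmap ℤ (dq h) 2 e ∈ N := by
  have h4 := hN (bdy_map (continuous_dq h) hD)
  rw [Fin.sum_univ_four, h0.1, h0.2.1, h0.2.2.1, h0.2.2.2] at h4
  simp only [map_add, dq_dq, add_zero] at h4
  simpa using N.sub_mem (N.sub_mem (N.sub_mem h4 h3) h2) h1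

end RQGen

open RQGen

variable {e : Chn ℤ Fermat 2}

theorem ev_cH_UQ {c : Chn ℤ Fermat 2} (hc : c ∈ cyc ℤ (UQ 3) 2) : ev ℤ cH c = 0 := by
  obtain ⟨c₀, -, h2, h3⟩ := van
  rw [h2 c (cyc_mono (subset_univ _) 2 hc), h3 c hc.1]

theorem ker_cH (h4 : ∃ c ∈ cyc ℤ univ 2, ev ℤ cH c ≠ 0) {c : Chn ℤ Fermat 2}
    (hc : c ∈ cyc ℤ univ 2) (h0 : ev ℤ cH c = 0) : c ∈ cyc ℤ (UQ 3) 2 ⊔ bdy ℤ univ 2 := by
  obtain ⟨c₀, h1, h2, h3⟩ := van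
  obtain ⟨μ, hμ⟩ := lf_cyc (isOpen_UQ 3) (flat_UQ 3) pre_compl
  have key : ∀ c ∈ cyc ℤ (univ : Set Fermat) 2, ∃ m : ℤ,
      c - m • μ ∈ bdy ℤ univ 2 ⊔ chn ℤ (UQ 3) 2 ∧ ev ℤ cH c = m * ev ℤ c₀ μ := fun c hc => by
    obtain ⟨m, hm⟩ := hμ c (by rw [mem_cyc_univ.1 hc]; exact zero_mem _)
    refine ⟨m, hm, ?_⟩
    obtain ⟨x, hx, y, hy, e⟩ := Submodule.mem_sup.1 hm
    have := congrArg (ev ℤ c₀) e
    rw [map_add, ev_bdy h1 hx, h3 y hy, map_sub, map_smul, smul_eq_mul, add_zero] at this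
    rw [h2 c hc, ← sub_eq_zero, this]
  obtain ⟨c', hc', h5⟩ := h4
  obtain ⟨m', -, h6⟩ := key c' hc'
  obtain ⟨m, hm, h7⟩ := key c hc
  obtain rfl : m = 0 :=
    (mul_eq_zero.1 (h7.symm.trans h0)).resolve_right (right_ne_zero_of_mul (h6 ▸ h5))
  rw [zero_smul, sub_zero] at hm
  obtain ⟨_, ⟨f, hf, rfl⟩, y, hy, rfl⟩ := Submodule.mem_sup.1 hm
  refine Submodule.mem_sup.2 ⟨y, ⟨hy, ?_⟩, _, ⟨f, hf, rfl⟩, add_comm _ _⟩
  have := mem_cyc_univ.1 hc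
  rwa [map_add, bd_bd, zero_add] at this

theorem rel_one (he : Pham (UQ 3) TQ dq e) {c : Chn ℤ Fermat 2}
    (hc : c ∈ cyc ℤ (UQ 3) 2 ⊔ bdy ℤ univ 2) :
    ∑ k, cmap ℤ (dq (k, 0, 0)) 2 c ∈ bdy ℤ univ 2 := by
  have hb : bdy ℤ univ 2 ≤ (bdy ℤ univ 2).comap (∑ k, cmap ℤ (dq (k, 0, 0)) 2) := fun c hc => by
    rw [Submodule.mem_comap, LinearMap.sum_apply]
    exact sum_mem fun k _ => bdy_map (continuous_dq _) hc
  rw [← LinearMap.sum_apply, ← Submodule.mem_comap]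
  refine sup_le (he.gen.trans (sup_le (Submodule.span_le.2 ?_)
    ((bdy_mono (subset_univ _) 2).trans hb))) hb hc
  rintro _ ⟨h, rfl⟩
  have := bdy_map (continuous_dq h) (bdy_mono (subset_univ _) 2 he.rel1)
  simp only [map_sum, dq_dq] at this
  simpa only [SetLike.mem_coe, Submodule.mem_comap, LinearMap.sum_apply, dq_dq, add_comm h]
    using this

theorem rel_four (h4 : ∃ c ∈ cyc ℤ univ 2, ev ℤ cH c ≠ 0) (he : Pham (UQ 3) TQ dq e) :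
    ∑ k, cmap ℤ (dq (k, k, k)) 2 e ∈ bdy ℤ univ 2 := by
  have h1 : e ∈ cyc ℤ univ 2 := cyc_mono (subset_univ _) 2 he.mem
  have h2 := bdy_map (continuous_sw 0 3) (rel_one he (ker_cH h4 (cyc_map (continuous_sw 0 3) h1)
    (by rw [← ev_pull, ev_coh (coh_sw 0 3) h1, ev_cH_UQ (cyc_mono inter_subset_left 2 he.mem)])))
  simp only [map_sum, cmap_cmap (continuous_sw 0 3),
    cmap_cmap ((continuous_dq _).comp (continuous_sw 0 3)), sw_dq] at h2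
  rwa [← Equiv.sum_comp (Equiv.neg (Fin 4))]

theorem gen21 (h4 : ∃ c ∈ cyc ℤ univ 2, ev ℤ cH c ≠ 0) (he : Pham (UQ 3) TQ dq e) :
    ∃ S : Fin 21 → G3, ∀ c ∈ cyc ℤ univ 2, ev ℤ cH c = 0 →
      c ∈ Submodule.span ℤ (range fun i => cmap ℤ (dq (S i)) 2 e) ⊔ bdy ℤ univ 2 := by
  obtain ⟨S, hS⟩ := span21
  have hu := bdy_mono (R := ℤ) (subset_univ (UQ 3)) 2
  refine ⟨S, fun c hc h0 => sup_le (he.gen.trans (sup_le (Submodule.span_le.2 ?_)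
    (hu.trans le_sup_right))) le_sup_right (ker_cH h4 hc h0)⟩
  rintro _ ⟨h, rfl⟩
  refine hS (fun h => cmap ℤ (dq h) 2 e ∈ Submodule.span ℤ (range fun i => cmap ℤ (dq (S i)) 2 e)
    ⊔ bdy ℤ univ 2) (fun i => Submodule.mem_sup_left (Submodule.subset_span ⟨i, rfl⟩)) ?_ h
  simp only [List.forall_mem_cons, List.not_mem_nil, false_imp_iff, implies_true, and_true]
  exact ⟨RQGen.four le_sup_right (fun k => (k, 0, 0)) (hu he.rel1) (by decide),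
    RQGen.four le_sup_right (fun k => (0, k, 0)) (hu he.rel2) (by decide),
    RQGen.four le_sup_right (fun k => (0, 0, k)) (hu he.rel3) (by decide),
    RQGen.four le_sup_right (fun k => (k, k, k)) (rel_four h4 he) (by decide)⟩

end HW
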