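import Pool.Agent.P.MP_9699e0_gt.W.PhE
import Pool.Agent.P.MP_9699e0_gt.W.QCo
import Pool.Agent.P.MP_9699e0_gt.W.LfB

/-! The quartic is simply connected and its curve at infinity is connected. -/

set_option autoImplicit false
set_option linter.unusedSectionVars false

noncomputable section

namespace HW

open HK3 Pool.Agent.P.MP_9699e0_gt Set Filter Topology



namespace RQPi

theorem img (i j : Fin 4) (A : Set Fermat) : sw i j '' A = sw i j ⁻¹' A :=
  have h : Function.LeftInverse (sw i j) (sw i j) := congrFun (sw_sw i j)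
  congrFun (image_eq_preimage_of_inverse h h) A

theorem mem_Cn {p : ℂ × ℂ × ℂ} (hp : p ∈ S3) :
    (![p.1, p.2.1, p.2.2, zt * (((s3 p).re ^ (1 / 4 : ℝ) : ℝ) : ℂ)] : C4) ∈ Cn := by
  have h1 : ((s3 p).re ^ (1 / 4 : ℝ)) ^ 4 = (s3 p).re := by
    rw [← Real.rpow_natCast, ← Real.rpow_mul hp.1.le]
    norm_num
  have h2 : (((s3 p).re : ℝ) : ℂ) = s3 p := Complex.ext rfl hp.2.symm
  refine ⟨fun h => mul_ne_zero zt_ne
    (Complex.ofReal_ne_zero.2 (Real.rpow_pos_of_pos hp.1 (1 / 4)).ne') (congrFun h 3), ?_⟩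
  rw [Fin.sum_univ_four]
  change s3 p + (zt * _) ^ 4 = 0
  rw [mul_pow, zt_four, ← Complex.ofReal_pow, h1, h2]
  ring

theorem pre_diff : IsPreconnected (UQ 3 \ UQ 2) := by
  have h0 : ∀ q : ℂ × ℂ, ((q.1, q.2, 0) : ℂ × ℂ × ℂ) ∈ S3 ↔ q ∈ S2 := fun q => by
    simp [S3, S2, s3]
  have e : (fun q : ℂ × ℂ => ps (q.1, q.2, 0)) '' S2 = UQ 3 \ UQ 2 := by
    ext p
    constructor
    · rintro ⟨q, hq, rfl⟩
      exact ⟨ps_maps ((h0 q).2 hq), fun h => (qm_mem_UQ (mem_Cn ((h0 q).2 hq))).1 h rfl⟩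
    · rintro ⟨h1, h2⟩
      have h3 : ka p = ((ka p).1, (ka p).2.1, 0) := by
        simp [ka, nq_eq, not_not.1 (mem_UQ.not.1 h2)]
      exact ⟨((ka p).1, (ka p).2.1), (h0 _).1 (h3 ▸ ka_maps h1), by
        change ps ((ka p).1, (ka p).2.1, 0) = p
        rw [← h3, ps_ka h1]⟩
  rw [← e]
  exact (pc_S2 pc_J2).isConnected.isPreconnected.image _
    (continuousOn_ps.comp (by fun_prop) fun q hq => (h0 q).2 hq)

theorem pre_sw {A : Set Fermat} (h : IsPreconnected A) (i j : Fin 4) :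
    IsPreconnected (sw i j ⁻¹' A) :=
  img i j A ▸ h.image _ (continuous_sw i j).continuousOn

end RQPi

theorem null_three : Null (UQ 3) := by
  have hS := sc_S3 sc_J3
  have e : ps '' S3 = UQ 3 :=
    ps_maps.image_subset.antisymm fun p hp => ⟨ka p, ka_maps hp, ps_ka hp⟩
  refine ⟨isOpen_UQ 3, e ▸ hS.isPathConnected.image' continuousOn_ps, fun y γ hγ => ?_⟩
  obtain ⟨a, ha, rfl⟩ : y ∈ ps '' {a | a ∈ S3 ∧ ka (ps a) = a} :=
    have h := hγ ⟨0, γ.source⟩
    ⟨ka y, ⟨ka_maps h, by rw [ps_ka h]⟩, ps_ka h⟩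
  have : SimplyConnectedSpace S3 := hS
  let δ : Path (⟨a, ha.1⟩ : S3) ⟨a, ha.1⟩ :=
    { toFun := fun t => ⟨ka (γ t), ka_maps (hγ ⟨t, rfl⟩)⟩
      continuous_toFun :=
        (continuousOn_ka.comp_continuous γ.continuous fun t => hγ ⟨t, rfl⟩).subtype_mk _
      source' := Subtype.ext (by simpa using ha.2)
      target' := Subtype.ext (by simpa using ha.2) }
  let F : C(S3, Fermat) := ⟨S3.domRestrict ps, continuousOn_ps.domRestrict⟩
  have h1 := (SimplyConnectedSpace.paths_homotopic δ (Path.refl _)).map F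
  have e1 : δ.map F.continuous = γ := by
    ext t
    exact ps_ka (hγ ⟨t, rfl⟩)
  rw [e1] at h1
  exact h1

theorem null_UQ (j : Fin 4) : Null (UQ j) := by
  obtain ⟨e, he⟩ := exists_sw j 3
  have h := null_three.image e
  rw [he, RQPi.img] at h
  convert h using 1
  ext p
  rw [mem_preimage, sw_mem_UQ, Equiv.swap_apply_right]

theorem sc_Q : SimplyConnectedSpace Fermat := by
  have h : ∀ i j, IsPathConnected (UQ i ∩ UQ j) := fun i j =>
    lf_conn (isOpen_UQ j) (flat_UQ j) (isOpen_UQ i) (null_UQ i).conn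
  have hv : (![1, zt, zt, 1] : C4) ∈ Cn :=
    ⟨fun h => one_ne_zero (congrFun h 0), by simp [Fin.sum_univ_four, zt_four]⟩
  have h1 := ((null_UQ 3).union (null_UQ 0) (h 3 0)).union (null_UQ 1) (by
    rw [union_inter_distrib_right]
    exact (h 3 1).union (h 0 1) ⟨qm ![1, zt, zt, 1],
      ⟨(qm_mem_UQ hv).2 one_ne_zero, (qm_mem_UQ hv).2 zt_ne⟩,
      (qm_mem_UQ hv).2 one_ne_zero, (qm_mem_UQ hv).2 zt_ne⟩)
  have e : UQ 3 ∪ UQ 0 ∪ UQ 1 = univ := eq_univ_of_forall fun p => by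
    obtain ⟨i, j, hij, hi, hj⟩ := exists_two (rq_mem p)
    simp only [mem_union, mem_UQ]
    fin_cases i <;> fin_cases j <;> tauto
  exact Null.simplyConnected (e ▸ h1)

theorem pre_compl : IsPreconnected (UQ 3)ᶜ := by
  have h2 : IsPreconnected (UQ 2 \ UQ 3) := by
    convert RQPi.pre_sw RQPi.pre_diff 2 3 using 1
    ext p
    simp only [mem_preimage, Set.mem_sdiff, sw_mem_UQ, Equiv.swap_apply_left,
      Equiv.swap_apply_right]
  have h0 : IsPreconnected (UQ 0 \ UQ 3) := by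
    convert RQPi.pre_sw h2 0 2 using 1
    ext p
    simp only [mem_preimage, Set.mem_sdiff, sw_mem_UQ, Equiv.swap_apply_right]
    rfl
  have hv : (![zt, 0, 1, 0] : C4) ∈ Cn :=
    ⟨fun h => one_ne_zero (congrFun h 2), by simp [Fin.sum_univ_four, zt_four]⟩
  have h3 : qm ![zt, 0, 1, 0] ∉ UQ 3 := fun h => (qm_mem_UQ hv).1 h rfl
  have h4 := IsPreconnected.union' (s := UQ 0 \ UQ 3) (t := UQ 2 \ UQ 3) ⟨qm ![zt, 0, 1, 0],
    ⟨(qm_mem_UQ hv).2 zt_ne, h3⟩, (qm_mem_UQ hv).2 one_ne_zero, h3⟩ h0 h2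
  convert h4 using 1
  ext p
  obtain ⟨i, j, hij, hi, hj⟩ := exists_two (rq_mem p)
  simp only [mem_union, mem_compl_iff, Set.mem_sdiff, mem_UQ]
  fin_cases i <;> fin_cases j <;> tauto

end HW
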