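import Pool.Agent.P.MP_9699e0_gt.W.Hat

/-! The retraction of coordinate space onto the simplex; homotopy addition for simplices. -/

set_option autoImplicit false
set_option linter.unusedSectionVars false

noncomputable section

namespace HW

open HK3 Pool.Agent.P.MP_9699e0_gt Set Filter Topology

variable {Z : Type} [TopologicalSpace Z] {A : Set Z} {n : ℕ}

namespace RQsx

/-- The coordinates, with `1` in front and `0` behind. -/
def xe (x : Eu n) : ℕ → ℝ
  | 0 => 1
  | i + 1 => if h : i < n then x ⟨i, h⟩ else 0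

/-- Differences of consecutive coordinates. -/
def gap (x : Eu n) (i : ℕ) : ℝ := xe x i - xe x (i + 1)

/-- Points outside the open simplex. -/
def Out (x : Eu n) : Prop := ∃ i : Fin (n + 1), gap x i ≤ 0

/-- Tail sums. -/
def tl (t : Dl n) (k : ℕ) : ℝ := ∑ j : Fin (n + 1), if k ≤ j then t j else 0

/-- The simplex in coordinate space. -/
def io (t : Dl n) : Eu n := fun i => tl t (i + 1)

/-- The centre. -/
def ctr (n : ℕ) : Eu n := io stdSimplex.barycenter

theorem qq_apply (x : Eu n) (i : Fin (n + 1)) : qq n x i = qu x i - qu x (i + 1) := rfl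

theorem qu_succ (x : Eu n) (i : ℕ) : qu x (i + 1) = min (qu x i) (max (xe x (i + 1)) 0) := by
  rw [qu, xe]
  split_ifs
  · rfl
  · rw [max_self, min_eq_right (qu_nonneg x i)]

theorem qu_le (x : Eu n) : ∀ i, qu x i ≤ max (xe x i) 0
  | 0 => le_max_left _ _
  | i + 1 => (qu_succ x i).trans_le (min_le_right _ _)

theorem qu_anti (x : Eu n) : Antitone (qu x) := antitone_nat_of_succ_le (qu_succ_le x)

theorem qq_zero {x : Eu n} {i : Fin (n + 1)} (h : gap x i ≤ 0) : qq n x i = 0 := by
  rw [qq_apply, qu_succ, min_eq_left ((qu_le x i).trans (max_le_max_right _ (sub_nonpos.1 h))),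
    sub_self]

theorem Out.zero {x : Eu n} (h : Out x) : ∃ i, qq n x i = 0 := h.imp fun _ => qq_zero

theorem out_of_norm {x : Eu n} (h : 1 ≤ ‖x‖) : Out x := by
  by_contra hc
  have h1 : ∀ k < n + 1, xe x (k + 1) < xe x k := fun k hk =>
    sub_pos.1 (not_le.1 fun h' => hc ⟨⟨k, hk⟩, h'⟩)
  have h2 := (strictAntiOn_Iic_of_succ_lt (n := n + 1) h1 : StrictAntiOn (xe x) (Iic (n + 1)))
  refine not_lt.2 h ((pi_norm_lt_iff one_pos).2 fun i => ?_)
  have e : xe x (i + 1) = x i := dif_pos i.2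
  have e' : xe x (n + 1) = 0 := dif_neg (lt_irrefl n)
  have hi : (i : ℕ) + 1 ∈ Iic (n + 1) := Nat.succ_le_succ i.2.le
  have h3 := h2 (Nat.zero_le _) hi i.1.succ_pos
  have h4 := h2 hi (mem_Iic.2 le_rfl) (Nat.succ_lt_succ i.2)
  rw [e] at h3 h4
  rw [e'] at h4
  rw [Real.norm_of_nonneg h4.le]
  exact h3

theorem tl_nonneg (t : Dl n) (k : ℕ) : 0 ≤ tl t k :=
  Finset.sum_nonneg fun j _ => by
    split_ifs
    exacts [stdSimplex.zero_le t j, le_rfl]

theorem tl_succ_le (t : Dl n) (k : ℕ) : tl t (k + 1) ≤ tl t k :=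
  Finset.sum_le_sum fun j _ => by
    split_ifs with h1 h2
    exacts [le_rfl, absurd (Nat.le_of_succ_le h1) h2, stdSimplex.zero_le t j, le_rfl]

theorem tl_sub (t : Dl n) (k : Fin (n + 1)) : tl t k - tl t (k + 1) = t k := by
  rw [tl, tl, ← Finset.sum_sub_distrib, Finset.sum_eq_single k]
  · simp
  · intro j _ hj
    have : (j : ℕ) ≠ k := fun h => hj (Fin.ext h)
    rw [if_congr (show (k : ℕ) + 1 ≤ j ↔ (k : ℕ) ≤ j by omega) rfl rfl, sub_self]
  · simp

theorem xe_io (t : Dl n) : ∀ k, xe (io t) k = tl t k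
  | 0 => by simp [xe, tl]
  | k + 1 => by
    rw [xe]
    split_ifs with h
    · rfl
    · exact (Finset.sum_eq_zero fun j _ => if_neg (by omega)).symm

theorem gap_io (t : Dl n) (k : Fin (n + 1)) : gap (io t) k = t k := by
  rw [gap, xe_io, xe_io, tl_sub]

theorem qu_io (t : Dl n) : ∀ k, qu (io t) k = tl t k
  | 0 => xe_io t 0
  | k + 1 => by
    rw [qu_succ, qu_io t k, xe_io, max_eq_left (tl_nonneg t _), min_eq_right (tl_succ_le t k)]

theorem qq_io (t : Dl n) : qq n (io t) = t :=
  stdSimplex.ext (funext fun k => by rw [qq_apply, qu_io, qu_io, tl_sub])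

theorem continuous_coord (j : Fin (n + 1)) : Continuous fun t : Dl n => t j :=
  (continuous_apply j).comp continuous_subtype_val

theorem continuous_io : Continuous (io : Dl n → Eu n) :=
  continuous_pi fun i => show Continuous fun t : Dl n => ∑ j : Fin (n + 1),
      if (i : ℕ) + 1 ≤ j then t j else 0 from continuous_finsetSum _ fun j _ =>
    Continuous.if_const _ (continuous_coord j) continuous_const

theorem continuous_xe : ∀ k, Continuous fun x : Eu n => xe x k
  | 0 => continuous_const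
  | k + 1 => by
    simp only [xe]
    split_ifs
    exacts [continuous_apply _, continuous_const]

theorem continuous_qu : ∀ k, Continuous fun x : Eu n => qu x k
  | 0 => continuous_const
  | k + 1 => by
    simp only [qu_succ]
    exact (continuous_qu k).min ((continuous_xe _).max continuous_const)

theorem gap_line (x y : Eu n) (c : ℝ) (k : ℕ) :
    gap (x + c • (y - x)) k = gap x k + c * (gap y k - gap x k) := by
  have h : ∀ k, xe (x + c • (y - x)) k = xe x k + c * (xe y k - xe x k) := fun k => by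
    cases k with
    | zero => simp [xe]
    | succ k =>
      simp only [xe]
      split_ifs <;> simp
  simp only [gap, h]
  ring

theorem gap_ctr (k : Fin (n + 1)) : gap (ctr n) k = ((n : ℝ) + 1)⁻¹ := by
  rw [ctr, gap_io]
  exact (stdSimplex.barycenter_apply k).trans (by simp)

theorem out_seg {x : Eu n} (h : Out x) {s : ℝ} (hs : s ≤ 1) : Out (x + s • (io (qq n x) - x)) :=
  h.imp fun i hi => by
    rw [gap_line, gap_io, qq_zero hi]
    nlinarith

theorem exists_far (n : ℕ) (R : ℝ) : ∃ M : ℝ, 1 ≤ M ∧ ∀ y : Eu n, Out y → ∀ c, M ≤ c →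
    R ≤ ‖ctr n + c • (y - ctr n)‖ := by
  have ho : IsOpen {y : Eu n | ∀ i : Fin (n + 1), 0 < gap y i} := by
    rw [ofPred_forall]
    exact isOpen_iInter_of_finite fun i =>
      isOpen_lt continuous_const ((continuous_xe _).sub (continuous_xe _))
  obtain ⟨δ, hδ, h⟩ := Metric.isOpen_iff.1 ho (ctr n) fun i => by rw [gap_ctr]; positivity
  refine ⟨max 1 ((R + ‖ctr n‖) / δ), le_max_left _ _, fun y ⟨i, hi⟩ c hc => ?_⟩
  have h1 : δ ≤ ‖y - ctr n‖ := not_lt.1 fun h' => not_lt.2 hi (h (mem_ball_iff_norm.2 h') i)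
  have h2 := (div_le_iff₀ hδ).1 ((le_max_right _ _).trans hc)
  have h3 : 0 ≤ c := zero_le_one.trans ((le_max_left _ _).trans hc)
  have h4 := norm_sub_le (ctr n + c • (y - ctr n)) (ctr n)
  rw [add_sub_cancel_left, norm_smul, Real.norm_of_nonneg h3] at h4
  linarith [mul_le_mul_of_nonneg_left h1 h3]

theorem eq_map {t : Dl (n + 1)} {s : Dl n} {p : Fin (n + 2)} (h0 : t p = 0)
    (h : ∀ k, t (p.succAbove k) = s k) : t = stdSimplex.map p.succAbove s := by
  refine stdSimplex.ext (funext fun j => ?_)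
  rw [stdSimplex.map_coe, FunOnFinite.linearMap_apply_apply]
  rcases Fin.eq_self_or_eq_succAbove p j with rfl | ⟨k, rfl⟩
  · simp [h0]
  · simp [h, Finset.filter_eq']

theorem zero_of_ge {x : Eu n} {i : Fin n} (h : 1 ≤ x i) : qq n x i.castSucc = 0 := by
  have e : xe x (i + 1) = x i := dif_pos i.2
  rw [qq_apply, Fin.val_castSucc, qu_succ, e,
    min_eq_left (((qu_anti x (Nat.zero_le _)).trans h).trans (le_max_left _ _)), sub_self]

theorem zero_of_le {x : Eu n} {i : Fin n} (h : x i ≤ 0) {k : Fin (n + 1)} (hk : (i : ℕ) < k) :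
    qq n x k = 0 := by
  have e : xe x (i + 1) = x i := dif_pos i.2
  have h1 := (qu_anti x hk).trans (qu_le x (i + 1))
  rw [e, max_eq_right h] at h1
  exact le_antisymm ((sub_le_self _ (qu_nonneg x _)).trans h1) (stdSimplex.zero_le _ k)

theorem qu_below (i : Fin (n + 1)) (c : ℝ) (y : Eu n) :
    ∀ k ≤ (i : ℕ), qu (i.insertNth c y : Eu (n + 1)) k = qu y k
  | 0, _ => rfl
  | k + 1, hk => by
    have h1 : k < n := by omega
    have e : (⟨k, by omega⟩ : Fin (n + 1)) = i.succAbove ⟨k, h1⟩ :=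
      (Fin.succAbove_of_castSucc_lt i ⟨k, h1⟩ hk).symm
    rw [qu, qu, dif_pos (by omega), dif_pos h1, qu_below i c y k (by omega), e,
      Fin.insertNth_apply_succAbove]

theorem qu_above (i : Fin (n + 1)) (y : Eu n) (k : ℕ) (hk : (i : ℕ) ≤ k) :
    qu (i.insertNth 1 y : Eu (n + 1)) (k + 1) = qu y k := by
  induction k, hk using Nat.le_induction with
  | base =>
    rw [← qu_below i 1 y i le_rfl]
    exact (sub_eq_zero.1 (zero_of_ge (x := i.insertNth 1 y) (i := i) (by simp))).symm
  | succ k hk ih =>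
    rw [qu, qu.eq_2 y]
    by_cases h1 : k < n
    · have e : (⟨k + 1, by omega⟩ : Fin (n + 1)) = i.succAbove ⟨k, h1⟩ :=
        (Fin.succAbove_of_le_castSucc i ⟨k, h1⟩ hk).symm
      rw [dif_pos (by omega), dif_pos h1, ih, e, Fin.insertNth_apply_succAbove]
    · rw [dif_neg (by omega), dif_neg h1]

theorem face_one (i : Fin (n + 1)) (y : Eu n) :
    qq (n + 1) (i.insertNth 1 y) = stdSimplex.map i.castSucc.succAbove (qq n y) := by
  refine eq_map (zero_of_ge (by simp)) fun k => ?_
  rcases lt_or_ge k i with h | h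
  · have h' : (k : ℕ) < i := h
    rw [Fin.succAbove_of_castSucc_lt _ _ (by exact h), qq_apply, qq_apply, Fin.val_castSucc,
      qu_below i 1 y k h'.le, qu_below i 1 y (k + 1) h']
  · have h' : (i : ℕ) ≤ k := h
    rw [Fin.succAbove_of_le_castSucc _ _ (by exact h), qq_apply, qq_apply, Fin.val_succ,
      qu_above i y k h', qu_above i y (k + 1) (by omega)]

theorem face_last (y : Eu n) : qq (n + 1) ((Fin.last n).insertNth 0 y) =
    stdSimplex.map (Fin.last (n + 1)).succAbove (qq n y) := by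
  refine eq_map (zero_of_le (i := Fin.last n) (by simp) (by simp)) fun k => ?_
  rw [Fin.succAbove_last, qq_apply, qq_apply, Fin.val_castSucc,
    qu_below (Fin.last n) 0 y k (Nat.le_of_lt_succ k.2)]
  rcases (Nat.le_of_lt_succ k.2).eq_or_lt with h | h
  · have h1 := qu_le ((Fin.last n).insertNth 0 y : Eu (n + 1)) (n + 1)
    have e : xe ((Fin.last n).insertNth 0 y : Eu (n + 1)) (n + 1) = 0 :=
      (dif_pos n.lt_succ_self).trans
        (Fin.insertNth_apply_same (α := fun _ => ℝ) (Fin.last n) 0 y)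
    rw [e, max_self] at h1
    rw [h, le_antisymm h1 (qu_nonneg _ _), qu.eq_2 y, dif_neg (lt_irrefl n)]
  · rw [qu_below (Fin.last n) 0 y (k + 1) h]

end RQsx

open RQsx

theorem continuous_qq (n : ℕ) : Continuous (qq n) :=
  Continuous.subtype_mk (continuous_pi fun _ => (continuous_qu _).sub (continuous_qu _)) _

theorem rel_qq {σ : Simp Z n} (h : Bdy A σ) : Rel A (σ ∘ qq n) :=
  ⟨σ.continuous.comp (continuous_qq n), 1, fun _ hx => h _ (out_of_norm hx).zero⟩

theorem IsVal.hat_simp {G : Type} [AddCommGroup G] {v : (Eu n → Z) → G} (hv : IsVal A v)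
    {τ : Simp Z (n + 1)} (h : Sk2 A τ) :
    ∑ i : Fin (n + 2), (-1 : ℤ) ^ (i : ℕ) • v (sub τ i.succAbove ∘ qq n) = 0 := by
  have hF : Continuous (τ ∘ qq (n + 1)) := τ.continuous.comp (continuous_qq _)
  have key : ∀ (x : Eu (n + 1)) (i j : Fin (n + 1)), i < j → x i ∉ Ioo (0 : ℝ) 1 →
      x j ∉ Ioo (0 : ℝ) 1 → τ (qq (n + 1) x) ∈ A := fun x i j hij hi hj => by
    have hij' : (i : ℕ) < j := hij
    rw [mem_Ioo, not_and_or, not_lt, not_lt] at hi hj
    refine h _ ?_
    rcases hi with hi | hi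
    · exact ⟨j.castSucc, j.succ, j.castSucc_lt_succ.ne, zero_of_le hi hij',
        zero_of_le hi (Nat.lt_succ_of_lt hij')⟩
    rcases hj with hj | hj
    · exact ⟨i.castSucc, j.succ, (Fin.castSucc_lt_succ_iff.2 hij.le).ne, zero_of_ge hi,
        zero_of_le hj (Nat.lt_succ_self _)⟩
    · exact ⟨i.castSucc, j.castSucc, (Fin.castSucc_lt_castSucc_iff.2 hij).ne, zero_of_ge hi,
        zero_of_ge hj⟩
  have h1 := hv.hat hF fun x i j hij hi hj =>
    (lt_or_gt_of_ne hij).elim (fun h => key x i j h hi hj) fun h => key x j i h hj hi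
  have h2 : ∀ i : Fin n, v (fun y => (τ ∘ qq (n + 1)) (i.castSucc.insertNth 0 y)) = 0 :=
    fun i => hv.inA (hF.comp (continuous_const.finInsertNth _ continuous_id)) fun y =>
      h _ ⟨i.succ.castSucc, i.succ.succ, i.succ.castSucc_lt_succ.ne,
        zero_of_le (i := i.castSucc) (by simp) (by simp),
        zero_of_le (i := i.castSucc) (by simp) (by simp)⟩
  have h3 : ∀ i : Fin (n + 1), (fun y => (τ ∘ qq (n + 1)) (i.insertNth 1 y)) =
      sub τ i.castSucc.succAbove ∘ qq n := fun i => funext fun y => congrArg τ (face_one i y)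
  have h4 : (fun y => (τ ∘ qq (n + 1)) ((Fin.last n).insertNth 0 y)) =
      sub τ (Fin.last (n + 1)).succAbove ∘ qq n := funext fun y => congrArg τ (face_last y)
  simp only [smul_sub, Finset.sum_sub_distrib, h3] at h1
  rw [Fin.sum_univ_castSucc (f := fun i => _ • v fun y => (τ ∘ qq (n + 1)) (i.insertNth 0 y))] at h1
  simp only [h2, smul_zero, Finset.sum_const_zero, zero_add, h4] at h1
  rw [Fin.sum_univ_castSucc, ← h1, sub_eq_add_neg, ← neg_smul]
  simp only [Fin.val_castSucc, Fin.val_last, pow_succ, mul_neg, mul_one]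

theorem Con.cmp (h : Con A n) : Cmp A n := by
  intro σ hσ
  obtain ⟨g, hg, H, hH, h0, h1, R, hR⟩ := h _ (rel_qq hσ)
  obtain ⟨M, hM, hfar⟩ := exists_far n R
  set d : Dl n → ℝ := fun t => ((n : ℝ) + 1) * Finset.univ.inf' Finset.univ_nonempty fun i => t i
    with hd
  have dc : Continuous d := continuous_const.mul
    (Continuous.finset_inf'_apply _ fun i _ => continuous_coord i)
  have d0 : ∀ t, 0 ≤ d t := fun t =>
    mul_nonneg (by positivity) (Finset.le_inf' _ _ fun i _ => stdSimplex.zero_le t i)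
  have d1 : ∀ t : Dl n, (∃ i, t i = 0) → d t = 0 := fun t ⟨i, hi⟩ =>
    le_antisymm (mul_nonpos_of_nonneg_of_nonpos (by positivity)
      ((Finset.inf'_le _ (Finset.mem_univ i)).trans_eq hi)) (d0 t)
  have d2 : ∀ (t : Dl n) (c : ℝ), 1 ≤ c * (1 - d t) → Out (ctr n + c • (io t - ctr n)) :=
    fun t c hc => by
      obtain ⟨i, -, hi⟩ := Finset.exists_mem_eq_inf' (Finset.univ_nonempty) fun i => t i
      refine ⟨i, ?_⟩
      have e : t i = ((n : ℝ) + 1)⁻¹ * d t := by
        simp only [hd, hi]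
        rw [inv_mul_cancel_left₀ (by positivity)]
      rw [gap_line, gap_ctr, gap_io, e]
      nlinarith [mul_le_mul_of_nonneg_left hc (show 0 ≤ ((n : ℝ) + 1)⁻¹ by positivity)]
  have e0 : ∀ t, H 0 (ctr n + (1 : ℝ) • (io t - ctr n)) = σ t := fun t => by
    rw [h0, one_smul, add_sub_cancel, Function.comp_apply, qq_io]
  refine ⟨fun s t => H (s * max 0 (min 1 (4 * d t - 1)))
    (ctr n + (1 + s * (8 * M * min (d t) (1 / 4))) • (io t - ctr n)), ?_, fun t => ?_,
    fun s t ht => ?_, fun t => ?_⟩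
  · have := continuous_io (n := n)
    exact hH.comp (f := fun p : ℝ × Dl n => (p.1 * max 0 (min 1 (4 * d p.2 - 1)),
      ctr n + (1 + p.1 * (8 * M * min (d p.2) (1 / 4))) • (io p.2 - ctr n))) (by fun_prop)
  · simpa only [zero_mul, add_zero] using e0 t
  · rw [← e0 t]
    simp only [d1 t ht]
    norm_num
  · simp only [one_mul]
    rcases le_total (d t) (1 / 4) with k1 | k1
    · rw [max_eq_left ((min_le_right _ _).trans (by linarith)), h0, min_eq_left k1]
      refine hσ _ (d2 t _ ?_).zero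
      nlinarith [mul_nonneg (d0 t) (show 0 ≤ 8 * M * (1 - d t) - 1 by nlinarith)]
    rcases le_total (d t) (1 / 2) with k2 | k2
    · refine hR _ ⟨le_max_left _ _, max_le zero_le_one (min_le_left _ _)⟩ _ ?_
      have := hfar _ (d2 t 2 (by linarith)) ((1 + 8 * M * (1 / 4)) / 2) (by linarith)
      rwa [add_sub_cancel_left, smul_smul, div_mul_cancel₀ _ two_ne_zero, ← min_eq_right k1]
        at this
    · rw [min_eq_left (show 1 ≤ 4 * d t - 1 by linarith), max_eq_right zero_le_one, h1]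
      exact hg _

theorem exists_theta (n : ℕ) (R : ℝ) : ∃ θ : Simp (Eu n) n,
    (∀ t : Dl n, (∃ i, t i = 0) → R ≤ ‖θ t‖) ∧ ∀ (Z : Type) [TopologicalSpace Z] (A : Set Z)
      (f : Eu n → Z), Continuous f → (∀ x, R ≤ ‖x‖ → f x ∈ A) → Hty A f (f ∘ θ ∘ qq n) := by
  obtain ⟨M, hM, hfar⟩ := exists_far n R
  have c1 := continuous_io (n := n)
  have c2 := continuous_qq n
  refine ⟨⟨fun t => ctr n + M • (io t - ctr n), by fun_prop⟩,
    fun t ⟨i, hi⟩ => hfar _ ⟨i, ((gap_io t i).trans hi).le⟩ M le_rfl, fun Z _ A f hf h => ?_⟩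
  have h1 := Hty.of_maps (A := A) hf (fun s x => ctr n + (1 + s * (M - 1)) • (x - ctr n))
    (by fun_prop) ⟨R + 2 * ‖ctr n‖, fun s hs x hx => h _ (by
      have k1 : 0 ≤ s * (M - 1) := mul_nonneg hs.1 (by linarith)
      have k2 := norm_sub_le (ctr n + (1 + s * (M - 1)) • (x - ctr n)) (ctr n)
      rw [add_sub_cancel_left, norm_smul, Real.norm_of_nonneg (by linarith)] at k2
      nlinarith [norm_sub_norm_le x (ctr n), mul_nonneg k1 (norm_nonneg (x - ctr n))])⟩
  have h2 := Hty.of_maps (A := A) hf (fun s x => ctr n + M • (x + s • (io (qq n x) - x) - ctr n))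
    (by fun_prop) ⟨1, fun s hs x hx => h _ (hfar _ (out_seg (out_of_norm hx) hs.2) M le_rfl)⟩
  simp only [zero_mul, add_zero, one_smul, add_sub_cancel, one_mul, zero_smul] at h1 h2
  exact h1.trans h2

end HW
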