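import Pool.Agent.P.MP_9699e0_gt.W.BDefs
import Pool.Agent.P.MP_9699e0_gt.W.Gen
import Pool.Agent.P.MP_9699e0_gt.Mt2

/-! Homology of a product with a punctured vector space. -/

set_option autoImplicit false
set_option linter.unusedSectionVars false

noncomputable section

namespace HW

open HK3 Pool.Agent.P.MP_9699e0_gt Set Filter Topology

variable {B : Type} [TopologicalSpace B] {ι : Type} {y : ι → Simp B 2 → ℤ} {n : ℕ}

namespace RSig

section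

variable {V W : Type} [NormedAddCommGroup V] [NormedSpace ℝ V] [NormedAddCommGroup W]
  [NormedSpace ℝ W]

theorem fst_bdy {S : Set (B × V)} {k : ℕ} {c : Chn ℤ (B × V) k} (h : c ∈ bdy ℤ S k) :
    cmap ℤ Prod.fst k c ∈ bdy ℤ (univ : Set B) k :=
  cmap_bdy continuousOn_fst (mapsTo_univ _ _) h

theorem fst_cyc {S : Set (B × V)} {k : ℕ} {c : Chn ℤ (B × V) k} (h : c ∈ cyc ℤ S k) :
    cmap ℤ Prod.fst k c ∈ cyc ℤ (univ : Set B) k :=
  cmap_cyc continuousOn_fst (mapsTo_univ _ _) h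

theorem sec_bdy {S : Set (B × V)} {p : V} (hp : ∀ b, (b, p) ∈ S) {k : ℕ} {c : Chn ℤ B k}
    (h : c ∈ bdy ℤ univ k) : cmap ℤ (fun b => (b, p)) k c ∈ bdy ℤ S k :=
  cmap_bdy (by fun_prop) (fun b _ => hp b) h

/-- Contraction to a section along straight lines. -/
theorem contr {S T : Set (B × V)} (p : V)
    (h : ∀ s ∈ Icc (0 : ℝ) 1, ∀ x ∈ S, (x.1, (1 - s) • x.2 + s • p) ∈ T) {k : ℕ}
    {z : Chn ℤ (B × V) k} (hz : z ∈ cyc ℤ S k) :
    z - cmap ℤ (fun b => (b, p)) k (cmap ℤ Prod.fst k z) ∈ bdy ℤ T k := by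
  have h1 := htpy_cyc (R := ℤ) (fun (s : ℝ) (x : B × V) => (x.1, (1 - s) • x.2 + s • p))
    (S := S) (S' := T) (by fun_prop) h hz
  have e0 : (fun x : B × V => (x.1, (1 - (0 : ℝ)) • x.2 + (0 : ℝ) • p)) = id := by
    funext x
    simp
  have e1 : (fun x : B × V => (x.1, (1 - (1 : ℝ)) • x.2 + (1 : ℝ) • p))
      = (fun b => (b, p)) ∘ Prod.fst := by
    funext x
    simp
  rw [e0, e1, cmap_id] at h1
  rw [cmap_comp (S := S) continuousOn_fst (cyc_le _ _ hz)]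
  simpa using neg_mem h1

/-- The statement for a given space and degree. -/
def St (B V : Type) [TopologicalSpace B] [NormedAddCommGroup V] (j : ℕ) (fl : Prop) : Prop :=
  ∀ c ∈ cyc ℤ (Pz B V) j, cmap ℤ Prod.fst j c ∈ bdy ℤ univ j →
    (fl ∨ cmap ℤ Prod.snd j c ∈ bdy ℤ {0}ᶜ j) → c ∈ bdy ℤ (Pz B V) j

theorem St.trans (e : V ≃L[ℝ] W) {j : ℕ} {fl : Prop} (h : St B W j fl) : St B V j fl := by
  intro c hc h1 h2
  have hc' := cyc_le _ _ hc
  have hΦ : ContinuousOn (Prod.map id e : B × V → B × W) (Pz B V) := by fun_prop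
  have k := h (cmap ℤ (Prod.map id e) j c)
    (cmap_cyc hΦ (fun x hx => by simpa [Pz] using hx) hc)
    (by rw [cmap_comp hΦ hc']; exact h1)
    (h2.imp id fun h2 => by
      have k1 := cmap_bdy (f := e) (T := ({0}ᶜ : Set W)) (by fun_prop)
        (fun x hx => by simpa using hx) h2
      rw [cmap_comp (S := Pz B V) continuousOn_snd hc'] at k1
      rw [cmap_comp hΦ hc']
      exact k1)
  have k2 := cmap_bdy (f := (Prod.map id e.symm : B × W → B × V)) (T := Pz B V) (by fun_prop)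
    (fun x hx => by simpa [Pz] using hx) k
  rw [cmap_comp hΦ hc'] at k2
  have e1 : (Prod.map id e.symm : B × W → B × V) ∘ Prod.map id e = id := by
    funext x
    simp [Prod.map]
  rwa [e1, cmap_id] at k2

theorem aug_of_bdy {Y : Type} [TopologicalSpace Y] {S : Set Y} {c : Chn ℤ Y 0}
    (h : c ∈ bdy ℤ S 0) : aug ℤ c = 0 := by
  obtain ⟨w, -, rfl⟩ := h
  exact aug_bd w

theorem st_zero [PathConnectedSpace B] [FiniteDimensional ℝ V] :
    St B V 0 (0 + 1 < Module.finrank ℝ V) := by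
  intro c hc h1 h2
  obtain ⟨b0⟩ : Nonempty B := inferInstance
  have hc' : c ∈ chn ℤ (Pz B V) 0 := hc
  have h3 : cmap ℤ Prod.snd 0 c ∈ bdy ℤ ({0}ᶜ : Set V) 0 := by
    refine h2.elim (fun h2 => ?_) id
    refine mem_bdy_zero (isPathConnected_compl_singleton_of_one_lt_rank ?_ 0)
      (cmap_mem continuousOn_snd (fun x hx => hx) hc') ?_
    · rw [← Module.finrank_eq_rank]
      exact_mod_cast h2
    · rw [aug_cmap, ← aug_cmap Prod.fst, aug_of_bdy h1]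
  have h4 := cmap_bdy (f := fun v : V => (b0, v)) (T := Pz B V) (by fun_prop)
    (fun x hx => hx) h3
  rw [cmap_comp (S := Pz B V) continuousOn_snd hc'] at h4
  have h5 := ChB_mem (S := Pz B V) (N := bdy ℤ (Pz B V) 0)
    (LinearMap.id - cmap ℤ ((fun v : V => (b0, v)) ∘ Prod.snd) 0) (fun σ hσ => by
      have hv : (vtx σ 0).2 ≠ 0 := hσ ⟨_, rfl⟩
      have hs : range σ ⊆ univ ×ˢ {(vtx σ 0).2} := by
        rintro _ ⟨t, rfl⟩
        exact ⟨mem_univ _, congrArg Prod.snd (DFunLike.congr_fun (Hur_zero σ) t)⟩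
      refine bdy_mono (S := univ ×ˢ {(vtx σ 0).2}) (fun x hx => ?_) 0 ?_
      · have : x.2 = (vtx σ 0).2 := hx.2
        show x.2 ≠ 0
        rwa [this]
      · refine mem_bdy_zero (isPathConnected_univ.prod (isPathConnected_singleton _)) ?_ ?_
        · refine sub_mem (single_mem hs 1) (cmap_mem (by fun_prop) ?_ (single_mem hs 1))
          exact fun x hx => ⟨mem_univ _, hx.2⟩
        · rw [LinearMap.sub_apply, map_sub, aug_cmap, LinearMap.id_apply, sub_self]) hc'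
  rw [LinearMap.sub_apply, LinearMap.id_apply] at h5
  simpa using add_mem h5 h4

theorem st_succ [Nontrivial V] {j : ℕ} {fl : Prop} (ih : St B V j fl) :
    St B (V × ℝ) (j + 1) fl := by
  intro c hc h1 h2
  have oU : IsOpen {v : V × ℝ | v.1 ≠ 0 ∨ 0 < v.2} :=
    (isOpen_ne_fun continuous_fst continuous_const).union
      (isOpen_lt continuous_const continuous_snd)
  have oD : IsOpen {v : V × ℝ | v.1 ≠ 0 ∨ v.2 < 0} :=
    (isOpen_ne_fun continuous_fst continuous_const).union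
      (isOpen_lt continuous_snd continuous_const)
  have cov : ({0}ᶜ : Set (V × ℝ)) ⊆ {v | v.1 ≠ 0 ∨ 0 < v.2} ∪ {v | v.1 ≠ 0 ∨ v.2 < 0} := by
    intro v hv
    by_cases h : v.1 = 0
    · rcases lt_trichotomy v.2 0 with h' | h' | h'
      · exact Or.inr (Or.inr h')
      · exact absurd (Prod.ext h h') hv
      · exact Or.inl (Or.inr h')
    · exact Or.inl (Or.inl h)
  have int : ∀ v : V × ℝ, v.1 ≠ 0 ∨ 0 < v.2 → v.1 ≠ 0 ∨ v.2 < 0 → v.1 ≠ 0 := fun v h h' =>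
    h.elim id fun h => h'.elim id fun h' => absurd h (not_lt.2 h'.le)
  obtain ⟨a, ha, b, hb, hab⟩ := mv_split (O := Pz B (V × ℝ)) (oU.preimage continuous_snd)
    (oD.preimage continuous_snd) (fun x hx => cov hx) hc
  have eb : bd ℤ _ j b = -bd ℤ _ j a := by
    have k1 : bd ℤ _ j (c - a - b) = 0 := (bdy_le _ (j + 1) hab).2
    have k2 : bd ℤ _ j c = 0 := hc.2
    rw [map_sub, map_sub, k2, zero_sub, sub_eq_zero] at k1
    exact k1.symm
  have hd : bd ℤ _ j a ∈ cyc ℤ {x : B × V × ℝ | x.2.1 ≠ 0} j := by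
    refine mem_cyc (bdy_le _ j ⟨a, ha, rfl⟩) (chn_mono (fun x hx => int x.2 hx.1.2 hx.2.2) j
      (S := (Pz B (V × ℝ) ∩ Prod.snd ⁻¹' {v | v.1 ≠ 0 ∨ 0 < v.2}) ∩
        (Pz B (V × ℝ) ∩ Prod.snd ⁻¹' {v | v.1 ≠ 0 ∨ v.2 < 0})) ?_)
    rw [chn_inter]
    exact ⟨bd_mem ha, by simpa [eb] using neg_mem (bd_mem hb)⟩
  have hd' := cyc_le _ _ hd
  have cr : ContinuousOn (fun x : B × V × ℝ => (x.1, x.2.1)) {x | x.2.1 ≠ 0} := by fun_prop
  have k3 := ih (cmap ℤ (fun x : B × V × ℝ => (x.1, x.2.1)) j (bd ℤ _ j a))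
    (cmap_cyc cr (fun x hx => hx) hd)
    (by
      rw [cmap_comp cr hd']
      exact fst_bdy ⟨a, ha, rfl⟩)
    (h2.imp id fun h2 => by
      have ha' := cmap_mem (R := ℤ) (f := Prod.snd) (T := {v : V × ℝ | v.1 ≠ 0 ∨ 0 < v.2})
        continuousOn_snd (fun x hx => hx.2) ha
      have hb' := cmap_mem (R := ℤ) (f := Prod.snd) (T := {v : V × ℝ | v.1 ≠ 0 ∨ v.2 < 0})
        continuousOn_snd (fun x hx => hx.2) hb
      have k4 := cmap_bdy (R := ℤ) (f := Prod.snd) (T := ({0}ᶜ : Set (V × ℝ)))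
        continuousOn_snd (fun x hx => hx) hab
      have k5 : cmap ℤ Prod.snd (j + 1) a + cmap ℤ Prod.snd (j + 1) b ∈
          bdy ℤ ({0}ᶜ : Set (V × ℝ)) (j + 1) := by
        have := sub_mem h2 k4
        rw [map_sub, map_sub] at this
        convert this using 1
        abel
      obtain ⟨p, hp, q, hq, hpq⟩ := Submodule.mem_sup.1
        (mv_bdy oU oD cov (Submodule.add_mem_sup ha' hb') k5)
      have k6 : cmap ℤ Prod.snd (j + 1) a - p ∈ chn ℤ {v : V × ℝ | v.1 ≠ 0} (j + 1) := by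
        refine chn_mono (fun v hv => int v hv.1 hv.2) _
          (S := {v : V × ℝ | v.1 ≠ 0 ∨ 0 < v.2} ∩ {v | v.1 ≠ 0 ∨ v.2 < 0}) ?_
        rw [chn_inter]
        refine ⟨sub_mem ha' (chn_mono inter_subset_right _ (cyc_le _ _ (bdy_le _ _ hp))), ?_⟩
        have e : cmap ℤ Prod.snd (j + 1) a - p = q - cmap ℤ Prod.snd (j + 1) b := by
          rw [sub_eq_sub_iff_add_eq_add, ← hpq, add_comm p q]
        rw [e]
        exact sub_mem (chn_mono inter_subset_right _ (cyc_le _ _ (bdy_le _ _ hq))) hb'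
      have k7 : cmap ℤ Prod.snd j (bd ℤ _ j a) ∈ bdy ℤ {v : V × ℝ | v.1 ≠ 0} j := by
        refine ⟨_, k6, ?_⟩
        have k8 : bd ℤ _ j p = 0 := (bdy_le _ (j + 1) hp).2
        rw [map_sub, k8, sub_zero, cmap_bd continuousOn_snd ha]
      have k9 := cmap_bdy (f := Prod.fst) (T := ({0}ᶜ : Set V)) continuousOn_fst
        (fun x hx => hx) k7
      rw [cmap_comp continuousOn_snd hd'] at k9
      rw [cmap_comp cr hd']
      exact k9)
  have k4 := cmap_bdy (f := fun x : B × V => (x.1, (x.2, (0 : ℝ))))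
    (T := {x : B × V × ℝ | x.2.1 ≠ 0}) (by fun_prop) (fun x hx => hx) k3
  rw [cmap_comp cr hd'] at k4
  have k5 := htpy_cyc (R := ℤ) (fun (s : ℝ) (x : B × V × ℝ) => (x.1, (x.2.1, s * x.2.2)))
    (S := {x | x.2.1 ≠ 0}) (S' := {x | x.2.1 ≠ 0}) (by fun_prop) (fun s _ x hx => hx) hd
  have e1 : (fun x : B × V × ℝ => (x.1, (x.2.1, (1 : ℝ) * x.2.2))) = id := by
    funext x
    simp
  have e0 : (fun x : B × V × ℝ => (x.1, (x.2.1, (0 : ℝ) * x.2.2))) =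
      (fun x : B × V => (x.1, (x.2, (0 : ℝ)))) ∘ fun x : B × V × ℝ => (x.1, x.2.1) := by
    funext x
    simp
  rw [e1, e0, cmap_id] at k5
  have k6 := add_mem k5 k4
  rw [sub_add_cancel] at k6
  obtain ⟨f, hf, ef⟩ := k6
  have za : a - f ∈ cyc ℤ {x : B × V × ℝ | x.2.1 ≠ 0 ∨ 0 < x.2.2} (j + 1) :=
    ⟨sub_mem (chn_mono (fun x hx => hx.2) _ ha) (chn_mono (fun x hx => Or.inl hx) _ hf), by
      change bd ℤ _ j (a - f) = 0
      rw [map_sub, ef, sub_self]⟩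
  have zb : b + f ∈ cyc ℤ {x : B × V × ℝ | x.2.1 ≠ 0 ∨ x.2.2 < 0} (j + 1) :=
    ⟨add_mem (chn_mono (fun x hx => hx.2) _ hb) (chn_mono (fun x hx => Or.inl hx) _ hf), by
      change bd ℤ _ j (b + f) = 0
      rw [map_add, ef, eb, neg_add_cancel]⟩
  have line : ∀ (ε : ℝ), ε ≠ 0 → ∀ s ∈ Icc (0 : ℝ) 1, ∀ v : V × ℝ, v.1 ≠ 0 ∨ 0 < ε * v.2 →
      (1 - s) • v + s • ((0 : V), ε) ≠ 0 := by
    intro ε hε s hs v hv e
    have e1 : (1 - s) • v.1 = 0 := by simpa using congrArg Prod.fst e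
    have e2 : (1 - s) * v.2 + s * ε = 0 := by simpa using congrArg Prod.snd e
    rcases smul_eq_zero.1 e1 with h | h
    · rw [h, zero_mul, zero_add, show s = 1 by linarith, one_mul] at e2
      exact hε e2
    · have h3 := hv.resolve_left (not_not.2 h)
      have h4 : (1 - s) * (ε * v.2) + s * (ε * ε) = 0 := by linear_combination ε * e2
      have h5 := mul_self_pos.2 hε
      rcases eq_or_lt_of_le hs.1 with h6 | h6
      · rw [← h6] at h4
        linarith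
      · nlinarith [mul_pos h6 h5, mul_nonneg (sub_nonneg.2 hs.2) h3.le]
  have ca := contr (T := Pz B (V × ℝ)) ((0 : V), (1 : ℝ))
    (fun s hs x hx => line 1 one_ne_zero s hs x.2 (by simpa using hx)) za
  have cb := contr (T := Pz B (V × ℝ)) ((0 : V), (-1 : ℝ))
    (fun s hs x hx => line (-1) (by norm_num) s hs x.2 (by simpa using hx)) zb
  obtain ⟨v0, hv0⟩ := exists_ne (0 : V)
  have cc := htpy_cyc (R := ℤ)
    (fun (s : ℝ) (x : B) => (x, ((s * (1 - s)) • v0, 1 - 2 * s))) (S := univ)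
    (S' := Pz B (V × ℝ)) (by fun_prop) (fun s _ x _ e => by
      have e1 : (s * (1 - s)) • v0 = 0 := congrArg Prod.fst e
      have e2 : 1 - 2 * s = 0 := congrArg Prod.snd e
      rw [show s = 1 / 2 by linarith] at e1
      exact hv0 ((smul_eq_zero.1 e1).resolve_left (by norm_num))) (fst_cyc zb)
  have e2 : (fun x : B => (x, (((1 : ℝ) * (1 - 1)) • v0, (1 : ℝ) - 2 * 1))) =
      fun x : B => (x, ((0 : V), (-1 : ℝ))) := by
    funext x
    norm_num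
  have e3 : (fun x : B => (x, (((0 : ℝ) * (1 - 0)) • v0, (1 : ℝ) - 2 * 0))) =
      fun x : B => (x, ((0 : V), (1 : ℝ))) := by
    funext x
    norm_num
  rw [e2, e3] at cc
  have cd := sec_bdy (S := Pz B (V × ℝ)) (p := ((0 : V), (1 : ℝ)))
    (fun b e => one_ne_zero (congrArg Prod.snd e)) (sub_mem h1 (fst_bdy hab))
  have := add_mem (add_mem (add_mem (add_mem hab ca) cb) cc) cd
  simp only [map_sub, map_add] at this
  convert this using 1
  abel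

theorem st_all [PathConnectedSpace B] : ∀ (j : ℕ) (V : Type) [NormedAddCommGroup V]
    [NormedSpace ℝ V] [FiniteDimensional ℝ V], j + 1 ≤ Module.finrank ℝ V →
    St B V j (j + 1 < Module.finrank ℝ V)
  | 0, _, _, _, _, _ => st_zero
  | j + 1, V, _, _, _, hj => by
    obtain ⟨m, hm⟩ : ∃ m, Module.finrank ℝ V = m + 1 := ⟨Module.finrank ℝ V - 1, by omega⟩
    have hr : Module.finrank ℝ (Fin m → ℝ) = m := by simp
    have e : V ≃L[ℝ] (Fin m → ℝ) × ℝ := ContinuousLinearEquiv.ofFinrankEq (by simp [hm])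
    have : Nontrivial (Fin m → ℝ) := Module.nontrivial_of_finrank_pos (R := ℝ) (by omega)
    have k := st_succ (st_all j (Fin m → ℝ) (by omega))
    rw [hr, show (j + 1 < m) = (j + 1 + 1 < Module.finrank ℝ V) by
      rw [hm, Nat.add_lt_add_iff_right]] at k
    exact k.trans e

end

/-- The argument of the second coordinate. -/
def ta (p : B × ℂ) : ℂ := p.2 / ‖p.2‖

theorem rot : Rot (Pz B ℂ) ta fun s p => (p.1, ex s * p.2) where
  cτ := ContinuousOn.div continuousOn_snd (by fun_prop) fun x hx => by simpa [Pz] using hx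
  nτ := fun x hx => by
    have : ‖x.2‖ ≠ 0 := norm_ne_zero_iff.2 hx
    simp [ta, this]
  cΘ := by
    have := continuous_ex
    fun_prop
  mem := fun s x hx => mul_ne_zero (ex_ne s) hx
  zero := fun x _ => by simp [ex_zero]
  add := fun s s' x _ => by simp [ex_add, mul_assoc]
  rot := fun s x _ => by simp [ta, norm_ex, mul_div_assoc]

theorem mem_fib {x : B × ℂ} : x ∈ fib (Pz B ℂ) ta ↔ ∃ t : ℝ, 0 < t ∧ x.2 = t := by
  constructor
  · rintro ⟨h, e⟩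
    have h1 : 0 < ‖x.2‖ := norm_pos_iff.2 h
    refine ⟨_, h1, ?_⟩
    rwa [ta, div_eq_one_iff_eq (by exact_mod_cast h1.ne')] at e
  · rintro ⟨t, ht, e⟩
    have h1 : (t : ℂ) ≠ 0 := by exact_mod_cast ht.ne'
    refine ⟨by rw [Pz, mem_ofPred_eq, e]; exact h1, ?_⟩
    rw [ta, e, Complex.norm_real, Real.norm_eq_abs, abs_of_pos ht, div_self h1]

theorem fib_bdy {k : ℕ} {d : Chn ℤ (B × ℂ) k} (hd : d ∈ cyc ℤ (fib (Pz B ℂ) ta) k)
    (h : cmap ℤ Prod.fst k d ∈ bdy ℤ univ k) : d ∈ bdy ℤ (fib (Pz B ℂ) ta) k := by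
  have h1 := contr (T := fib (Pz B ℂ) ta) (1 : ℂ) (fun s hs x hx => by
    obtain ⟨t, ht, e⟩ := mem_fib.1 hx
    refine mem_fib.2 ⟨(1 - s) * t + s, ?_, by simp [e]⟩
    rcases eq_or_lt_of_le hs.1 with h6 | h6
    · rw [← h6]
      linarith
    · nlinarith [mul_nonneg (sub_nonneg.2 hs.2) ht.le]) hd
  have h2 := sec_bdy (S := fib (Pz B ℂ) ta) (p := (1 : ℂ))
    (fun b => mem_fib.2 ⟨1, one_pos, by simp⟩) h
  simpa using add_mem h1 h2

theorem fin {k : ℕ} {c : Chn ℤ (B × ℂ) (k + 1)} {d : Chn ℤ (B × ℂ) k}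
    (hd : Conn ℤ (Pz B ℂ) ta k c d) (h : cmap ℤ Prod.fst k d ∈ bdy ℤ univ k)
    (h1 : cmap ℤ Prod.fst (k + 1) c ∈ bdy ℤ univ (k + 1)) : c ∈ bdy ℤ (Pz B ℂ) (k + 1) := by
  obtain ⟨z, hz, β, hβ, rfl⟩ := Submodule.mem_sup.1 (rot.conn_zero hd (fib_bdy hd.1 h))
  refine add_mem (bdy_mono (fun x hx => hx.1) _ (fib_bdy hz ?_)) hβ
  have := sub_mem h1 (fst_bdy hβ)
  rwa [map_add, add_sub_cancel_right] at this

theorem wd_ta {σ : Simp (B × ℂ) 1} (hσ : range σ ⊆ Pz B ℂ) : wd ta σ = wd Prod.snd σ := by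
  have h0 : ∀ t, (σ t).2 ≠ 0 := fun t => hσ ⟨t, rfl⟩
  obtain ⟨θ, hθ, e⟩ := exists_arg (γ := Prod.snd ∘ σ) (by fun_prop) h0
  rw [wd, wd, wp_eq (γ := Prod.snd ∘ σ) h0 hθ e]
  refine wp_eq (γ := ta ∘ σ) (fun t => (Mt2nz rot).2 _ (hσ ⟨t, rfl⟩)) hθ fun t => ?_
  have h1 : ((‖(σ t).2‖ : ℝ) : ℂ) ≠ 0 := by exact_mod_cast norm_ne_zero_iff.2 (h0 t)
  have h2 : (σ t).2 = ‖(σ t).2‖ * ex (θ t) := e t
  rw [Function.comp_apply, rot.nτ _ (hσ ⟨t, rfl⟩), ta, div_eq_iff h1, Complex.ofReal_one, one_mul,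
    mul_comm]
  exact h2

section

variable {X : Type} [TopologicalSpace X] {O : Set X} {τ : X → ℂ} {Θ : ℝ → X → X}

/-- Cup product in bidegree `(0, 2)`. -/
def cup02 (a : Simp X 0 → ℝ) (b : Simp X 2 → ℝ) (σ : Simp X 2) : ℝ := a (sub σ ![0]) * b σ

theorem cobd_cup02 (a : Simp X 0 → ℝ) (b : Simp X 2 → ℝ) (σ : Simp X 3) :
    cobd (cup02 a b) σ = cup12 (cobd a) b σ + a (sub σ ![0]) * cobd b σ := by
  simp only [Cup_d0, Cup_d2, cup02, cup12, Cup_c1, Matrix.cons_val]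
  ring

theorem conn_cup (h : Rot O τ Θ) {c : Chn ℤ X 3} {d : Chn ℤ X 2}
    (hc : Conn ℤ O τ 2 c d) (a : Simp X 2 → ℝ) (ha : ∀ σ : Simp X 3, range σ ⊆ O → cobd a σ = 0) :
    ev ℤ (cup12 (wd τ) a) c = ev ℤ a d := by
  obtain ⟨u, v, hu, hv, eu, ev', h0, h1⟩ := Mt2arg h
  obtain ⟨hd, A, hA, C, hC, e, he, ⟨w, hw, ew⟩, ea, eb⟩ := hc
  have hz := Mt2nz h
  have k0 : ev ℤ (cup12 (wd τ) a) (c - A - C) = 0 := by
    rw [← ew, ev_bd]
    refine Mt2ev0 hw fun σ hσ => ?_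
    rw [cobd_cup12, cup, cobd_wd hz ((range_sub σ _).trans hσ),
      ha _ ((range_sub σ _).trans hσ), zero_mul, mul_zero, sub_zero]
  have key : ∀ (S : Set X) (f : X → ℝ), S ⊆ O → ContinuousOn f S →
      (∀ x ∈ O, τ x = ‖τ x‖ * ex (f x)) → ∀ C ∈ chn ℤ S 3,
      ev ℤ (cup12 (wd τ) a) C = ev ℤ (cup02 (pt f) a) (bd ℤ X 2 C) := by
    intro S f hS hf ef C hC
    rw [ev_bd]
    refine ev_congr_chn hC fun σ hσ => ?_
    rw [cobd_cup02, ha σ (hσ.trans hS), mul_zero, add_zero, cup12, cup12,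
      wd_eq (fun x hx => hz.2 x (hS hx)) hf (fun x hx => ef x (hS hx)) ((range_sub σ _).trans hσ)]
  have k1 := key _ u (fun x hx => hx.1) hu eu A hA
  have k2 := key _ v (fun x hx => hx.1) hv ev' C hC
  have k3 : ev ℤ (cup02 (pt u) a) d = 0 := Mt2ev0 (cyc_le _ _ hd) fun σ hσ => by
    rw [cup02, pt, vtx, (h0 _ (hσ (range_sub σ _ ⟨_, rfl⟩))).1, zero_mul]
  have k4 : ev ℤ (cup02 (pt v) a) d = 0 := Mt2ev0 (cyc_le _ _ hd) fun σ hσ => by
    rw [cup02, pt, vtx, (h0 _ (hσ (range_sub σ _ ⟨_, rfl⟩))).2, zero_mul]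
  have k5 : ev ℤ (cup02 (pt v) a) e = ev ℤ (cup02 (pt u) a) e + ev ℤ a e := by
    rw [← ev_add]
    refine ev_congr_chn he fun σ hσ => ?_
    rw [Pi.add_apply, cup02, cup02, pt, pt, vtx, h1 _ (hσ (range_sub σ _ ⟨_, rfl⟩)).2]
    ring
  have k6 : ev ℤ a (d + e) = 0 := by
    rw [← ea, ev_bd]
    exact Mt2ev0 hA fun σ hσ => ha σ fun x hx => (hσ hx).1
  rw [ea] at k1
  rw [eb] at k2
  simp only [map_sub, map_add, map_neg] at k0 k1 k2 k6
  linarith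

end

end RSig

theorem sig [PathConnectedSpace B] {V : Type} [NormedAddCommGroup V] [NormedSpace ℝ V]
    [FiniteDimensional ℝ V] {j : ℕ} (hj : j + 1 ≤ Module.finrank ℝ V) {c : Chn ℤ (B × V) j}
    (hc : c ∈ cyc ℤ (Pz B V) j) (h1 : cmap ℤ Prod.fst j c ∈ bdy ℤ univ j)
    (h2 : j + 1 < Module.finrank ℝ V ∨ cmap ℤ Prod.snd j c ∈ bdy ℤ {0}ᶜ j) :
    c ∈ bdy ℤ (Pz B V) j := RSig.st_all j V hj c hc h1 h2

theorem wang_one [PathConnectedSpace B] {c : Chn ℤ (B × ℂ) 1} (hc : c ∈ cyc ℤ (Pz B ℂ) 1)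
    (h1 : cmap ℤ Prod.fst 1 c ∈ bdy ℤ univ 1) (h2 : ev ℤ (wd Prod.snd) c = 0) :
    c ∈ bdy ℤ (Pz B ℂ) 1 := by
  obtain ⟨d, hd⟩ := RSig.rot.exists_conn hc
  refine RSig.fin hd (mem_bdy_zero isPathConnected_univ (by rw [chn_univ]; trivial) ?_) h1
  have k := RSig.rot.conn_wd hd
  rw [ev_congr_chn (cyc_le _ _ hc) fun σ hσ => RSig.wd_ta hσ, h2] at k
  rw [aug_cmap]
  simpa using k.symm

theorem wang_two (h : HZ B 1) {c : Chn ℤ (B × ℂ) 2} (hc : c ∈ cyc ℤ (Pz B ℂ) 2)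
    (h1 : cmap ℤ Prod.fst 2 c ∈ bdy ℤ univ 2) : c ∈ bdy ℤ (Pz B ℂ) 2 := by
  obtain ⟨d, hd⟩ := RSig.rot.exists_conn hc
  exact RSig.fin hd (h (RSig.fst_cyc hd.1)) h1

theorem wang_three (h : Det y) {c : Chn ℤ (B × ℂ) 3} (hc : c ∈ cyc ℤ (Pz B ℂ) 3)
    (h2 : ∀ i, ev ℤ (cup12 (wd Prod.snd) fun σ => ((pull Prod.fst (y i) σ : ℤ) : ℝ)) c = 0) :
    c ∈ bdy ℤ (Pz B ℂ) 3 := by
  obtain ⟨d, hd⟩ := RSig.rot.exists_conn hc
  refine RSig.fin hd (h.two _ (RSig.fst_cyc hd.1) fun i => ?_) (h.three (RSig.fst_cyc hc))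
  have k := RSig.conn_cup RSig.rot hd (fun σ => ((pull Prod.fst (y i) σ : ℤ) : ℝ)) fun σ _ => by
    rw [← cobd_cast, coc_pull continuous_fst (h.coc i)]
    simp
  rw [ev_congr_chn (b := cup12 (wd Prod.snd) fun σ => ((pull Prod.fst (y i) σ : ℤ) : ℝ))
    (cyc_le _ _ hc) (fun σ hσ => by
      rw [cup12, cup12, RSig.wd_ta ((range_sub σ _).trans hσ)]), h2 i, ← ev_cast, ev_pull] at k
  exact_mod_cast k.symm

end HW
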