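import Pool.Agent.P.MP_9699e0_gt.W.BnA
import Pool.Agent.P.MP_9699e0_gt.W.Sig

/-! Products with projective space: the chart at a point, the retraction, the inductive step. -/

set_option autoImplicit false
set_option linter.unusedSectionVars false

noncomputable section

namespace HW

open HK3 Pool.Agent.P.MP_9699e0_gt Set Filter Topology

variable {B : Type} [TopologicalSpace B] {ι : Type} {y : ι → Simp B 2 → ℤ} {n : ℕ}

namespace RStA

theorem cons_ne (u : Fin (n + 1) → ℂ) : (Fin.cons 1 u : Fin (n + 2) → ℂ) ≠ 0 := fun h =>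
  one_ne_zero (congrFun h 0)

theorem cons_ne' {z : ℂ} {u : Fin (n + 1) → ℂ} (hu : u ≠ 0) :
    (Fin.cons z u : Fin (n + 2) → ℂ) ≠ 0 := fun h =>
  hu (funext fun i => congrFun h i.succ)

theorem cont_cht : Continuous (cht (B := B) n) :=
  continuous_fst.prodMk (continuousOn_pm.comp_continuous
    (continuous_const.finCons continuous_snd) fun p => cons_ne p.2)

theorem nl_cht (u : Fin (n + 1) → ℂ) : nl 0 (pm (n + 1) (Fin.cons 1 u)) = Fin.cons 1 u := by
  rw [nl_pm (cons_ne u)]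
  simp

theorem image_cht : cht (B := B) n '' univ = {p | p.2 ∈ Uc 0} := by
  ext ⟨b, p⟩
  constructor
  · rintro ⟨q, -, h⟩
    rw [← h]
    exact (pm_mem_Uc (cons_ne q.2)).2 one_ne_zero
  · intro h
    refine ⟨(b, Fin.tail (nl 0 p)), mem_univ _, Prod.ext rfl ?_⟩
    change pm (n + 1) (Fin.cons 1 (Fin.tail (nl 0 p))) = p
    conv_lhs => rw [← nl_self h, Fin.cons_self_tail]
    exact pm_nl h

theorem emb_cht : Emb (cht (B := B) n) univ := by
  refine ⟨cont_cht.continuousOn, fun p => (p.1, Fin.tail (nl 0 p.2)), ?_, fun p _ => ?_⟩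
  · rw [image_cht]
    exact continuousOn_fst.prodMk (continuous_id.finTail.comp_continuousOn
      ((continuousOn_nl 0).comp continuousOn_snd fun _ h => h))
  · refine Prod.ext rfl ?_
    change Fin.tail (nl 0 (pm (n + 1) (Fin.cons 1 p.2))) = p.2
    rw [nl_cht, Fin.tail_cons]

theorem pm_mem_Vs {b : B} {v : Fin (n + 2) → ℂ} (hv : v ≠ 0) :
    (b, pm (n + 1) v) ∈ Vs B n ↔ Fin.tail v ≠ 0 := by
  obtain ⟨c, hc, e⟩ := rp_pm hv
  change Fin.tail (rp (pm (n + 1) v)) ≠ 0 ↔ _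
  rw [e]
  exact (smul_ne_zero_iff (r := c) (m := Fin.tail v)).trans (and_iff_right hc)

theorem cht_mem {p : B × (Fin (n + 1) → ℂ)} : cht n p ∈ Vs B n ↔ p ∈ Pz B _ :=
  pm_mem_Vs (cons_ne p.2)

theorem isOpen_Vs : IsOpen (Vs B n) := by
  have e : Vs B n = ⋃ j : Fin (n + 1), Prod.snd ⁻¹' Uc j.succ := by
    ext p
    simp only [mem_iUnion]
    exact Function.ne_iff
  rw [e]
  exact isOpen_iUnion fun j => (isOpen_Uc _).preimage continuous_snd

theorem cover : (univ : Set (B × CP (n + 1))) ⊆ {p | p.2 ∈ Uc 0} ∪ Vs B n := by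
  intro p _
  obtain ⟨j, hj⟩ := exists_Uc p.2
  cases j using Fin.cases with
  | zero => exact Or.inl hj
  | succ j => exact Or.inr fun h => hj (congrFun h j)

theorem mem_sup {X : Type} [TopologicalSpace X] {S : Set X} {k : ℕ} {c w : Chn ℤ X k}
    (hc : c ∈ cyc ℤ univ k) (hw : w ∈ chn ℤ S k) (h : c - w ∈ bdy ℤ univ k) :
    c ∈ cyc ℤ S k ⊔ bdy ℤ univ k := by
  have h1 : w ∈ cyc ℤ univ k := by
    have := sub_mem hc (bdy_le _ _ h)
    rwa [sub_sub_cancel] at this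
  have := add_mem (Submodule.mem_sup_left (T := bdy ℤ univ k) (mem_cyc h1 hw))
    (Submodule.mem_sup_right h)
  rwa [add_sub_cancel] at this

theorem top {X : Type} [TopologicalSpace X] {k : ℕ} (c : Chn ℤ X k) : c ∈ chn ℤ univ k := by
  rw [chn_univ]
  trivial

/-- The hyperplane as a linear map. -/
def hyp (n : ℕ) : (Fin (n + 1) → ℂ) →ₗ[ℂ] (Fin (n + 2) → ℂ) where
  toFun v := Fin.cons 0 v
  map_add' v w := by
    funext i
    cases i using Fin.cases <;> simp
  map_smul' c v := by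
    funext i
    cases i using Fin.cases <;> simp

/-- The inclusion of the hyperplane. -/
def inc (n : ℕ) (p : B × CP n) : B × CP (n + 1) := (p.1, pm (n + 1) (hyp n (rp p.2)))

/-- The projection to the hyperplane. -/
def ret (n : ℕ) (p : B × CP (n + 1)) : B × CP n := (p.1, pm n (Fin.tail (rp p.2)))

/-- The deformation to the hyperplane. -/
def dfm (n : ℕ) (s : ℝ) (p : B × CP (n + 1)) : B × CP (n + 1) :=
  (p.1, pm (n + 1) (Fin.cons (s * rp p.2 0) (Fin.tail (rp p.2))))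

theorem cont_inc : Continuous (inc (B := B) n) := by
  refine continuous_fst.prodMk (continuousOn_univ.1 ?_)
  refine contOn_rp (G := fun _ v => pm (n + 1) (hyp n v)) (T := {q | q.2 ≠ 0})
    continuousOn_snd ?_ fun x _ c hc => ⟨smul_ne_zero hc (rp_ne _), ?_⟩
  · exact continuousOn_pm.comp
      ((hyp n).continuous_of_finiteDimensional.comp continuous_snd).continuousOn
      fun q h => cons_ne' h
  · simp only [map_smul]
    exact pm_smul hc _

theorem cont_ret : ContinuousOn (ret (B := B) n) (Vs B n) := by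
  refine continuousOn_fst.prodMk ?_
  refine contOn_rp (G := fun _ v => pm n (Fin.tail v)) (T := {q | Fin.tail q.2 ≠ 0})
    continuousOn_snd ?_ fun x hx c hc => ⟨smul_ne_zero hc hx, pm_smul hc _⟩
  exact continuousOn_pm.comp continuous_snd.finTail.continuousOn fun q h => h

theorem cont_dfm {T : Set ℝ} :
    ContinuousOn (fun p : ℝ × (B × CP (n + 1)) => dfm n p.1 p.2) (T ×ˢ Vs B n) := by
  refine continuous_snd.fst.continuousOn.prodMk ?_
  refine contOn_rp (g := fun p : ℝ × (B × CP (n + 1)) => p.2.2)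
    (G := fun p v => pm (n + 1) (Fin.cons (p.1 * v 0) (Fin.tail v)))
    (T := {q | Fin.tail q.2 ≠ 0}) continuous_snd.snd.continuousOn ?_
    fun x hx c hc => ⟨smul_ne_zero hc hx.2, ?_⟩
  · refine continuousOn_pm.comp (Continuous.finCons ?_ continuous_snd.finTail).continuousOn
      fun q h => cons_ne' h
    fun_prop
  · rw [← pm_smul hc (Fin.cons _ (Fin.tail (rp x.2.2)))]
    congr 1
    funext i
    cases i using Fin.cases with
    | zero => simp [mul_left_comm]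
    | succ i => rfl

theorem dfm_one : dfm (B := B) n 1 = id := by
  funext p
  refine Prod.ext rfl ?_
  change pm (n + 1) (Fin.cons (((1 : ℝ) : ℂ) * rp p.2 0) (Fin.tail (rp p.2))) = p.2
  rw [Complex.ofReal_one, one_mul, Fin.cons_self_tail, pm_rp]

theorem dfm_zero : EqOn (dfm (B := B) n 0) (inc n ∘ ret n) (Vs B n) := by
  intro p hp
  refine Prod.ext rfl ?_
  obtain ⟨c, hc, e⟩ := rp_pm (n := n) hp
  change pm (n + 1) (Fin.cons (((0 : ℝ) : ℂ) * rp p.2 0) (Fin.tail (rp p.2))) =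
    pm (n + 1) (hyp n (rp (pm n (Fin.tail (rp p.2)))))
  rw [e, map_smul, pm_smul hc, Complex.ofReal_zero, zero_mul]
  rfl

theorem lift {k : ℕ} {c : Chn ℤ (B × CP (n + 1)) k} (h : c ∈ cyc ℤ (Vs B n) k ⊔ bdy ℤ univ k) :
    ∃ e ∈ cyc ℤ univ k, c - cmap ℤ (inc n) k e ∈ bdy ℤ univ k := by
  obtain ⟨c, hc, d, hd, rfl⟩ := Submodule.mem_sup.1 h
  refine ⟨cmap ℤ (ret n) k c, cmap_cyc cont_ret (mapsTo_univ _ _) hc, ?_⟩
  have h1 := htpy_cyc (R := ℤ) (dfm n) cont_dfm (fun _ _ _ _ => mem_univ _) hc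
  rw [dfm_one, cmap_id, cmap_congr dfm_zero (cyc_le _ _ hc),
    ← cmap_comp cont_ret (cyc_le _ _ hc)] at h1
  rw [add_sub_right_comm]
  exact add_mem h1 hd

theorem back {X Y : Type} [TopologicalSpace X] [TopologicalSpace Y] {f : X → Y}
    (hf : Continuous f) {k : ℕ} {c : Chn ℤ Y k} {e : Chn ℤ X k}
    (h : c - cmap ℤ f k e ∈ bdy ℤ univ k) (he : e ∈ bdy ℤ univ k) : c ∈ bdy ℤ univ k := by
  have := add_mem h (bdy_map hf he)
  rwa [sub_add_cancel] at this

theorem coh_inc (y : ι → Simp B 2 → ℤ) (o : Option ι) :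
    Coh (pull (inc n) (opt y (n + 1) o)) (opt y n o) := by
  cases o with
  | none =>
    rw [opt, pull_pull cont_inc]
    exact coh_lin ⟨Prod.snd ∘ inc n, cont_inc.snd⟩ ⟨Prod.snd, continuous_snd⟩ (hyp n)
      fun x => ⟨cons_ne' (rp_ne _), rfl⟩
  | some i =>
    rw [opt, pull_pull cont_inc]
    exact Coh.refl _

theorem coc_opt (h : ∀ i, cobd (y i) = 0) (n : ℕ) (o : Option ι) : cobd (opt y n o) = 0 := by
  cases o with
  | none => exact coc_pull continuous_snd (coc_xx n)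
  | some i => exact coc_pull continuous_fst (h i)

/-- Transfer of the detection property along a map which is onto in homology. -/
theorem det_of {X Y κ : Type} [TopologicalSpace X] [TopologicalSpace Y] {x : κ → Simp X 2 → ℤ}
    {ι : Type} {z : ι → Simp Y 2 → ℤ} (h : Det x) {f : X → Y} (hf : Continuous f) (s : κ → ι)
    (hz : ∀ i, cobd (z i) = 0) (hs : ∀ i, Coh (pull f (z (s i))) (x i))
    (hc : PathConnectedSpace Y)
    (h1 : ∀ c ∈ cyc ℤ univ 1, ∃ e ∈ cyc ℤ univ 1, c - cmap ℤ f 1 e ∈ bdy ℤ univ 1)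
    (h2 : ∀ c ∈ cyc ℤ univ 2, (∀ i, ev ℤ (z i) c = 0) →
      ∃ e ∈ cyc ℤ univ 2, c - cmap ℤ f 2 e ∈ bdy ℤ univ 2)
    (h3 : ∀ c ∈ cyc ℤ univ 3, ∃ e ∈ cyc ℤ univ 3, c - cmap ℤ f 3 e ∈ bdy ℤ univ 3)
    (h4 : ∀ c ∈ cyc ℤ univ 4, (∀ i j, ev ℤ (cup (z i) (z j)) c = 0) →
      ∃ e ∈ cyc ℤ univ 4, c - cmap ℤ f 4 e ∈ bdy ℤ univ 4) : Det z := by
  refine ⟨hz, hc, fun c hc => ?_, fun c hc h0 => ?_, fun c hc => ?_, fun c hc h0 => ?_⟩
  · obtain ⟨e, he, a⟩ := h1 c hc
    exact back hf a (h.one he)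
  · obtain ⟨e, he, a⟩ := h2 c hc h0
    refine back hf a (h.two e he fun i => ?_)
    rw [← ev_coh (hs i) he, ev_pull, ← ev_eq_of_bdy (hz _) a, h0]
  · obtain ⟨e, he, a⟩ := h3 c hc
    exact back hf a (h.three he)
  · obtain ⟨e, he, a⟩ := h4 c hc h0
    refine back hf a (h.four e he fun i j => ?_)
    rw [← ev_cup_coh (mem_cyc_univ.1 he) (coc_pull hf (hz _)) (h.coc j) (hs i) (hs j),
      cup_pull hf, ev_pull, ← ev_eq_of_bdy (coc_cup (hz _) (hz _)) a, h0]

theorem conn [PathConnectedSpace B] (n : ℕ) : PathConnectedSpace (B × CP n) :=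
  have := sc_CP n
  inferInstance

end RStA

open RStA

theorem split_cht {k : ℕ} {c : Chn ℤ (B × CP (n + 1)) (k + 1)} (hc : c ∈ cyc ℤ univ (k + 1)) :
    ∃ (a : Chn ℤ (B × (Fin (n + 1) → ℂ)) (k + 1)) (b : Chn ℤ (B × CP (n + 1)) (k + 1)),
      b ∈ chn ℤ (Vs B n) (k + 1) ∧ c - cmap ℤ (cht n) (k + 1) a - b ∈ bdy ℤ univ (k + 1) ∧
      bd ℤ _ k a ∈ cyc ℤ (Pz B (Fin (n + 1) → ℂ)) k := by
  obtain ⟨a', ha, b, hb, h⟩ := mv_split (R := ℤ) ((isOpen_Uc 0).preimage continuous_snd)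
    isOpen_Vs cover hc
  rw [univ_inter] at ha hb
  obtain ⟨a, -, rfl⟩ := emb_cht.exists_chn (c := a') (by rw [image_cht]; exact ha)
  refine ⟨a, b, hb, h, mem_cyc (bdy_le _ _ (bd_mem_bdy a)) ?_⟩
  refine emb_cht.mem_chn (top _) (fun _ _ => cht_mem.1) ?_
  have h1 := mem_cyc_univ.1 (bdy_le _ _ h)
  rw [map_sub, map_sub, mem_cyc_univ.1 hc, zero_sub, sub_eq_zero, neg_eq_iff_eq_neg,
    cmap_bd cont_cht.continuousOn (top _)] at h1
  rw [h1]
  exact neg_mem (bd_mem hb)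

theorem red_cht {k : ℕ} {c b : Chn ℤ (B × CP (n + 1)) (k + 1)}
    {a : Chn ℤ (B × (Fin (n + 1) → ℂ)) (k + 1)} (hc : c ∈ cyc ℤ univ (k + 1))
    (hb : b ∈ chn ℤ (Vs B n) (k + 1))
    (h : c - cmap ℤ (cht n) (k + 1) a - b ∈ bdy ℤ univ (k + 1))
    (ha : bd ℤ _ k a ∈ bdy ℤ (Pz B (Fin (n + 1) → ℂ)) k) :
    c ∈ cyc ℤ (Vs B n) (k + 1) ⊔ bdy ℤ univ (k + 1) := by
  obtain ⟨f, hf, e⟩ := ha
  have hz : a - f ∈ cyc ℤ univ (k + 1) := mem_cyc_univ.2 (by rw [map_sub, e, sub_self])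
  have h1 := htpy_cyc (R := ℤ)
    (fun (s : ℝ) (p : B × (Fin (n + 1) → ℂ)) => (p.1, (1 - s) • p.2 + s • (1 : Fin (n + 1) → ℂ)))
    (Continuous.continuousOn (by fun_prop)) (fun _ _ _ _ => mem_univ _) hz
  simp only [sub_self, zero_smul, one_smul, zero_add, sub_zero, add_zero] at h1
  rw [show (fun p : B × (Fin (n + 1) → ℂ) => (p.1, p.2)) = id from rfl, cmap_id] at h1
  have h2 : cmap ℤ (fun p : B × (Fin (n + 1) → ℂ) => (p.1, (1 : Fin (n + 1) → ℂ))) (k + 1)
      (a - f) ∈ chn ℤ (Pz B _) (k + 1) :=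
    cmap_mem (Continuous.continuousOn (by fun_prop)) (fun _ _ => one_ne_zero) (top _)
  have h3 := cmap_mem (R := ℤ) cont_cht.continuousOn (fun _ => cht_mem.2) (add_mem h2 hf)
  refine mem_sup hc (add_mem h3 hb) ?_
  have h4 := sub_mem h (bdy_map cont_cht h1)
  convert h4 using 1
  simp only [map_sub, map_add]
  abel

theorem continuous_cht : Continuous (cht (B := B) n) := cont_cht

theorem red_of_lt [PathConnectedSpace B] {k : ℕ} (hk : k + 1 < 2 * (n + 1)) :
    cyc ℤ univ (k + 1) ≤ cyc ℤ (Vs B n) (k + 1) ⊔ bdy ℤ univ (k + 1) := by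
  intro c hc
  obtain ⟨a, b, hb, h, ha⟩ := split_cht hc
  have e : Module.finrank ℝ (Fin (n + 1) → ℂ) = 2 * (n + 1) := by
    rw [Module.finrank_pi_fintype]
    simp [mul_comm]
  refine red_cht hc hb h (sig (e ▸ hk.le) ha ?_ (Or.inl (e ▸ hk)))
  rw [← cmap_bd continuous_fst.continuousOn (top _)]
  exact bd_mem_bdy _

theorem red_high (h : Det y) : Red y (n + 2) := by
  have := h.conn
  exact ⟨red_of_lt (by omega), fun c hc _ => red_of_lt (by omega) hc, red_of_lt (by omega),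
    fun c hc _ => red_of_lt (by omega) hc⟩

theorem det_zero (h : Det y) : Det (opt y 0) := by
  have := h.conn
  have := subsingleton_CP
  have hf : Continuous fun b : B => (b, pm 0 1) := by fun_prop
  have key : ∀ k, ∀ c ∈ cyc ℤ (univ : Set (B × CP 0)) k, ∃ e ∈ cyc ℤ univ k,
      c - cmap ℤ (fun b : B => (b, pm 0 1)) k e ∈ bdy ℤ univ k := fun k c hc => by
    refine ⟨_, cyc_map continuous_fst hc, ?_⟩
    rw [cmap_cmap continuous_fst, show (fun b : B => (b, pm 0 1)) ∘ Prod.fst = id from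
      funext fun p => Prod.ext rfl (Subsingleton.elim _ _), cmap_id, sub_self]
    exact zero_mem _
  refine det_of h hf some (coc_opt h.coc 0) (fun i => ?_) (conn 0) (key 1)
    (fun c hc _ => key 2 c hc) (key 3) fun c hc _ => key 4 c hc
  rw [opt, pull_pull hf, show Prod.fst ∘ (fun b : B => (b, pm 0 1)) = id from rfl, pull_id]
  exact Coh.refl _

theorem det_succ (h : Det (opt y n)) (h' : Red y n) : Det (opt y (n + 1)) := by
  have := h.conn
  have := sc_CP n
  have : PathConnectedSpace B :=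
    (Prod.fst_surjective (β := CP n)).pathConnectedSpace continuous_fst
  have hy : ∀ i, cobd (y i) = 0 := fun i => by
    have hf : Continuous fun b : B => (b, pm n 1) := by fun_prop
    have h1 := coc_pull hf (h.coc (some i))
    rwa [opt, pull_pull hf, show Prod.fst ∘ (fun b : B => (b, pm n 1)) = id from rfl,
      pull_id] at h1
  exact det_of h cont_inc id (coc_opt hy _) (coh_inc y) (conn _) (fun c hc => lift (h'.one hc))
    (fun c hc h0 => lift (h'.two c hc (h0 none))) (fun c hc => lift (h'.three hc))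
    fun c hc h0 => lift (h'.four c hc h0)

end HW
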