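import Pool.Agent.P.MP_9699e0_gt.Defs

/-!
Definitions used in the statement: complex projective space, the Fermat quartic surface, and
maps that induce the identity on integral singular homology.
-/

set_option autoImplicit false

namespace Pool.Agent.P.MP_9699e0_gt

noncomputable section

/-- Complex projective `n`-space. -/
def CP (n : ℕ) : Type := Projectivization ℂ (Fin (n + 1) → ℂ)

/-- The quotient topology. -/
instance CP.top (n : ℕ) : TopologicalSpace (CP n) :=
  inferInstanceAs (TopologicalSpace (Quotient (projectivizationSetoid ℂ (Fin (n + 1) → ℂ))))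

/-- The Fermat quartic surface in projective three-space. -/
def Fermat : Type := {p : CP 3 // ∑ i, Projectivization.rep p i ^ 4 = 0}

/-- The subspace topology. -/
instance Fermat.top : TopologicalSpace Fermat :=
  inferInstanceAs (TopologicalSpace {p : CP 3 // ∑ i, Projectivization.rep p i ^ 4 = 0})

/-- `g` induces the identity on integral singular homology in every degree. -/
def HomTrivial {X : Type} [TopologicalSpace X] (g : C(X, X)) : Prop :=
  (∀ c : Simp X 0 →₀ ℤ, ∃ d : Simp X 1 →₀ ℤ, bd ℤ X 0 d = Finsupp.mapDomain g.comp c - c) ∧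
    ∀ (n : ℕ) (c : Simp X (n + 1) →₀ ℤ), bd ℤ X n c = 0 →
      ∃ d : Simp X (n + 2) →₀ ℤ, bd ℤ X (n + 1) d = Finsupp.mapDomain g.comp c - c

end

end Pool.Agent.P.MP_9699e0_gt
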