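import Pool.Agent.P.MP_9699e0_gt.W.Gen

/-! The suspension isomorphism and the homology of the line minus finitely many points. -/

set_option autoImplicit false
set_option linter.unusedSectionVars false

noncomputable section

namespace HW

open HK3 Pool.Agent.P.MP_9699e0_gt Set Filter Topology

variable {X Y : Type} [TopologicalSpace X] [TopologicalSpace Y]

namespace RSus

theorem rcyc_map {S : Set X} {T : Set Y} {f : X → Y} (hf : ContinuousOn f S) (h : MapsTo f S T)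
    {n : ℕ} {c : Chn ℤ X n} (hc : c ∈ rcyc S n) : cmap ℤ f n c ∈ rcyc T n := by
  cases n with
  | zero => exact ⟨cmap_mem hf h hc.1, (aug_cmap f c).trans hc.2⟩
  | succ n => exact cmap_cyc hf h hc

theorem rcyc_mono {S T : Set X} (h : S ⊆ T) (n : ℕ) : rcyc S n ≤ rcyc T n := by
  cases n with
  | zero => exact inf_le_inf_right _ (chn_mono h 0)
  | succ n => exact cyc_mono h _

theorem hiso_unit {S : Set X} {n : ℕ} : HIso S n PUnit ↔ rcyc S n ≤ bdy ℤ S n :=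
  ⟨fun ⟨_, _, h⟩ c hc => (h ⟨c, hc⟩).1 rfl,
    fun h => ⟨0, fun _ => ⟨0, rfl⟩, fun c => ⟨fun _ => h c.2, fun _ => rfl⟩⟩⟩

theorem hiso_of_rel {S : Set X} {n : ℕ} {M : Type} [AddCommGroup M] (Γ : Chn ℤ X n → M → Prop)
    (h1 : ∀ c m c' m', Γ c m → Γ c' m' → Γ (c - c') (m - m'))
    (h2 : ∀ c ∈ rcyc S n, ∃ m, Γ c m) (h3 : ∀ m, ∃ c ∈ rcyc S n, Γ c m)
    (h4 : ∀ c ∈ rcyc S n, ∀ m, Γ c m → (m = 0 ↔ c ∈ bdy ℤ S n)) : HIso S n M := by
  choose f hf using h2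
  have u : ∀ c m m', Γ c m → Γ c m' → m = m' := fun c m m' h h' =>
    sub_eq_zero.1 ((h4 0 (zero_mem _) _ (sub_self c ▸ h1 _ _ _ _ h h')).2 (zero_mem _))
  refine ⟨(AddMonoidHom.ofMapSub (fun c : rcyc S n => f c.1 c.2) fun c c' =>
    u _ _ _ (hf _ _) (h1 _ _ _ _ (hf _ _) (hf _ _))).toIntLinearMap, fun m => ?_,
    fun c => h4 _ c.2 _ (hf _ _)⟩
  obtain ⟨c, hc, h⟩ := h3 m
  exact ⟨⟨c, hc⟩, u _ _ _ (hf _ _) h⟩

/-- The components of the line minus the points `0, …, r - 1`. -/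
def Jn (r : ℕ) (i : Fin (r + 1)) : Set ℝ :=
  {x | ∀ k : Fin r, ((k : ℕ) < i → (k : ℝ) < x) ∧ ((i : ℕ) ≤ k → x < k)}

theorem Jn_open (r : ℕ) (i : Fin (r + 1)) : IsOpen (Jn r i) := by
  simp only [Jn, ofPred_forall, ofPred_and]
  exact isOpen_iInter_of_finite fun k => (isOpen_iInter_of_finite fun _ => isOpen_Ioi).inter
    (isOpen_iInter_of_finite fun _ => isOpen_Iio)

theorem Jn_convex (r : ℕ) (i : Fin (r + 1)) : Convex ℝ (Jn r i) :=
  convex_iff_ordConnected.2 ⟨fun _ hx _ hy _ hz k =>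
    ⟨fun h => ((hx k).1 h).trans_le hz.1, fun h => hz.2.trans_lt ((hy k).2 h)⟩⟩

theorem Jn_mem (r : ℕ) (i : Fin (r + 1)) : ((i : ℕ) : ℝ) - 1 / 2 ∈ Jn r i := fun k =>
  ⟨fun h => by
    have : ((k : ℕ) : ℝ) + 1 ≤ (i : ℕ) := by exact_mod_cast h
    linarith, fun h => by
    have : ((i : ℕ) : ℝ) ≤ (k : ℕ) := by exact_mod_cast h
    linarith⟩

theorem Jn_iff {r : ℕ} {i : Fin (r + 1)} {x : ℝ} (h : x ∈ Jn r i) (k : Fin r) :
    (k : ℝ) < x ↔ (k : ℕ) < i :=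
  ⟨fun h' => not_le.1 fun h1 => lt_asymm h' ((h k).2 h1), (h k).1⟩

theorem Jn_disj (r : ℕ) (i j : Fin (r + 1)) (h : i ≠ j) : Disjoint (Jn r i) (Jn r j) := by
  refine disjoint_left.2 fun x hi hj => h (Fin.ext ?_)
  have key : ∀ k < r, k < (i : ℕ) ↔ k < (j : ℕ) := fun k hk =>
    (Jn_iff hi ⟨k, hk⟩).symm.trans (Jn_iff hj ⟨k, hk⟩)
  have h1 := key i
  have h2 := key j
  omega

theorem Jn_union (r : ℕ) : (range fun i : Fin r => (i : ℝ))ᶜ = ⋃ i, Jn r i := by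
  ext x
  refine ⟨fun h => mem_iUnion.2 ⟨⟨min r ⌈x⌉₊, Nat.lt_succ_of_le (min_le_left _ _)⟩, fun k =>
    ⟨fun hk => Nat.lt_ceil.1 (hk.trans_le (min_le_right _ _)), fun hk => ?_⟩⟩, fun h => ?_⟩
  · refine lt_of_le_of_ne (Nat.ceil_le.1 ?_) fun e => h ⟨k, e.symm⟩
    exact (min_le_iff.1 hk).resolve_left (not_le.2 k.2)
  · rintro ⟨k, rfl⟩
    obtain ⟨i, hi⟩ := mem_iUnion.1 h
    rcases lt_or_ge (k : ℕ) i with h' | h'
    exacts [lt_irrefl _ ((hi k).1 h'), lt_irrefl _ ((hi k).2 h')]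

end RSus

open RSus

theorem hiso_of_retr {S : Set X} {T : Set Y} {f : X → Y} {g : Y → X} (hf : ContinuousOn f S)
    (hg : ContinuousOn g T) (h1 : MapsTo f S T) (h2 : MapsTo g T S) (h3 : ∀ y ∈ T, f (g y) = y)
    (H : ℝ → X → X) (hH : ContinuousOn (fun p : ℝ × X => H p.1 p.2) (Icc 0 1 ×ˢ S))
    (h4 : ∀ s ∈ Icc (0 : ℝ) 1, ∀ x ∈ S, H s x ∈ S) (h5 : ∀ x ∈ S, H 0 x = x)
    (h6 : ∀ x ∈ S, H 1 x = g (f x)) {n : ℕ} {M : Type} [AddCommGroup M] (h : HIso T n M) :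
    HIso S n M := by
  obtain ⟨φ, hs, hk⟩ := h
  refine ⟨φ ∘ₗ (cmap ℤ f n).restrict fun _ hc => rcyc_map hf h1 hc, fun m => ?_, fun c => ?_⟩
  · obtain ⟨d, rfl⟩ := hs m
    have hd := cyc_le _ _ (rcyc_le _ _ d.2)
    refine ⟨⟨_, rcyc_map hg h2 d.2⟩, congrArg φ (Subtype.ext ?_)⟩
    exact (cmap_comp hg hd).trans ((cmap_congr (g := id) h3 hd).trans (cmap_id _))
  · refine (hk _).trans ⟨fun hc => ?_, cmap_bdy hf h1⟩
    have hc' := cyc_le _ _ (rcyc_le _ _ c.2)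
    have k1 := htpy_cyc H hH h4 (rcyc_le _ _ c.2)
    rw [cmap_congr (g := g ∘ f) h6 hc', cmap_congr (g := id) h5 hc', cmap_id,
      ← cmap_comp hf hc'] at k1
    simpa using sub_mem (cmap_bdy hg h2 hc) k1

theorem hiso_mv {O U V : Set X} (hU : IsOpen U) (hV : IsOpen V) (h : O ⊆ U ∪ V) {n : ℕ}
    (h1 : ∀ k, rcyc (O ∩ U) k ≤ bdy ℤ (O ∩ U) k) (h2 : ∀ k, rcyc (O ∩ V) k ≤ bdy ℤ (O ∩ V) k)
    {M : Type} [AddCommGroup M] (h3 : HIso (O ∩ U ∩ V) n M) : HIso O (n + 1) M := by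
  obtain ⟨φ, hs, hk⟩ := h3
  have sV : O ∩ U ∩ V ⊆ O ∩ V := fun x hx => ⟨hx.1.1, hx.2⟩
  have hb : ∀ c ∈ cyc ℤ O (n + 1), ∀ a b, c - a - b ∈ bdy ℤ O (n + 1) →
      bd ℤ X n a + bd ℤ X n b = 0 := fun c hc a b hf => by
    have h2 := LinearMap.mem_ker.1 (bdy_le O _ hf).2
    rwa [map_sub, map_sub, LinearMap.mem_ker.1 hc.2, _root_.sub_sub, zero_sub, neg_eq_zero] at h2
  have hi : ∀ k, ∀ c ∈ chn ℤ (O ∩ U) k, c ∈ chn ℤ (O ∩ V) k → c ∈ chn ℤ (O ∩ U ∩ V) k :=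
    fun k c hc hc' => by
      rw [chn_inter]
      exact ⟨hc, chn_mono inter_subset_right _ hc'⟩
  refine hiso_of_rel (fun c m => ∃ a ∈ chn ℤ (O ∩ U) (n + 1), ∃ b ∈ chn ℤ (O ∩ V) (n + 1),
    ∃ d : rcyc (O ∩ U ∩ V) n, c - a - b ∈ bdy ℤ O (n + 1) ∧ bd ℤ X n a = d.1 ∧ φ d = m)
    ?_ (fun c hc => ?_) (fun m => ?_) ?_
  · rintro c _ c' _ ⟨a, ha, b, hb, d, e, e1, rfl⟩ ⟨a', ha', b', hb', d', e', e1', rfl⟩
    refine ⟨a - a', sub_mem ha ha', b - b', sub_mem hb hb', d - d', ?_,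
      by rw [map_sub, e1, e1']; rfl, map_sub φ d d'⟩
    convert sub_mem e e' using 1
    abel
  · obtain ⟨a, ha, b, hb', e⟩ := mv_split hU hV h (show c ∈ cyc ℤ O (n + 1) from hc)
    have k := eq_neg_of_add_eq_zero_left (hb c hc a b e)
    exact ⟨_, a, ha, b, hb', ⟨_, rcyc_bd (hi _ _ (bd_mem ha) (k ▸ neg_mem (bd_mem hb')))⟩, e,
      rfl, rfl⟩
  · obtain ⟨d, rfl⟩ := hs m
    obtain ⟨a, ha, ea⟩ := h1 n (rcyc_mono inter_subset_left n d.2)
    obtain ⟨b, hb', eb⟩ := h2 n (rcyc_mono sV n d.2)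
    refine ⟨a - b, ⟨sub_mem (chn_mono inter_subset_left _ ha) (chn_mono inter_subset_left _ hb'),
      LinearMap.mem_ker.2 (by rw [map_sub, ea, eb, sub_self])⟩, a, ha, -b, neg_mem hb', d, ?_,
      ea, rfl⟩
    rw [show a - b - a - -b = 0 by abel]
    exact zero_mem _
  · rintro c hc _ ⟨a, ha, b, hb', d, e, e1, rfl⟩
    refine (hk d).trans ⟨fun ⟨u, hu, eu⟩ => ?_, fun hc' => ?_⟩
    · have k1 : a - u ∈ bdy ℤ (O ∩ U) (n + 1) := h1 (n + 1)
        ⟨sub_mem ha (chn_mono inter_subset_left _ hu),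
          LinearMap.mem_ker.2 (by rw [map_sub, eu, e1, sub_self])⟩
      have k2 : b + u ∈ bdy ℤ (O ∩ V) (n + 1) := h2 (n + 1)
        ⟨add_mem hb' (chn_mono sV _ hu),
          LinearMap.mem_ker.2 (by rw [map_add, eu, ← e1, add_comm, hb c hc a b e])⟩
      convert add_mem (add_mem e (bdy_mono inter_subset_left _ k1))
        (bdy_mono inter_subset_left _ k2) using 1
      abel
    · have k : a + b ∈ bdy ℤ O (n + 1) := by
        convert sub_mem hc' e using 1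
        abel
      obtain ⟨x, hx, y, hy, e2⟩ := Submodule.mem_sup.1 (mv_bdy hU hV h (Submodule.add_mem_sup
        (chn_mono inter_subset_right _ ha) (chn_mono inter_subset_right _ hb')) k)
      refine ⟨a - x, hi _ _ (sub_mem ha (cyc_le _ _ (bdy_le _ _ hx))) ?_, ?_⟩
      · rw [show a - x = y - b from sub_eq_sub_iff_add_eq_add.2 (e2.symm.trans (add_comm _ _))]
        exact sub_mem (cyc_le _ _ (bdy_le _ _ hy)) hb'
      · rw [map_sub, LinearMap.mem_ker.1 (bdy_le _ _ hx).2, sub_zero, e1]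

theorem hiso_sus {V : Type} [NormedAddCommGroup V] [NormedSpace ℝ V] {F : Set V} (hF : IsClosed F)
    {n : ℕ} {M : Type} [AddCommGroup M] (h : HIso Fᶜ n M) :
    HIso (F ×ˢ ({0} : Set ℝ))ᶜ (n + 1) M := by
  have key : ∀ (c : ℝ) (S : Set (V × ℝ)) (T : Set V), MapsTo Prod.fst S T →
      (∀ v ∈ T, (v, c) ∈ S) →
      (∀ s ∈ Icc (0 : ℝ) 1, ∀ p ∈ S, (p.1, (1 - s) * p.2 + s * c) ∈ S) →
      ∀ (k : ℕ) (N : Type) [AddCommGroup N], HIso T k N → HIso S k N :=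
    fun c S T k1 k2 k3 k N _ => hiso_of_retr (g := fun v => (v, c)) continuousOn_fst
      (by fun_prop) k1 k2 (fun _ _ => rfl) (fun s p => (p.1, (1 - s) * p.2 + s * c))
      (by fun_prop) k3 (fun p _ => by simp) fun p _ => by simp
  have hu : ∀ k, HIso (univ : Set V) k PUnit := fun k =>
    hiso_unit.2 (rcyc_le_of_star (mem_univ 0) (starConvex_univ 0) k)
  have ho : IsOpen {p : V × ℝ | p.1 ∉ F} := hF.isOpen_compl.preimage continuous_fst
  have eU : (F ×ˢ ({0} : Set ℝ))ᶜ ∩ ({p : V × ℝ | p.1 ∉ F} ∪ {p | 0 < p.2}) =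
      {p : V × ℝ | p.1 ∉ F} ∪ {p | 0 < p.2} :=
    inter_eq_right.2 fun p hp hp' => hp.elim (fun h => h hp'.1) fun h => (ne_of_gt h) hp'.2
  have eV : (F ×ˢ ({0} : Set ℝ))ᶜ ∩ ({p : V × ℝ | p.1 ∉ F} ∪ {p | p.2 < 0}) =
      {p : V × ℝ | p.1 ∉ F} ∪ {p | p.2 < 0} :=
    inter_eq_right.2 fun p hp hp' => hp.elim (fun h => h hp'.1) fun h => (ne_of_lt h) hp'.2
  refine hiso_mv (U := {p : V × ℝ | p.1 ∉ F} ∪ {p | 0 < p.2})
    (V := {p : V × ℝ | p.1 ∉ F} ∪ {p | p.2 < 0})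
    (ho.union (isOpen_lt continuous_const continuous_snd))
    (ho.union (isOpen_lt continuous_snd continuous_const)) (fun p hp => ?_) (fun k => ?_)
    (fun k => ?_) ?_
  · rcases lt_trichotomy p.2 0 with h0 | h0 | h0
    exacts [.inr (.inr h0), .inl (.inl fun h' => hp ⟨h', h0⟩), .inl (.inr h0)]
  · rw [eU]
    refine hiso_unit.1 (key 1 _ univ (mapsTo_univ _ _) (fun v _ => .inr (one_pos (α := ℝ)))
      (fun s hs p hp => hp.imp id fun h0 => ?_) k _ (hu k))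
    have h0' : 0 < p.2 := h0
    change 0 < (1 - s) * p.2 + s * 1
    rcases hs.1.eq_or_lt with e | e
    · rw [← e]; linarith
    · linarith [mul_nonneg (sub_nonneg.2 hs.2) h0'.le]
  · rw [eV]
    refine hiso_unit.1 (key (-1) _ univ (mapsTo_univ _ _)
      (fun v _ => .inr (show (-1 : ℝ) < 0 from neg_one_lt_zero))
      (fun s hs p hp => hp.imp id fun h0 => ?_) k _ (hu k))
    have h0' : p.2 < 0 := h0
    change (1 - s) * p.2 + s * -1 < 0
    rcases hs.1.eq_or_lt with e | e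
    · rw [← e]; linarith
    · linarith [mul_nonpos_of_nonneg_of_nonpos (sub_nonneg.2 hs.2) h0'.le]
  · rw [eU, ← union_inter_distrib_left, show {p : V × ℝ | 0 < p.2} ∩ {p | p.2 < 0} = ∅ from
      eq_empty_of_forall_notMem fun p hp => lt_asymm (a := 0) (b := p.2) hp.1 hp.2, union_empty]
    exact key 0 _ Fᶜ (fun _ hp => hp) (fun _ hv => hv) (fun _ _ _ hp => hp) n M h

theorem hiso_line (r : ℕ) : HIso (range fun i : Fin r => (i : ℝ))ᶜ 0 (Fin r → ℤ) ∧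
    HIso (range fun i : Fin r => (i : ℝ))ᶜ 1 PUnit := by
  rw [Jn_union]
  have hc := fun {n : ℕ} {σ : Simp ℝ n} =>
    MvA_conn (Jn_open r) (fun _ => Subset.rfl) (Jn_disj r) (σ := σ)
  refine ⟨?_, hiso_unit.2 ((cyc_disj (Jn_open r) (fun _ => Subset.rfl) (Jn_disj r) 1).trans_le
    (iSup_le fun i => (cyc_le_of_star ((Jn_convex r i).starConvex (Jn_mem r i)) 0).trans
      (bdy_mono (subset_iUnion _ i) 1)))⟩
  set s : ℕ → Chn ℤ ℝ 0 := fun j => Finsupp.single (Hur_cst 0 ((j : ℝ) - 1 / 2)) 1 with hs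
  set a : Fin r → Chn ℤ ℝ 0 →ₗ[ℤ] ℤ :=
    fun k => ev ℤ (pt fun x : ℝ => if (k : ℝ) < x then (1 : ℤ) else 0) with ha
  have ev1 : ∀ {i} (σ : Simp ℝ 0), range σ ⊆ Jn r i → ∀ k,
      a k (Finsupp.single σ 1) = if (k : ℕ) < i then 1 else 0 := fun σ hσ k => by
    rw [ha, ev_single, one_smul, pt,
      if_congr (Jn_iff (x := vtx σ 0) (hσ ⟨_, rfl⟩) k) rfl rfl]
  have au : ∀ σ : Simp ℝ 0, aug ℤ (Finsupp.single σ (1 : ℤ)) = 1 := fun σ => by
    rw [aug, ev_single, one_smul]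
  have sm : ∀ i : Fin (r + 1), range (Hur_cst 0 (((i : ℕ) : ℝ) - 1 / 2)) ⊆ Jn r i := by
    rintro i _ ⟨t, rfl⟩
    exact Jn_mem r i
  have sm' : ∀ i : Fin (r + 1), s i ∈ chn ℤ (⋃ i, Jn r i) 0 := fun i =>
    single_mem ((sm i).trans (subset_iUnion _ i)) 1
  refine ⟨LinearMap.pi a ∘ₗ Submodule.subtype _, fun m => ?_, fun c => ⟨fun h => ?_, ?_⟩⟩
  · refine ⟨⟨∑ k, m k • (s (k + 1) - s k), sum_mem fun k _ => Submodule.smul_mem _ _
      ⟨sub_mem (sm' k.succ) (sm' k.castSucc), LinearMap.mem_ker.2 ?_⟩⟩, funext fun j => ?_⟩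
    · rw [map_sub, au, au, sub_self]
    · change a j (∑ k, m k • (s (k + 1) - s k)) = m j
      have e : ∀ k : Fin r, a j (s (k + 1) - s k) = if k = j then 1 else 0 := fun k => by
        rw [map_sub, show a j (s (k + 1)) = _ from ev1 _ (sm k.succ) j,
          show a j (s k) = _ from ev1 _ (sm k.castSucc) j, Fin.val_succ, Fin.val_castSucc,
          if_congr (Fin.ext_iff (a := k)) rfl rfl]
        split_ifs <;> omega
      simp [map_sum, e]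
  · have k := ChB_mem (N := bdy ℤ (⋃ i, Jn r i) 0) (LinearMap.id - (aug ℤ).smulRight (s 0) -
      ∑ k, (a k).smulRight (s (k + 1) - s k)) (fun σ hσ => ?_) c.2.1
    · have h' : ∀ k, a k c.1 = 0 := fun k => congrFun h k
      simpa [LinearMap.sum_apply, h', LinearMap.mem_ker.1 c.2.2] using k
    obtain ⟨i, hi⟩ := hc hσ
    have e : ∑ k : Fin r, (if (k : ℕ) < i then (1 : ℤ) else 0) • (s (k + 1) - s k) =
        s i - s 0 := by
      rw [Fin.sum_univ_eq_sum_range fun k => (if k < i then (1 : ℤ) else 0) • (s (k + 1) - s k),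
        ← Finset.sum_range_sub, ← Finset.sum_subset (Finset.range_mono (Nat.le_of_lt_succ i.2))
          fun k _ hk => by rw [if_neg (Finset.mem_range.not.1 hk), zero_smul]]
      exact Finset.sum_congr rfl fun k hk => by rw [if_pos (Finset.mem_range.1 hk), one_smul]
    simp only [LinearMap.sub_apply, LinearMap.sum_apply, LinearMap.smulRight_apply,
      LinearMap.id_apply, au, ev1 σ hi, e, one_smul, sub_sub_sub_cancel_right]
    exact bdy_mono (subset_iUnion _ i) 0 (mem_bdy_zero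
      ((Jn_convex r i).isPathConnected ⟨_, Jn_mem r i⟩)
      (sub_mem (single_mem hi 1) (single_mem (sm i) 1)) (by rw [map_sub, au, au, sub_self]))
  · rintro ⟨e, he, he'⟩
    funext k
    change a k c.1 = 0
    rw [← he', ha, ev_bd, ev_congr_chn (b := 0) he fun σ hσ => ?_]
    · simp [ev]
    obtain ⟨i, hi⟩ := hc hσ
    rw [cobd_pt, if_congr (Jn_iff (x := vtx σ 1) (hi ⟨_, rfl⟩) k) rfl rfl,
      if_congr (Jn_iff (x := vtx σ 0) (hi ⟨_, rfl⟩) k) rfl rfl, sub_self]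
    rfl

end HW
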