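import Pool.Agent.P.MP_9699e0_gt.W.Defs

/-! Maps from coordinate space that send far points to `A`, up to homotopy. -/

set_option autoImplicit false
set_option linter.unusedSectionVars false

noncomputable section

namespace HW

open HK3 Pool.Agent.P.MP_9699e0_gt Set Filter Topology

variable {Z : Type} [TopologicalSpace Z] {A : Set Z} {n : ℕ}

namespace RValA

/-- The reflection in the first coordinate. -/
def rf (x : Eu (n + 1)) : Eu (n + 1) := Function.update x 0 (-x 0)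

theorem rf_zero (x : Eu (n + 1)) : rf x 0 = -x 0 := Function.update_self ..

theorem rf_rf (x : Eu (n + 1)) : rf (rf x) = x := by
  simp [rf]

theorem continuous_rf : Continuous (rf : Eu (n + 1) → Eu (n + 1)) :=
  continuous_id.update 0 (continuous_apply 0).neg

theorem norm_rf (x : Eu (n + 1)) : ‖x‖ ≤ ‖rf x‖ := by
  refine (pi_norm_le_iff_of_nonneg (norm_nonneg _)).2 fun i => ?_
  refine le_trans (le_of_eq ?_) (norm_le_pi_norm (rf x) i)
  rcases eq_or_ne i 0 with rfl | h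
  · rw [rf_zero, norm_neg]
  · rw [rf, Function.update_of_ne h]

theorem far_rf (R : ℝ) : ∃ R' : ℝ, ∀ x : Eu (n + 1), R' ≤ ‖x‖ → R ≤ ‖rf x‖ :=
  ⟨R, fun x hx => hx.trans (norm_rf x)⟩

theorem far_add (w : Eu n) (R : ℝ) : ∃ R' : ℝ, ∀ x : Eu n, R' ≤ ‖x‖ → R ≤ ‖x + w‖ :=
  ⟨R + ‖w‖, fun x hx => by
    linarith [norm_sub_le (x + w) w, congrArg norm (add_sub_cancel_right x w)]⟩

theorem far_half {R : ℝ} {x : Eu (n + 1)} (hx : 0 ≤ x 0) : R ≤ ‖x + Pi.single 0 |R|‖ := by
  refine le_trans ?_ (norm_le_pi_norm _ 0)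
  rw [Pi.add_apply, Pi.single_eq_same]
  linarith [le_abs_self R, Real.le_norm_self (x 0 + |R|)]

/-- A contraction is inserted in a collar of the hyperplane. -/
theorem collar {P : Type} [TopologicalSpace P] {u : P → Eu (n + 1) → Z}
    (hu : Continuous fun q : P × Eu (n + 1) => u q.1 q.2) {Γ : ℝ → P → Z}
    (hΓ : Continuous fun q : ℝ × P => Γ q.1 q.2) (h0 : ∀ p, Γ 0 p = u p 0) :
    ∃ W : ℝ → P → Eu (n + 1) → Z,
      Continuous (fun q : ℝ × P × Eu (n + 1) => W q.1 q.2.1 q.2.2) ∧ (∀ p x, W 0 p x = u p x) ∧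
      (∀ τ p x, x 0 ≤ 0 → W τ p x = u p x) ∧ (∀ p x, 1 ≤ x 0 → W 1 p x = Γ 1 p) ∧
      ∀ τ ∈ Icc (0 : ℝ) 1, ∀ p x, 0 ≤ x 0 →
        (∃ y, 0 ≤ y 0 ∧ W τ p x = u p y) ∨ ∃ t ∈ Icc (0 : ℝ) 1, W τ p x = Γ t p := by
  refine ⟨fun τ p x => if τ * max 0 (min (x 0) 1) ≤ 1 / 2 then
    u p ((1 - 2 * (τ * max 0 (min (x 0) 1))) • x) else Γ (2 * (τ * max 0 (min (x 0) 1)) - 1) p,
    ?_, fun p x => ?_, fun τ p x hx => ?_, fun p x hx => ?_, fun τ hτ p x hx => ?_⟩
  · refine Continuous.if_le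
      (hu.comp (f := fun q : ℝ × P × Eu (n + 1) =>
        (q.2.1, (1 - 2 * (q.1 * max 0 (min (q.2.2 0) 1))) • q.2.2)) (by fun_prop))
      (hΓ.comp (f := fun q : ℝ × P × Eu (n + 1) =>
        (2 * (q.1 * max 0 (min (q.2.2 0) 1)) - 1, q.2.1)) (by fun_prop))
      (by fun_prop) continuous_const fun q hq => ?_
    rw [hq]
    norm_num [h0]
  · simp
  · simp [max_eq_left ((min_le_left _ 1).trans hx)]
  · norm_num [min_eq_right hx]
  · have h1 : 0 ≤ τ * max 0 (min (x 0) 1) := mul_nonneg hτ.1 (le_max_left _ _)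
    have h2 : τ * max 0 (min (x 0) 1) ≤ 1 :=
      mul_le_one₀ hτ.2 (le_max_left _ _) (max_le zero_le_one (min_le_right _ _))
    by_cases h : τ * max 0 (min (x 0) 1) ≤ 1 / 2
    · exact Or.inl ⟨_, mul_nonneg (by linarith) hx, if_pos h⟩
    · exact Or.inr ⟨_, ⟨by linarith, by linarith⟩, if_neg h⟩

theorem cat_hty {a : Z} (H : ℝ → Eu (n + 1) → Z)
    (hH : Continuous fun p : ℝ × Eu (n + 1) => H p.1 p.2)
    (hR : ∃ R : ℝ, ∀ s ∈ Icc (0 : ℝ) 1, ∀ x, R ≤ ‖x‖ → H s x ∈ A) (hl : ∀ s, Lft a (H s))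
    {g : Eu (n + 1) → Z} (hg : Rel A g) (h2 : Rgt a g) : Hty A (cat (H 0) g) (cat (H 1) g) := by
  obtain ⟨R, hR⟩ := hR
  obtain ⟨R', hR'⟩ := hg.far
  refine ⟨fun s => cat (H s) g, ?_, rfl, rfl, max R R', fun s hs x hx => ?_⟩
  · unfold cat
    exact Continuous.if_le hH (hg.cont.comp continuous_snd) (by fun_prop) continuous_const
      fun p hp => (hl _ _ hp.ge).trans (h2 _ hp.le).symm
  · dsimp only [cat]
    split_ifs
    · exact hR s hs x ((le_max_left _ _).trans hx)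
    · exact hR' x ((le_max_right _ _).trans hx)

theorem cat_shift {a : Z} {f g : Eu (n + 1) → Z} (hf : Rel A f) (h1 : Lft a f) (hg : Rel A g)
    (h2 : Rgt a g) {c : ℝ} (hc : 0 ≤ c) :
    Hty A (cat f g) (cat (fun x => f (x + Pi.single 0 c)) g) := by
  obtain ⟨R, hR⟩ := hf.far
  have h := cat_hty (A := A) (fun s x => f (x + max s 0 • Pi.single 0 c))
    (hf.cont.comp (by fun_prop)) ⟨R + c, fun s hs x hx => hR _ ?_⟩
    (fun s x hx => h1 _ ?_) hg h2
  · simpa using h
  · have h3 : ‖max s 0 • (Pi.single 0 c : Eu (n + 1))‖ ≤ c := by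
      rw [norm_smul, Pi.norm_single, max_eq_left hs.1, Real.norm_of_nonneg hs.1,
        Real.norm_of_nonneg hc]
      exact mul_le_of_le_one_left hc hs.2
    have h4 := norm_sub_le (x + max s 0 • Pi.single 0 c) (max s 0 • Pi.single 0 c)
    rw [add_sub_cancel_right] at h4
    linarith
  · rw [Pi.add_apply, Pi.smul_apply, Pi.single_eq_same]
    exact add_nonneg hx (mul_nonneg (le_max_right _ _) hc)

theorem cat_rf {a : Z} {f g : Eu (n + 1) → Z} (h1 : Lft a f) (h2 : Rgt a g) :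
    cat (g ∘ rf) (f ∘ rf) ∘ rf = cat f g := by
  funext x
  simp only [Function.comp_apply, cat, rf_rf, rf_zero, neg_nonpos]
  rcases lt_trichotomy (x 0) 0 with h | h | h
  · rw [if_neg h.not_ge, if_pos h.le]
  · rw [if_pos h.ge, if_pos h.le, h1 _ h.ge, h2 _ h.le]
  · rw [if_pos h.le, if_neg h.not_ge]

theorem lft_rf {a : Z} {f : Eu (n + 1) → Z} (h : Lft a f) : Rgt a (f ∘ rf) := fun x hx =>
  h _ (by rw [rf_zero]; linarith)

theorem rgt_rf {a : Z} {f : Eu (n + 1) → Z} (h : Rgt a f) : Lft a (f ∘ rf) := fun x hx =>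
  h _ (by rw [rf_zero]; linarith)

end RValA

theorem Hty.refl {f : Eu n → Z} (h : Rel A f) : Hty A f f :=
  ⟨fun _ => f, h.cont.comp continuous_snd, rfl, rfl, h.far.imp fun _ hR _ _ => hR⟩

theorem Hty.symm {f g : Eu n → Z} (h : Hty A f g) : Hty A g f := by
  obtain ⟨H, h1, h2, h3, R, hR⟩ := h
  refine ⟨fun s => H (1 - s), h1.comp (f := fun p : ℝ × Eu n => (1 - p.1, p.2)) (by fun_prop),
    by simpa using h3, by simpa using h2, R, fun s hs => hR _ ⟨?_, ?_⟩⟩ <;> linarith [hs.1, hs.2]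

theorem Hty.trans {f g k : Eu n → Z} (h : Hty A f g) (h' : Hty A g k) : Hty A f k := by
  obtain ⟨H, h1, rfl, h3, R, hR⟩ := h
  obtain ⟨H', h1', h2', rfl, R', hR'⟩ := h'
  refine ⟨fun s x => if s ≤ 1 / 2 then H (2 * s) x else H' (2 * s - 1) x, ?_, ?_, ?_, max R R',
    fun s hs x hx => ?_⟩
  · refine Continuous.if_le (h1.comp (f := fun p : ℝ × Eu n => (2 * p.1, p.2)) (by fun_prop))
      (h1'.comp (f := fun p : ℝ × Eu n => (2 * p.1 - 1, p.2)) (by fun_prop)) continuous_fst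
      continuous_const fun p hp => ?_
    rw [hp]
    norm_num [h3, h2']
  · funext x
    simp
  · funext x
    norm_num
  · dsimp only
    split_ifs with h
    · exact hR _ ⟨by linarith [hs.1], by linarith⟩ x ((le_max_left _ _).trans hx)
    · exact hR' _ ⟨by linarith, by linarith [hs.2]⟩ x ((le_max_right _ _).trans hx)

theorem Hty.left {f g : Eu n → Z} (h : Hty A f g) : Rel A f := by
  obtain ⟨H, h1, rfl, -, R, hR⟩ := h
  exact ⟨h1.comp (continuous_const.prodMk continuous_id), R, hR 0 ⟨le_rfl, zero_le_one⟩⟩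

theorem Hty.right {f g : Eu n → Z} (h : Hty A f g) : Rel A g := h.symm.left

theorem Hty.of_maps {f : Eu n → Z} (hf : Continuous f) {m : ℕ} (L : ℝ → Eu m → Eu n)
    (hL : Continuous fun p : ℝ × Eu m => L p.1 p.2)
    (h : ∃ R : ℝ, ∀ s ∈ Icc (0 : ℝ) 1, ∀ x, R ≤ ‖x‖ → f (L s x) ∈ A) :
    Hty A (f ∘ L 0) (f ∘ L 1) :=
  ⟨fun s x => f (L s x), hf.comp hL, rfl, rfl, h⟩

theorem Hty.comp {f g : Eu n → Z} (h : Hty A f g) {m : ℕ} {L : Eu m → Eu n} (hL : Continuous L)
    (hp : ∀ R : ℝ, ∃ R' : ℝ, ∀ x, R' ≤ ‖x‖ → R ≤ ‖L x‖) : Hty A (f ∘ L) (g ∘ L) := by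
  obtain ⟨H, h1, rfl, rfl, R, hR⟩ := h
  obtain ⟨R', hR'⟩ := hp R
  exact ⟨fun s x => H s (L x), h1.comp (continuous_fst.prodMk (hL.comp continuous_snd)), rfl, rfl,
    R', fun s hs x hx => hR s hs _ (hR' x hx)⟩

theorem Rel.shift {f : Eu n → Z} (h : Rel A f) (w : Eu n) : Hty A f fun x => f (x + w) := by
  obtain ⟨R, hR⟩ := h.far
  have h1 := Hty.of_maps (A := A) h.cont (fun s x => x + s • w) (by fun_prop)
    ⟨R + ‖w‖, fun s hs x hx => hR _ ?_⟩
  · simpa [Function.comp_def] using h1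
  · have h2 : ‖s • w‖ ≤ ‖w‖ := by
      rw [norm_smul, Real.norm_of_nonneg hs.1]
      exact mul_le_of_le_one_left (norm_nonneg w) hs.2
    have h3 := norm_sub_le (x + s • w) (s • w)
    rw [add_sub_cancel_right] at h3
    linarith

theorem Rel.scale {f : Eu n → Z} (h : Rel A f) {c : ℝ} (hc : 0 < c) :
    Hty A f fun x => f (c • x) := by
  obtain ⟨R, hR⟩ := h.far
  have h0 : 0 < min 1 c := lt_min zero_lt_one hc
  have h1 := Hty.of_maps (A := A) h.cont (fun s (x : Eu n) => (1 - s + s * c) • x) (by fun_prop)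
    ⟨R / min 1 c, fun s hs x hx => hR _ ?_⟩
  · simpa [Function.comp_def] using h1
  · have h2 : min 1 c ≤ 1 - s + s * c := by
      nlinarith [mul_le_mul_of_nonneg_left (min_le_left 1 c) (sub_nonneg.2 hs.2),
        mul_le_mul_of_nonneg_left (min_le_right 1 c) hs.1]
    rw [div_le_iff₀' h0] at hx
    rw [norm_smul, Real.norm_of_nonneg (h0.le.trans h2)]
    exact hx.trans (mul_le_mul_of_nonneg_right h2 (norm_nonneg x))

theorem Rel.rot {f : Eu n → Z} (h : Rel A f) {i j : Fin n} (hij : i ≠ j) :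
    Hty A f fun x => f (Function.update (Function.update x i (-x j)) j (x i)) := by
  obtain ⟨R, hR⟩ := h.far
  have h1 := Hty.of_maps (A := A) h.cont (fun s (x : Eu n) =>
      (1 - s) • x + s • Function.update (Function.update x i (-x j)) j (x i)) (by fun_prop)
    ⟨2 * R, fun s hs x hx => hR _ ?_⟩
  · simpa [Function.comp_def] using h1
  · set y := (1 - s) • x + s • Function.update (Function.update x i (-x j)) j (x i) with hy
    have hi : y i = (1 - s) * x i - s * x j := by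
      simp [hy, Function.update_of_ne hij, sub_eq_add_neg]
    have hj : y j = (1 - s) * x j + s * x i := by simp [hy]
    have h0 := norm_nonneg y
    have bi := abs_le.1 (norm_le_pi_norm y i)
    have bj := abs_le.1 (norm_le_pi_norm y j)
    have key : ∀ t u v : ℝ, ((1 - s) ^ 2 + s ^ 2) * t = (1 - s) * u + s * v →
        -‖y‖ ≤ u ∧ u ≤ ‖y‖ → -‖y‖ ≤ v ∧ v ≤ ‖y‖ → ‖t‖ ≤ 2 * ‖y‖ := by
      intro t u v e hu hv
      have h2 : |((1 - s) ^ 2 + s ^ 2) * t| ≤ ‖y‖ := by
        rw [e, abs_le]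
        constructor <;> nlinarith [mul_nonneg (sub_nonneg.2 hs.2) (sub_nonneg.2 hu.1),
          mul_nonneg (sub_nonneg.2 hs.2) (sub_nonneg.2 hu.2),
          mul_nonneg hs.1 (sub_nonneg.2 hv.1), mul_nonneg hs.1 (sub_nonneg.2 hv.2)]
      rw [abs_mul, abs_of_nonneg (by positivity)] at h2
      rw [Real.norm_eq_abs]
      nlinarith [mul_nonneg (sq_nonneg (1 - 2 * s)) (abs_nonneg t)]
    have h2 : ‖x‖ ≤ 2 * ‖y‖ := by
      refine (pi_norm_le_iff_of_nonneg (by positivity)).2 fun k => ?_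
      rcases eq_or_ne k i with rfl | hki
      · exact key _ _ _ (by rw [hi, hj]; ring) bi bj
      rcases eq_or_ne k j with rfl | hkj
      · exact key _ _ (-y i) (by rw [hi, hj]; ring) bj ⟨by linarith [bi.2], by linarith [bi.1]⟩
      · have h3 : y k = x k := by
          simp only [hy, Pi.add_apply, Pi.smul_apply, Function.update_of_ne hki,
            Function.update_of_ne hkj, smul_eq_mul]
          ring
        linarith [h3 ▸ norm_le_pi_norm y k]
    linarith

theorem continuous_cle (i : Fin n) (c : ℝ) : Continuous (cle i c) :=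
  continuous_id.update i ((continuous_apply i).min continuous_const)

theorem continuous_cge (i : Fin n) (c : ℝ) : Continuous (cge i c) :=
  continuous_id.update i ((continuous_apply i).max continuous_const)

theorem Rel.comp_cle {f : Eu n → Z} (h : Rel A f) {i : Fin n} {c : ℝ}
    (hc : ∀ x, x i = c → f x ∈ A) : Rel A (f ∘ cle i c) := by
  obtain ⟨R, hR⟩ := h.far
  refine ⟨h.cont.comp (continuous_cle i c), R, fun x hx => ?_⟩
  rcases le_total (x i) c with h1 | h1
  · rw [Function.comp_apply, cle, min_eq_left h1, Function.update_eq_self]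
    exact hR x hx
  · exact hc _ (by rw [cle, Function.update_self, min_eq_right h1])

theorem Rel.comp_cge {f : Eu n → Z} (h : Rel A f) {i : Fin n} {c : ℝ}
    (hc : ∀ x, x i = c → f x ∈ A) : Rel A (f ∘ cge i c) := by
  obtain ⟨R, hR⟩ := h.far
  refine ⟨h.cont.comp (continuous_cge i c), R, fun x hx => ?_⟩
  rcases le_total c (x i) with h1 | h1
  · rw [Function.comp_apply, cge, max_eq_left h1, Function.update_eq_self]
    exact hR x hx
  · exact hc _ (by rw [cge, Function.update_self, max_eq_right h1])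

theorem hty_const (hA : IsPathConnected A) {a : Z} (ha : a ∈ A) {f : Eu n → Z}
    (hf : Continuous f) (h : ∀ x, f x ∈ A) : Hty A f fun _ => a := by
  have h1 := Hty.of_maps (A := A) hf (fun s (x : Eu n) => (1 - s) • x) (by fun_prop)
    ⟨0, fun _ _ _ _ => h _⟩
  obtain ⟨γ, hγ⟩ := hA.joinedIn (f 0) (h 0) a ha
  refine Hty.trans (g := fun _ => f 0) (by simpa [Function.comp_def] using h1)
    ⟨fun s _ => γ.extend s, γ.continuous_extend.comp continuous_fst, by simp, by simp, 0,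
      fun s hs _ _ => ?_⟩
  dsimp only
  rw [γ.extend_apply hs]
  exact hγ _

theorem Rel.exists_lft (hA : IsPathConnected A) {a : Z} (ha : a ∈ A) {f : Eu (n + 1) → Z}
    (h : Rel A f) : ∃ g, Hty A f g ∧ Lft a g := by
  obtain ⟨R, hR⟩ := h.far
  have h1 := h.shift (Pi.single 0 |R|)
  obtain ⟨R', hR'⟩ := h1.right.far
  have h2 : ∀ x : Eu (n + 1), 0 ≤ x 0 → f (x + Pi.single 0 |R|) ∈ A := fun x hx =>
    hR _ (RValA.far_half hx)
  obtain ⟨γ, hγ⟩ := hA.joinedIn _ (h2 0 le_rfl) a ha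
  obtain ⟨W, w1, w2, w3, w4, w5⟩ := RValA.collar (P := Unit)
    (u := fun _ x => f (x + Pi.single 0 |R|)) (h1.right.cont.comp continuous_snd)
    (Γ := fun t _ => γ.extend t) (γ.continuous_extend.comp continuous_fst) fun _ => γ.extend_zero
  have h3 : Hty A (fun x => f (x + Pi.single 0 |R|)) (W 1 ()) := by
    refine ⟨fun τ => W τ (), w1.comp (f := fun p : ℝ × Eu (n + 1) => (p.1, (), p.2)) (by fun_prop),
      funext (w2 ()), rfl, R', fun τ hτ x hx => ?_⟩
    dsimp only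
    rcases le_total (x 0) 0 with h4 | h4
    · rw [w3 _ _ _ h4]
      exact hR' x hx
    · rcases w5 τ hτ () x h4 with ⟨y, hy, e⟩ | ⟨t, ht, e⟩ <;> rw [e]
      · exact h2 y hy
      · rw [γ.extend_apply ht]
        exact hγ _
  refine ⟨_, (h1.trans h3).trans (h3.right.shift (Pi.single 0 1)), fun x hx => ?_⟩
  exact (w4 _ _ (by simpa using hx)).trans γ.extend_one

theorem Rel.exists_rgt (hA : IsPathConnected A) {a : Z} (ha : a ∈ A) {f : Eu (n + 1) → Z}
    (h : Rel A f) : ∃ g, Hty A f g ∧ Rgt a g := by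
  obtain ⟨g, h1, h2⟩ :=
    ((Hty.refl h).comp RValA.continuous_rf RValA.far_rf).left.exists_lft hA ha
  refine ⟨g ∘ RValA.rf, ?_, RValA.lft_rf h2⟩
  simpa [Function.comp_def, RValA.rf_rf] using h1.comp RValA.continuous_rf RValA.far_rf

theorem Rel.concat {a : Z} {f g : Eu (n + 1) → Z} (hf : Rel A f) (hg : Rel A g) (h1 : Lft a f)
    (h2 : Rgt a g) : Rel A (cat f g) :=
  (RValA.cat_shift hf h1 hg h2 le_rfl).left

theorem RValA.cat_left (hA : IsSimplyConnected A) {a : Z} {f f' g : Eu (n + 1) → Z}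
    (hf : Hty A f f') (h1 : Lft a f) (h1' : Lft a f') (hg : Rel A g) (h2 : Rgt a g) :
    Hty A (cat f g) (cat f' g) := by
  have r := hf.left
  have r' := hf.right
  obtain ⟨H, c1, rfl, rfl, R, hR⟩ := hf
  have e0 : ∀ x : Eu (n + 1), 0 ≤ x 0 → 0 ≤ (x + Pi.single 0 |R| : Eu (n + 1)) 0 := fun x hx => by
    simpa using add_nonneg hx (abs_nonneg R)
  let p : Path a a := ⟨⟨fun t => H t (0 + Pi.single 0 |R|),
    c1.comp (continuous_subtype_val.prodMk continuous_const)⟩, h1 _ (e0 0 le_rfl),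
    h1' _ (e0 0 le_rfl)⟩
  obtain ⟨F, hF⟩ := (isSimplyConnected_iff_exists_homotopy_refl_forall_mem.1 hA).2 a p
    fun t => hR t t.2 _ (RValA.far_half le_rfl)
  have cp : Continuous (projIcc (0 : ℝ) 1 zero_le_one) := continuous_projIcc
  obtain ⟨W, w1, -, w3, w4, w5⟩ := RValA.collar (P := ℝ)
    (u := fun s x => H (projIcc (0 : ℝ) 1 zero_le_one s) (x + Pi.single 0 |R|))
    (c1.comp ((continuous_subtype_val.comp (cp.comp continuous_fst)).prodMk (by fun_prop)))
    (Γ := fun t s => F (projIcc 0 1 zero_le_one t, projIcc 0 1 zero_le_one s))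
    (F.continuous.comp ((cp.comp continuous_fst).prodMk (cp.comp continuous_snd)))
    fun s => by rw [projIcc_left]; exact F.apply_zero _
  obtain ⟨R₁, hR₁⟩ := RValA.far_add (Pi.single 0 |R| : Eu (n + 1)) R
  obtain ⟨R₂, hR₂⟩ := RValA.far_add (Pi.single 0 1 : Eu (n + 1)) R₁
  have h3 := RValA.cat_hty (A := A) (fun s x => W 1 s (x + Pi.single 0 1))
    (w1.comp (f := fun q : ℝ × Eu (n + 1) => (1, q.1, q.2 + Pi.single 0 1)) (by fun_prop))
    ⟨R₂, fun s _ x hx => ?_⟩ (fun s x hx => ?_) hg h2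
  · have h4 : ∀ s : ℝ, Lft a (H (projIcc (0 : ℝ) 1 zero_le_one s)) →
        (∀ t, F (t, projIcc 0 1 zero_le_one s) = a) → (fun x => W 1 s (x + Pi.single 0 1)) =
          fun x => H (projIcc (0 : ℝ) 1 zero_le_one s) (x + (Pi.single 0 (1 + |R|) : Eu (n + 1))) := by
      intro s hs hs'
      funext x
      rw [Pi.single_add, ← add_assoc]
      rcases le_total ((x + Pi.single 0 1 : Eu (n + 1)) 0) 0 with h5 | h5
      · exact w3 _ _ _ h5
      · rw [hs _ (e0 _ h5)]
        rcases w5 1 ⟨zero_le_one, le_rfl⟩ s _ h5 with ⟨y, hy, e⟩ | ⟨t, -, e⟩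
        · exact e.trans (hs _ (e0 y hy))
        · exact e.trans (hs' _)
    have h5 := h4 0 (by rw [projIcc_left]; exact h1) fun t => by
      rw [projIcc_left]; exact F.source t
    have h6 := h4 1 (by rw [projIcc_right]; exact h1') fun t => by
      rw [projIcc_right]; exact F.target t
    rw [projIcc_left] at h5
    rw [projIcc_right] at h6
    rw [h5, h6] at h3
    exact ((RValA.cat_shift r h1 hg h2 (by positivity)).trans h3).trans
      (RValA.cat_shift r' h1' hg h2 (by positivity)).symm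
  · rcases le_total ((x + Pi.single 0 1 : Eu (n + 1)) 0) 0 with h5 | h5
    · rw [w3 _ _ _ h5]
      exact hR _ (projIcc (0 : ℝ) 1 zero_le_one s).2 _ (hR₁ _ (hR₂ x hx))
    · rcases w5 1 ⟨zero_le_one, le_rfl⟩ s _ h5 with ⟨y, hy, e⟩ | ⟨t, -, e⟩ <;> rw [e]
      · exact hR _ (projIcc (0 : ℝ) 1 zero_le_one s).2 _ (RValA.far_half hy)
      · exact hF _
  · refine (w4 _ _ (by simpa using hx)).trans ?_
    rw [projIcc_right]
    exact F.apply_one _

theorem Hty.concat (hA : IsSimplyConnected A) {a : Z} (ha : a ∈ A) {f f' g g' : Eu (n + 1) → Z}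
    (hf : Hty A f f') (hg : Hty A g g') (h1 : Lft a f) (h1' : Lft a f') (h2 : Rgt a g)
    (h2' : Rgt a g') : Hty A (cat f g) (cat f' g') := by
  have h3 := RValA.cat_left hA (hg.comp RValA.continuous_rf RValA.far_rf) (RValA.rgt_rf h2)
    (RValA.rgt_rf h2') (hf.comp RValA.continuous_rf RValA.far_rf).right (RValA.lft_rf h1')
  have h4 := h3.comp RValA.continuous_rf RValA.far_rf
  rw [RValA.cat_rf h1' h2, RValA.cat_rf h1' h2'] at h4
  exact (RValA.cat_left hA hf h1 h1' hg.left h2).trans h4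

end HW
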